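import Mathlib

/-!
Polynomials over a domain: common factors and constant quotients.
-/

set_option autoImplicit false

namespace Pool.Agent.N626

open Polynomial

variable {R : Type} [CommRing R] [IsDomain R]

theorem common_den {ι : Type} [Fintype ι] (U : ι → (FractionRing R)[X]) :
    ∃ (s : R) (W : ι → R[X]), s ≠ 0 ∧
      ∀ j, (W j).map (algebraMap R (FractionRing R)) = C (algebraMap R (FractionRing R) s) * U j := by
  classical
  choose s hs using fun j => IsLocalization.integerNormalization_map_to_map (nonZeroDivisors R) (U j)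
  refine ⟨∏ i, (s i : R), fun j => C (∏ i ∈ Finset.univ.erase j, (s i : R)) *
    IsLocalization.integerNormalization (nonZeroDivisors R) (U j),
    Finset.prod_ne_zero_iff.2 fun i _ => nonZeroDivisors.ne_zero (s i).2, fun j => ?_⟩
  have h1 : (s j : R) • U j = C (algebraMap R (FractionRing R) (s j : R)) * U j := by
    rw [Algebra.smul_def]
    rfl
  rw [Polynomial.map_mul, hs j, map_C, h1, ← mul_assoc, ← C_mul, ← map_mul,
    Finset.prod_erase_mul _ _ (Finset.mem_univ j)]

/-- coprime multiples -/
theorem prim {ι : Type} [Fintype ι] {p : ι → R[X]} (hp : p ≠ 0) :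
    ∃ (W b : ι → R[X]) (S : R), S ≠ 0 ∧ ∑ j, b j * W j = C S ∧ ∀ i j, p i * W j = p j * W i := by
  classical
  let φ := algebraMap R (FractionRing R)
  have hφ : Function.Injective φ := IsFractionRing.injective R _
  let P : ι → (FractionRing R)[X] := fun j => (p j).map φ
  let I := Ideal.span (Set.range P)
  obtain ⟨g, hg⟩ := (IsPrincipalIdealRing.principal I).principal
  have hgI : g ∈ I := by
    rw [hg]
    exact Submodule.mem_span_singleton_self g
  have hdvd : ∀ j, ∃ u, P j = g * u := by
    intro j
    have h1 : P j ∈ I := Ideal.subset_span ⟨j, rfl⟩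
    rw [hg] at h1
    obtain ⟨u, hu⟩ := Submodule.mem_span_singleton.1 h1
    exact ⟨u, by rw [← hu, smul_eq_mul, mul_comm]⟩
  choose U hU using hdvd
  obtain ⟨c, hc⟩ := Ideal.mem_span_range_iff_exists_fun.1 hgI
  have hg0 : g ≠ 0 := by
    intro h0
    apply hp
    funext j
    have h1 := hU j
    rw [h0, zero_mul] at h1
    exact (Polynomial.map_eq_zero_iff hφ).1 h1
  have hcU : ∑ j, c j * U j = 1 := by
    apply mul_left_cancel₀ hg0
    rw [mul_one, Finset.mul_sum]
    conv_rhs => rw [← hc]
    refine Finset.sum_congr rfl fun j _ => ?_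
    rw [hU j]
    ring
  obtain ⟨s, W, hs, hW⟩ := common_den U
  obtain ⟨t, b, ht, hb⟩ := common_den c
  refine ⟨W, b, t * s, mul_ne_zero ht hs, ?_, fun i j => ?_⟩
  · apply Polynomial.map_injective φ hφ
    rw [Polynomial.map_sum]
    have h1 : ∀ j, (b j * W j).map φ = C (φ t) * C (φ s) * (c j * U j) := by
      intro j
      rw [Polynomial.map_mul, hW, hb]
      ring
    simp only [h1]
    rw [← Finset.mul_sum, hcU, mul_one, map_C, map_mul, C_mul]
  · apply Polynomial.map_injective φ hφ
    rw [Polynomial.map_mul, Polynomial.map_mul, hW, hW]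
    have h1 : (p i).map φ = g * U i := hU i
    have h2 : (p j).map φ = g * U j := hU j
    rw [h1, h2]
    ring

theorem prim_ne {ι : Type} [Fintype ι] {p W b : ι → R[X]} {S : R} (hS : S ≠ 0)
    (hb : ∑ j, b j * W j = C S) (hp : ∀ i j, p i * W j = p j * W i) {l : ι} (hl : p l ≠ 0) :
    W l ≠ 0 := by
  intro h0
  apply hS
  have h1 : ∀ j, W j = 0 := by
    intro j
    have h2 := hp l j
    rw [h0, mul_zero] at h2
    exact (mul_eq_zero.1 h2).resolve_left hl
  rw [← C_eq_zero, ← hb]
  exact Finset.sum_eq_zero fun j _ => by rw [h1, mul_zero]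

/-- constant quotients -/
theorem der_prop [CharZero R] {P Q : R[X]} (h : derivative P * Q = P * derivative Q) (n : ℕ) :
    C (Q.coeff n) * P = C (P.coeff n) * Q := by
  by_cases hQ : Q = 0
  · rw [hQ]
    simp
  let d := Q.natDegree
  let P1 := C (Q.coeff d) * P - C (P.coeff d) * Q
  have h1 : derivative P1 * Q = P1 * derivative Q := by
    simp only [P1, derivative_sub, derivative_C_mul]
    linear_combination C (Q.coeff d) * h
  have h2 : P1.coeff d = 0 := by
    simp only [P1, coeff_sub, coeff_C_mul]
    ring
  have hlc : Q.coeff d ≠ 0 := by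
    rw [coeff_natDegree]
    exact leadingCoeff_ne_zero.2 hQ
  have h3 : P1 = 0 := by
    by_contra hne
    let m := P1.natDegree
    have hlc1 : P1.coeff m ≠ 0 := by
      rw [coeff_natDegree]
      exact leadingCoeff_ne_zero.2 hne
    have hmd : m ≠ d := by
      intro h
      rw [h] at hlc1
      exact hlc1 h2
    have h4 : (m : R) * (P1.coeff m * Q.coeff d) = d * (P1.coeff m * Q.coeff d) := by
      have h5 := congrArg (fun p => (X * p).coeff (m + d)) h1
      beta_reduce at h5
      have h6 : X * (derivative P1 * Q) = (X * derivative P1) * Q := by ring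
      have h7 : X * (P1 * derivative Q) = P1 * (X * derivative Q) := by ring
      have e1 : ∀ (A : R[X]) (k : ℕ), (X * derivative A).coeff k = k * A.coeff k := by
        intro A k
        cases k with
        | zero => simp
        | succ k =>
          rw [coeff_X_mul, coeff_derivative]
          push_cast
          ring
      have e2 : ∀ A : R[X], (X * derivative A).natDegree ≤ A.natDegree := by
        intro A
        rw [natDegree_le_iff_coeff_eq_zero]
        intro k hk
        rw [e1, coeff_eq_zero_of_natDegree_lt hk, mul_zero]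
      rw [h6, h7, coeff_mul_add_eq_of_natDegree_le (e2 P1) (le_refl d),
        coeff_mul_add_eq_of_natDegree_le (le_refl m) (e2 Q), e1, e1] at h5
      linear_combination h5
    have h5 := mul_right_cancel₀ (mul_ne_zero hlc1 hlc) h4
    exact hmd (Nat.cast_injective h5)
  have h4 : C (Q.coeff d) * P = C (P.coeff d) * Q := sub_eq_zero.1 h3
  have h5 : Q.coeff d * P.coeff n = P.coeff d * Q.coeff n := by
    have := congrArg (fun p => coeff p n) h4
    simpa only [coeff_C_mul] using this
  have h6 : C (Q.coeff d) * C (P.coeff n) = C (P.coeff d) * C (Q.coeff n) := by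
    rw [← C_mul, ← C_mul, h5]
  apply mul_left_cancel₀ (C_ne_zero.2 hlc)
  linear_combination C (Q.coeff n) * h4 - Q * h6

end Pool.Agent.N626
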