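import Mathlib

/-!
Linear dependence over the constants of a difference field: if the vectors `σ^m v` satisfy a linear
relation with coefficients in a larger field for all large `m`, then the entries of `v` are linearly
dependent over the fixed field of `σ`.
-/

set_option autoImplicit false

namespace Pool.Agent.N626

open Filter

variable {F : Type} [Field F]

theorem pow_succ_apply (σ : F →+* F) (m : ℕ) (a : F) : (σ ^ (m + 1)) a = (σ ^ m) (σ a) := by
  rw [pow_succ]
  rfl

theorem pow_succ_apply' (σ : F →+* F) (m : ℕ) (a : F) : (σ ^ (m + 1)) a = σ ((σ ^ m) a) := by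
  rw [pow_succ']
  rfl

theorem pow_add_apply (σ : F →+* F) (m s : ℕ) (a : F) : (σ ^ (m + s)) a = (σ ^ m) ((σ ^ s) a) := by
  rw [pow_add]
  rfl

/-- **Casorati.** -/
theorem casorati (σ : F →+* F) (θ : F →+* ℂ) {ι : Type} [Fintype ι] (v : ι → F) (p : ι → ℂ)
    (hp : p ≠ 0) (h : ∀ᶠ m in atTop, ∑ i, p i * θ ((σ ^ m) (v i)) = 0) :
    ∃ c : ι → F, c ≠ 0 ∧ (∀ i, σ (c i) = c i) ∧ ∑ i, c i * v i = 0 := by
  classical
  -- a relation over `F`
  have h1 : ∃ u : ι → F, u ≠ 0 ∧ ∀ᶠ m in atTop, ∑ i, u i * (σ ^ m) (v i) = 0 := by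
    by_contra hcon
    push Not at hcon
    obtain ⟨m0, hm0⟩ := eventually_atTop.1 h
    let V : Submodule F (ι → F) := Submodule.span F {w | ∃ m, m0 ≤ m ∧ w = fun i => (σ ^ m) (v i)}
    have hV : V = ⊤ := by
      by_contra hne
      obtain ⟨φ, hφ, hle⟩ := Submodule.exists_le_ker_of_lt_top V (lt_top_iff_ne_top.2 hne)
      have hval : ∀ w : ι → F, φ w = ∑ i, φ (Pi.single i 1) * w i := by
        intro w
        have h2 : w = ∑ i, w i • (Pi.single i 1 : ι → F) := by
          funext k
          rw [Finset.sum_apply]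
          simp [Pi.single_apply]
        conv_lhs => rw [h2]
        rw [map_sum]
        refine Finset.sum_congr rfl fun i _ => ?_
        rw [map_smul, smul_eq_mul, mul_comm]
      have h3 := hcon (fun i => φ (Pi.single i 1)) (by
        intro h0
        apply hφ
        ext w
        have h4 := congrFun h0 w
        simp only [Pi.zero_apply] at h4
        simp [h4])
      refine h3 (eventually_atTop.2 ⟨m0, fun m hm => ?_⟩)
      have h9 : (∑ i, φ (Pi.single i 1) * (σ ^ m) (v i)) = 0 := by
        rw [← hval fun i => (σ ^ m) (v i)]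
        exact hle (Submodule.subset_span ⟨m, hm, rfl⟩)
      exact fun h => h h9
    have hall : ∀ w ∈ V, ∑ i, p i * θ (w i) = 0 := by
      intro w hw
      induction hw using Submodule.span_induction with
      | mem w hw =>
        obtain ⟨m, hm, rfl⟩ := hw
        exact hm0 m hm
      | zero => simp
      | add a b _ _ ha hb =>
        simp only [Pi.add_apply, map_add, mul_add, Finset.sum_add_distrib, ha, hb, add_zero]
      | smul c a _ ha =>
        simp only [Pi.smul_apply, smul_eq_mul, map_mul]
        have h5 : ∀ i, p i * (θ c * θ (a i)) = θ c * (p i * θ (a i)) := fun i => by ring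
        simp only [h5]
        rw [← Finset.mul_sum, ha, mul_zero]
    apply hp
    funext k
    have h6 := hall (Pi.single k 1) (by rw [hV]; exact Submodule.mem_top)
    have h7 : ∀ i, p i * θ ((Pi.single k 1 : ι → F) i) = if i = k then p i else 0 := by
      intro i
      by_cases hik : i = k
      · subst hik
        simp
      · simp [hik]
    simp only [h7, Finset.sum_ite_eq', Finset.mem_univ, if_true] at h6
    exact h6
  -- a relation with minimal support
  have h2 : ∃ n : ℕ, ∃ u : ι → F, u ≠ 0 ∧ (∀ᶠ m in atTop, ∑ i, u i * (σ ^ m) (v i) = 0) ∧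
      (Finset.univ.filter fun i => u i ≠ 0).card = n := by
    obtain ⟨u, hu, hu'⟩ := h1
    exact ⟨_, u, hu, hu', rfl⟩
  obtain ⟨u, hu, hu', hn⟩ := Nat.find_spec h2
  have hmin : ∀ w : ι → F, (∀ᶠ m in atTop, ∑ i, w i * (σ ^ m) (v i) = 0) →
      (Finset.univ.filter fun i => w i ≠ 0).card < Nat.find h2 → w = 0 := by
    intro w hw hlt
    by_contra hne
    exact Nat.find_min h2 hlt ⟨w, hne, hw, rfl⟩
  obtain ⟨i0, hi0⟩ := Function.ne_iff.1 hu
  have hi0' : u i0 ≠ 0 := hi0
  let c : ι → F := fun i => (u i0)⁻¹ * u i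
  have hc : ∀ᶠ m in atTop, ∑ i, c i * (σ ^ m) (v i) = 0 := by
    filter_upwards [hu'] with m hm
    have h3 : ∀ i, c i * (σ ^ m) (v i) = (u i0)⁻¹ * (u i * (σ ^ m) (v i)) := fun i => by
      simp only [c]
      ring
    simp only [h3]
    rw [← Finset.mul_sum, hm, mul_zero]
  have hc0 : c i0 = 1 := inv_mul_cancel₀ hi0'
  have hσc : ∀ᶠ m in atTop, ∑ i, σ (c i) * (σ ^ m) (v i) = 0 := by
    obtain ⟨m0, hm0⟩ := eventually_atTop.1 hc
    refine eventually_atTop.2 ⟨m0 + 1, fun m hm => ?_⟩
    obtain ⟨k, rfl⟩ : ∃ k, m = k + 1 := ⟨m - 1, by omega⟩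
    have h3 := congrArg σ (hm0 k (by omega))
    rw [map_sum, map_zero] at h3
    rw [← h3]
    refine Finset.sum_congr rfl fun i _ => ?_
    rw [map_mul σ (c i), pow_succ_apply']
  have hd : (fun i => σ (c i) - c i) = 0 := by
    apply hmin
    · filter_upwards [hc, hσc] with m h3 h4
      simp only [sub_mul, Finset.sum_sub_distrib, h3, h4, sub_zero]
    · rw [← hn]
      apply Finset.card_lt_card
      rw [Finset.ssubset_iff_of_subset]
      · refine ⟨i0, by simp [hi0'], ?_⟩
        simp [hc0]
      · intro i hi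
        simp only [Finset.mem_filter, Finset.mem_univ, true_and] at hi ⊢
        intro h0
        apply hi
        simp [c, h0]
  refine ⟨c, fun h0 => ?_, fun i => ?_, ?_⟩
  · have := congrFun h0 i0
    rw [hc0] at this
    exact one_ne_zero this
  · exact sub_eq_zero.1 (congrFun hd i)
  · obtain ⟨m, hm⟩ := hc.exists
    have hfix : ∀ (k : ℕ) (i : ι), (σ ^ k) (c i) = c i := by
      intro k i
      induction k with
      | zero => rfl
      | succ k ih =>
        rw [pow_succ_apply, sub_eq_zero.1 (congrFun hd i), ih]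
    have h3 : (σ ^ m) (∑ i, c i * v i) = 0 := by
      rw [map_sum, ← hm]
      refine Finset.sum_congr rfl fun i _ => ?_
      rw [map_mul, hfix]
    exact (map_eq_zero_iff _ (σ ^ m).injective).1 h3

end Pool.Agent.N626
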