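import Mathlib

/-!
Embeddings of fields into the complex numbers.
-/

set_option autoImplicit false

namespace Pool.Agent.N626

open Cardinal

theorem exists_embed' (F : Type) [Field F] [CharZero F] (h : #F ≤ 𝔠) : Nonempty (F →+* ℂ) := by
  let P := MvPolynomial ℂ F
  let K := AlgebraicClosure (FractionRing P)
  have hcP : CharZero P := charZero_of_injective_algebraMap (MvPolynomial.C_injective ℂ F)
  let ι : P →+* K := (algebraMap (FractionRing P) K).comp (algebraMap P (FractionRing P))
  have hι : Function.Injective ι :=
    (algebraMap (FractionRing P) K).injective.comp (IsFractionRing.injective P _)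
  have hcK : CharZero K := charZero_of_injective_ringHom hι
  have h0 : #(FractionRing P) ≤ 𝔠 := by
    rw [Cardinal.mk_fractionRing]
    refine (MvPolynomial.cardinalMk_le_max (σ := ℂ) (R := F)).trans ?_
    rw [mk_complex]
    exact max_le (max_le h le_rfl) aleph0_le_continuum
  have h1 : #K ≤ 𝔠 :=
    (Algebra.IsAlgebraic.cardinalMk_le_max (FractionRing P) K).trans
      (max_le h0 aleph0_le_continuum)
  have h2 : 𝔠 ≤ #K := by
    rw [← mk_complex]
    refine mk_le_of_injective (f := fun c : ℂ => ι (MvPolynomial.X c)) ?_
    intro a b hab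
    exact MvPolynomial.X_injective (hι hab)
  have h3 : #K = #ℂ := by
    rw [mk_complex]
    exact le_antisymm h1 h2
  obtain ⟨e⟩ := IsAlgClosed.ringEquiv_of_equiv_of_charZero (K := K) (L := ℂ)
    (aleph0_lt_continuum.trans_le h2) (Cardinal.eq.1 h3)
  exact ⟨(e : K →+* ℂ).comp (ι.comp MvPolynomial.C)⟩

end Pool.Agent.N626
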