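import Pool.Agent.N626.Cas

/-!
Difference fields: linear difference equations with coefficients in `C(Z)`, where `C` is the field of
the constants and `σ Z = Z + 1`.
-/

set_option autoImplicit false

namespace Pool.Agent.N626

open Filter

variable {F : Type} [Field F]

/-- `r` is algebraic over the field generated by `Z` and the constants -/
def AlgC (σ : F →+* F) (Z r : F) : Prop :=
  ∃ (n : ℕ) (c : Fin n × Fin n → F), c ≠ 0 ∧ (∀ i, σ (c i) = c i) ∧
    ∑ i, c i * (Z ^ (i.1 : ℕ) * r ^ (i.2 : ℕ)) = 0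

/-- linear difference equations with coefficients in `C[Z]` -/
def LinD (σ : F →+* F) (Z g : F) : Prop :=
  ∃ (n : ℕ) (P : ℕ → Polynomial F), (∀ k, (P k).map σ = P k) ∧ (∃ k ≤ n, P k ≠ 0) ∧
    ∑ k ∈ Finset.range (n + 1), (P k).eval Z * (σ ^ k) g = 0

/-- homogeneous difference equations of order one -/
def HypD (σ : F →+* F) (Z q : F) : Prop :=
  ∃ P R : Polynomial F, P.map σ = P ∧ R.map σ = R ∧ P ≠ 0 ∧ P.eval Z * σ q = R.eval Z * q

theorem pow_Z {σ : F →+* F} {Z : F} (hZ : σ Z = Z + 1) (m : ℕ) : (σ ^ m) Z = Z + m := by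
  induction m with
  | zero => simp
  | succ m ih =>
    rw [pow_succ_apply, hZ, map_add, ih, map_one]
    push_cast
    ring

theorem map_iter {σ : F →+* F} {P : Polynomial F} (h : P.map σ = P) (m : ℕ) :
    P.map (σ ^ m) = P := by
  induction m with
  | zero =>
    have h1 : (σ ^ 0 : F →+* F) = RingHom.id F := rfl
    rw [h1, Polynomial.map_id]
  | succ m ih =>
    have h1 : (σ ^ (m + 1) : F →+* F) = (σ ^ m).comp σ := pow_succ σ m
    rw [h1, ← Polynomial.map_map, h, ih]

theorem eval_Z {σ : F →+* F} {Z : F} (hZ : σ Z = Z + 1) (θ : F →+* ℂ) {P : Polynomial F}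
    (h : P.map σ = P) (m : ℕ) : θ ((σ ^ m) (P.eval Z)) = (P.map θ).eval (θ Z + m) := by
  rw [← Polynomial.eval_map_apply, map_iter h, pow_Z hZ, ← Polynomial.eval_map_apply, map_add,
    map_natCast]

theorem t_inj (a : ℂ) : Function.Injective fun m : ℕ => a + (m : ℂ) := by
  intro m n h
  simpa using h

theorem zero_of_ev {θ : F →+* ℂ} {σ : F →+* F} {Z r : F} (hZ : σ Z = Z + 1)
    {P : Polynomial (Polynomial ℂ)} (hP : P ≠ 0)
    (h : ∀ᶠ m : ℕ in atTop, P.evalEval (θ Z + m) (θ ((σ ^ m) r)) = 0) : AlgC σ Z r := by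
  classical
  -- the size
  let n : ℕ := P.natDegree + 1 + (P.support.sup fun b => (P.coeff b).natDegree + 1)
  have hn1 : P.natDegree < n := by omega
  have hn2 : ∀ b, (P.coeff b).natDegree < n := by
    intro b
    by_cases hb : b ∈ P.support
    · have h1 := Finset.le_sup (f := fun b => (P.coeff b).natDegree + 1) hb
      omega
    · rw [Polynomial.notMem_support_iff.1 hb, Polynomial.natDegree_zero]
      omega
  let p : Fin n × Fin n → ℂ := fun i => (P.coeff i.2).coeff i.1
  have hp : p ≠ 0 := by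
    intro h0
    apply hP
    ext b a
    rw [Polynomial.coeff_zero, Polynomial.coeff_zero]
    by_cases hb : b < n
    · by_cases ha : a < n
      · exact congrFun h0 (⟨a, ha⟩, ⟨b, hb⟩)
      · exact Polynomial.coeff_eq_zero_of_natDegree_lt ((hn2 b).trans_le (not_lt.1 ha))
    · rw [Polynomial.coeff_eq_zero_of_natDegree_lt (hn1.trans_le (not_lt.1 hb)),
        Polynomial.coeff_zero]
  obtain ⟨c, hc, hσ, hs⟩ := casorati σ θ (fun i : Fin n × Fin n => Z ^ (i.1 : ℕ) * r ^ (i.2 : ℕ)) p
    hp (by
      filter_upwards [h] with m hm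
      rw [← hm]
      unfold Polynomial.evalEval
      rw [Polynomial.eval_eq_sum_range' hn1, Polynomial.eval_finsetSum, Fintype.sum_prod_type_right,
        Finset.sum_range]
      refine Finset.sum_congr rfl fun b _ => ?_
      rw [Polynomial.eval_mul, Polynomial.eval_pow, Polynomial.eval_C,
        Polynomial.eval_eq_sum_range' (hn2 b), Finset.sum_range, Finset.sum_mul]
      refine Finset.sum_congr rfl fun a _ => ?_
      simp only [p, map_mul, map_pow, pow_Z hZ, map_add, map_natCast]
      ring)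
  exact ⟨n, c, hc, hσ, hs⟩

end Pool.Agent.N626
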