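import Pool.Agent.TH143.DE.Rat
import Pool.Agent.N626.Dif0

/-!
Points with coordinates in a difference field which are given by linear difference equations with
coefficients in `C(Z)`, where `C` is the field of the constants and `σ Z = Z + 1`: a quotient of
coordinates which is transcendental over `C(Z)` gives a family of rational curves. The difference
field is embedded into the complex numbers, and the results on sequences of complex numbers are
applied.
-/

set_option autoImplicit false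

namespace Pool.Agent.N626

open MvPolynomial Filter Pool.Agent.TH143 Pool.Agent.TH143.GT Pool.Agent.W602.GT
  Pool.Agent.W603.BP Pool.Agent.W603.GR Pool.Agent.W603.BPR Pool.Agent.TH143.DE

variable {N : ℕ} {F : Type} [Field F] [Algebra ℂ F]

theorem ev_form {σ : F →+* F} (θ : F →+* ℂ)
    (hσ : ∀ c : ℂ, σ (algebraMap ℂ F c) = algebraMap ℂ F c) (x : Fin (N + 1) → F)
    (G : MvPolynomial (Fin (N + 1)) ℂ) (m : ℕ) :
    eval (fun j => θ ((σ ^ m) (x j))) (map (θ.comp (algebraMap ℂ F)) G) =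
      θ ((σ ^ m) (aeval x G)) := by
  have h1 : ∀ (m : ℕ) (c : ℂ), (σ ^ m) (algebraMap ℂ F c) = algebraMap ℂ F c := by
    intro m c
    induction m with
    | zero => rfl
    | succ m ih => rw [pow_succ_apply, hσ, ih]
  have h2 := MvPolynomial.map_aeval (g := x) (θ.comp (σ ^ m)) G
  have h3 : (θ.comp (σ ^ m)).comp (algebraMap ℂ F) = θ.comp (algebraMap ℂ F) := by
    ext c
    simp only [RingHom.comp_apply, h1]
  rw [h3] at h2
  rw [eval_map]
  exact h2.symm

theorem evalEval_shift (P : Polynomial (Polynomial ℂ)) (c a y : ℂ) :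
    (P.map (Polynomial.compRingHom (Polynomial.X - Polynomial.C c))).evalEval a y =
      P.evalEval (a - c) y := by
  have h1 : (Polynomial.evalEvalRingHom a y).comp
      (Polynomial.mapRingHom (Polynomial.compRingHom (Polynomial.X - Polynomial.C c))) =
      Polynomial.evalEvalRingHom (a - c) y := by
    ext <;> simp
  exact DFunLike.congr_fun h1 P

theorem aeval_alt {M : Type} [Field M] (i2 i3 : Algebra ℂ M) (jj : ℂ →+* ℂ)
    (h : @algebraMap ℂ M _ _ i3 = (@algebraMap ℂ M _ _ i2).comp jj)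
    (W : Fin (N + 1) → Polynomial M) (G : MvPolynomial (Fin (N + 1)) ℂ) :
    (@aeval ℂ (Polynomial M) (Fin (N + 1)) _ _ (@Polynomial.algebraOfAlgebra ℂ M _ _ i3) W) G =
      (@aeval ℂ (Polynomial M) (Fin (N + 1)) _ _ (@Polynomial.algebraOfAlgebra ℂ M _ _ i2) W)
        (map jj G) := by
  have e1 := @aeval_def ℂ (Polynomial M) (Fin (N + 1)) _ _
    (@Polynomial.algebraOfAlgebra ℂ M _ _ i3) W G
  have e2 := @aeval_def ℂ (Polynomial M) (Fin (N + 1)) _ _
    (@Polynomial.algebraOfAlgebra ℂ M _ _ i2) W (map jj G)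
  rw [e1, e2, eval₂_map]
  congr 1
  ext c : 1
  change Polynomial.C (@algebraMap ℂ M _ _ i3 c) = Polynomial.C (@algebraMap ℂ M _ _ i2 (jj c))
  rw [h]
  rfl

/-- **Transcendental quotients give families of rational curves.** -/
theorem dif_main {σ : F →+* F} (θ : F →+* ℂ)
    (hσ : ∀ c : ℂ, σ (algebraMap ℂ F c) = algebraMap ℂ F c) {Z : F} (hZ : σ Z = Z + 1)
    {x : Fin (N + 1) → F} {Q : MvPolynomial (Fin (N + 1)) ℂ} {q : ℕ} (hQe : Q.IsHomogeneous q)
    (hx : ∀ j, LinD σ Z (x j)) (hQ0 : aeval x Q ≠ 0) (hQ1 : HypD σ Z (aeval x Q))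
    {i l : Fin (N + 1)} (hl : x l ≠ 0) (hna : ¬ AlgC σ Z (x i / x l)) :
    ∃ (M : Type) (_ : Field M) (_ : Algebra ℂ M) (W : Fin (N + 1) → Polynomial M),
      (∀ G : MvPolynomial (Fin (N + 1)) ℂ, IsForm G → (aeval W G = 0 ↔ aeval x G = 0)) ∧
      (∃ (c : M) (k : ℕ), c ≠ 0 ∧ aeval W Q = Polynomial.C c * Polynomial.X ^ k) ∧
      ∃ j k, Polynomial.derivative (W j) * W k ≠ W j * Polynomial.derivative (W k) := by
  classical
  let t : ℕ → ℂ := fun m => θ Z + m
  have ht : Function.Injective t := t_inj (θ Z)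
  have hB : CoefField (ratB t ht) := ratB_field ht (Polynomial.X + 1) (by
    intro m
    simp only [t, Polynomial.eval_add, Polynomial.eval_X, Polynomial.eval_one]
    push_cast
    ring)
  let jj : ℂ →+* ℂ := θ.comp (algebraMap ℂ F)
  let y : ℕ → Fin (N + 1) → ℂ := fun m j => θ ((σ ^ m) (x j))
  have hev : ∀ (G : MvPolynomial (Fin (N + 1)) ℂ) (m : ℕ), eval (y m) (map jj G) =
      θ ((σ ^ m) (aeval x G)) := fun G m => ev_form θ hσ x G m
  have hinj : ∀ (m : ℕ) (g : F), θ ((σ ^ m) g) = 0 ↔ g = 0 := by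
    intro m g
    rw [map_eq_zero_iff θ θ.injective, map_eq_zero_iff _ (σ ^ m).injective]
  have hLR : ∀ j, LinRec (ratB t ht) (fun m => y m j) := by
    intro j
    obtain ⟨n, P, hP, ⟨k, hk, hk0⟩, hs⟩ := hx j
    apply RecAlong.linRec ht
    refine ⟨n, fun k => (P k).map θ, ⟨k, hk, ?_⟩, fun m => ?_⟩
    · rwa [Ne, Polynomial.map_eq_zero]
    · have h1 := congrArg (fun g => θ ((σ ^ m) g)) hs
      simp only [map_sum, map_mul, map_zero] at h1
      rw [← h1]
      refine Finset.sum_congr rfl fun k _ => ?_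
      rw [eval_Z hZ θ (hP k) m, ← pow_add_apply]
  obtain ⟨s, n, A', U, Φ, hU, hdet, hΦ⟩ := exists_sys hB (fun j m => y m j) hLR
  have hpt : ∀ᶠ m in atTop, y (m + s) = pt U Φ m := by
    filter_upwards [hΦ] with m hm
    funext j
    exact hm j
  let r : F := x i / x l
  -- the prime ideal
  let T : Submonoid (ℕ → ℂ) :=
    { carrier := {f | ∃ g : F, g ≠ 0 ∧ ∃ P : Polynomial (Polynomial ℂ), P ≠ 0 ∧
        ∀ᶠ m in atTop, f m = θ ((σ ^ m) g) * P.evalEval (t m) (θ ((σ ^ (m + s)) r))}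
      mul_mem' := by
        rintro f f' ⟨g, hg, P, hP, h1⟩ ⟨g', hg', P', hP', h1'⟩
        refine ⟨g * g', mul_ne_zero hg hg', P * P', mul_ne_zero hP hP', ?_⟩
        filter_upwards [h1, h1'] with m e1 e2
        rw [Pi.mul_apply, e1, e2, Polynomial.evalEval_mul, map_mul, map_mul]
        ring
      one_mem' := ⟨1, one_ne_zero, 1, one_ne_zero, Eventually.of_forall fun m => by
        rw [map_one, map_one, Polynomial.evalEval_one, mul_one]
        rfl⟩ }
  have hdisj : Disjoint (EZ : Set (ℕ → ℂ)) T := by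
    rw [Set.disjoint_left]
    rintro f hf ⟨g, hg, P, hP, h1⟩
    apply hna
    have h2 : ∀ᶠ m in atTop, P.evalEval (t m) (θ ((σ ^ (m + s)) r)) = 0 := by
      filter_upwards [h1, mem_EZ.1 hf] with m e1 e2
      rw [e2] at e1
      rcases mul_eq_zero.1 e1.symm with h3 | h3
      · exact absurd ((hinj m g).1 h3) hg
      · exact h3
    refine zero_of_ev (θ := θ) hZ (P := P.map (Polynomial.compRingHom
      (Polynomial.X - Polynomial.C (s : ℂ)))) ?_ ?_
    · rw [Ne, Polynomial.map_eq_zero_iff]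
      · exact hP
      · intro a b hab
        have h4 := congrArg (fun p : Polynomial ℂ => p.comp (Polynomial.X + Polynomial.C (s : ℂ)))
          hab
        simp only [Polynomial.coe_compRingHom_apply, Polynomial.comp_assoc] at h4
        simpa using h4
    · obtain ⟨m0, hm0⟩ := eventually_atTop.1 h2
      refine eventually_atTop.2 ⟨m0 + s, fun m hm => ?_⟩
      have h5 := hm0 (m - s) (by omega)
      rw [evalEval_shift]
      rw [Nat.sub_add_cancel (by omega)] at h5
      have h6 : t (m - s) = θ Z + m - s := by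
        simp only [t]
        rw [Nat.cast_sub (by omega)]
        ring
      rw [h6] at h5
      exact h5
  obtain ⟨I, hIp, hI, hIT⟩ := Ideal.exists_le_prime_disjoint EZ T hdisj
  have hdom : IsDomain ((ℕ → ℂ) ⧸ I) := Ideal.Quotient.isDomain I
  let KR := FractionRing ((ℕ → ℂ) ⧸ I)
  let a : ((ℕ → ℂ) ⧸ I) →+* KR := algebraMap _ KR
  have ainj : Function.Injective a := IsFractionRing.injective _ KR
  let z : Fin (N + 1) → KR := fun j => a (mk' I fun m => pt U Φ m j)
  have hz : ∀ G : MvPolynomial (Fin (N + 1)) ℂ, W602.GT.val z G =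
      a (mk' I fun m => eval (pt U Φ m) G) := by
    intro G
    have h1 := MvPolynomial.comp_aeval_apply (f := fun j => (fun m => pt U Φ m j : ℕ → ℂ))
      ((IsScalarTower.toAlgHom ℂ ((ℕ → ℂ) ⧸ I) KR).comp (mk' I)) G
    have h2 : (aeval (fun j => (fun m => pt U Φ m j : ℕ → ℂ)) G : ℕ → ℂ) =
        fun m => eval (pt U Φ m) G := by
      funext m
      have h7 := MvPolynomial.comp_aeval_apply (f := fun j => (fun m => pt U Φ m j : ℕ → ℂ))
        (Pi.evalAlgHom ℂ (fun _ : ℕ => ℂ) m) G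
      have h8 : (aeval (fun j => (fun m => pt U Φ m j : ℕ → ℂ)) G : ℕ → ℂ) m =
        aeval (fun i => pt U Φ m i) G := h7
      rw [h8, MvPolynomial.aeval_eq_eval]
    rw [← h2]
    exact h1.symm
  -- forms over the small field
  have hzero : ∀ G : MvPolynomial (Fin (N + 1)) ℂ,
      ((fun m => eval (pt U Φ m) (map jj G)) ∈ I ↔ aeval x G = 0) := by
    intro G
    constructor
    · intro h0
      by_contra hne
      refine Set.disjoint_left.1 hIT h0 ⟨(σ ^ s) (aeval x G), ?_, 1, one_ne_zero, ?_⟩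
      · rwa [Ne, map_eq_zero_iff _ (σ ^ s).injective]
      · filter_upwards [hpt] with m hm
        rw [← hm, hev, Polynomial.evalEval_one, mul_one, pow_add_apply]
    · intro h0
      apply hI
      rw [mem_EZ]
      filter_upwards [hpt] with m hm
      rw [← hm, hev, h0, map_zero, map_zero]
  have hptj : ∀ k : Fin (N + 1), ∀ᶠ m in atTop, eval (pt U Φ m) (X k) =
      θ ((σ ^ (m + s)) (x k)) := by
    intro k
    filter_upwards [hpt] with m hm
    rw [← hm, eval_X]
  have hzn : W602.GT.val z (X l : MvPolynomial (Fin (N + 1)) ℂ) ≠ 0 := by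
    intro h0
    rw [hz, map_eq_zero_iff a ainj, mk'_zero] at h0
    have h1 := (hzero (X l)).1 (by rw [map_X]; exact h0)
    rw [aeval_X] at h1
    exact hl h1
  -- transcendence
  have htr : Transcendental (cf hB hI KR) (W602.GT.val z (X i : MvPolynomial (Fin (N + 1)) ℂ) / W602.GT.val z (X l : MvPolynomial (Fin (N + 1)) ℂ)) := by
    intro halg
    obtain ⟨P, hP0, hP⟩ := halg
    apply hP0
    have hc : ∀ k, ∃ b ∈ ratB t ht, ((P.coeff k : cf hB hI KR) : KR) = a (mk' I b) :=
      fun k => (P.coeff k).2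
    choose b hb hbe using hc
    set D := P.natDegree with hD
    have h1 : ∑ k ∈ Finset.range (D + 1), a (mk' I (b k)) * W602.GT.val z (X i : MvPolynomial (Fin (N + 1)) ℂ) ^ k *
        W602.GT.val z (X l : MvPolynomial (Fin (N + 1)) ℂ) ^ (D - k) = 0 := by
      have h2 : Polynomial.aeval (W602.GT.val z (X i : MvPolynomial (Fin (N + 1)) ℂ) / W602.GT.val z (X l : MvPolynomial (Fin (N + 1)) ℂ)) P *
          W602.GT.val z (X l : MvPolynomial (Fin (N + 1)) ℂ) ^ D = 0 := by rw [hP, zero_mul]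
      rw [Polynomial.aeval_eq_sum_range, Finset.sum_mul] at h2
      rw [← h2]
      refine Finset.sum_congr rfl fun k hk => ?_
      have hkD : k ≤ D := Nat.lt_succ_iff.1 (Finset.mem_range.1 hk)
      have h3 : P.coeff k • (W602.GT.val z (X i : MvPolynomial (Fin (N + 1)) ℂ) / W602.GT.val z (X l : MvPolynomial (Fin (N + 1)) ℂ)) ^ k =
          a (mk' I (b k)) * (W602.GT.val z (X i : MvPolynomial (Fin (N + 1)) ℂ) / W602.GT.val z (X l : MvPolynomial (Fin (N + 1)) ℂ)) ^ k := by
        rw [← hbe]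
        rfl
      rw [h3, div_pow]
      have h4 : W602.GT.val z (X l : MvPolynomial (Fin (N + 1)) ℂ) ^ D = W602.GT.val z (X l : MvPolynomial (Fin (N + 1)) ℂ) ^ k *
          W602.GT.val z (X l : MvPolynomial (Fin (N + 1)) ℂ) ^ (D - k) := by
        rw [← pow_add, Nat.add_sub_cancel' hkD]
      have h5 : W602.GT.val z (X l : MvPolynomial (Fin (N + 1)) ℂ) ^ k ≠ 0 := pow_ne_zero _ hzn
      have h6 : W602.GT.val z (X i : MvPolynomial (Fin (N + 1)) ℂ) ^ k / W602.GT.val z (X l : MvPolynomial (Fin (N + 1)) ℂ) ^ k * W602.GT.val z (X l : MvPolynomial (Fin (N + 1)) ℂ) ^ k =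
        W602.GT.val z (X i : MvPolynomial (Fin (N + 1)) ℂ) ^ k := div_mul_cancel₀ _ h5
      rw [h4]
      linear_combination (-(a (mk' I (b k)) * W602.GT.val z (X l : MvPolynomial (Fin (N + 1)) ℂ) ^ (D - k))) * h6
    have h2 : (fun m => ∑ k ∈ Finset.range (D + 1), b k m * eval (pt U Φ m) (X i) ^ k *
        eval (pt U Φ m) (X l) ^ (D - k)) ∈ I := by
      rw [← mk'_zero, ← map_eq_zero_iff a ainj, ← h1]
      have h3 : (fun m => ∑ k ∈ Finset.range (D + 1), b k m * eval (pt U Φ m) (X i) ^ k *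
          eval (pt U Φ m) (X l) ^ (D - k)) = ∑ k ∈ Finset.range (D + 1), b k *
          (fun m => eval (pt U Φ m) (X i)) ^ k * (fun m => eval (pt U Φ m) (X l)) ^ (D - k) := by
        funext m
        simp only [Finset.sum_apply, Pi.mul_apply, Pi.pow_apply]
      rw [h3]
      simp only [map_sum, map_mul, map_pow, hz]
    -- denominators
    choose p R hR hbp using hb
    let Rt : Polynomial ℂ := ∏ k ∈ Finset.range (D + 1), R k
    let pk : ℕ → Polynomial ℂ := fun k => p k * ∏ k' ∈ (Finset.range (D + 1)).erase k, R k'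
    let P2 : Polynomial (Polynomial ℂ) := ∑ k ∈ Finset.range (D + 1),
      Polynomial.monomial k (pk k)
    have hP2 : P2 = 0 := by
      by_contra hne
      refine Set.disjoint_left.1 hIT (I.mul_mem_left (fun m => Rt.eval (t m)) h2)
        ⟨(σ ^ s) (x l) ^ D, pow_ne_zero _ (by rwa [Ne, map_eq_zero_iff _ (σ ^ s).injective]), P2,
          hne, ?_⟩
      have hall : ∀ᶠ m in atTop, ∀ k ∈ Finset.range (D + 1), b k m = (p k).eval (t m) /
          (R k).eval (t m) ∧ (R k).eval (t m) ≠ 0 := by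
        rw [Finset.eventually_all]
        intro k _
        exact (hbp k).and (ev_ne ht (hR k))
      filter_upwards [hall, hptj i, hptj l] with m e1 e2 e3
      rw [Pi.mul_apply, e2, e3, Polynomial.evalEval, Polynomial.eval_finsetSum,
        Polynomial.eval_finsetSum, Finset.mul_sum, Finset.mul_sum]
      refine Finset.sum_congr rfl fun k hk => ?_
      obtain ⟨e4, e5⟩ := e1 k hk
      have hkD : k ≤ D := Nat.lt_succ_iff.1 (Finset.mem_range.1 hk)
      have e6 : Rt = R k * ∏ k' ∈ (Finset.range (D + 1)).erase k, R k' :=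
        (Finset.mul_prod_erase _ _ hk).symm
      have e7 : θ ((σ ^ (m + s)) (x l)) ≠ 0 := by rwa [Ne, hinj]
      have e8 : θ ((σ ^ (m + s)) r) = θ ((σ ^ (m + s)) (x i)) / θ ((σ ^ (m + s)) (x l)) := by
        simp only [r, map_div₀]
      have e9 : θ ((σ ^ (m + s)) (x l)) ^ D = θ ((σ ^ (m + s)) (x l)) ^ k *
          θ ((σ ^ (m + s)) (x l)) ^ (D - k) := by rw [← pow_add, Nat.add_sub_cancel' hkD]
      rw [e4, e6, e8, Polynomial.eval_monomial, Polynomial.eval_mul, Polynomial.eval_mul,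
        Polynomial.eval_mul, Polynomial.eval_pow, Polynomial.eval_C, map_pow, map_pow,
        ← pow_add_apply, e9, div_pow]
      field_simp
    have hp0 : ∀ k ≤ D, p k = 0 := by
      intro k hk
      have h3 : P2.coeff k = pk k := by
        simp only [P2, Polynomial.finsetSum_coeff, Polynomial.coeff_monomial]
        rw [Finset.sum_ite_eq' , if_pos (Finset.mem_range.2 (by omega))]
      rw [hP2, Polynomial.coeff_zero] at h3
      rcases mul_eq_zero.1 h3.symm with h4 | h4
      · exact h4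
      · exfalso
        rw [Finset.prod_eq_zero_iff] at h4
        obtain ⟨k', _, h5⟩ := h4
        exact hR k' h5
    ext k
    rw [Polynomial.coeff_zero]
    by_cases hk : k ≤ D
    · have h5 : mk' I (b k) = 0 := mk'_zero.2 (hI (mem_EZ.2 (by
        filter_upwards [hbp k] with m hm
        rw [hm, hp0 k hk, Polynomial.eval_zero, zero_div])))
      rw [hbe, h5, map_zero]
      rfl
    · rw [Polynomial.coeff_eq_zero_of_natDegree_lt (not_le.1 hk)]
  obtain ⟨D, hD⟩ := der_of_transcendental htr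
  have hmul : ∀ u v, D (u * v) = u * D v + v * D u := fun u v => D.leibniz u v
  have hDB : ∀ b ∈ ratB t ht, D (algebraMap ((ℕ → ℂ) ⧸ I) KR (cl I b)) = 0 := by
    intro b hb
    exact D.map_algebraMap (⟨_, b, hb, rfl⟩ : cf hB hI KR)
  have hDG : D (W602.GT.val z (X i : MvPolynomial (Fin (N + 1)) ℂ)) * W602.GT.val z (X l : MvPolynomial (Fin (N + 1)) ℂ) -
      W602.GT.val z (X i : MvPolynomial (Fin (N + 1)) ℂ) * D (W602.GT.val z (X l : MvPolynomial (Fin (N + 1)) ℂ)) ≠ 0 := by
    have h1 : W602.GT.val z (X i : MvPolynomial (Fin (N + 1)) ℂ) = (W602.GT.val z (X i : MvPolynomial (Fin (N + 1)) ℂ) / W602.GT.val z (X l : MvPolynomial (Fin (N + 1)) ℂ)) *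
        W602.GT.val z (X l : MvPolynomial (Fin (N + 1)) ℂ) := (div_mul_cancel₀ _ hzn).symm
    have h2 : D (W602.GT.val z (X i : MvPolynomial (Fin (N + 1)) ℂ)) = (W602.GT.val z (X i : MvPolynomial (Fin (N + 1)) ℂ) / W602.GT.val z (X l : MvPolynomial (Fin (N + 1)) ℂ)) *
        D (W602.GT.val z (X l : MvPolynomial (Fin (N + 1)) ℂ)) + W602.GT.val z (X l : MvPolynomial (Fin (N + 1)) ℂ) := by
      conv_lhs => rw [h1]
      rw [hmul, hD, mul_one]
    have h3 : D (W602.GT.val z (X i : MvPolynomial (Fin (N + 1)) ℂ)) * W602.GT.val z (X l : MvPolynomial (Fin (N + 1)) ℂ) -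
        W602.GT.val z (X i : MvPolynomial (Fin (N + 1)) ℂ) * D (W602.GT.val z (X l : MvPolynomial (Fin (N + 1)) ℂ)) = W602.GT.val z (X l : MvPolynomial (Fin (N + 1)) ℂ) ^ 2 := by
      rw [h2]
      linear_combination (-D (W602.GT.val z (X l : MvPolynomial (Fin (N + 1)) ℂ))) * h1
    rw [h3]
    exact pow_ne_zero _ hzn
  have hQz : ∀ᶠ m in atTop, eval (pt U Φ m) (map jj Q) ≠ 0 := by
    filter_upwards [hpt] with m hm
    rw [← hm, hev, Ne, hinj]
    exact hQ0
  obtain ⟨PQ, RQ, hPQ, hRQ, hPQ0, hPR⟩ := hQ1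
  have hbm : (fun m => (RQ.map θ).eval (t m) / (PQ.map θ).eval (t m)) ∈ ratB t ht :=
    ⟨RQ.map θ, PQ.map θ, by rwa [Ne, Polynomial.map_eq_zero], Eventually.of_forall fun _ => rfl⟩
  have hbe : ∀ᶠ m in atTop, θ ((σ ^ (m + 1)) (aeval x Q)) =
      (RQ.map θ).eval (t m) / (PQ.map θ).eval (t m) * θ ((σ ^ m) (aeval x Q)) := by
    filter_upwards [ev_ne ht (R := PQ.map θ) (by rwa [Ne, Polynomial.map_eq_zero])] with m hm
    have h1 := congrArg (fun g => θ ((σ ^ m) g)) hPR
    simp only [map_mul] at h1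
    rw [eval_Z hZ θ hPQ m, eval_Z hZ θ hRQ m, ← pow_succ_apply] at h1
    rw [div_mul_eq_mul_div, eq_div_iff hm, ← h1]
    ring
  obtain ⟨M, i1, i2, m, hm, W, hW1, hW2, ⟨c, k, hc, hcQ⟩, hN⟩ := fam_of_der hB A' U hU hdet hI D
    (fun u v => map_add D u v) hmul hDB Φ (X l) (X i) (isHomogeneous_X _ _) (isHomogeneous_X _ _)
    (by rw [hz, hz] at hDG; exact hDG) (map jj Q) (hQe.map jj) hQz
    ⟨_, hB.toCoefRing.shift' hbm s⟩ (by
      filter_upwards [eventually_shift hbe s, hpt, eventually_shift hpt 1] with m h1 h2 h3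
      rw [← h2, ← h3, hev, hev]
      have h4 : m + 1 + s = m + s + 1 := by ring
      rw [h4]
      exact h1)
  let i3 : Algebra ℂ M := ((@algebraMap ℂ M _ _ i2).comp jj).toAlgebra
  have hi3 : @algebraMap ℂ M _ _ i3 = (@algebraMap ℂ M _ _ i2).comp jj := rfl
  refine ⟨M, i1, i3, W, fun G hG => ?_, ⟨c, k, hc, ?_⟩, i, l, ?_⟩
  · rw [aeval_alt i2 i3 jj hi3 W G]
    constructor
    · intro h0
      exact (hzero G).1 (hW2 _ h0)
    · intro h0
      obtain ⟨e, he⟩ := hG
      refine hW1 _ ⟨e, he.map jj⟩ ?_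
      filter_upwards [hpt] with m hm
      rw [← hm, hev, h0, map_zero, map_zero]
  · rw [aeval_alt i2 i3 jj hi3 W Q]
    exact hcQ
  · have e1 := @aeval_X ℂ (Polynomial M) (Fin (N + 1)) _ _
      (@Polynomial.algebraOfAlgebra ℂ M _ _ i2) W i
    have e2 := @aeval_X ℂ (Polynomial M) (Fin (N + 1)) _ _
      (@Polynomial.algebraOfAlgebra ℂ M _ _ i2) W l
    rw [e1, e2] at hN
    exact hN

end Pool.Agent.N626
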