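import Pool.Agent.TH143.HE.Quot
import Pool.Agent.N626.Dif

/-!
Difference fields: quotients of solutions of linear difference equations which are algebraic over
`C(Z)` are rational functions of `Z` with coefficients fixed by a power of the shift.
-/

set_option autoImplicit false

namespace Pool.Agent.N626

open Filter Pool.Agent.TH143.DE Pool.Agent.TH143.HE

variable {F : Type} [Field F]

theorem comp_ne {P : Polynomial ℂ} (hP : P ≠ 0) (c : ℂ) :
    P.comp (Polynomial.X + Polynomial.C c) ≠ 0 := by
  intro h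
  apply hP
  have h1 := congrArg (fun p : Polynomial ℂ => p.comp (Polynomial.X - Polynomial.C c)) h
  simp only [Polynomial.comp_assoc] at h1
  simpa using h1

/-- the sequences of a solution of a linear difference equation -/
theorem linRec_of_linD {σ : F →+* F} (θ : F →+* ℂ) {Z : F} (hZ : σ Z = Z + 1) {x : F}
    (hx : LinD σ Z x) : LinRec RB fun m => θ ((σ ^ m) x) := by
  obtain ⟨n, P, hP, ⟨k, hk, hk0⟩, hs⟩ := hx
  apply RecAlong.linRec Nat.cast_injective
  refine ⟨n, fun k => ((P k).map θ).comp (Polynomial.X + Polynomial.C (θ Z)), ⟨k, hk, ?_⟩,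
    fun m => ?_⟩
  · exact comp_ne (by rwa [Ne, Polynomial.map_eq_zero]) _
  · have h1 := congrArg (fun g => θ ((σ ^ m) g)) hs
    simp only [map_sum, map_mul, map_zero] at h1
    rw [← h1]
    refine Finset.sum_congr rfl fun k _ => ?_
    rw [eval_Z hZ θ (hP k) m, ← pow_add_apply, Polynomial.eval_comp, Polynomial.eval_add,
      Polynomial.eval_X, Polynomial.eval_C, add_comm (m : ℂ)]

theorem evs_apply (y : ℕ → ℂ) (P : Polynomial (Polynomial ℂ)) (m : ℕ) :
    evs y P m = P.evalEval (m : ℂ) (y m) := by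
  have h1 : (Pi.evalRingHom (fun _ : ℕ => ℂ) m).comp (evs y) =
      Polynomial.evalEvalRingHom (m : ℂ) (y m) := by
    ext p
    · simp [evs]
    · simp [evs]
    · simp [evs]
  exact DFunLike.congr_fun h1 P

/-- `Z` is transcendental over the fixed field of a power of the shift -/
theorem eval_Z_ne {σ : F →+* F} {Z : F} (hc : CharZero F) (hZ : σ Z = Z + 1) {k : ℕ} (hk : 0 < k)
    {P : Polynomial F} (hP : P.map (σ ^ k) = P) (hP0 : P ≠ 0) : P.eval Z ≠ 0 := by
  intro h0
  apply hP0
  have h1 : ∀ n : ℕ, P.eval (Z + (k * n : ℕ)) = 0 := by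
    intro n
    induction n with
    | zero => simpa using h0
    | succ n ih =>
      have h2 := congrArg (σ ^ k) ih
      rw [map_zero, ← Polynomial.eval_map_apply, hP, map_add, pow_Z hZ, map_natCast] at h2
      rw [← h2]
      congr 1
      push_cast
      ring
  refine Polynomial.eq_zero_of_infinite_isRoot P ?_
  refine (Set.infinite_range_of_injective (f := fun n : ℕ => Z + ((k * n : ℕ) : F)) ?_).mono ?_
  · intro a b hab
    have h3 := add_left_cancel hab
    have h4 : k * a = k * b := Nat.cast_injective h3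
    exact Nat.eq_of_mul_eq_mul_left hk h4
  · rintro _ ⟨n, rfl⟩
    exact h1 n

/-- **Algebraic quotients are rational.** -/
theorem rat_of_alg {σ : F →+* F} (θ : F →+* ℂ) {Z : F} (hZ : σ Z = Z + 1) {x y : F}
    (hx : LinD σ Z x) (hy : LinD σ Z y) (hy0 : y ≠ 0) (hr : AlgC σ Z (x / y)) :
    ∃ (k : ℕ) (P R : Polynomial F), 0 < k ∧ P.map (σ ^ k) = P ∧ R.map (σ ^ k) = R ∧
      P.eval Z ≠ 0 ∧ P.eval Z * x = R.eval Z * y := by
  classical
  have hc : CharZero F := ⟨fun a b hab => by
    have h1 := congrArg θ hab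
    rw [map_natCast, map_natCast] at h1
    exact Nat.cast_injective h1⟩
  have hinj : ∀ (m : ℕ) (g : F), θ ((σ ^ m) g) = 0 ↔ g = 0 := by
    intro m g
    rw [map_eq_zero_iff θ θ.injective, map_eq_zero_iff _ (σ ^ m).injective]
  obtain ⟨n, c, hc0, hcσ, hs⟩ := hr
  have hcm : ∀ (m : ℕ) i, (σ ^ m) (c i) = c i := by
    intro m i
    induction m with
    | zero => rfl
    | succ m ih => rw [pow_succ_apply, hcσ, ih]
  let P : Polynomial (Polynomial ℂ) := ∑ i : Fin n × Fin n, Polynomial.monomial (i.2 : ℕ)
    ((Polynomial.X ^ (i.1 : ℕ) * Polynomial.C (θ (c i))).comp (Polynomial.X + Polynomial.C (θ Z)))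
  have hP : P ≠ 0 := by
    intro h0
    obtain ⟨i, hi⟩ := Function.ne_iff.1 hc0
    have h1 : P.coeff (i.2 : ℕ) = (∑ a : Fin n, Polynomial.X ^ (a : ℕ) *
        Polynomial.C (θ (c (a, i.2)))).comp (Polynomial.X + Polynomial.C (θ Z)) := by
      simp only [P, Polynomial.finsetSum_coeff, Polynomial.coeff_monomial, Fintype.sum_prod_type]
      rw [Polynomial.sum_comp]
      refine Finset.sum_congr rfl fun a _ => ?_
      rw [Finset.sum_eq_single i.2]
      · rw [if_pos rfl]
      · intro b _ hb
        rw [if_neg fun h => hb (Fin.ext h)]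
      · exact fun h => absurd (Finset.mem_univ _) h
    rw [h0, Polynomial.coeff_zero] at h1
    have h2 : (∑ a : Fin n, Polynomial.X ^ (a : ℕ) * Polynomial.C (θ (c (a, i.2)))) = 0 := by
      by_contra hne
      exact comp_ne hne _ h1.symm
    have h3 := congrArg (fun p => Polynomial.coeff p (i.1 : ℕ)) h2
    simp only [Polynomial.finsetSum_coeff, Polynomial.coeff_mul_C, Polynomial.coeff_X_pow,
      Polynomial.coeff_zero] at h3
    rw [Finset.sum_eq_single i.1] at h3
    · rw [if_pos rfl, one_mul, map_eq_zero] at h3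
      exact hi h3
    · intro b _ hb
      rw [if_neg fun h => hb (Fin.ext h.symm), zero_mul]
    · exact fun h => absurd (Finset.mem_univ _) h
  have hP0 : ∀ m, evs (fun m => θ ((σ ^ m) x) / θ ((σ ^ m) y)) P m = 0 := by
    intro m
    have h1 := congrArg (fun g => θ ((σ ^ m) g)) hs
    simp only [map_sum, map_mul, map_pow, map_div₀, map_zero, hcm, pow_Z hZ, map_add,
      map_natCast] at h1
    rw [evs_apply, Polynomial.evalEval, Polynomial.eval_finsetSum, Polynomial.eval_finsetSum, ← h1]
    refine Finset.sum_congr rfl fun i _ => ?_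
    rw [Polynomial.eval_monomial, Polynomial.eval_mul, Polynomial.eval_comp, Polynomial.eval_mul,
      Polynomial.eval_pow, Polynomial.eval_X, Polynomial.eval_C, Polynomial.eval_add,
      Polynomial.eval_X, Polynomial.eval_C, Polynomial.eval_pow, Polynomial.eval_C]
    ring
  obtain ⟨p, k, q, hp, hk, hpq⟩ := quasi_rational_quot (exists_fg (linRec_of_linD θ hZ hx))
    (exists_fg (linRec_of_linD θ hZ hy)) (Eventually.of_forall fun m => by rwa [Ne, hinj]) hP
    (Eventually.of_forall hP0)
  -- the relation over the complex numbers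
  let p' : Polynomial ℂ := p.comp (Polynomial.X + Polynomial.C (-θ Z))
  let q' : Polynomial ℂ := (q 0).comp (Polynomial.X + Polynomial.C (-θ Z))
  have hp' : p' ≠ 0 := comp_ne hp _
  have hev : ∀ (P : Polynomial ℂ) (m : ℕ),
      (P.comp (Polynomial.X + Polynomial.C (-θ Z))).eval (θ Z + m) = P.eval (m : ℂ) := by
    intro P m
    rw [Polynomial.eval_comp]
    congr 1
    simp
  let d : ℕ := p'.natDegree + q'.natDegree + 1
  have hd1 : p'.natDegree < d := by omega
  have hd2 : q'.natDegree < d := by omega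
  let v : Fin d ⊕ Fin d → F := Sum.elim (fun i => Z ^ (i : ℕ) * (x / y)) (fun i => Z ^ (i : ℕ))
  let pv : Fin d ⊕ Fin d → ℂ := Sum.elim (fun i => p'.coeff i) (fun i => -q'.coeff i)
  have hpv : pv ≠ 0 := by
    intro h0
    apply hp'
    ext i
    rw [Polynomial.coeff_zero]
    by_cases hi : i < d
    · exact congrFun h0 (Sum.inl ⟨i, hi⟩)
    · exact Polynomial.coeff_eq_zero_of_natDegree_lt (by omega)
  have hpow : ∀ (m : ℕ) (a : F), ((σ ^ k) ^ m) a = (σ ^ (k * m)) a := by
    intro m a
    rw [← pow_mul]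
  obtain ⟨e, he0, heσ, hes⟩ := casorati (σ ^ k) θ v pv hpv (by
    obtain ⟨m0, hm0⟩ := eventually_atTop.1 hpq
    refine eventually_atTop.2 ⟨m0, fun m hm => ?_⟩
    have h1 := hm0 (k * m) (hm.trans (Nat.le_mul_of_pos_left m hk))
    rw [Nat.mul_mod_right, ← hev, ← hev (q 0)] at h1
    rw [Fintype.sum_sum_type]
    simp only [v, pv, Sum.elim_inl, Sum.elim_inr, hpow, map_mul, map_pow, pow_Z hZ, map_add,
      map_natCast, map_div₀]
    rw [Polynomial.eval_eq_sum_range' hd1, Polynomial.eval_eq_sum_range' hd2,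
      Finset.sum_range, Finset.sum_range, Finset.sum_mul] at h1
    simp only [neg_mul, Finset.sum_neg_distrib]
    rw [← sub_eq_add_neg, sub_eq_zero]
    refine Eq.trans (Finset.sum_congr rfl fun i _ => ?_) h1
    ring)
  let A : Polynomial F := ∑ i : Fin d, Polynomial.monomial (i : ℕ) (e (Sum.inl i))
  let B : Polynomial F := ∑ i : Fin d, Polynomial.monomial (i : ℕ) (-e (Sum.inr i))
  have hA : A.map (σ ^ k) = A := by
    simp only [A, Polynomial.map_sum, Polynomial.map_monomial, heσ]
  have hB : B.map (σ ^ k) = B := by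
    simp only [B, Polynomial.map_sum]
    refine Finset.sum_congr rfl fun i _ => ?_
    rw [Polynomial.map_monomial, map_neg (σ ^ k), heσ]
  have hAB : A.eval Z * (x / y) = B.eval Z := by
    rw [Fintype.sum_sum_type] at hes
    simp only [v, Sum.elim_inl, Sum.elim_inr] at hes
    simp only [A, B, Polynomial.eval_finsetSum, Polynomial.eval_monomial, neg_mul,
      Finset.sum_neg_distrib, Finset.sum_mul]
    rw [eq_neg_iff_add_eq_zero, ← hes]
    congr 1
    refine Finset.sum_congr rfl fun i _ => ?_
    ring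
  have hcoef : ∀ (g : Fin d → F) (i : Fin d),
      (∑ i : Fin d, Polynomial.monomial (i : ℕ) (g i)).coeff i = g i := by
    intro g i
    simp only [Polynomial.finsetSum_coeff, Polynomial.coeff_monomial]
    rw [Finset.sum_eq_single i]
    · rw [if_pos rfl]
    · intro b _ hb
      rw [if_neg fun h => hb (Fin.ext h)]
    · exact fun h => absurd (Finset.mem_univ _) h
  have hA0 : A ≠ 0 := by
    intro h0
    have h1 : B = 0 := by
      by_contra hne
      apply eval_Z_ne hc hZ hk hB hne
      rw [← hAB, h0, Polynomial.eval_zero, zero_mul]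
    apply he0
    funext i
    rcases i with i | i
    · have h2 := hcoef (fun i => e (Sum.inl i)) i
      change A.coeff i = _ at h2
      rw [h0, Polynomial.coeff_zero] at h2
      exact h2.symm
    · have h2 := hcoef (fun i => -e (Sum.inr i)) i
      change B.coeff i = _ at h2
      rw [h1, Polynomial.coeff_zero] at h2
      exact neg_eq_zero.1 h2.symm
  refine ⟨k, A, B, hk, hA, hB, eval_Z_ne hc hZ hk hA hA0, ?_⟩
  rw [← hAB, mul_assoc, div_mul_cancel₀ _ hy0]

end Pool.Agent.N626
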