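import Pool.Agent.N626.Dk
import Pool.Agent.N626.Rp
import Pool.Agent.N626.Al
import Pool.Agent.N626.Em

/-!
Points given by linear difference equations over a difference field: they give families of rational
curves, or are fixed by a power of the shift.
-/

set_option autoImplicit false

namespace Pool.Agent.N626

open MvPolynomial Filter

variable {N : ℕ} {κ F : Type} [Field κ] [Field F] [Algebra κ F]

theorem iter_const {σ : F →+* F} (hσ : ∀ c : κ, σ (algebraMap κ F c) = algebraMap κ F c) (m : ℕ)
    (c : κ) : (σ ^ m) (algebraMap κ F c) = algebraMap κ F c := by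
  induction m with
  | zero => rfl
  | succ m ih => rw [pow_succ_apply, hσ, ih]

/-- the coefficients of a form at fixed polynomials are fixed -/
theorem map_aeval_fix {τ : F →+* F} (hτ : ∀ c : κ, τ (algebraMap κ F c) = algebraMap κ F c)
    {W : Fin (N + 1) → Polynomial F} (hW : ∀ j, (W j).map τ = W j)
    (G : MvPolynomial (Fin (N + 1)) κ) : (aeval W G).map τ = aeval W G := by
  have h1 := MvPolynomial.map_aeval (g := W) (Polynomial.mapRingHom τ) G
  rw [Polynomial.coe_mapRingHom] at h1
  rw [h1, aeval_def, ← coe_eval₂Hom]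
  congr 1
  congr 1
  · ext c
    · rw [RingHom.comp_apply, Polynomial.coe_mapRingHom]
      have h2 : algebraMap κ (Polynomial F) c = Polynomial.C (algebraMap κ F c) := rfl
      rw [h2, Polynomial.map_C, hτ]
  · funext j
    exact hW j

theorem eval_aeval' (W : Fin (N + 1) → Polynomial F) (G : MvPolynomial (Fin (N + 1)) κ) (z : F) :
    (aeval W G).eval z = aeval (fun j => (W j).eval z) G := by
  have h1 := MvPolynomial.map_aeval (g := W) (Polynomial.evalRingHom z) G
  rw [Polynomial.coe_evalRingHom] at h1
  rw [h1, aeval_def, ← coe_eval₂Hom]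
  congr 1
  congr 1
  ext c
  rw [RingHom.comp_apply, Polynomial.coe_evalRingHom]
  have h2 : algebraMap κ (Polynomial F) c = Polynomial.C (algebraMap κ F c) := rfl
  rw [h2, Polynomial.eval_C]

theorem form_scale' {A : Type} [CommRing A] [Algebra κ A] {G : MvPolynomial (Fin (N + 1)) κ} {d : ℕ}
    (hG : G.IsHomogeneous d) (c : A) (x : Fin (N + 1) → A) :
    aeval (fun j => c * x j) G = c ^ d * aeval x G := by
  rw [aeval_def, aeval_def, eval₂_eq, eval₂_eq, Finset.mul_sum]
  refine Finset.sum_congr rfl fun m hm => ?_
  have h1 : m.degree = d := by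
    have h2 := hG (mem_support_iff.1 hm)
    rw [Finsupp.degree_eq_weight_one]
    exact h2
  rw [← h1, Finsupp.degree_eq_sum]
  simp only [mul_pow, Finset.prod_mul_distrib]
  rw [Finset.prod_subset (Finset.subset_univ m.support) (f := fun i => c ^ m i) (fun i _ hi => by
    rw [Finsupp.notMem_support_iff.1 hi, pow_zero]), Finset.prod_pow_eq_pow_sum]
  ring

/-- **Families of rational curves, or fixed points.** -/
theorem dichotomy [CharZero F] (hcard : Cardinal.mk F ≤ Cardinal.continuum) {σ : F →+* F}
    (hσ : ∀ c : κ, σ (algebraMap κ F c) = algebraMap κ F c) {Z : F} (hZ : σ Z = Z + 1)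
    {x : Fin (N + 1) → F} (hx : ∀ j, LinD σ Z (x j)) (hx0 : x ≠ 0) :
    (∃ (M : Type) (_ : Field M) (_ : Algebra κ M) (W : Fin (N + 1) → Polynomial M),
      (∀ G : MvPolynomial (Fin (N + 1)) κ, (∃ e, G.IsHomogeneous e) →
        (aeval W G = 0 ↔ aeval x G = 0)) ∧
      ∃ j k, Polynomial.derivative (W j) * W k ≠ W j * Polynomial.derivative (W k)) ∨
    ∃ k : ℕ, 0 < k ∧ ∀ i l, (σ ^ k) (x i) * x l = x i * (σ ^ k) (x l) := by
  classical
  obtain ⟨θ⟩ := exists_embed' F hcard
  obtain ⟨l, hl⟩ := Function.ne_iff.1 hx0
  have hl' : x l ≠ 0 := hl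
  by_cases halg : ∀ i, AlgC σ Z (x i / x l)
  · choose k P R hk hP hR hP0 hPR using fun i => rat_of_alg θ hZ (hx i) (hx l) hl' (halg i)
    let K : ℕ := ∏ i, k i
    have hK : 0 < K := Finset.prod_pos fun i _ => hk i
    have hdiv : ∀ i, ∃ n, K = k i * n := fun i =>
      ⟨∏ j ∈ Finset.univ.erase i, k j, (Finset.mul_prod_erase _ _ (Finset.mem_univ i)).symm⟩
    have hfix : ∀ i (p : Polynomial F), p.map (σ ^ k i) = p → p.map (σ ^ K) = p := by
      intro i p hp
      obtain ⟨n, hn⟩ := hdiv i
      have h1 := map_iter hp n
      rwa [← pow_mul, ← hn] at h1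
    let W : Fin (N + 1) → Polynomial F := fun i => R i * ∏ j ∈ Finset.univ.erase i, P j
    let D : Polynomial F := ∏ j, P j
    have hWK : ∀ i, (W i).map (σ ^ K) = W i := by
      intro i
      simp only [W]
      rw [Polynomial.map_mul, hfix i _ (hR i), Polynomial.map_prod]
      congr 1
      exact Finset.prod_congr rfl fun j _ => hfix j _ (hP j)
    have hD : D.eval Z ≠ 0 := by
      simp only [D, Polynomial.eval_prod]
      exact Finset.prod_ne_zero_iff.2 fun j _ => hP0 j
    have hWx : ∀ i, D.eval Z * x i = (W i).eval Z * x l := by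
      intro i
      simp only [D, W, Polynomial.eval_mul, Polynomial.eval_prod]
      rw [← Finset.mul_prod_erase _ _ (Finset.mem_univ i)]
      linear_combination (∏ j ∈ Finset.univ.erase i, (P j).eval Z) * hPR i
    have hWl : (W l).eval Z = D.eval Z := by
      apply mul_right_cancel₀ hl'
      rw [← hWx l]
    have hWl0 : W l ≠ 0 := by
      intro h0
      apply hD
      rw [← hWl, h0, Polynomial.eval_zero]
    have hτ : ∀ c : κ, (σ ^ K) (algebraMap κ F c) = algebraMap κ F c := iter_const hσ K
    by_cases hder : ∃ j k, Polynomial.derivative (W j) * W k ≠ W j * Polynomial.derivative (W k)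
    · left
      refine ⟨F, inferInstance, inferInstance, W, fun G hG => ?_, hder⟩
      obtain ⟨d, hd⟩ := hG
      have h1 : x = fun j => (x l / D.eval Z) * (W j).eval Z := by
        funext j
        have h2 := hWx j
        field_simp
        linear_combination h2
      have h2 : aeval x G = (x l / D.eval Z) ^ d * (aeval W G).eval Z := by
        conv_lhs => rw [h1]
        rw [form_scale' hd, eval_aeval']
      constructor
      · intro h0
        rw [h2, h0, Polynomial.eval_zero, mul_zero]
      · intro h0
        by_contra hne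
        rw [h2] at h0
        refine eval_Z_ne inferInstance hZ hK (map_aeval_fix hτ hWK G) hne
          ((mul_eq_zero.1 h0).resolve_left (pow_ne_zero _ (div_ne_zero hl' hD)))
    · right
      push Not at hder
      let n := (W l).natDegree
      have hn : (W l).coeff n ≠ 0 := by
        rw [Polynomial.coeff_natDegree]
        exact Polynomial.leadingCoeff_ne_zero.2 hWl0
      have hc : ∀ i, (W l).coeff n * x i = (W i).coeff n * x l := by
        intro i
        have h1 := congrArg (Polynomial.eval Z) (der_prop (hder i l) n)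
        clear_value W D n
        rw [Polynomial.eval_mul, Polynomial.eval_mul, Polynomial.eval_C, Polynomial.eval_C,
          hWl] at h1
        apply mul_left_cancel₀ hD
        linear_combination (W l).coeff n * hWx i + x l * h1
      have hf : ∀ i, (σ ^ K) ((W i).coeff n) = (W i).coeff n := by
        intro i
        have h1 := congrArg (fun p => Polynomial.coeff p n) (hWK i)
        simpa only [Polynomial.coeff_map] using h1
      refine ⟨K, hK, fun i j => ?_⟩
      have h1 := congrArg (σ ^ K) (hc i)
      have h2 := congrArg (σ ^ K) (hc j)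
      rw [map_mul, map_mul, hf, hf] at h1 h2
      apply mul_left_cancel₀ (mul_ne_zero hn hn)
      calc (W l).coeff n * (W l).coeff n * ((σ ^ K) (x i) * x j) =
          ((W l).coeff n * (σ ^ K) (x i)) * ((W l).coeff n * x j) := by ring
        _ = ((W l).coeff n * x i) * ((W l).coeff n * (σ ^ K) (x j)) := by
          rw [h1, h2, hc i, hc j]
          ring
        _ = _ := by ring
  · push Not at halg
    obtain ⟨i, hi⟩ := halg
    left
    obtain ⟨M, i1, i2, W, e1, -, e3⟩ := dif_main' (κ := κ) θ hσ hZ (Q := 1) (q := 0) (x := x)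
      (isHomogeneous_one _ _) hx (by rw [map_one]; exact one_ne_zero) (by
        rw [map_one]
        exact ⟨1, 1, Polynomial.map_one _, Polynomial.map_one _, one_ne_zero, by
          rw [map_one]⟩) (i := i) (l := l) hl' hi
    exact ⟨M, i1, i2, W, e1, e3⟩

end Pool.Agent.N626
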