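import Mathlib

/-!
Algebras of entire functions closed under `z ↦ z + 1`, their fields of fractions, and embeddings of
these fields into the complex numbers.
-/

set_option autoImplicit false

namespace Pool.Agent.N626

open Cardinal Filter Topology

theorem exists_embed (F : Type) [Field F] [Algebra ℂ F] (h : #F ≤ 𝔠) : Nonempty (F →+* ℂ) := by
  have hc : CharZero F := charZero_of_injective_algebraMap (algebraMap ℂ F).injective
  let K := AlgebraicClosure F
  have hcK : CharZero K := charZero_of_injective_algebraMap (algebraMap F K).injective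
  have h1 : #K ≤ 𝔠 :=
    (Algebra.IsAlgebraic.cardinalMk_le_max F K).trans (max_le h aleph0_le_continuum)
  have h2 : 𝔠 ≤ #K := by
    rw [← mk_complex]
    exact mk_le_of_injective ((algebraMap F K).injective.comp (algebraMap ℂ F).injective)
  have h3 : #K = #ℂ := by
    rw [mk_complex]
    exact le_antisymm h1 h2
  obtain ⟨e⟩ := IsAlgClosed.ringEquiv_of_equiv_of_charZero (K := K) (L := ℂ)
    (aleph0_lt_continuum.trans_le h2) (Cardinal.eq.1 h3)
  exact ⟨(e : K →+* ℂ).comp (algebraMap F K)⟩

/-- An algebra of entire functions which contains the function `z` and is closed under the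
substitution `z ↦ z + 1`. -/
structure ShiftAlg (A : Subalgebra ℂ (ℂ → ℂ)) : Prop where
  diff : ∀ a ∈ A, Differentiable ℂ a
  id : (fun z : ℂ => z) ∈ A
  shift : ∀ a ∈ A, (fun z => a (z + 1)) ∈ A

variable {A : Subalgebra ℂ (ℂ → ℂ)}

theorem an_of_diff {f : ℂ → ℂ} (h : Differentiable ℂ f) : AnalyticOnNhd ℂ f Set.univ :=
  fun z _ => h.analyticAt z

theorem eq_zero_or {f g : ℂ → ℂ} (hf : Differentiable ℂ f) (hg : Differentiable ℂ g)
    (h : ∀ z, f z * g z = 0) : (∀ z, f z = 0) ∨ ∀ z, g z = 0 := by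
  by_cases h0 : ∀ z, f z = 0
  · exact Or.inl h0
  · right
    push Not at h0
    obtain ⟨z0, hz0⟩ := h0
    have h1 : ∀ᶠ z in 𝓝 z0, f z ≠ 0 := hf.continuous.continuousAt.eventually_ne hz0
    have h2 : g =ᶠ[𝓝 z0] 0 := by
      filter_upwards [h1] with z hz
      exact (mul_eq_zero.1 (h z)).resolve_left hz
    intro z
    exact (an_of_diff hg).eqOn_zero_of_preconnected_of_eventuallyEq_zero isPreconnected_univ
      (Set.mem_univ z0) h2 (Set.mem_univ z)

theorem ShiftAlg.isDomain (h : ShiftAlg A) : IsDomain A := by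
  have h1 : NoZeroDivisors A := ⟨fun {a b} hab => by
    rcases eq_zero_or (h.diff a a.2) (h.diff b b.2) (fun z => congrFun (congrArg Subtype.val hab) z)
      with h2 | h2
    · exact Or.inl (Subtype.ext (funext h2))
    · exact Or.inr (Subtype.ext (funext h2))⟩
  have h2 : Nontrivial A := ⟨1, 0, fun h => one_ne_zero (congrFun (congrArg Subtype.val h) 0)⟩
  exact NoZeroDivisors.to_isDomain A

theorem ShiftAlg.card (h : ShiftAlg A) : #A ≤ 𝔠 := by
  have h1 : Function.Injective (fun (a : A) (n : ℕ) => (a : ℂ → ℂ) ((1 : ℂ) / (n + 1))) := by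
    intro a b hab
    have h3 : ∃ᶠ z in 𝓝[≠] (0 : ℂ), (a : ℂ → ℂ) z = (b : ℂ → ℂ) z := by
      have h4 : Tendsto (fun n : ℕ => (1 : ℂ) / (n + 1)) atTop (𝓝[≠] 0) := by
        rw [tendsto_nhdsWithin_iff]
        refine ⟨tendsto_one_div_add_atTop_nhds_zero_nat, Eventually.of_forall fun n => ?_⟩
        have : (n : ℂ) + 1 ≠ 0 := Nat.cast_add_one_ne_zero n
        exact div_ne_zero one_ne_zero this
      exact h4.frequently (Frequently.of_forall fun n => congrFun hab n)
    apply Subtype.ext
    exact (an_of_diff (h.diff a a.2)).eq_of_frequently_eq (an_of_diff (h.diff b b.2)) h3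
  refine (mk_le_of_injective h1).trans ?_
  rw [← Cardinal.power_def, mk_complex, mk_nat, continuum_power_aleph0]

/-- the shift on the algebra -/
def shiftHom (h : ShiftAlg A) : A →ₐ[ℂ] A where
  toFun a := ⟨fun z => (a : ℂ → ℂ) (z + 1), h.shift a a.2⟩
  map_one' := rfl
  map_mul' _ _ := rfl
  map_zero' := rfl
  map_add' _ _ := rfl
  commutes' _ := rfl

theorem shiftHom_inj (h : ShiftAlg A) : Function.Injective (shiftHom h) := by
  intro a b hab
  apply Subtype.ext
  funext z
  have h1 := congrFun (congrArg Subtype.val hab) (z - 1)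
  have h2 : (a : ℂ → ℂ) (z - 1 + 1) = (b : ℂ → ℂ) (z - 1 + 1) := h1
  rwa [sub_add_cancel] at h2

end Pool.Agent.N626
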