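import Pool.Agent.N626.Dif
import Pool.Agent.N626.Fld

/-!
Curves given by linear difference equations whose coefficients are polynomials in `z` with periodic
coefficients.
-/

set_option autoImplicit false

namespace Pool.Agent.N626

open MvPolynomial Filter

/-- The function `g` satisfies a nontrivial linear difference equation
`∑ (∑ c_ki(z) z^i) g(z + k) = 0` with `1`-periodic functions `c_ki` in the algebra `A`. -/
def DiffEq (A : Subalgebra ℂ (ℂ → ℂ)) (g : ℂ → ℂ) : Prop :=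
  ∃ (n d : ℕ) (c : ℕ → ℕ → ℂ → ℂ), (∀ k i, c k i ∈ A ∧ ∀ z, c k i (z + 1) = c k i z) ∧
    (∃ k ≤ n, ∃ i ≤ d, c k i ≠ 0) ∧
    ∀ z, ∑ k ∈ Finset.range (n + 1), (∑ i ∈ Finset.range (d + 1), c k i z * z ^ i) * g (z + k) = 0

/-- The function `q` satisfies a homogeneous linear difference equation
`(∑ c_i(z) z^i) q(z + 1) = (∑ c'_i(z) z^i) q(z)` of order one, with `1`-periodic functions `c_i`,
`c'_i` in the algebra `A`, not all `c_i` zero. -/
def DiffOne (A : Subalgebra ℂ (ℂ → ℂ)) (q : ℂ → ℂ) : Prop :=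
  ∃ (d : ℕ) (c c' : ℕ → ℂ → ℂ), (∀ i, c i ∈ A ∧ ∀ z, c i (z + 1) = c i z) ∧
    (∀ i, c' i ∈ A ∧ ∀ z, c' i (z + 1) = c' i z) ∧ (∃ i ≤ d, c i ≠ 0) ∧
    ∀ z, (∑ i ∈ Finset.range (d + 1), c i z * z ^ i) * q (z + 1) =
      (∑ i ∈ Finset.range (d + 1), c' i z * z ^ i) * q z

/-- The quotient `f / g` is a root of a nonzero polynomial whose coefficients are polynomials in `z`
with coefficients in the field of the `1`-periodic quotients `u_ab / v` of functions in the algebra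
`A`. -/
def AlgPer (A : Subalgebra ℂ (ℂ → ℂ)) (f g : ℂ → ℂ) : Prop :=
  ∃ (n : ℕ) (v : ℂ → ℂ) (u : ℕ → ℕ → ℂ → ℂ), v ∈ A ∧ v ≠ 0 ∧
    (∀ a b, u a b ∈ A ∧ ∀ z, u a b (z + 1) * v z = u a b z * v (z + 1)) ∧
    (∃ a ≤ n, ∃ b ≤ n, u a b ≠ 0) ∧
    ∀ z, ∑ a ∈ Finset.range (n + 1), ∑ b ∈ Finset.range (n + 1),
      u a b z * z ^ a * f z ^ b * g z ^ (n - b) = 0

variable {A : Subalgebra ℂ (ℂ → ℂ)} {N : ℕ}

section field

variable (h : ShiftAlg A) (F : Type) [Field F] [Algebra A F] [IsFractionRing A F]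

/-- the shift on the field of fractions -/
noncomputable def sh : F →+* F :=
  IsFractionRing.lift (A := A) (K := F) (L := F)
    (g := ((algebraMap A F).comp (shiftHom h : A →+* A)))
    ((IsFractionRing.injective A F).comp (shiftHom_inj h))

theorem sh_map (a : A) : sh h F (algebraMap A F a) = algebraMap A F (shiftHom h a) :=
  IsFractionRing.lift_algebraMap _ a

/-- periodic functions are fixed -/
theorem sh_fix {c : ℂ → ℂ} (hc : c ∈ A) (hp : ∀ z, c (z + 1) = c z) :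
    sh h F (algebraMap A F ⟨c, hc⟩) = algebraMap A F ⟨c, hc⟩ := by
  rw [sh_map]
  exact congrArg _ (Subtype.ext (funext hp))

theorem sh_pow (a : A) (k : ℕ) : (sh h F ^ k) (algebraMap A F a) =
    algebraMap A F ((shiftHom h ^ k) a) := by
  induction k with
  | zero => rfl
  | succ k ih =>
    rw [pow_succ_apply', ih, sh_map, pow_succ' (shiftHom h)]
    rfl

theorem shiftHom_pow (a : A) (k : ℕ) (z : ℂ) : (((shiftHom h ^ k) a : A) : ℂ → ℂ) z =
    (a : ℂ → ℂ) (z + k) := by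
  induction k generalizing z with
  | zero => simp
  | succ k ih =>
    have h1 : (shiftHom h ^ (k + 1)) a = shiftHom h ((shiftHom h ^ k) a) := by
      rw [pow_succ']
      rfl
    rw [h1]
    have h2 : ((shiftHom h ((shiftHom h ^ k) a) : A) : ℂ → ℂ) z =
      (((shiftHom h ^ k) a : A) : ℂ → ℂ) (z + 1) := rfl
    have h3 : z + 1 + (k : ℂ) = z + ((k + 1 : ℕ) : ℂ) := by
      push_cast
      ring
    rw [h2, ih, h3]

/-- the polynomial with the periodic coefficients `c` -/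
noncomputable def per {c : ℕ → ℂ → ℂ} (hc : ∀ i, c i ∈ A) (d : ℕ) : Polynomial F :=
  ∑ i ∈ Finset.range (d + 1), Polynomial.monomial i (algebraMap A F ⟨c i, hc i⟩)

omit [IsFractionRing A F] in
theorem per_coeff {c : ℕ → ℂ → ℂ} (hc : ∀ i, c i ∈ A) {d i : ℕ} (hi : i ≤ d) :
    (per F hc d).coeff i = algebraMap A F ⟨c i, hc i⟩ := by
  unfold per
  simp only [Polynomial.finsetSum_coeff, Polynomial.coeff_monomial]
  rw [Finset.sum_ite_eq', if_pos (Finset.mem_range.2 (by omega))]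

theorem per_ne {c : ℕ → ℂ → ℂ} (hc : ∀ i, c i ∈ A) {d i : ℕ} (hi : i ≤ d) (h0 : c i ≠ 0) :
    per F hc d ≠ 0 := by
  intro h1
  have h2 := per_coeff F hc hi
  rw [h1, Polynomial.coeff_zero] at h2
  have h3 := (map_eq_zero_iff _ (IsFractionRing.injective A F)).1 h2.symm
  exact h0 (congrArg Subtype.val h3)

theorem per_map {c : ℕ → ℂ → ℂ} (hc : ∀ i, c i ∈ A) (hp : ∀ i z, c i (z + 1) = c i z) (d : ℕ) :
    (per F hc d).map (sh h F) = per F hc d := by
  unfold per
  rw [Polynomial.map_sum]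
  refine Finset.sum_congr rfl fun i _ => ?_
  rw [Polynomial.map_monomial, sh_fix h F (hc i) (hp i)]

/-- the element `z` -/
noncomputable def zz : F := algebraMap A F ⟨fun z => z, h.id⟩

omit [IsFractionRing A F] in
theorem per_eval {c : ℕ → ℂ → ℂ} (hc : ∀ i, c i ∈ A) (d : ℕ) :
    (per F hc d).eval (zz h F) = algebraMap A F
      (∑ i ∈ Finset.range (d + 1), ⟨c i, hc i⟩ * ⟨fun z => z, h.id⟩ ^ i) := by
  unfold per zz
  rw [Polynomial.eval_finsetSum, map_sum]
  refine Finset.sum_congr rfl fun i _ => ?_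
  rw [Polynomial.eval_monomial, map_mul, map_pow]

theorem sh_zz : sh h F (zz h F) = zz h F + 1 := by
  unfold zz
  rw [sh_map, ← map_one (algebraMap A F), ← map_add]
  rfl

theorem sum_val {ι : Type} (s : Finset ι) (a : ι → A) (z : ℂ) :
    ((∑ i ∈ s, a i : A) : ℂ → ℂ) z = ∑ i ∈ s, (a i : ℂ → ℂ) z := by
  classical
  induction s using Finset.induction_on with
  | empty => rfl
  | insert i s hi ih =>
    rw [Finset.sum_insert hi, Finset.sum_insert hi, ← ih]
    rfl

theorem lin_of_diffEq {g : ℂ → ℂ} (hg : g ∈ A) (hd : DiffEq A g) :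
    LinD (sh h F) (zz h F) (algebraMap A F ⟨g, hg⟩) := by
  obtain ⟨n, d, c, hc, ⟨k, hk, i, hi, h0⟩, hs⟩ := hd
  refine ⟨n, fun k => per F (fun i => (hc k i).1) d, fun k =>
    per_map h F _ (fun i z => (hc k i).2 z) d, ⟨k, hk, per_ne F _ hi h0⟩, ?_⟩
  have h1 : ∀ k, (per F (fun i => (hc k i).1) d).eval (zz h F) *
      (sh h F ^ k) (algebraMap A F ⟨g, hg⟩) = algebraMap A F
        ((∑ i ∈ Finset.range (d + 1), ⟨c k i, (hc k i).1⟩ * ⟨fun z => z, h.id⟩ ^ i) *
          (shiftHom h ^ k) ⟨g, hg⟩) := by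
    intro k
    rw [per_eval, sh_pow, map_mul]
  simp only [h1]
  rw [← map_sum, map_eq_zero_iff _ (IsFractionRing.injective A F)]
  apply Subtype.ext
  funext z
  have h00 : ((0 : A) : ℂ → ℂ) z = 0 := rfl
  rw [h00, sum_val, ← hs z]
  refine Finset.sum_congr rfl fun k _ => ?_
  have h2 : (((∑ i ∈ Finset.range (d + 1), (⟨c k i, (hc k i).1⟩ * ⟨fun z => z, h.id⟩ ^ i : A)) *
      (shiftHom h ^ k) ⟨g, hg⟩ : A) : ℂ → ℂ) z =
      ((∑ i ∈ Finset.range (d + 1), (⟨c k i, (hc k i).1⟩ * ⟨fun z => z, h.id⟩ ^ i : A) : A) :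
        ℂ → ℂ) z * (((shiftHom h ^ k) ⟨g, hg⟩ : A) : ℂ → ℂ) z := rfl
  rw [h2, sum_val, shiftHom_pow]
  rfl

theorem hyp_of_diffOne {g : ℂ → ℂ} (hg : g ∈ A) (hd : DiffOne A g) :
    HypD (sh h F) (zz h F) (algebraMap A F ⟨g, hg⟩) := by
  obtain ⟨d, c, c', hc, hc', ⟨i, hi, h0⟩, hs⟩ := hd
  refine ⟨per F (fun i => (hc i).1) d, per F (fun i => (hc' i).1) d,
    per_map h F _ (fun i z => (hc i).2 z) d, per_map h F _ (fun i z => (hc' i).2 z) d,
    per_ne F _ hi h0, ?_⟩
  rw [per_eval, per_eval, sh_map, ← map_mul, ← map_mul]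
  congr 1
  apply Subtype.ext
  funext z
  have h2 : ∀ (a b : A), ((a * b : A) : ℂ → ℂ) z = (a : ℂ → ℂ) z * (b : ℂ → ℂ) z :=
    fun _ _ => rfl
  rw [h2, h2, sum_val, sum_val]
  exact hs z

theorem algPer_of_algC {f g : ℂ → ℂ} (hf : f ∈ A) (hg : g ∈ A) (hg0 : g ≠ 0)
    (hd : AlgC (sh h F) (zz h F) (algebraMap A F ⟨f, hf⟩ / algebraMap A F ⟨g, hg⟩)) :
    AlgPer A f g := by
  classical
  have hdom := h.isDomain
  obtain ⟨n, c, hc, hfix, hs⟩ := hd
  obtain ⟨v, hv⟩ := IsLocalization.exist_integer_multiples_of_finite (nonZeroDivisors A) c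
  choose u hu using hv
  have hv0 : (v : A) ≠ 0 := nonZeroDivisors.ne_zero v.2
  have hinj := IsFractionRing.injective A F
  have hvF : algebraMap A F (v : A) ≠ 0 := by rwa [Ne, map_eq_zero_iff _ hinj]
  have hu' : ∀ i, algebraMap A F (u i) = algebraMap A F (v : A) * c i := by
    intro i
    rw [hu i, Algebra.smul_def]
  have hn : 0 < n := by
    obtain ⟨i, _⟩ := Function.ne_iff.1 hc
    exact i.1.pos
  have hgF : algebraMap A F ⟨g, hg⟩ ≠ 0 := by
    rw [Ne, map_eq_zero_iff _ hinj]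
    exact fun h0 => hg0 (congrArg Subtype.val h0)
  let U : ℕ → ℕ → A := fun a b =>
    if hab : a < n ∧ b < n then u (⟨a, hab.1⟩, ⟨b, hab.2⟩) else 0
  refine ⟨n, ((v : A) : ℂ → ℂ), fun a b => (U a b : ℂ → ℂ), (v : A).2,
    fun h0 => hv0 (Subtype.ext h0), fun a b => ⟨(U a b).2, fun z => ?_⟩, ?_, fun z => ?_⟩
  · have h1 : shiftHom h (U a b) * v = U a b * shiftHom h v := by
      by_cases hab : a < n ∧ b < n
      · simp only [U, dif_pos hab]
        apply hinj
        have h2 := congrArg (sh h F) (hu' (⟨a, hab.1⟩, ⟨b, hab.2⟩))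
        rw [sh_map, map_mul, sh_map, hfix] at h2
        rw [map_mul, map_mul, h2, hu']
        ring
      · simp only [U, dif_neg hab, map_zero, zero_mul]
    exact congrFun (congrArg Subtype.val h1) z
  · obtain ⟨i, hi⟩ := Function.ne_iff.1 hc
    refine ⟨i.1, i.1.2.le, i.2, i.2.2.le, fun h0 => hi ?_⟩
    have h1 : u i = 0 := by
      have h2 : U i.1 i.2 = u i := by
        simp only [U, dif_pos (And.intro i.1.2 i.2.2)]
      rw [← h2]
      exact Subtype.ext h0
    have h3 := hu' i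
    rw [h1, map_zero] at h3
    exact (mul_eq_zero.1 h3.symm).resolve_left hvF
  · have h1 : ∑ a ∈ Finset.range (n + 1), ∑ b ∈ Finset.range (n + 1),
        U a b * ⟨fun z => z, h.id⟩ ^ a * (⟨f, hf⟩ : A) ^ b * (⟨g, hg⟩ : A) ^ (n - b) = 0 := by
      have hU0 : ∀ a b, ¬ (a < n ∧ b < n) → U a b = 0 := fun a b hab => dif_neg hab
      have h2 : ∑ a ∈ Finset.range (n + 1), ∑ b ∈ Finset.range (n + 1),
          U a b * ⟨fun z => z, h.id⟩ ^ a * (⟨f, hf⟩ : A) ^ b * (⟨g, hg⟩ : A) ^ (n - b) =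
          ∑ i : Fin n × Fin n, u i * ⟨fun z => z, h.id⟩ ^ (i.1 : ℕ) * (⟨f, hf⟩ : A) ^ (i.2 : ℕ) *
            (⟨g, hg⟩ : A) ^ (n - (i.2 : ℕ)) := by
        rw [Fintype.sum_prod_type, Finset.sum_range_succ, Finset.sum_eq_zero
          (s := Finset.range (n + 1)), add_zero, Finset.sum_range]
        · refine Finset.sum_congr rfl fun a _ => ?_
          rw [Finset.sum_range_succ, hU0 _ _ (by omega), Finset.sum_range]
          simp only [zero_mul, add_zero]
          refine Finset.sum_congr rfl fun b _ => ?_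
          have h3 : U a b = u (a, b) := by
            simp only [U, dif_pos (And.intro a.2 b.2)]
          rw [h3]
        · intro b _
          rw [hU0 _ _ (by omega)]
          simp only [zero_mul]
      rw [h2]
      apply hinj
      rw [map_zero, map_sum]
      have h4 : ∀ i : Fin n × Fin n, algebraMap A F (u i * ⟨fun z => z, h.id⟩ ^ (i.1 : ℕ) *
          (⟨f, hf⟩ : A) ^ (i.2 : ℕ) * (⟨g, hg⟩ : A) ^ (n - (i.2 : ℕ))) =
          algebraMap A F (v : A) * algebraMap A F ⟨g, hg⟩ ^ n * (c i * (zz h F ^ (i.1 : ℕ) *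
            (algebraMap A F ⟨f, hf⟩ / algebraMap A F ⟨g, hg⟩) ^ (i.2 : ℕ))) := by
        intro i
        rw [map_mul, map_mul, map_mul, map_pow, map_pow, map_pow, hu', div_pow]
        have h5 : algebraMap A F ⟨g, hg⟩ ^ n = algebraMap A F ⟨g, hg⟩ ^ (i.2 : ℕ) *
            algebraMap A F ⟨g, hg⟩ ^ (n - (i.2 : ℕ)) := by
          rw [← pow_add, Nat.add_sub_cancel' i.2.2.le]
        rw [h5]
        unfold zz
        field_simp
      simp only [h4]
      rw [← Finset.mul_sum, hs, mul_zero]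
    have h6 := congrFun (congrArg Subtype.val h1) z
    have h00 : ((0 : A) : ℂ → ℂ) z = 0 := rfl
    rw [sum_val, h00] at h6
    rw [← h6]
    refine Finset.sum_congr rfl fun a _ => ?_
    rw [sum_val]
    rfl

end field

end Pool.Agent.N626
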