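import Pool.Agent.N626.Fun

/-!
The curves `p(e^z)` given by morphisms `p` of the multiplicative group: linear difference equations
with constant coefficients, and transcendence over the field generated by `z` and the `1`-periodic
functions.
-/

set_option autoImplicit false

namespace Pool.Agent.N626

open Filter Topology Polynomial

theorem countable_zeros {a : ℂ → ℂ} (ha : Differentiable ℂ a) (hne : a ≠ 0) :
    {x | a x = 0}.Countable := by
  have h1 : ∀ c, ∀ᶠ z in 𝓝[≠] c, a z ≠ 0 := by
    intro c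
    rcases (ha.analyticAt c).eventually_eq_zero_or_eventually_ne_zero with h | h
    · exfalso
      apply hne
      funext w
      exact (an_of_diff ha).eqOn_zero_of_preconnected_of_eventuallyEq_zero isPreconnected_univ
        (Set.mem_univ c) h (Set.mem_univ w)
    · exact h
  apply (HereditarilyLindelofSpace.isLindelof _).countable_of_isDiscrete
  rw [isDiscrete_iff_nhdsNE]
  intro c _
  rw [← _root_.disjoint_iff, Filter.disjoint_principal_right]
  filter_upwards [h1 c] with x hx
  exact hx

theorem tendsto_poly_exp (P : Polynomial ℂ) {k : ℕ} (hk : 0 < k) :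
    Tendsto (fun m : ℕ => P.eval (m : ℂ) * Complex.exp (-(k * m : ℂ))) atTop (𝓝 0) := by
  have h1 : ∀ i : ℕ, Tendsto (fun m : ℕ => P.coeff i * (m : ℂ) ^ i *
      Complex.exp (-(k * m : ℂ))) atTop (𝓝 0) := by
    intro i
    rw [tendsto_zero_iff_norm_tendsto_zero]
    have h2 : Tendsto (fun m : ℕ => ‖P.coeff i‖ * ((m : ℝ) ^ i * Real.exp (-(m : ℝ)))) atTop
        (𝓝 0) := by
      have h3 := ((Real.tendsto_pow_mul_exp_neg_atTop_nhds_zero i).comp
        tendsto_natCast_atTop_atTop).const_mul ‖P.coeff i‖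
      rw [mul_zero] at h3
      exact h3
    refine squeeze_zero (fun m => norm_nonneg _) (fun m => ?_) h2
    rw [norm_mul, norm_mul, norm_pow, Complex.norm_natCast, Complex.norm_exp, mul_assoc]
    refine mul_le_mul_of_nonneg_left ?_ (norm_nonneg _)
    refine mul_le_mul_of_nonneg_left ?_ (by positivity)
    apply Real.exp_le_exp.2
    have h4 : (-(k * m : ℂ)).re = -((k : ℝ) * m) := by
      simp
    rw [h4]
    have h5 : (1 : ℝ) ≤ k := by exact_mod_cast hk
    have h6 : (0 : ℝ) ≤ m := Nat.cast_nonneg m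
    nlinarith
  have h2 : (fun m : ℕ => P.eval (m : ℂ) * Complex.exp (-(k * m : ℂ))) = fun m : ℕ =>
      ∑ i ∈ Finset.range (P.natDegree + 1), P.coeff i * (m : ℂ) ^ i *
        Complex.exp (-(k * m : ℂ)) := by
    funext m
    rw [Polynomial.eval_eq_sum_range, Finset.sum_mul]
  rw [h2, ← Finset.sum_const_zero (s := Finset.range (P.natDegree + 1))]
  exact tendsto_finsetSum _ fun i _ => h1 i

theorem not_tendsto_poly {P : Polynomial ℂ} (hP : P ≠ 0) :
    ¬ Tendsto (fun m : ℕ => P.eval (m : ℂ)) atTop (𝓝 0) := by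
  intro h
  rcases Nat.eq_zero_or_pos P.natDegree with h0 | h0
  · rw [Polynomial.natDegree_eq_zero] at h0
    obtain ⟨c, rfl⟩ := h0
    simp only [Polynomial.eval_C] at h
    have h1 := tendsto_nhds_unique h tendsto_const_nhds
    apply hP
    rw [← h1, Polynomial.C_0]
  · have h1 : Tendsto (fun m : ℕ => ‖P.eval (m : ℂ)‖) atTop atTop := by
      apply Polynomial.tendsto_norm_atTop P
        (Polynomial.natDegree_pos_iff_degree_pos.1 h0)
      simp only [Complex.norm_natCast]
      exact tendsto_natCast_atTop_atTop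
    have h2 := h.norm
    rw [norm_zero] at h2
    exact not_tendsto_nhds_of_tendsto_atTop h1 0 h2

/-- there are no polynomial relations between `m` and `e^m` -/
theorem no_rel {H : Polynomial (Polynomial ℂ)}
    (h : ∀ m : ℕ, H.evalEval (m : ℂ) (Complex.exp m) = 0) : H = 0 := by
  by_contra hne
  set J := H.natDegree with hJ
  have hlead : H.coeff J ≠ 0 := Polynomial.leadingCoeff_ne_zero.2 hne
  apply not_tendsto_poly hlead
  have h1 : ∀ m : ℕ, (H.coeff J).eval (m : ℂ) = -∑ j ∈ Finset.range J,
      (H.coeff j).eval (m : ℂ) * Complex.exp (-(((J - j : ℕ) : ℂ) * m)) := by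
    intro m
    have h2 := h m
    unfold Polynomial.evalEval at h2
    rw [Polynomial.eval_eq_sum_range (p := H), Polynomial.eval_finsetSum,
      Finset.sum_range_succ] at h2
    simp only [Polynomial.eval_mul, Polynomial.eval_pow, Polynomial.eval_C] at h2
    have h3 : ∀ j, j ≤ J → Complex.exp (m : ℂ) ^ j = Complex.exp (m : ℂ) ^ J *
        Complex.exp (-(((J - j : ℕ) : ℂ) * m)) := by
      intro j hj
      rw [← Complex.exp_nat_mul, ← Complex.exp_nat_mul, ← Complex.exp_add]
      congr 1
      rw [Nat.cast_sub hj]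
      ring
    have h4 : Complex.exp (m : ℂ) ^ J * ((H.coeff J).eval (m : ℂ) + ∑ j ∈ Finset.range J,
        (H.coeff j).eval (m : ℂ) * Complex.exp (-(((J - j : ℕ) : ℂ) * m))) = 0 := by
      rw [← h2, mul_add, Finset.mul_sum, add_comm]
      congr 1
      · refine Finset.sum_congr rfl fun j hj => ?_
        rw [h3 j (Finset.mem_range.1 hj).le]
        ring
      · ring
    have h5 := (mul_eq_zero.1 h4).resolve_left (pow_ne_zero _ (Complex.exp_ne_zero _))
    linear_combination h5
  have h2 : Tendsto (fun m : ℕ => -∑ j ∈ Finset.range J,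
      (H.coeff j).eval (m : ℂ) * Complex.exp (-(((J - j : ℕ) : ℂ) * m))) atTop (𝓝 0) := by
    rw [← neg_zero, ← Finset.sum_const_zero (s := Finset.range J)]
    refine (tendsto_finsetSum _ fun j hj => ?_).neg
    exact tendsto_poly_exp _ (Nat.sub_pos_of_lt (Finset.mem_range.1 hj))
  refine h2.congr fun m => (h1 m).symm

/-- a binary form which vanishes along two polynomials -/
theorem prop_of_form {P R : Polynomial ℂ} {n : ℕ} {κ : ℕ → ℂ} (hκ : ∃ b ≤ n, κ b ≠ 0)
    (h : ∀ t, ∑ b ∈ Finset.range (n + 1), κ b * P.eval t ^ b * R.eval t ^ (n - b) = 0) (t u : ℂ) :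
    P.eval t * R.eval u = R.eval t * P.eval u := by
  classical
  by_cases hR : R = 0
  · rw [hR, Polynomial.eval_zero, Polynomial.eval_zero, mul_zero, zero_mul]
  let Ψ : Polynomial ℂ := ∑ b ∈ Finset.range (n + 1), Polynomial.monomial b (κ b)
  have hΨ : Ψ ≠ 0 := by
    intro h0
    obtain ⟨b, hb, hb0⟩ := hκ
    have h1 : Ψ.coeff b = κ b := by
      simp only [Ψ, Polynomial.finsetSum_coeff, Polynomial.coeff_monomial]
      rw [Finset.sum_ite_eq', if_pos (Finset.mem_range.2 (by omega))]
    rw [h0, Polynomial.coeff_zero] at h1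
    exact hb0 h1.symm
  have h1 : ∀ t, R.eval t ≠ 0 → Ψ.eval (P.eval t / R.eval t) = 0 := by
    intro t ht
    have h2 : Ψ.eval (P.eval t / R.eval t) * R.eval t ^ n = 0 := by
      rw [← h t, Polynomial.eval_finsetSum, Finset.sum_mul]
      refine Finset.sum_congr rfl fun b hb => ?_
      have hb' : b ≤ n := Nat.lt_succ_iff.1 (Finset.mem_range.1 hb)
      rw [Polynomial.eval_monomial, div_pow]
      have h3 : R.eval t ^ n = R.eval t ^ b * R.eval t ^ (n - b) := by
        rw [← pow_add, Nat.add_sub_cancel' hb']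
      rw [h3]
      field_simp
    exact (mul_eq_zero.1 h2).resolve_right (pow_ne_zero _ ht)
  have h2 : (∏ ρ ∈ Ψ.roots.toFinset, (P - Polynomial.C ρ * R)) * R = 0 := by
    apply Polynomial.funext
    intro t
    rw [Polynomial.eval_zero, Polynomial.eval_mul, Polynomial.eval_prod]
    by_cases ht : R.eval t = 0
    · rw [ht, mul_zero]
    · rw [Finset.prod_eq_zero (i := P.eval t / R.eval t), zero_mul]
      · rw [Multiset.mem_toFinset, Polynomial.mem_roots hΨ]
        exact h1 t ht
      · rw [Polynomial.eval_sub, Polynomial.eval_mul, Polynomial.eval_C, div_mul_cancel₀ _ ht,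
          sub_self]
  have h3 := (mul_eq_zero.1 h2).resolve_right hR
  rw [Finset.prod_eq_zero_iff] at h3
  obtain ⟨ρ, _, hρ⟩ := h3
  have h4 : P = Polynomial.C ρ * R := sub_eq_zero.1 hρ
  rw [h4, Polynomial.eval_mul, Polynomial.eval_mul, Polynomial.eval_C, Polynomial.eval_C]
  ring

variable {A : Subalgebra ℂ (ℂ → ℂ)}

/-- **Transcendence.** -/
theorem not_algPer (h : ShiftAlg A) {P R : Polynomial ℂ}
    (ha : AlgPer A (fun z => P.eval (Complex.exp z)) fun z => R.eval (Complex.exp z)) (t u : ℂ) :
    P.eval t * R.eval u = R.eval t * P.eval u := by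
  classical
  obtain ⟨n, v, U, hv, hv0, hU, ⟨a0, ha0, b0, hb0, h0⟩, hs⟩ := ha
  -- a general point
  have h1 : (⋃ m : ℕ, {z : ℂ | v (z + m) = 0}).Countable := by
    refine Set.countable_iUnion fun m => ?_
    have h2 : {z : ℂ | v (z + m) = 0} = (fun z => z + (m : ℂ)) ⁻¹' {z | v z = 0} := rfl
    rw [h2]
    exact (countable_zeros (h.diff v hv) hv0).preimage_of_injOn
      ((add_left_injective (m : ℂ)).injOn)
  have h2 := h1.union (countable_zeros (h.diff _ (hU a0 b0).1) h0)
  obtain ⟨z0, hz0⟩ : ∃ z0 : ℂ, z0 ∉ (⋃ m : ℕ, {z : ℂ | v (z + m) = 0}) ∪ {z | U a0 b0 z = 0} := by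
    by_contra hcon
    push Not at hcon
    have h3 : (Set.univ : Set ℂ).Countable := h2.mono fun z _ => hcon z
    have h4 : Cardinal.mk ℂ ≤ Cardinal.aleph0 := Cardinal.mk_le_aleph0_iff.2
      (Set.countable_univ_iff.1 h3)
    rw [Cardinal.mk_complex] at h4
    exact absurd h4 (not_le.2 Cardinal.aleph0_lt_continuum)
  simp only [Set.mem_union, Set.mem_iUnion, Set.mem_ofPred_eq, not_or, not_exists] at hz0
  obtain ⟨hz1, hz2⟩ := hz0
  have hz3 : v z0 ≠ 0 := by
    have := hz1 0
    simpa using this
  have hκ : ∀ a b (m : ℕ), U a b (z0 + m) = U a b z0 / v z0 * v (z0 + m) := by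
    intro a b m
    induction m with
    | zero =>
      simp only [Nat.cast_zero, add_zero]
      rw [div_mul_cancel₀ _ hz3]
    | succ m ih =>
      have h3 := (hU a b).2 (z0 + m)
      rw [ih] at h3
      have h4 : z0 + ((m + 1 : ℕ) : ℂ) = z0 + m + 1 := by
        push_cast
        ring
      rw [h4]
      have h5 : (U a b (z0 + m + 1) - U a b z0 / v z0 * v (z0 + m + 1)) * v (z0 + m) = 0 := by
        linear_combination h3
      have h6 := (mul_eq_zero.1 h5).resolve_right (hz1 m)
      linear_combination h6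
  -- the relation
  let E : ℂ := Complex.exp z0
  let cc : Polynomial ℂ →+* Polynomial (Polynomial ℂ) := Polynomial.mapRingHom Polynomial.C
  let H : Polynomial (Polynomial ℂ) := ∑ a ∈ Finset.range (n + 1), ∑ b ∈ Finset.range (n + 1),
    Polynomial.C (Polynomial.C (U a b z0 / v z0) * (Polynomial.X + Polynomial.C z0) ^ a) *
      cc (P.comp (Polynomial.C E * Polynomial.X)) ^ b *
      cc (R.comp (Polynomial.C E * Polynomial.X)) ^ (n - b)
  have hcc : ∀ (S : Polynomial ℂ) (x y : ℂ), (cc S).evalEval x y = S.eval y := by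
    intro S x y
    have h3 : (Polynomial.evalEvalRingHom x y).comp cc = Polynomial.evalRingHom y := by
      ext <;> simp [cc]
    exact DFunLike.congr_fun h3 S
  have hH : ∀ x y : ℂ, H.evalEval x y = ∑ a ∈ Finset.range (n + 1), ∑ b ∈ Finset.range (n + 1),
      U a b z0 / v z0 * (x + z0) ^ a * P.eval (E * y) ^ b * R.eval (E * y) ^ (n - b) := by
    intro x y
    change Polynomial.evalEvalRingHom x y H = _
    simp only [H, map_sum, map_mul, map_pow]
    refine Finset.sum_congr rfl fun a _ => Finset.sum_congr rfl fun b _ => ?_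
    have h3 : ∀ S : Polynomial ℂ, Polynomial.evalEvalRingHom x y (cc S) = S.eval y :=
      fun S => hcc S x y
    rw [h3, h3, Polynomial.eval_comp, Polynomial.eval_comp]
    simp
  have hH0 : H = 0 := by
    apply no_rel
    intro m
    rw [hH]
    have h3 := hs (z0 + m)
    have h4 : v (z0 + m) * ∑ a ∈ Finset.range (n + 1), ∑ b ∈ Finset.range (n + 1),
        U a b z0 / v z0 * ((m : ℂ) + z0) ^ a * P.eval (E * Complex.exp m) ^ b *
          R.eval (E * Complex.exp m) ^ (n - b) = 0 := by
      rw [← h3, Finset.mul_sum]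
      refine Finset.sum_congr rfl fun a _ => ?_
      rw [Finset.mul_sum]
      refine Finset.sum_congr rfl fun b _ => ?_
      beta_reduce
      rw [hκ, Complex.exp_add]
      ring
    exact (mul_eq_zero.1 h4).resolve_left (hz1 m)
  -- the coefficients of the powers of `z`
  refine prop_of_form (n := n) (κ := fun b => U a0 b z0 / v z0) ⟨b0, hb0, div_ne_zero hz2 hz3⟩
    (fun t => ?_) t u
  have hE : E ≠ 0 := Complex.exp_ne_zero _
  let G : Polynomial ℂ := ∑ a ∈ Finset.range (n + 1), Polynomial.monomial a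
    (∑ b ∈ Finset.range (n + 1), U a b z0 / v z0 * P.eval t ^ b * R.eval t ^ (n - b))
  have hG : G = 0 := by
    apply Polynomial.funext
    intro x
    have h3 := hH (x - z0) (t / E)
    rw [hH0, sub_add_cancel, mul_div_cancel₀ _ hE, Polynomial.evalEval_zero] at h3
    rw [Polynomial.eval_zero, h3, Polynomial.eval_finsetSum]
    refine Finset.sum_congr rfl fun a _ => ?_
    rw [Polynomial.eval_monomial, Finset.sum_mul]
    refine Finset.sum_congr rfl fun b _ => ?_
    ring
  have h3 : G.coeff a0 = ∑ b ∈ Finset.range (n + 1), U a0 b z0 / v z0 * P.eval t ^ b *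
      R.eval t ^ (n - b) := by
    simp only [G, Polynomial.finsetSum_coeff, Polynomial.coeff_monomial]
    rw [Finset.sum_ite_eq', if_pos (Finset.mem_range.2 (by omega))]
  rw [← h3, hG, Polynomial.coeff_zero]

end Pool.Agent.N626
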