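import Pool.Agent.N626.Mn
import Pool.Agent.N626.Rev
import Pool.Agent.Y377.IL.AllE

/-!
The special set of the multiplicative group and the curves given by linear difference equations.
-/

set_option autoImplicit false

namespace Pool.Agent.N626

open MvPolynomial Filter Pool.Agent.W602.GT
open Pool.Agent.Y377.IL (form_scale poly_ne nonconst_of_wr')

variable {N : ℕ}

/-- `p` gives a nonconstant morphism from the multiplicative group to the complement of `Q = 0` in
the projective algebraic set of `I`. -/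
structure GmC (I : Ideal (MvPolynomial (Fin (N + 1)) ℂ)) (Q : MvPolynomial (Fin (N + 1)) ℂ)
    (p : Fin (N + 1) → Polynomial ℂ) : Prop where
  ne : ∀ t, t ≠ 0 → (fun j => (p j).eval t) ≠ 0
  off : ∀ t, t ≠ 0 → eval (fun j => (p j).eval t) Q ≠ 0
  on : ∀ G ∈ I, IsForm G → ∀ t, t ≠ 0 → eval (fun j => (p j).eval t) G = 0
  nonconst : ∃ t u j k, t ≠ 0 ∧ u ≠ 0 ∧ (p j).eval t * (p k).eval u ≠ (p k).eval t * (p j).eval u

theorem eval_aeval (p : Fin (N + 1) → Polynomial ℂ) (G : MvPolynomial (Fin (N + 1)) ℂ) (u : ℂ) :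
    (aeval p G : Polynomial ℂ).eval u = eval (fun j => (p j).eval u) G := by
  have e1 := MvPolynomial.comp_aeval_apply (f := p) (Polynomial.aeval u) G
  rw [Polynomial.coe_aeval_eq_eval] at e1
  rw [e1, MvPolynomial.aeval_eq_eval]

/-- reduction to coordinates without common zeros -/
theorem reduce {I : Ideal (MvPolynomial (Fin (N + 1)) ℂ)} {Q : MvPolynomial (Fin (N + 1)) ℂ} {q : ℕ}
    (hQ : Q.IsHomogeneous q) {p : Fin (N + 1) → Polynomial ℂ}
    (h1 : ∀ G ∈ I, IsForm G → aeval p G = 0)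
    (h2 : ∃ (c : ℂ) (k : ℕ), c ≠ 0 ∧ aeval p Q = Polynomial.C c * Polynomial.X ^ k)
    (h3 : ∃ j k, Polynomial.derivative (p j) * p k ≠ p j * Polynomial.derivative (p k)) :
    ∃ (g : Polynomial ℂ) (p' : Fin (N + 1) → Polynomial ℂ), (∀ j, p j = g * p' j) ∧
      GmC I Q p' := by
  classical
  obtain ⟨p', hp', hgcd⟩ := Finset.extract_gcd p (s := Finset.univ) Finset.univ_nonempty
  set g := Finset.univ.gcd p with hg
  have hpg : ∀ j, p j = g * p' j := fun j => hp' j (Finset.mem_univ j)
  have hpg' : p = fun j => g * p' j := funext hpg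
  have hg0 : g ≠ 0 := by
    intro h0
    obtain ⟨j, k, hjk⟩ := h3
    apply hjk
    rw [hpg j, hpg k, h0]
    simp
  have hscale : ∀ {G : MvPolynomial (Fin (N + 1)) ℂ} {d : ℕ}, G.IsHomogeneous d →
      aeval p G = g ^ d * aeval p' G := by
    intro G d hG
    rw [hpg']
    exact form_scale (A := Polynomial ℂ) hG g p'
  refine ⟨g, p', hpg, ⟨fun t _ h0 => ?_, fun t ht h0 => ?_, fun G hG hGf t _ => ?_, ?_⟩⟩
  · have h4 : (Polynomial.X - Polynomial.C t) ∣ Finset.univ.gcd p' := by
      apply Finset.dvd_gcd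
      intro j _
      rw [Polynomial.dvd_iff_isRoot]
      exact congrFun h0 j
    rw [hgcd] at h4
    have h5 := Polynomial.natDegree_eq_zero_of_isUnit (isUnit_of_dvd_one h4)
    rw [Polynomial.natDegree_X_sub_C] at h5
    exact one_ne_zero h5
  · obtain ⟨c, k, hc, hck⟩ := h2
    have h4 := congrArg (Polynomial.eval t) (hscale hQ)
    rw [hck, Polynomial.eval_mul, Polynomial.eval_mul, eval_aeval, h0, mul_zero,
      Polynomial.eval_C, Polynomial.eval_pow, Polynomial.eval_X] at h4
    exact mul_ne_zero hc (pow_ne_zero _ ht) h4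
  · obtain ⟨d, hd⟩ := hGf
    have h4 := hscale hd
    rw [h1 G hG ⟨d, hd⟩] at h4
    have h5 := (mul_eq_zero.1 h4.symm).resolve_left (pow_ne_zero _ hg0)
    rw [← eval_aeval, h5, Polynomial.eval_zero]
  · apply nonconst_of_wr'
    obtain ⟨j, k, hjk⟩ := h3
    refine ⟨j, k, fun h0 => hjk ?_⟩
    rw [hpg j, hpg k, Polynomial.derivative_mul, Polynomial.derivative_mul]
    linear_combination g ^ 2 * h0

/-- forms which vanish on the images of the multiplicative group vanish on families -/
theorem vanish_of_gm {I : Ideal (MvPolynomial (Fin (N + 1)) ℂ)}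
    {Q : MvPolynomial (Fin (N + 1)) ℂ} {q : ℕ} (hQ : Q.IsHomogeneous q)
    {G' : MvPolynomial (Fin (N + 1)) ℂ} (hG' : IsForm G')
    (hgm : ∀ p, GmC I Q p → ∀ t, t ≠ 0 → eval (fun j => (p j).eval t) G' = 0)
    (M : Type) [Field M] [Algebra ℂ M] (P : Fin (N + 1) → Polynomial M)
    (h1 : ∀ G ∈ I, IsForm G → aeval P G = 0)
    (h2 : ∃ (c : M) (k : ℕ), c ≠ 0 ∧ aeval P Q = Polynomial.C c * Polynomial.X ^ k)
    (h3 : ∃ j k, Polynomial.derivative (P j) * P k ≠ P j * Polynomial.derivative (P k)) :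
    aeval P G' = 0 := by
  refine Pool.Agent.Y356.IL.t_RCQ N I Q G' (fun p e1 e2 e3 => ?_) M P h1 h2 h3
  obtain ⟨g, p', hpg, hp'⟩ := reduce hQ e1 e2 e3
  obtain ⟨d, hd⟩ := hG'
  have hpg' : p = fun j => g * p' j := funext hpg
  have h4 : aeval p' G' = 0 := by
    apply poly_ne
    intro t ht
    rw [eval_aeval]
    exact hgm p' hp' t ht
  rw [hpg', form_scale (A := Polynomial ℂ) hd g p', h4, mul_zero]

/-- polynomials without nonzero roots -/
theorem monomial_of {P : Polynomial ℂ} (h : ∀ t, t ≠ 0 → P.eval t ≠ 0) :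
    ∃ (c : ℂ) (k : ℕ), c ≠ 0 ∧ P = Polynomial.C c * Polynomial.X ^ k := by
  have hP : P ≠ 0 := by
    intro h0
    exact h 1 one_ne_zero (by rw [h0, Polynomial.eval_zero])
  obtain ⟨R, hR, hR'⟩ := Polynomial.exists_eq_pow_rootMultiplicity_mul_and_not_dvd P hP 0
  rw [Polynomial.C_0, sub_zero] at hR hR'
  have h1 : R.degree = 0 := by
    by_contra hne
    obtain ⟨t, ht⟩ := IsAlgClosed.exists_root R hne
    by_cases ht0 : t = 0
    · apply hR'
      have h2 := Polynomial.dvd_iff_isRoot.2 ht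
      rwa [ht0, Polynomial.C_0, sub_zero] at h2
    · apply h t ht0
      rw [hR, Polynomial.eval_mul, ht, mul_zero]
  obtain ⟨c, hc⟩ := Polynomial.natDegree_eq_zero.1 (Polynomial.natDegree_eq_of_degree_eq_some
    (n := 0) h1)
  refine ⟨c, P.rootMultiplicity 0, ?_, ?_⟩
  · rintro rfl
    rw [Polynomial.C_0] at hc
    rw [← hc, Polynomial.degree_zero] at h1
    exact absurd h1 (by simp)
  · rw [hc, mul_comm]
    exact hR

/-- the entire functions -/
def Ent : Subalgebra ℂ (ℂ → ℂ) where
  carrier := {f | Differentiable ℂ f}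
  mul_mem' hf hg := hf.mul hg
  add_mem' hf hg := hf.add hg
  algebraMap_mem' c := differentiable_const c

theorem ent_shiftAlg : ShiftAlg Ent where
  diff _ h := h
  id := differentiable_id
  shift _ h := h.comp (differentiable_id.add_const 1)

variable {A : Subalgebra ℂ (ℂ → ℂ)}

/-- functions with constant coefficients linear difference equations: `P(e^z)` -/
theorem diffEq_exp (A : Subalgebra ℂ (ℂ → ℂ)) (P : Polynomial ℂ) :
    DiffEq A fun z => P.eval (Complex.exp z) := by
  classical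
  let S0 : Polynomial ℂ := ∏ m ∈ Finset.range (P.natDegree + 1),
    (Polynomial.X - Polynomial.C (Complex.exp m))
  have hmon : S0.Monic := Polynomial.monic_prod_of_monic _ _ fun m _ => Polynomial.monic_X_sub_C _
  refine ⟨S0.natDegree, 0, fun k _ => fun _ => S0.coeff k,
    fun k i => ⟨A.algebraMap_mem (S0.coeff k), fun _ => rfl⟩,
    ⟨S0.natDegree, le_rfl, 0, le_rfl, fun h0 => ?_⟩, fun z => ?_⟩
  · have h1 := congrFun h0 0
    change S0.coeff S0.natDegree = 0 at h1
    rw [hmon.coeff_natDegree] at h1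
    exact one_ne_zero h1
  · have h1 : ∀ k : ℕ, P.eval (Complex.exp (z + k)) = ∑ m ∈ Finset.range (P.natDegree + 1),
        P.coeff m * Complex.exp z ^ m * Complex.exp m ^ k := by
      intro k
      rw [Polynomial.eval_eq_sum_range]
      refine Finset.sum_congr rfl fun m _ => ?_
      rw [Complex.exp_add, mul_pow, ← Complex.exp_nat_mul (k : ℂ) m, ← Complex.exp_nat_mul (m : ℂ) k]
      rw [mul_comm (k : ℂ) (m : ℂ)]
      ring
    have h2 : ∀ k ∈ Finset.range (S0.natDegree + 1),
        (∑ i ∈ Finset.range (0 + 1), (fun _ : ℂ => S0.coeff k) z * z ^ i) *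
          P.eval (Complex.exp (z + k)) = ∑ m ∈ Finset.range (P.natDegree + 1),
          P.coeff m * Complex.exp z ^ m * (S0.coeff k * Complex.exp m ^ k) := by
      intro k _
      rw [zero_add, Finset.sum_range_one, pow_zero, mul_one, h1, Finset.mul_sum]
      refine Finset.sum_congr rfl fun m _ => ?_
      ring
    rw [Finset.sum_congr rfl h2, Finset.sum_comm]
    refine Finset.sum_eq_zero fun m hm => ?_
    rw [← Finset.mul_sum, ← Polynomial.eval_eq_sum_range]
    have h3 : S0.eval (Complex.exp m) = 0 := by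
      simp only [S0, Polynomial.eval_prod]
      rw [Finset.prod_eq_zero hm]
      simp
    rw [h3, mul_zero]

end Pool.Agent.N626
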