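import Mathlib

/-!
Invariant primes of a Noetherian ring with a surjective endomorphism.
-/

set_option autoImplicit false

namespace Pool.Agent.N626

theorem comap_pow {S : Type} [CommRing S] (σ : S →+* S) (I : Ideal S) (a b : ℕ) :
    (I.comap (σ ^ a)).comap (σ ^ b) = I.comap (σ ^ (a + b)) := by
  rw [Ideal.comap_comap, pow_add]
  rfl

/-- **An invariant prime below a prime.** -/
theorem exists_q {S ι : Type} [CommRing S] [IsNoetherianRing S] (σ : S →+* S)
    (hσ : Function.Surjective σ) (𝔓 : Ideal S) [h𝔓 : 𝔓.IsPrime] (f : ι → S)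
    (hf : ∀ j i, (σ ^ j) (f i) ∈ 𝔓) :
    ∃ (k : ℕ) (𝔮 : Ideal S), 0 < k ∧ 𝔮.IsPrime ∧ 𝔮 ≤ 𝔓 ∧ (∀ i, f i ∈ 𝔮) ∧
      𝔮.comap (σ ^ k) = 𝔮 := by
  classical
  have hs : ∀ n : ℕ, Function.Surjective (σ ^ n) := by
    intro n
    induction n with
    | zero => exact fun x => ⟨x, rfl⟩
    | succ n ih =>
      rw [pow_succ]
      exact ih.comp hσ
  let J : Ideal S := Ideal.span (Set.range fun p : ℕ × ι => (σ ^ p.1) (f p.2))
  have hJP : J ≤ 𝔓 := by
    rw [Ideal.span_le]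
    rintro _ ⟨p, rfl⟩
    exact hf p.1 p.2
  have hJ1 : J ≤ J.comap σ := by
    rw [Ideal.span_le]
    rintro _ ⟨p, rfl⟩
    refine Ideal.subset_span ⟨(p.1 + 1, p.2), ?_⟩
    change (σ ^ (p.1 + 1)) (f p.2) = σ ((σ ^ p.1) (f p.2))
    rw [pow_succ']
    rfl
  let a : ℕ →o Ideal S := ⟨fun n => J.comap (σ ^ n), monotone_nat_of_le_succ fun n => by
    have h1 := Ideal.comap_mono (f := σ ^ n) hJ1
    have h2 : (J.comap σ).comap (σ ^ n) = J.comap (σ ^ (n + 1)) := by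
      have h3 := comap_pow σ J 1 n
      rw [pow_one] at h3
      rw [h3, add_comm]
    rwa [h2] at h1⟩
  obtain ⟨n, hn⟩ := (monotone_stabilizes_iff_noetherian (R := S) (M := S)).2 inferInstance a
  have hJσ : J.comap σ = J := by
    have h1 : a n = a (n + 1) := hn (n + 1) (Nat.le_succ n)
    have h2 : (J.comap σ).comap (σ ^ n) = J.comap (σ ^ (n + 1)) := by
      have h3 := comap_pow σ J 1 n
      rw [pow_one] at h3
      rw [h3, add_comm]
    have h3 : (J.comap σ).comap (σ ^ n) = J.comap (σ ^ n) := h2.trans h1.symm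
    exact Ideal.comap_injective_of_surjective (σ ^ n) (hs n) h3
  have hJn : ∀ n, J.comap (σ ^ n) = J := by
    intro n
    induction n with
    | zero =>
      rw [pow_zero]
      exact Ideal.comap_id J
    | succ n ih =>
      have h3 := comap_pow σ J n 1
      rw [pow_one] at h3
      rw [← h3, ih, hJσ]
  obtain ⟨𝔮, hq, hqP⟩ := Ideal.exists_minimalPrimes_le hJP
  have hfin := Ideal.finite_minimalPrimes_of_isNoetherianRing S J
  have hmem : ∀ n : ℕ, 𝔮.comap (σ ^ n) ∈ J.minimalPrimes := by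
    intro n
    have h1 := Ideal.minimalPrimes_comap_of_surjective (hs n) hq
    rwa [hJn] at h1
  obtain ⟨x, -, y, -, hxy, hxy'⟩ := Set.infinite_univ.exists_ne_map_eq_of_mapsTo
    (s := (Set.univ : Set ℕ)) (f := fun n : ℕ => 𝔮.comap (σ ^ n)) (fun n _ => hmem n) hfin
  have key : ∀ x y : ℕ, x < y → 𝔮.comap (σ ^ x) = 𝔮.comap (σ ^ y) →
      𝔮.comap (σ ^ (y - x)) = 𝔮 := by
    intro x y hlt h
    apply Ideal.comap_injective_of_surjective (σ ^ x) (hs x)
    rw [comap_pow, h, Nat.sub_add_cancel hlt.le]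
  have hq0 : 𝔮.IsPrime := hq.1.1
  have hqf : ∀ i, f i ∈ 𝔮 := fun i => hq.1.2 (Ideal.subset_span ⟨(0, i), rfl⟩)
  rcases lt_or_gt_of_ne hxy with h | h
  · exact ⟨y - x, 𝔮, Nat.sub_pos_of_lt h, hq0, hqP, hqf, key x y h hxy'⟩
  · exact ⟨x - y, 𝔮, Nat.sub_pos_of_lt h, hq0, hqP, hqf, key y x h hxy'.symm⟩

end Pool.Agent.N626
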