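import Pool.Agent.N626.Dh
import Pool.Agent.N626.Hq

/-!
The difference ring of a system of linear difference equations, and its difference fields.
-/

set_option autoImplicit false

namespace Pool.Agent.N626

open MvPolynomial

/-- The fraction field of `D[X]`. -/
abbrev KK (D : Type) [CommRing D] : Type := FractionRing (Polynomial D)

/-- `X ↦ X + 1` on `D[X]` -/
noncomputable def shD (D : Type) [CommRing D] : Polynomial D ≃+* Polynomial D :=
  (Polynomial.algEquivAevalXAddC (1 : D)).toRingEquiv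

theorem shD_apply {D : Type} [CommRing D] (p : Polynomial D) :
    shD D p = p.comp (Polynomial.X + Polynomial.C 1) := by
  have h1 : shD D p = Polynomial.algEquivAevalXAddC (1 : D) p := rfl
  rw [h1, Polynomial.algEquivAevalXAddC_apply, Polynomial.comp_eq_aeval]

/-- `X ↦ X + 1` on the fraction field of `D[X]` -/
noncomputable def sg0 (D : Type) [CommRing D] [IsDomain D] : KK D ≃+* KK D :=
  IsFractionRing.ringEquivOfRingEquiv (shD D)

theorem sg0_alg {D : Type} [CommRing D] [IsDomain D] (p : Polynomial D) :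
    sg0 D (algebraMap (Polynomial D) (KK D) p) =
      algebraMap (Polynomial D) (KK D) (p.comp (Polynomial.X + Polynomial.C 1)) := by
  rw [← shD_apply]
  exact IsFractionRing.ringEquivOfRingEquiv_algebraMap (shD D) p

variable {D V : Type} [CommRing D] [IsDomain D] [Fintype V]

/-- linear forms -/
noncomputable def lin (c : V → KK D) : MvPolynomial V (KK D) := ∑ w, C (c w) * X w

/-- The endomorphism given by a system of linear difference equations. -/
noncomputable def sgS (a : Matrix V V (KK D)) :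
    MvPolynomial V (KK D) →+* MvPolynomial V (KK D) :=
  eval₂Hom (C.comp (sg0 D : KK D →+* KK D)) fun u => lin (a u)

theorem sgS_C (a : Matrix V V (KK D)) (c : KK D) : sgS a (C c) = C (sg0 D c) := by
  rw [sgS, coe_eval₂Hom, eval₂_C]
  rfl

theorem sgS_X (a : Matrix V V (KK D)) (u : V) : sgS a (X u) = lin (a u) := by
  rw [sgS, coe_eval₂Hom, eval₂_X]

theorem sgS_lin (a : Matrix V V (KK D)) (c : V → KK D) :
    sgS a (lin c) = lin fun w => ∑ u, sg0 D (c u) * a u w := by
  rw [lin, map_sum]
  have h1 : ∀ u, sgS a (C (c u) * X u) = ∑ w, C (sg0 D (c u) * a u w) * X w := by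
    intro u
    rw [map_mul, sgS_C, sgS_X, lin, Finset.mul_sum]
    refine Finset.sum_congr rfl fun w _ => ?_
    rw [C_mul]
    ring
  rw [Finset.sum_congr rfl fun u _ => h1 u, Finset.sum_comm, lin]
  refine Finset.sum_congr rfl fun w _ => ?_
  rw [← Finset.sum_mul, ← map_sum]

theorem sgS_surj [DecidableEq V] (a : Matrix V V (KK D)) (ha : a.det ≠ 0) :
    Function.Surjective (sgS a) := by
  have hC : ∀ c : KK D, ∃ s, sgS a s = C c := fun c =>
    ⟨C ((sg0 D).symm c), by rw [sgS_C, RingEquiv.apply_symm_apply]⟩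
  have hX : ∀ w, ∃ s, sgS a s = X w := by
    intro w
    refine ⟨lin fun u => (sg0 D).symm (a⁻¹ w u), ?_⟩
    rw [sgS_lin]
    simp only [RingEquiv.apply_symm_apply]
    have h1 : (fun w' => ∑ u, a⁻¹ w u * a u w') = fun w' => (1 : Matrix V V (KK D)) w w' := by
      funext w'
      rw [← Matrix.nonsing_inv_mul a (isUnit_iff_ne_zero.2 ha), Matrix.mul_apply]
    rw [h1, lin]
    rw [Finset.sum_eq_single w]
    · rw [Matrix.one_apply_eq, C_1, one_mul]
    · intro b _ hb
      rw [Matrix.one_apply_ne hb.symm, C_0, zero_mul]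
    · intro h
      exact absurd (Finset.mem_univ w) h
  intro s
  induction s using MvPolynomial.induction_on with
  | C c => exact hC c
  | add p q hp hq =>
    obtain ⟨s, hs⟩ := hp
    obtain ⟨t, ht⟩ := hq
    exact ⟨s + t, by rw [map_add, hs, ht]⟩
  | mul_X p w hp =>
    obtain ⟨s, hs⟩ := hp
    obtain ⟨t, ht⟩ := hX w
    exact ⟨s * t, by rw [map_mul, hs, ht]⟩

/-- linear relations with polynomial coefficients -/
theorem lin_dep (c : ℕ → V → KK D) : ∃ p : ℕ → Polynomial D,
    (∃ j ≤ Fintype.card V, p j ≠ 0) ∧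
    ∑ j ∈ Finset.range (Fintype.card V + 1), C (algebraMap (Polynomial D) (KK D) (p j)) *
      lin (c j) = 0 := by
  classical
  have h1 : ¬ LinearIndependent (KK D) (fun j : Fin (Fintype.card V + 1) => c j) := by
    intro h
    have h2 := h.fintype_card_le_finrank
    rw [Fintype.card_fin, Module.finrank_fintype_fun_eq_card] at h2
    omega
  rw [Fintype.not_linearIndependent_iff] at h1
  obtain ⟨g, hg, j0, hj0⟩ := h1
  obtain ⟨b, hb⟩ := IsLocalization.exist_integer_multiples
    (nonZeroDivisors (Polynomial D)) (Finset.univ : Finset (Fin (Fintype.card V + 1))) g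
  choose q hq using fun j => hb j (Finset.mem_univ j)
  have hb0 : algebraMap (Polynomial D) (KK D) b ≠ 0 := by
    rw [Ne, map_eq_zero_iff _ (IsFractionRing.injective (Polynomial D) (KK D))]
    exact nonZeroDivisors.ne_zero b.2
  have hq' : ∀ j, algebraMap (Polynomial D) (KK D) (q j) =
      algebraMap (Polynomial D) (KK D) b * g j := by
    intro j
    rw [hq j, Algebra.smul_def]
  refine ⟨fun j => if h : j < Fintype.card V + 1 then q ⟨j, h⟩ else 0,
    ⟨j0, Nat.lt_succ_iff.1 j0.2, ?_⟩, ?_⟩
  · intro h0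
    have h2 := hq' j0
    have h3 : q j0 = 0 := by
      have h4 : (if h : (j0 : ℕ) < Fintype.card V + 1 then q ⟨j0, h⟩ else 0) = 0 := h0
      rw [dif_pos j0.2] at h4
      exact h4
    rw [h3, map_zero] at h2
    exact mul_ne_zero hb0 hj0 h2.symm
  · have h2 : ∀ j : Fin (Fintype.card V + 1),
        C (algebraMap (Polynomial D) (KK D) (if h : (j : ℕ) < Fintype.card V + 1 then
          q ⟨j, h⟩ else 0)) * lin (c j) =
        ∑ w, C (algebraMap (Polynomial D) (KK D) b * (g j * c j w)) * X w := by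
      intro j
      rw [dif_pos j.2, lin, Finset.mul_sum]
      refine Finset.sum_congr rfl fun w _ => ?_
      have h3 : q ⟨j, j.2⟩ = q j := rfl
      rw [h3, hq', ← mul_assoc, ← C_mul]
      congr 2
      ring
    rw [← Fin.sum_univ_eq_sum_range (fun j : ℕ =>
      C (algebraMap (Polynomial D) (KK D) (if h : (j : ℕ) < Fintype.card V + 1 then
          q ⟨j, h⟩ else 0)) * lin (c j))]
    rw [Finset.sum_congr rfl fun j _ => h2 j, Finset.sum_comm]
    refine Finset.sum_eq_zero fun w _ => ?_
    rw [← Finset.sum_mul, ← map_sum, ← Finset.mul_sum]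
    have h3 := congrFun hg w
    rw [Finset.sum_apply] at h3
    simp only [Pi.smul_apply, smul_eq_mul] at h3
    rw [h3, Pi.zero_apply, mul_zero, C_0, zero_mul]

theorem pow_lin (a : Matrix V V (KK D)) (c : V → KK D) (m : ℕ) :
    ∃ c', (sgS a ^ m) (lin c) = lin c' := by
  induction m with
  | zero => exact ⟨c, rfl⟩
  | succ m ih =>
    obtain ⟨c', h⟩ := ih
    refine ⟨fun w => ∑ u, sg0 D (c' u) * a u w, ?_⟩
    rw [pow_succ', RingHom.mul_def, RingHom.comp_apply, h, sgS_lin]

omit [IsDomain D] in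
theorem lin_X [DecidableEq V] (w : V) : (X w : MvPolynomial V (KK D)) = lin (Pi.single w 1) := by
  rw [lin, Finset.sum_eq_single w]
  · rw [Pi.single_eq_same, C_1, one_mul]
  · intro b _ hb
    rw [Pi.single_eq_of_ne hb, C_0, zero_mul]
  · intro h
    exact absurd (Finset.mem_univ w) h

/-- the field of an invariant prime -/
theorem exists_field {S : Type} [CommRing S] (σ : S →+* S) (𝔮 : Ideal S) [h𝔮 : 𝔮.IsPrime]
    (h : 𝔮.comap σ = 𝔮) :
    ∃ (F : Type) (_ : Field F) (e : S →+* F) (τ : F →+* F), (∀ s, e s = 0 ↔ s ∈ 𝔮) ∧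
      (∀ s, τ (e s) = e (σ s)) ∧ Cardinal.mk F ≤ Cardinal.mk S := by
  have h1 : Function.Injective (Ideal.quotientMap 𝔮 σ h.ge) :=
    Ideal.quotientMap_injective' h.le
  refine ⟨FractionRing (S ⧸ 𝔮), inferInstance,
    (algebraMap (S ⧸ 𝔮) (FractionRing (S ⧸ 𝔮))).comp (Ideal.Quotient.mk 𝔮),
    IsFractionRing.map (K := FractionRing (S ⧸ 𝔮)) (L := FractionRing (S ⧸ 𝔮)) h1,
    fun s => ?_, fun s => ?_, ?_⟩
  · rw [RingHom.comp_apply, map_eq_zero_iff _ (IsFractionRing.injective (S ⧸ 𝔮) _),
      Ideal.Quotient.eq_zero_iff_mem]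
  · rw [RingHom.comp_apply, RingHom.comp_apply]
    unfold IsFractionRing.map
    rw [IsLocalization.map_eq, Ideal.quotientMap_mk]
  · rw [Cardinal.mk_fractionRing]
    exact Cardinal.mk_quotient_le

end Pool.Agent.N626
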