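import Pool.Agent.N626.Hs

/-!
The algebraic dichotomy for primes which contain all the shifts of forms.
-/

set_option autoImplicit false

namespace Pool.Agent.N626

open MvPolynomial

variable {D V : Type} [CommRing D] [IsDomain D] [Fintype V]

theorem pow_C (a : Matrix V V (KK D)) (p : Polynomial D) (j : ℕ) :
    (sgS a ^ j) (C (algebraMap (Polynomial D) (KK D) p)) =
      C (algebraMap (Polynomial D) (KK D) (p.comp (Polynomial.X + Polynomial.C (j : D)))) := by
  induction j with
  | zero =>
    rw [Nat.cast_zero, Polynomial.C_0, add_zero, Polynomial.comp_X]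
    rfl
  | succ j ih =>
    rw [pow_succ', RingHom.mul_def, RingHom.comp_apply, ih, sgS_C, sg0_alg, Polynomial.comp_assoc]
    congr 3
    simp only [Polynomial.add_comp, Polynomial.X_comp, Polynomial.C_comp]
    rw [Nat.cast_succ, Polynomial.C_add]
    ring

/-- the constants -/
noncomputable def cst (D V : Type) [CommRing D] : D →+* MvPolynomial V (KK D) :=
  C.comp ((algebraMap (Polynomial D) (KK D)).comp Polynomial.C)

omit [IsDomain D] in
theorem card_S [Countable D] : Cardinal.mk (MvPolynomial V (KK D)) ≤ Cardinal.aleph0 := by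
  have h1 : Cardinal.mk (KK D) ≤ Cardinal.aleph0 := by
    rw [Cardinal.mk_fractionRing]
    refine Polynomial.cardinalMk_le_max.trans (max_le ?_ le_rfl)
    exact Cardinal.mk_le_aleph0
  refine MvPolynomial.cardinalMk_le_max.trans (max_le (max_le h1 ?_) le_rfl)
  exact Cardinal.mk_le_aleph0

/-- **The algebraic dichotomy.** -/
theorem alg_dich [CharZero D] [Countable D] [DecidableEq V] {ι : Type} {n : ℕ}
    (π : Fin (n + 1) → V) (a : Matrix V V (KK D)) (ha : a.det ≠ 0)
    (𝔓 : Ideal (MvPolynomial V (KK D))) [h𝔓 : 𝔓.IsPrime] (f : ι → MvPolynomial (Fin (n + 1)) D)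
    (hf : ∀ j i, (sgS a ^ j) (eval₂ (cst D V) (fun l => X (π l)) (f i)) ∈ 𝔓) :
    (∀ l, X (π l) ∈ 𝔓) ∨
    (∃ (M : Type) (_ : Field M) (j : D →+* M) (W : Fin (n + 1) → Polynomial M),
      (∀ G : MvPolynomial (Fin (n + 1)) D, (∃ e, G.IsHomogeneous e) →
        eval₂ (Polynomial.C.comp j) W G = 0 → eval₂ (cst D V) (fun l => X (π l)) G ∈ 𝔓) ∧
      (∀ i, (∃ e, (f i).IsHomogeneous e) → eval₂ (Polynomial.C.comp j) W (f i) = 0) ∧
      ∃ u v, Polynomial.derivative (W u) * W v ≠ W u * Polynomial.derivative (W v)) ∨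
    ∃ k : ℕ, 0 < k ∧ ∀ s i l, (sgS a ^ (k * s)) (X (π i)) * X (π l) -
      X (π i) * (sgS a ^ (k * s)) (X (π l)) ∈ 𝔓 := by
  classical
  obtain ⟨k, 𝔮, hk, hq, hqP, hfq, hinv⟩ := exists_q (sgS a) (sgS_surj a ha) 𝔓
    (fun i => eval₂ (cst D V) (fun l => X (π l)) (f i)) hf
  obtain ⟨F, iF, e, τ, he, hτ, hcard⟩ := exists_field (sgS a ^ k) 𝔮 hinv
  have halg : Function.Injective (algebraMap (Polynomial D) (KK D)) :=
    IsFractionRing.injective (Polynomial D) (KK D)
  let ιp : Polynomial D →+* F := e.comp (C.comp (algebraMap (Polynomial D) (KK D)))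
  have hιp : Function.Injective ιp := (e.comp C).injective.comp halg
  have hcz : CharZero F := charZero_of_injective_ringHom (f := ιp.comp Polynomial.C)
    (hιp.comp Polynomial.C_injective)
  have hτp : ∀ p, τ (ιp p) = ιp (p.comp (Polynomial.X + Polynomial.C (k : D))) := by
    intro p
    change τ (e (C (algebraMap _ _ p))) = _
    rw [hτ, pow_C]
    rfl
  have hτc : ∀ c, τ (ιp (Polynomial.C c)) = ιp (Polynomial.C c) := by
    intro c
    rw [hτp, Polynomial.C_comp]
  have hk0 : (k : F) ≠ 0 := by exact_mod_cast hk.ne'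
  let Z : F := ιp Polynomial.X / k
  have hkZ : (k : F) * Z = ιp Polynomial.X := by
    simp only [Z]
    rw [mul_div_cancel₀ _ hk0]
  have hZ : τ Z = Z + 1 := by
    simp only [Z]
    rw [map_div₀, hτp, Polynomial.X_comp, map_add, map_natCast, map_natCast, map_natCast,
      add_div, div_self hk0]
  have hτj : ∀ (j : ℕ) s, (τ ^ j) (e s) = e (((sgS a ^ k) ^ j) s) := by
    intro j s
    induction j with
    | zero => rfl
    | succ j ih => rw [pow_succ', pow_succ', RingHom.mul_def, RingHom.comp_apply, ih, hτ]; rfl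
  have hlin : ∀ w, LinD τ Z (e (X w)) := by
    intro w
    have h1 : ∀ j : ℕ, ∃ c, ((sgS a ^ k) ^ j) (X w) = lin c := by
      intro j
      rw [lin_X, ← pow_mul]
      exact pow_lin _ _ _
    choose c hc using h1
    obtain ⟨p, ⟨j0, hj0, hp0⟩, hp⟩ := lin_dep c
    have hev : ∀ q : Polynomial D, ((q.map (ιp.comp Polynomial.C)).comp
        (Polynomial.C (k : F) * Polynomial.X)).eval Z = ιp q := by
      intro q
      rw [Polynomial.eval_comp, Polynomial.eval_mul, Polynomial.eval_C, Polynomial.eval_X, hkZ,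
        Polynomial.eval_map]
      have h2 : Polynomial.eval₂RingHom (ιp.comp Polynomial.C) (ιp Polynomial.X) = ιp :=
        Polynomial.ringHom_ext (fun c => by simp) (by simp)
      exact congrArg (fun g : Polynomial D →+* F => g q) h2
    refine ⟨Fintype.card V, fun j => ((p j).map (ιp.comp Polynomial.C)).comp
      (Polynomial.C (k : F) * Polynomial.X), fun j => ?_, ⟨j0, hj0, fun h0 => ?_⟩, ?_⟩
    · have h2 : τ.comp (ιp.comp Polynomial.C) = ιp.comp Polynomial.C := RingHom.ext fun c => hτc c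
      rw [Polynomial.map_comp, Polynomial.map_map, h2, Polynomial.map_mul, Polynomial.map_X,
        Polynomial.map_C, map_natCast]
    · have h2 := hev (p j0)
      beta_reduce at h0
      rw [h0, Polynomial.eval_zero] at h2
      exact hp0 (hιp (h2.symm.trans (map_zero ιp).symm))
    · have h2 := congrArg e hp
      rw [map_sum, map_zero] at h2
      rw [← h2]
      refine Finset.sum_congr rfl fun j _ => ?_
      rw [hev, hτj, hc, map_mul]
      rfl
  by_cases hx0 : (fun l => e (X (π l))) = 0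
  · left
    intro l
    have h1 : e (X (π l)) = 0 := congrFun hx0 l
    exact hqP ((he _).1 h1)
  right
  let κ : Subfield F := RingHom.eqLocusField τ (RingHom.id F)
  have hκ : ∀ c : κ, τ (algebraMap κ F c) = algebraMap κ F c := fun c => c.2
  let jD : D →+* κ := (ιp.comp Polynomial.C).codRestrict κ (fun c => hτc c)
  have hjD : (algebraMap κ F).comp jD = e.comp (cst D V) := RingHom.ext fun c => rfl
  have hae : ∀ G : MvPolynomial (Fin (n + 1)) D, aeval (fun l => e (X (π l))) (map jD G) =
      e (eval₂ (cst D V) (fun l => X (π l)) G) := by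
    intro G
    rw [aeval_def, eval₂_map, hjD, hom_eval₂]
  rcases dichotomy (κ := κ) (hcard.trans (card_S.trans Cardinal.aleph0_le_continuum)) hκ hZ
    (fun l => hlin (π l)) hx0 with ⟨M, iM, aM, W, hW, hd⟩ | ⟨k', hk', hper⟩
  · left
    refine ⟨M, iM, (algebraMap κ M).comp jD, W, fun G hG h0 => ?_, fun i hi => ?_, hd⟩
    · obtain ⟨d, hGd⟩ := hG
      apply hqP
      rw [← he, ← hae, ← hW _ ⟨d, hGd.map jD⟩, aeval_def, eval₂_map]
      exact h0
    · obtain ⟨d, hGd⟩ := hi
      have h1 := (hW _ ⟨d, hGd.map jD⟩).2 (by rw [hae, he]; exact hfq i)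
      rw [aeval_def, eval₂_map] at h1
      exact h1
  · right
    obtain ⟨l0, hl0⟩ := Function.ne_iff.1 hx0
    have hl0' : e (X (π l0)) ≠ 0 := hl0
    have h1 : ∀ s : ℕ, ∃ c : F, ∀ i, (τ ^ (k' * s)) (e (X (π i))) = c * e (X (π i)) := by
      intro s
      induction s with
      | zero => exact ⟨1, fun i => by rw [mul_zero, one_mul]; rfl⟩
      | succ s ih =>
        obtain ⟨c, hc⟩ := ih
        refine ⟨(τ ^ k') c * ((τ ^ k') (e (X (π l0))) / e (X (π l0))), fun i => ?_⟩
        have h2 := hper i l0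
        rw [mul_add, mul_one, add_comm, pow_add, RingHom.mul_def, RingHom.comp_apply, hc, map_mul]
        field_simp
        linear_combination (τ ^ k') c * h2
    refine ⟨k * k', Nat.mul_pos hk hk', fun s i l => hqP ?_⟩
    obtain ⟨c, hc⟩ := h1 s
    rw [← he, map_sub, map_mul, map_mul, mul_assoc, pow_mul, ← hτj, ← hτj, hc, hc]
    ring

end Pool.Agent.N626
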