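import Pool.Agent.N626.Hs

/-!
Primes of the ring of relations, and the recursion for the shifts.
-/

set_option autoImplicit false

namespace Pool.Agent.N626

open MvPolynomial

theorem exists_mu {R : Type} [CommRing R] (𝔭 : Ideal R) [h𝔭 : 𝔭.IsPrime] :
    ∃ (L : Type) (_ : Field L) (μ : R →+* L), ∀ g, μ g = 0 ↔ g ∈ 𝔭 := by
  refine ⟨FractionRing (R ⧸ 𝔭), inferInstance,
    (algebraMap (R ⧸ 𝔭) (FractionRing (R ⧸ 𝔭))).comp (Ideal.Quotient.mk 𝔭), fun g => ?_⟩
  rw [RingHom.comp_apply, map_eq_zero_iff _ (IsFractionRing.injective _ _),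
      Ideal.Quotient.eq_zero_iff_mem]

/-- **Passing to the fraction field of the polynomials in the index.** -/
theorem loc_prime {R0 D V : Type} [CommRing R0] [CommRing D] [IsDomain D]
    (q : R0 →+* D) (hq : Function.Surjective q)
    (𝔭 : Ideal (MvPolynomial V (Polynomial R0))) [h𝔭 : 𝔭.IsPrime]
    (hq0 : ∀ c, q c = 0 ↔ C (Polynomial.C c) ∈ 𝔭)
    (hco : ∀ h : Polynomial R0, C h ∈ 𝔭 → ∀ j, C (Polynomial.C (h.coeff j)) ∈ 𝔭) :
    ∃ 𝔓 : Ideal (MvPolynomial V (KK D)), 𝔓.IsPrime ∧
      ∀ g, map ((algebraMap (Polynomial D) (KK D)).comp (Polynomial.mapRingHom q)) g ∈ 𝔓 ↔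
        g ∈ 𝔭 := by
  classical
  obtain ⟨L1, iL, μ, hμ⟩ := exists_mu 𝔭
  let mq : Polynomial R0 →+* Polynomial D := Polynomial.mapRingHom q
  have hmq : Function.Surjective mq := Polynomial.map_surjective q hq
  have hker : ∀ h, mq h = 0 ↔ μ (C h) = 0 := by
    intro h
    rw [hμ]
    constructor
    · intro h0
      rw [h.as_sum_range_C_mul_X_pow, map_sum]
      refine Ideal.sum_mem _ fun j _ => ?_
      rw [C_mul]
      refine Ideal.mul_mem_right _ _ ((hq0 _).1 ?_)
      have h1 := congrArg (fun p => Polynomial.coeff p j) h0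
      simpa only [mq, Polynomial.coe_mapRingHom, Polynomial.coeff_map,
        Polynomial.coeff_zero] using h1
    · intro h0
      ext j
      have h1 := (hq0 _).2 (hco h h0 j)
      simpa only [mq, Polynomial.coe_mapRingHom, Polynomial.coeff_map,
        Polynomial.coeff_zero] using h1
  let δ : Polynomial D →+* L1 := mq.liftOfSurjective hmq ⟨μ.comp C, fun h h0 => by
    rw [RingHom.mem_ker] at h0 ⊢
    exact (hker h).1 h0⟩
  have hδ : ∀ h, δ (mq h) = μ (C h) := fun h =>
    RingHom.liftOfRightInverse_comp_apply mq _ _ ⟨μ.comp C, _⟩ h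
  have hδi : Function.Injective δ := by
    rw [injective_iff_map_eq_zero]
    intro p hp
    obtain ⟨h, rfl⟩ := hmq p
    rw [hδ] at hp
    exact (hker h).2 hp
  let δ' : KK D →+* L1 := IsFractionRing.lift hδi
  have hδ' : ∀ p, δ' (algebraMap (Polynomial D) (KK D) p) = δ p := fun p =>
    IsFractionRing.lift_algebraMap hδi p
  let ν : MvPolynomial V (KK D) →+* L1 := eval₂Hom δ' (fun v => μ (X v))
  have hν : ∀ g, ν (map ((algebraMap (Polynomial D) (KK D)).comp mq) g) = μ g := by
    intro g
    simp only [ν, coe_eval₂Hom]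
    rw [eval₂_map]
    have h1 : eval₂Hom (δ'.comp ((algebraMap (Polynomial D) (KK D)).comp mq))
        (fun v => μ (X v)) = μ := by
      apply MvPolynomial.ringHom_ext
      · intro p
        rw [coe_eval₂Hom, eval₂_C, RingHom.comp_apply, RingHom.comp_apply, hδ', hδ]
      · intro v
        rw [coe_eval₂Hom, eval₂_X]
    exact congrArg (fun φ : MvPolynomial V (Polynomial R0) →+* L1 => φ g) h1
  refine ⟨RingHom.ker ν, RingHom.ker_isPrime ν, fun g => ?_⟩
  rw [RingHom.mem_ker, ← hμ, ← hν g]

variable {R0 V : Type} [CommRing R0] [Fintype V]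

/-- the denominators of the shifts -/
noncomputable def DD (B : Polynomial R0) : ℕ → Polynomial R0
  | 0 => 1
  | j + 1 => B.comp (Polynomial.X + Polynomial.C (j : R0)) * DD B j

/-- the numerators of the shifts -/
noncomputable def NN [DecidableEq V] (A : Matrix V V (Polynomial R0)) : ℕ → V → V → Polynomial R0
  | 0 => fun u w => if u = w then 1 else 0
  | j + 1 => fun u w => ∑ u', (A u u').comp (Polynomial.X + Polynomial.C (j : R0)) * NN A j u' w

theorem dn_rec [DecidableEq V] {E : Type} [CommRing E] (A : Matrix V V (Polynomial R0))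
    (B : Polynomial R0) (τ : ℕ → Polynomial R0 →+* E)
    (hτ : ∀ j p, τ j p = τ 0 (p.comp (Polynomial.X + Polynomial.C (j : R0))))
    (x : ℕ → V → E) (hx : ∀ j u, τ j B * x (j + 1) u = ∑ w, τ j (A u w) * x j w) (j : ℕ) (u : V) :
    τ 0 (DD B j) * x j u = ∑ w, τ 0 (NN A j u w) * x 0 w := by
  induction j generalizing u with
  | zero =>
    simp only [DD, NN, map_one, one_mul]
    rw [Finset.sum_eq_single u]
    · rw [if_pos rfl, map_one, one_mul]
    · intro b _ hb
      rw [if_neg (Ne.symm hb), map_zero, zero_mul]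
    · intro h
      exact absurd (Finset.mem_univ u) h
  | succ j ih =>
    have h1 := hx j u
    simp only [DD, NN, map_mul, map_sum]
    rw [← hτ]
    have h2 : τ j B * τ 0 (DD B j) * x (j + 1) u =
        ∑ u', τ j (A u u') * (τ 0 (DD B j) * x j u') := by
      rw [mul_right_comm, h1, Finset.sum_mul]
      refine Finset.sum_congr rfl fun u' _ => ?_
      ring
    rw [h2]
    simp only [ih, Finset.sum_mul, Finset.mul_sum, ← hτ]
    rw [Finset.sum_comm]
    refine Finset.sum_congr rfl fun w _ => Finset.sum_congr rfl fun u' _ => ?_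
    ring

end Pool.Agent.N626
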