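import Pool.Agent.N626.Hu
import Pool.Agent.R393.UH.Pts

/-!
The Noetherian induction for families of solutions of linear difference equations.
-/

set_option autoImplicit false

namespace Pool.Agent.N626

open MvPolynomial Pool.Agent.R393.UH

theorem root_count {K : Type} [Field K] [CharZero K] {p : Polynomial K} (hp : p ≠ 0)
    (E : Finset ℕ) (h : ∀ m ∈ E, p.eval (m : K) = 0) : E.card ≤ p.natDegree := by
  have h1 : (E.map ⟨fun m : ℕ => (m : K), Nat.cast_injective⟩).card ≤ p.natDegree := by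
    apply Polynomial.card_le_degree_of_subset_roots
    intro x hx
    rw [Finset.mem_val, Finset.mem_map] at hx
    obtain ⟨m, hm, rfl⟩ := hx
    rw [Polynomial.mem_roots hp]
    exact h m hm
  rwa [Finset.card_map] at h1

variable {R0 V ι : Type} [CommRing R0] [Fintype V] [DecidableEq V] {n : ℕ}

/-- evaluation at an index -/
noncomputable def evm {K : Type} [Field K] (ψ : R0 →+* K) (a : K) : Polynomial R0 →+* K :=
  Polynomial.eval₂RingHom ψ a

/-- the evaluation of relations at an index and at a vector -/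
noncomputable def phi {K : Type} [Field K] (ψ : R0 →+* K) (a : K) (y : V → K) :
    MvPolynomial V (Polynomial R0) →+* K := eval₂Hom (evm ψ a) y

/-- Solutions over a field `K` of the system with the matrices `A` and `B`, with all points
on the variety given by `𝔽`. -/
structure Sol (𝔽 : ι → MvPolynomial (Fin (n + 1)) R0) (π : Fin (n + 1) → V)
    (A : Matrix V V (Polynomial R0)) (B : Polynomial R0) {K : Type} [Field K] (ψ : R0 →+* K)
    (v : ℕ → V → K) : Prop where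
  hB : B.map ψ ≠ 0
  hA : A.det.map ψ ≠ 0
  hr : ∀ (m : ℕ) u, evm ψ (m : K) B * v (m + 1) u = ∑ w, evm ψ (m : K) (A u w) * v m w
  hv : ∀ (m : ℕ) i, eval₂ ψ (fun l => v m (π l)) (𝔽 i) = 0

/-- bounded exceptional sets for the points which satisfy the relations in an ideal -/
def Bd (𝔽 : ι → MvPolynomial (Fin (n + 1)) R0) (π : Fin (n + 1) → V)
    (A : Matrix V V (Polynomial R0)) (B : Polynomial R0)
    (𝔞 : Ideal (MvPolynomial V (Polynomial R0))) : Prop :=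
  ∃ T : ℕ, ∀ (K : Type) [Field K] [CharZero K] (ψ : R0 →+* K) (v : ℕ → V → K),
    Sol 𝔽 π A B ψ v →
      ({P | ∃ (m : ℕ) (h0 : (fun l => v m (π l)) ≠ 0), ((∀ g ∈ 𝔞, phi ψ (m : K) (v m) g = 0) ∧
        ¬ OnRatE T (fun i => map ψ (𝔽 i)) (fun l => v m (π l))) ∧
        P = Projectivization.mk K (fun l => v m (π l)) h0} :
        Set (Projectivization K (Fin (n + 1) → K))).encard ≤ T

omit [Fintype V] [DecidableEq V] in
theorem onRatE_mono {K : Type} [Field K] {D D' : ℕ} (h : D ≤ D')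
    {F : ι → MvPolynomial (Fin (n + 1)) K} {x : Fin (n + 1) → K} (hx : OnRatE D F x) :
    OnRatE D' F x := by
  obtain ⟨M, i1, i2, p, h1, h2⟩ := hx
  exact ⟨M, i1, i2, p, fun i => (h1 i).trans h, h2⟩

variable {𝔽 : ι → MvPolynomial (Fin (n + 1)) R0} {π : Fin (n + 1) → V}
    {A : Matrix V V (Polynomial R0)} {B : Polynomial R0}

theorem Bd.cover {𝔞 𝔟 𝔠 : Ideal (MvPolynomial V (Polynomial R0))} (h𝔟 : Bd 𝔽 π A B 𝔟)
    (h𝔠 : Bd 𝔽 π A B 𝔠) (N : ℕ)
    (hc : ∀ (K : Type) [Field K] [CharZero K] (ψ : R0 →+* K) (v : ℕ → V → K), Sol 𝔽 π A B ψ v →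
      ∃ E : Finset ℕ, E.card ≤ N ∧ ∀ m ∉ E, (∀ g ∈ 𝔞, phi ψ (m : K) (v m) g = 0) →
        (∀ g ∈ 𝔟, phi ψ (m : K) (v m) g = 0) ∨ (∀ g ∈ 𝔠, phi ψ (m : K) (v m) g = 0)) :
    Bd 𝔽 π A B 𝔞 := by
  classical
  obtain ⟨T1, hT1⟩ := h𝔟
  obtain ⟨T2, hT2⟩ := h𝔠
  refine ⟨N + (T1 + T2), fun K _ _ ψ v hv => ?_⟩
  obtain ⟨E, hE, hcov⟩ := hc K ψ v hv
  have h1 := hT1 K ψ v hv
  have h2 := hT2 K ψ v hv
  have h3 : ({P | ∃ m ∈ E, ∃ h0 : (fun l => v m (π l)) ≠ 0,
      P = Projectivization.mk K (fun l => v m (π l)) h0} :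
      Set (Projectivization K (Fin (n + 1) → K))).encard ≤ N := by
    have h4 : ∀ P ∈ ({P | ∃ m ∈ E, ∃ h0 : (fun l => v m (π l)) ≠ 0,
      P = Projectivization.mk K (fun l => v m (π l)) h0} :
      Set (Projectivization K (Fin (n + 1) → K))), ∃ m : ℕ, m ∈ E ∧
        ∃ h0 : (fun l => v m (π l)) ≠ 0, P = Projectivization.mk K (fun l => v m (π l)) h0 :=
      fun P hP => hP
    choose! f hf using h4
    have h5 : Set.encard ({P | ∃ m ∈ E, ∃ h0 : (fun l => v m (π l)) ≠ 0,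
      P = Projectivization.mk K (fun l => v m (π l)) h0} :
      Set (Projectivization K (Fin (n + 1) → K))) ≤ (E : Set ℕ).encard := by
      apply Set.encard_le_encard_of_injOn (f := f)
      · intro P hP
        exact (hf P hP).1
      · intro P hP Q hQ hPQ
        obtain ⟨h0, e1⟩ := (hf P hP).2
        obtain ⟨h0', e2⟩ := (hf Q hQ).2
        rw [e1, e2]
        simp only [hPQ]
    refine h5.trans ?_
    rw [Set.encard_coe_eq_coe_finsetCard]
    exact_mod_cast hE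
  have h6 : ({P | ∃ (m : ℕ) (h0 : (fun l => v m (π l)) ≠ 0),
      ((∀ g ∈ 𝔞, phi ψ (m : K) (v m) g = 0) ∧
        ¬ OnRatE (N + (T1 + T2)) (fun i => map ψ (𝔽 i)) (fun l => v m (π l))) ∧
        P = Projectivization.mk K (fun l => v m (π l)) h0} :
        Set (Projectivization K (Fin (n + 1) → K))) ⊆
      ({P | ∃ m ∈ E, ∃ h0 : (fun l => v m (π l)) ≠ 0,
      P = Projectivization.mk K (fun l => v m (π l)) h0} :
      Set (Projectivization K (Fin (n + 1) → K))) ∪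
      ({P | ∃ (m : ℕ) (h0 : (fun l => v m (π l)) ≠ 0),
        ((∀ g ∈ 𝔟, phi ψ (m : K) (v m) g = 0) ∧
        ¬ OnRatE T1 (fun i => map ψ (𝔽 i)) (fun l => v m (π l))) ∧
        P = Projectivization.mk K (fun l => v m (π l)) h0} ∪
      {P | ∃ (m : ℕ) (h0 : (fun l => v m (π l)) ≠ 0),
        ((∀ g ∈ 𝔠, phi ψ (m : K) (v m) g = 0) ∧
        ¬ OnRatE T2 (fun i => map ψ (𝔽 i)) (fun l => v m (π l))) ∧
        P = Projectivization.mk K (fun l => v m (π l)) h0}) := by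
    rintro P ⟨m, h0, ⟨hm1, hm2⟩, hP⟩
    by_cases hmE : m ∈ E
    · exact Or.inl ⟨m, hmE, h0, hP⟩
    · right
      rcases hcov m hmE hm1 with h7 | h7
      · exact Or.inl ⟨m, h0, ⟨h7, fun h8 => hm2 (onRatE_mono (by omega) h8)⟩, hP⟩
      · exact Or.inr ⟨m, h0, ⟨h7, fun h8 => hm2 (onRatE_mono (by omega) h8)⟩, hP⟩
  refine (Set.encard_le_encard h6).trans ((Set.encard_union_le _ _).trans ?_)
  push_cast
  exact add_le_add h3 ((Set.encard_union_le _ _).trans (add_le_add h1 h2))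

/-- a solution which satisfies the relations -/
theorem exists_good {𝔞 : Ideal (MvPolynomial V (Polynomial R0))} (h : ¬ Bd 𝔽 π A B 𝔞) :
    ∃ (K : Type) (_ : Field K) (_ : CharZero K) (ψ : R0 →+* K) (v : ℕ → V → K) (m : ℕ),
      Sol 𝔽 π A B ψ v ∧ ∀ g ∈ 𝔞, phi ψ (m : K) (v m) g = 0 := by
  by_contra hcon
  apply h
  refine ⟨0, fun K _ _ ψ v hv => ?_⟩
  have h1 : ({P | ∃ (m : ℕ) (h0 : (fun l => v m (π l)) ≠ 0),
      ((∀ g ∈ 𝔞, phi ψ (m : K) (v m) g = 0) ∧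
        ¬ OnRatE 0 (fun i => map ψ (𝔽 i)) (fun l => v m (π l))) ∧
        P = Projectivization.mk K (fun l => v m (π l)) h0} :
        Set (Projectivization K (Fin (n + 1) → K))) = ∅ := by
    rw [Set.eq_empty_iff_forall_notMem]
    rintro P ⟨m, h0, ⟨hm1, hm2⟩, hP⟩
    exact hcon ⟨K, inferInstance, inferInstance, ψ, v, m, hv, hm1⟩
  rw [h1, Set.encard_empty]
  exact bot_le

/-- a maximal ideal of relations without bounds -/
structure MaxBad (𝔽 : ι → MvPolynomial (Fin (n + 1)) R0) (π : Fin (n + 1) → V)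
    (A : Matrix V V (Polynomial R0)) (B : Polynomial R0)
    (𝔭 : Ideal (MvPolynomial V (Polynomial R0))) : Prop where
  hn : ¬ Bd 𝔽 π A B 𝔭
  hm : ∀ 𝔟, 𝔭 < 𝔟 → Bd 𝔽 π A B 𝔟

theorem exists_maxBad [IsNoetherianRing R0] (h : ¬ Bd 𝔽 π A B ⊥) :
    ∃ 𝔭, MaxBad 𝔽 π A B 𝔭 := by
  have hwf : WellFoundedGT (Ideal (MvPolynomial V (Polynomial R0))) := inferInstance
  obtain ⟨𝔭, h1, h2⟩ := hwf.wf.has_min {𝔞 | ¬ Bd 𝔽 π A B 𝔞} ⟨⊥, h⟩
  refine ⟨𝔭, h1, fun 𝔟 hb => ?_⟩
  by_contra h3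
  exact h2 𝔟 h3 hb

theorem lt_sup_span {R : Type} [CommRing R] {𝔭 : Ideal R} {g : R} (hg : g ∉ 𝔭) :
    𝔭 < 𝔭 ⊔ Ideal.span {g} := by
  refine lt_of_le_of_ne le_sup_left fun h => hg ?_
  rw [h]
  exact Ideal.mem_sup_right (Ideal.mem_span_singleton_self g)

theorem zero_sup {R K : Type} [CommRing R] [Field K] (φ : R →+* K) {𝔭 : Ideal R} {g : R}
    (h1 : ∀ a ∈ 𝔭, φ a = 0) (h2 : φ g = 0) : ∀ a ∈ 𝔭 ⊔ Ideal.span {g}, φ a = 0 := by
  have h3 : 𝔭 ⊔ Ideal.span {g} ≤ RingHom.ker φ := by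
    refine sup_le (fun a ha => h1 a ha) ?_
    rw [Ideal.span_le]
    rintro a rfl
    exact h2
  exact fun a ha => h3 ha

theorem MaxBad.mem {𝔭 : Ideal (MvPolynomial V (Polynomial R0))} (h : MaxBad 𝔽 π A B 𝔭)
    (g : MvPolynomial V (Polynomial R0)) (N : ℕ)
    (hc : ∀ (K : Type) [Field K] [CharZero K] (ψ : R0 →+* K) (v : ℕ → V → K), Sol 𝔽 π A B ψ v →
      ∃ E : Finset ℕ, E.card ≤ N ∧ ∀ m ∉ E, (∀ g ∈ 𝔭, phi ψ (m : K) (v m) g = 0) →
        phi ψ (m : K) (v m) g = 0) : g ∈ 𝔭 := by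
  by_contra hg
  apply h.hn
  have h1 := h.hm _ (lt_sup_span hg)
  refine h1.cover h1 N fun K _ _ ψ v hv => ?_
  obtain ⟨E, hE, h2⟩ := hc K ψ v hv
  exact ⟨E, hE, fun m hm h3 => Or.inl (zero_sup _ h3 (h2 m hm h3))⟩

theorem MaxBad.prime {𝔭 : Ideal (MvPolynomial V (Polynomial R0))} (h : MaxBad 𝔽 π A B 𝔭) :
    𝔭.IsPrime := by
  refine ⟨fun htop => ?_, fun {f g} hfg => ?_⟩
  · obtain ⟨K, _, _, ψ, v, m, -, h1⟩ := exists_good h.hn
    have h2 := h1 1 (by rw [htop]; exact Submodule.mem_top)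
    rw [map_one] at h2
    exact one_ne_zero h2
  · by_contra hcon
    push Not at hcon
    apply h.hn
    refine (h.hm _ (lt_sup_span hcon.1)).cover (h.hm _ (lt_sup_span hcon.2)) 0
      fun K _ _ ψ v hv => ⟨∅, le_rfl, fun m _ h3 => ?_⟩
    have h4 := h3 _ hfg
    rw [map_mul] at h4
    rcases mul_eq_zero.1 h4 with h5 | h5
    · exact Or.inl (zero_sup _ h3 h5)
    · exact Or.inr (zero_sup _ h3 h5)

omit [Fintype V] [DecidableEq V] in
theorem phi_C {K : Type} [Field K] (ψ : R0 →+* K) (a : K) (y : V → K) (p : Polynomial R0) :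
    phi ψ a y (C p) = (p.map ψ).eval a := by
  rw [phi, coe_eval₂Hom, eval₂_C, evm, Polynomial.coe_eval₂RingHom, Polynomial.eval_map]

theorem MaxBad.coeff {𝔭 : Ideal (MvPolynomial V (Polynomial R0))} (h : MaxBad 𝔽 π A B 𝔭)
    (p : Polynomial R0) (hp : C p ∈ 𝔭) (j : ℕ) : C (Polynomial.C (p.coeff j)) ∈ 𝔭 := by
  classical
  refine h.mem _ p.natDegree fun K _ _ ψ v hv => ?_
  by_cases hc : ψ (p.coeff j) = 0
  · refine ⟨∅, by simp, fun m _ _ => ?_⟩
    rw [phi_C, Polynomial.map_C, Polynomial.eval_C, hc]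
  · have hp0 : p.map ψ ≠ 0 := by
      intro h0
      apply hc
      rw [← Polynomial.coeff_map, h0, Polynomial.coeff_zero]
    have hfin : {m : ℕ | (p.map ψ).eval (m : K) = 0}.Finite := by
      have h1 : (fun m : ℕ => (m : K)) ⁻¹' (((p.map ψ).roots.toFinset : Finset K) : Set K) =
          {m : ℕ | (p.map ψ).eval (m : K) = 0} := by
        ext m
        rw [Set.mem_preimage, Finset.mem_coe, Multiset.mem_toFinset, Polynomial.mem_roots hp0]
        rfl
      rw [← h1]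
      exact (Finset.finite_toSet _).preimage Nat.cast_injective.injOn
    refine ⟨hfin.toFinset, (root_count hp0 _ fun m hm => ?_).trans Polynomial.natDegree_map_le,
      fun m hm h2 => ?_⟩
    · rw [Set.Finite.mem_toFinset] at hm
      exact hm
    · exfalso
      apply hm
      rw [Set.Finite.mem_toFinset]
      have h3 := h2 _ hp
      rw [phi_C] at h3
      exact h3

end Pool.Agent.N626
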