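import Pool.Agent.N626.Hv
import Pool.Agent.N626.Ht

/-!
The uniform bound for the points given by systems of linear difference equations.
-/

set_option autoImplicit false

namespace Pool.Agent.N626

open MvPolynomial Pool.Agent.R393.UH Pool.Agent.R393.UF

variable {R0 V ι : Type} [CommRing R0] [Fintype V] [DecidableEq V] {n : ℕ}

/-- the numerators of the shifts of the variables -/
noncomputable def nn (A : Matrix V V (Polynomial R0)) (j : ℕ) (u : V) :
    MvPolynomial V (Polynomial R0) := ∑ w, C (NN A j u w) * X w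

theorem comp_XC_ne {K : Type} [CommRing K] {p : Polynomial K} (hp : p ≠ 0) (a : K) :
    p.comp (Polynomial.X + Polynomial.C a) ≠ 0 := by
  intro h0
  apply hp
  have h1 := congrArg (fun q : Polynomial K => q.comp (Polynomial.X - Polynomial.C a)) h0
  simpa [Polynomial.comp_assoc] using h1

theorem DD_ne {K : Type} [Field K] (ψ : R0 →+* K) {B : Polynomial R0} (hB : B.map ψ ≠ 0)
    (j : ℕ) : (DD B j).map ψ ≠ 0 := by
  induction j with
  | zero => simp [DD]
  | succ j ih =>
    rw [DD, Polynomial.map_mul, Polynomial.map_comp, Polynomial.map_add, Polynomial.map_X,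
      Polynomial.map_C]
    exact mul_ne_zero (comp_XC_ne hB _) ih

theorem DD_eval_ne {K : Type} [Field K] (ψ : R0 →+* K) {B : Polynomial R0} (m j : ℕ)
    (h : ∀ i < j, (B.map ψ).eval ((m + i : ℕ) : K) ≠ 0) :
    ((DD B j).map ψ).eval (m : K) ≠ 0 := by
  induction j with
  | zero => simp [DD]
  | succ j ih =>
    rw [DD, Polynomial.map_mul, Polynomial.map_comp, Polynomial.map_add, Polynomial.map_X,
      Polynomial.map_C, Polynomial.eval_mul, Polynomial.eval_comp, map_natCast]
    refine mul_ne_zero ?_ (ih fun i hi => h i (Nat.lt_succ_of_lt hi))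
    have h1 := h j (Nat.lt_succ_self j)
    simpa using h1

variable {𝔽 : ι → MvPolynomial (Fin (n + 1)) R0} {π : Fin (n + 1) → V}
    {A : Matrix V V (Polynomial R0)} {B : Polynomial R0}

theorem Sol.nn {K : Type} [Field K] {ψ : R0 →+* K} {v : ℕ → V → K} (hv : Sol 𝔽 π A B ψ v)
    (m j : ℕ) (u : V) : phi ψ (m : K) (v m) (nn A j u) =
      phi ψ (m : K) (v m) (C (DD B j)) * v (m + j) u := by
  have h1 := dn_rec A B (fun i => evm ψ ((m + i : ℕ) : K)) (fun i p => by
    simp only [evm, Polynomial.coe_eval₂RingHom]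
    rw [← Polynomial.eval_map, ← Polynomial.eval_map, Polynomial.map_comp, Polynomial.map_add,
      Polynomial.map_X, Polynomial.map_C, Polynomial.eval_comp, map_natCast]
    simp) (fun i => v (m + i)) (fun i u => hv.hr (m + i) u) j u
  have h2 : ∀ p : Polynomial R0, phi ψ (m : K) (v m) (C p) = evm ψ ((m + 0 : ℕ) : K) p := by
    intro p
    rw [phi, coe_eval₂Hom, eval₂_C]
    rfl
  rw [h2, h1, N626.nn, map_sum]
  refine Finset.sum_congr rfl fun w _ => ?_
  rw [map_mul, h2, phi, coe_eval₂Hom, eval₂_X]
  rfl

section rho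

variable {D : Type} [CommRing D] [IsDomain D] (q : R0 →+* D)

/-- relations over the field of rational functions of the index -/
noncomputable def rho (V : Type) : MvPolynomial V (Polynomial R0) →+* MvPolynomial V (KK D) :=
  map ((algebraMap (Polynomial D) (KK D)).comp (Polynomial.mapRingHom q))

/-- the matrix of the system -/
noncomputable def mat (A : Matrix V V (Polynomial R0)) (B : Polynomial R0) :
    Matrix V V (KK D) :=
  Matrix.of fun u w => algebraMap (Polynomial D) (KK D) ((A u w).map q) /
    algebraMap (Polynomial D) (KK D) (B.map q)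

omit [Fintype V] [DecidableEq V] [IsDomain D] in
theorem rho_C (p : Polynomial R0) :
    rho q V (C p) = C (algebraMap (Polynomial D) (KK D) (p.map q)) := by
  rw [rho, map_C]
  rfl

omit [Fintype V] [DecidableEq V] [IsDomain D] in
theorem rho_X (v : V) : rho q V (X v) = X v := by
  rw [rho, map_X]

omit [DecidableEq V] in
theorem mat_lin (hB : B.map q ≠ 0) (u : V) :
    C (algebraMap (Polynomial D) (KK D) (B.map q)) * lin (mat q A B u) =
      ∑ w, C (algebraMap (Polynomial D) (KK D) ((A u w).map q)) * X w := by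
  have hB0 : algebraMap (Polynomial D) (KK D) (B.map q) ≠ 0 := by
    rwa [Ne, map_eq_zero_iff _ (IsFractionRing.injective (Polynomial D) (KK D))]
  rw [lin, Finset.mul_sum]
  refine Finset.sum_congr rfl fun w _ => ?_
  rw [← mul_assoc, ← C_mul, mat, Matrix.of_apply, mul_div_cancel₀ _ hB0]

theorem mat_det (hB : B.map q ≠ 0) (hA : A.det.map q ≠ 0) : (mat q A B).det ≠ 0 := by
  have hB0 : algebraMap (Polynomial D) (KK D) (B.map q) ≠ 0 := by
    rwa [Ne, map_eq_zero_iff _ (IsFractionRing.injective (Polynomial D) (KK D))]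
  have h1 : mat q A B = (algebraMap (Polynomial D) (KK D) (B.map q))⁻¹ •
      (((algebraMap (Polynomial D) (KK D)).comp (Polynomial.mapRingHom q)).mapMatrix A) := by
    ext u w
    rw [mat, Matrix.of_apply, Matrix.smul_apply, smul_eq_mul, RingHom.mapMatrix_apply,
      Matrix.map_apply, RingHom.comp_apply, Polynomial.coe_mapRingHom, div_eq_inv_mul]
  rw [h1, Matrix.det_smul, ← RingHom.map_det]
  refine mul_ne_zero (pow_ne_zero _ (inv_ne_zero hB0)) ?_
  rw [RingHom.comp_apply, Ne, map_eq_zero_iff _ (IsFractionRing.injective (Polynomial D) (KK D))]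
  exact hA

theorem rho_nn (hB : B.map q ≠ 0) (j : ℕ) (u : V) :
    rho q V (nn A j u) = rho q V (C (DD B j)) * (sgS (mat q A B) ^ j) (X u) := by
  have h0 : ∀ p : Polynomial R0, ((sgS (mat q A B) ^ 0).comp
      (C.comp ((algebraMap (Polynomial D) (KK D)).comp (Polynomial.mapRingHom q)))) p =
      rho q V (C p) := by
    intro p
    rw [rho_C]
    rfl
  have h1 := dn_rec A B (fun j => (sgS (mat q A B) ^ j).comp
    (C.comp ((algebraMap (Polynomial D) (KK D)).comp (Polynomial.mapRingHom q)))) (fun j p => by
      change (sgS (mat q A B) ^ j) (C (algebraMap (Polynomial D) (KK D) (p.map q))) =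
        C (algebraMap (Polynomial D) (KK D) ((p.comp _).map q))
      rw [pow_C, Polynomial.map_comp, Polynomial.map_add, Polynomial.map_X, Polynomial.map_C,
        map_natCast q]) (fun j u => (sgS (mat q A B) ^ j) (X u)) (fun j u => by
      change (sgS (mat q A B) ^ j) (C (algebraMap (Polynomial D) (KK D) (B.map q))) * _ =
        ∑ w, (sgS (mat q A B) ^ j) (C (algebraMap (Polynomial D) (KK D) ((A u w).map q))) * _
      rw [pow_succ, RingHom.mul_def, RingHom.comp_apply, sgS_X, ← map_mul, mat_lin q hB, map_sum]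
      refine Finset.sum_congr rfl fun w _ => ?_
      rw [map_mul]) j u
  rw [← h0, h1, N626.nn, map_sum]
  refine Finset.sum_congr rfl fun w _ => ?_
  rw [h0, map_mul, rho_X]
  rfl

end rho

end Pool.Agent.N626
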