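import Pool.Agent.N626.Hw

/-!
The uniform bound: the prime case.
-/

set_option autoImplicit false

namespace Pool.Agent.N626

open MvPolynomial Pool.Agent.R393.UH Pool.Agent.R393.UF

/-- curves through a point from a family of curves -/
theorem curve_of_family {R0 K M ι : Type} [CommRing R0] [Field K] [Field M] {n : ℕ}
    (ψ : R0 →+* K) (β : R0 →+* M) (W : Fin (n + 1) → Polynomial M) (P : Fin (n + 1) → K)
    (hP : P ≠ 0) {N : ℕ} (hN : ∀ l, (W l).natDegree ≤ N)
    (hW : ∀ (G : MvPolynomial (Fin (n + 1)) R0) (d : ℕ), G.IsHomogeneous d →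
      eval₂ (Polynomial.C.comp β) W G = 0 → eval₂ ψ P G = 0)
    (F : ι → MvPolynomial (Fin (n + 1)) R0) (hom : ∀ i, ∃ e, (F i).IsHomogeneous e)
    (hF : ∀ i, eval₂ (Polynomial.C.comp β) W (F i) = 0)
    (hd : ∃ u v, Polynomial.derivative (W u) * W v ≠ W u * Polynomial.derivative (W v)) :
    OnRatE N (fun i => map ψ (F i)) P := by
  classical
  let L := RatFunc M
  let ι0 : Polynomial M →+* L := algebraMap (Polynomial M) (RatFunc M)
  have hι0 : Function.Injective ι0 := RatFunc.algebraMap_injective M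
  let T : L := ι0 Polynomial.X
  let Ψ : Polynomial M →+* Polynomial L :=
    (Polynomial.compRingHom (Polynomial.X + Polynomial.C (T - 1))).comp
      (Polynomial.mapRingHom (ι0.comp Polynomial.C))
  have hΨ : ∀ w, Ψ w = (w.map (ι0.comp Polynomial.C)).comp
      (Polynomial.X + Polynomial.C (T - 1)) := fun w => rfl
  have hΨ1 : ∀ w, (Ψ w).eval 1 = ι0 w := by
    intro w
    rw [hΨ, Polynomial.eval_comp, Polynomial.eval_add, Polynomial.eval_X, Polynomial.eval_C,
      add_sub_cancel, Polynomial.eval_map]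
    have h2 : Polynomial.eval₂RingHom (ι0.comp Polynomial.C) T = ι0 :=
      Polynomial.ringHom_ext (fun c => by simp) (by simp [T])
    exact congrArg (fun g : Polynomial M →+* L => g w) h2
  have hΨd : ∀ w, Polynomial.derivative (Ψ w) = Ψ (Polynomial.derivative w) := by
    intro w
    rw [hΨ, hΨ, Polynomial.derivative_comp, Polynomial.derivative_map, Polynomial.derivative_add,
      Polynomial.derivative_X, Polynomial.derivative_C, add_zero, one_mul]
  obtain ⟨Ω, iΩ, α, p', h1, h2, h3, h4⟩ := spec_curve ψ ((ι0.comp Polynomial.C).comp β) P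
    (Function.ne_iff.1 hP) (fun l => ι0 (W l)) (fun G d hG h0 => by
      apply hW G d hG
      apply hι0
      rw [map_zero, hom_eval₂, ← h0]
      rfl) (fun l => Ψ (W l)) 1 one_ne_zero (fun l => by rw [hΨ1, one_mul]) N (fun l => by
      rw [hΨ, Polynomial.natDegree_comp, Polynomial.natDegree_X_add_C, mul_one]
      exact Polynomial.natDegree_map_le.trans (hN l)) F hom (fun i => by
      have h1 := congrArg Ψ (hF i)
      rw [map_zero, hom_eval₂] at h1
      rw [← h1]
      congr 1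
      refine RingHom.ext fun c => ?_
      change Polynomial.C (ι0 (Polynomial.C (β c))) = Ψ (Polynomial.C (β c))
      rw [hΨ, Polynomial.map_C, Polynomial.C_comp]
      rfl) (by
      obtain ⟨u, v, huv⟩ := hd
      refine ⟨u, v, fun h0 => huv ?_⟩
      have h1 := congrArg (fun p : Polynomial L => (Polynomial.derivative p).eval 1) h0
      simp only [Polynomial.derivative_mul, Polynomial.derivative_C, mul_zero, add_zero, hΨd,
        Polynomial.eval_mul, Polynomial.eval_C, hΨ1] at h1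
      apply hι0
      rw [map_mul, map_mul, h1]
      ring)
  refine ⟨Ω, iΩ, α.toAlgebra, p', h1, fun i => ?_, h3, h4⟩
  have h5 := h2 i
  let _ := α.toAlgebra
  rw [aeval_def, eval₂_map]
  exact h5

theorem exists_D {R0 R : Type} [CommRing R0] [CommRing R] [Countable R0] (𝔭 : Ideal R)
    [h𝔭 : 𝔭.IsPrime] (j : R0 →+* R) : ∃ (D : Type) (_ : CommRing D) (_ : IsDomain D)
      (_ : Countable D) (q : R0 →+* D), Function.Surjective q ∧ ∀ c, q c = 0 ↔ j c ∈ 𝔭 := by
  have h1 : (𝔭.comap j).IsPrime := Ideal.IsPrime.comap j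
  refine ⟨R0 ⧸ 𝔭.comap j, inferInstance, inferInstance,
    (Ideal.Quotient.mk_surjective (I := 𝔭.comap j)).countable, Ideal.Quotient.mk (𝔭.comap j),
    Ideal.Quotient.mk_surjective, fun c => ?_⟩
  rw [Ideal.Quotient.eq_zero_iff_mem]
  exact Iff.rfl

variable {R0 V ι : Type} [CommRing R0] [Fintype V] [DecidableEq V] {n : ℕ}
variable {𝔽 : ι → MvPolynomial (Fin (n + 1)) R0} {π : Fin (n + 1) → V}
    {A : Matrix V V (Polynomial R0)} {B : Polynomial R0}

omit [Fintype V] [DecidableEq V] in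
theorem phi_CC {K : Type} [Field K] (ψ : R0 →+* K) (a : K) (y : V → K) :
    (phi ψ a y).comp (C.comp Polynomial.C) = ψ := by
  refine RingHom.ext fun c => ?_
  rw [RingHom.comp_apply, RingHom.comp_apply, phi_C, Polynomial.map_C, Polynomial.eval_C]

omit [Fintype V] [DecidableEq V] in
theorem phi_X {K : Type} [Field K] (ψ : R0 →+* K) (a : K) (y : V → K) (u : V) :
    phi ψ a y (X u) = y u := by
  rw [phi, coe_eval₂Hom, eval₂_X]

/-- the shifts of the equations -/
theorem shift_mem {D : Type} [CommRing D] [IsDomain D] (q : R0 →+* D)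
    (hom : ∀ i, ∃ e, (𝔽 i).IsHomogeneous e)
    {𝔭 : Ideal (MvPolynomial V (Polynomial R0))} (h : MaxBad 𝔽 π A B 𝔭)
    (hB : B.map q ≠ 0)
    (𝔓 : Ideal (MvPolynomial V (KK D))) (h𝔓 : 𝔓.IsPrime) (hP : ∀ g, rho q V g ∈ 𝔓 ↔ g ∈ 𝔭)
    (j : ℕ) (i : ι) :
    (sgS (mat q A B) ^ j) (eval₂ (cst D V) (fun l => X (π l)) (map q (𝔽 i))) ∈ 𝔓 := by
  obtain ⟨e, he⟩ := hom i
  have hg : eval₂ (C.comp Polynomial.C) (fun l => nn A j (π l)) (𝔽 i) ∈ 𝔭 := by
    refine h.mem _ 0 fun K _ _ ψ v hv => ⟨∅, le_rfl, fun m _ _ => ?_⟩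
    have h1 : (fun l => phi ψ (m : K) (v m) (nn A j (π l))) =
        fun l => phi ψ (m : K) (v m) (C (DD B j)) * v (m + j) (π l) :=
      funext fun l => hv.nn m j (π l)
    rw [hom_eval₂, phi_CC, h1, scale_eval ψ _ _ he, hv.hv, mul_zero]
  have h2 : rho q V (eval₂ (C.comp Polynomial.C) (fun l => nn A j (π l)) (𝔽 i)) =
      rho q V (C (DD B j)) ^ e *
        (sgS (mat q A B) ^ j) (eval₂ (cst D V) (fun l => X (π l)) (map q (𝔽 i))) := by
    have h3 : (rho q V).comp (C.comp Polynomial.C) = (cst D V).comp q := by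
      refine RingHom.ext fun c => ?_
      rw [RingHom.comp_apply, RingHom.comp_apply, rho_C, Polynomial.map_C]
      rfl
    have h4 : (sgS (mat q A B) ^ j).comp (cst D V) = cst D V := by
      refine RingHom.ext fun c => ?_
      change (sgS (mat q A B) ^ j) (C (algebraMap _ _ (Polynomial.C c))) = _
      rw [pow_C, Polynomial.C_comp]
      rfl
    have h1 : (fun l => rho q V (nn A j (π l))) =
        fun l => rho q V (C (DD B j)) * (sgS (mat q A B) ^ j) (X (π l)) :=
      funext fun l => rho_nn q hB j (π l)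
    rw [hom_eval₂, h3, h1, scale_eval ((cst D V).comp q) _ _ he, eval₂_map, hom_eval₂, ← RingHom.comp_assoc, h4]
  have h5 : rho q V (C (DD B j)) ^ e *
        (sgS (mat q A B) ^ j) (eval₂ (cst D V) (fun l => X (π l)) (map q (𝔽 i))) ∈ 𝔓 := by
    rw [← h2]
    exact (hP _).2 hg
  rcases h𝔓.mem_or_mem h5 with h6 | h6
  · exfalso
    have h7 := (hP _).1 (h𝔓.mem_of_pow_mem _ h6)
    obtain ⟨K, _, _, ψ, v, m, hv, hg⟩ := exists_good h.hn
    apply DD_ne ψ hv.hB j
    ext s
    have h8 := hg _ (h.coeff _ h7 s)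
    rw [phi_C, Polynomial.map_C, Polynomial.eval_C] at h8
    rw [Polynomial.coeff_map, h8, Polynomial.coeff_zero]
  · exact h6

/-- the periodic case -/
theorem periodic_case {𝔭 : Ideal (MvPolynomial V (Polynomial R0))} {k : ℕ} (hk : 0 < k)
    (h : ∀ s i l, nn A (k * s) (π i) * X (π l) - X (π i) * nn A (k * s) (π l) ∈ 𝔭) :
    Bd 𝔽 π A B 𝔭 := by
  classical
  refine ⟨k * (B.natDegree + 1), fun K _ _ ψ v hv => ?_⟩
  by_contra hcon
  obtain ⟨hs, h1, h2, h3⟩ := mem_of_card (x := fun (m : ℕ) l => v m (π l))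
    (fun m => (∀ g ∈ 𝔭, phi ψ (m : K) (v m) g = 0) ∧
      ¬ OnRatE (k * (B.natDegree + 1)) (fun i => map ψ (𝔽 i)) (fun l => v m (π l)))
    (not_le.1 hcon)
  let Z : ℕ → Finset ℕ := fun m => (Finset.range m).filter fun r => (B.map ψ).eval (r : K) = 0
  have hZ : ∀ m, (Z m).card ≤ B.natDegree := fun m =>
    (root_count hv.hB (Z m) fun r hr => (Finset.mem_filter.1 hr).2).trans
      Polynomial.natDegree_map_le
  have key : ∀ m m' : ℕ, m < m' → m % k = m' % k → (Z m).card = (Z m').card →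
      (∀ g ∈ 𝔭, phi ψ (m : K) (v m) g = 0) →
      ∀ i l, v m (π i) * v m' (π l) = v m (π l) * v m' (π i) := by
    intro m m' hlt hmod hc hm i l
    obtain ⟨s, hs⟩ : ∃ s, m' = m + k * s := by
      obtain ⟨s, hs⟩ := (Nat.modEq_iff_dvd' hlt.le).1 hmod
      exact ⟨s, by omega⟩
    have hZe : Z m = Z m' := Finset.eq_of_subset_of_card_le
      (Finset.filter_subset_filter _ (Finset.range_subset_range.2 hlt.le)) hc.ge
    have hne : phi ψ (m : K) (v m) (C (DD B (k * s))) ≠ 0 := by
      rw [phi_C]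
      apply DD_eval_ne
      intro r hr h0
      have h4 : m + r ∈ Z m' := Finset.mem_filter.2 ⟨Finset.mem_range.2 (by omega), h0⟩
      rw [← hZe] at h4
      have h5 := Finset.mem_range.1 (Finset.mem_filter.1 h4).1
      omega
    have h4 := hm _ (h s i l)
    rw [map_sub, map_mul, map_mul, hv.nn, hv.nn, phi_X, phi_X, ← hs] at h4
    apply mul_left_cancel₀ hne
    linear_combination -h4
  obtain ⟨a, ha, b, hb, hab, hlab⟩ := Finset.exists_ne_map_eq_of_card_lt_of_maps_to
    (s := Finset.range (k * (B.natDegree + 1) + 1))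
    (t := Finset.range k ×ˢ Finset.range (B.natDegree + 1))
    (f := fun j => (hs j % k, (Z (hs j)).card)) (by
      rw [Finset.card_product, Finset.card_range, Finset.card_range, Finset.card_range]
      exact Nat.lt_succ_self _) (fun j _ => Finset.mem_coe.2 (Finset.mem_product.2
        ⟨Finset.mem_range.2 (Nat.mod_lt _ hk), Finset.mem_range.2 (Nat.lt_succ_of_le (hZ _))⟩))
  rw [Finset.mem_range] at ha hb
  obtain ⟨u, w, huw⟩ := h3 a b (by omega) (by omega) hab
  have e1 := (Prod.mk.inj hlab).1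
  have e2 := (Prod.mk.inj hlab).2
  rcases lt_trichotomy (hs a) (hs b) with h5 | h5 | h5
  · exact huw (key _ _ h5 e1 e2 (h1 a (by omega)).1 u w)
  · apply huw
    rw [h5]
    ring
  · apply huw
    have h6 := key _ _ h5 e1.symm e2.symm (h1 b (by omega)).1 u w
    linear_combination -h6

/-- **The uniform bound.** -/
theorem core [IsNoetherianRing R0] [Countable R0] (hom : ∀ i, ∃ e, (𝔽 i).IsHomogeneous e) :
    Bd 𝔽 π A B ⊥ := by
  classical
  by_contra hcon
  obtain ⟨𝔭, h⟩ := exists_maxBad hcon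
  have hp := h.prime
  obtain ⟨D, i1, i2, i3, q, hq, hq0⟩ := exists_D 𝔭 (C.comp Polynomial.C)
  obtain ⟨K, _, _, ψ, v, m, hv, hg⟩ := exists_good h.hn
  have hψ : ∀ c, q c = 0 → ψ c = 0 := by
    intro c hc
    have h1 := hg _ ((hq0 c).1 hc)
    rwa [RingHom.comp_apply, phi_C, Polynomial.map_C, Polynomial.eval_C] at h1
  have hmap : ∀ p : Polynomial R0, p.map ψ ≠ 0 → p.map q ≠ 0 := by
    intro p hp h0
    apply hp
    ext s
    rw [Polynomial.coeff_map, Polynomial.coeff_zero]
    apply hψ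
    rw [← Polynomial.coeff_map, h0, Polynomial.coeff_zero]
  have hcz : CharZero D := charZero_of_inj_zero fun c hc => by
    have h1 := hψ c (by rw [map_natCast, hc])
    rw [map_natCast] at h1
    exact_mod_cast h1
  obtain ⟨𝔓, h𝔓, hP⟩ := loc_prime q hq 𝔭 hq0 h.coeff
  have hP' : ∀ g, rho q V g ∈ 𝔓 ↔ g ∈ 𝔭 := hP
  rcases alg_dich π (mat q A B) (mat_det q (hmap _ hv.hB) (hmap _ hv.hA)) 𝔓
    (fun i => map q (𝔽 i)) (fun j i => shift_mem q hom h (hmap _ hv.hB) 𝔓 h𝔓 hP' j i) with
    h1 | ⟨M, iM, j, W, hW, hF, hd⟩ | ⟨k, hk, hper⟩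
  · apply h.hn
    refine ⟨0, fun K _ _ ψ v hv => ?_⟩
    have h2 : ({P | ∃ (m : ℕ) (h0 : (fun l => v m (π l)) ≠ 0),
        ((∀ g ∈ 𝔭, phi ψ (m : K) (v m) g = 0) ∧
          ¬ OnRatE 0 (fun i => map ψ (𝔽 i)) (fun l => v m (π l))) ∧
          P = Projectivization.mk K (fun l => v m (π l)) h0} :
          Set (Projectivization K (Fin (n + 1) → K))) = ∅ := by
      rw [Set.eq_empty_iff_forall_notMem]
      rintro P ⟨m, h0, ⟨hm1, hm2⟩, hP2⟩
      apply h0
      funext l
      have h3 := hm1 (X (π l)) ((hP' _).1 (by rw [rho_X]; exact h1 l))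
      rwa [phi_X] at h3
    rw [h2, Set.encard_empty]
    exact bot_le
  · apply h.hn
    refine ⟨∑ l, (W l).natDegree, fun K _ _ ψ v hv => ?_⟩
    have h2 : ({P | ∃ (m : ℕ) (h0 : (fun l => v m (π l)) ≠ 0),
        ((∀ g ∈ 𝔭, phi ψ (m : K) (v m) g = 0) ∧
          ¬ OnRatE (∑ l, (W l).natDegree) (fun i => map ψ (𝔽 i)) (fun l => v m (π l))) ∧
          P = Projectivization.mk K (fun l => v m (π l)) h0} :
          Set (Projectivization K (Fin (n + 1) → K))) = ∅ := by
      rw [Set.eq_empty_iff_forall_notMem]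
      rintro P ⟨m, h0, ⟨hm1, hm2⟩, hP2⟩
      apply hm2
      refine curve_of_family ψ (j.comp q) W _ h0 (fun l => Finset.single_le_sum
        (f := fun l => (W l).natDegree) (fun _ _ => Nat.zero_le _) (Finset.mem_univ l))
        (fun G d hG hG0 => ?_) 𝔽 hom (fun i => ?_) hd
      · have h3 := hW (map q G) ⟨d, hG.map q⟩ (by
          rw [eval₂_map]
          exact hG0)
        have h4 : eval₂ (cst D V) (fun l => X (π l)) (map q G) =
            rho q V (eval₂ (C.comp Polynomial.C) (fun l => X (π l)) G) := by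
          rw [hom_eval₂, eval₂_map]
          have h5 : (rho q V).comp (C.comp Polynomial.C) = (cst D V).comp q := by
            refine RingHom.ext fun c => ?_
            rw [RingHom.comp_apply, RingHom.comp_apply, rho_C, Polynomial.map_C]
            rfl
          rw [h5]
          simp only [rho_X]
        rw [h4, hP'] at h3
        have h5 := hm1 _ h3
        rw [hom_eval₂, phi_CC] at h5
        simp only [phi_X] at h5
        exact h5
      · obtain ⟨e, he⟩ := hom i
        have h3 := hF i ⟨e, he.map q⟩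
        rw [eval₂_map] at h3
        exact h3
    rw [h2, Set.encard_empty]
    exact bot_le
  · apply h.hn
    refine periodic_case hk fun s i l => ?_
    rw [← hP', map_sub, map_mul, map_mul, rho_nn q (hmap _ hv.hB), rho_nn q (hmap _ hv.hB), rho_X,
      rho_X]
    have h2 := 𝔓.mul_mem_left (rho q V (C (DD B (k * s)))) (hper s i l)
    convert h2 using 1
    ring

end Pool.Agent.N626
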