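import Pool.Agent.N626.Hx
import Pool.Agent.R393.UH.PtsGen

/-!
Scalar linear recurrences with polynomial coefficients.
-/

set_option autoImplicit false

namespace Pool.Agent.N626

open MvPolynomial

/-- The sequence `a` satisfies a linear recurrence of order at most `r` whose coefficients are
polynomials in the index of degree at most `e`, not all zero. -/
def PRecOf {K : Type} [Field K] (r e : ℕ) (a : ℕ → K) : Prop :=
  ∃ p : ℕ → Polynomial K, (∀ i, (p i).natDegree ≤ e) ∧ (∃ i ≤ r, p i ≠ 0) ∧
    ∀ m : ℕ, ∑ i ∈ Finset.range (r + 1), (p i).eval (m : K) * a (m + i) = 0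

/-- order exactly `r` -/
def PEx {K : Type} [Field K] (r e : ℕ) (a : ℕ → K) : Prop :=
  ∃ p : ℕ → Polynomial K, (∀ i, (p i).natDegree ≤ e) ∧ p 0 ≠ 0 ∧ p r ≠ 0 ∧
    ∀ m : ℕ, ∑ i ∈ Finset.range (r + 1), (p i).eval (m : K) * a (m + i) = 0

variable {K : Type} [Field K] [CharZero K]

omit [CharZero K] in
theorem natDegree_shift (p : Polynomial K) (c : K) {e : ℕ} (h : p.natDegree ≤ e) :
    (p.comp (Polynomial.X + Polynomial.C c)).natDegree ≤ e := by
  rw [Polynomial.natDegree_comp, Polynomial.natDegree_X_add_C, mul_one]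
  exact h

omit [CharZero K] in
theorem PEx.raise {r e : ℕ} {a : ℕ → K} (h : PEx r e a) : PEx (r + 1) e a := by
  obtain ⟨p, hd, h0, hr, hs⟩ := h
  let P : ℕ → Polynomial K := fun i => (if i = 0 then 0 else
    (p (i - 1)).comp (Polynomial.X + Polynomial.C 1)) - (if i ≤ r then p i else 0)
  refine ⟨P, fun i => ?_, ?_, ?_, fun m => ?_⟩
  · simp only [P]
    refine (Polynomial.natDegree_sub_le _ _).trans (max_le ?_ ?_)
    · split_ifs
      · simp
      · exact natDegree_shift _ _ (hd _)
    · split_ifs
      · exact hd i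
      · simp
  · simp only [P]
    rw [if_pos trivial, if_pos (Nat.zero_le _), zero_sub, neg_ne_zero]
    exact h0
  · simp only [P]
    rw [if_neg (Nat.succ_ne_zero r), if_neg (by omega), sub_zero]
    exact comp_XC_ne hr 1
  · have h1 : ∑ i ∈ Finset.range (r + 1 + 1), (if i = 0 then 0 else
        (p (i - 1)).comp (Polynomial.X + Polynomial.C 1)).eval (m : K) * a (m + i) = 0 := by
      rw [Finset.sum_range_succ']
      rw [if_pos rfl, Polynomial.eval_zero, zero_mul, add_zero, ← hs (m + 1)]
      refine Finset.sum_congr rfl fun i _ => ?_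
      rw [if_neg (Nat.succ_ne_zero i), Polynomial.eval_comp, Polynomial.eval_add,
        Polynomial.eval_X, Polynomial.eval_C, Nat.add_sub_cancel]
      have h2 : m + (i + 1) = m + 1 + i := by ring
      rw [h2]
      push_cast
      rfl
    have h2 : ∑ i ∈ Finset.range (r + 1 + 1), (if i ≤ r then p i else 0).eval (m : K) *
        a (m + i) = 0 := by
      rw [Finset.sum_range_succ, if_neg (by omega), Polynomial.eval_zero, zero_mul, add_zero,
        ← hs m]
      refine Finset.sum_congr rfl fun i hi => ?_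
      rw [if_pos (Nat.lt_succ_iff.1 (Finset.mem_range.1 hi))]
    simp only [P, Polynomial.eval_sub, sub_mul]
    rw [Finset.sum_sub_distrib, h1, h2, sub_zero]

omit [CharZero K] in
theorem PEx.raise_le {r s e : ℕ} {a : ℕ → K} (h : PEx r e a) (hrs : r ≤ s) : PEx s e a := by
  induction s, hrs using Nat.le_induction with
  | base => exact h
  | succ s _ ih => exact ih.raise

omit [CharZero K] in
/-- a recurrence of exact order after dropping some terms -/
theorem PRecOf.exact {r e : ℕ} {a : ℕ → K} (h : PRecOf r e a) :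
    PEx (r + 1) e (fun m => a (m + r)) := by
  classical
  obtain ⟨p, hd, ⟨i0, hi0, hp0⟩, hs⟩ := h
  let S := (Finset.range (r + 1)).filter fun i => p i ≠ 0
  have hS : S.Nonempty := ⟨i0, Finset.mem_filter.2 ⟨Finset.mem_range.2 (by omega), hp0⟩⟩
  obtain ⟨lo, hlo⟩ : ∃ lo, lo = S.min' hS := ⟨_, rfl⟩
  obtain ⟨hi, hhi⟩ : ∃ hi, hi = S.max' hS := ⟨_, rfl⟩
  have h1 : lo ∈ S := by rw [hlo]; exact S.min'_mem hS
  have h2 : hi ∈ S := by rw [hhi]; exact S.max'_mem hS
  have hle : lo ≤ hi := by rw [hlo]; exact S.min'_le _ h2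
  obtain ⟨h3, h4⟩ := Finset.mem_filter.1 h1
  obtain ⟨h5, h6⟩ := Finset.mem_filter.1 h2
  rw [Finset.mem_range] at h3 h5
  have hz : ∀ i < r + 1, (i < lo ∨ hi < i) → p i = 0 := by
    intro i hir hi'
    by_contra hne
    have h7 : i ∈ S := Finset.mem_filter.2 ⟨Finset.mem_range.2 hir, hne⟩
    have h8 : lo ≤ i := by rw [hlo]; exact S.min'_le _ h7
    have h9 : i ≤ hi := by rw [hhi]; exact S.le_max' _ h7
    omega
  have hex : PEx (hi - lo) e (fun m => a (m + r)) := by
    refine ⟨fun i => (p (lo + i)).comp (Polynomial.X + Polynomial.C ((r - lo : ℕ) : K)),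
      fun i => natDegree_shift _ _ (hd _), ?_, ?_, fun m => ?_⟩
    · exact comp_XC_ne h4 _
    · refine comp_XC_ne ?_ _
      rw [Nat.add_sub_cancel' hle]
      exact h6
    · have h7 := hs (m + (r - lo))
      have h8 : ∑ i ∈ Finset.range (r + 1), (p i).eval ((m + (r - lo) : ℕ) : K) *
          a (m + (r - lo) + i) = ∑ i ∈ Finset.Ico lo (hi + 1),
            (p i).eval ((m + (r - lo) : ℕ) : K) * a (m + (r - lo) + i) := by
        symm
        apply Finset.sum_subset
        · intro i hi'
          rw [Finset.mem_Ico] at hi'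
          rw [Finset.mem_range]
          omega
        · intro i hi1 hi2
          rw [Finset.mem_range] at hi1
          rw [Finset.mem_Ico] at hi2
          rw [hz i hi1 (by omega), Polynomial.eval_zero, zero_mul]
      rw [h8, Finset.sum_Ico_eq_sum_range] at h7
      have h9 : hi + 1 - lo = hi - lo + 1 := by omega
      rw [h9] at h7
      rw [← h7]
      refine Finset.sum_congr rfl fun i hi' => ?_
      rw [Finset.mem_range] at hi'
      rw [Polynomial.eval_comp, Polynomial.eval_add, Polynomial.eval_X, Polynomial.eval_C]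
      have h10 : m + i + r = m + (r - lo) + (lo + i) := by omega
      dsimp only
      rw [h10]
      push_cast
      rfl
  exact hex.raise_le (by omega)

end Pool.Agent.N626
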