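import Pool.Agent.N626.Hy

/-!
The universal system for points given by scalar recurrences on varieties given by forms of
bounded degree.
-/

set_option autoImplicit false

namespace Pool.Agent.N626

open MvPolynomial Pool.Agent.R393.UO Pool.Agent.R393.UH

/-- indices of the coefficients of the forms, and of the recurrences of order `s` -/
abbrev Par (n d s e : ℕ) : Type :=
  (Σ a : JJ n d, {μ : Fin (n + 1) →₀ ℕ // μ ∈ mons (n + 1) (a.1 : ℕ)}) ⊕
    (Fin (n + 1) × Fin (s + 1) × Fin (e + 1))

/-- the universal ring -/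
abbrev RR (n d s e : ℕ) : Type := MvPolynomial (Par n d s e) ℤ

theorem countable_RR (n d s e : ℕ) : Countable (RR n d s e) := by
  rw [← Cardinal.mk_le_aleph0_iff]
  refine MvPolynomial.cardinalMk_le_max.trans (max_le (max_le ?_ ?_) le_rfl)
  · exact Cardinal.mk_le_aleph0
  · exact Cardinal.mk_le_aleph0

/-- the universal forms -/
noncomputable def uF (n d s e : ℕ) (a : JJ n d) : MvPolynomial (Fin (n + 1)) (RR n d s e) :=
  ∑ μ : {μ : Fin (n + 1) →₀ ℕ // μ ∈ mons (n + 1) (a.1 : ℕ)},
    monomial (μ : Fin (n + 1) →₀ ℕ) (X (Sum.inl ⟨a, μ⟩))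

/-- the universal coefficients of the recurrences -/
noncomputable def uP (n d s e : ℕ) (j : Fin (n + 1)) (i : Fin (s + 1)) :
    Polynomial (RR n d s e) :=
  ∑ c : Fin (e + 1), Polynomial.monomial (c : ℕ) (X (Sum.inr (j, i, c)))

/-- the product of the leading coefficients -/
noncomputable def uB (n d s e : ℕ) : Polynomial (RR n d s e) :=
  ∏ j, uP n d s e j (Fin.last s)

/-- the universal matrix -/
noncomputable def uA (n d s e : ℕ) :
    Matrix (Fin (n + 1) × Fin s) (Fin (n + 1) × Fin s) (Polynomial (RR n d s e)) :=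
  Matrix.of fun u w => if u.1 = w.1 then
    (if (u.2 : ℕ) + 1 = s then
      -((∏ j ∈ Finset.univ.erase u.1, uP n d s e j (Fin.last s)) * uP n d s e u.1 w.2.castSucc)
    else if (w.2 : ℕ) = u.2 + 1 then uB n d s e else 0) else 0

theorem uF_hom (n d s e : ℕ) (a : JJ n d) : (uF n d s e a).IsHomogeneous (a.1 : ℕ) := by
  refine IsHomogeneous.sum _ _ _ fun μ _ => ?_
  apply isHomogeneous_monomial
  have h1 := (mem_mons (μ : Fin (n + 1) →₀ ℕ)).1 μ.2
  rw [Finsupp.degree_eq_weight_one]
  exact h1

variable {K : Type} [Field K]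

theorem map_uF {n d s e : ℕ} (f : JJ n d → MvPolynomial (Fin (n + 1)) K)
    (hf : ∀ a, (f a).IsHomogeneous (a.1 : ℕ)) (ψ : RR n d s e →+* K)
    (hψ : ∀ (a : JJ n d) (μ : {μ : Fin (n + 1) →₀ ℕ // μ ∈ mons (n + 1) (a.1 : ℕ)}),
      ψ (X (Sum.inl ⟨a, μ⟩)) = coeff (μ : Fin (n + 1) →₀ ℕ) (f a)) (a : JJ n d) :
    map ψ (uF n d s e a) = f a := by
  rw [uF, map_sum]
  simp only [map_monomial, hψ]
  rw [Finset.sum_coe_sort (mons (n + 1) (a.1 : ℕ)) (fun μ => monomial μ (coeff μ (f a)))]
  conv_rhs => rw [(f a).as_sum]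
  symm
  apply Finset.sum_subset
  · intro μ hμ
    exact (mem_mons μ).2 (hf a (mem_support_iff.1 hμ))
  · intro μ _ hμ
    rw [notMem_support_iff.1 hμ, monomial_zero]

theorem map_uP {n d s e : ℕ} (p : Fin (n + 1) → ℕ → Polynomial K)
    (hp : ∀ j i, (p j i).natDegree ≤ e) (ψ : RR n d s e →+* K)
    (hψ : ∀ j i c, ψ (X (Sum.inr (j, i, c))) = (p j i).coeff c) (j : Fin (n + 1))
    (i : Fin (s + 1)) : (uP n d s e j i).map ψ = p j i := by
  rw [uP, Polynomial.map_sum]
  simp only [Polynomial.map_monomial, hψ]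
  rw [Fin.sum_univ_eq_sum_range (fun c : ℕ => Polynomial.monomial c ((p j i).coeff c)) (e + 1)]
  exact ((p j i).as_sum_range' (e + 1) (Nat.lt_succ_of_le (hp j i))).symm

/-- The values of the parameters. -/
noncomputable def uψ {n d s e : ℕ} (f : JJ n d → MvPolynomial (Fin (n + 1)) K)
    (p : Fin (n + 1) → ℕ → Polynomial K) : RR n d s e →+* K :=
  eval₂Hom (Int.castRingHom K) fun θ => match θ with
    | Sum.inl ⟨a, μ⟩ => coeff (μ : Fin (n + 1) →₀ ℕ) (f a)
    | Sum.inr (j, i, c) => (p j i).coeff c

/-- **Scalar recurrences give solutions of the universal system.** -/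
theorem sol_universal {n d s e : ℕ} (hs : 0 < s) (f : JJ n d → MvPolynomial (Fin (n + 1)) K)
    (hf : ∀ a, (f a).IsHomogeneous (a.1 : ℕ)) (p : Fin (n + 1) → ℕ → Polynomial K)
    (hp : ∀ j i, (p j i).natDegree ≤ e) (h0 : ∀ j, p j 0 ≠ 0) (h1 : ∀ j, p j s ≠ 0)
    (x : ℕ → Fin (n + 1) → K)
    (hx : ∀ j (m : ℕ), ∑ i ∈ Finset.range (s + 1), (p j i).eval (m : K) * x (m + i) j = 0)
    (hX : ∀ m a, aeval (x m) (f a) = 0) :
    Sol (uF n d s e) (fun j => (j, ⟨0, hs⟩)) (uA n d s e) (uB n d s e) (uψ f p)
      (fun m w => x (m + w.2) w.1) := by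
  classical
  have hψF : ∀ a, map (uψ f p) (uF n d s e a) = f a := map_uF f hf (uψ f p) (fun a μ => by
    rw [uψ, coe_eval₂Hom, eval₂_X])
  have hψP : ∀ j i, (uP n d s e j i).map (uψ f p) = p j i := map_uP p hp (uψ f p)
    (fun j i c => by rw [uψ, coe_eval₂Hom, eval₂_X])
  have hB : (uB n d s e).map (uψ f p) = ∏ j, p j s := by
    rw [uB, Polynomial.map_prod]
    simp only [hψP, Fin.val_last]
  have hB0 : (uB n d s e).map (uψ f p) ≠ 0 := by
    rw [hB]
    exact Finset.prod_ne_zero_iff.2 fun j _ => h1 j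
  refine ⟨hB0, ?_, fun m u => ?_, fun m a => ?_⟩
  · intro hdet
    have h2 : ((Polynomial.mapRingHom (uψ f p)).mapMatrix (uA n d s e)).det = 0 := by
      rw [← RingHom.map_det]
      exact hdet
    rw [← Matrix.exists_mulVec_eq_zero_iff] at h2
    obtain ⟨w, hw, hw0⟩ := h2
    apply hw
    have hrow : ∀ u : Fin (n + 1) × Fin s, ∑ v, ((uA n d s e u v).map (uψ f p)) * w v = 0 := by
      intro u
      have h3 := congrFun hw0 u
      rw [Matrix.mulVec, dotProduct] at h3
      exact h3
    have hsucc : ∀ (j : Fin (n + 1)) (i : ℕ) (hi : i + 1 < s), w (j, ⟨i + 1, hi⟩) = 0 := by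
      intro j i hi
      have h3 := hrow (j, ⟨i, by omega⟩)
      rw [Finset.sum_eq_single (j, ⟨i + 1, hi⟩)] at h3
      · rw [uA, Matrix.of_apply, if_pos rfl, if_neg (by
          change ¬ (i + 1 = s)
          omega), if_pos rfl] at h3
        exact (mul_eq_zero.1 h3).resolve_left hB0
      · rintro ⟨j', i'⟩ _ hne
        rw [uA, Matrix.of_apply]
        by_cases hj : j = j'
        · rw [if_pos hj, if_neg (by
            change ¬ (i + 1 = s)
            omega), if_neg (fun h4 => hne (by
              have h5 : (i' : ℕ) = i + 1 := h4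
              rw [← hj]
              congr 1
              exact Fin.ext h5)), Polynomial.map_zero, zero_mul]
        · rw [if_neg hj, Polynomial.map_zero, zero_mul]
      · intro h4
        exact absurd (Finset.mem_univ _) h4
    have hzero : ∀ j : Fin (n + 1), w (j, ⟨0, hs⟩) = 0 := by
      intro j
      have h3 := hrow (j, ⟨s - 1, by omega⟩)
      rw [Finset.sum_eq_single (j, ⟨0, hs⟩)] at h3
      · rw [uA, Matrix.of_apply, if_pos rfl, if_pos (by
          change s - 1 + 1 = s
          omega), Polynomial.map_neg, Polynomial.map_mul, Polynomial.map_prod] at h3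
        simp only [hψP] at h3
        refine (mul_eq_zero.1 h3).resolve_left (neg_ne_zero.2 (mul_ne_zero ?_ (h0 j)))
        exact Finset.prod_ne_zero_iff.2 fun j _ => h1 j
      · rintro ⟨j', i'⟩ _ hne
        by_cases hj : j = j'
        · obtain ⟨i', hi'⟩ := i'
          cases i' with
          | zero => exact absurd (by rw [hj]) hne
          | succ i' => rw [hsucc j' i' hi', mul_zero]
        · rw [uA, Matrix.of_apply, if_neg hj, Polynomial.map_zero, zero_mul]
      · intro h4
        exact absurd (Finset.mem_univ _) h4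
    funext ⟨j, i⟩
    obtain ⟨i, hi⟩ := i
    cases i with
    | zero => exact hzero j
    | succ i => exact hsucc j i hi
  · have hev : ∀ P : Polynomial (RR n d s e), evm (uψ f p) (m : K) P =
        (P.map (uψ f p)).eval (m : K) := by
      intro P
      rw [evm, Polynomial.coe_eval₂RingHom, Polynomial.eval_map]
    obtain ⟨j, i, hi⟩ := u
    rw [Fintype.sum_prod_type, Finset.sum_eq_single j]
    · by_cases his : i + 1 = s
      · have h2 : ∀ w : Fin s, evm (uψ f p) (m : K) (uA n d s e (j, ⟨i, hi⟩) (j, w)) *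
            x (m + w) j = -(∏ j' ∈ Finset.univ.erase j, (p j' s).eval (m : K)) *
              ((p j w).eval (m : K) * x (m + w) j) := by
          intro w
          rw [uA, Matrix.of_apply, if_pos rfl, if_pos his, hev, Polynomial.map_neg,
            Polynomial.map_mul, Polynomial.map_prod]
          simp only [hψP]
          rw [Polynomial.eval_neg, Polynomial.eval_mul, Polynomial.eval_prod]
          simp only [Fin.val_last, Fin.val_castSucc]
          ring
        rw [Finset.sum_congr rfl fun w _ => h2 w, ← Finset.mul_sum, hev, hB,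
          Polynomial.eval_prod, ← Finset.mul_prod_erase _ _ (Finset.mem_univ j),
          Fin.sum_univ_eq_sum_range (fun w : ℕ => (p j w).eval (m : K) * x (m + w) j) s]
        have h3 := hx j m
        rw [Finset.sum_range_succ] at h3
        have h4 : m + 1 + i = m + s := by omega
        dsimp only
        rw [h4]
        linear_combination (∏ j' ∈ Finset.univ.erase j, (p j' s).eval (m : K)) * h3
      · rw [Finset.sum_eq_single (⟨i + 1, by omega⟩ : Fin s)]
        · rw [uA, Matrix.of_apply, if_pos rfl, if_neg his, if_pos rfl]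
          dsimp only
          have h4 : m + 1 + i = m + (i + 1) := by omega
          rw [h4]
        · intro w _ hw
          rw [uA, Matrix.of_apply, if_pos rfl, if_neg his, if_neg (fun h4 => hw (Fin.ext h4)),
            map_zero, zero_mul]
        · intro h4
          exact absurd (Finset.mem_univ _) h4
    · intro j' _ hj
      refine Finset.sum_eq_zero fun w _ => ?_
      rw [uA, Matrix.of_apply, if_neg (fun h4 => hj h4.symm), map_zero, zero_mul]
    · intro h4
      exact absurd (Finset.mem_univ _) h4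
  · have h2 := hX m a
    rw [← hψF a, aeval_def, eval₂_map] at h2
    exact h2

end Pool.Agent.N626
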