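import Pool.Agent.N626.Hz

/-!
The uniform bound for scalar recurrences.
-/

set_option autoImplicit false

namespace Pool.Agent.N626

open MvPolynomial Pool.Agent.R393.UO Pool.Agent.R393.UH

/-- at most `r` points come from the first `r` members of a sequence -/
theorem first_pts {K : Type} [Field K] {n : ℕ} (x : ℕ → Fin (n + 1) → K) (r : ℕ) :
    ({P | ∃ m < r, ∃ h0 : x m ≠ 0, P = Projectivization.mk K (x m) h0} :
      Set (Projectivization K (Fin (n + 1) → K))).encard ≤ r := by
  have h4 : ∀ P ∈ ({P | ∃ m < r, ∃ h0 : x m ≠ 0, P = Projectivization.mk K (x m) h0} :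
      Set (Projectivization K (Fin (n + 1) → K))), ∃ m : ℕ, m < r ∧
        ∃ h0 : x m ≠ 0, P = Projectivization.mk K (x m) h0 := fun P hP => hP
  choose! f hf using h4
  have h5 : Set.encard ({P | ∃ m < r, ∃ h0 : x m ≠ 0, P = Projectivization.mk K (x m) h0} :
      Set (Projectivization K (Fin (n + 1) → K))) ≤ (Finset.range r : Set ℕ).encard := by
    apply Set.encard_le_encard_of_injOn (f := f)
    · intro P hP
      exact Finset.mem_coe.2 (Finset.mem_range.2 (hf P hP).1)
    · intro P hP Q hQ hPQ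
      obtain ⟨h0, e1⟩ := (hf P hP).2
      obtain ⟨h0', e2⟩ := (hf Q hQ).2
      rw [e1, e2]
      simp only [hPQ]
  refine h5.trans ?_
  rw [Set.encard_coe_eq_coe_finsetCard, Finset.card_range]

/-- **The uniform bound for scalar recurrences.** -/
theorem scalar_core (n d r e : ℕ) : ∃ T : ℕ, ∀ (K : Type) [Field K] [CharZero K] (ι : Type)
    (F : ι → MvPolynomial (Fin (n + 1)) K), (∀ i, ∃ e', e' ≤ d ∧ (F i).IsHomogeneous e') →
      ∀ x : ℕ → Fin (n + 1) → K, (∀ j, PRecOf r e fun m => x m j) →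
        (∀ m i, aeval (x m) (F i) = 0) → (offRat T F x).encard ≤ T := by
  classical
  have := countable_RR n d (r + 1) e
  obtain ⟨T, hT⟩ := core (π := fun j => (j, (⟨0, Nat.succ_pos r⟩ : Fin (r + 1))))
    (A := uA n d (r + 1) e) (B := uB n d (r + 1) e)
    (fun a => ⟨_, uF_hom n d (r + 1) e a⟩ : ∀ a, ∃ e', (uF n d (r + 1) e a).IsHomogeneous e')
  refine ⟨T + r, fun K _ _ ι F hF x hx hX => ?_⟩
  obtain ⟨f, f1, f2, f3⟩ := reduce F hF
  choose p hp h0 h1 hs using fun j => (hx j).exact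
  have hsol := sol_universal (Nat.succ_pos r) f f1 p hp h0 h1 (fun m => x (m + r)) hs
    (fun m a => aeval_span F _ (hX (m + r)) (f2 a))
  have h2 := hT K (uψ f p) _ hsol
  have hψF : ∀ a, map (uψ f p) (uF n d (r + 1) e a) = f a := map_uF f f1 (uψ f p) (fun a μ => by
    rw [uψ, coe_eval₂Hom, eval₂_X])
  have h3 : offRat (T + r) F x ⊆ {P | ∃ m < r, ∃ h0 : x m ≠ 0,
      P = Projectivization.mk K (x m) h0} ∪
      {P | ∃ (m : ℕ) (h0 : (fun l => x (m + 0 + r) l) ≠ 0),
        ((∀ g ∈ (⊥ : Ideal (MvPolynomial (Fin (n + 1) × Fin (r + 1))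
          (Polynomial (RR n d (r + 1) e)))), phi (uψ f p) (m : K)
            (fun w => x (m + w.2 + r) w.1) g = 0) ∧
        ¬ OnRatE T (fun i => map (uψ f p) (uF n d (r + 1) e i)) (fun l => x (m + 0 + r) l)) ∧
        P = Projectivization.mk K (fun l => x (m + 0 + r) l) h0} := by
    rintro P ⟨m, hm, hoff, hP⟩
    by_cases hmr : m < r
    · exact Or.inl ⟨m, hmr, hm, hP⟩
    · right
      obtain ⟨m', rfl⟩ : ∃ m', m = m' + r := ⟨m - r, by omega⟩
      refine ⟨m', hm, ⟨fun g hg => ?_, fun hon => hoff ?_⟩, hP⟩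
      · rw [(Submodule.mem_bot _).1 hg, map_zero]
      · refine onRatE_mono (Nat.le_add_right T r) (onRatE_span (f := f) ?_ f3)
        simp only [hψF] at hon
        exact hon
  refine (Set.encard_le_encard h3).trans ((Set.encard_union_le _ _).trans ?_)
  rw [add_comm]
  push_cast
  exact add_le_add h2 (first_pts x r)

/-- The bound. -/
noncomputable def BB (n d r e : ℕ) : ℕ := (scalar_core n d r e).choose

theorem BB_spec (n d r e : ℕ) (K : Type) [Field K] [CharZero K] (ι : Type)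
    (F : ι → MvPolynomial (Fin (n + 1)) K) (hF : ∀ i, ∃ e', e' ≤ d ∧ (F i).IsHomogeneous e')
    (x : ℕ → Fin (n + 1) → K) (hx : ∀ j, PRecOf r e fun m => x m j)
    (hX : ∀ m i, aeval (x m) (F i) = 0) : (offRat (BB n d r e) F x).encard ≤ BB n d r e :=
  (scalar_core n d r e).choose_spec K ι F hF x hx hX

end Pool.Agent.N626
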