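import Pool.Agent.N626.Ia
import Pool.Agent.TH717.GO.Hyp

/-!
P-recursive sequences of points and closed subsets.
-/

set_option autoImplicit false

namespace Pool.Agent.N626

open MvPolynomial Pool.Agent.R393.UO Pool.Agent.R393.UH Pool.Agent.Y377.ST
open Pool.Agent.R849.PR (RatIn curve_of_not exists_coeff_bound pts_inf)
open Pool.Agent.H533R3.SL (cur Uniruled)
open Pool.Agent.TH717.GO (hyper_poly)

/-- All coordinates of the sequence `x` of vectors satisfy linear recurrences of order at most `r`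
with polynomial coefficients of degree at most `e`. -/
def RecVec {L : Type} [Field L] {n : ℕ} (r e : ℕ) (x : ℕ → Fin (n + 1) → L) : Prop :=
  ∀ j, PRecOf r e fun m => x m j

theorem precOf_poly {L : Type} [Field L] (q : Polynomial L) {e : ℕ} (h : q.natDegree ≤ e) :
    PRecOf 1 e fun m => q.eval (m : L) := by
  by_cases hq : q = 0
  · refine ⟨fun _ => 1, fun _ => by simp, ⟨0, Nat.zero_le _, one_ne_zero⟩, fun m => ?_⟩
    rw [hq]
    simp
  · refine ⟨fun i => if i = 0 then -(q.comp (Polynomial.X + Polynomial.C 1)) else q, fun i => ?_,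
      ⟨1, le_rfl, by simpa using hq⟩, fun m => ?_⟩
    · beta_reduce
      split_ifs
      · rw [Polynomial.natDegree_neg]
        exact natDegree_shift _ _ h
      · exact h
    · rw [Finset.sum_range_succ, Finset.sum_range_one]
      beta_reduce
      rw [if_pos rfl, if_neg one_ne_zero, Polynomial.eval_neg, Polynomial.eval_comp, Polynomial.eval_add, Polynomial.eval_X,
        Polynomial.eval_C]
      push_cast
      ring_nf

theorem recVec_poly {L : Type} [Field L] {n : ℕ} (q : Fin (n + 1) → Polynomial L) {e : ℕ}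
    (h : ∀ j, (q j).natDegree ≤ e) : RecVec 1 e fun (m : ℕ) j => (q j).eval (m : L) :=
  fun j => precOf_poly (q j) (h j)

variable {k : Type} [Field k] {ι κ : Type} {n : ℕ}

/-- All P-recursive sequences of points of `F = 0`, of order at most `r` and degree at most `e`, over
all extensions `L` of `k`, have at most `B n d r e` points off `G = 0`. -/
def RecBounded (B : ℕ → ℕ → ℕ → ℕ → ℕ) (d : ℕ) (F : ι → MvPolynomial (Fin (n + 1)) k)
    (G : κ → MvPolynomial (Fin (n + 1)) k) : Prop :=
  ∀ (r e : ℕ) (L : Type) [Field L] [Algebra k L] (x : ℕ → Fin (n + 1) → L),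
    RecVec r e x → (∀ m i, aeval (x m) (F i) = 0) → (offPts G x).encard ≤ B n d r e

/-- All sequences of points of `F = 0` whose coordinates are the values of polynomials at the natural
numbers, over all extensions `L` of `k`, have finitely many points off `G = 0`. -/
def PolyFinite (F : ι → MvPolynomial (Fin (n + 1)) k) (G : κ → MvPolynomial (Fin (n + 1)) k) :
    Prop :=
  ∀ (L : Type) [Field L] [Algebra k L] (q : Fin (n + 1) → Polynomial L),
    (∀ (m : ℕ) i, aeval (fun j => (q j).eval (m : L)) (F i) = 0) →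
    (offPts G fun (m : ℕ) j => (q j).eval (m : L)).Finite

/-- The same over number fields. -/
def PolyFiniteNF (F : ι → MvPolynomial (Fin (n + 1)) k) (G : κ → MvPolynomial (Fin (n + 1)) k) :
    Prop :=
  ∀ (L : Type) [Field L] [NumberField L] [Algebra k L] (q : Fin (n + 1) → Polynomial L),
    (∀ (m : ℕ) i, aeval (fun j => (q j).eval (m : L)) (F i) = 0) →
    (offPts G fun (m : ℕ) j => (q j).eval (m : L)).Finite

theorem recBounded_of_rat [CharZero k] {d : ℕ} (F : ι → MvPolynomial (Fin (n + 1)) k)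
    (G : κ → MvPolynomial (Fin (n + 1)) k) (hF : ∀ i, ∃ e, e ≤ d ∧ (F i).IsHomogeneous e)
    (h : RatIn F G) : RecBounded BB d F G := by
  intro r e L _ _ x hx hX
  have : CharZero L := charZero_of_injective_algebraMap (algebraMap k L).injective
  refine (Set.encard_le_encard ?_).trans (BB_spec n d r e L ι
    (fun a => map (algebraMap k L) (F a))
    (fun i => by obtain ⟨e, he, hi⟩ := hF i; exact ⟨e, he, hi.map _⟩) x hx
    (fun m i => by rw [aeval_map_algebraMap]; exact hX m i))
  rintro P ⟨g, h0, ⟨l, hl⟩, hP⟩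
  refine ⟨g, h0, ?_, hP⟩
  rintro ⟨M, i1, i2, p, h1, h2, h3, i0, j0, h4⟩
  apply hl
  let _ : Algebra k M := ((algebraMap L M).comp (algebraMap k L)).toAlgebra
  have hcz : CharZero M := charZero_of_injective_algebraMap (algebraMap k M).injective
  have e1 : ∀ Q : MvPolynomial (Fin (n + 1)) k,
      (aeval p (map (algebraMap k L) Q) : Polynomial M) = aeval p Q := by
    intro Q
    rw [aeval_def, eval₂_map, aeval_def]
    rfl
  have h5 := h M p (fun i => by rw [← e1]; exact h2 i) (nc_ofE h4) l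
  have h6 := congrArg (Polynomial.eval 1) h5
  rw [← ev_poly, Polynomial.eval_zero] at h6
  have h7 : (fun j => (p j).eval 1) = fun j => algebraMap L M (x g j) := funext h3
  rw [h7] at h6
  apply (algebraMap L M).injective
  rw [map_zero, ← h6, aeval_def, aeval_def, hom_eval₂]
  rfl

theorem polyFinite_of_bounded {B : ℕ → ℕ → ℕ → ℕ → ℕ} {d : ℕ}
    {F : ι → MvPolynomial (Fin (n + 1)) k} {G : κ → MvPolynomial (Fin (n + 1)) k}
    (h : RecBounded B d F G) : PolyFinite F G := fun L _ _ q hq =>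
  Set.finite_of_encard_le_coe (h 1 (∑ j, (q j).natDegree) L _ (recVec_poly q fun j =>
    Finset.single_le_sum (f := fun j => (q j).natDegree) (fun _ _ => Nat.zero_le _)
      (Finset.mem_univ j)) hq)

/-- a nonconstant polynomial curve has infinitely many points with integral parameter -/
theorem curve_seqN {L : Type} [Field L] [Algebra k L] [CharZero L]
    (F : ι → MvPolynomial (Fin (n + 1)) k) (G : κ → MvPolynomial (Fin (n + 1)) k) (l0 : κ) {M : ℕ}
    (v : Fin M → Fin (n + 1) → L) (hF : ∀ i, aeval (cur v (fun j => (j : ℕ))) (F i) = 0)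
    (hc : ∃ i j, cur v (fun j => (j : ℕ)) i * Polynomial.C ((cur v (fun j => (j : ℕ)) j).eval 1) ≠
        cur v (fun j => (j : ℕ)) j * Polynomial.C ((cur v (fun j => (j : ℕ)) i).eval 1))
    (hG : aeval (fun i => (cur v (fun j => (j : ℕ)) i).eval 1) (G l0) ≠ 0) :
    (∀ (m : ℕ) i, aeval (fun j => (cur v (fun j => (j : ℕ)) j).eval (m : L)) (F i) = 0) ∧
      (offPts G fun (m : ℕ) j => (cur v (fun j => (j : ℕ)) j).eval (m : L)).Infinite := by
  refine ⟨fun h i => ?_, ?_⟩
  · rw [ev_poly, hF i, Polynomial.eval_zero]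
  · refine (pts_inf F G l0 v hF hc hG (Set.range fun m : ℕ => (m : L))
      (Set.infinite_range_of_injective Nat.cast_injective)).mono ?_
    rintro P ⟨t, ⟨_, ⟨m, rfl⟩, ht⟩, h1, h2, h3, h4⟩
    have e1 : (fun a => ∑ j, t j * v j a) = fun a =>
        (cur v (fun j => (j : ℕ)) a).eval ((m : ℕ) : L) := by
      funext a
      unfold Pool.Agent.H533R3.SL.cur
      rw [Polynomial.eval_finsetSum]
      refine Finset.sum_congr rfl fun j _ => ?_
      rw [ht j, Polynomial.eval_mul, Polynomial.eval_C, Polynomial.eval_pow, Polynomial.eval_X]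
      ring
    refine ⟨m, ?_, ?_, ?_⟩
    · intro h5
      apply h3
      rw [e1]
      exact h5
    · obtain ⟨l, hl⟩ := h2
      rw [e1] at hl
      exact ⟨l, hl⟩
    · rw [h4]
      congr 1

theorem rat_of_poly [CharZero k] (F : ι → MvPolynomial (Fin (n + 1)) k)
    (G : κ → MvPolynomial (Fin (n + 1)) k) (h : PolyFinite F G) : RatIn F G := by
  by_contra hcon
  obtain ⟨L, _, _, p, l0, hp, hc, hG⟩ := curve_of_not F G hcon
  obtain ⟨M, -, hM⟩ := exists_coeff_bound p
  rw [← hM] at hp hc hG
  have : CharZero L := charZero_of_injective_algebraMap (algebraMap k L).injective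
  obtain ⟨h1, h2⟩ := curve_seqN F G l0 _ hp hc hG
  exact h2 (h L _ h1)

theorem rat_of_polyNF [NumberField k] (F : ι → MvPolynomial (Fin (n + 1)) k)
    (G : κ → MvPolynomial (Fin (n + 1)) k) (h : PolyFiniteNF F G) : RatIn F G := by
  by_contra hcon
  obtain ⟨L, _, _, p, l0, hp, hc, hG⟩ := curve_of_not F G hcon
  obtain ⟨N, hN, -⟩ := exists_coeff_bound p
  obtain ⟨M, iF, iN, iA, v, hv1, hv2, hv3⟩ :=
    Pool.Agent.TH409.SH.specialise (n := n) k L p (Set.range F)
      (by
        rintro _ ⟨i, rfl⟩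
        exact hp i) N hN hc (G l0) hG
  obtain ⟨h1, h2⟩ := curve_seqN F G l0 v (fun i => hv1 _ ⟨i, rfl⟩) hv2 hv3
  exact h2 (h M _ h1)

/-- **One closed subset for all fields and all sequences.** -/
theorem strong_lang [CharZero k] {d : ℕ} (FF : Finset (MvPolynomial (Fin (n + 1)) k))
    (hFF : ∀ F ∈ FF, ∃ e, e ≤ d ∧ F.IsHomogeneous e)
    (hprime : (Ideal.span (FF : Set (MvPolynomial (Fin (n + 1)) k))).IsPrime)
    (hnu : ¬ Uniruled (Ideal.span (FF : Set (MvPolynomial (Fin (n + 1)) k)))) (r e : ℕ) :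
    ∃ G : MvPolynomial (Fin (n + 1)) k, (∃ c, G.IsHomogeneous c) ∧
      G ∉ Ideal.span (FF : Set (MvPolynomial (Fin (n + 1)) k)) ∧
      ∀ (L : Type) [Field L] [Algebra k L] (x : ℕ → Fin (n + 1) → L), RecVec r e x →
        (∀ m, ∀ F ∈ FF, aeval (x m) F = 0) →
        (offPts (fun _ : Unit => G) x).encard ≤ BB n d r e := by
  obtain ⟨G, hG1, hG2, hG3⟩ := hyper_poly FF hprime hnu
    (fun F hF => by obtain ⟨c, -, hc⟩ := hFF F hF; exact ⟨c, hc⟩) (BB n d r e + 1)
  refine ⟨G, hG1, hG2, fun L _ _ x hx hX => ?_⟩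
  have : CharZero L := charZero_of_injective_algebraMap (algebraMap k L).injective
  refine (Set.encard_le_encard ?_).trans (BB_spec n d r e L FF
    (fun a => map (algebraMap k L) (a : MvPolynomial (Fin (n + 1)) k))
    (fun i => by obtain ⟨e, he, hi⟩ := hFF i i.2; exact ⟨e, he, hi.map _⟩) x hx
    (fun m i => by rw [aeval_map_algebraMap]; exact hX m i i.2))
  rintro P ⟨g, h0, ⟨u, hl⟩, hP⟩
  refine ⟨g, h0, ?_, hP⟩
  rintro ⟨M, i1, i2, p, h1, h2, h3, i0, j0, h4⟩
  let _ : Algebra k M := ((algebraMap L M).comp (algebraMap k L)).toAlgebra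
  have e1 : ∀ Q : MvPolynomial (Fin (n + 1)) k,
      (aeval p (map (algebraMap k L) Q) : Polynomial M) = aeval p Q := by
    intro Q
    rw [aeval_def, eval₂_map, aeval_def]
    rfl
  apply h4
  refine hG3 M p (Finset.range (BB n d r e + 1)) (by rw [Finset.card_range]) (fun i => ?_)
    (fun F hF => by rw [← e1]; exact h2 ⟨F, hF⟩) ?_ i0 j0
  · intro s hs
    rw [Finset.mem_range]
    exact Nat.lt_succ_of_le ((Polynomial.le_natDegree_of_mem_supp s hs).trans (h1 i))
  · have h7 : (fun j => (p j).eval 1) = fun j => algebraMap L M (x g j) := funext h3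
    rw [h7]
    intro h8
    apply hl
    apply (algebraMap L M).injective
    rw [map_zero, ← h8, aeval_def, aeval_def, hom_eval₂]
    rfl

/-- the converse for uniruled varieties over number fields -/
theorem strong_converse {k : Type} [Field k] [NumberField k] {n : ℕ}
    (FF : Finset (MvPolynomial (Fin (n + 1)) k))
    (hu : Uniruled (Ideal.span (FF : Set (MvPolynomial (Fin (n + 1)) k)))) :
    ∃ e : ℕ, ∀ G : MvPolynomial (Fin (n + 1)) k, (∃ c, G.IsHomogeneous c) →
      G ∉ Ideal.span (FF : Set (MvPolynomial (Fin (n + 1)) k)) →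
      ∃ (L : Type) (_ : Field L) (_ : NumberField L) (_ : Algebra k L)
        (q : Fin (n + 1) → Polynomial L), (∀ j, (q j).natDegree ≤ e) ∧
        (∀ m : ℕ, ∀ F ∈ FF, aeval (fun j => (q j).eval (m : L)) F = 0) ∧
        (offPts (fun _ : Unit => G) fun (m : ℕ) j => (q j).eval (m : L)).Infinite := by
  classical
  obtain ⟨L, iL, iA, p, hp1, hp2, hp3⟩ := hu
  obtain ⟨N, hN⟩ : ∃ N, N = Finset.univ.sup (fun i => (p i).natDegree) + 1 := ⟨_, rfl⟩
  have hNc : ∀ i m, N ≤ m → (p i).coeff m = 0 := by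
    intro i m hm
    apply Polynomial.coeff_eq_zero_of_natDegree_lt
    have := Finset.le_sup (f := fun i => (p i).natDegree) (Finset.mem_univ i)
    omega
  refine ⟨N, fun G hG1 hG2 => ?_⟩
  obtain ⟨K, iK, iN, iAK, w, h1, h2, h3⟩ := Pool.Agent.TH409.SH.specialise k L p
    (FF : Set (MvPolynomial (Fin (n + 1)) k)) (by
      intro F hF
      exact hp1 F (Ideal.subset_span hF)) N hNc hp3 G (hp2 G hG1 hG2)
  obtain ⟨h4, h5⟩ := curve_seqN (fun F : FF => (F : MvPolynomial (Fin (n + 1)) k))
    (fun _ : Unit => G) () w (fun i => h1 i i.2) h2 h3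
  refine ⟨K, iK, iN, iAK, cur w (fun j => (j : ℕ)), fun j => ?_, fun m F hF => h4 m ⟨F, hF⟩, h5⟩
  unfold Pool.Agent.H533R3.SL.cur
  refine Polynomial.natDegree_sum_le_of_forall_le _ _ fun i _ => ?_
  exact (Polynomial.natDegree_C_mul_X_pow_le _ _).trans i.2.le

end Pool.Agent.N626
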