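import Pool.Agent.N626.Jm

/-!
The algebraic dichotomy for points of affine varieties given by monic linear difference equations.
-/

set_option autoImplicit false

namespace Pool.Agent.N626

open MvPolynomial

variable {D V : Type} [CommRing D] [IsDomain D] [Fintype V]

/-- a matrix of polynomials as a matrix over the field of rational functions -/
noncomputable def polM (A : Matrix V V (Polynomial D)) : Matrix V V (KK D) :=
  Matrix.of fun u w => algebraMap (Polynomial D) (KK D) (A u w)

theorem polM_det [DecidableEq V] (A : Matrix V V (Polynomial D)) (hA : A.det ≠ 0) :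
    (polM A).det ≠ 0 := by
  have h1 : polM A = (algebraMap (Polynomial D) (KK D)).mapMatrix A := by
    ext u w
    rw [polM, Matrix.of_apply, RingHom.mapMatrix_apply, Matrix.map_apply]
  rw [h1, ← RingHom.map_det, Ne, map_eq_zero_iff _ (IsFractionRing.injective (Polynomial D) (KK D))]
  exact hA

omit [IsDomain D] in
theorem card_S' (hD : Cardinal.mk D ≤ Cardinal.continuum) :
    Cardinal.mk (MvPolynomial V (KK D)) ≤ Cardinal.continuum := by
  have h1 : Cardinal.mk (KK D) ≤ Cardinal.continuum := by
    rw [Cardinal.mk_fractionRing]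
    exact Polynomial.cardinalMk_le_max.trans (max_le hD Cardinal.aleph0_le_continuum)
  refine MvPolynomial.cardinalMk_le_max.trans (max_le (max_le h1 ?_)
    Cardinal.aleph0_le_continuum)
  exact Cardinal.mk_le_aleph0.trans Cardinal.aleph0_le_continuum

/-- **The algebraic dichotomy for affine varieties.** -/
theorem alg_dich_log [CharZero D] [IsNoetherianRing D] (hD : Cardinal.mk D ≤ Cardinal.continuum)
    [DecidableEq V] {κ : Type} [Field κ] (γ : κ →+* D) {ι : Type} {n : ℕ}
    (π : Fin (n + 1) → V) (A : Matrix V V (Polynomial D)) (hA : A.det ≠ 0)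
    (𝔓 : Ideal (MvPolynomial V (KK D))) [h𝔓 : 𝔓.IsPrime] (f : ι → MvPolynomial (Fin (n + 1)) κ)
    (h1 : ∀ j, (sgS (polM A) ^ j) (X (π 0)) - 1 ∈ 𝔓)
    (hf : ∀ j i, (sgS (polM A) ^ j) (eval₂ ((cst D V).comp γ) (fun l => X (π l)) (f i)) ∈ 𝔓) :
    (∃ (M : Type) (_ : Field M) (_ : Algebra κ M) (W : Fin (n + 1) → Polynomial M),
      (∀ G : MvPolynomial (Fin (n + 1)) κ, (∃ e, G.IsHomogeneous e) →
        aeval W G = 0 → eval₂ ((cst D V).comp γ) (fun l => X (π l)) G ∈ 𝔓) ∧
      (∀ i, (∃ e, (f i).IsHomogeneous e) → aeval W (f i) = 0) ∧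
      (∃ (c : M) (k : ℕ), c ≠ 0 ∧ W 0 = Polynomial.C c * Polynomial.X ^ k) ∧
      ∃ u v, Polynomial.derivative (W u) * W v ≠ W u * Polynomial.derivative (W v)) ∨
    ∃ k : ℕ, 0 < k ∧ ∀ s i, (sgS (polM A) ^ (k * s)) (X (π i)) - X (π i) ∈ 𝔓 := by
  classical
  obtain ⟨k, 𝔮, hk, hq, hqP, hfq, hinv⟩ := exists_q (sgS (polM A)) (sgS_surj _ (polM_det A hA)) 𝔓
    (fun i : Option ι => match i with
      | none => X (π 0) - 1
      | some i => eval₂ ((cst D V).comp γ) (fun l => X (π l)) (f i)) (fun j i => by
      cases i with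
      | none =>
        change (sgS (polM A) ^ j) (X (π 0) - 1) ∈ 𝔓
        rw [map_sub, map_one]
        exact h1 j
      | some i => exact hf j i)
  have hq1 : X (π 0) - 1 ∈ 𝔮 := hfq none
  have hqf : ∀ i, eval₂ ((cst D V).comp γ) (fun l => X (π l)) (f i) ∈ 𝔮 := fun i => hfq (some i)
  obtain ⟨F, iF, e, τ, he, hτ, hcard⟩ := exists_field (sgS (polM A) ^ k) 𝔮 hinv
  have halg : Function.Injective (algebraMap (Polynomial D) (KK D)) :=
    IsFractionRing.injective (Polynomial D) (KK D)
  let ιp : Polynomial D →+* F := e.comp (C.comp (algebraMap (Polynomial D) (KK D)))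
  have hιp : Function.Injective ιp := (e.comp C).injective.comp halg
  have hcz : CharZero F := charZero_of_injective_ringHom (f := ιp.comp Polynomial.C)
    (hιp.comp Polynomial.C_injective)
  have hτp : ∀ p, τ (ιp p) = ιp (p.comp (Polynomial.X + Polynomial.C (k : D))) := by
    intro p
    change τ (e (C (algebraMap _ _ p))) = _
    rw [hτ, pow_C]
    rfl
  have hτc : ∀ c, τ (ιp (Polynomial.C c)) = ιp (Polynomial.C c) := by
    intro c
    rw [hτp, Polynomial.C_comp]
  have hk0 : (k : F) ≠ 0 := by exact_mod_cast hk.ne'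
  let Z : F := ιp Polynomial.X / k
  have hkZ : (k : F) * Z = ιp Polynomial.X := by
    simp only [Z]
    rw [mul_div_cancel₀ _ hk0]
  have hZ : τ Z = Z + 1 := by
    simp only [Z]
    rw [map_div₀, hτp, Polynomial.X_comp, map_add, map_natCast, map_natCast, map_natCast,
      add_div, div_self hk0]
  have hτj : ∀ (j : ℕ) s, (τ ^ j) (e s) = e (((sgS (polM A) ^ k) ^ j) s) := by
    intro j s
    induction j with
    | zero => rfl
    | succ j ih => rw [pow_succ', pow_succ', RingHom.mul_def, RingHom.comp_apply, ih, hτ]; rfl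
  have hev : ∀ q : Polynomial D, ((q.map (ιp.comp Polynomial.C)).comp
      (Polynomial.C (k : F) * Polynomial.X)).eval Z = ιp q := by
    intro q
    rw [Polynomial.eval_comp, Polynomial.eval_mul, Polynomial.eval_C, Polynomial.eval_X, hkZ,
      Polynomial.eval_map]
    have h2 : Polynomial.eval₂RingHom (ιp.comp Polynomial.C) (ιp Polynomial.X) = ιp :=
      Polynomial.ringHom_ext (fun c => by simp) (by simp)
    exact congrArg (fun g : Polynomial D →+* F => g q) h2
  have hfx : ∀ q : Polynomial D, ((q.map (ιp.comp Polynomial.C)).comp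
      (Polynomial.C (k : F) * Polynomial.X)).map τ = (q.map (ιp.comp Polynomial.C)).comp
      (Polynomial.C (k : F) * Polynomial.X) := by
    intro q
    have h2 : τ.comp (ιp.comp Polynomial.C) = ιp.comp Polynomial.C := RingHom.ext fun c => hτc c
    rw [Polynomial.map_comp, Polynomial.map_map, h2, Polynomial.map_mul, Polynomial.map_X,
      Polynomial.map_C, map_natCast]
  have hlin : ∀ w, LinD τ Z (e (X w)) := by
    intro w
    have h1 : ∀ j : ℕ, ∃ c, ((sgS (polM A) ^ k) ^ j) (X w) = lin c := by
      intro j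
      rw [lin_X, ← pow_mul]
      exact pow_lin _ _ _
    choose c hc using h1
    obtain ⟨p, ⟨j0, hj0, hp0⟩, hp⟩ := lin_dep c
    refine ⟨Fintype.card V, fun j => ((p j).map (ιp.comp Polynomial.C)).comp
      (Polynomial.C (k : F) * Polynomial.X), fun j => hfx _, ⟨j0, hj0, fun h0 => ?_⟩, ?_⟩
    · have h2 := hev (p j0)
      beta_reduce at h0
      rw [h0, Polynomial.eval_zero] at h2
      exact hp0 (hιp (h2.symm.trans (map_zero ιp).symm))
    · have h2 := congrArg e hp
      rw [map_sum, map_zero] at h2
      rw [← h2]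
      refine Finset.sum_congr rfl fun j _ => ?_
      rw [hev, hτj, hc, map_mul]
      rfl
  have hmon : ∀ (K : ℕ) w, MonD τ Z K (e (X w)) := by
    intro K w
    have h1 : ∀ j : ℕ, ∃ c : V → Polynomial D, (sgS (polM A) ^ (k * (K * j))) (X w) =
        lin fun w => algebraMap (Polynomial D) (KK D) (c w) := by
      intro j
      have h2 : (X w : MvPolynomial V (KK D)) =
          lin fun w' => algebraMap (Polynomial D) (KK D) ((Pi.single w 1 : V → Polynomial D) w') := by
        rw [lin_X]
        congr 1
        funext w'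
        by_cases hw : w' = w
        · rw [hw, Pi.single_eq_same, Pi.single_eq_same, map_one]
        · rw [Pi.single_eq_of_ne hw, Pi.single_eq_of_ne hw, map_zero]
      rw [h2]
      exact pow_linP A _ _
    choose c hc using h1
    obtain ⟨s, p, hp⟩ := mon_dep c
    have hτK : ∀ j, ((τ ^ K) ^ j) (e (X w)) =
        e (lin fun w => algebraMap (Polynomial D) (KK D) (c j w)) := by
      intro j
      rw [← pow_mul, hτj, ← pow_mul, hc]
    refine ⟨s, fun j => ((p j).map (ιp.comp Polynomial.C)).comp
      (Polynomial.C (k : F) * Polynomial.X), fun j => map_iter (hfx _) K, ?_⟩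
    rw [hτK]
    have h2 : (lin fun w => algebraMap (Polynomial D) (KK D) (c s w)) =
        ∑ j ∈ Finset.range s, C (algebraMap (Polynomial D) (KK D) (p j)) *
          lin fun w => algebraMap (Polynomial D) (KK D) (c j w) := by
      simp only [lin, Finset.mul_sum]
      rw [Finset.sum_comm]
      refine Finset.sum_congr rfl fun w' _ => ?_
      have h3 := congrFun hp w'
      rw [Finset.sum_apply] at h3
      simp only [Pi.smul_apply, smul_eq_mul] at h3
      rw [h3, map_sum, map_sum, Finset.sum_mul]
      refine Finset.sum_congr rfl fun j _ => ?_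
      rw [map_mul, map_mul]
      ring
    rw [h2, map_sum]
    refine Finset.sum_congr rfl fun j _ => ?_
    rw [hev, hτK, map_mul]
    rfl
  have hx0 : e (X (π 0)) = 1 := by
    have h2 := (he _).2 hq1
    rw [map_sub, map_one] at h2
    exact sub_eq_zero.1 h2
  let aF : Algebra κ F := ((ιp.comp Polynomial.C).comp γ).toAlgebra
  have haF : algebraMap κ F = e.comp ((cst D V).comp γ) := rfl
  have hκ : ∀ c : κ, τ (algebraMap κ F c) = algebraMap κ F c := fun c => hτc (γ c)
  have hae : ∀ G : MvPolynomial (Fin (n + 1)) κ, aeval (fun l => e (X (π l))) G =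
      e (eval₂ ((cst D V).comp γ) (fun l => X (π l)) G) := by
    intro G
    rw [aeval_def, haF, hom_eval₂]
  rcases dichotomy_log (κ := κ) (hcard.trans (card_S' hD)) hκ hZ
    (fun l => hlin (π l)) (fun K _ l => hmon K (π l)) hx0 with
    ⟨M, iM, aM, W, hW, hW0, hd⟩ | ⟨k', hk', hper⟩
  · left
    refine ⟨M, iM, aM, W, fun G hG h0 => ?_, fun i hi => ?_, hW0, hd⟩
    · apply hqP
      rw [← he, ← hae, ← hW _ hG]
      exact h0
    · exact (hW _ hi).2 (by rw [hae, he]; exact hqf i)
  · right
    have h1 : ∀ (s : ℕ) i, (τ ^ (k' * s)) (e (X (π i))) = e (X (π i)) := by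
      intro s i
      induction s with
      | zero => rfl
      | succ s ih => rw [mul_add, mul_one, pow_add, RingHom.mul_def, RingHom.comp_apply, hper, ih]
    refine ⟨k * k', Nat.mul_pos hk hk', fun s i => hqP ?_⟩
    rw [← he, map_sub, mul_assoc, pow_mul, ← hτj, h1, sub_self]

end Pool.Agent.N626
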