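import Pool.Agent.N626.Jv
import Pool.Agent.Y405.IL.Lgt

/-!
The curves of bounded degree in an affine variety of logarithmic general type which are images of
the punctured line lie on a hypersurface.
-/

set_option autoImplicit false

namespace Pool.Agent.N626

open MvPolynomial

section univ

variable {κ ι : Type} [Field κ] {n : ℕ}

/-- the ring of the coefficients of curves of degree at most `T` -/
abbrev CC (κ : Type) [Field κ] (n T : ℕ) : Type := MvPolynomial (Fin (n + 1) × Fin (T + 1)) κ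

/-- the universal curve of degree at most `T` -/
noncomputable def uC (κ : Type) [Field κ] (n T : ℕ) (j : Fin (n + 1)) : Polynomial (CC κ n T) :=
  ∑ c : Fin (T + 1), Polynomial.monomial (c : ℕ) (X (j, c))

/-- the coefficients of a curve -/
noncomputable def evC {T : ℕ} {M : Type} [Field M] [Algebra κ M] (p : Fin (n + 1) → Polynomial M) :
    CC κ n T →ₐ[κ] M := aeval fun jc => (p jc.1).coeff jc.2

theorem map_uC {T : ℕ} {M : Type} [Field M] [Algebra κ M] {p : Fin (n + 1) → Polynomial M}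
    (hp : ∀ j, (p j).natDegree ≤ T) (j : Fin (n + 1)) :
    (uC κ n T j).map (evC p : CC κ n T →ₐ[κ] M).toRingHom = p j := by
  rw [uC, Polynomial.map_sum]
  have h1 : ∀ c : Fin (T + 1), (Polynomial.monomial (c : ℕ) (X (j, c) : CC κ n T)).map
      (evC p : CC κ n T →ₐ[κ] M).toRingHom = Polynomial.monomial (c : ℕ) ((p j).coeff c) := by
    intro c
    rw [Polynomial.map_monomial]
    congr 1
    change evC p (X (j, c) : CC κ n T) = _
    rw [evC, aeval_X]
  rw [Finset.sum_congr rfl fun c _ => h1 c,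
    Fin.sum_univ_eq_sum_range (fun c : ℕ => Polynomial.monomial c ((p j).coeff c)) (T + 1)]
  exact ((p j).as_sum_range' (T + 1) (Nat.lt_succ_of_le (hp j))).symm

theorem aeval_uC {T : ℕ} {M : Type} [Field M] [Algebra κ M] (φ : CC κ n T →+* M)
    (hφ : φ.comp (algebraMap κ (CC κ n T)) = algebraMap κ M) (G : MvPolynomial (Fin (n + 1)) κ) :
    (aeval (uC κ n T) G : Polynomial (CC κ n T)).map φ =
      aeval (fun j => (uC κ n T j).map φ) G := by
  have h1 := MvPolynomial.map_aeval (g := uC κ n T) (Polynomial.mapRingHom φ) G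
  rw [Polynomial.coe_mapRingHom] at h1
  rw [h1, aeval_def, ← coe_eval₂Hom]
  congr 1
  congr 1
  ext c
  · rw [RingHom.comp_apply, Polynomial.coe_mapRingHom]
    have h2 : algebraMap κ (Polynomial (CC κ n T)) c =
        Polynomial.C (algebraMap κ (CC κ n T) c) := rfl
    have h3 : algebraMap κ (Polynomial M) c = Polynomial.C (algebraMap κ M c) := rfl
    rw [h2, h3, Polynomial.map_C, ← hφ, RingHom.comp_apply]

theorem aeval_p {T : ℕ} {M : Type} [Field M] [Algebra κ M] {p : Fin (n + 1) → Polynomial M}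
    (hp : ∀ j, (p j).natDegree ≤ T) (G : MvPolynomial (Fin (n + 1)) κ) :
    (aeval (uC κ n T) G : Polynomial (CC κ n T)).map (evC p : CC κ n T →ₐ[κ] M).toRingHom =
      aeval p G := by
  rw [aeval_uC _ (by ext c; exact (evC p : CC κ n T →ₐ[κ] M).commutes c)]
  congr 2
  funext j
  exact map_uC hp j

/-- a form outside `I` which vanishes on the curves with the relations in `𝔞` -/
def HypA (T : ℕ) (F : ι → MvPolynomial (Fin (n + 1)) κ) (I : Ideal (MvPolynomial (Fin (n + 1)) κ))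
    (𝔞 : Ideal (CC κ n T)) : Prop :=
  ∃ G : MvPolynomial (Fin (n + 1)) κ, (∃ e, G.IsHomogeneous e) ∧ G ∉ I ∧
    ∀ (M : Type) [Field M] [Algebra κ M] (p : Fin (n + 1) → Polynomial M), PLine T F M p →
      (∀ h ∈ 𝔞, (evC p : CC κ n T →ₐ[κ] M) h = 0) → aeval p G = 0

/-- **A hypersurface or a generic curve.** -/
theorem generic_line (T : ℕ) (F : ι → MvPolynomial (Fin (n + 1)) κ)
    (I : Ideal (MvPolynomial (Fin (n + 1)) κ)) (h1I : 1 ∉ I)
    (hI : ∀ G G' : MvPolynomial (Fin (n + 1)) κ, (∃ e, G.IsHomogeneous e) →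
      (∃ e, G'.IsHomogeneous e) → G * G' ∈ I → G ∈ I ∨ G' ∈ I) :
    (∃ G : MvPolynomial (Fin (n + 1)) κ, (∃ e, G.IsHomogeneous e) ∧ G ∉ I ∧ VanishPL T F G) ∨
    ∃ (M : Type) (_ : Field M) (_ : Algebra κ M) (W : Fin (n + 1) → Polynomial M),
      PLine T F M W ∧ ∀ G : MvPolynomial (Fin (n + 1)) κ, (∃ e, G.IsHomogeneous e) →
        aeval W G = 0 → G ∈ I := by
  classical
  by_contra hcon
  push Not at hcon
  obtain ⟨hc1, hc2⟩ := hcon
  have h0 : ¬ HypA T F I ⊥ := by
    rintro ⟨G, hG1, hG2, hG3⟩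
    refine hc1 G hG1 hG2 fun M _ _ p hp => hG3 M p hp fun h hh => ?_
    rw [(Submodule.mem_bot _).1 hh, map_zero]
  have hwf : WellFoundedGT (Ideal (CC κ n T)) := inferInstance
  obtain ⟨𝔞, ha, hmax⟩ := hwf.wf.has_min {𝔞 | ¬ HypA T F I 𝔞} ⟨⊥, h0⟩
  have hmx : ∀ 𝔟, 𝔞 < 𝔟 → HypA T F I 𝔟 := by
    intro 𝔟 hb
    by_contra h3
    exact hmax 𝔟 h3 hb
  have hvac : ¬ ∀ (M : Type) [Field M] [Algebra κ M] (p : Fin (n + 1) → Polynomial M),
      PLine T F M p → ¬ ∀ h ∈ 𝔞, (evC p : CC κ n T →ₐ[κ] M) h = 0 := by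
    intro hv
    exact ha ⟨1, ⟨0, isHomogeneous_one _ _⟩, h1I, fun M _ _ p hp h => absurd h (hv M p hp)⟩
  have hmem : ∀ g : CC κ n T, (∀ (M : Type) [Field M] [Algebra κ M]
      (p : Fin (n + 1) → Polynomial M), PLine T F M p →
      (∀ h ∈ 𝔞, (evC p : CC κ n T →ₐ[κ] M) h = 0) → (evC p : CC κ n T →ₐ[κ] M) g = 0) →
      g ∈ 𝔞 := by
    intro g hg
    by_contra hga
    obtain ⟨G, hG1, hG2, hG3⟩ := hmx _ (lt_sup_span hga)
    exact ha ⟨G, hG1, hG2, fun M _ _ p hp h => hG3 M p hp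
      (zero_sup (evC p : CC κ n T →ₐ[κ] M).toRingHom h (hg M p hp h))⟩
  have hprime : 𝔞.IsPrime := by
    refine ⟨fun htop => hvac fun M _ _ p _ h => ?_, fun {f g} hfg => ?_⟩
    · have h1 := h 1 (by rw [htop]; exact Submodule.mem_top)
      rw [map_one] at h1
      exact one_ne_zero h1
    · by_contra hfg'
      push Not at hfg'
      obtain ⟨G1, ⟨e1, hG1⟩, hG2, hG3⟩ := hmx _ (lt_sup_span hfg'.1)
      obtain ⟨G1', ⟨e1', hG1'⟩, hG2', hG3'⟩ := hmx _ (lt_sup_span hfg'.2)
      refine ha ⟨G1 * G1', ⟨_, hG1.mul hG1'⟩, fun hm =>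
        (hI _ _ ⟨e1, hG1⟩ ⟨e1', hG1'⟩ hm).elim hG2 hG2',
        fun M _ _ p hp h => ?_⟩
      rw [map_mul]
      have h4 := h _ hfg
      rw [map_mul] at h4
      rcases mul_eq_zero.1 h4 with h5 | h5
      · rw [hG3 M p hp (zero_sup (evC p : CC κ n T →ₐ[κ] M).toRingHom h h5), zero_mul]
      · rw [hG3' M p hp (zero_sup (evC p : CC κ n T →ₐ[κ] M).toRingHom h h5), mul_zero]
  obtain ⟨M, iM, μ, hμ⟩ := exists_mu 𝔞
  let aM : Algebra κ M := (μ.comp (algebraMap κ (CC κ n T))).toAlgebra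
  have haM : μ.comp (algebraMap κ (CC κ n T)) = algebraMap κ M := rfl
  let W : Fin (n + 1) → Polynomial M := fun j => (uC κ n T j).map μ
  have hWG : ∀ G : MvPolynomial (Fin (n + 1)) κ,
      aeval W G = (aeval (uC κ n T) G : Polynomial (CC κ n T)).map μ := fun G =>
    (aeval_uC μ haM G).symm
  have hzero : ∀ P : Polynomial (CC κ n T), P.map μ = 0 ↔ ∀ c, P.coeff c ∈ 𝔞 := by
    intro P
    rw [Polynomial.ext_iff]
    simp only [Polynomial.coeff_map, Polynomial.coeff_zero, hμ]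
  have hpz : ∀ (P : Polynomial (CC κ n T)), P.map μ = 0 → ∀ (M' : Type) [Field M'] [Algebra κ M']
      (p : Fin (n + 1) → Polynomial M'), (∀ h ∈ 𝔞, (evC p : CC κ n T →ₐ[κ] M') h = 0) →
      P.map (evC p : CC κ n T →ₐ[κ] M').toRingHom = 0 := by
    intro P hP M' _ _ p hp
    ext c
    rw [Polynomial.coeff_map, Polynomial.coeff_zero]
    exact hp _ ((hzero P).1 hP c)
  have hzp : ∀ P : Polynomial (CC κ n T), (∀ (M' : Type) [Field M'] [Algebra κ M']
      (p : Fin (n + 1) → Polynomial M'), PLine T F M' p →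
      (∀ h ∈ 𝔞, (evC p : CC κ n T →ₐ[κ] M') h = 0) →
      P.map (evC p : CC κ n T →ₐ[κ] M').toRingHom = 0) → P.map μ = 0 := by
    intro P hP
    rw [hzero]
    intro c
    refine hmem _ fun M' _ _ p hp h => ?_
    have h1 := congrArg (fun Q => Polynomial.coeff Q c) (hP M' p hp h)
    simp only [Polynomial.coeff_map, Polynomial.coeff_zero] at h1
    exact h1
  suffices hPL : PLine T F M W by
    obtain ⟨G, hG1, hG2, hG3⟩ := hc2 M iM aM W hPL
    refine ha ⟨G, hG1, hG3, fun M' _ _ p hp h => ?_⟩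
    rw [hWG] at hG2
    rw [← aeval_p hp.deg]
    exact hpz _ hG2 M' p h
  refine ⟨fun j => ?_, fun i => ?_, ?_, ?_⟩
  · refine Polynomial.natDegree_map_le.trans (Polynomial.natDegree_sum_le_of_forall_le _ _
      fun c _ => ?_)
    exact (Polynomial.natDegree_monomial_le _).trans (Nat.lt_succ_iff.1 c.2)
  · rw [hWG]
    refine hzp _ fun M' _ _ p hp h => ?_
    rw [aeval_p hp.deg]
    exact hp.on i
  · have h2 : ∀ k k' : Fin (T + 1), k ≠ k' → μ (X (0, k)) = 0 ∨ μ (X (0, k')) = 0 := by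
      intro k k' hk
      rw [← mul_eq_zero, ← map_mul, hμ]
      refine hmem _ fun M' _ _ p hp h => ?_
      obtain ⟨c, e, hc, he⟩ := hp.mon
      rw [map_mul, evC, aeval_X, aeval_X]
      dsimp only
      rw [he, Polynomial.coeff_C_mul_X_pow, Polynomial.coeff_C_mul_X_pow]
      by_cases hke : (k : ℕ) = e
      · rw [if_neg (c := (k' : ℕ) = e) (fun h3 => hk (Fin.ext (hke.trans h3.symm))), mul_zero]
      · rw [if_neg hke, zero_mul]
    have h3 : ∃ k : Fin (T + 1), μ (X (0, k)) ≠ 0 := by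
      by_contra hcon
      push Not at hcon
      refine hvac fun M' _ _ p hp h => ?_
      obtain ⟨c, e, hc, he⟩ := hp.mon
      have h4 : e ≤ T := by
        have h5 := hp.deg 0
        rwa [he, Polynomial.natDegree_C_mul_X_pow e c hc] at h5
      have h6 := h _ ((hμ _).1 (hcon ⟨e, Nat.lt_succ_of_le h4⟩))
      rw [evC, aeval_X] at h6
      dsimp only at h6
      rw [he, Polynomial.coeff_C_mul_X_pow, if_pos rfl] at h6
      exact hc h6
    obtain ⟨k, hk⟩ := h3
    refine ⟨μ (X (0, k)), k, hk, ?_⟩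
    change (uC κ n T 0).map μ = _
    rw [uC, Polynomial.map_sum, Finset.sum_eq_single k]
    · rw [Polynomial.map_monomial, Polynomial.C_mul_X_pow_eq_monomial]
    · intro k' _ hk'
      rw [Polynomial.map_monomial, (h2 k k' hk'.symm).resolve_left hk, Polynomial.monomial_zero_right]
    · intro h
      exact absurd (Finset.mem_univ k) h
  · by_contra hcon
    push Not at hcon
    refine hvac fun M' _ _ p hp h => ?_
    obtain ⟨u, v, huv⟩ := hp.nonconst
    apply huv
    have h1 := hpz (Polynomial.derivative (uC κ n T u) * uC κ n T v -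
      uC κ n T u * Polynomial.derivative (uC κ n T v)) (by
        have h4 := hcon u v
        simp only [W, Polynomial.derivative_map] at h4
        rw [Polynomial.map_sub, Polynomial.map_mul, Polynomial.map_mul, h4, sub_self]) M' p h
    rw [Polynomial.map_sub, Polynomial.map_mul, Polynomial.map_mul, ← Polynomial.derivative_map,
      ← Polynomial.derivative_map, map_uC hp.deg, map_uC hp.deg] at h1
    exact sub_eq_zero.1 h1

end univ

open Pool.Agent.TH143.GT (FunField)
open Pool.Agent.W602.GT (IsForm LogGeneralType)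
open Pool.Agent.W603.GR (OffQ)

/-- the forms in an ideal -/
def formsOf {κ : Type} [Field κ] {n : ℕ} (I : Ideal (MvPolynomial (Fin (n + 1)) κ))
    (G : {G : MvPolynomial (Fin (n + 1)) κ // G ∈ I ∧ ∃ e, G.IsHomogeneous e}) :
    MvPolynomial (Fin (n + 1)) κ := G.1

/-- **Images of punctured lines of bounded degree in varieties of logarithmic general type.** -/
theorem hyper_log {n : ℕ} {p : Ideal (MvPolynomial (Fin (n + 1)) ℂ)}
    {K : Type} [Field K] [Algebra ℂ K] {w : ℕ} {y : Fin (n + 1) → K}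
    (hy : FunField p (X 0) K w y)
    (hL : LogGeneralType ℂ K w (OffQ (X 0) 1 y)) (T : ℕ) :
    ∃ G : MvPolynomial (Fin (n + 1)) ℂ, (∃ e, G.IsHomogeneous e) ∧ G ∉ p ∧
      VanishPL T (formsOf p) G := by
  rcases generic_line T (formsOf p) p (fun h => by
    have h1 := hy.sub.mem 1 h
    rw [W602.GT.val, map_one] at h1
    exact one_ne_zero h1) (fun G G' hG hG' h => by
    have h1 := hy.sub.mem _ h
    rw [W602.GT.val, map_mul] at h1
    rcases mul_eq_zero.1 h1 with h2 | h2
    · exact Or.inl (hy.mem G hG h2)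
    · exact Or.inr (hy.mem G' hG' h2)) with h | ⟨M, iM, aM, W, hW, hG⟩
  · exact h
  · exfalso
    refine Pool.Agent.Y405.IL.t_LGT n p (X 0) 1 K w y (isHomogeneous_X _ _) hy M W
      (fun G hGf => ?_) (by rw [aeval_X]; exact hW.mon) hW.nonconst hL
    constructor
    · intro h0
      exact hW.on ⟨G, hy.mem G hGf h0, hGf⟩
    · intro h0
      exact hy.sub.mem G (hG G hGf h0)

end Pool.Agent.N626
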