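import Pool.Agent.N626.Ju

/-!
Sequences of points on images of the punctured line, and specialisation of these curves.
-/

set_option autoImplicit false

namespace Pool.Agent.N626

open MvPolynomial

variable {k ι : Type} [Field k] {n : ℕ}

/-- **Specialisation** to finite extensions. -/
theorem spec_PL {T : ℕ} {F : ι → MvPolynomial (Fin (n + 1)) k} {L : Type} [Field L] [Algebra k L]
    {p : Fin (n + 1) → Polynomial L} (hp : PLine T F L p) (G : MvPolynomial (Fin (n + 1)) k)
    (hG : aeval p G ≠ 0) :
    ∃ (K : Type) (_ : Field K) (_ : Algebra k K) (_ : Module.Finite k K)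
      (p' : Fin (n + 1) → Polynomial K), PLine T F K p' ∧ aeval p' G ≠ 0 := by
  classical
  obtain ⟨u, v, huv⟩ := hp.nonconst
  obtain ⟨c, e, hc, he⟩ := hp.mon
  obtain ⟨a, ha⟩ : ∃ a, (Polynomial.derivative (p u) * p v -
      p u * Polynomial.derivative (p v)).coeff a ≠ 0 := by
    by_contra h
    push Not at h
    apply huv
    rw [← sub_eq_zero]
    ext m
    rw [h m, Polynomial.coeff_zero]
  obtain ⟨b, hb⟩ : ∃ b, (aeval p G : Polynomial L).coeff b ≠ 0 := by
    by_contra h
    push Not at h
    apply hG
    ext m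
    rw [h m, Polynomial.coeff_zero]
  set δ : L := (Polynomial.derivative (p u) * p v -
      p u * Polynomial.derivative (p v)).coeff a with hδ
  set g : L := (aeval p G : Polynomial L).coeff b with hg
  let S : Finset L := (Finset.univ.image (fun q : Fin (n + 1) × Fin (T + 1) =>
    (p q.1).coeff q.2)) ∪ {(c * δ * g)⁻¹}
  let R : Subalgebra k L := Algebra.adjoin k (S : Set L)
  have hft : Algebra.FiniteType k R := by
    rw [← Subalgebra.fg_iff_finiteType]
    exact Subalgebra.fg_adjoin_finset S
  have hcR : ∀ (j : Fin (n + 1)) (m : ℕ), (p j).coeff m ∈ R := by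
    intro j m
    by_cases hm : m < T + 1
    · apply Algebra.subset_adjoin
      simp only [S, Finset.coe_union, Set.mem_union, Finset.mem_coe]
      left
      exact Finset.mem_image.2 ⟨(j, ⟨m, hm⟩), Finset.mem_univ _, rfl⟩
    · rw [Polynomial.coeff_eq_zero_of_natDegree_lt ((hp.deg j).trans_lt (by omega))]
      exact R.zero_mem
  have hinvR : (c * δ * g)⁻¹ ∈ R := by
    apply Algebra.subset_adjoin
    simp only [S, Finset.coe_union, Set.mem_union, Finset.mem_coe]
    right
    exact Finset.mem_singleton_self _
  have hex : ∀ j, ∃ P : Polynomial R, P.map (R.val : R →+* L) = p j := by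
    intro j
    have h1 : p j ∈ Polynomial.lifts (R.val : R →+* L) := by
      rw [Polynomial.lifts_iff_coeff_lifts]
      intro m
      exact ⟨⟨(p j).coeff m, hcR j m⟩, rfl⟩
    exact (Polynomial.mem_lifts _).1 h1
  choose P hP using hex
  have hRi : Function.Injective (R.val : R →+* L) := Subtype.val_injective
  have hPd : ∀ j, (P j).natDegree ≤ T := by
    intro j
    rw [← Polynomial.natDegree_map_eq_of_injective hRi, hP]
    exact hp.deg j
  have hev : ∀ H : MvPolynomial (Fin (n + 1)) k, (aeval P H : Polynomial R).map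
      (R.val : R →+* L) = aeval p H := by
    intro H
    have h1 := MvPolynomial.map_aeval (g := P) (Polynomial.mapRingHom (R.val : R →+* L)) H
    rw [Polynomial.coe_mapRingHom] at h1
    rw [h1, aeval_def, ← coe_eval₂Hom]
    congr 1
    congr 1
    · ext c
      rw [RingHom.comp_apply, Polynomial.coe_mapRingHom]
      have h2 : algebraMap k (Polynomial R) c = Polynomial.C (algebraMap k R c) := rfl
      have h3 : algebraMap k (Polynomial L) c = Polynomial.C (algebraMap k L c) := rfl
      rw [h2, h3, Polynomial.map_C]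
      rfl
    · funext j
      exact hP j
  obtain ⟨m, hm⟩ := Ideal.exists_maximal R
  let K := R ⧸ m
  let iK : Field K := Ideal.Quotient.field m
  have hfin : Module.Finite k K := by
    have h1 : Algebra.FiniteType k K :=
      hft.of_surjective (Ideal.Quotient.mkₐ k m) (Ideal.Quotient.mkₐ_surjective k m)
    exact finite_of_finite_type_of_isJacobsonRing k K
  let π : R →+* K := Ideal.Quotient.mk m
  have hπk : π.comp (algebraMap k R) = algebraMap k K := rfl
  have hunit : ∀ x y : R, ((x : L) * y = 1) → π x ≠ 0 := by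
    intro x y hxy h0
    have h1 : x * y = 1 := Subtype.ext hxy
    have h2 := congrArg π h1
    rw [map_mul, h0, zero_mul, map_one] at h2
    exact zero_ne_one h2
  have hev' : ∀ H : MvPolynomial (Fin (n + 1)) k, (aeval P H : Polynomial R).map π =
      aeval (fun j => (P j).map π) H := by
    intro H
    have h1 := MvPolynomial.map_aeval (g := P) (Polynomial.mapRingHom π) H
    rw [Polynomial.coe_mapRingHom] at h1
    rw [h1, aeval_def, ← coe_eval₂Hom]
    congr 1
    congr 1
    ext c
    rw [RingHom.comp_apply, Polynomial.coe_mapRingHom]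
    have h2 : algebraMap k (Polynomial R) c = Polynomial.C (algebraMap k R c) := rfl
    have h3 : algebraMap k (Polynomial K) c = Polynomial.C (algebraMap k K c) := rfl
    rw [h2, h3, Polynomial.map_C]
    rfl
  have hcδg : c * δ * g ≠ 0 := mul_ne_zero (mul_ne_zero hc ha) hb
  have hinj0 : ∀ Q : Polynomial R, Q.map (R.val : R →+* L) = 0 → Q = 0 := fun Q hQ =>
    Polynomial.map_injective _ hRi (by rw [hQ, Polynomial.map_zero])
  have h3 : δ = ((Polynomial.derivative (P u) * P v -
      P u * Polynomial.derivative (P v)).coeff a : R) := by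
    have h3 : δ = ((Polynomial.derivative (P u) * P v -
      P u * Polynomial.derivative (P v)).map (R.val : R →+* L)).coeff a := by
      rw [Polynomial.map_sub, Polynomial.map_mul, Polynomial.map_mul,
        ← Polynomial.derivative_map, ← Polynomial.derivative_map, hP, hP]
    rw [h3, Polynomial.coeff_map]
    rfl
  have h4 : g = ((aeval P G : Polynomial R).coeff b : R) := by
    rw [hg, ← hev, Polynomial.coeff_map]
    rfl
  have h5 : c = ((P 0).coeff e : R) := by
    have h1 : ((P 0).map (R.val : R →+* L)).coeff e = c := by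
      rw [hP, he, Polynomial.coeff_C_mul_X_pow, if_pos rfl]
    rw [Polynomial.coeff_map] at h1
    exact h1.symm
  clear_value δ g
  have hcR' : c ∈ R := by
    rw [h5]
    exact Subtype.prop _
  have hgR : g ∈ R := by
    rw [h4]
    exact Subtype.prop _
  have hδR : δ ∈ R := by
    rw [h3]
    exact Subtype.prop _
  refine ⟨K, iK, inferInstance, hfin, fun j => (P j).map π, ⟨fun j => ?_, fun i => ?_, ?_, ?_⟩, ?_⟩
  · exact Polynomial.natDegree_map_le.trans (hPd j)
  · rw [← hev', hinj0 _ ((hev _).trans (hp.on i)), Polynomial.map_zero]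
  · have h1 : P 0 = Polynomial.C ((P 0).coeff e) * Polynomial.X ^ e := by
      apply Polynomial.map_injective _ hRi
      rw [hP, he, Polynomial.map_mul, Polynomial.map_pow, Polynomial.map_C, Polynomial.map_X]
      congr 2
    refine ⟨π ((P 0).coeff e), e, ?_, ?_⟩
    · refine hunit _ ((⟨_, hinvR⟩ : R) * ⟨δ, hδR⟩ * ⟨g, hgR⟩) ?_
      rw [← h5]
      change c * ((c * δ * g)⁻¹ * δ * g) = 1
      field_simp
    · conv_lhs => rw [h1]
      rw [Polynomial.map_mul, Polynomial.map_pow, Polynomial.map_C, Polynomial.map_X]
  · refine ⟨u, v, fun h0 => ?_⟩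
    have h6 : π ((Polynomial.derivative (P u) * P v -
        P u * Polynomial.derivative (P v)).coeff a) = 0 := by
      rw [← Polynomial.coeff_map, Polynomial.map_sub, Polynomial.map_mul, Polynomial.map_mul,
        ← Polynomial.derivative_map, ← Polynomial.derivative_map, h0, sub_self,
        Polynomial.coeff_zero]
    refine hunit _ ((⟨_, hinvR⟩ : R) * ⟨c, hcR'⟩ * ⟨g, hgR⟩) ?_ h6
    rw [← h3]
    change δ * ((c * δ * g)⁻¹ * c * g) = 1
    field_simp
  · intro h0
    rw [← hev'] at h0
    have h6 : π ((aeval P G : Polynomial R).coeff b) = 0 := by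
      rw [← Polynomial.coeff_map, h0, Polynomial.coeff_zero]
    refine hunit _ ((⟨_, hinvR⟩ : R) * ⟨c, hcR'⟩ * ⟨δ, hδR⟩) ?_ h6
    rw [← h4]
    change g * ((c * δ * g)⁻¹ * c * δ) = 1
    field_simp

end Pool.Agent.N626
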