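import Pool.Agent.N626.Jj

/-!
Sequences of points on images of the punctured line.
-/

set_option autoImplicit false

namespace Pool.Agent.N626

open MvPolynomial

/-- sums of exponentials satisfy monic recurrences -/
theorem exp_rec {L : Type} [Field L] (b lam : ℕ → L) (T : ℕ) :
    MRec (T + 1) 0 fun m => ∑ i ∈ Finset.range (T + 1), b i * lam i ^ m := by
  classical
  let Q : Polynomial L := ∏ i ∈ Finset.range (T + 1), (Polynomial.X - Polynomial.C (lam i))
  have hQm : Q.Monic := Polynomial.monic_prod_of_monic _ _ fun i _ => Polynomial.monic_X_sub_C _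
  have hQd : Q.natDegree = T + 1 := by
    simp only [Q]
    rw [Polynomial.natDegree_prod_of_monic _ _ fun i _ => Polynomial.monic_X_sub_C _]
    simp
  have hQ0 : ∀ i ∈ Finset.range (T + 1), lam i ^ (T + 1) =
      ∑ l ∈ Finset.range (T + 1), -Q.coeff l * lam i ^ l := by
    intro i hi
    have h1 : Q.eval (lam i) = 0 := by
      simp only [Q, Polynomial.eval_prod]
      exact Finset.prod_eq_zero hi (by simp)
    rw [Polynomial.eval_eq_sum_range, hQd, Finset.sum_range_succ] at h1
    have h2 : Q.coeff (T + 1) = 1 := by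
      rw [← hQd]
      exact hQm
    rw [h2, one_mul] at h1
    rw [eq_neg_of_add_eq_zero_right h1, ← Finset.sum_neg_distrib]
    exact Finset.sum_congr rfl fun l _ => by ring
  refine ⟨fun l => Polynomial.C (-Q.coeff l), fun l => by simp, fun m => ?_⟩
  simp only [Polynomial.eval_C]
  have h3 : ∀ i ∈ Finset.range (T + 1), b i * lam i ^ (m + (T + 1)) =
      ∑ l ∈ Finset.range (T + 1), -Q.coeff l * (b i * lam i ^ (m + l)) := by
    intro i hi
    rw [pow_add, hQ0 i hi, Finset.mul_sum, Finset.mul_sum]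
    refine Finset.sum_congr rfl fun l _ => ?_
    rw [pow_add]
    ring
  rw [Finset.sum_congr rfl h3, Finset.sum_comm]
  refine Finset.sum_congr rfl fun l _ => ?_
  rw [Finset.mul_sum]

theorem MRec.deg {K : Type} [Field K] {r e e' : ℕ} {a : ℕ → K} (h : MRec r e a) (he : e ≤ e') :
    MRec r e' a := by
  obtain ⟨p, h1, h2⟩ := h
  exact ⟨p, fun i => (h1 i).trans he, h2⟩

variable {k ι : Type} [Field k] {n : ℕ} {T : ℕ} {F : ι → MvPolynomial (Fin (n + 1)) k}
  {L : Type} [Field L] [Algebra k L] {p : Fin (n + 1) → Polynomial L}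

/-- the points of the curve at the powers of `2` -/
noncomputable def plSeq (p : Fin (n + 1) → Polynomial L) (m : ℕ) (j : Fin (n + 1)) : L :=
  (p j).eval (2 ^ m) / (p 0).eval (2 ^ m)

theorem PLine.ne0 [CharZero L] (hp : PLine T F L p) (m : ℕ) :
    (p 0).eval ((2 : L) ^ m) ≠ 0 := by
  obtain ⟨c, e, hc, he⟩ := hp.mon
  rw [he, Polynomial.eval_mul, Polynomial.eval_C, Polynomial.eval_pow, Polynomial.eval_X]
  exact mul_ne_zero hc (pow_ne_zero _ (pow_ne_zero _ two_ne_zero))

theorem PLine.seq_zero [CharZero L] (hp : PLine T F L p) (m : ℕ) : plSeq p m 0 = 1 :=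
  div_self (hp.ne0 m)

theorem seq_form (p : Fin (n + 1) → Polynomial L) {H : MvPolynomial (Fin (n + 1)) k} {d : ℕ}
    (hH : H.IsHomogeneous d) (m : ℕ) :
    aeval (plSeq p m) H = ((p 0).eval ((2 : L) ^ m))⁻¹ ^ d *
      (aeval p H : Polynomial L).eval ((2 : L) ^ m) := by
  rw [eval_aeval', ← form_scale' hH]
  congr 2
  funext j
  rw [plSeq, div_eq_inv_mul]

theorem PLine.seq_on (hp : PLine T F L p) (hom : ∀ i, ∃ e, (F i).IsHomogeneous e) (m : ℕ) (i : ι) :
    aeval (plSeq p m) (F i) = 0 := by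
  obtain ⟨e, he⟩ := hom i
  rw [seq_form p he, hp.on i, Polynomial.eval_zero, mul_zero]

theorem PLine.seq_eq [CharZero L] (hp : PLine T F L p) (c : L) (e : ℕ) (hc : c ≠ 0)
    (he : p 0 = Polynomial.C c * Polynomial.X ^ e) (m : ℕ) (j : Fin (n + 1)) :
    plSeq p m j = ∑ i ∈ Finset.range (T + 1), (p j).coeff i / c * ((2 : L) ^ i / 2 ^ e) ^ m := by
  have h2 : (2 : L) ≠ 0 := two_ne_zero
  rw [plSeq, Polynomial.eval_eq_sum_range' (Nat.lt_succ_of_le (hp.deg j)), he,
    Polynomial.eval_mul, Polynomial.eval_C, Polynomial.eval_pow, Polynomial.eval_X,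
    Finset.sum_div]
  refine Finset.sum_congr rfl fun i _ => ?_
  rw [div_pow, ← pow_mul, ← pow_mul, ← pow_mul, ← pow_mul, mul_comm m i, mul_comm m e]
  field_simp

theorem PLine.seq_rec [CharZero L] (hp : PLine T F L p) (j : Fin (n + 1)) :
    MRec (T + 1) 0 fun m => plSeq p m j := by
  obtain ⟨c, e, hc, he⟩ := hp.mon
  have h1 := exp_rec (fun i => (p j).coeff i / c) (fun i => (2 : L) ^ i / 2 ^ e) T
  simp only [hp.seq_eq c e hc he]
  exact h1

theorem two_pow_inj [CharZero L] : Function.Injective fun m : ℕ => (2 : L) ^ m := by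
  intro a b hab
  have h1 : ((2 ^ a : ℕ) : L) = (2 ^ b : ℕ) := by
    push_cast
    exact hab
  exact Nat.pow_right_injective le_rfl (Nat.cast_injective h1)

theorem finite_roots [CharZero L] {P : Polynomial L} (hP : P ≠ 0) :
    {m : ℕ | P.eval ((2 : L) ^ m) = 0}.Finite := by
  classical
  have h1 : (fun m : ℕ => (2 : L) ^ m) ⁻¹' ((P.roots.toFinset : Finset L) : Set L) =
      {m : ℕ | P.eval ((2 : L) ^ m) = 0} := by
    ext m
    rw [Set.mem_preimage, Finset.mem_coe, Multiset.mem_toFinset, Polynomial.mem_roots hP]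
    rfl
  rw [← h1]
  exact (Finset.finite_toSet _).preimage two_pow_inj.injOn

/-- the points of `x` off the common zeros of the forms `G` -/
def offG {κ : Type} (G : κ → MvPolynomial (Fin (n + 1)) k) (x : ℕ → Fin (n + 1) → L) :
    Set (Fin (n + 1) → L) :=
  {y | ∃ m, (∃ l, aeval (x m) (G l) ≠ 0) ∧ y = x m}

/-- infinitely many points -/
theorem PLine.seq_inf [CharZero L] (hp : PLine T F L p) {κ : Type}
    (G : κ → MvPolynomial (Fin (n + 1)) k) (l : κ) {d : ℕ} (hG : (G l).IsHomogeneous d)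
    (hpG : aeval p (G l) ≠ 0) : (offG G (plSeq p)).Infinite := by
  classical
  obtain ⟨j, hj⟩ : ∃ j, ∀ y : L, p j ≠ Polynomial.C y * p 0 := by
    by_contra hcon
    push Not at hcon
    choose y hy using hcon
    obtain ⟨u, v, huv⟩ := hp.nonconst
    apply huv
    rw [hy u, hy v, Polynomial.derivative_mul, Polynomial.derivative_mul, Polynomial.derivative_C,
      Polynomial.derivative_C]
    ring
  intro hfin
  have h1 : (plSeq p ⁻¹' (offG G (plSeq p))).Finite := by
    refine Set.Finite.preimage' hfin fun b _ => ?_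
    have h2 : p j - Polynomial.C (b j) * p 0 ≠ 0 := sub_ne_zero.2 (hj (b j))
    refine (finite_roots h2).subset fun m hm => ?_
    have h3 : plSeq p m = b := hm
    have h4 : plSeq p m j = b j := by rw [h3]
    rw [plSeq, div_eq_iff (hp.ne0 m)] at h4
    change (p j - Polynomial.C (b j) * p 0).eval ((2 : L) ^ m) = 0
    rw [Polynomial.eval_sub, Polynomial.eval_mul, Polynomial.eval_C, h4, sub_self]
  have h2 : (Set.univ : Set ℕ) ⊆ (plSeq p ⁻¹' (offG G (plSeq p))) ∪
      {m : ℕ | (aeval p (G l) : Polynomial L).eval ((2 : L) ^ m) = 0} := by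
    intro m _
    by_cases hm : (aeval p (G l) : Polynomial L).eval ((2 : L) ^ m) = 0
    · exact Or.inr hm
    · refine Or.inl ⟨m, ⟨l, ?_⟩, rfl⟩
      rw [seq_form p hG]
      exact mul_ne_zero (pow_ne_zero _ (inv_ne_zero (hp.ne0 m))) hm
  exact Set.infinite_univ ((h1.union (finite_roots hpG)).subset h2)

/-- the ring of `N`-integers -/
def NInt {L : Type} [Field L] (N : ℕ) (x : L) : Prop := ∃ a : ℕ, IsIntegral ℤ ((N : L) ^ a * x)

/-- The points of the sequence are `N`-integral for some `N`. -/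
theorem PLine.seq_int [NumberField L] (hp : PLine T F L p) :
    ∃ N : ℕ, 0 < N ∧ ∀ m j, NInt N (plSeq p m j) := by
  classical
  obtain ⟨c, e, hc, he⟩ := hp.mon
  obtain ⟨y, hy, hyi⟩ := exists_integral_multiples ℤ ℚ (L := L)
    ((Finset.univ ×ˢ Finset.range (T + 1)).image fun q : Fin (n + 1) × ℕ => (p q.1).coeff q.2 / c)
  have hnat : ∀ a : ℕ, IsIntegral ℤ (a : L) := by
    intro a
    have h1 := isIntegral_algebraMap (R := ℤ) (A := L) (x := (a : ℤ))
    rwa [eq_intCast, Int.cast_natCast] at h1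
  have h2 : (2 : L) ≠ 0 := two_ne_zero
  have hD : ∀ j, ∀ i ∈ Finset.range (T + 1), IsIntegral ℤ ((y.natAbs : L) *
      ((p j).coeff i / c)) := by
    intro j i hi
    have h1 := hyi _ (Finset.mem_image.2 ⟨(j, i), Finset.mem_product.2 ⟨Finset.mem_univ _, hi⟩, rfl⟩)
    rw [zsmul_eq_mul] at h1
    rcases Int.natAbs_eq y with h3 | h3
    · have h4 : (y : L) = (y.natAbs : L) := by
        conv_lhs => rw [h3]
        simp
      rw [← h4]
      exact h1
    · have h4 : (y.natAbs : L) = -(y : L) := by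
        conv_rhs => rw [h3]
        simp
      rw [h4, neg_mul]
      exact h1.neg
  refine ⟨2 * y.natAbs, Nat.mul_pos two_pos (Int.natAbs_pos.2 hy), fun m j => ⟨e * m + 1, ?_⟩⟩
  have h3 : ((2 * y.natAbs : ℕ) : L) ^ (e * m + 1) * plSeq p m j =
      2 * (y.natAbs : L) ^ (e * m) * ∑ i ∈ Finset.range (T + 1),
        ((y.natAbs : L) * ((p j).coeff i / c)) * 2 ^ (i * m) := by
    rw [hp.seq_eq c e hc he, Finset.mul_sum, Finset.mul_sum]
    refine Finset.sum_congr rfl fun i _ => ?_
    push_cast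
    rw [div_pow, ← pow_mul, ← pow_mul, mul_pow, pow_succ, pow_succ]
    field_simp
  rw [h3]
  refine IsIntegral.mul (IsIntegral.mul ?_ (IsIntegral.pow (hnat _) _)) (IsIntegral.sum _
    fun i hi => IsIntegral.mul (hD j i hi) ?_)
  · have h4 := hnat 2
    push_cast at h4
    exact h4
  · have h4 := (hnat 2).pow (i * m)
    push_cast at h4
    exact h4

end Pool.Agent.N626
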