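import Pool.Agent.N626.Dh

/-!
Rational solutions of monic linear difference equations are polynomials.
-/

set_option autoImplicit false

namespace Pool.Agent.N626

variable {F : Type} [Field F]

/-- monic linear difference equations for the power `σ ^ K` of the shift -/
def MonD (σ : F →+* F) (Z : F) (K : ℕ) (y : F) : Prop :=
  ∃ (s : ℕ) (c : ℕ → Polynomial F), (∀ j, (c j).map (σ ^ K) = c j) ∧
    ((σ ^ K) ^ s) y = ∑ j ∈ Finset.range s, (c j).eval Z * ((σ ^ K) ^ j) y

theorem lift_fix {τ : F →+* F} {P : Polynomial F} (hP : P.map τ = P) :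
    ∃ P' : Polynomial (RingHom.eqLocusField τ (RingHom.id F)),
      P'.map (RingHom.eqLocusField τ (RingHom.id F)).subtype = P := by
  have h1 : P ∈ Polynomial.lifts (RingHom.eqLocusField τ (RingHom.id F)).subtype := by
    rw [Polynomial.lifts_iff_coeff_lifts]
    intro n
    refine ⟨⟨P.coeff n, ?_⟩, rfl⟩
    have h2 := congrArg (fun q => Polynomial.coeff q n) hP
    simp only [Polynomial.coeff_map] at h2
    exact h2
  exact (Polynomial.mem_lifts P).1 h1

/-- infinite descent for roots -/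
theorem no_roots {Ω : Type} [Field Ω] [CharZero Ω] {P : Polynomial Ω} (hP : P ≠ 0) {K : ℕ}
    (hK : 0 < K) (h : ∀ β, P.eval β = 0 → ∃ i : ℕ, 0 < i ∧ P.eval (β - (i * K : ℕ)) = 0) :
    ∀ β, P.eval β ≠ 0 := by
  classical
  intro β hβ
  have h1 : ∀ N : ℕ, ∃ M, N ≤ M ∧ P.eval (β - (M * K : ℕ)) = 0 := by
    intro N
    induction N with
    | zero => exact ⟨0, le_rfl, by simpa using hβ⟩
    | succ N ih =>
      obtain ⟨M, hM, h2⟩ := ih
      obtain ⟨i, hi, h3⟩ := h _ h2
      refine ⟨M + i, by omega, ?_⟩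
      have h4 : β - ((M + i) * K : ℕ) = β - (M * K : ℕ) - (i * K : ℕ) := by
        push_cast
        ring
      rw [h4]
      exact h3
  have h2 : {M : ℕ | P.eval (β - (M * K : ℕ)) = 0}.Infinite := by
    rw [Set.infinite_iff_exists_gt]
    intro N
    obtain ⟨M, hM, h3⟩ := h1 (N + 1)
    exact ⟨M, h3, by omega⟩
  have h3 : Function.Injective fun M : ℕ => β - ((M * K : ℕ) : Ω) := by
    intro a b hab
    have h4 : ((a * K : ℕ) : Ω) = (b * K : ℕ) := sub_right_injective hab
    exact Nat.eq_of_mul_eq_mul_right hK (Nat.cast_injective h4)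
  apply (h2.image h3.injOn)
  refine (P.roots.toFinset.finite_toSet).subset ?_
  rintro _ ⟨M, hM, rfl⟩
  rw [Finset.mem_coe, Multiset.mem_toFinset, Polynomial.mem_roots hP]
  exact hM

/-- **Rational solutions of monic equations are polynomials.** -/
theorem poly_of_monic [CharZero F] {σ : F →+* F} {Z : F} (hZ : σ Z = Z + 1) {K : ℕ}
    (hK : 0 < K) {y : F} {P R : Polynomial F} (hP : P.map (σ ^ K) = P)
    (hR : R.map (σ ^ K) = R) (hP0 : P.eval Z ≠ 0) (hy : P.eval Z * y = R.eval Z)
    (hm : MonD σ Z K y) : ∃ W : Polynomial F, W.map (σ ^ K) = W ∧ W.eval Z = y := by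
  classical
  obtain ⟨s, c, hc, hs⟩ := hm
  let κ := RingHom.eqLocusField (σ ^ K) (RingHom.id F)
  let ev : Polynomial κ →+* F := (Polynomial.evalRingHom Z).comp
    (Polynomial.mapRingHom κ.subtype)
  have hev : ∀ G, ev G = (G.map κ.subtype).eval Z := fun G => rfl
  have hfix : ∀ G : Polynomial κ, (G.map κ.subtype).map (σ ^ K) = G.map κ.subtype := by
    intro G
    rw [Polynomial.map_map]
    congr 1
    ext a
    exact a.2
  have hinj : ∀ G, ev G = 0 → G = 0 := by
    intro G hG
    by_contra hne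
    refine eval_Z_ne inferInstance hZ hK (hfix G) ?_ hG
    rwa [Ne, Polynomial.map_eq_zero]
  have hcz : CharZero κ := ⟨fun a b hab => by
    have h1 := congrArg κ.subtype hab
    rw [map_natCast, map_natCast] at h1
    exact Nat.cast_injective h1⟩
  obtain ⟨P0, hP0'⟩ := lift_fix hP
  obtain ⟨R0, hR0'⟩ := lift_fix hR
  choose c' hc' using fun j => lift_fix (hc j)
  -- a pair of minimal degree
  have hex : ∃ d : ℕ, ∃ P1 R1 : Polynomial κ, P1 ≠ 0 ∧ ev P1 * y = ev R1 ∧ P1.natDegree = d := by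
    refine ⟨_, P0, R0, ?_, ?_, rfl⟩
    · rintro rfl
      apply hP0
      rw [← hP0', Polynomial.map_zero, Polynomial.eval_zero]
    · rw [hev, hev, hP0', hR0']
      exact hy
  obtain ⟨P1, R1, h1, h2, h3⟩ := Nat.find_spec hex
  have hmin : ∀ P2 R2 : Polynomial κ, P2 ≠ 0 → ev P2 * y = ev R2 →
      P1.natDegree ≤ P2.natDegree := by
    intro P2 R2 h4 h5
    rw [h3]
    exact Nat.find_min' hex ⟨P2, R2, h4, h5, rfl⟩
  -- shifts
  let sh : ℕ → Polynomial κ → Polynomial κ := fun j G =>
    G.comp (Polynomial.X + Polynomial.C ((j * K : ℕ) : κ))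
  have hsh : ∀ (j : ℕ) (G : Polynomial κ), ((σ ^ K) ^ j) (ev G) = ev (sh j G) := by
    intro j G
    have e1 : ((σ ^ K) ^ j) (ev G) = ((G.map κ.subtype).map ((σ ^ K) ^ j)).eval
        (((σ ^ K) ^ j) Z) := by
      rw [hev, Polynomial.eval_map_apply]
    have e2 : (G.map κ.subtype).map ((σ ^ K) ^ j) = G.map κ.subtype := map_iter (hfix G) j
    have e3 : ((σ ^ K) ^ j) Z = Z + ((j * K : ℕ) : F) := by
      rw [← pow_mul, pow_Z hZ, mul_comm K j]
    rw [e1, e2, e3, hev]
    simp only [sh]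
    rw [Polynomial.map_comp, Polynomial.map_add, Polynomial.map_X, Polynomial.map_C,
      Polynomial.eval_comp, Polynomial.eval_add, Polynomial.eval_X, Polynomial.eval_C,
      map_natCast]
  have hshy : ∀ j, ev (sh j P1) * ((σ ^ K) ^ j) y = ev (sh j R1) := by
    intro j
    rw [← hsh, ← hsh, ← map_mul, h2]
  have hid : sh s R1 * ∏ j ∈ Finset.range s, sh j P1 - sh s P1 * ∑ j ∈ Finset.range s,
      c' j * sh j R1 * ∏ i ∈ (Finset.range s).erase j, sh i P1 = 0 := by
    apply hinj
    rw [map_sub, map_mul, map_mul, map_prod, map_sum, ← hshy s, hs]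
    have e1 : ∀ j ∈ Finset.range s, ev (c' j * sh j R1 * ∏ i ∈ (Finset.range s).erase j,
        sh i P1) = (c j).eval Z * ((σ ^ K) ^ j) y * ∏ i ∈ Finset.range s, ev (sh i P1) := by
      intro j hj
      rw [map_mul, map_mul, map_prod, ← hshy j, hev (c' j), hc',
        ← Finset.mul_prod_erase _ _ hj]
      ring
    rw [Finset.sum_congr rfl e1, ← Finset.sum_mul]
    ring
  -- no roots
  let Ω := AlgebraicClosure κ
  have hczΩ : CharZero Ω := charZero_of_injective_algebraMap (algebraMap κ Ω).injective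
  have hcop : ∀ β : Ω, (P1.map (algebraMap κ Ω)).eval β = 0 →
      (R1.map (algebraMap κ Ω)).eval β ≠ 0 := by
    intro β hβ hβ'
    rw [Polynomial.eval_map_algebraMap] at hβ hβ'
    have hint : IsIntegral κ β := Algebra.IsIntegral.isIntegral β
    obtain ⟨P2, hP2⟩ := minpoly.dvd κ β hβ
    obtain ⟨R2, hR2⟩ := minpoly.dvd κ β hβ'
    have hμ : minpoly κ β ≠ 0 := minpoly.ne_zero hint
    have hP20 : P2 ≠ 0 := by
      rintro rfl
      exact h1 (by rw [hP2, mul_zero])
    have h4 := hmin P2 R2 hP20 (by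
      have h5 : ev (minpoly κ β) ≠ 0 := fun h6 => hμ (hinj _ h6)
      apply mul_left_cancel₀ h5
      rw [← mul_assoc, ← map_mul, ← map_mul, ← hP2, ← hR2]
      exact h2)
    rw [hP2, Polynomial.natDegree_mul hμ hP20] at h4
    have h5 := minpoly.natDegree_pos hint
    omega
  have hP1Ω : P1.map (algebraMap κ Ω) ≠ 0 := by
    rwa [Ne, Polynomial.map_eq_zero]
  have hroot := no_roots hP1Ω hK (fun β hβ => by
    have e1 : ∀ (j : ℕ) (G : Polynomial κ), ((sh j G).map (algebraMap κ Ω)).eval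
        (β - ((s * K : ℕ) : Ω)) = (G.map (algebraMap κ Ω)).eval
          (β - ((s * K : ℕ) : Ω) + ((j * K : ℕ) : Ω)) := by
      intro j G
      simp only [sh]
      rw [Polynomial.map_comp, Polynomial.map_add, Polynomial.map_X, Polynomial.map_C,
        Polynomial.eval_comp, Polynomial.eval_add, Polynomial.eval_X, Polynomial.eval_C,
        map_natCast]
    have e2 := congrArg (fun G : Polynomial κ => (G.map (algebraMap κ Ω)).eval
      (β - ((s * K : ℕ) : Ω))) hid
    simp only [Polynomial.map_sub, Polynomial.map_mul, Polynomial.eval_sub, Polynomial.eval_mul,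
      Polynomial.map_zero, Polynomial.eval_zero, e1, sub_add_cancel, hβ, zero_mul, sub_zero] at e2
    rcases mul_eq_zero.1 e2 with e3 | e3
    · exact absurd e3 (hcop β hβ)
    · rw [Polynomial.map_prod, Polynomial.eval_prod] at e3
      obtain ⟨j, hj, e4⟩ := Finset.prod_eq_zero_iff.1 e3
      rw [Finset.mem_range] at hj
      rw [e1] at e4
      refine ⟨s - j, by omega, ?_⟩
      rw [← e4]
      congr 1
      rw [Nat.sub_mul, Nat.cast_sub (Nat.mul_le_mul_right K hj.le)]
      ring)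
  have hdeg : P1.degree = 0 := by
    by_contra hne
    obtain ⟨β, hβ⟩ := IsAlgClosed.exists_aeval_eq_zero Ω P1 hne
    exact hroot β (by rw [Polynomial.eval_map_algebraMap]; exact hβ)
  obtain ⟨a, ha⟩ : ∃ a, P1 = Polynomial.C a := ⟨_, Polynomial.eq_C_of_degree_eq_zero hdeg⟩
  have ha0 : a ≠ 0 := by
    rintro rfl
    exact h1 (by rw [ha, Polynomial.C_0])
  refine ⟨(Polynomial.C a⁻¹ * R1).map κ.subtype, hfix _, ?_⟩
  have h4 := h2
  rw [ha] at h4
  have h5 : ev (Polynomial.C a) = (a : F) := by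
    rw [hev, Polynomial.map_C, Polynomial.eval_C]
    rfl
  have h6 : ev (Polynomial.C a⁻¹) = (a : F)⁻¹ := by
    rw [hev, Polynomial.map_C, Polynomial.eval_C, map_inv₀]
    rfl
  have ha0' : (a : F) ≠ 0 := fun h7 => ha0 (Subtype.ext h7)
  rw [← hev, map_mul, h6, ← h4, h5, ← mul_assoc, inv_mul_cancel₀ ha0', one_mul]

end Pool.Agent.N626
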