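import Pool.Agent.N626.Ht
import Pool.Agent.N626.Jp

/-!
Points given by monic linear difference equations over a difference field.
-/

set_option autoImplicit false

namespace Pool.Agent.N626

open MvPolynomial

section mon

variable {D V : Type} [CommRing D] [Fintype V]

/-- **Monic relations.** -/
theorem mon_dep [IsNoetherianRing D] (c : ℕ → V → Polynomial D) :
    ∃ (s : ℕ) (p : ℕ → Polynomial D), c s = ∑ j ∈ Finset.range s, p j • c j := by
  classical
  let a : ℕ →o Submodule (Polynomial D) (V → Polynomial D) :=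
    ⟨fun n => Submodule.span (Polynomial D) (c '' (Finset.range n : Set ℕ)),
      monotone_nat_of_le_succ fun n => Submodule.span_mono (Set.image_mono
        (Finset.coe_subset.2 (Finset.range_subset_range.2 (Nat.le_succ n))))⟩
  obtain ⟨n, hn⟩ := (monotone_stabilizes_iff_noetherian (R := Polynomial D)
    (M := V → Polynomial D)).2 inferInstance a
  have h1 : c n ∈ a (n + 1) := Submodule.subset_span ⟨n, by simp, rfl⟩
  rw [← hn (n + 1) (Nat.le_succ n)] at h1
  obtain ⟨p, hp⟩ := (Submodule.mem_span_image_finset_iff_exists_fun _).1 h1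
  refine ⟨n, fun j => if h : j ∈ Finset.range n then p ⟨j, h⟩ else 0, ?_⟩
  rw [← hp, ← Finset.sum_attach (Finset.range n)]
  refine Finset.sum_congr rfl fun j _ => ?_
  beta_reduce
  rw [dif_pos j.2]

variable [IsDomain D]

theorem pow_linP (A : Matrix V V (Polynomial D)) (c : V → Polynomial D) (m : ℕ) :
    ∃ c' : V → Polynomial D, (sgS (Matrix.of fun u w => algebraMap (Polynomial D) (KK D)
      (A u w)) ^ m) (lin fun w => algebraMap (Polynomial D) (KK D) (c w)) =
        lin fun w => algebraMap (Polynomial D) (KK D) (c' w) := by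
  induction m with
  | zero => exact ⟨c, rfl⟩
  | succ m ih =>
    obtain ⟨c', h⟩ := ih
    refine ⟨fun w => ∑ u, (c' u).comp (Polynomial.X + Polynomial.C 1) * A u w, ?_⟩
    rw [pow_succ', RingHom.mul_def, RingHom.comp_apply, h, sgS_lin]
    congr 1
    funext w
    rw [map_sum]
    refine Finset.sum_congr rfl fun u _ => ?_
    rw [sg0_alg, Matrix.of_apply, map_mul]

end mon

section dich

variable {N : ℕ} {κ F : Type} [Field κ] [Field F] [Algebra κ F]

/-- **Families of images of the punctured line, or fixed points.** -/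
theorem dichotomy_log [CharZero F] (hcard : Cardinal.mk F ≤ Cardinal.continuum) {σ : F →+* F}
    (hσ : ∀ c : κ, σ (algebraMap κ F c) = algebraMap κ F c) {Z : F} (hZ : σ Z = Z + 1)
    {x : Fin (N + 1) → F} (hx : ∀ j, LinD σ Z (x j))
    (hm : ∀ K, 0 < K → ∀ j, MonD σ Z K (x j)) (hx0 : x 0 = 1) :
    (∃ (M : Type) (_ : Field M) (_ : Algebra κ M) (W : Fin (N + 1) → Polynomial M),
      (∀ G : MvPolynomial (Fin (N + 1)) κ, (∃ e, G.IsHomogeneous e) →
        (aeval W G = 0 ↔ aeval x G = 0)) ∧
      (∃ (c : M) (k : ℕ), c ≠ 0 ∧ W 0 = Polynomial.C c * Polynomial.X ^ k) ∧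
      ∃ j k, Polynomial.derivative (W j) * W k ≠ W j * Polynomial.derivative (W k)) ∨
    ∃ k : ℕ, 0 < k ∧ ∀ i, (σ ^ k) (x i) = x i := by
  classical
  obtain ⟨θ⟩ := exists_embed' F hcard
  have hl : x 0 ≠ 0 := by rw [hx0]; exact one_ne_zero
  by_cases halg : ∀ i, AlgC σ Z (x i / x 0)
  · choose k P R hk hP hR hP0 hPR using fun i => rat_of_alg θ hZ (hx i) (hx 0) hl (halg i)
    let K : ℕ := ∏ i, k i
    have hK : 0 < K := Finset.prod_pos fun i _ => hk i
    have hdiv : ∀ i, ∃ n, K = k i * n := fun i =>
      ⟨∏ j ∈ Finset.univ.erase i, k j, (Finset.mul_prod_erase _ _ (Finset.mem_univ i)).symm⟩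
    have hfix : ∀ i (p : Polynomial F), p.map (σ ^ k i) = p → p.map (σ ^ K) = p := by
      intro i p hp
      obtain ⟨n, hn⟩ := hdiv i
      have h1 := map_iter hp n
      rwa [← pow_mul, ← hn] at h1
    have hy : ∀ i, (P i).eval Z * x i = (R i).eval Z := by
      intro i
      have h1 := hPR i
      rw [hx0, mul_one] at h1
      exact h1
    choose W' hW' hWe' using fun i => poly_of_monic hZ hK (hfix i _ (hP i)) (hfix i _ (hR i))
      (hP0 i) (hy i) (hm K hK i)
    let W : Fin (N + 1) → Polynomial F := fun i => if i = 0 then 1 else W' i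
    have hW0 : W 0 = 1 := if_pos rfl
    have hWK : ∀ i, (W i).map (σ ^ K) = W i := by
      intro i
      by_cases hi : i = 0
      · rw [hi, hW0, Polynomial.map_one]
      · simp only [W]
        rw [if_neg hi]
        exact hW' i
    have hWx : ∀ i, (W i).eval Z = x i := by
      intro i
      by_cases hi : i = 0
      · rw [hi, hW0, Polynomial.eval_one, hx0]
      · simp only [W]
        rw [if_neg hi]
        exact hWe' i
    have hτ : ∀ c : κ, (σ ^ K) (algebraMap κ F c) = algebraMap κ F c := iter_const hσ K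
    by_cases hder : ∃ j k, Polynomial.derivative (W j) * W k ≠ W j * Polynomial.derivative (W k)
    · left
      refine ⟨F, inferInstance, inferInstance, W, fun G _ => ?_, ⟨1, 0, one_ne_zero, by
        rw [hW0, pow_zero, mul_one, Polynomial.C_1]⟩, hder⟩
      have h2 : aeval x G = (aeval W G).eval Z := by
        rw [eval_aeval']
        simp only [hWx]
      constructor
      · intro h0
        rw [h2, h0, Polynomial.eval_zero]
      · intro h0
        by_contra hne
        rw [h2] at h0
        exact eval_Z_ne inferInstance hZ hK (map_aeval_fix hτ hWK G) hne h0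
    · right
      push Not at hder
      refine ⟨K, hK, fun i => ?_⟩
      have h1 := hder i 0
      rw [hW0, mul_one, Polynomial.derivative_one, mul_zero] at h1
      have h2 := Polynomial.derivative_eq_zero.1 h1
      obtain ⟨c, hc⟩ := Polynomial.natDegree_eq_zero.1 h2
      have h3 := hWK i
      rw [← hc, Polynomial.map_C, Polynomial.C_inj] at h3
      rw [← hWx i, ← hc, Polynomial.eval_C, h3]
  · push Not at halg
    obtain ⟨i, hi⟩ := halg
    left
    obtain ⟨M, i1, i2, W, e1, ⟨c, k, hc, hck⟩, e3⟩ := dif_main' (κ := κ) θ hσ hZ (Q := X 0)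
      (q := 1) (x := x) (isHomogeneous_X _ _) hx (by rw [aeval_X]; exact hl) (by
        rw [aeval_X, hx0]
        exact ⟨1, 1, Polynomial.map_one _, Polynomial.map_one _, one_ne_zero, by
          rw [map_one]⟩) (i := i) (l := 0) hl hi
    rw [aeval_X] at hck
    exact ⟨M, i1, i2, W, e1, ⟨c, k, hc, hck⟩, e3⟩

end dich

end Pool.Agent.N626
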