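import Pool.Agent.N626.Jk
import Pool.Agent.N626.Jh

/-!
Monic P-recursive sequences of points of affine varieties: statements.
-/

set_option autoImplicit false

namespace Pool.Agent.N626

open MvPolynomial
open Pool.Agent.TH143.GT (FunField)
open Pool.Agent.W602.GT (IsForm LogGeneralType)
open Pool.Agent.W603.GR (OffQ)

variable {k ι κ : Type} [Field k] {n : ℕ}

/-- `x` is a sequence of points of the affine variety given by the forms `F` (in the affine part with
`x_0 = 1`), whose coordinates satisfy monic linear recurrences of order `r` with polynomial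
coefficients of degree at most `e`. -/
structure RecSeq (F : ι → MvPolynomial (Fin (n + 1)) k) (r e : ℕ) {L : Type} [Field L] [Algebra k L]
    (x : ℕ → Fin (n + 1) → L) : Prop where
  one : ∀ m, x m 0 = 1
  on : ∀ m i, aeval (x m) (F i) = 0
  mrec : ∀ j, MRec r e fun m => x m j

/-- All nonconstant images of the punctured line over extensions of `k` in the affine variety given
by `F` lie in the closed subset given by `G`. -/
def CurvesIn (F : ι → MvPolynomial (Fin (n + 1)) k) (G : κ → MvPolynomial (Fin (n + 1)) k) : Prop :=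
  ∀ (T : ℕ) (M : Type) [Field M] [Algebra k M] (p : Fin (n + 1) → Polynomial M), PLine T F M p →
    ∀ l, aeval p (G l) = 0

/-- All the sequences over all extensions of `k` have at most `B r e` points off `G = 0`. -/
def UnifBounded (F : ι → MvPolynomial (Fin (n + 1)) k) (G : κ → MvPolynomial (Fin (n + 1)) k) :
    Prop :=
  ∃ B : ℕ → ℕ → ℕ, ∀ (r e : ℕ) (L : Type) [Field L] [Algebra k L] (x : ℕ → Fin (n + 1) → L),
    RecSeq F r e x → (offG G x).encard ≤ B r e

/-- All the sequences over finite extensions of `k`, with recurrences with constant coefficients, have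
finitely many points off `G = 0`. -/
def FinExt (F : ι → MvPolynomial (Fin (n + 1)) k) (G : κ → MvPolynomial (Fin (n + 1)) k) : Prop :=
  ∀ (r : ℕ) (L : Type) [Field L] [Algebra k L] [Module.Finite k L] (x : ℕ → Fin (n + 1) → L),
    RecSeq F r 0 x → (offG G x).Finite

/-- All the sequences of `N`-integral points over number fields, with recurrences with constant
coefficients, have finitely many points off `G = 0`. -/
def IntFinite (F : ι → MvPolynomial (Fin (n + 1)) k) (G : κ → MvPolynomial (Fin (n + 1)) k) : Prop :=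
  ∀ (r : ℕ) (L : Type) [Field L] [NumberField L] [Algebra k L] (N : ℕ)
    (x : ℕ → Fin (n + 1) → L), 0 < N → (∀ m j, NInt N (x m j)) →
    RecSeq F r 0 x → (offG G x).Finite

/-- The condition of the conjecture of Lang and Vojta: over all number fields the affine variety
given by `F` has only finitely many `N`-integral points off `G = 0`. -/
def LangVojta (F : ι → MvPolynomial (Fin (n + 1)) k) (G : κ → MvPolynomial (Fin (n + 1)) k) : Prop :=
  ∀ (L : Type) [Field L] [NumberField L] [Algebra k L] (N : ℕ), 0 < N →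
    {y : Fin (n + 1) → L | y 0 = 1 ∧ (∀ i, aeval y (F i) = 0) ∧ (∀ j, NInt N (y j)) ∧
      ∃ l, aeval y (G l) ≠ 0}.Finite

theorem unif_of_curves [CharZero k] (hk : Cardinal.mk k ≤ Cardinal.continuum)
    {F : ι → MvPolynomial (Fin (n + 1)) k} {G : κ → MvPolynomial (Fin (n + 1)) k}
    (hF : ∀ i, ∃ e, (F i).IsHomogeneous e) (hG : ∀ l, ∃ e, (G l).IsHomogeneous e)
    (h : CurvesIn F G) : UnifBounded F G := by
  choose B hB using fun r e => scalar_log hk F hF r e
  refine ⟨B, fun r e L _ _ x hx => (Set.encard_le_encard ?_).trans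
    (hB r e L x hx.mrec hx.one hx.on)⟩
  rintro y ⟨m, ⟨l, hl⟩, hy⟩
  exact ⟨m, ⟨G l, hG l, fun M _ _ p hp => h _ M p hp l, hl⟩, hy⟩

theorem PLine.recSeq [CharZero k] {T : ℕ} {F : ι → MvPolynomial (Fin (n + 1)) k} {L : Type}
    [Field L] [Algebra k L] {p : Fin (n + 1) → Polynomial L} (hp : PLine T F L p)
    (hF : ∀ i, ∃ e, (F i).IsHomogeneous e) : RecSeq F (T + 1) 0 (plSeq p) := by
  have : CharZero L := charZero_of_injective_algebraMap (algebraMap k L).injective
  exact ⟨hp.seq_zero, hp.seq_on hF, hp.seq_rec⟩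

theorem curves_of_finExt [CharZero k] {F : ι → MvPolynomial (Fin (n + 1)) k}
    {G : κ → MvPolynomial (Fin (n + 1)) k} (hF : ∀ i, ∃ e, (F i).IsHomogeneous e)
    (hG : ∀ l, ∃ e, (G l).IsHomogeneous e) (h : FinExt F G) : CurvesIn F G := by
  intro T M _ _ p hp l
  by_contra hne
  obtain ⟨K, iK, aK, fK, p', hp', hG'⟩ := spec_PL hp (G l) hne
  have : CharZero K := charZero_of_injective_algebraMap (algebraMap k K).injective
  obtain ⟨d, hd⟩ := hG l
  exact hp'.seq_inf G l hd hG' (h (T + 1) K (plSeq p') (hp'.recSeq hF))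

theorem curves_of_intFinite [NumberField k] {F : ι → MvPolynomial (Fin (n + 1)) k}
    {G : κ → MvPolynomial (Fin (n + 1)) k} (hF : ∀ i, ∃ e, (F i).IsHomogeneous e)
    (hG : ∀ l, ∃ e, (G l).IsHomogeneous e) (h : IntFinite F G) : CurvesIn F G := by
  intro T M _ _ p hp l
  by_contra hne
  obtain ⟨K, iK, aK, fK, p', hp', hG'⟩ := spec_PL hp (G l) hne
  have : CharZero K := charZero_of_injective_algebraMap (algebraMap k K).injective
  have : NumberField K := NumberField.of_module_finite k K
  obtain ⟨d, hd⟩ := hG l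
  obtain ⟨N, hN, hNi⟩ := hp'.seq_int
  exact hp'.seq_inf G l hd hG' (h (T + 1) K N (plSeq p') hN hNi (hp'.recSeq hF))

theorem intFinite_of_langVojta {F : ι → MvPolynomial (Fin (n + 1)) k}
    {G : κ → MvPolynomial (Fin (n + 1)) k} (h : LangVojta F G) : IntFinite F G := by
  intro r L _ _ _ N x hN hx hr
  refine (h L N hN).subset ?_
  rintro y ⟨m, hm, rfl⟩
  exact ⟨hr.one m, hr.on m, hx m, hm⟩

theorem lgt_bounded {n : ℕ} {p : Ideal (MvPolynomial (Fin (n + 1)) ℂ)} {K : Type} [Field K]
    [Algebra ℂ K] {w : ℕ} {y : Fin (n + 1) → K} (hy : FunField p (X 0) K w y)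
    (hL : LogGeneralType ℂ K w (OffQ (X 0) 1 y)) (r e : ℕ) :
    ∃ (B : ℕ) (G : MvPolynomial (Fin (n + 1)) ℂ), IsForm G ∧ G ∉ p ∧
      ∀ (L : Type) [Field L] [Algebra ℂ L] (x : ℕ → Fin (n + 1) → L),
        RecSeq (formsOf p) r e x → (offG (fun _ : Unit => G) x).encard ≤ B := by
  obtain ⟨T, hT⟩ := scalar_log (κ := ℂ) Cardinal.mk_complex.le (formsOf p) (fun i => i.2.2) r e
  obtain ⟨G, hG1, hG2, hG3⟩ := hyper_log hy hL T
  refine ⟨T, G, hG1, hG2, fun L _ _ x hx => (Set.encard_le_encard ?_).trans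
    (hT L x hx.mrec hx.one hx.on)⟩
  rintro y ⟨m, ⟨l, hl⟩, hy⟩
  exact ⟨m, ⟨G, hG1, hG3, hl⟩, hy⟩

end Pool.Agent.N626
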