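import Pool.Agent.N626.Jx
import Pool.Agent.N626.Hy

/-!
Monic scalar linear recurrences with polynomial coefficients.
-/

set_option autoImplicit false

namespace Pool.Agent.N626

open MvPolynomial

/-- The sequence `a` satisfies a monic linear recurrence
`a (m + r) = p_0(m) a(m) + ... + p_{r-1}(m) a (m + r - 1)` of order `r` whose coefficients are
polynomials in the index `m` of degree at most `e`. -/
def MRec {K : Type} [Field K] (r e : ℕ) (a : ℕ → K) : Prop :=
  ∃ p : ℕ → Polynomial K, (∀ i, (p i).natDegree ≤ e) ∧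
    ∀ m : ℕ, a (m + r) = ∑ i ∈ Finset.range r, (p i).eval (m : K) * a (m + i)

/-- a monic linear recurrence with a nonzero last coefficient -/
def MEx {K : Type} [Field K] (s e : ℕ) (a : ℕ → K) : Prop :=
  ∃ p : ℕ → Polynomial K, (∀ i, (p i).natDegree ≤ e) ∧ p 0 ≠ 0 ∧
    ∀ m : ℕ, a (m + s) = ∑ i ∈ Finset.range s, (p i).eval (m : K) * a (m + i)

variable {K : Type} [Field K]

theorem MEx.raise {s e : ℕ} (hs0 : 0 < s) {a : ℕ → K} (h : MEx s e a) : MEx (s + 1) e a := by
  obtain ⟨p, hd, h0, hs⟩ := h
  let P : ℕ → Polynomial K := fun i => (if i = s then 1 else 0) + (if i = 0 then 0 else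
    (p (i - 1)).comp (Polynomial.X + Polynomial.C 1)) - (if i < s then p i else 0)
  refine ⟨P, fun i => ?_, ?_, fun m => ?_⟩
  · simp only [P]
    refine (Polynomial.natDegree_sub_le _ _).trans (max_le
      ((Polynomial.natDegree_add_le _ _).trans (max_le ?_ ?_)) ?_)
    · split_ifs <;> simp
    · split_ifs
      · simp
      · exact natDegree_shift _ _ (hd _)
    · split_ifs
      · exact hd i
      · simp
  · simp only [P]
    rw [if_neg hs0.ne, if_pos trivial, if_pos hs0, zero_add, zero_sub, neg_ne_zero]
    exact h0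
  · have h1 : ∑ i ∈ Finset.range (s + 1), (if i = 0 then 0 else
        (p (i - 1)).comp (Polynomial.X + Polynomial.C 1)).eval (m : K) * a (m + i) =
          a (m + (s + 1)) := by
      rw [Finset.sum_range_succ']
      have h3 : m + (s + 1) = m + 1 + s := by ring
      rw [if_pos rfl, Polynomial.eval_zero, zero_mul, add_zero, h3, hs (m + 1)]
      refine Finset.sum_congr rfl fun i _ => ?_
      rw [if_neg (Nat.succ_ne_zero i), Polynomial.eval_comp, Polynomial.eval_add,
        Polynomial.eval_X, Polynomial.eval_C, Nat.add_sub_cancel]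
      have h2 : m + (i + 1) = m + 1 + i := by ring
      rw [h2]
      push_cast
      rfl
    have h2 : ∑ i ∈ Finset.range (s + 1), (if i < s then p i else 0).eval (m : K) *
        a (m + i) = a (m + s) := by
      rw [Finset.sum_range_succ, if_neg (lt_irrefl s), Polynomial.eval_zero, zero_mul, add_zero,
        hs m]
      refine Finset.sum_congr rfl fun i hi => ?_
      rw [if_pos (Finset.mem_range.1 hi)]
    have h3 : ∑ i ∈ Finset.range (s + 1), (if i = s then (1 : Polynomial K) else 0).eval (m : K) *
        a (m + i) = a (m + s) := by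
      rw [Finset.sum_eq_single s]
      · rw [if_pos rfl, Polynomial.eval_one, one_mul]
      · intro i _ hi
        rw [if_neg hi, Polynomial.eval_zero, zero_mul]
      · intro h
        exact absurd (Finset.mem_range.2 (Nat.lt_succ_self s)) h
    simp only [P, Polynomial.eval_sub, Polynomial.eval_add, sub_mul, add_mul]
    rw [Finset.sum_sub_distrib, Finset.sum_add_distrib, h1, h2, h3]
    ring

theorem MEx.raise_le {r s e : ℕ} (hr : 0 < r) {a : ℕ → K} (h : MEx r e a) (hrs : r ≤ s) :
    MEx s e a := by
  induction s, hrs using Nat.le_induction with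
  | base => exact h
  | succ s hs ih => exact ih.raise (hr.trans_le hs)

/-- a recurrence with a nonzero last coefficient after dropping some terms -/
theorem MRec.exact {r e : ℕ} {a : ℕ → K} (h : MRec r e a) :
    MEx (r + 1) e (fun m => a (m + r)) := by
  classical
  obtain ⟨p, hd, hs⟩ := h
  by_cases hz : ∃ i < r, p i ≠ 0
  · obtain ⟨h1, h2⟩ := Nat.find_spec hz
    set lo := Nat.find hz with hlo
    have h3 : ∀ i < lo, p i = 0 := by
      intro i hi
      by_contra hne
      exact Nat.find_min hz hi ⟨hi.trans h1, hne⟩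
    have hex : MEx (r - lo) e (fun m => a (m + r)) := by
      refine ⟨fun i => (p (lo + i)).comp (Polynomial.X + Polynomial.C ((r - lo : ℕ) : K)),
        fun i => natDegree_shift _ _ (hd _), comp_XC_ne h2 _, fun m => ?_⟩
      have h7 := hs (m + (r - lo))
      have h8 : ∑ i ∈ Finset.range r, (p i).eval ((m + (r - lo) : ℕ) : K) *
          a (m + (r - lo) + i) = ∑ i ∈ Finset.Ico lo r,
            (p i).eval ((m + (r - lo) : ℕ) : K) * a (m + (r - lo) + i) := by
        symm
        apply Finset.sum_subset
        · intro i hi'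
          rw [Finset.mem_Ico] at hi'
          rw [Finset.mem_range]
          omega
        · intro i hi1 hi2
          rw [Finset.mem_range] at hi1
          rw [Finset.mem_Ico] at hi2
          rw [h3 i (by omega), Polynomial.eval_zero, zero_mul]
      rw [h8, Finset.sum_Ico_eq_sum_range] at h7
      dsimp only
      rw [h7]
      refine Finset.sum_congr rfl fun i hi' => ?_
      rw [Finset.mem_range] at hi'
      rw [Polynomial.eval_comp, Polynomial.eval_add, Polynomial.eval_X, Polynomial.eval_C]
      have h10 : m + i + r = m + (r - lo) + (lo + i) := by omega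
      rw [h10]
      push_cast
      rfl
    exact hex.raise_le (by omega) (by omega)
  · push Not at hz
    have h0 : ∀ m, a (m + r) = 0 := by
      intro m
      rw [hs m]
      refine Finset.sum_eq_zero fun i hi => ?_
      rw [hz i (Finset.mem_range.1 hi), Polynomial.eval_zero, zero_mul]
    have hex : MEx 1 e (fun m => a (m + r)) := by
      refine ⟨fun _ => 1, fun _ => by simp, one_ne_zero, fun m => ?_⟩
      dsimp only
      rw [h0, Finset.sum_range_one, add_zero, h0, mul_zero]
    exact hex.raise_le one_pos (by omega)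

/-- the ring of the coefficients of monic recurrences -/
abbrev RL (κ : Type) [Field κ] (n s e : ℕ) : Type :=
  MvPolynomial (Fin (n + 1) × Fin s × Fin (e + 1)) κ

variable {κ : Type} [Field κ]

theorem card_RL (hκ : Cardinal.mk κ ≤ Cardinal.continuum) (n s e : ℕ) :
    Cardinal.mk (RL κ n s e) ≤ Cardinal.continuum := by
  refine MvPolynomial.cardinalMk_le_max.trans (max_le (max_le hκ ?_)
    Cardinal.aleph0_le_continuum)
  exact Cardinal.mk_le_aleph0.trans Cardinal.aleph0_le_continuum

/-- the universal coefficients of monic recurrences -/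
noncomputable def uPm (κ : Type) [Field κ] (n s e : ℕ) (j : Fin (n + 1)) (i : Fin s) :
    Polynomial (RL κ n s e) :=
  ∑ c : Fin (e + 1), Polynomial.monomial (c : ℕ) (X (j, i, c))

/-- the universal matrix of monic recurrences -/
noncomputable def uAm (κ : Type) [Field κ] (n s e : ℕ) :
    Matrix (Fin (n + 1) × Fin s) (Fin (n + 1) × Fin s) (Polynomial (RL κ n s e)) :=
  Matrix.of fun u w => if u.1 = w.1 then
    (if (u.2 : ℕ) + 1 = s then uPm κ n s e u.1 w.2
    else if (w.2 : ℕ) = u.2 + 1 then 1 else 0) else 0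

theorem map_uPm {n s e : ℕ} (p : Fin (n + 1) → ℕ → Polynomial K)
    (hp : ∀ j i, (p j i).natDegree ≤ e) (ψ : RL κ n s e →+* K)
    (hψ : ∀ j i c, ψ (X (j, i, c)) = (p j i).coeff c) (j : Fin (n + 1))
    (i : Fin s) : (uPm κ n s e j i).map ψ = p j i := by
  rw [uPm, Polynomial.map_sum]
  simp only [Polynomial.map_monomial, hψ]
  rw [Fin.sum_univ_eq_sum_range (fun c : ℕ => Polynomial.monomial c ((p j i).coeff c)) (e + 1)]
  exact ((p j i).as_sum_range' (e + 1) (Nat.lt_succ_of_le (hp j i))).symm

/-- The values of the parameters. -/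
noncomputable def uψm [Algebra κ K] {n s e : ℕ} (p : Fin (n + 1) → ℕ → Polynomial K) :
    RL κ n s e →+* K :=
  eval₂Hom (algebraMap κ K) fun θ => (p θ.1 θ.2.1).coeff θ.2.2

variable {ι : Type}

/-- **Monic scalar recurrences give solutions of the universal system.** -/
theorem sol_universalL [Algebra κ K] {n s e : ℕ} (hs : 0 < s)
    (F : ι → MvPolynomial (Fin (n + 1)) κ) (p : Fin (n + 1) → ℕ → Polynomial K)
    (hp : ∀ j i, (p j i).natDegree ≤ e) (h0 : ∀ j, p j 0 ≠ 0) (x : ℕ → Fin (n + 1) → K)
    (hx : ∀ j (m : ℕ), x (m + s) j = ∑ i ∈ Finset.range s, (p j i).eval (m : K) * x (m + i) j)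
    (hX : ∀ m i, aeval (x m) (F i) = 0) (hx1 : ∀ m, x m 0 = 1) :
    SolL F (fun j => (j, (⟨0, hs⟩ : Fin s))) (uAm κ n s e) (uψm p)
      (fun m w => x (m + w.2) w.1) := by
  classical
  have hψP : ∀ j i, (uPm κ n s e j i).map (uψm p) = p j i := map_uPm p hp (uψm p)
    (fun j i c => by rw [uψm, coe_eval₂Hom, eval₂_X])
  have hconst : (uψm p : RL κ n s e →+* K).comp (algebraMap κ (RL κ n s e)) = algebraMap κ K := by
    ext c
    rw [RingHom.comp_apply, uψm, coe_eval₂Hom, algebraMap_eq, eval₂_C]
  refine ⟨⟨?_, ?_, fun m u => ?_, fun m a => ?_⟩, hconst, fun m => hx1 _⟩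
  · rw [Polynomial.map_one]
    exact one_ne_zero
  · intro hdet
    have h2 : ((Polynomial.mapRingHom (uψm p)).mapMatrix (uAm κ n s e)).det = 0 := by
      rw [← RingHom.map_det]
      exact hdet
    rw [← Matrix.exists_mulVec_eq_zero_iff] at h2
    obtain ⟨w, hw, hw0⟩ := h2
    apply hw
    have hrow : ∀ u : Fin (n + 1) × Fin s, ∑ v, ((uAm κ n s e u v).map (uψm p)) * w v = 0 := by
      intro u
      have h3 := congrFun hw0 u
      rw [Matrix.mulVec, dotProduct] at h3
      exact h3
    have hsucc : ∀ (j : Fin (n + 1)) (i : ℕ) (hi : i + 1 < s), w (j, ⟨i + 1, hi⟩) = 0 := by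
      intro j i hi
      have h3 := hrow (j, ⟨i, by omega⟩)
      rw [Finset.sum_eq_single (j, ⟨i + 1, hi⟩)] at h3
      · rw [uAm, Matrix.of_apply, if_pos rfl, if_neg (by
          change ¬ (i + 1 = s)
          omega), if_pos rfl, Polynomial.map_one, one_mul] at h3
        exact h3
      · rintro ⟨j', i'⟩ _ hne
        rw [uAm, Matrix.of_apply]
        by_cases hj : j = j'
        · rw [if_pos hj, if_neg (by
            change ¬ (i + 1 = s)
            omega), if_neg (fun h4 => hne (by
              have h5 : (i' : ℕ) = i + 1 := h4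
              rw [← hj]
              congr 1
              exact Fin.ext h5)), Polynomial.map_zero, zero_mul]
        · rw [if_neg hj, Polynomial.map_zero, zero_mul]
      · intro h4
        exact absurd (Finset.mem_univ _) h4
    have hzero : ∀ j : Fin (n + 1), w (j, ⟨0, hs⟩) = 0 := by
      intro j
      have h3 := hrow (j, ⟨s - 1, by omega⟩)
      rw [Finset.sum_eq_single (j, ⟨0, hs⟩)] at h3
      · rw [uAm, Matrix.of_apply, if_pos rfl, if_pos (by
          change s - 1 + 1 = s
          omega)] at h3
        simp only [hψP] at h3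
        exact (mul_eq_zero.1 h3).resolve_left (h0 j)
      · rintro ⟨j', i'⟩ _ hne
        by_cases hj : j = j'
        · obtain ⟨i', hi'⟩ := i'
          cases i' with
          | zero => exact absurd (by rw [hj]) hne
          | succ i' => rw [hsucc j' i' hi', mul_zero]
        · rw [uAm, Matrix.of_apply, if_neg hj, Polynomial.map_zero, zero_mul]
      · intro h4
        exact absurd (Finset.mem_univ _) h4
    funext ⟨j, i⟩
    obtain ⟨i, hi⟩ := i
    cases i with
    | zero => exact hzero j
    | succ i => exact hsucc j i hi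
  · have hev : ∀ P : Polynomial (RL κ n s e), evm (uψm p) (m : K) P =
        (P.map (uψm p)).eval (m : K) := by
      intro P
      rw [evm, Polynomial.coe_eval₂RingHom, Polynomial.eval_map]
    obtain ⟨j, i, hi⟩ := u
    rw [Fintype.sum_prod_type, Finset.sum_eq_single j]
    · rw [map_one, one_mul]
      by_cases his : i + 1 = s
      · have h2 : ∀ w : Fin s, evm (uψm p) (m : K) (uAm κ n s e (j, ⟨i, hi⟩) (j, w)) *
            x (m + w) j = (p j w).eval (m : K) * x (m + w) j := by
          intro w
          rw [uAm, Matrix.of_apply, if_pos rfl, if_pos his, hev, hψP]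
        rw [Finset.sum_congr rfl fun w _ => h2 w,
          Fin.sum_univ_eq_sum_range (fun w : ℕ => (p j w).eval (m : K) * x (m + w) j) s, ← hx j m]
        have h4 : m + 1 + i = m + s := by omega
        dsimp only
        rw [h4]
      · rw [Finset.sum_eq_single (⟨i + 1, by omega⟩ : Fin s)]
        · rw [uAm, Matrix.of_apply, if_pos rfl, if_neg his, if_pos rfl, map_one, one_mul]
          dsimp only
          have h4 : m + 1 + i = m + (i + 1) := by omega
          rw [h4]
        · intro w _ hw
          rw [uAm, Matrix.of_apply, if_pos rfl, if_neg his, if_neg (fun h4 => hw (Fin.ext h4)),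
            map_zero, zero_mul]
        · intro h4
          exact absurd (Finset.mem_univ _) h4
    · intro j' _ hj
      refine Finset.sum_eq_zero fun w _ => ?_
      rw [uAm, Matrix.of_apply, if_neg (fun h4 => hj h4.symm), map_zero, zero_mul]
    · intro h4
      exact absurd (Finset.mem_univ _) h4
  · rw [eval₂_map, hconst]
    exact hX m a

/-- **The uniform bound for monic scalar recurrences.** -/
theorem scalar_log [CharZero κ] (hκ : Cardinal.mk κ ≤ Cardinal.continuum) {n : ℕ}
    (F : ι → MvPolynomial (Fin (n + 1)) κ) (hom : ∀ i, ∃ e, (F i).IsHomogeneous e) (r e : ℕ) :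
    ∃ T : ℕ, ∀ (L : Type) [Field L] [Algebra κ L] (x : ℕ → Fin (n + 1) → L),
      (∀ j, MRec r e fun m => x m j) → (∀ m, x m 0 = 1) → (∀ m i, aeval (x m) (F i) = 0) →
        ({y | ∃ m, OffPL T F (x m) ∧ y = x m} : Set (Fin (n + 1) → L)).encard ≤ T := by
  classical
  obtain ⟨T, hT⟩ := core_log (π := fun j => (j, (⟨0, Nat.succ_pos r⟩ : Fin (r + 1))))
    (A := uAm κ n (r + 1) e) (card_RL hκ n (r + 1) e) hom
  refine ⟨T + r, fun L _ _ x hx hx1 hX => ?_⟩
  choose p hp h0 hs using fun j => (hx j).exact
  have hsol := sol_universalL (Nat.succ_pos r) F p hp h0 (fun m => x (m + r)) hs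
    (fun m a => hX (m + r) a) (fun m => hx1 _)
  have h2 := hT L (uψm (κ := κ) (s := r + 1) (e := e) p) _ hsol
  have h3 : ({y | ∃ m, OffPL (T + r) F (x m) ∧ y = x m} : Set (Fin (n + 1) → L)) ⊆
      (x '' (Finset.range r : Set ℕ)) ∪
      ptsL T F (fun j => (j, (⟨0, Nat.succ_pos r⟩ : Fin (r + 1)))) ⊥ (uψm (κ := κ) (s := r + 1) (e := e) p)
        (fun m w => x (m + w.2 + r) w.1) := by
    rintro y ⟨m, hm, hy⟩
    by_cases hmr : m < r
    · exact Or.inl ⟨m, Finset.mem_coe.2 (Finset.mem_range.2 hmr), hy.symm⟩
    · right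
      obtain ⟨m', rfl⟩ : ∃ m', m = m' + r := ⟨m - r, by omega⟩
      refine ⟨m', fun g hg => ?_, hm.anti (Nat.le_add_right T r), hy⟩
      rw [(Submodule.mem_bot _).1 hg, map_zero]
  have h4 : (x '' (Finset.range r : Set ℕ)).encard ≤ r := by
    refine (Set.encard_image_le _ _).trans ?_
    rw [Set.encard_coe_eq_coe_finsetCard, Finset.card_range]
  refine (Set.encard_le_encard h3).trans ((Set.encard_union_le _ _).trans ?_)
  rw [add_comm, Nat.cast_add]
  exact add_le_add h2 h4

end Pool.Agent.N626
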