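import Pool.Agent.N626.Hx
import Pool.Agent.N626.Ja

/-!
The Noetherian induction for points of affine varieties given by monic linear difference equations.
-/

set_option autoImplicit false

namespace Pool.Agent.N626

open MvPolynomial

section defs

variable {κ ι : Type} [Field κ] {n : ℕ}

/-- The nonconstant curve over `M` of degree at most `T`, given by the polynomials `p`, in the
projective algebraic set given by the forms `F`, which is contained in the affine part `X_0 ≠ 0`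
for all parameters different from `0`. -/
structure PLine (T : ℕ) (F : ι → MvPolynomial (Fin (n + 1)) κ) (M : Type) [Field M] [Algebra κ M]
    (p : Fin (n + 1) → Polynomial M) : Prop where
  deg : ∀ i, (p i).natDegree ≤ T
  on : ∀ i, aeval p (F i) = 0
  mon : ∃ (c : M) (k : ℕ), c ≠ 0 ∧ p 0 = Polynomial.C c * Polynomial.X ^ k
  nonconst : ∃ u v, Polynomial.derivative (p u) * p v ≠ p u * Polynomial.derivative (p v)

/-- `H` vanishes on all the curves of degree at most `T`. -/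
def VanishPL (T : ℕ) (F : ι → MvPolynomial (Fin (n + 1)) κ) (H : MvPolynomial (Fin (n + 1)) κ) :
    Prop :=
  ∀ (M : Type) [Field M] [Algebra κ M] (p : Fin (n + 1) → Polynomial M), PLine T F M p →
    aeval p H = 0

/-- The point `x` is not in the common zero set of the forms which vanish on all the curves of degree
at most `T`. -/
def OffPL (T : ℕ) (F : ι → MvPolynomial (Fin (n + 1)) κ) {L : Type} [Field L] [Algebra κ L]
    (x : Fin (n + 1) → L) : Prop :=
  ∃ H : MvPolynomial (Fin (n + 1)) κ, (∃ e, H.IsHomogeneous e) ∧ VanishPL T F H ∧ aeval x H ≠ 0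

theorem PLine.mono {T T' : ℕ} (h : T ≤ T') {F : ι → MvPolynomial (Fin (n + 1)) κ} {M : Type}
    [Field M] [Algebra κ M] {p : Fin (n + 1) → Polynomial M} (hp : PLine T F M p) :
    PLine T' F M p := ⟨fun i => (hp.deg i).trans h, hp.on, hp.mon, hp.nonconst⟩

theorem OffPL.anti {T T' : ℕ} (h : T ≤ T') {F : ι → MvPolynomial (Fin (n + 1)) κ} {L : Type}
    [Field L] [Algebra κ L] {x : Fin (n + 1) → L} (hx : OffPL T' F x) : OffPL T F x := by
  obtain ⟨H, h1, h2, h3⟩ := hx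
  exact ⟨H, h1, fun M _ _ p hp => h2 M p (hp.mono h), h3⟩

end defs

variable {κ R0 V ι : Type} [Field κ] [CommRing R0] [Algebra κ R0] [Fintype V] [DecidableEq V]
  {n : ℕ}

/-- Solutions over an extension `L` of `κ` of the monic system with the matrix `A`, with all points on
the affine variety given by `F`. -/
structure SolL (F : ι → MvPolynomial (Fin (n + 1)) κ) (π : Fin (n + 1) → V)
    (A : Matrix V V (Polynomial R0)) {L : Type} [Field L] [Algebra κ L] (ψ : R0 →+* L)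
    (v : ℕ → V → L) : Prop where
  sol : Sol (fun i => map (algebraMap κ R0) (F i)) π A 1 ψ v
  const : ψ.comp (algebraMap κ R0) = algebraMap κ L
  one : ∀ m, v m (π 0) = 1

/-- the points which satisfy the relations -/
def ptsL (T : ℕ) (F : ι → MvPolynomial (Fin (n + 1)) κ) (π : Fin (n + 1) → V)
    (𝔞 : Ideal (MvPolynomial V (Polynomial R0))) {L : Type} [Field L] [Algebra κ L]
    (ψ : R0 →+* L) (v : ℕ → V → L) : Set (Fin (n + 1) → L) :=
  {x | ∃ m : ℕ, (∀ g ∈ 𝔞, phi ψ (m : L) (v m) g = 0) ∧ OffPL T F (fun l => v m (π l)) ∧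
    x = fun l => v m (π l)}

/-- bounded exceptional sets for the points which satisfy the relations in an ideal -/
def BdL (F : ι → MvPolynomial (Fin (n + 1)) κ) (π : Fin (n + 1) → V)
    (A : Matrix V V (Polynomial R0)) (𝔞 : Ideal (MvPolynomial V (Polynomial R0))) : Prop :=
  ∃ T : ℕ, ∀ (L : Type) [Field L] [Algebra κ L] (ψ : R0 →+* L) (v : ℕ → V → L),
    SolL F π A ψ v → (ptsL T F π 𝔞 ψ v).encard ≤ T

variable {F : ι → MvPolynomial (Fin (n + 1)) κ} {π : Fin (n + 1) → V}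
    {A : Matrix V V (Polynomial R0)}

theorem BdL.cover {𝔞 𝔟 𝔠 : Ideal (MvPolynomial V (Polynomial R0))} (h𝔟 : BdL F π A 𝔟)
    (h𝔠 : BdL F π A 𝔠) (N : ℕ)
    (hc : ∀ (L : Type) [Field L] [Algebra κ L] (ψ : R0 →+* L) (v : ℕ → V → L), SolL F π A ψ v →
      ∃ E : Finset ℕ, E.card ≤ N ∧ ∀ m ∉ E, (∀ g ∈ 𝔞, phi ψ (m : L) (v m) g = 0) →
        (∀ g ∈ 𝔟, phi ψ (m : L) (v m) g = 0) ∨ (∀ g ∈ 𝔠, phi ψ (m : L) (v m) g = 0)) :
    BdL F π A 𝔞 := by
  classical
  obtain ⟨T1, hT1⟩ := h𝔟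
  obtain ⟨T2, hT2⟩ := h𝔠
  refine ⟨N + (T1 + T2), fun L _ _ ψ v hv => ?_⟩
  obtain ⟨E, hE, hcov⟩ := hc L ψ v hv
  have h1 := hT1 L ψ v hv
  have h2 := hT2 L ψ v hv
  have h3 : ((fun (m : ℕ) l => v m (π l)) '' (E : Set ℕ)).encard ≤ N := by
    refine (Set.encard_image_le _ _).trans ?_
    rw [Set.encard_coe_eq_coe_finsetCard]
    exact_mod_cast hE
  have h6 : ptsL (N + (T1 + T2)) F π 𝔞 ψ v ⊆ ((fun (m : ℕ) l => v m (π l)) '' (E : Set ℕ)) ∪
      (ptsL T1 F π 𝔟 ψ v ∪ ptsL T2 F π 𝔠 ψ v) := by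
    rintro x ⟨m, hm1, hm2, hP⟩
    by_cases hmE : m ∈ E
    · exact Or.inl ⟨m, hmE, hP.symm⟩
    · right
      rcases hcov m hmE hm1 with h7 | h7
      · exact Or.inl ⟨m, h7, hm2.anti (by omega), hP⟩
      · exact Or.inr ⟨m, h7, hm2.anti (by omega), hP⟩
  refine (Set.encard_le_encard h6).trans ((Set.encard_union_le _ _).trans ?_)
  push_cast
  exact add_le_add h3 ((Set.encard_union_le _ _).trans (add_le_add h1 h2))

/-- a solution which satisfies the relations -/
theorem exists_goodL {𝔞 : Ideal (MvPolynomial V (Polynomial R0))} (h : ¬ BdL F π A 𝔞) :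
    ∃ (L : Type) (_ : Field L) (_ : Algebra κ L) (ψ : R0 →+* L) (v : ℕ → V → L) (m : ℕ),
      SolL F π A ψ v ∧ ∀ g ∈ 𝔞, phi ψ (m : L) (v m) g = 0 := by
  by_contra hcon
  apply h
  refine ⟨0, fun L _ _ ψ v hv => ?_⟩
  have h1 : ptsL 0 F π 𝔞 ψ v = ∅ := by
    rw [Set.eq_empty_iff_forall_notMem]
    rintro x ⟨m, hm1, -, -⟩
    exact hcon ⟨L, inferInstance, inferInstance, ψ, v, m, hv, hm1⟩
  rw [h1, Set.encard_empty]
  exact bot_le

/-- a maximal ideal of relations without bounds -/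
structure MaxBadL (F : ι → MvPolynomial (Fin (n + 1)) κ) (π : Fin (n + 1) → V)
    (A : Matrix V V (Polynomial R0)) (𝔭 : Ideal (MvPolynomial V (Polynomial R0))) : Prop where
  hn : ¬ BdL F π A 𝔭
  hm : ∀ 𝔟, 𝔭 < 𝔟 → BdL F π A 𝔟

theorem exists_maxBadL [IsNoetherianRing R0] (h : ¬ BdL F π A ⊥) : ∃ 𝔭, MaxBadL F π A 𝔭 := by
  have hwf : WellFoundedGT (Ideal (MvPolynomial V (Polynomial R0))) := inferInstance
  obtain ⟨𝔭, h1, h2⟩ := hwf.wf.has_min {𝔞 | ¬ BdL F π A 𝔞} ⟨⊥, h⟩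
  refine ⟨𝔭, h1, fun 𝔟 hb => ?_⟩
  by_contra h3
  exact h2 𝔟 h3 hb

theorem MaxBadL.mem {𝔭 : Ideal (MvPolynomial V (Polynomial R0))} (h : MaxBadL F π A 𝔭)
    (g : MvPolynomial V (Polynomial R0)) (N : ℕ)
    (hc : ∀ (L : Type) [Field L] [Algebra κ L] (ψ : R0 →+* L) (v : ℕ → V → L), SolL F π A ψ v →
      ∃ E : Finset ℕ, E.card ≤ N ∧ ∀ m ∉ E, (∀ g ∈ 𝔭, phi ψ (m : L) (v m) g = 0) →
        phi ψ (m : L) (v m) g = 0) : g ∈ 𝔭 := by
  by_contra hg
  apply h.hn
  have h1 := h.hm _ (lt_sup_span hg)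
  refine h1.cover h1 N fun L _ _ ψ v hv => ?_
  obtain ⟨E, hE, h2⟩ := hc L ψ v hv
  exact ⟨E, hE, fun m hm h3 => Or.inl (zero_sup _ h3 (h2 m hm h3))⟩

theorem MaxBadL.prime {𝔭 : Ideal (MvPolynomial V (Polynomial R0))} (h : MaxBadL F π A 𝔭) :
    𝔭.IsPrime := by
  refine ⟨fun htop => ?_, fun {f g} hfg => ?_⟩
  · obtain ⟨L, _, _, ψ, v, m, -, h1⟩ := exists_goodL h.hn
    have h2 := h1 1 (by rw [htop]; exact Submodule.mem_top)
    rw [map_one] at h2
    exact one_ne_zero h2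
  · by_contra hcon
    push Not at hcon
    apply h.hn
    refine (h.hm _ (lt_sup_span hcon.1)).cover (h.hm _ (lt_sup_span hcon.2)) 0
      fun L _ _ ψ v hv => ⟨∅, le_rfl, fun m _ h3 => ?_⟩
    have h4 := h3 _ hfg
    rw [map_mul] at h4
    rcases mul_eq_zero.1 h4 with h5 | h5
    · exact Or.inl (zero_sup _ h3 h5)
    · exact Or.inr (zero_sup _ h3 h5)

theorem MaxBadL.coeff [CharZero κ] {𝔭 : Ideal (MvPolynomial V (Polynomial R0))}
    (h : MaxBadL F π A 𝔭) (p : Polynomial R0) (hp : C p ∈ 𝔭) (j : ℕ) :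
    C (Polynomial.C (p.coeff j)) ∈ 𝔭 := by
  classical
  refine h.mem _ p.natDegree fun L _ _ ψ v hv => ?_
  have : CharZero L := charZero_of_injective_algebraMap (algebraMap κ L).injective
  by_cases hc : ψ (p.coeff j) = 0
  · refine ⟨∅, by simp, fun m _ _ => ?_⟩
    rw [phi_C, Polynomial.map_C, Polynomial.eval_C, hc]
  · have hp0 : p.map ψ ≠ 0 := by
      intro h0
      apply hc
      rw [← Polynomial.coeff_map, h0, Polynomial.coeff_zero]
    have hfin : {m : ℕ | (p.map ψ).eval (m : L) = 0}.Finite := by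
      have h1 : (fun m : ℕ => (m : L)) ⁻¹' (((p.map ψ).roots.toFinset : Finset L) : Set L) =
          {m : ℕ | (p.map ψ).eval (m : L) = 0} := by
        ext m
        rw [Set.mem_preimage, Finset.mem_coe, Multiset.mem_toFinset, Polynomial.mem_roots hp0]
        rfl
      rw [← h1]
      exact (Finset.finite_toSet _).preimage Nat.cast_injective.injOn
    refine ⟨hfin.toFinset, (root_count hp0 _ fun m hm => ?_).trans Polynomial.natDegree_map_le,
      fun m hm h2 => ?_⟩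
    · rw [Set.Finite.mem_toFinset] at hm
      exact hm
    · exfalso
      apply hm
      rw [Set.Finite.mem_toFinset]
      have h3 := h2 _ hp
      rw [phi_C] at h3
      exact h3

end Pool.Agent.N626
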