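import Pool.Agent.N626.Jv

/-!
The uniform bound for points of affine varieties given by monic linear difference equations.
-/

set_option autoImplicit false

namespace Pool.Agent.N626

open MvPolynomial

theorem exists_D' {R0 R : Type} [CommRing R0] [CommRing R] [IsNoetherianRing R0] (𝔭 : Ideal R)
    [h𝔭 : 𝔭.IsPrime] (j : R0 →+* R) : ∃ (D : Type) (_ : CommRing D) (_ : IsDomain D)
      (_ : IsNoetherianRing D) (q : R0 →+* D), Function.Surjective q ∧
        (∀ c, q c = 0 ↔ j c ∈ 𝔭) ∧ Cardinal.mk D ≤ Cardinal.mk R0 := by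
  have h1 : (𝔭.comap j).IsPrime := Ideal.IsPrime.comap j
  refine ⟨R0 ⧸ 𝔭.comap j, inferInstance, inferInstance, inferInstance,
    Ideal.Quotient.mk (𝔭.comap j), Ideal.Quotient.mk_surjective, fun c => ?_,
    Cardinal.mk_quotient_le⟩
  rw [Ideal.Quotient.eq_zero_iff_mem]
  exact Iff.rfl

theorem DD_one {R0 : Type} [CommRing R0] (j : ℕ) : DD (1 : Polynomial R0) j = 1 := by
  induction j with
  | zero => rfl
  | succ j ih => rw [DD, ih, Polynomial.one_comp, mul_one]

variable {κ R0 V ι : Type} [Field κ] [CommRing R0] [Algebra κ R0] [Fintype V] [DecidableEq V]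
  {n : ℕ} {F : ι → MvPolynomial (Fin (n + 1)) κ} {π : Fin (n + 1) → V}
    {A : Matrix V V (Polynomial R0)}

theorem SolL.nn {L : Type} [Field L] [Algebra κ L] {ψ : R0 →+* L} {v : ℕ → V → L}
    (hv : SolL F π A ψ v) (m j : ℕ) (u : V) :
    phi ψ (m : L) (v m) (nn A j u) = v (m + j) u := by
  rw [hv.sol.nn, DD_one, C_1, map_one, one_mul]

omit [Algebra κ R0] [Fintype V] [DecidableEq V] in
theorem mat_one {D : Type} [CommRing D] [IsDomain D] (q : R0 →+* D) :
    mat q A 1 = polM (A.map (Polynomial.mapRingHom q)) := by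
  ext u w
  rw [mat, polM, Matrix.of_apply, Matrix.of_apply, Polynomial.map_one, map_one, div_one,
    Matrix.map_apply, Polynomial.coe_mapRingHom]

omit [Algebra κ R0] in
theorem rho_nn1 {D : Type} [CommRing D] [IsDomain D] (q : R0 →+* D) (j : ℕ) (u : V) :
    rho q V (nn A j u) = (sgS (polM (A.map (Polynomial.mapRingHom q))) ^ j) (X u) := by
  rw [rho_nn q (by rw [Polynomial.map_one]; exact one_ne_zero), DD_one, C_1, map_one, one_mul,
    mat_one]

omit [Fintype V] [DecidableEq V] in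
theorem rho_form {D : Type} [CommRing D] [IsDomain D] (q : R0 →+* D)
    (G : MvPolynomial (Fin (n + 1)) κ) :
    rho q V (eval₂ ((C.comp Polynomial.C).comp (algebraMap κ R0)) (fun l => X (π l)) G) =
      eval₂ ((cst D V).comp (q.comp (algebraMap κ R0))) (fun l => X (π l)) G := by
  rw [hom_eval₂]
  have h3 : (rho q V).comp ((C.comp Polynomial.C).comp (algebraMap κ R0)) =
      (cst D V).comp (q.comp (algebraMap κ R0)) := by
    refine RingHom.ext fun c => ?_
    rw [RingHom.comp_apply, RingHom.comp_apply, RingHom.comp_apply, rho_C, Polynomial.map_C]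
    rfl
  rw [h3]
  simp only [rho_X]

omit [Fintype V] [DecidableEq V] in
theorem phi_form {L : Type} [Field L] [Algebra κ L] {ψ : R0 →+* L}
    (hψ : ψ.comp (algebraMap κ R0) = algebraMap κ L) (a : L) (y : V → L)
    (w : Fin (n + 1) → MvPolynomial V (Polynomial R0)) (G : MvPolynomial (Fin (n + 1)) κ) :
    phi ψ a y (eval₂ ((C.comp Polynomial.C).comp (algebraMap κ R0)) w G) =
      aeval (fun l => phi ψ a y (w l)) G := by
  rw [hom_eval₂, ← RingHom.comp_assoc, phi_CC, hψ, aeval_def]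

theorem shift_memL {D : Type} [CommRing D] [IsDomain D] (q : R0 →+* D)
    {𝔭 : Ideal (MvPolynomial V (Polynomial R0))} (h : MaxBadL F π A 𝔭)
    (𝔓 : Ideal (MvPolynomial V (KK D))) (hP : ∀ g, rho q V g ∈ 𝔓 ↔ g ∈ 𝔭) (j : ℕ) (i : ι) :
    (sgS (polM (A.map (Polynomial.mapRingHom q))) ^ j)
      (eval₂ ((cst D V).comp (q.comp (algebraMap κ R0))) (fun l => X (π l)) (F i)) ∈ 𝔓 := by
  have hg : eval₂ ((C.comp Polynomial.C).comp (algebraMap κ R0)) (fun l => nn A j (π l)) (F i) ∈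
      𝔭 := by
    refine h.mem _ 0 fun L _ _ ψ v hv => ⟨∅, le_rfl, fun m _ _ => ?_⟩
    rw [phi_form hv.const]
    simp only [hv.nn]
    have h1 := hv.sol.hv (m + j) i
    rw [eval₂_map, hv.const] at h1
    rw [aeval_def]
    exact h1
  rw [← hP, hom_eval₂] at hg
  have h3 : (rho q V).comp ((C.comp Polynomial.C).comp (algebraMap κ R0)) =
      (cst D V).comp (q.comp (algebraMap κ R0)) := by
    refine RingHom.ext fun c => ?_
    rw [RingHom.comp_apply, RingHom.comp_apply, RingHom.comp_apply, rho_C, Polynomial.map_C]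
    rfl
  have h4 : (sgS (polM (A.map (Polynomial.mapRingHom q))) ^ j).comp (cst D V) = cst D V := by
    refine RingHom.ext fun c => ?_
    change (sgS _ ^ j) (C (algebraMap _ _ (Polynomial.C c))) = _
    rw [pow_C, Polynomial.C_comp]
    rfl
  rw [hom_eval₂, ← RingHom.comp_assoc, h4, ← h3]
  simp only [rho_nn1] at hg
  exact hg

theorem one_memL {D : Type} [CommRing D] [IsDomain D] (q : R0 →+* D)
    {𝔭 : Ideal (MvPolynomial V (Polynomial R0))} (h : MaxBadL F π A 𝔭)
    (𝔓 : Ideal (MvPolynomial V (KK D))) (hP : ∀ g, rho q V g ∈ 𝔓 ↔ g ∈ 𝔭) (j : ℕ) :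
    (sgS (polM (A.map (Polynomial.mapRingHom q))) ^ j) (X (π 0)) - 1 ∈ 𝔓 := by
  rw [← rho_nn1, ← map_one (rho q V), ← map_sub, hP]
  refine h.mem _ 0 fun L _ _ ψ v hv => ⟨∅, le_rfl, fun m _ _ => ?_⟩
  rw [map_sub, hv.nn, map_one, hv.one, sub_self]

/-- the periodic case -/
theorem periodic_caseL {𝔭 : Ideal (MvPolynomial V (Polynomial R0))} {k : ℕ} (hk : 0 < k)
    (h : ∀ s i, nn A (k * s) (π i) - X (π i) ∈ 𝔭) : BdL F π A 𝔭 := by
  classical
  refine ⟨k, fun L _ _ ψ v hv => ?_⟩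
  have key : ∀ m s : ℕ, (∀ g ∈ 𝔭, phi ψ (m : L) (v m) g = 0) →
      (fun l => v (m + k * s) (π l)) = fun l => v m (π l) := by
    intro m s hm
    funext l
    have h1 := hm _ (h s l)
    rw [map_sub, hv.nn, phi_X] at h1
    exact sub_eq_zero.1 h1
  have h4 : ∀ x ∈ ptsL k F π 𝔭 ψ v, ∃ m : ℕ, (∀ g ∈ 𝔭, phi ψ (m : L) (v m) g = 0) ∧
      x = fun l => v m (π l) := by
    rintro x ⟨m, h1, -, h2⟩
    exact ⟨m, h1, h2⟩
  choose! f hf1 hf2 using h4
  have h5 : (ptsL k F π 𝔭 ψ v).encard ≤ (Finset.range k : Set ℕ).encard := by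
    apply Set.encard_le_encard_of_injOn (f := fun x => f x % k)
    · intro x _
      exact Finset.mem_coe.2 (Finset.mem_range.2 (Nat.mod_lt _ hk))
    · have key2 : ∀ x ∈ ptsL k F π 𝔭 ψ v, ∀ y ∈ ptsL k F π 𝔭 ψ v, f x % k = f y % k →
          f x ≤ f y → x = y := by
        intro x hx y hy hxy hle
        obtain ⟨s, hs⟩ := (Nat.modEq_iff_dvd' hle).1 hxy
        rw [hf2 x hx, hf2 y hy, ← key (f x) s (hf1 x hx)]
        have h6 : f y = f x + k * s := by omega
        rw [h6]
      intro x hx y hy hxy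
      rcases le_total (f x) (f y) with h6 | h6
      · exact key2 x hx y hy hxy h6
      · exact (key2 y hy x hx hxy.symm h6).symm
  refine h5.trans ?_
  rw [Set.encard_coe_eq_coe_finsetCard, Finset.card_range]

/-- **The uniform bound.** -/
theorem core_log [CharZero κ] [IsNoetherianRing R0] (hR : Cardinal.mk R0 ≤ Cardinal.continuum)
    (hom : ∀ i, ∃ e, (F i).IsHomogeneous e) : BdL F π A ⊥ := by
  classical
  by_contra hcon
  obtain ⟨𝔭, h⟩ := exists_maxBadL hcon
  have hp := h.prime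
  obtain ⟨D, i1, i2, i3, q, hq, hq0, hDR⟩ := exists_D' 𝔭 (C.comp Polynomial.C : R0 →+* _)
  obtain ⟨L, _, _, ψ, v, m, hv, hg⟩ := exists_goodL h.hn
  have hψ : ∀ c, q c = 0 → ψ c = 0 := by
    intro c hc
    have h1 := hg _ ((hq0 c).1 hc)
    rwa [RingHom.comp_apply, phi_C, Polynomial.map_C, Polynomial.eval_C] at h1
  have hmap : ∀ p : Polynomial R0, p.map ψ ≠ 0 → p.map q ≠ 0 := by
    intro p hp h0
    apply hp
    ext s
    rw [Polynomial.coeff_map, Polynomial.coeff_zero]
    apply hψ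
    rw [← Polynomial.coeff_map, h0, Polynomial.coeff_zero]
  have hcz : CharZero D := charZero_of_injective_ringHom (q.comp (algebraMap κ R0)).injective
  obtain ⟨𝔓, h𝔓, hP⟩ := loc_prime q hq 𝔭 hq0 h.coeff
  have hP' : ∀ g, rho q V g ∈ 𝔓 ↔ g ∈ 𝔭 := hP
  have hdet : (A.map (Polynomial.mapRingHom q)).det ≠ 0 := by
    have h1 := hmap _ hv.sol.hA
    have h2 : (A.map (Polynomial.mapRingHom q)).det = (Polynomial.mapRingHom q) A.det := by
      rw [RingHom.map_det, RingHom.mapMatrix_apply]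
    rw [h2]
    exact h1
  rcases alg_dich_log (hDR.trans hR) (q.comp (algebraMap κ R0)) π
    (A.map (Polynomial.mapRingHom q)) hdet 𝔓 F (one_memL q h 𝔓 hP') (shift_memL q h 𝔓 hP') with
    ⟨M, iM, aM, W, hW, hF, hW0, hd⟩ | ⟨k, hk, hper⟩
  · apply h.hn
    refine ⟨∑ l, (W l).natDegree, fun L _ _ ψ v hv => ?_⟩
    have h2 : ptsL (∑ l, (W l).natDegree) F π 𝔭 ψ v = ∅ := by
      rw [Set.eq_empty_iff_forall_notMem]
      rintro x ⟨m, hm1, ⟨H, hH1, hH2, hH3⟩, -⟩
      apply hH3
      have h3 := hW H hH1 (hH2 M W ⟨fun l => Finset.single_le_sum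
        (f := fun l => (W l).natDegree) (fun _ _ => Nat.zero_le _) (Finset.mem_univ l),
        fun i => hF i (hom i), hW0, hd⟩)
      rw [← rho_form q, hP'] at h3
      have h5 := hm1 _ h3
      rw [phi_form hv.const] at h5
      simp only [phi_X] at h5
      exact h5
    rw [h2, Set.encard_empty]
    exact bot_le
  · apply h.hn
    refine periodic_caseL hk fun s i => ?_
    rw [← hP', map_sub, rho_nn1, rho_X]
    exact hper s i

end Pool.Agent.N626
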