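import Pool.Agent.TH143.DE.Main

/-!
Linear difference equations: one-parameter families of symmetries.
-/

set_option autoImplicit false

namespace Pool.Agent.N626

open MvPolynomial Filter Pool.Agent.TH143 Pool.Agent.TH143.DE

variable {n : ℕ} {B : Subalgebra ℂ (ℕ → ℂ)}

/-- common zeros -/
def Zr {k : ℕ} (P : Fin k → MvPolynomial (Fin n × Fin n) ℂ) (V : Matrix (Fin n) (Fin n) ℂ) : Prop :=
  ∀ i, eval (mv V) (P i) = 0

theorem Zr.sum {k : ℕ} {P : Fin k → MvPolynomial (Fin n × Fin n) ℂ}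
    {V : Matrix (Fin n) (Fin n) ℂ} (h : Zr P V) (Q : Fin k → MvPolynomial (Fin n × Fin n) ℂ) :
    eval (mv V) (∑ i, Q i * P i) = 0 := by
  rw [map_sum]
  refine Finset.sum_eq_zero fun i _ => ?_
  rw [map_mul, h i, mul_zero]

/-- **Relations are preserved along the flow, for all zeros.** -/
theorem flow_all {U : ℕ → Matrix (Fin n) (Fin n) ℂ} {k : ℕ}
    {P : Fin k → MvPolynomial (Fin n × Fin n) B} (hP : ∀ i, P i ∈ JU B U)
    (hgen : ∀ P' ∈ JU B U, ∃ Q : Fin k → MvPolynomial (Fin n × Fin n) B,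
        ∀ᶠ m in atTop, at' m P' = ∑ i, at' m (Q i) * at' m (P i))
    {β : Matrix (Fin n) (Fin n) ℂ} (hβ : ∀ P' ∈ JU B U, WB B β P' ∈ JU B U)
    {ex : ℂ → Matrix (Fin n) (Fin n) ℂ} (he : ExpF β ex) :
    ∀ᶠ m in atTop, ∀ V, Zr (fun i => at' m (P i)) V → ∀ t, Zr (fun i => at' m (P i)) (V * ex t) := by
  classical
  choose Q hQ using fun i => hgen _ (hβ _ (hP i))
  have hall : ∀ᶠ m in atTop,
      ∀ i, at' m (WB B β (P i)) = ∑ j, at' m (Q i j) * at' m (P j) := eventually_all.2 fun i => hQ i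
  filter_upwards [hall] with m h2 V hV t
  set I : Ideal (MvPolynomial (Fin n × Fin n) ℂ) := Ideal.span (Set.range fun i => at' m (P i))
    with hI
  have hmem : ∀ i, at' m (P i) ∈ I := fun i => Ideal.subset_span ⟨i, rfl⟩
  have hD : ∀ p ∈ I, Dc β p ∈ I := by
    intro p hp
    obtain ⟨c, hc⟩ := Ideal.mem_span_range_iff_exists_fun.1 hp
    rw [← hc, map_sum]
    refine Ideal.sum_mem _ fun i _ => ?_
    rw [Derivation.leibniz, smul_eq_mul, smul_eq_mul, ← at'_WB, h2 i]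
    refine Ideal.add_mem _ (Ideal.mul_mem_left _ _ (Ideal.sum_mem _ fun j _ =>
      Ideal.mul_mem_left _ _ (hmem j))) (Ideal.mul_mem_right _ _ (hmem i))
  have h0 : ∀ p ∈ I, eval (mv V) p = 0 := by
    intro p hp
    obtain ⟨c, hc⟩ := Ideal.mem_span_range_iff_exists_fun.1 hp
    rw [← hc]
    exact Zr.sum (P := fun i => at' m (P i)) hV c
  intro i
  exact flow_ideal he V I hD h0 _ (hmem i) t

/-- **Semi-invariants are exponential along the flow, for all zeros.** -/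
theorem flow_bd_all (hs : ∀ b ∈ B, (fun m => b (m + 1)) ∈ B) {A : Fin n → Fin n → B}
    {U : ℕ → Matrix (Fin n) (Fin n) ℂ} (hU : ∀ᶠ m in atTop, U (m + 1) = Am A m * U m) {k : ℕ}
    {P : Fin k → MvPolynomial (Fin n × Fin n) B} (hP : ∀ i, P i ∈ JU B U)
    (hgen : ∀ P' ∈ JU B U, ∃ Q : Fin k → MvPolynomial (Fin n × Fin n) B,
        ∀ᶠ m in atTop, at' m P' = ∑ i, at' m (Q i) * at' m (P i))
    {β : Matrix (Fin n) (Fin n) ℂ} (hβ : ∀ P' ∈ JU B U, WB B β P' ∈ JU B U)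
    {ex : ℂ → Matrix (Fin n) (Fin n) ℂ} (he : ExpF β ex)
    (q : MvPolynomial (Fin n × Fin n) ℂ) (hq0 : ∀ᶠ m in atTop, eval (mv (U m)) q ≠ 0) (b : B)
    (hq : ∀ᶠ m in atTop, eval (mv (U (m + 1))) q = (b : ℕ → ℂ) m * eval (mv (U m)) q) :
    ∃ γ : ℂ, ∀ᶠ m in atTop, ∀ V, Zr (fun i => at' m (P i)) V → ∀ t, eval (mv (V * ex t)) q =
      eval (mv V) q * Complex.exp (γ * t) := by
  have hR1 : SS hs A (cB B q) - C b * cB B q ∈ JU B U := by
    rw [mem_JU]
    filter_upwards [hU, hq] with m h1 h2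
    rw [map_sub, map_sub, map_mul, map_mul, at'_SS, at'_cB, at'_cB, at'_C, eval_bind_TA, ← h1, h2,
      eval_C, sub_self]
  have hR2 := mem_JU.1 (hβ _ hR1)
  have hrec : ∀ᶠ m in atTop, eval (mv (U (m + 1))) (Dc β q) =
      (b : ℕ → ℂ) m * eval (mv (U m)) (Dc β q) := by
    filter_upwards [hU, hR2] with m h1 h2
    rw [at'_WB, map_sub, map_mul, at'_SS, at'_cB, at'_cB, at'_C, map_sub, comm_bind,
      Derivation.leibniz, derivation_C, smul_zero, add_zero, smul_eq_mul, map_sub, map_mul, eval_C,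
      eval_bind_TA, ← h1, sub_eq_zero] at h2
    exact h2
  have hconst : ∀ᶠ m in atTop, eval (mv (U (m + 1))) (Dc β q) / eval (mv (U (m + 1))) q =
      eval (mv (U m)) (Dc β q) / eval (mv (U m)) q := by
    have hq1 : ∀ᶠ m in atTop, eval (mv (U (m + 1))) q ≠ 0 :=
      (tendsto_add_atTop_nat 1).eventually hq0
    filter_upwards [hrec, hq, hq0, hq1] with m h1 h2 h3 h4
    have hb : (b : ℕ → ℂ) m ≠ 0 := by
      intro h0
      apply h4
      rw [h2, h0, zero_mul]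
    rw [h1, h2, mul_div_mul_left _ _ hb]
  obtain ⟨m0, hm0⟩ := eventually_atTop.1 hconst
  set γ : ℂ := eval (mv (U m0)) (Dc β q) / eval (mv (U m0)) q with hγ
  have hγ' : ∀ m, m0 ≤ m → eval (mv (U m)) (Dc β q) / eval (mv (U m)) q = γ := by
    intro m hm
    induction m, hm using Nat.le_induction with
    | base => rfl
    | succ m hm ih => rw [hm0 m hm, ih]
  have hR3 : cB B (Dc β q - C γ * q) ∈ JU B U := by
    rw [mem_JU]
    filter_upwards [eventually_ge_atTop m0, hq0] with m h1 h2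
    rw [at'_cB, map_sub, map_mul, eval_C, ← hγ' m h1, div_mul_cancel₀ _ h2, sub_self]
  refine ⟨γ, ?_⟩
  obtain ⟨Q, hQ⟩ := hgen _ hR3
  filter_upwards [flow_all hP hgen hβ he, hQ] with m hm hQm V hV t
  have h1 : ∀ t, HasDerivAt (fun t => eval (mv (V * ex t)) q * Complex.exp (-γ * t)) 0 t := by
    intro t
    have h2 := he.hasDerivAt V q t
    have h3 : HasDerivAt (fun t : ℂ => Complex.exp (-γ * t)) (Complex.exp (-γ * t) * (-γ)) t := by
      have := ((hasDerivAt_id t).const_mul (-γ)).cexp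
      simpa using this
    refine (h2.mul h3).congr_deriv ?_
    have h4 : eval (mv (V * ex t)) (Dc β q - C γ * q) = 0 := by
      rw [at'_cB] at hQm
      rw [hQm]
      exact Zr.sum (P := fun i => at' m (P i)) (hm V hV t) _
    rw [map_sub, map_mul, eval_C, sub_eq_zero] at h4
    rw [h4]
    ring
  have h5 := is_const_of_deriv_eq_zero (fun t => (h1 t).differentiableAt)
    (fun t => (h1 t).deriv) t 0
  simp only [he.zero, mul_zero, Complex.exp_zero, mul_one] at h5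
  rw [← h5, mul_assoc, ← Complex.exp_add]
  simp

/-- A one-parameter family of symmetries, given by Laurent polynomials. -/
structure OPF {k : ℕ} (P : Fin k → MvPolynomial (Fin n × Fin n) B)
    (q : MvPolynomial (Fin n × Fin n) ℂ) (lam : ℂ → Matrix (Fin n) (Fin n) ℂ) (h : ℂ → ℂ)
    (δ : Matrix (Fin n) (Fin n) ℂ) : Prop where
  laur : ∀ i j, Pool.Agent.H159R3.Exp.Laur fun x => lam x i j
  laurh : Pool.Agent.H159R3.Exp.Laur h
  one : lam 1 = 1
  der : ∀ i j, HasDerivAt (fun x => lam x i j) (δ i j) 1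
  ev : ∀ᶠ m in atTop, ∀ x, x ≠ 0 → ∀ V, Zr (fun i => at' m (P i)) V →
    Zr (fun i => at' m (P i)) (V * lam x) ∧ eval (mv (V * lam x)) q * h x = eval (mv V) q

/-- **Existence of families of symmetries.** -/
theorem exists_opf (hs : ∀ b ∈ B, (fun m => b (m + 1)) ∈ B) {A : Fin n → Fin n → B}
    {U : ℕ → Matrix (Fin n) (Fin n) ℂ} (hU : ∀ᶠ m in atTop, U (m + 1) = Am A m * U m) {k : ℕ}
    {P : Fin k → MvPolynomial (Fin n × Fin n) B} (hP : ∀ i, P i ∈ JU B U)
    (hgen : ∀ P' ∈ JU B U, ∃ Q : Fin k → MvPolynomial (Fin n × Fin n) B,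
        ∀ᶠ m in atTop, at' m P' = ∑ i, at' m (Q i) * at' m (P i))
    {β : Matrix (Fin n) (Fin n) ℂ} (hβ : ∀ P' ∈ JU B U, WB B β P' ∈ JU B U)
    (q : MvPolynomial (Fin n × Fin n) ℂ) (hq0 : ∀ᶠ m in atTop, eval (mv (U m)) q ≠ 0) (b : B)
    (hq : ∀ᶠ m in atTop, eval (mv (U (m + 1))) q = (b : ℕ → ℂ) m * eval (mv (U m)) q)
    (φ : Matrix (Fin n) (Fin n) ℂ →ₗ[ℂ] ℂ) (hφ : φ β ≠ 0) :
    ∃ (lam : ℂ → Matrix (Fin n) (Fin n) ℂ) (h : ℂ → ℂ) (δ : Matrix (Fin n) (Fin n) ℂ),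
      OPF P q lam h δ ∧ φ δ ≠ 0 := by
  classical
  obtain ⟨ex, he0, he1, hEP⟩ := exists_exp_flow β
  have he : ExpF β ex := ⟨he0, he1⟩
  have hflow := flow_all hP hgen hβ he
  obtain ⟨γ, hγ⟩ := flow_bd_all hs hU hP hgen hβ he q hq0 b hq
  let G : Option (Fin n × Fin n) → ℂ → ℂ := fun o =>
    o.elim (fun t => Complex.exp (-γ * t)) (fun p t => ex t p.1 p.2)
  have hGEP : ∀ o, EP (G o) := by
    intro o
    rcases o with _ | p
    · exact EP.exp _
    · exact hEP p.1 p.2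
  obtain ⟨r, g, P', hg, hP'⟩ := EP.common G hGEP
  set v0 : Fin (r + 1) → ℂ := Pool.Agent.H159R3.Exp.vec g 0 with hv0
  set u : Fin (r + 1) → ℂ := Fin.cons 1 (fun i => Complex.exp (g i 0) * deriv (g i) 0) with hu
  have hvd : ∀ l, HasDerivAt (fun z => Pool.Agent.H159R3.Exp.vec g z l) (u l) 0 := by
    intro l
    refine Fin.cases ?_ (fun i => ?_) l
    · simpa [hu, Pool.Agent.H159R3.Exp.vec] using hasDerivAt_id' (0 : ℂ)
    · simpa [hu, Pool.Agent.H159R3.Exp.vec] using ((hg i) 0).hasDerivAt.cexp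
  let Dm : Fin (r + 1) → Matrix (Fin n) (Fin n) ℂ := fun l =>
    Matrix.of fun i j => eval v0 (pderiv l (P' (some (i, j))))
  have hβe : β = ∑ l, u l • Dm l := by
    ext i j
    have h1 := he1 0 i j
    rw [he0, Matrix.one_mul] at h1
    have h2 := Pool.Agent.H159R3.Exp.hasDerivAt_eval (Pool.Agent.H159R3.Exp.vec g) _ 0 hvd
      (P' (some (i, j)))
    have h3 : (fun s => ex s i j) = fun z => eval (Pool.Agent.H159R3.Exp.vec g z)
        (P' (some (i, j))) := by
      funext t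
      rw [← hP']
      rfl
    rw [h3] at h1
    rw [h1.unique h2, Matrix.sum_apply]
    refine Finset.sum_congr rfl fun l _ => ?_
    rw [Matrix.smul_apply, smul_eq_mul, mul_comm]
    rfl
  obtain ⟨ξ, ξ', ea, pp, hξp, hξ1, hξR, hξd, hξn⟩ := Pool.Agent.TH143.GT.exists_dir g hg
    (fun l => φ (Dm l)) (by
      have h1 : φ β = ∑ l, φ (Dm l) * u l := by
        rw [hβe, map_sum]
        refine Finset.sum_congr rfl fun l _ => ?_
        rw [map_smul, smul_eq_mul, mul_comm]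
      rw [← h1]
      exact hφ)
  have hLξ : ∀ l, Pool.Agent.H159R3.Exp.Laur fun x => ξ x l := fun l =>
    ⟨ea, pp l, fun x hx => by rw [mul_comm]; exact hξp x hx l⟩
  refine ⟨fun x => Matrix.of fun i j => eval (ξ x) (P' (some (i, j))),
    fun x => eval (ξ x) (P' none), ∑ l, ξ' l • Dm l, ⟨fun i j => ?_, ?_, ?_, fun i j => ?_, ?_⟩, ?_⟩
  · exact Pool.Agent.H159R3.Exp.Laur.eval ξ hLξ _
  · exact Pool.Agent.H159R3.Exp.Laur.eval ξ hLξ _
  · ext i j
    rw [Matrix.of_apply, hξ1, ← hP']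
    change ex 0 i j = _
    rw [he0]
  · have h1 := Pool.Agent.H159R3.Exp.hasDerivAt_eval ξ ξ' 1 hξd (P' (some (i, j)))
    refine h1.congr_deriv ?_
    rw [Matrix.sum_apply, hξ1]
    refine Finset.sum_congr rfl fun l _ => ?_
    rw [Matrix.smul_apply, smul_eq_mul, mul_comm]
    rfl
  · filter_upwards [hflow, hγ] with m h1 h2 x hx V hV
    let T : Fin n × Fin n → MvPolynomial (Fin (r + 1)) ℂ := fun p =>
      ∑ k, C (V p.1 k) * P' (some (k, p.2))
    have hT : ∀ (y : Fin (r + 1) → ℂ) (R : MvPolynomial (Fin n × Fin n) ℂ),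
        eval y (bind₁ T R) = eval (mv (V * Matrix.of fun i j => eval y (P' (some (i, j))))) R := by
      intro y R
      have h3 : eval y (bind₁ T R) = eval (fun p => eval y (T p)) R := by
        rw [eval, eval₂Hom_bind₁]
        rfl
      rw [h3]
      congr 1
      congr 1
      funext p
      simp only [T, map_sum, map_mul, eval_C, mv, Matrix.mul_apply, Matrix.of_apply]
    have hex : ∀ t, (Matrix.of fun i j => eval (Pool.Agent.H159R3.Exp.vec g t)
        (P' (some (i, j)))) = ex t := by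
      intro t
      ext i j
      rw [Matrix.of_apply, ← hP']
      rfl
    refine ⟨fun i => ?_, ?_⟩
    · rw [← hT]
      apply hξR _ _ x hx
      intro t
      rw [hT, hex]
      exact h1 V hV t i
    · have h3 : eval (ξ x) (bind₁ T q * P' none - C (eval (mv V) q)) = 0 := by
        apply hξR _ _ x hx
        intro t
        rw [map_sub, map_mul, eval_C, hT, hex, h2 V hV t, ← hP']
        simp only [G, Option.elim_none]
        rw [mul_assoc, ← Complex.exp_add]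
        simp
      rw [map_sub, map_mul, eval_C, hT, sub_eq_zero] at h3
      exact h3
  · rw [map_sum]
    have h1 : ∀ l, φ (ξ' l • Dm l) = φ (Dm l) * ξ' l := fun l => by
      rw [map_smul, smul_eq_mul, mul_comm]
    simp only [h1]
    exact hξn

/-- **The families of symmetries span the Lie algebra.** -/
theorem opf_span (hs : ∀ b ∈ B, (fun m => b (m + 1)) ∈ B) {A : Fin n → Fin n → B}
    {U : ℕ → Matrix (Fin n) (Fin n) ℂ} (hU : ∀ᶠ m in atTop, U (m + 1) = Am A m * U m) {k : ℕ}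
    {P : Fin k → MvPolynomial (Fin n × Fin n) B} (hP : ∀ i, P i ∈ JU B U)
    (hgen : ∀ P' ∈ JU B U, ∃ Q : Fin k → MvPolynomial (Fin n × Fin n) B,
        ∀ᶠ m in atTop, at' m P' = ∑ i, at' m (Q i) * at' m (P i))
    {L : Submodule ℂ (Matrix (Fin n) (Fin n) ℂ)}
    (hL : ∀ β ∈ L, ∀ P' ∈ JU B U, WB B β P' ∈ JU B U)
    (q : MvPolynomial (Fin n × Fin n) ℂ) (hq0 : ∀ᶠ m in atTop, eval (mv (U m)) q ≠ 0) (b : B)
    (hq : ∀ᶠ m in atTop, eval (mv (U (m + 1))) q = (b : ℕ → ℂ) m * eval (mv (U m)) q) :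
    ∃ (r : ℕ) (lam : Fin r → ℂ → Matrix (Fin n) (Fin n) ℂ) (h : Fin r → ℂ → ℂ)
      (δ : Fin r → Matrix (Fin n) (Fin n) ℂ), (∀ i, OPF P q (lam i) (h i) (δ i)) ∧
      L ≤ Submodule.span ℂ (Set.range δ) := by
  classical
  let S : Set (Matrix (Fin n) (Fin n) ℂ) := {δ | ∃ lam h, OPF P q lam h δ}
  have hLS : L ≤ Submodule.span ℂ S := by
    intro β hβ
    by_contra hcon
    obtain ⟨φ, hφ, hφS⟩ := Submodule.exists_dual_map_eq_bot_of_notMem hcon inferInstance
    obtain ⟨lam, h, δ, h1, h2⟩ := exists_opf hs hU hP hgen (hL β hβ) q hq0 b hq φ hφ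
    apply h2
    have h3 : φ δ ∈ (Submodule.span ℂ S).map φ :=
      Submodule.mem_map_of_mem (Submodule.subset_span ⟨lam, h, h1⟩)
    rw [hφS] at h3
    exact (Submodule.mem_bot ℂ).1 h3
  obtain ⟨s, hsS, hspan⟩ := Submodule.fg_span_iff_fg_span_finset_subset S |>.1
    (IsNoetherian.noetherian (Submodule.span ℂ S))
  choose lam h hOP using fun i : Fin s.card => hsS (s.equivFin.symm i).2
  refine ⟨s.card, lam, h, fun i => (s.equivFin.symm i : Matrix (Fin n) (Fin n) ℂ), hOP, ?_⟩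
  refine hLS.trans ?_
  rw [hspan]
  apply Submodule.span_mono
  intro δ hδ
  exact ⟨s.equivFin ⟨δ, hδ⟩, by simp⟩

end Pool.Agent.N626
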