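import Pool.Agent.N626.Ka

/-!
Products of one-parameter families, Laurent polynomials in several variables, and indices outside an
ideal of sequences.
-/

set_option autoImplicit false

namespace Pool.Agent.N626

open MvPolynomial Filter Pool.Agent.TH143 Pool.Agent.TH143.DE
open Pool.Agent.H159R3.Exp (Laur)

/-- an index outside an ideal of sequences -/
theorem exists_index {I : Ideal (ℕ → ℂ)} (hI : EZ ≤ I) {ι : Type} [Fintype ι] (e : ι → ℕ → ℂ)
    (he : ∀ i, e i ∈ I) (f : ℕ → ℂ) (hf : f ∉ I) {q : ℕ → Prop} (hq : ∀ᶠ m in atTop, q m) :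
    ∃ m, q m ∧ (∀ i, e i m = 0) ∧ f m ≠ 0 := by
  classical
  by_contra hcon
  push Not at hcon
  apply hf
  let u : ι → ℕ → ℂ := fun i m => if h : ∃ i, e i m ≠ 0 then
    (if h.choose = i then f m / e i m else 0) else 0
  have h1 : f - ∑ i, e i * u i ∈ I := by
    apply hI
    rw [mem_EZ]
    filter_upwards [hq] with m hm
    rw [Pi.sub_apply, Finset.sum_apply]
    simp only [Pi.mul_apply]
    by_cases h : ∃ i, e i m ≠ 0
    · simp only [u, dif_pos h]
      rw [Finset.sum_eq_single h.choose]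
      · rw [if_pos rfl, mul_div_cancel₀ _ h.choose_spec, sub_self]
      · intro i _ hi
        rw [if_neg (Ne.symm hi), mul_zero]
      · intro h'
        exact absurd (Finset.mem_univ _) h'
    · simp only [u, dif_neg h, mul_zero, Finset.sum_const_zero, sub_zero]
      push Not at h
      exact hcon m hm h
  have h2 := I.add_mem h1 (I.sum_mem (t := Finset.univ) (f := fun i => e i * u i)
    fun i _ => I.mul_mem_right _ (he i))
  rwa [sub_add_cancel] at h2

variable {r : ℕ}

/-- Laurent polynomials in several variables -/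
def ML (F : (Fin r → ℂ) → ℂ) : Prop :=
  ∃ (M : ℕ) (P : MvPolynomial (Fin r) ℂ), ∀ t : Fin r → ℂ, (∀ k, t k ≠ 0) →
    (∏ k, t k) ^ M * F t = eval t P

theorem ML.const (c : ℂ) : ML fun _ : Fin r → ℂ => c := ⟨0, C c, fun t _ => by simp⟩

theorem ML.add {F G : (Fin r → ℂ) → ℂ} (hF : ML F) (hG : ML G) : ML fun t => F t + G t := by
  obtain ⟨a, p, hp⟩ := hF
  obtain ⟨b, q, hq⟩ := hG
  refine ⟨a + b, (∏ k, X k) ^ b * p + (∏ k, X k) ^ a * q, fun t ht => ?_⟩
  simp only [map_add, map_mul, map_pow, map_prod, eval_X]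
  rw [← hp t ht, ← hq t ht]
  ring

theorem ML.mul {F G : (Fin r → ℂ) → ℂ} (hF : ML F) (hG : ML G) : ML fun t => F t * G t := by
  obtain ⟨a, p, hp⟩ := hF
  obtain ⟨b, q, hq⟩ := hG
  refine ⟨a + b, p * q, fun t ht => ?_⟩
  rw [map_mul, ← hp t ht, ← hq t ht]
  ring

theorem ML.sum {ι : Type} (s : Finset ι) {F : ι → (Fin r → ℂ) → ℂ} (hF : ∀ i ∈ s, ML (F i)) :
    ML fun t => ∑ i ∈ s, F i t := by
  classical
  induction s using Finset.induction_on with
  | empty => simpa using ML.const 0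
  | insert i s hi ih =>
    simp only [Finset.sum_insert hi]
    exact (hF i (Finset.mem_insert_self i s)).add
      (ih fun j hj => hF j (Finset.mem_insert_of_mem hj))

theorem ML.eval {κ : Type} {h : (Fin r → ℂ) → κ → ℂ} (hh : ∀ l, ML fun t => h t l)
    (P : MvPolynomial κ ℂ) : ML fun t => MvPolynomial.eval (h t) P := by
  induction P using MvPolynomial.induction_on with
  | C a => simpa using ML.const a
  | add p q hp hq =>
    simp only [map_add]
    exact hp.add hq
  | mul_X p j hp =>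
    simp only [map_mul, eval_X]
    exact hp.mul (hh j)

theorem ML.one {φ : ℂ → ℂ} (hφ : Laur φ) (k : Fin r) : ML fun t => φ (t k) := by
  obtain ⟨M, Q, h⟩ := hφ
  refine ⟨M, (∏ i ∈ Finset.univ.erase k, X i) ^ M * Polynomial.aeval (X k) Q, fun t ht => ?_⟩
  rw [map_mul, map_pow, map_prod]
  simp only [eval_X]
  have h1 : MvPolynomial.eval t (Polynomial.aeval (X k) Q) = Q.eval (t k) := by
    have h2 := Polynomial.aeval_algHom_apply (MvPolynomial.aeval t : MvPolynomial (Fin r) ℂ →ₐ[ℂ] ℂ)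
      (X k) Q
    rw [aeval_X, Polynomial.coe_aeval_eq_eval, MvPolynomial.aeval_eq_eval] at h2
    exact h2.symm
  rw [h1, ← h _ (ht k), ← Finset.mul_prod_erase _ _ (Finset.mem_univ k)]
  ring

theorem ML.common {J : Type} [Fintype J] {F : J → (Fin r → ℂ) → ℂ} (hF : ∀ j, ML (F j)) :
    ∃ (M : ℕ) (P : J → MvPolynomial (Fin r) ℂ), ∀ t : Fin r → ℂ, (∀ k, t k ≠ 0) →
      ∀ j, (∏ k, t k) ^ M * F j t = MvPolynomial.eval t (P j) := by
  classical
  choose a p hp using hF
  refine ⟨∑ j, a j, fun j => (∏ k, X k) ^ (∑ i ∈ Finset.univ.erase j, a i) * p j,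
    fun t ht j => ?_⟩
  simp only [map_mul, map_pow, map_prod, eval_X]
  rw [← hp j t ht, ← Finset.add_sum_erase _ _ (Finset.mem_univ j), pow_add]
  ring

/-- polynomials which vanish on the torus -/
theorem zero_of_torus {P : MvPolynomial (Fin r) ℂ}
    (h : ∀ t : Fin r → ℂ, (∀ k, t k ≠ 0) → MvPolynomial.eval t P = 0) : P = 0 := by
  classical
  have h1 : (∏ k, X k) * P = 0 := by
    apply MvPolynomial.funext
    intro t
    rw [map_mul, map_prod, map_zero]
    simp only [eval_X]
    by_cases ht : ∀ k, t k ≠ 0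
    · rw [h t ht, mul_zero]
    · push Not at ht
      obtain ⟨k, hk⟩ := ht
      rw [Finset.prod_eq_zero (Finset.mem_univ k) hk, zero_mul]
  exact (mul_eq_zero.1 h1).resolve_left (Finset.prod_ne_zero_iff.2 fun k _ => X_ne_zero k)

variable {n : ℕ} {B : Subalgebra ℂ (ℕ → ℂ)}

/-- products of one-parameter families -/
noncomputable def pmat (lam : Fin r → ℂ → Matrix (Fin n) (Fin n) ℂ) (t : Fin r → ℂ) :
    List (Fin r) → Matrix (Fin n) (Fin n) ℂ
  | [] => 1
  | k :: ks => lam k (t k) * pmat lam t ks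

/-- products of the factors -/
noncomputable def pfac (h : Fin r → ℂ → ℂ) (t : Fin r → ℂ) : List (Fin r) → ℂ
  | [] => 1
  | k :: ks => h k (t k) * pfac h t ks

theorem pmat_ML {lam : Fin r → ℂ → Matrix (Fin n) (Fin n) ℂ}
    (hl : ∀ k i j, Laur fun x => lam k x i j) (ks : List (Fin r)) :
    ∀ i j, ML fun t => pmat lam t ks i j := by
  induction ks with
  | nil =>
    intro i j
    exact ML.const _
  | cons k ks ih =>
    intro i j
    have h1 : (fun t => pmat lam t (k :: ks) i j) = fun t =>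
        ∑ c, lam k (t k) i c * pmat lam t ks c j := by
      funext t
      rw [pmat, Matrix.mul_apply]
    rw [h1]
    exact ML.sum _ fun c _ => (ML.one (hl k i c) k).mul (ih c j)

theorem pmat_notMem {lam : Fin r → ℂ → Matrix (Fin n) (Fin n) ℂ} (h1 : ∀ k, lam k 1 = 1)
    {k : Fin r} {x : ℂ} {ks : List (Fin r)} (hk : k ∉ ks) :
    pmat lam (Function.update (fun _ => 1) k x) ks = 1 := by
  induction ks with
  | nil => rfl
  | cons k' ks ih =>
    rw [List.mem_cons, not_or] at hk
    rw [pmat, Function.update_of_ne (Ne.symm hk.1), h1, ih hk.2, Matrix.one_mul]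

theorem pmat_update {lam : Fin r → ℂ → Matrix (Fin n) (Fin n) ℂ} (h1 : ∀ k, lam k 1 = 1)
    {k : Fin r} {x : ℂ} {ks : List (Fin r)} (hk : k ∈ ks) (hn : ks.Nodup) :
    pmat lam (Function.update (fun _ => 1) k x) ks = lam k x := by
  induction ks with
  | nil => exact absurd hk List.not_mem_nil
  | cons k' ks ih =>
    rw [List.nodup_cons] at hn
    rcases List.mem_cons.1 hk with h | h
    · subst h
      rw [pmat, Function.update_self, pmat_notMem h1 hn.1, Matrix.mul_one]
    · have h2 : k' ≠ k := fun h3 => hn.1 (h3 ▸ h)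
      rw [pmat, Function.update_of_ne h2, h1, ih h hn.2, Matrix.one_mul]

theorem pmat_one {lam : Fin r → ℂ → Matrix (Fin n) (Fin n) ℂ} (h1 : ∀ k, lam k 1 = 1)
    (ks : List (Fin r)) : pmat lam (fun _ => 1) ks = 1 := by
  induction ks with
  | nil => rfl
  | cons k ks ih => rw [pmat, h1, ih, Matrix.one_mul]

theorem pmat_zr {lam : Fin r → ℂ → Matrix (Fin n) (Fin n) ℂ} {h : Fin r → ℂ → ℂ} {k : ℕ}
    {P : Fin k → MvPolynomial (Fin n × Fin n) ℂ} {q : MvPolynomial (Fin n × Fin n) ℂ}
    (hs : ∀ i x, x ≠ 0 → ∀ V, Zr P V → Zr P (V * lam i x) ∧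
      MvPolynomial.eval (mv (V * lam i x)) q * h i x = MvPolynomial.eval (mv V) q)
    {t : Fin r → ℂ} (ht : ∀ i, t i ≠ 0) (ks : List (Fin r)) :
    ∀ V, Zr P V → Zr P (V * pmat lam t ks) ∧
      MvPolynomial.eval (mv (V * pmat lam t ks)) q * pfac h t ks =
        MvPolynomial.eval (mv V) q := by
  induction ks with
  | nil =>
    intro V hV
    rw [pmat, pfac, Matrix.mul_one, mul_one]
    exact ⟨hV, rfl⟩
  | cons i ks ih =>
    intro V hV
    obtain ⟨h1, h2⟩ := hs i (t i) (ht i) V hV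
    obtain ⟨h3, h4⟩ := ih _ h1
    rw [pmat, pfac, ← Matrix.mul_assoc]
    refine ⟨h3, ?_⟩
    rw [← h2, ← h4]
    ring

end Pool.Agent.N626
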