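import Mathlib

/-!
A Jacobian criterion for forms, and indices outside an ideal of sequences.
-/

set_option autoImplicit false

namespace Pool.Agent.N626

open MvPolynomial

theorem chain_rule {σ τ : Type} [Fintype σ] (v : σ → MvPolynomial τ ℂ) (k : τ)
    (G : MvPolynomial σ ℂ) :
    pderiv k (aeval v G) = ∑ j, aeval v (pderiv j G) * pderiv k (v j) := by
  classical
  induction G using MvPolynomial.induction_on with
  | C a => simp
  | add p q hp hq =>
    simp only [map_add, hp, hq, add_mul, Finset.sum_add_distrib]
  | mul_X p j hp =>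
    simp only [Derivation.leibniz, smul_eq_mul, map_add, map_mul, aeval_X, hp,
      pderiv_X, add_mul, Finset.sum_add_distrib, Finset.mul_sum]
    congr 1
    · rw [Finset.sum_eq_single j]
      · simp
      · intro b _ hb
        rw [Pi.single_eq_of_ne' hb, map_zero, mul_zero, zero_mul]
      · intro h
        exact absurd (Finset.mem_univ j) h
    · exact Finset.sum_congr rfl fun x _ => by ring

/-- **A Jacobian criterion.** -/
theorem jac {d r : ℕ} (v : Fin (d + 1) → MvPolynomial (Fin r) ℂ) (t : Fin r → ℂ)
    (h0 : v 0 ≠ 0) (c : Fin d → Fin r → ℂ)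
    (hc : ∀ i i', ∑ k, c i k * eval t (pderiv k (v (Fin.succ i')) * v 0 -
      v (Fin.succ i') * pderiv k (v 0)) = if i = i' then 1 else 0) :
    ∀ (D : ℕ) (G : MvPolynomial (Fin (d + 1)) ℂ), G.IsHomogeneous D → aeval v G = 0 → G = 0 := by
  classical
  intro D
  induction D with
  | zero =>
    intro G hG hz
    have h1 := totalDegree_eq_zero_iff_eq_C.1 (Nat.le_zero.1 hG.totalDegree_le)
    rw [h1, algHom_C, algebraMap_eq, C_eq_zero] at hz
    rw [h1, hz, C_0]
  | succ D ih =>
    intro G hG hz
    have hE := hG.sum_X_mul_pderiv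
    have hE' : ∑ j, v j * aeval v (pderiv j G) = 0 := by
      have h1 := congrArg (aeval v) hE
      rw [map_sum, map_nsmul, hz, smul_zero] at h1
      rw [← h1]
      refine Finset.sum_congr rfl fun j _ => ?_
      rw [map_mul, aeval_X]
    rw [Fin.sum_univ_succ] at hE'
    have hch : ∀ k, ∑ i' : Fin d, aeval v (pderiv (Fin.succ i') G) *
        (pderiv k (v (Fin.succ i')) * v 0 - v (Fin.succ i') * pderiv k (v 0)) = 0 := by
      intro k
      have h1 := chain_rule v k G
      rw [hz, map_zero, Fin.sum_univ_succ] at h1
      have h2 : ∑ i' : Fin d, aeval v (pderiv (Fin.succ i') G) *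
          (pderiv k (v (Fin.succ i')) * v 0 - v (Fin.succ i') * pderiv k (v 0)) =
          (∑ i' : Fin d, aeval v (pderiv (Fin.succ i') G) * pderiv k (v (Fin.succ i'))) * v 0 -
          (∑ i' : Fin d, v (Fin.succ i') * aeval v (pderiv (Fin.succ i') G)) * pderiv k (v 0) := by
        rw [Finset.sum_mul, Finset.sum_mul, ← Finset.sum_sub_distrib]
        exact Finset.sum_congr rfl fun i' _ => by ring
      rw [h2]
      linear_combination (-v 0) * h1 - pderiv k (v 0) * hE'
    let A : Matrix (Fin d) (Fin d) (MvPolynomial (Fin r) ℂ) := Matrix.of fun i i' =>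
      ∑ k, C (c i k) * (pderiv k (v (Fin.succ i')) * v 0 - v (Fin.succ i') * pderiv k (v 0))
    have hA : A.mulVec (fun i' => aeval v (pderiv (Fin.succ i') G)) = 0 := by
      funext i
      rw [Matrix.mulVec, dotProduct, Pi.zero_apply]
      simp only [A, Matrix.of_apply, Finset.sum_mul]
      rw [Finset.sum_comm]
      refine Finset.sum_eq_zero fun k _ => ?_
      have h2 := congrArg (fun y => C (c i k) * y) (hch k)
      simp only [mul_zero, Finset.mul_sum] at h2
      rw [← h2]
      exact Finset.sum_congr rfl fun i' _ => by ring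
    have hdet : A.det ≠ 0 := by
      intro h1
      have h2 := congrArg (eval t) h1
      rw [RingHom.map_det, map_zero] at h2
      have h3 : (eval t).mapMatrix A = 1 := by
        ext i i'
        rw [RingHom.mapMatrix_apply, Matrix.map_apply, Matrix.one_apply, ← hc i i']
        simp only [A, Matrix.of_apply, map_sum, map_mul, eval_C]
      rw [h3, Matrix.det_one] at h2
      exact one_ne_zero h2
    have hz1 := Matrix.eq_zero_of_mulVec_eq_zero hdet hA
    have hz2 : ∀ i' : Fin d, aeval v (pderiv (Fin.succ i') G) = 0 := fun i' => congrFun hz1 i'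
    have hz3 : aeval v (pderiv 0 G) = 0 := by
      have h1 : v 0 * aeval v (pderiv 0 G) = 0 := by
        rw [← hE']
        rw [Finset.sum_eq_zero (s := Finset.univ) fun i' _ => by rw [hz2 i', mul_zero], add_zero]
      exact (mul_eq_zero.1 h1).resolve_left h0
    have hall : ∀ j, pderiv j G = 0 := by
      intro j
      have h1 : (pderiv j G).IsHomogeneous D := by
        have := hG.pderiv (i := j)
        rwa [Nat.add_sub_cancel] at this
      refine ih _ h1 ?_
      refine Fin.cases hz3 (fun i' => hz2 i') j
    rw [Finset.sum_eq_zero (s := Finset.univ) fun j _ => by rw [hall j, mul_zero]] at hE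
    rw [eq_comm, nsmul_eq_mul] at hE
    rcases mul_eq_zero.1 hE with h1 | h1
    · have h2 := (Nat.cast_eq_zero (R := MvPolynomial (Fin (d + 1)) ℂ)).1 h1
      exact absurd h2 (Nat.succ_ne_zero D)
    · exact h1

end Pool.Agent.N626
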