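import Pool.Agent.N626.Dh

/-!
Transcendence bases of projective varieties in terms of forms.
-/

set_option autoImplicit false

namespace Pool.Agent.N626

open MvPolynomial

/-- homogenization with a new first variable -/
noncomputable def hgz {R : Type} [CommRing R] {d : ℕ} (H : MvPolynomial (Fin d) R) :
    MvPolynomial (Fin (d + 1)) R :=
  ∑ k ∈ Finset.range (H.totalDegree + 1),
    X 0 ^ (H.totalDegree - k) * rename Fin.succ (homogeneousComponent k H)

theorem hgz_hom {R : Type} [CommRing R] {d : ℕ} (H : MvPolynomial (Fin d) R) :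
    (hgz H).IsHomogeneous H.totalDegree := by
  unfold hgz
  apply IsHomogeneous.sum
  intro k hk
  have hk' : k ≤ H.totalDegree := Nat.lt_succ_iff.1 (Finset.mem_range.1 hk)
  have h1 : H.totalDegree = (H.totalDegree - k) + k := by omega
  conv_rhs => rw [h1]
  exact (isHomogeneous_X_pow 0 _).mul
    ((homogeneousComponent_isHomogeneous k H).rename_isHomogeneous)

theorem aeval_hgz {R : Type} [CommRing R] {d : ℕ} {F : Type} [Field F] [Algebra R F]
    (H : MvPolynomial (Fin d) R) {u0 : F} (h0 : u0 ≠ 0) (u : Fin d → F) :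
    aeval (Fin.cons u0 u : Fin (d + 1) → F) (hgz H) =
      u0 ^ H.totalDegree * aeval (fun j => u j / u0) H := by
  unfold hgz
  rw [map_sum]
  have h1 : aeval (fun j => u j / u0) H = ∑ k ∈ Finset.range (H.totalDegree + 1),
      aeval (fun j => u j / u0) (homogeneousComponent k H) := by
    conv_lhs => rw [← sum_homogeneousComponent H]
    rw [map_sum]
  rw [h1, Finset.mul_sum]
  refine Finset.sum_congr rfl fun k hk => ?_
  have hk' : k ≤ H.totalDegree := Nat.lt_succ_iff.1 (Finset.mem_range.1 hk)
  have h2 : aeval u (homogeneousComponent k H) =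
      u0 ^ k * aeval (fun j => u j / u0) (homogeneousComponent k H) := by
    have h3 : u = fun j => u0 * (u j / u0) := by
      funext j
      field_simp
    conv_lhs => rw [h3]
    rw [aeval_def, aeval_def, eval₂_eq, eval₂_eq, Finset.mul_sum]
    refine Finset.sum_congr rfl fun m hm => ?_
    have h1 : m.degree = k := by
      have h2 := homogeneousComponent_isHomogeneous k H (mem_support_iff.1 hm)
      rw [Finsupp.degree_eq_weight_one]
      exact h2
    rw [← h1, Finsupp.degree_eq_sum]
    simp only [mul_pow, Finset.prod_mul_distrib]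
    rw [Finset.prod_subset (Finset.subset_univ m.support) (f := fun i => u0 ^ m i) (fun i _ hi => by
      rw [Finsupp.notMem_support_iff.1 hi, pow_zero]), Finset.prod_pow_eq_pow_sum]
    ring
  rw [map_mul, map_pow, aeval_X, Fin.cons_zero, aeval_rename]
  have h4 : (Fin.cons u0 u : Fin (d + 1) → F) ∘ Fin.succ = u := by
    funext j
    rfl
  rw [h4, h2]
  have h5 : u0 ^ H.totalDegree = u0 ^ (H.totalDegree - k) * u0 ^ k := by
    rw [← pow_add, Nat.sub_add_cancel hk']
  rw [h5]
  ring

theorem hgz_ne {R : Type} [CommRing R] {d : ℕ} {H : MvPolynomial (Fin d) R} (h : hgz H = 0) :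
    H = 0 := by
  have h1 := congrArg (aeval (Fin.cons 1 X : Fin (d + 1) → MvPolynomial (Fin d) R)) h
  unfold hgz at h1
  rw [map_zero, map_sum] at h1
  have h2 : ∀ k ∈ Finset.range (H.totalDegree + 1),
      aeval (Fin.cons 1 X : Fin (d + 1) → MvPolynomial (Fin d) R)
        (X 0 ^ (H.totalDegree - k) * rename Fin.succ (homogeneousComponent k H)) =
      homogeneousComponent k H := by
    intro k _
    rw [map_mul, map_pow, aeval_X, Fin.cons_zero, one_pow, one_mul, aeval_rename]
    have h4 : (Fin.cons 1 X : Fin (d + 1) → MvPolynomial (Fin d) R) ∘ Fin.succ = X := by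
      funext j
      rfl
    rw [h4, aeval_X_left_apply]
  rw [Finset.sum_congr rfl h2, sum_homogeneousComponent] at h1
  exact h1

/-- homogeneous relations -/
theorem dehom {d D : ℕ} {G : MvPolynomial (Fin (d + 1)) ℂ} (hG : G.IsHomogeneous D)
    (h : aeval (Fin.cons 1 X : Fin (d + 1) → MvPolynomial (Fin d) ℂ) G = 0) : G = 0 := by
  have h1 : X 0 * G = 0 := by
    apply MvPolynomial.funext
    intro t
    rw [map_zero, map_mul, eval_X]
    by_cases ht : t 0 = 0
    · rw [ht, zero_mul]
    · have h2 : eval t G = t 0 ^ D * eval (fun j => t j / t 0) G := by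
        have h3 : t = fun j => t 0 * (t j / t 0) := by
          funext j
          field_simp
        conv_lhs => rw [h3]
        rw [← MvPolynomial.aeval_eq_eval, ← MvPolynomial.aeval_eq_eval]
        exact form_scale' hG _ _
      have h3 : eval (fun j => t j / t 0) G = 0 := by
        have h5 := MvPolynomial.comp_aeval_apply
          (f := (Fin.cons 1 X : Fin (d + 1) → MvPolynomial (Fin d) ℂ))
          (MvPolynomial.aeval fun j : Fin d => t j.succ / t 0 : MvPolynomial (Fin d) ℂ →ₐ[ℂ] ℂ) G
        have h6 : (fun i => (MvPolynomial.aeval fun j : Fin d => t j.succ / t 0 :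
            MvPolynomial (Fin d) ℂ →ₐ[ℂ] ℂ) ((Fin.cons 1 X : Fin (d + 1) →
              MvPolynomial (Fin d) ℂ) i)) = fun j => t j / t 0 := by
          funext i
          refine Fin.cases ?_ (fun i => ?_) i
          · simp only [Fin.cons_zero, map_one]
            rw [div_self ht]
          · simp only [Fin.cons_succ, aeval_X]
        rw [h6, h, map_zero] at h5
        rw [← MvPolynomial.aeval_eq_eval]
        exact h5.symm
      rw [h2, h3, mul_zero, mul_zero]
  exact (mul_eq_zero.1 h1).resolve_left (X_ne_zero 0)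

variable {N : ℕ}

/-- **Transcendence bases in terms of forms.** -/
theorem exists_basis {p : Ideal (MvPolynomial (Fin (N + 1)) ℂ)} (hp : p.IsPrime) {l : Fin (N + 1)}
    (hl : (X l : MvPolynomial (Fin (N + 1)) ℂ) ∉ p) :
    ∃ (d : ℕ) (a : Fin d → Fin (N + 1)),
      (∀ (D : ℕ) (G : MvPolynomial (Fin (d + 1)) ℂ), G.IsHomogeneous D →
        rename (Fin.cons l a : Fin (d + 1) → Fin (N + 1)) G ∈ p → G = 0) ∧
      ∀ (R : Type) [CommRing R] [IsDomain R] [Algebra ℂ R] (w : Fin (N + 1) → R),
        (∀ G ∈ p, (∃ e, G.IsHomogeneous e) → aeval w G = 0) → w l ≠ 0 →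
        (∀ (D : ℕ) (G : MvPolynomial (Fin (d + 1)) ℂ), G.IsHomogeneous D →
          aeval (fun j => w ((Fin.cons l a : Fin (d + 1) → Fin (N + 1)) j)) G = 0 → G = 0) →
        ∀ G : MvPolynomial (Fin (N + 1)) ℂ, (∃ e, G.IsHomogeneous e) → aeval w G = 0 → G ∈ p := by
  classical
  have hdom : IsDomain (MvPolynomial (Fin (N + 1)) ℂ ⧸ p) := Ideal.Quotient.isDomain p
  let K := FractionRing (MvPolynomial (Fin (N + 1)) ℂ ⧸ p)
  let π : MvPolynomial (Fin (N + 1)) ℂ →ₐ[ℂ] K :=
    (IsScalarTower.toAlgHom ℂ (MvPolynomial (Fin (N + 1)) ℂ ⧸ p) K).comp (Ideal.Quotient.mkₐ ℂ p)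
  have hπ : ∀ G, π G = 0 ↔ G ∈ p := by
    intro G
    change algebraMap (MvPolynomial (Fin (N + 1)) ℂ ⧸ p) K (Ideal.Quotient.mk p G) = 0 ↔ _
    rw [map_eq_zero_iff _ (IsFractionRing.injective _ K), Ideal.Quotient.eq_zero_iff_mem]
  let y : Fin (N + 1) → K := fun j => π (X j)
  have hy : ∀ G : MvPolynomial (Fin (N + 1)) ℂ, aeval y G = π G := by
    intro G
    have h1 := MvPolynomial.comp_aeval_apply (f := (X : Fin (N + 1) → _)) π G
    rw [aeval_X_left_apply] at h1
    exact h1.symm
  have hyl : y l ≠ 0 := fun h0 => hl ((hπ _).1 h0)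
  let r : Fin (N + 1) → K := fun j => y j / y l
  -- the homogenization in the projective coordinates
  let hm : MvPolynomial (Fin (N + 1)) ℂ → MvPolynomial (Fin (N + 1)) ℂ := fun H =>
    aeval (Fin.cons (X l) X : Fin (N + 1 + 1) → MvPolynomial (Fin (N + 1)) ℂ) (hgz H)
  have hmev : ∀ {F : Type} [Field F] [Algebra ℂ F] (u : Fin (N + 1) → F), u l ≠ 0 →
      ∀ H, aeval u (hm H) = u l ^ H.totalDegree * aeval (fun j => u j / u l) H := by
    intro F _ _ u hu H
    rw [← aeval_hgz H hu u]
    have h1 := MvPolynomial.comp_aeval_apply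
      (f := (Fin.cons (X l) X : Fin (N + 1 + 1) → MvPolynomial (Fin (N + 1)) ℂ))
      (MvPolynomial.aeval u : MvPolynomial (Fin (N + 1)) ℂ →ₐ[ℂ] F) (hgz H)
    rw [h1]
    congr 2
    funext i
    refine Fin.cases ?_ (fun i => ?_) i
    · simp only [Fin.cons_zero, aeval_X]
    · simp only [Fin.cons_succ, aeval_X]
  have hmhom : ∀ H, (hm H).IsHomogeneous H.totalDegree := by
    intro H
    have h1 := (hgz_hom H).eval₂ (C (σ := Fin (N + 1)) (R := ℂ))
      (Fin.cons (X l) X : Fin (N + 1 + 1) → MvPolynomial (Fin (N + 1)) ℂ) (n := 1)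
      (fun c => isHomogeneous_C _ c) (fun i => by
        refine Fin.cases ?_ (fun i => ?_) i
        · exact isHomogeneous_X _ _
        · exact isHomogeneous_X _ _)
    rw [one_mul] at h1
    exact h1
  let R0 := Algebra.adjoin ℂ (Set.range r)
  have hr : ∀ j, r j ∈ R0 := fun j => Algebra.subset_adjoin ⟨j, rfl⟩
  let r' : Fin (N + 1) → R0 := fun j => ⟨r j, hr j⟩
  have hspan : Algebra.adjoin ℂ (Set.range r') = ⊤ := by
    rw [eq_top_iff]
    intro x _
    obtain ⟨x, hx⟩ := x
    have h1 : x ∈ (Algebra.adjoin ℂ (Set.range r')).map R0.val := by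
      rw [AlgHom.map_adjoin]
      have h2 : R0.val '' Set.range r' = Set.range r := by
        rw [← Set.range_comp]
        rfl
      rw [h2]
      exact hx
    obtain ⟨x', hx', hxe⟩ := h1
    have h3 : x' = ⟨x, hx⟩ := Subtype.ext hxe
    rw [← h3]
    exact hx'
  have halg : Algebra.IsAlgebraic (Algebra.adjoin ℂ (Set.range r')) R0 := by
    refine ⟨fun x => ?_⟩
    have hx : x ∈ Algebra.adjoin ℂ (Set.range r') := by
      rw [hspan]
      exact Algebra.mem_top
    exact isAlgebraic_algebraMap (⟨x, hx⟩ : Algebra.adjoin ℂ (Set.range r'))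
  obtain ⟨t, hts, ht⟩ := exists_isTranscendenceBasis_subset (R := ℂ) (A := R0) (Set.range r')
  obtain ⟨d, b, hx⟩ : ∃ (d : ℕ) (b : Fin d → Fin (N + 1)),
      IsTranscendenceBasis ℂ (fun i : Fin d => r' (b i)) := by
    have htf : t.Finite := (Set.finite_range r').subset hts
    have := htf.fintype
    let e := Fintype.equivFin t
    choose b hb using fun i : Fin (Fintype.card t) => hts (e.symm i).2
    refine ⟨Fintype.card t, b, ?_⟩
    have h1 : (fun i : Fin (Fintype.card t) => r' (b i)) =
        (fun i : t => (i : R0)) ∘ e.symm := by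
      funext i
      exact hb i
    rw [h1]
    exact (isTranscendenceBasis_equiv e.symm).2 ht
  refine ⟨d, b, fun D G hG hGp => ?_, fun R _ _ _ w hw hwl hwi G hG hGw => ?_⟩
  · apply dehom hG
    have h1 : aeval (fun i => r' (b i))
        (aeval (Fin.cons 1 X : Fin (d + 1) → MvPolynomial (Fin d) ℂ) G) = 0 := by
      apply Subtype.ext
      have h2 := MvPolynomial.comp_aeval_apply
        (f := (Fin.cons 1 X : Fin (d + 1) → MvPolynomial (Fin d) ℂ))
        (R0.val.comp (MvPolynomial.aeval fun i => r' (b i))) G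
      have h3 : (fun i => (R0.val.comp (MvPolynomial.aeval fun i => r' (b i)))
          ((Fin.cons 1 X : Fin (d + 1) → MvPolynomial (Fin d) ℂ) i)) = fun i =>
            (y l)⁻¹ * y ((Fin.cons l b : Fin (d + 1) → Fin (N + 1)) i) := by
        funext i
        refine Fin.cases ?_ (fun i => ?_) i
        · simp only [Fin.cons_zero, map_one]
          rw [inv_mul_cancel₀ hyl]
        · simp only [Fin.cons_succ, AlgHom.comp_apply, aeval_X]
          change y (b i) / y l = _
          rw [div_eq_inv_mul]
      rw [h3, form_scale' hG] at h2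
      have h4 : aeval (fun i => y ((Fin.cons l b : Fin (d + 1) → Fin (N + 1)) i)) G = 0 := by
        have h5 := (hπ _).2 hGp
        rw [← hy, aeval_rename] at h5
        exact h5
      rw [h4, mul_zero] at h2
      exact h2
    exact (map_eq_zero_iff _ hx.1).1 h1
  · by_contra hGp
    obtain ⟨eG, heG⟩ := hG
    let g : R0 := aeval r' G
    have hgv : (g : K) = aeval r G := by
      have h2 := MvPolynomial.comp_aeval_apply (f := r') R0.val G
      exact h2
    have hyG : aeval y G = y l ^ eG * aeval r G := by
      have h3 : y = fun j => y l * r j := by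
        funext j
        rw [mul_comm]
        exact (div_mul_cancel₀ (y j) hyl).symm
      conv_lhs => rw [h3]
      exact form_scale' heG _ _
    have hg0 : g ≠ 0 := by
      intro h0
      apply hGp
      rw [← hπ, ← hy, hyG, ← hgv, h0]
      simp
    have hgalg : IsAlgebraic (Algebra.adjoin ℂ (Set.range fun i => r' (b i))) g :=
      hx.isAlgebraic.isAlgebraic g
    obtain ⟨q, hq0, hq⟩ := hgalg.exists_nonzero_coeff_and_aeval_eq_zero
      (mem_nonZeroDivisors_of_ne_zero hg0)
    have hc : ∀ k, ∃ c : MvPolynomial (Fin d) ℂ, aeval (fun i => r' (b i)) c = (q.coeff k : R0) := by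
      intro k
      have h1 : (q.coeff k : R0) ∈ (aeval (R := ℂ) fun i => r' (b i)).range := by
        rw [← Algebra.adjoin_range_eq_range_aeval]
        exact (q.coeff k).2
      exact h1
    choose c hc using hc
    have hc0 : c 0 ≠ 0 := by
      intro h0
      apply hq0
      apply Subtype.ext
      rw [← hc 0, h0, map_zero]
      rfl
    let H : MvPolynomial (Fin (N + 1)) ℂ :=
      ∑ k ∈ Finset.range (q.natDegree + 1), rename b (c k) * G ^ k
    have hH : aeval r' H = 0 := by
      simp only [H, map_sum, map_mul, map_pow, aeval_rename]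
      rw [← hq, Polynomial.aeval_eq_sum_range]
      refine Finset.sum_congr rfl fun k _ => ?_
      rw [Algebra.smul_def]
      have h1 : aeval (r' ∘ b) (c k) = (q.coeff k : R0) := hc k
      rw [h1]
      rfl
    have hHp : hm H ∈ p := by
      rw [← hπ, ← hy, hmev y hyl]
      have h1 : aeval r H = 0 := by
        have h2 := MvPolynomial.comp_aeval_apply (f := r') R0.val H
        rw [hH, map_zero] at h2
        exact h2.symm
      have h2 : (fun j => y j / y l) = r := rfl
      rw [h2, h1, mul_zero]
    -- the values at `w`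
    let F := FractionRing R
    have hinj : Function.Injective (algebraMap R F) := IsFractionRing.injective R F
    let u : Fin (N + 1) → F := fun j => algebraMap R F (w j)
    have hu : ∀ {σ : Type} (a : σ → Fin (N + 1)) (G' : MvPolynomial σ ℂ),
        aeval (fun i => u (a i)) G' = algebraMap R F (aeval (fun i => w (a i)) G') := by
      intro σ a G'
      have h2 := MvPolynomial.comp_aeval_apply (f := fun i => w (a i))
        (IsScalarTower.toAlgHom ℂ R F) G'
      exact h2.symm
    have hul : u l ≠ 0 := by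
      rw [Ne, map_eq_zero_iff _ hinj]
      exact hwl
    have h1 : aeval u (hm H) = 0 := by
      have h2 := hu id (hm H)
      have h3 : aeval (fun i => w (id i)) (hm H) = 0 := hw _ hHp ⟨_, hmhom H⟩
      rw [h3, map_zero] at h2
      exact h2
    rw [hmev u hul] at h1
    have h2 := (mul_eq_zero.1 h1).resolve_left (pow_ne_zero _ hul)
    have hGu : aeval (fun j => u j / u l) G = 0 := by
      have h3 : (fun j => u j / u l) = fun j => (u l)⁻¹ * u j := by
        funext j
        rw [div_eq_inv_mul]
      rw [h3, form_scale' heG]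
      have h4 := hu id G
      have h5 : aeval (fun i => w (id i)) G = 0 := hGw
      rw [h5, map_zero] at h4
      have h6 : aeval u G = 0 := h4
      rw [h6, mul_zero]
    have h3 : aeval (fun i => u (b i) / u l) (c 0) = 0 := by
      simp only [H, map_sum, map_mul, map_pow, hGu] at h2
      rw [Finset.sum_range_succ', Finset.sum_eq_zero, zero_add, pow_zero, mul_one,
        aeval_rename] at h2
      · exact h2
      · intro k _
        rw [pow_succ, mul_zero, mul_zero]
    have h4 := aeval_hgz (c 0) hul fun i => u (b i)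
    rw [h3, mul_zero] at h4
    have h5 : (Fin.cons (u l) fun i => u (b i) : Fin (d + 1) → F) =
        fun i => u ((Fin.cons l b : Fin (d + 1) → Fin (N + 1)) i) := by
      funext i
      refine Fin.cases ?_ (fun i => ?_) i
      · rfl
      · rfl
    rw [h5, hu, map_eq_zero_iff _ hinj] at h4
    exact hc0 (hgz_ne (hwi _ _ (hgz_hom _) h4))

end Pool.Agent.N626
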