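import Pool.Agent.N626.Kb
import Pool.Agent.N626.Kc
import Pool.Agent.N626.Kd
import Pool.Agent.N626.Ke

/-!
The polynomials given by products of one-parameter families, and algebraic independence over the
field of coefficients.
-/

set_option autoImplicit false

namespace Pool.Agent.N626

open MvPolynomial Filter Pool.Agent.TH143 Pool.Agent.TH143.DE

variable {n N r : ℕ} {B : Subalgebra ℂ (ℕ → ℂ)}

theorem exists_w {lam : Fin r → ℂ → Matrix (Fin n) (Fin n) ℂ}
    {δ : Fin r → Matrix (Fin n) (Fin n) ℂ}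
    (hl : ∀ k i j, Pool.Agent.H159R3.Exp.Laur fun x => lam k x i j) (h1 : ∀ k, lam k 1 = 1)
    (hd : ∀ k i j, HasDerivAt (fun x => lam k x i j) (δ k i j) 1) (V : Matrix (Fin n) (Fin n) ℂ)
    (Φ : Fin (N + 1) → MvPolynomial (Fin n × Fin n) ℂ) :
    ∃ (M : ℕ) (w : Fin (N + 1) → MvPolynomial (Fin r) ℂ),
      (∀ t : Fin r → ℂ, (∀ k, t k ≠ 0) → ∀ j, eval t (w j) =
        (∏ k, t k) ^ M * eval (mv (V * pmat lam t (List.finRange r))) (Φ j)) ∧
      (∀ j, eval (fun _ => 1) (w j) = eval (mv V) (Φ j)) ∧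
      ∀ k j, eval (fun _ => 1) (pderiv k (w j)) =
        M * eval (mv V) (Φ j) + eval (mv V) (Dc (δ k) (Φ j)) := by
  classical
  have hML : ∀ j : Fin (N + 1), ML fun t : Fin r → ℂ =>
      eval (mv (V * pmat lam t (List.finRange r))) (Φ j) := by
    intro j
    refine ML.eval (h := fun t => mv (V * pmat lam t (List.finRange r))) (fun p => ?_) (Φ j)
    have h2 : (fun t : Fin r → ℂ => mv (V * pmat lam t (List.finRange r)) p) = fun t =>
        ∑ c, V p.1 c * pmat lam t (List.finRange r) c p.2 := by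
      funext t
      exact Matrix.mul_apply
    rw [h2]
    exact ML.sum _ fun c _ => (ML.const _).mul (pmat_ML hl _ c p.2)
  obtain ⟨M, w, hw⟩ := ML.common hML
  have hone : ∀ j, eval (fun _ => 1) (w j) = eval (mv V) (Φ j) := by
    intro j
    rw [← hw (fun _ => 1) (fun _ => one_ne_zero) j, pmat_one h1, Matrix.mul_one]
    simp
  refine ⟨M, w, fun t ht j => (hw t ht j).symm, hone, fun k j => ?_⟩
  have hu : ∀ l, HasDerivAt (fun y : ℂ => (Function.update (fun _ => (1 : ℂ)) k y : Fin r → ℂ) l)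
      ((Pi.single k 1 : Fin r → ℂ) l) 1 := by
    intro l
    by_cases hlk : l = k
    · subst hlk
      simp only [Function.update_self, Pi.single_eq_same]
      exact hasDerivAt_id' 1
    · simp only [Function.update_of_ne hlk, Pi.single_eq_of_ne hlk]
      exact hasDerivAt_const _ _
  have h2 := Pool.Agent.H159R3.Exp.hasDerivAt_eval
    (fun y : ℂ => (Function.update (fun _ => (1 : ℂ)) k y : Fin r → ℂ)) _ 1 hu (w j)
  have h3 : (Function.update (fun _ => (1 : ℂ)) k 1 : Fin r → ℂ) = fun _ => 1 := by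
    funext l
    by_cases hlk : l = k
    · subst hlk
      rw [Function.update_self]
    · rw [Function.update_of_ne hlk]
  rw [h3] at h2
  have h4 : ∑ l, eval (fun _ => 1) (pderiv l (w j)) * (Pi.single k 1 : Fin r → ℂ) l =
      eval (fun _ => 1) (pderiv k (w j)) := by
    rw [Finset.sum_eq_single k]
    · rw [Pi.single_eq_same, mul_one]
    · intro l _ hlk
      rw [Pi.single_eq_of_ne hlk, mul_zero]
    · intro h
      exact absurd (Finset.mem_univ k) h
  rw [h4] at h2
  have h5 : ∀ p : Fin n × Fin n, HasDerivAt (fun y => mv (V * lam k y) p) ((V * δ k) p.1 p.2) 1 := by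
    intro p
    have h6 : (fun y => mv (V * lam k y) p) = fun y => ∑ c, V p.1 c * lam k y c p.2 := by
      funext y
      exact Matrix.mul_apply
    rw [h6, Matrix.mul_apply]
    apply HasDerivAt.fun_sum
    intro c _
    exact (hd k c p.2).const_mul _
  have h6 := Pool.Agent.H159R3.Exp.hasDerivAt_eval (fun y => mv (V * lam k y)) _ 1 h5 (Φ j)
  rw [h1 k, Matrix.mul_one] at h6
  have h7 : ∑ l, eval (mv V) (pderiv l (Φ j)) * (V * δ k) l.1 l.2 =
      eval (mv V) (Dc (δ k) (Φ j)) := by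
    rw [← dL_apply]
    rfl
  rw [h7] at h6
  have h8 := (hasDerivAt_pow M (1 : ℂ)).mul h6
  have h9 : (fun y : ℂ => eval (Function.update (fun _ => (1 : ℂ)) k y : Fin r → ℂ) (w j))
      =ᶠ[nhds 1] fun y => y ^ M * eval (mv (V * lam k y)) (Φ j) := by
    filter_upwards [isOpen_ne.mem_nhds (one_ne_zero (α := ℂ))] with y hy
    have e1 : ∀ k', (Function.update (fun _ => (1 : ℂ)) k y : Fin r → ℂ) k' ≠ 0 := by
      intro k'
      by_cases hk : k' = k
      · subst hk
        rw [Function.update_self]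
        exact hy
      · rw [Function.update_of_ne hk]
        exact one_ne_zero
    rw [← hw _ e1 j, pmat_update h1 (List.mem_finRange k) (List.nodup_finRange r)]
    congr 2
    rw [Finset.prod_update_of_mem (Finset.mem_univ k)]
    simp
  have h10 := (h2.congr_of_eventuallyEq h9.symm).unique h8
  rw [h10, h1 k, Matrix.mul_one]
  simp

/-- the sequence of the values of a form over the coefficients -/
theorem valB {σ : Type} (v : ℕ → σ → ℂ) (G : MvPolynomial σ B) :
    (fun m => eval (v m) (at' m G)) =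
      eval₂ (B.val : B →+* (ℕ → ℂ)) (fun j m => v m j) G := by
  induction G using MvPolynomial.induction_on with
  | C b =>
    funext m
    rw [at'_C, eval_C, eval₂_C]
    rfl
  | add p q hp hq =>
    rw [eval₂_add, ← hp, ← hq]
    funext m
    rw [map_add, map_add]
    rfl
  | mul_X p j hp =>
    rw [eval₂_mul, eval₂_X, ← hp]
    funext m
    rw [map_mul, map_mul, at'_X, eval_X]
    rfl

theorem hom_at' {σ : Type} {G : MvPolynomial σ B} {D : ℕ} (hG : G.IsHomogeneous D) (m : ℕ) :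
    (at' m G).IsHomogeneous D := by
  unfold at'
  rw [MvPolynomial.mapAlgHom_apply]
  exact hG.map _

theorem rename_at' {σ τ : Type} (ι : σ → τ) (G : MvPolynomial σ B) (m : ℕ) :
    at' m (rename ι G) = rename ι (at' m G) := by
  unfold at'
  rw [MvPolynomial.mapAlgHom_apply, MvPolynomial.mapAlgHom_apply]
  exact map_rename _ _ _

/-- polynomials modulo eventually zero coefficients -/
noncomputable def piB (B : Subalgebra ℂ (ℕ → ℂ)) (σ : Type) :
    MvPolynomial σ B →+* MvPolynomial σ (B ⧸ ez B) :=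
  MvPolynomial.map (Ideal.Quotient.mk (ez B))

theorem piB_zero {σ : Type} {G : MvPolynomial σ B} :
    piB B σ G = 0 ↔ ∀ s : σ →₀ ℕ, ∀ᶠ m in atTop, ((coeff s G : B) : ℕ → ℂ) m = 0 := by
  have h1 : ∀ s, coeff s (piB B σ G) = Ideal.Quotient.mk (ez B) (coeff s G) := by
    intro s
    unfold piB
    rw [coeff_map]
  constructor
  · intro h s
    have h2 := h1 s
    rw [h, coeff_zero, eq_comm, Ideal.Quotient.eq_zero_iff_mem] at h2
    exact mem_ez.1 h2
  · intro h
    apply MvPolynomial.ext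
    intro s
    rw [h1, coeff_zero, Ideal.Quotient.eq_zero_iff_mem]
    exact mem_ez.2 (h s)

theorem piB_mul (hB : CoefField B) {σ : Type} {G G' : MvPolynomial σ B} (h : piB B σ G ≠ 0)
    (h' : piB B σ G' ≠ 0) : piB B σ (G * G') ≠ 0 := by
  have hprime : (ez B).IsPrime := (ez_maximal hB).isPrime
  have hdomB : IsDomain (B ⧸ ez B) := Ideal.Quotient.isDomain _
  rw [map_mul]
  exact mul_ne_zero h h'

/-- the coefficients -/
noncomputable def cfHom {I : Ideal (ℕ → ℂ)} (hB : CoefField B) (hI : EZ ≤ I) (K : Type) [Field K]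
    [Algebra ((ℕ → ℂ) ⧸ I) K] [Algebra ℂ K] [IsScalarTower ℂ ((ℕ → ℂ) ⧸ I) K] :
    B →+* cf hB hI K :=
  RingHom.codRestrict ((algebraMap ((ℕ → ℂ) ⧸ I) K).comp
    ((mk' I : (ℕ → ℂ) →+* (ℕ → ℂ) ⧸ I).comp (B.val : B →+* (ℕ → ℂ)))) (cf hB hI K)
    fun b => ⟨b, b.2, rfl⟩

theorem cfHom_surj {I : Ideal (ℕ → ℂ)} (hB : CoefField B) (hI : EZ ≤ I) (K : Type) [Field K]
    [Algebra ((ℕ → ℂ) ⧸ I) K] [Algebra ℂ K] [IsScalarTower ℂ ((ℕ → ℂ) ⧸ I) K] :
    Function.Surjective (cfHom hB hI K) := by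
  rintro ⟨_, b, hb, rfl⟩
  exact ⟨⟨b, hb⟩, rfl⟩

/-- **A prime ideal of sequences, and algebraic independence over the coefficients.** -/
theorem exists_prime (hB : CoefField B) {d : ℕ} (v : ℕ → Fin (d + 1) → ℂ)
    (hden : ∀ (D : ℕ) (G : MvPolynomial (Fin (d + 1)) B), G.IsHomogeneous D →
      (∀ᶠ m in atTop, eval (v m) (at' m G) = 0) → ∀ᶠ m in atTop, at' m G = 0) :
    ∃ (I : Ideal (ℕ → ℂ)) (_ : I.IsPrime) (hI : EZ ≤ I),
      (fun m => v m 0) ∉ I ∧
      ∀ (K : Type) [Field K] [Algebra ((ℕ → ℂ) ⧸ I) K] [Algebra ℂ K]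
        [IsScalarTower ℂ ((ℕ → ℂ) ⧸ I) K] [IsDomain ((ℕ → ℂ) ⧸ I)]
        [IsFractionRing ((ℕ → ℂ) ⧸ I) K],
        AlgebraicIndependent (cf hB hI K) fun i : Fin d =>
          algebraMap ((ℕ → ℂ) ⧸ I) K (mk' I fun m => v m (Fin.succ i)) /
            algebraMap ((ℕ → ℂ) ⧸ I) K (mk' I fun m => v m 0) := by
  classical
  let T : Submonoid (ℕ → ℂ) :=
    { carrier := {f | ∃ (D : ℕ) (G : MvPolynomial (Fin (d + 1)) B), G.IsHomogeneous D ∧ piB B (Fin (d + 1)) G ≠ 0 ∧
        ∀ᶠ m in atTop, f m = eval (v m) (at' m G)}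
      mul_mem' := by
        rintro f f' ⟨D, G, h1, h2, h3⟩ ⟨D', G', h1', h2', h3'⟩
        refine ⟨D + D', G * G', h1.mul h1', ?_, ?_⟩
        · exact piB_mul hB h2 h2'
        · filter_upwards [h3, h3'] with m e1 e2
          rw [Pi.mul_apply, e1, e2, map_mul, map_mul]
      one_mem' := ⟨0, 1, isHomogeneous_one _ _, by
        intro h0
        obtain ⟨m, hm⟩ := (piB_zero.1 h0 0).exists
        rw [coeff_zero_one] at hm
        exact one_ne_zero hm, Eventually.of_forall fun m => by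
          rw [map_one, map_one]
          rfl⟩ }
  have hdisj : Disjoint (EZ : Set (ℕ → ℂ)) T := by
    rw [Set.disjoint_left]
    rintro f hf ⟨D, G, h1, h2, h3⟩
    apply h2
    have h4 : ∀ᶠ m in atTop, at' m G = 0 := by
      apply hden D G h1
      filter_upwards [h3, mem_EZ.1 hf] with m e1 e2
      rw [← e1, e2]
    rw [piB_zero]
    intro s
    filter_upwards [h4] with m hm
    rw [← coeff_at', hm, coeff_zero]
  obtain ⟨I, hIp, hI, hIT⟩ := Ideal.exists_le_prime_disjoint EZ T hdisj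
  have hnI : ∀ (D : ℕ) (G : MvPolynomial (Fin (d + 1)) B), G.IsHomogeneous D → piB B (Fin (d + 1)) G ≠ 0 →
      (fun m => eval (v m) (at' m G)) ∉ I := by
    intro D G h1 h2 h3
    exact Set.disjoint_left.1 hIT h3 ⟨D, G, h1, h2, Eventually.of_forall fun _ => rfl⟩
  have h0 : (fun m => v m 0) ∉ I := by
    have h1 := hnI 1 (X 0) (isHomogeneous_X _ _) (by
      intro h0
      obtain ⟨m, hm⟩ := (piB_zero.1 h0 (Finsupp.single 0 1)).exists
      rw [coeff_X, if_pos rfl] at hm
      exact one_ne_zero hm)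
    simpa only [at'_X, eval_X] using h1
  refine ⟨I, hIp, hI, h0, ?_⟩
  intro K _ _ _ _ _ _
  let a : ((ℕ → ℂ) ⧸ I) →+* K := algebraMap _ K
  have ainj : Function.Injective a := IsFractionRing.injective _ K
  let z : Fin (d + 1) → K := fun j => a (mk' I fun m => v m j)
  have hz0 : z 0 ≠ 0 := by
    intro h1
    rw [map_eq_zero_iff a ainj, mk'_zero] at h1
    exact h0 h1
  let φ : B →+* cf hB hI K := cfHom hB hI K
  have hφ : Function.Surjective φ := cfHom_surj hB hI K
  have hφv : ∀ b : B, ((φ b : cf hB hI K) : K) = a (mk' I (b : ℕ → ℂ)) := fun _ => rfl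
  rw [algebraicIndependent_iff]
  intro P hP
  by_contra hne
  obtain ⟨G, hG⟩ := MvPolynomial.map_surjective (σ := Fin (d + 1)) φ hφ (hgz P)
  set D := P.totalDegree with hD
  let G' := homogeneousComponent D G
  have hG' : MvPolynomial.map φ G' = hgz P := by
    apply MvPolynomial.ext
    intro s
    rw [coeff_map, coeff_homogeneousComponent]
    by_cases hs : s.degree = D
    · rw [if_pos hs, ← hG, coeff_map]
    · rw [if_neg hs, map_zero]
      by_contra hne'
      apply hs
      have h1 := hgz_hom P (Ne.symm hne')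
      rw [Finsupp.degree_eq_weight_one]
      exact h1
  have hG'h : G'.IsHomogeneous D := homogeneousComponent_isHomogeneous D G
  refine hnI D G' hG'h ?_ ?_
  · intro h1
    apply hne
    apply hgz_ne
    rw [← hG']
    apply MvPolynomial.ext
    intro s
    have h2 := piB_zero.1 h1 s
    rw [coeff_map, coeff_zero]
    have h3 : φ (coeff s G') = 0 := by
      apply Subtype.ext
      rw [hφv, mk'_zero.2 (hI h2), map_zero]
      rfl
    rw [h3]
  · rw [← mk'_zero, ← map_eq_zero_iff a ainj, valB]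
    have h1 : a (mk' I (eval₂ (B.val : B →+* (ℕ → ℂ)) (fun j m => v m j) G')) =
        eval₂ ((a.comp (mk' I : (ℕ → ℂ) →+* (ℕ → ℂ) ⧸ I)).comp (B.val : B →+* (ℕ → ℂ))) z G' := by
      have h2 := MvPolynomial.hom_eval₂ G' (B.val : B →+* (ℕ → ℂ))
        (a.comp (mk' I : (ℕ → ℂ) →+* (ℕ → ℂ) ⧸ I)) (fun j m => v m j)
      exact h2
    rw [h1]
    have h2 : eval₂ ((a.comp (mk' I : (ℕ → ℂ) →+* (ℕ → ℂ) ⧸ I)).comp (B.val : B →+* (ℕ → ℂ))) z G' =
        aeval z (MvPolynomial.map φ G') := by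
      rw [aeval_def, eval₂_map]
      rfl
    rw [h2, hG']
    have h3 : z = (Fin.cons (z 0) fun i : Fin d => z (Fin.succ i) : Fin (d + 1) → K) := by
      funext i
      refine Fin.cases ?_ (fun i => ?_) i
      · rfl
      · rfl
    rw [h3, aeval_hgz P hz0]
    have h4 : aeval (fun j : Fin d => z (Fin.succ j) / z 0) P = 0 := hP
    rw [h4, mul_zero]

end Pool.Agent.N626
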