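import Pool.Agent.N626.Kf

/-!
Dense sequences of points given by linear difference equations: dominant maps from tori.
-/

set_option autoImplicit false

namespace Pool.Agent.N626

open MvPolynomial Filter Pool.Agent.TH143 Pool.Agent.TH143.DE

variable {N : ℕ} {B : Subalgebra ℂ (ℕ → ℂ)}

/-- derivations dual to algebraically independent elements -/
theorem dual_der {L K : Type} [Field L] [Field K] [Algebra L K] [CharZero L] {d : ℕ}
    {z : Fin d → K} (hz : AlgebraicIndependent L z) (i : Fin d) :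
    ∃ D : Derivation L K K, ∀ i', D (z i') = if i = i' then 1 else 0 := by
  classical
  have h1 : AlgebraicIndepOn L id (Set.range z) := hz.to_subtype_range
  obtain ⟨t, hst, ht⟩ := exists_isTranscendenceBasis_superset h1
  obtain ⟨D, hD⟩ := Pool.Agent.W602.GT.exists_der (fun i : t => i.1) ht
    (fun y => if y.1 = z i then 1 else 0)
  refine ⟨D, fun i' => ?_⟩
  have h2 := hD ⟨z i', hst ⟨i', rfl⟩⟩
  rw [h2]
  by_cases h : i = i'
  · subst h
    rw [if_pos rfl, if_pos rfl]
  · rw [if_neg h, if_neg]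
    intro h3
    exact h (hz.injective h3.symm)

/-- **Dominant maps from tori.** -/
theorem core_uni (hB : CoefField B) {p : Ideal (MvPolynomial (Fin (N + 1)) ℂ)} (hp : p.IsPrime)
    {l : Fin (N + 1)} (hl : (X l : MvPolynomial (Fin (N + 1)) ℂ) ∉ p)
    {x : ℕ → Fin (N + 1) → ℂ} (hx : ∀ j, LinRec B (fun m => x m j))
    (hon : ∀ G ∈ p, ∀ᶠ m in atTop, eval (x m) G = 0)
    (hden : ∀ (s D : ℕ) (G : MvPolynomial (Fin (N + 1)) B), G.IsHomogeneous D →
      (∀ᶠ m in atTop, eval (x (m + s)) (at' m G) = 0) → ∀ᶠ m in atTop, at' m G ∈ p)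
    {Q : MvPolynomial (Fin (N + 1)) ℂ} {q : ℕ} (hQe : Q.IsHomogeneous q)
    (hQ0 : ∀ᶠ m in atTop, eval (x m) Q ≠ 0) (b : B)
    (hQ : ∀ᶠ m in atTop, eval (x (m + 1)) Q = (b : ℕ → ℂ) m * eval (x m) Q) :
    ∃ (r : ℕ) (w : Fin (N + 1) → MvPolynomial (Fin r) ℂ),
      (∀ G ∈ p, (∃ e, G.IsHomogeneous e) → aeval w G = 0) ∧
      (∀ G : MvPolynomial (Fin (N + 1)) ℂ, (∃ e, G.IsHomogeneous e) → aeval w G = 0 → G ∈ p) ∧
      ∀ t : Fin r → ℂ, (∀ k, t k ≠ 0) → eval t (aeval w Q) ≠ 0 := by
  classical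
  obtain ⟨s, n, A, U, Φ, hU, hdet, hΦ⟩ := exists_sys hB (fun j m => x m j) hx
  have hpt : ∀ᶠ m in atTop, x (m + s) = pt U Φ m := by
    filter_upwards [hΦ] with m hm
    funext j
    exact hm j
  have hev : ∀ (R : MvPolynomial (Fin (N + 1)) ℂ) (m : ℕ),
      eval (mv (U m)) (bind₁ Φ R) = eval (pt U Φ m) R := fun R m => eval_bind Φ R _
  obtain ⟨L, k, P, hP, hgen, hL, hLW⟩ := lie hB A U hU
  have hq0 : ∀ᶠ m in atTop, eval (mv (U m)) (bind₁ Φ Q) ≠ 0 := by
    filter_upwards [hpt, eventually_shift hQ0 s] with m h1 h2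
    rw [hev, ← h1]
    exact h2
  have hbs : (fun m => (b : ℕ → ℂ) (m + s)) ∈ B := hB.toCoefRing.shift' b.2 s
  have hqr : ∀ᶠ m in atTop, eval (mv (U (m + 1))) (bind₁ Φ Q) =
      ((⟨_, hbs⟩ : B) : ℕ → ℂ) m * eval (mv (U m)) (bind₁ Φ Q) := by
    filter_upwards [hpt, eventually_shift hpt 1, eventually_shift hQ s] with m h1 h2 h3
    rw [hev, hev, ← h1, ← h2]
    have h4 : m + 1 + s = m + s + 1 := by ring
    rw [h4]
    exact h3
  obtain ⟨r, lam, h, δ, hOP, hspan⟩ := opf_span hB.shift hU hP hgen hLW (bind₁ Φ Q) hq0 ⟨_, hbs⟩ hqr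
  obtain ⟨d, a, hind, hdom⟩ := exists_basis hp hl
  let ι : Fin (d + 1) → Fin (N + 1) := Fin.cons l a
  obtain ⟨I, hIp, hI, hI0, hIind⟩ := exists_prime hB (fun m i => pt U Φ m (ι i)) (by
    intro D G hG hz
    have h1 : ∀ᶠ m in atTop, at' m (rename ι G) ∈ p := by
      apply hden s D (rename ι G) hG.rename_isHomogeneous
      filter_upwards [hpt, hz] with m h1 h2
      rw [rename_at', eval_rename, h1]
      exact h2
    filter_upwards [h1] with m hm
    rw [rename_at'] at hm
    exact hind D _ (hom_at' hG m) hm)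
  have hdomI : IsDomain ((ℕ → ℂ) ⧸ I) := Ideal.Quotient.isDomain I
  let KR := FractionRing ((ℕ → ℂ) ⧸ I)
  let aK : ((ℕ → ℂ) ⧸ I) →+* KR := algebraMap _ KR
  have ainj : Function.Injective aK := IsFractionRing.injective _ KR
  have halgI := hIind KR
  let z : Fin (N + 1) → KR := fun j => aK (cl I fun m => eval (mv (U m)) (Φ j))
  have hz0 : z l ≠ 0 := by
    intro h1
    rw [map_eq_zero_iff aK ainj, cl_zero] at h1
    exact hI0 h1
  have halg : AlgebraicIndependent (cf hB hI KR) fun i : Fin d => z (a i) / z l := halgI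
  choose Dr hDr using fun i => dual_der halg i
  have hDB : ∀ i, ∀ b ∈ B, Dr i (algebraMap ((ℕ → ℂ) ⧸ I) KR (cl I b)) = 0 := by
    intro i b hb
    exact (Dr i).map_algebraMap (⟨_, b, hb, rfl⟩ : cf hB hI KR)
  choose c hc using fun i => der_expand hI (Dr i : KR → KR) (fun u v => map_add (Dr i) u v)
    (fun u v => (Dr i).leibniz u v) (hDB i) U hdet L P hP hL δ hspan
  let Y : Fin r → Fin (N + 1) → ℕ → ℂ := fun k' j m => eval (mv (U m)) (Dc (δ k') (Φ j))
  let xs : Fin (N + 1) → ℕ → ℂ := fun j m => eval (mv (U m)) (Φ j)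
  have hmain : ∀ i i', ∑ k', c i k' * (aK (cl I (Y k' (a i'))) * z l - z (a i') *
      aK (cl I (Y k' l))) = (if i = i' then 1 else 0) * z l ^ 2 := by
    intro i i'
    have h1 : Dr i (z (a i')) = ∑ k', c i k' * aK (cl I (Y k' (a i'))) := hc i (Φ (a i'))
    have h2 : Dr i (z l) = ∑ k', c i k' * aK (cl I (Y k' l)) := hc i (Φ l)
    have h3 : z (a i') = (z (a i') / z l) * z l := (div_mul_cancel₀ _ hz0).symm
    have h4 : Dr i (z (a i')) = (z (a i') / z l) * Dr i (z l) +
        z l * (if i = i' then 1 else 0) := by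
      conv_lhs => rw [h3]
      rw [(Dr i).leibniz, smul_eq_mul, smul_eq_mul, hDr i i']
    have h5 : ∑ k', c i k' * (aK (cl I (Y k' (a i'))) * z l - z (a i') *
        aK (cl I (Y k' l))) = (∑ k', c i k' * aK (cl I (Y k' (a i')))) * z l -
        z (a i') * ∑ k', c i k' * aK (cl I (Y k' l)) := by
      rw [Finset.sum_mul, Finset.mul_sum, ← Finset.sum_sub_distrib]
      exact Finset.sum_congr rfl fun k' _ => by ring
    rw [h5, ← h1, ← h2, h4]
    have h6 : z (a i') / z l * z l = z (a i') := div_mul_cancel₀ _ hz0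
    linear_combination (Dr i (z l)) * h6
  -- denominators
  obtain ⟨s0, hs0⟩ := IsLocalization.exist_integer_multiples_of_finite
    (nonZeroDivisors ((ℕ → ℂ) ⧸ I)) (fun ik : Fin d × Fin r => c ik.1 ik.2)
  have hct : ∀ ik : Fin d × Fin r, ∃ g : ℕ → ℂ, aK (cl I g) = aK s0 * c ik.1 ik.2 := by
    intro ik
    obtain ⟨g, hg⟩ := hs0 ik
    obtain ⟨g', rfl⟩ := Ideal.Quotient.mk_surjective g
    refine ⟨g', ?_⟩
    change aK (Ideal.Quotient.mk I g') = _
    rw [Algebra.smul_def] at hg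
    exact hg
  choose ct hct using hct
  obtain ⟨S, hS⟩ := Ideal.Quotient.mk_surjective (s0 : (ℕ → ℂ) ⧸ I)
  have hSI : S ∉ I := by
    intro h1
    apply nonZeroDivisors.ne_zero s0.2
    rw [← hS]
    exact Ideal.Quotient.eq_zero_iff_mem.2 h1
  have hxI : xs l ∉ I := hI0
  have hf : S * xs l ^ 2 ∉ I := by
    intro h1
    rcases hIp.mem_or_mem h1 with h2 | h2
    · exact hSI h2
    · exact hxI (hIp.mem_of_pow_mem 2 h2)
  let E : Fin d × Fin d → ℕ → ℂ := fun ii =>
    (∑ k', ct (ii.1, k') * (Y k' (a ii.2) * xs l - xs (a ii.2) * Y k' l)) -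
      (if ii.1 = ii.2 then 1 else 0) * (S * xs l ^ 2)
  have hE : ∀ ii, E ii ∈ I := by
    rintro ⟨i, i'⟩
    rw [← cl_zero, ← map_eq_zero_iff aK ainj]
    have h1 : aK (cl I (E (i, i'))) = (∑ k', aK (cl I (ct (i, k'))) *
        (aK (cl I (Y k' (a i'))) * z l - z (a i') * aK (cl I (Y k' l)))) -
        (if i = i' then 1 else 0) * (aK (cl I S) * z l ^ 2) := by
      simp only [E]
      rw [map_sub, map_sub, map_sum, map_sum]
      congr 1
      · refine Finset.sum_congr rfl fun k' _ => ?_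
        simp only [map_mul, map_sub]
        rfl
      · split_ifs
        · rw [one_mul, one_mul, map_mul, map_mul, map_pow, map_pow]
        · rw [zero_mul, zero_mul, map_zero, map_zero]
    rw [h1]
    have h2 : ∀ k', aK (cl I (ct (i, k'))) = aK (cl I S) * c i k' := by
      intro k'
      rw [hct (i, k')]
      congr 2
      exact hS.symm
    have h3 : (∑ k', aK (cl I (ct (i, k'))) *
        (aK (cl I (Y k' (a i'))) * z l - z (a i') * aK (cl I (Y k' l)))) =
        aK (cl I S) * ∑ k', c i k' * (aK (cl I (Y k' (a i'))) * z l - z (a i') *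
          aK (cl I (Y k' l))) := by
      rw [Finset.mul_sum]
      refine Finset.sum_congr rfl fun k' _ => ?_
      rw [h2 k']
      ring
    rw [h3, hmain i i']
    ring
  -- generators of the ideal
  obtain ⟨g, Gs, hGs⟩ := Submodule.fg_iff_exists_fin_generating_family.1
    (IsNoetherian.noetherian p : p.FG)
  have hGp : ∀ i, Gs i ∈ p := fun i => by
    rw [← hGs]
    exact Submodule.subset_span ⟨i, rfl⟩
  have hGJ : ∀ i, ∃ R : Fin k → MvPolynomial (Fin n × Fin n) B,
      ∀ᶠ m in atTop, bind₁ Φ (Gs i) = ∑ j, at' m (R j) * at' m (P j) := by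
    intro i
    obtain ⟨R, hR⟩ := hgen (cB B (bind₁ Φ (Gs i))) (by
      rw [mem_JU]
      filter_upwards [hpt, eventually_shift (hon _ (hGp i)) s] with m h1 h2
      rw [at'_cB, hev, ← h1]
      exact h2)
    refine ⟨R, ?_⟩
    filter_upwards [hR] with m hm
    rw [at'_cB] at hm
    exact hm
  choose R hR using hGJ
  have hall : ∀ᶠ m in atTop, (∀ i, bind₁ Φ (Gs i) = ∑ j, at' m (R i j) * at' m (P j)) ∧
      (∀ k', ∀ x, x ≠ 0 → ∀ V, Zr (fun i => at' m (P i)) V →
        Zr (fun i => at' m (P i)) (V * lam k' x) ∧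
          eval (mv (V * lam k' x)) (bind₁ Φ Q) * h k' x = eval (mv V) (bind₁ Φ Q)) ∧
      (∀ i, eval (mv (U m)) (at' m (P i)) = 0) ∧ eval (mv (U m)) (bind₁ Φ Q) ≠ 0 :=
    (eventually_all.2 hR).and ((eventually_all.2 fun k' => (hOP k').ev).and
      ((eventually_all.2 fun i => hP i).and hq0))
  obtain ⟨m, ⟨hm1, hm2, hm3, hm4⟩, hmE, hmf⟩ := exists_index hI E hE _ hf hall
  obtain ⟨M, w, hw1, hw2, hw3⟩ := exists_w (fun k' i j => (hOP k').laur i j)
    (fun k' => (hOP k').one) (fun k' i j => (hOP k').der i j) (U m) Φ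
  have hxl : xs l m ≠ 0 := by
    intro h0
    apply hmf
    rw [Pi.mul_apply, Pi.pow_apply, h0]
    ring
  have hwl : w l ≠ 0 := by
    intro h0
    apply hxl
    have h1 := hw2 l
    rw [h0, map_zero] at h1
    exact h1.symm
  have hZ : ∀ t : Fin r → ℂ, (∀ k', t k' ≠ 0) →
      Zr (fun i => at' m (P i)) (U m * pmat lam t (List.finRange r)) ∧
      eval (mv (U m * pmat lam t (List.finRange r))) (bind₁ Φ Q) *
        pfac h t (List.finRange r) = eval (mv (U m)) (bind₁ Φ Q) := fun t ht =>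
    pmat_zr (P := fun i => at' m (P i)) hm2 ht (List.finRange r) (U m) hm3
  have heval : ∀ (G : MvPolynomial (Fin (N + 1)) ℂ) (e : ℕ), G.IsHomogeneous e →
      ∀ t : Fin r → ℂ, (∀ k', t k' ≠ 0) → eval t (aeval w G) = ((∏ k', t k') ^ M) ^ e *
        eval (mv (U m * pmat lam t (List.finRange r))) (bind₁ Φ G) := by
    intro G e hG t ht
    have h1 := MvPolynomial.comp_aeval_apply (f := w)
      (MvPolynomial.aeval t : MvPolynomial (Fin r) ℂ →ₐ[ℂ] ℂ) G
    have h2 : (fun j => (MvPolynomial.aeval t : MvPolynomial (Fin r) ℂ →ₐ[ℂ] ℂ) (w j)) =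
        fun j => (∏ k', t k') ^ M *
          eval (mv (U m * pmat lam t (List.finRange r))) (Φ j) := by
      funext j
      rw [MvPolynomial.aeval_eq_eval]
      exact hw1 t ht j
    rw [h2, form_scale' hG] at h1
    rw [← MvPolynomial.aeval_eq_eval, h1, eval_bind]
    congr 1
  refine ⟨r, w, fun G hG hGh => ?_, ?_, fun t ht => ?_⟩
  · obtain ⟨e, he⟩ := hGh
    apply zero_of_torus
    intro t ht
    rw [heval G e he t ht]
    have h1 : G ∈ Ideal.span (Set.range Gs) := by
      have h2 : G ∈ Submodule.span (MvPolynomial (Fin (N + 1)) ℂ) (Set.range Gs) := by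
        rw [hGs]
        exact hG
      exact h2
    obtain ⟨cc, hcc⟩ := Ideal.mem_span_range_iff_exists_fun.1 h1
    rw [← hcc, map_sum, map_sum, Finset.sum_eq_zero, mul_zero]
    intro i _
    rw [map_mul, map_mul, hm1 i, Zr.sum (P := fun i => at' m (P i)) (hZ t ht).1, mul_zero]
  · refine hdom (MvPolynomial (Fin r) ℂ) w (fun G hG hGh => ?_) hwl ?_
    · obtain ⟨e, he⟩ := hGh
      apply zero_of_torus
      intro t ht
      rw [heval G e he t ht]
      have h1 : G ∈ Ideal.span (Set.range Gs) := by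
        have h2 : G ∈ Submodule.span (MvPolynomial (Fin (N + 1)) ℂ) (Set.range Gs) := by
          rw [hGs]
          exact hG
        exact h2
      obtain ⟨cc, hcc⟩ := Ideal.mem_span_range_iff_exists_fun.1 h1
      rw [← hcc, map_sum, map_sum, Finset.sum_eq_zero, mul_zero]
      intro i _
      rw [map_mul, map_mul, hm1 i, Zr.sum (P := fun i => at' m (P i)) (hZ t ht).1, mul_zero]
    · refine jac (fun j => w (ι j)) (fun _ => 1) hwl
        (fun i k' => ct (i, k') m / (S m * xs l m ^ 2)) ?_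
      intro i i'
      have h1 := hmE (i, i')
      simp only [E] at h1
      rw [Pi.sub_apply, Finset.sum_apply, sub_eq_zero] at h1
      have h2 : ∀ k', eval (fun _ => 1) (pderiv k' (w (ι (Fin.succ i'))) * w (ι 0) -
          w (ι (Fin.succ i')) * pderiv k' (w (ι 0))) =
          Y k' (a i') m * xs l m - xs (a i') m * Y k' l m := by
        intro k'
        have e1 : ι (Fin.succ i') = a i' := rfl
        have e2 : ι 0 = l := rfl
        rw [e1, e2, map_sub, map_mul, map_mul, hw3, hw3, hw2, hw2]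
        simp only [Y, xs]
        ring
      have h3 : ∀ k', ct (i, k') m / (S m * xs l m ^ 2) *
          eval (fun _ => 1) (pderiv k' (w (ι (Fin.succ i'))) * w (ι 0) -
            w (ι (Fin.succ i')) * pderiv k' (w (ι 0))) =
          (S m * xs l m ^ 2)⁻¹ * (ct (i, k') m *
            (Y k' (a i') m * xs l m - xs (a i') m * Y k' l m)) := by
        intro k'
        rw [h2 k', div_eq_mul_inv]
        ring
      simp only [h3]
      rw [← Finset.mul_sum]
      simp only [Pi.mul_apply, Pi.sub_apply] at h1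
      rw [h1]
      have h4 : S m * xs l m ^ 2 ≠ 0 := hmf
      split_ifs with hii
      · simp only [Pi.one_apply, Pi.pow_apply, one_mul]
        exact inv_mul_cancel₀ h4
      · simp only [Pi.zero_apply, zero_mul, mul_zero]
  · rw [heval Q q hQe t ht]
    refine mul_ne_zero (pow_ne_zero _ (pow_ne_zero _ (Finset.prod_ne_zero_iff.2 fun k' _ => ht k')))
      ?_
    intro h0
    have h1 := (hZ t ht).2
    rw [h0, zero_mul] at h1
    exact hm4 h1.symm

end Pool.Agent.N626
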