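import Pool.Agent.N626.Kg

/-!
Density of sequences, exponential sequences, and polynomials without zeros on the torus.
-/

set_option autoImplicit false

namespace Pool.Agent.N626

open MvPolynomial Filter Topology Pool.Agent.TH143 Pool.Agent.TH143.DE

variable {N : ℕ}

/-! ### polynomials whose coefficients are forms -/

theorem hg_mulC {D : ℕ} {G : Polynomial (MvPolynomial (Fin (N + 1)) ℂ)}
    (h : ∀ k, (G.coeff k).IsHomogeneous D) (q : Polynomial ℂ) (k : ℕ) :
    ((q.map C * G).coeff k).IsHomogeneous D := by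
  rw [Polynomial.coeff_mul]
  apply IsHomogeneous.sum
  intro ij _
  rw [Polynomial.coeff_map]
  have h1 := (isHomogeneous_C (Fin (N + 1)) (q.coeff ij.1)).mul (h ij.2)
  rwa [zero_add] at h1

theorem hg_comp {D : ℕ} {G : Polynomial (MvPolynomial (Fin (N + 1)) ℂ)}
    (h : ∀ k, (G.coeff k).IsHomogeneous D) (q : Polynomial ℂ) (k : ℕ) :
    ((G.comp (q.map C)).coeff k).IsHomogeneous D := by
  rw [Polynomial.comp, Polynomial.eval₂_eq_sum_range, Polynomial.finsetSum_coeff]
  apply IsHomogeneous.sum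
  intro i _
  rw [← Polynomial.map_pow, Polynomial.coeff_C_mul, Polynomial.coeff_map]
  have h1 := (h i).mul (isHomogeneous_C (Fin (N + 1)) ((q ^ i).coeff k))
  rwa [add_zero] at h1

theorem eval_mapC (q : Polynomial ℂ) (τ : ℂ) :
    (q.map (C : ℂ →+* MvPolynomial (Fin (N + 1)) ℂ)).eval (C τ) = C (q.eval τ) := by
  rw [Polynomial.eval_map_apply]

/-- The points `(t m, x m)` are Zariski-dense in the product of the affine line and the variety with
the ideal `p`. -/
def PairDense (t : ℕ → ℂ) (p : Ideal (MvPolynomial (Fin (N + 1)) ℂ)) (x : ℕ → Fin (N + 1) → ℂ) :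
    Prop :=
  ∀ (D n : ℕ) (G : ℕ → MvPolynomial (Fin (N + 1)) ℂ), (∀ k, (G k).IsHomogeneous D) →
    (∀ m, ∑ k ∈ Finset.range n, t m ^ k * eval (x m) (G k) = 0) → ∀ k < n, G k ∈ p

theorem PairDense.poly {t : ℕ → ℂ} {p : Ideal (MvPolynomial (Fin (N + 1)) ℂ)}
    {x : ℕ → Fin (N + 1) → ℂ} (hd : PairDense t p x) {D : ℕ}
    {G : Polynomial (MvPolynomial (Fin (N + 1)) ℂ)} (hG : ∀ k, (G.coeff k).IsHomogeneous D)
    (hz : ∀ m, eval (x m) (G.eval (C (t m))) = 0) (τ : ℂ) : G.eval (C τ) ∈ p := by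
  have h1 := hd D (G.natDegree + 1) (fun k => G.coeff k) hG (fun m => by
    rw [← hz m, Polynomial.eval_eq_sum_range, map_sum]
    refine Finset.sum_congr rfl fun k _ => ?_
    rw [map_mul, map_pow, eval_C, mul_comm])
  rw [Polynomial.eval_eq_sum_range]
  refine p.sum_mem fun k hk => p.mul_mem_right _ (h1 k (Finset.mem_range.1 hk))

theorem exists_back {t : ℕ → ℂ} {α β : ℂ} (hα : α ≠ 0) (ht : ∀ m, t (m + 1) = α * t m + β) (s : ℕ) :
    ∃ q : Polynomial ℂ, ∀ m, q.eval (t (m + s)) = t m := by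
  induction s with
  | zero => exact ⟨Polynomial.X, fun m => by rw [Polynomial.eval_X, add_zero]⟩
  | succ s ih =>
    obtain ⟨q, hq⟩ := ih
    refine ⟨q.comp (Polynomial.C α⁻¹ * (Polynomial.X - Polynomial.C β)), fun m => ?_⟩
    rw [Polynomial.eval_comp, Polynomial.eval_mul, Polynomial.eval_sub, Polynomial.eval_C,
      Polynomial.eval_C, Polynomial.eval_X, ← add_assoc, ht, ← hq m]
    congr 1
    field_simp
    ring

theorem at'_monomial {B : Subalgebra ℂ (ℕ → ℂ)} {σ : Type} (m : ℕ) (v : σ →₀ ℕ) (b : B) :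
    at' m (monomial v b) = monomial v ((b : ℕ → ℂ) m) := by
  unfold at'
  rw [MvPolynomial.mapAlgHom_apply]
  exact map_monomial _ _ _

/-- **Density over rational functions.** -/
theorem dense_rat {t : ℕ → ℂ} (htI : Function.Injective t) {α β : ℂ} (hα : α ≠ 0)
    (ht : ∀ m, t (m + 1) = α * t m + β) {p : Ideal (MvPolynomial (Fin (N + 1)) ℂ)}
    {x : ℕ → Fin (N + 1) → ℂ} (hd : PairDense t p x) (s D : ℕ)
    (G : MvPolynomial (Fin (N + 1)) (ratB t htI)) (hG : G.IsHomogeneous D)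
    (hz : ∀ᶠ m in atTop, eval (x (m + s)) (at' m G) = 0) : ∀ᶠ m in atTop, at' m G ∈ p := by
  classical
  choose P R hR hPR using fun v => (coeff v G).2
  let Rt : Polynomial ℂ := ∏ v ∈ G.support, R v
  let G1 : Polynomial (MvPolynomial (Fin (N + 1)) ℂ) := ∑ v ∈ G.support,
    (P v * ∏ v' ∈ G.support.erase v, R v').map C * Polynomial.C (monomial v 1)
  have hG1 : ∀ k, (G1.coeff k).IsHomogeneous D := by
    intro k
    rw [Polynomial.finsetSum_coeff]
    apply IsHomogeneous.sum
    intro v hv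
    apply hg_mulC
    intro k
    rw [Polynomial.coeff_C]
    split_ifs
    · apply isHomogeneous_monomial
      rw [Finsupp.degree_eq_weight_one]
      exact hG (mem_support_iff.1 hv)
    · exact isHomogeneous_zero _ _ _
  have hall : ∀ᶠ m in atTop, ∀ v ∈ G.support, ((coeff v G : ratB t htI) : ℕ → ℂ) m =
      (P v).eval (t m) / (R v).eval (t m) ∧ (R v).eval (t m) ≠ 0 := by
    rw [Finset.eventually_all]
    intro v _
    exact (hPR v).and (ev_ne htI (hR v))
  have hRt : ∀ᶠ m in atTop, Rt.eval (t m) ≠ 0 := ev_ne htI (Finset.prod_ne_zero_iff.2 fun v _ => hR v)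
  have hev : ∀ᶠ m in atTop, G1.eval (C (t m)) = C (Rt.eval (t m)) * at' m G := by
    filter_upwards [hall] with m hm
    conv_rhs => rw [G.as_sum]
    rw [Polynomial.eval_finsetSum, map_sum, Finset.mul_sum]
    refine Finset.sum_congr rfl fun v hv => ?_
    obtain ⟨h1, h2⟩ := hm v hv
    rw [Polynomial.eval_mul, eval_mapC, Polynomial.eval_C, at'_monomial, C_mul_monomial,
      C_mul_monomial, mul_one, h1]
    congr 1
    have h3 : Rt = R v * ∏ v' ∈ G.support.erase v, R v' := (Finset.mul_prod_erase _ _ hv).symm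
    rw [h3, Polynomial.eval_mul, Polynomial.eval_mul]
    field_simp
  obtain ⟨q, hq⟩ := exists_back hα ht s
  let G2 := G1.comp (q.map C)
  have hG2 : ∀ m, G2.eval (C (t (m + s))) = G1.eval (C (t m)) := by
    intro m
    rw [Polynomial.eval_comp, eval_mapC, hq]
  obtain ⟨m0, hm0⟩ := eventually_atTop.1 (hz.and hev)
  let Pz : Polynomial ℂ := ∏ i ∈ Finset.range (m0 + s), (Polynomial.X - Polynomial.C (t i))
  let G3 := Pz.map C * G2
  have hG3 : ∀ m, G3.eval (C (t m)) = C (Pz.eval (t m)) * G2.eval (C (t m)) := by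
    intro m
    rw [Polynomial.eval_mul, eval_mapC]
  have h3 := hd.poly (G := G3) (fun k => hg_mulC (fun k => hg_comp hG1 q k) Pz k) (fun m => by
    rw [hG3, map_mul, eval_C]
    by_cases hm : m < m0 + s
    · rw [Polynomial.eval_prod, Finset.prod_eq_zero (Finset.mem_range.2 hm), zero_mul]
      rw [Polynomial.eval_sub, Polynomial.eval_X, Polynomial.eval_C, sub_self]
    · obtain ⟨h1, h2⟩ := hm0 (m - s) (by omega)
      have h4 : m - s + s = m := by omega
      have h5 := hG2 (m - s)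
      rw [h4] at h5 h1
      rw [h5, h2, map_mul, h1, mul_zero, mul_zero])
  filter_upwards [eventually_ge_atTop m0, hRt] with m hm hRm
  have h4 := h3 (t (m + s))
  rw [hG3, hG2] at h4
  have h5 : Pz.eval (t (m + s)) ≠ 0 := by
    rw [Polynomial.eval_prod]
    apply Finset.prod_ne_zero_iff.2
    intro i hi
    rw [Polynomial.eval_sub, Polynomial.eval_X, Polynomial.eval_C, sub_ne_zero]
    intro h6
    have := htI h6
    have := Finset.mem_range.1 hi
    omega
  have hunit : ∀ {c : ℂ} {H : MvPolynomial (Fin (N + 1)) ℂ}, c ≠ 0 → C c * H ∈ p → H ∈ p := by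
    intro c H hc h
    have h6 := p.mul_mem_left (C c⁻¹) h
    rwa [← mul_assoc, ← C_mul, inv_mul_cancel₀ hc, C_1, one_mul] at h6
  have h6 := hunit h5 h4
  rw [(hm0 m hm).2] at h6
  exact hunit hRm h6

/-! ### constant coefficients -/

theorem bot_const {b : ℕ → ℂ} (hb : b ∈ (⊥ : Subalgebra ℂ (ℕ → ℂ))) : ∃ c : ℂ, ∀ m, b m = c := by
  obtain ⟨c, hc⟩ := Algebra.mem_bot.1 hb
  exact ⟨c, fun m => by rw [← hc]; rfl⟩

theorem const_bot (c : ℂ) : (fun _ : ℕ => c) ∈ (⊥ : Subalgebra ℂ (ℕ → ℂ)) :=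
  Algebra.mem_bot.2 ⟨c, rfl⟩

theorem bot_field : CoefField (⊥ : Subalgebra ℂ (ℕ → ℂ)) := by
  refine ⟨⟨?_, ?_⟩, ?_⟩
  · intro b hb
    obtain ⟨c, hc⟩ := bot_const hb
    have h1 : (fun m => b (m + 1)) = fun _ => c := funext fun m => hc _
    rw [h1]
    exact const_bot c
  · intro b hb
    obtain ⟨c, hc⟩ := bot_const hb
    by_cases h0 : c = 0
    · exact Or.inl (Eventually.of_forall fun m => by rw [hc, h0])
    · exact Or.inr (Eventually.of_forall fun m => by rw [hc]; exact h0)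
  · intro b hb
    obtain ⟨c, hc⟩ := bot_const hb
    have h1 : (fun m => (b m)⁻¹) = fun _ => c⁻¹ := funext fun m => by rw [hc]
    rw [h1]
    exact const_bot _

/-- **Density from some index on.** -/
theorem dense_ev {p : Ideal (MvPolynomial (Fin (N + 1)) ℂ)} (hp : p.IsPrime)
    {x : ℕ → Fin (N + 1) → ℂ} (hne : ∀ m, x m ≠ 0) (hon : ∀ G ∈ p, ∀ m, eval (x m) G = 0)
    (hd : ∀ G : MvPolynomial (Fin (N + 1)) ℂ, (∃ e, G.IsHomogeneous e) →
      (∀ m, eval (x m) G = 0) → G ∈ p) (m0 : ℕ) :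
    ∀ G : MvPolynomial (Fin (N + 1)) ℂ, (∃ e, G.IsHomogeneous e) →
      (∀ m, m0 ≤ m → eval (x m) G = 0) → G ∈ p := by
  induction m0 with
  | zero => exact fun G hG h => hd G hG fun m => h m (Nat.zero_le _)
  | succ m0 ih =>
    intro G hG h
    by_cases hH : ∃ H : MvPolynomial (Fin (N + 1)) ℂ, (∃ e, H.IsHomogeneous e) ∧
        eval (x m0) H = 0 ∧ H ∉ p
    · obtain ⟨H, ⟨e, he⟩, h1, h2⟩ := hH
      obtain ⟨e', he'⟩ := hG
      have h3 : G * H ∈ p := ih (G * H) ⟨e' + e, he'.mul he⟩ (fun m hm => by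
        rw [map_mul]
        rcases hm.eq_or_lt with h4 | h4
        · rw [← h4, h1, mul_zero]
        · rw [h m h4, zero_mul])
      exact (hp.mem_or_mem h3).resolve_right h2
    · push Not at hH
      apply hH G hG
      obtain ⟨i, hi⟩ := Function.ne_iff.1 (hne m0)
      obtain ⟨i', hi'⟩ := Function.ne_iff.1 (hne (m0 + 1))
      have h1 : ∀ j j', eval (x (m0 + 1)) (X j) * x m0 j' = eval (x (m0 + 1)) (X j') * x m0 j := by
        intro j j'
        have h2 : (X j * C (x m0 j') - X j' * C (x m0 j) : MvPolynomial (Fin (N + 1)) ℂ) ∈ p := by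
          apply hH _ ⟨1, ?_⟩
          · rw [map_sub, map_mul, map_mul, eval_X, eval_X, eval_C, eval_C]
            ring
          · refine IsHomogeneous.sub ?_ ?_
            · have := (isHomogeneous_X ℂ j).mul (isHomogeneous_C (Fin (N + 1)) (x m0 j'))
              rwa [add_zero] at this
            · have := (isHomogeneous_X ℂ j').mul (isHomogeneous_C (Fin (N + 1)) (x m0 j))
              rwa [add_zero] at this
        have h3 := hon _ h2 (m0 + 1)
        rw [map_sub, map_mul, map_mul, eval_C, eval_C, sub_eq_zero] at h3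
        exact h3
      simp only [eval_X] at h1
      have h2 : x m0 = fun j => (x m0 i' / x (m0 + 1) i') * x (m0 + 1) j := by
        funext j
        have h3 := h1 j i'
        have hi'' : x (m0 + 1) i' ≠ 0 := hi'
        field_simp
        linear_combination -h3
      obtain ⟨e, he⟩ := hG
      rw [h2, ← MvPolynomial.aeval_eq_eval]
      have h3 := form_scale' he (x m0 i' / x (m0 + 1) i') (x (m0 + 1))
      rw [h3, MvPolynomial.aeval_eq_eval, h (m0 + 1) le_rfl, mul_zero]

/-- density over the constants -/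
theorem dense_bot {p : Ideal (MvPolynomial (Fin (N + 1)) ℂ)} (hp : p.IsPrime)
    {x : ℕ → Fin (N + 1) → ℂ} (hne : ∀ m, x m ≠ 0) (hon : ∀ G ∈ p, ∀ m, eval (x m) G = 0)
    (hd : ∀ G : MvPolynomial (Fin (N + 1)) ℂ, (∃ e, G.IsHomogeneous e) →
      (∀ m, eval (x m) G = 0) → G ∈ p) (s D : ℕ)
    (G : MvPolynomial (Fin (N + 1)) (⊥ : Subalgebra ℂ (ℕ → ℂ))) (hG : G.IsHomogeneous D)
    (hz : ∀ᶠ m in atTop, eval (x (m + s)) (at' m G) = 0) : ∀ᶠ m in atTop, at' m G ∈ p := by
  have h1 : ∀ m, at' m G = at' 0 G := by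
    intro m
    apply MvPolynomial.ext
    intro v
    rw [coeff_at', coeff_at']
    obtain ⟨c, hc⟩ := bot_const (coeff v G).2
    rw [hc, hc]
  obtain ⟨m0, hm0⟩ := eventually_atTop.1 hz
  refine Eventually.of_forall fun m => ?_
  rw [h1]
  refine dense_ev hp hne hon hd (m0 + s) _ ⟨D, hom_at' hG 0⟩ fun m hm => ?_
  have h2 := hm0 (m - s) (by omega)
  rw [h1, Nat.sub_add_cancel (by omega)] at h2
  exact h2

end Pool.Agent.N626
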