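import Mathlib

/-!
Exponential sequences with polynomial coefficients, and polynomials without zeros on the torus.
-/

set_option autoImplicit false

namespace Pool.Agent.N626

open MvPolynomial Filter Topology

/-- polynomials without zeros on the torus are monomials -/
theorem monomial_of_torus {r : ℕ} {P : MvPolynomial (Fin r) ℂ}
    (h : ∀ t : Fin r → ℂ, (∀ k, t k ≠ 0) → eval t P ≠ 0) :
    ∃ (v : Fin r →₀ ℕ) (b : ℂ), b ≠ 0 ∧ P = monomial v b := by
  classical
  have h1 : (∏ k, X k : MvPolynomial (Fin r) ℂ) ∈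
      vanishingIdeal ℂ (zeroLocus ℂ (Ideal.span {P})) := by
    rw [mem_vanishingIdeal_iff]
    intro t ht
    rw [mem_zeroLocus_iff] at ht
    have h2 : aeval t P = 0 := ht P (Ideal.subset_span rfl)
    rw [MvPolynomial.aeval_eq_eval] at h2
    have h3 : ¬ ∀ k, t k ≠ 0 := fun hk => h t hk h2
    push Not at h3
    obtain ⟨k, hk⟩ := h3
    rw [map_prod, Finset.prod_eq_zero (Finset.mem_univ k)]
    rw [aeval_X, hk]
  rw [vanishingIdeal_zeroLocus_eq_radical] at h1
  obtain ⟨n, hn⟩ := Ideal.mem_radical_iff.1 h1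
  rw [Ideal.mem_span_singleton] at hn
  have h2 : (∏ k, X k : MvPolynomial (Fin r) ℂ) ^ n =
      monomial (n • ∑ k : Fin r, Finsupp.single k 1) 1 := by
    have h3 : (∏ k, X k : MvPolynomial (Fin r) ℂ) =
        monomial (∑ k : Fin r, Finsupp.single k 1) 1 := by
      rw [monomial_sum_one]
      rfl
    rw [h3, monomial_pow, one_pow]
  rw [h2, dvd_monomial_iff_exists one_ne_zero] at hn
  obtain ⟨v, b, -, hb, hP⟩ := hn
  refine ⟨v, b, ?_, hP⟩
  rintro rfl
  exact one_ne_zero (zero_dvd_iff.1 hb)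

theorem poly_lower {P : Polynomial ℂ} (hP : P ≠ 0) :
    ∃ ε : ℝ, 0 < ε ∧ ∀ᶠ m : ℕ in atTop, ε ≤ ‖P.eval (m : ℂ)‖ := by
  by_cases hd : 0 < P.degree
  · have h1 := P.tendsto_norm_atTop hd (l := atTop) (z := fun m : ℕ => (m : ℂ)) (by
      simp only [Complex.norm_natCast]
      exact tendsto_natCast_atTop_atTop)
    exact ⟨1, one_pos, h1.eventually_ge_atTop 1⟩
  · rw [Polynomial.eq_C_of_degree_le_zero (not_lt.1 hd)] at hP ⊢
    refine ⟨‖P.coeff 0‖, norm_pos_iff.2 fun h0 => hP (by rw [h0, Polynomial.C_0]),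
      Eventually.of_forall fun m => by rw [Polynomial.eval_C]⟩

theorem poly_exp_small (P : Polynomial ℂ) {ρ : ℝ} (hρ : |ρ| < 1) :
    Tendsto (fun m : ℕ => P.eval (m : ℂ) * (ρ : ℂ) ^ m) atTop (𝓝 0) := by
  have h1 : (fun m : ℕ => P.eval (m : ℂ) * (ρ : ℂ) ^ m) = fun m : ℕ =>
      ∑ k ∈ Finset.range (P.natDegree + 1), P.coeff k * (((m : ℝ) ^ k * ρ ^ m : ℝ) : ℂ) := by
    funext m
    rw [Polynomial.eval_eq_sum_range, Finset.sum_mul]
    refine Finset.sum_congr rfl fun k _ => ?_
    push_cast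
    ring
  rw [h1]
  have h2 : (0 : ℂ) = ∑ k ∈ Finset.range (P.natDegree + 1), P.coeff k * ((0 : ℝ) : ℂ) := by
    simp
  rw [h2]
  apply tendsto_finsetSum
  intro k _
  apply Tendsto.const_mul
  exact (Complex.continuous_ofReal.tendsto 0).comp
    (tendsto_pow_const_mul_const_pow_of_abs_lt_one k hρ)

/-- **Independence of exponential sequences.** -/
theorem exp_indep {ι : Type} (α : ι → ℕ) (hα : Function.Injective α) (hpos : ∀ s, 0 < α s)
    (c : ι → Polynomial ℂ) : ∀ (n : ℕ) (S : Finset ι), S.card = n →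
      (∃ᶠ m : ℕ in atTop, ∑ s ∈ S, (c s).eval (m : ℂ) * (α s : ℂ) ^ m = 0) → ∀ s ∈ S, c s = 0 := by
  classical
  intro n
  induction n with
  | zero =>
    intro S hS _ s hs
    rw [Finset.card_eq_zero] at hS
    rw [hS] at hs
    exact absurd hs (Finset.notMem_empty s)
  | succ n ih =>
    intro S hS hz
    have hne : S.Nonempty := Finset.card_pos.1 (by omega)
    obtain ⟨s0, hs0, hmax⟩ := S.exists_max_image α hne
    have h0 : c s0 = 0 := by
      by_contra hc
      obtain ⟨ε, hε, hlow⟩ := poly_lower hc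
      have hsm : Tendsto (fun m : ℕ => ∑ s ∈ S.erase s0, (c s).eval (m : ℂ) *
          (((α s : ℝ) / (α s0 : ℝ) : ℝ) : ℂ) ^ m) atTop (𝓝 0) := by
        have h2 : (0 : ℂ) = ∑ s ∈ S.erase s0, (0 : ℂ) := by simp
        rw [h2]
        apply tendsto_finsetSum
        intro s hs
        apply poly_exp_small
        have h3 : (α s : ℝ) < α s0 := by
          have h4 := hmax s (Finset.mem_of_mem_erase hs)
          have h5 : α s ≠ α s0 := fun h => (Finset.ne_of_mem_erase hs) (hα h)
          exact_mod_cast lt_of_le_of_ne h4 h5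
        have h4 : (0 : ℝ) < α s0 := by exact_mod_cast hpos s0
        rw [abs_of_nonneg (div_nonneg (Nat.cast_nonneg _) h4.le), div_lt_one h4]
        exact h3
      have hsm' := (tendsto_zero_iff_norm_tendsto_zero.1 hsm).eventually (gt_mem_nhds hε)
      obtain ⟨m, hm, h1, h2⟩ := (hz.and_eventually (hlow.and hsm')).exists
      have hα0 : (α s0 : ℂ) ≠ 0 := by
        exact_mod_cast (hpos s0).ne'
      have h3 : (c s0).eval (m : ℂ) = -∑ s ∈ S.erase s0, (c s).eval (m : ℂ) *
          (((α s : ℝ) / (α s0 : ℝ) : ℝ) : ℂ) ^ m := by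
        rw [← Finset.add_sum_erase _ _ hs0] at hm
        have h4 : ∑ s ∈ S.erase s0, (c s).eval (m : ℂ) * (((α s : ℝ) / (α s0 : ℝ) : ℝ) : ℂ) ^ m =
            (∑ s ∈ S.erase s0, (c s).eval (m : ℂ) * (α s : ℂ) ^ m) * ((α s0 : ℂ) ^ m)⁻¹ := by
          rw [Finset.sum_mul]
          refine Finset.sum_congr rfl fun s _ => ?_
          push_cast
          rw [div_pow, div_eq_mul_inv]
          ring
        rw [h4]
        have h5 : ∑ s ∈ S.erase s0, (c s).eval (m : ℂ) * (α s : ℂ) ^ m =
            -((c s0).eval (m : ℂ) * (α s0 : ℂ) ^ m) := by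
          linear_combination hm
        rw [h5]
        have h6 : (α s0 : ℂ) ^ m ≠ 0 := pow_ne_zero _ hα0
        field_simp
      rw [h3, norm_neg] at h1
      exact absurd h2 (not_lt.2 h1)
    have hcard : (S.erase s0).card = n := by
      rw [Finset.card_erase_of_mem hs0, hS]
      rfl
    have h1 := ih (S.erase s0) hcard (hz.mono fun m hm => by
      rw [← Finset.add_sum_erase _ _ hs0, h0, Polynomial.eval_zero, zero_mul, zero_add] at hm
      exact hm)
    intro s hs
    by_cases h : s = s0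
    · rw [h, h0]
    · exact h1 s (Finset.mem_erase.2 ⟨h, hs⟩)

/-- products of powers of the first primes -/
noncomputable def pval {r : ℕ} (v : Fin r →₀ ℕ) : ℕ :=
  ∏ k : Fin r, (Nat.nth Nat.Prime k) ^ v k

theorem pval_pos {r : ℕ} (v : Fin r →₀ ℕ) : 0 < pval v :=
  Finset.prod_pos fun k _ => pow_pos (Nat.prime_nth_prime k).pos _

theorem pval_inj {r : ℕ} : Function.Injective (pval (r := r)) := by
  intro v v' h
  ext k
  have h1 : ∀ u : Fin r →₀ ℕ, (pval u).factorization (Nat.nth Nat.Prime k) = u k := by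
    intro u
    unfold pval
    rw [Nat.factorization_prod (S := Finset.univ) (fun (i : Fin r) _ =>
      pow_ne_zero _ (Nat.prime_nth_prime (i : ℕ)).ne_zero)]
    rw [Finset.sum_apply']
    rw [Finset.sum_eq_single k]
    · rw [(Nat.prime_nth_prime k).factorization_pow, Finsupp.single_eq_same]
    · intro i _ hik
      rw [(Nat.prime_nth_prime i).factorization_pow, Finsupp.single_eq_of_ne]
      intro h2
      apply hik
      apply Fin.ext
      exact (Nat.nth_injective Nat.infinite_setOf_prime h2).symm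
    · intro h2
      exact absurd (Finset.mem_univ k) h2
  rw [← h1 v, ← h1 v', h]

/-- the points of the torus -/
noncomputable def ppt {r : ℕ} (m : ℕ) (k : Fin r) : ℂ := ((Nat.nth Nat.Prime k : ℕ) : ℂ) ^ m

theorem ppt_ne {r : ℕ} (m : ℕ) (k : Fin r) : ppt m k ≠ 0 :=
  pow_ne_zero _ (by exact_mod_cast (Nat.prime_nth_prime k).ne_zero)

theorem eval_ppt {r : ℕ} (F : MvPolynomial (Fin r) ℂ) (m : ℕ) :
    eval (ppt m) F = ∑ v ∈ F.support, coeff v F * (pval v : ℂ) ^ m := by
  rw [eval_eq']
  refine Finset.sum_congr rfl fun v _ => ?_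
  congr 1
  unfold ppt pval
  push_cast
  rw [← Finset.prod_pow]
  refine Finset.prod_congr rfl fun k _ => ?_
  rw [← pow_mul, ← pow_mul, mul_comm]

/-- nonzero polynomials do not vanish at the later points -/
theorem ppt_ev {r : ℕ} {F : MvPolynomial (Fin r) ℂ} (hF : F ≠ 0) :
    ∀ᶠ m : ℕ in atTop, eval (ppt m) F ≠ 0 := by
  by_contra hcon
  rw [not_eventually] at hcon
  simp only [not_not] at hcon
  apply hF
  have h1 := exp_indep (pval (r := r)) pval_inj pval_pos (fun v => Polynomial.C (coeff v F)) _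
    F.support rfl (by
      refine hcon.mono fun m hm => ?_
      rw [eval_ppt] at hm
      simpa only [Polynomial.eval_C] using hm)
  apply MvPolynomial.ext
  intro v
  by_cases hv : v ∈ F.support
  · have h2 := h1 v hv
    rw [Polynomial.C_eq_zero] at h2
    rw [h2, coeff_zero]
  · rw [notMem_support_iff.1 hv, coeff_zero]

/-- **Density of the points of the torus, with the index.** -/
theorem ppt_dense {r : ℕ} (m0 n : ℕ) (F : ℕ → MvPolynomial (Fin r) ℂ)
    (h : ∀ m : ℕ, ∑ k ∈ Finset.range n, (m : ℂ) ^ k * eval (ppt (m + m0)) (F k) = 0) :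
    ∀ k < n, F k = 0 := by
  classical
  let S : Finset (Fin r →₀ ℕ) := (Finset.range n).biUnion fun k => (F k).support
  let c : (Fin r →₀ ℕ) → Polynomial ℂ := fun v => ∑ k ∈ Finset.range n,
    Polynomial.monomial k (coeff v (F k) * (pval v : ℂ) ^ m0)
  have h1 := exp_indep (pval (r := r)) pval_inj pval_pos c _ S rfl
    (Frequently.of_forall fun m => by
      rw [← h m]
      simp only [c, Polynomial.eval_finsetSum, Polynomial.eval_monomial, Finset.sum_mul]
      rw [Finset.sum_comm]
      refine Finset.sum_congr rfl fun k hk => ?_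
      rw [eval_ppt, Finset.mul_sum]
      have hsub : (F k).support ⊆ S := fun v hv => Finset.mem_biUnion.2 ⟨k, hk, hv⟩
      symm
      refine (Finset.sum_subset hsub fun v _ hv => ?_).trans ?_
      · rw [notMem_support_iff.1 hv, zero_mul, mul_zero]
      · refine Finset.sum_congr rfl fun v _ => ?_
        rw [pow_add]
        ring)
  intro k hk
  apply MvPolynomial.ext
  intro v
  rw [coeff_zero]
  by_cases hv : v ∈ (F k).support
  · have h2 := h1 v (Finset.mem_biUnion.2 ⟨k, Finset.mem_range.2 hk, hv⟩)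
    have h3 := congrArg (fun P => Polynomial.coeff P k) h2
    simp only [c, Polynomial.finsetSum_coeff, Polynomial.coeff_monomial,
      Polynomial.coeff_zero] at h3
    rw [Finset.sum_ite_eq', if_pos (Finset.mem_range.2 hk)] at h3
    refine (mul_eq_zero.1 h3).resolve_right (pow_ne_zero _ ?_)
    exact_mod_cast (pval_pos v).ne'
  · exact notMem_support_iff.1 hv

/-- linear recurrences for exponential sequences -/
theorem ppt_rec {r : ℕ} (m0 : ℕ) (F : MvPolynomial (Fin r) ℂ) :
    ∃ (n : ℕ) (a : ℕ → ℂ), a n ≠ 0 ∧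
      ∀ m, ∑ k ∈ Finset.range (n + 1), a k * eval (ppt (m + k + m0)) F = 0 := by
  classical
  let S0 : Polynomial ℂ := ∏ v ∈ F.support, (Polynomial.X - Polynomial.C (pval v : ℂ))
  have hmon : S0.Monic := Polynomial.monic_prod_of_monic _ _ fun m _ => Polynomial.monic_X_sub_C _
  refine ⟨S0.natDegree, fun k => S0.coeff k, ?_, fun m => ?_⟩
  · change S0.coeff S0.natDegree ≠ 0
    rw [hmon.coeff_natDegree]
    exact one_ne_zero
  · have h1 : ∀ k ∈ Finset.range (S0.natDegree + 1), S0.coeff k * eval (ppt (m + k + m0)) F =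
        ∑ v ∈ F.support, coeff v F * (pval v : ℂ) ^ (m + m0) * (S0.coeff k * (pval v : ℂ) ^ k) := by
      intro k _
      rw [eval_ppt, Finset.mul_sum]
      refine Finset.sum_congr rfl fun v _ => ?_
      rw [show m + k + m0 = m + m0 + k by ring, pow_add]
      ring
    rw [Finset.sum_congr rfl h1, Finset.sum_comm]
    refine Finset.sum_eq_zero fun v hv => ?_
    rw [← Finset.mul_sum, ← Polynomial.eval_eq_sum_range]
    have h3 : S0.eval (pval v : ℂ) = 0 := by
      simp only [S0, Polynomial.eval_prod]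
      rw [Finset.prod_eq_zero hv]
      simp
    rw [h3, mul_zero]

end Pool.Agent.N626
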