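import Pool.Agent.N626.Kh
import Pool.Agent.N626.Ki

/-!
Torus domination and sequences given by linear recurrences.
-/

set_option autoImplicit false

namespace Pool.Agent.N626

open MvPolynomial Filter Pool.Agent.TH143 Pool.Agent.TH143.DE

variable {N : ℕ}

theorem on_comp {p : Ideal (MvPolynomial (Fin (N + 1)) ℂ)}
    (hph : ∀ G ∈ p, ∀ D, homogeneousComponent D G ∈ p) {R : Type} [CommRing R] [Algebra ℂ R]
    {w : Fin (N + 1) → R} (h : ∀ G ∈ p, (∃ e, G.IsHomogeneous e) → aeval w G = 0)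
    {G : MvPolynomial (Fin (N + 1)) ℂ} (hG : G ∈ p) : aeval w G = 0 := by
  rw [← sum_homogeneousComponent G, map_sum]
  exact Finset.sum_eq_zero fun k _ =>
    h _ (hph G hG k) ⟨k, homogeneousComponent_isHomogeneous k G⟩

/-- rational coefficients -/
theorem torus_of_rat {t : ℕ → ℂ} (htI : Function.Injective t) {α β : ℂ} (hα : α ≠ 0)
    (ht : ∀ m, t (m + 1) = α * t m + β) {p : Ideal (MvPolynomial (Fin (N + 1)) ℂ)}
    (hp : p.IsPrime) {l : Fin (N + 1)} (hl : (X l : MvPolynomial (Fin (N + 1)) ℂ) ∉ p)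
    {Q : MvPolynomial (Fin (N + 1)) ℂ} {q : ℕ} (hQe : Q.IsHomogeneous q)
    {x : ℕ → Fin (N + 1) → ℂ} (hon : ∀ G ∈ p, ∀ m, eval (x m) G = 0)
    (hoff : ∀ m, eval (x m) Q ≠ 0) (heq : ∀ j, RecAlong t fun m => x m j)
    (hbd : ∃ P R : Polynomial ℂ, P ≠ 0 ∧
      ∀ m, P.eval (t m) * eval (x (m + 1)) Q = R.eval (t m) * eval (x m) Q)
    (hd : PairDense t p x) :
    ∃ (r : ℕ) (w : Fin (N + 1) → MvPolynomial (Fin r) ℂ),
      (∀ G ∈ p, (∃ e, G.IsHomogeneous e) → aeval w G = 0) ∧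
      (∀ G : MvPolynomial (Fin (N + 1)) ℂ, (∃ e, G.IsHomogeneous e) → aeval w G = 0 → G ∈ p) ∧
      ∀ t : Fin r → ℂ, (∀ k, t k ≠ 0) → eval t (aeval w Q) ≠ 0 := by
  obtain ⟨P, R, hP, hPR⟩ := hbd
  have hB : CoefField (ratB t htI) := ratB_field htI (Polynomial.C α * Polynomial.X +
    Polynomial.C β) (fun m => by rw [ht]; simp)
  have hb : (fun m => R.eval (t m) / P.eval (t m)) ∈ ratB t htI :=
    ⟨R, P, hP, Eventually.of_forall fun _ => rfl⟩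
  refine core_uni hB hp hl (fun j => (heq j).linRec htI)
    (fun G hG => Eventually.of_forall (hon G hG)) (fun s D G hG hz => dense_rat htI hα ht hd s D G hG hz)
    hQe (Eventually.of_forall hoff) ⟨_, hb⟩ ?_
  filter_upwards [ev_ne htI hP] with m hm
  have h1 := hPR m
  change eval (x (m + 1)) Q = R.eval (t m) / P.eval (t m) * eval (x m) Q
  rw [div_mul_eq_mul_div, eq_div_iff hm, ← h1]
  ring

/-- constant coefficients -/
theorem torus_of_const {p : Ideal (MvPolynomial (Fin (N + 1)) ℂ)}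
    (hp : p.IsPrime) {l : Fin (N + 1)} (hl : (X l : MvPolynomial (Fin (N + 1)) ℂ) ∉ p)
    {Q : MvPolynomial (Fin (N + 1)) ℂ} {q : ℕ} (hQe : Q.IsHomogeneous q)
    {x : ℕ → Fin (N + 1) → ℂ} (hne : ∀ m, x m ≠ 0) (hon : ∀ G ∈ p, ∀ m, eval (x m) G = 0)
    (hoff : ∀ m, eval (x m) Q ≠ 0)
    (heq : ∀ j, ∃ (n : ℕ) (a : ℕ → ℂ), a n ≠ 0 ∧
      ∀ m, ∑ k ∈ Finset.range (n + 1), a k * x (m + k) j = 0)
    (hbd : ∃ c : ℂ, ∀ m, eval (x (m + 1)) Q = c * eval (x m) Q)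
    (hd : ∀ G : MvPolynomial (Fin (N + 1)) ℂ, (∃ e, G.IsHomogeneous e) →
      (∀ m, eval (x m) G = 0) → G ∈ p) :
    ∃ (r : ℕ) (w : Fin (N + 1) → MvPolynomial (Fin r) ℂ),
      (∀ G ∈ p, (∃ e, G.IsHomogeneous e) → aeval w G = 0) ∧
      (∀ G : MvPolynomial (Fin (N + 1)) ℂ, (∃ e, G.IsHomogeneous e) → aeval w G = 0 → G ∈ p) ∧
      ∀ t : Fin r → ℂ, (∀ k, t k ≠ 0) → eval t (aeval w Q) ≠ 0 := by
  obtain ⟨c, hc⟩ := hbd
  refine core_uni bot_field hp hl (fun j => ?_)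
    (fun G hG => Eventually.of_forall (hon G hG)) (dense_bot hp hne hon hd)
    hQe (Eventually.of_forall hoff) ⟨_, const_bot c⟩ (Eventually.of_forall hc)
  obtain ⟨n, a, han, ha⟩ := heq j
  refine ⟨n, fun k _ => a k, fun k => const_bot _, ⟨n, le_rfl, fun h0 => ?_⟩,
    Eventually.of_forall ha⟩
  obtain ⟨m, hm⟩ := h0.exists
  exact han hm

/-- **Sequences in varieties dominated by tori.** -/
theorem exists_seq {p : Ideal (MvPolynomial (Fin (N + 1)) ℂ)}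
    {l : Fin (N + 1)} (hl : (X l : MvPolynomial (Fin (N + 1)) ℂ) ∉ p)
    {Q : MvPolynomial (Fin (N + 1)) ℂ} {r : ℕ} {w : Fin (N + 1) → MvPolynomial (Fin r) ℂ}
    (h1 : ∀ G ∈ p, aeval w G = 0)
    (h2 : ∀ G : MvPolynomial (Fin (N + 1)) ℂ, (∃ e, G.IsHomogeneous e) → aeval w G = 0 → G ∈ p)
    (h3 : ∀ t : Fin r → ℂ, (∀ k, t k ≠ 0) → eval t (aeval w Q) ≠ 0) :
    ∃ x : ℕ → Fin (N + 1) → ℂ, (∀ m, x m ≠ 0) ∧ (∀ G ∈ p, ∀ m, eval (x m) G = 0) ∧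
      (∀ m, eval (x m) Q ≠ 0) ∧
      (∀ j, ∃ (n : ℕ) (a : ℕ → ℂ), a n ≠ 0 ∧
        ∀ m, ∑ k ∈ Finset.range (n + 1), a k * x (m + k) j = 0) ∧
      (∃ c : ℂ, ∀ m, eval (x (m + 1)) Q = c * eval (x m) Q) ∧
      PairDense (fun m => (m : ℂ)) p x := by
  have hwl : w l ≠ 0 := fun h0 => hl (h2 (X l) ⟨1, isHomogeneous_X _ _⟩ (by rw [aeval_X, h0]))
  obtain ⟨m0, hm0⟩ := eventually_atTop.1 (ppt_ev hwl)
  let x : ℕ → Fin (N + 1) → ℂ := fun m j => eval (ppt (m + m0)) (w j)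
  have hx : ∀ (G : MvPolynomial (Fin (N + 1)) ℂ) (m : ℕ),
      eval (x m) G = eval (ppt (m + m0)) (aeval w G) := by
    intro G m
    have e1 := MvPolynomial.comp_aeval_apply (f := w)
      (MvPolynomial.aeval (ppt (m + m0)) : MvPolynomial (Fin r) ℂ →ₐ[ℂ] ℂ) G
    rw [MvPolynomial.aeval_eq_eval] at e1
    rw [e1, MvPolynomial.aeval_eq_eval]
  refine ⟨x, fun m h0 => ?_, fun G hG m => ?_, fun m => ?_, fun j => ?_, ?_, ?_⟩
  · exact hm0 (m + m0) (by omega) (congrFun h0 l)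
  · rw [hx, h1 G hG, map_zero]
  · rw [hx]
    exact h3 _ fun k => ppt_ne _ k
  · exact ppt_rec m0 (w j)
  · obtain ⟨v, b, hb, hP⟩ := monomial_of_torus h3
    refine ⟨(pval v : ℂ), fun m => ?_⟩
    have e1 : ∀ m, eval (x m) Q = b * (pval v : ℂ) ^ (m + m0) := by
      intro m
      rw [hx, hP, eval_ppt]
      rw [support_monomial, if_neg hb, Finset.sum_singleton, coeff_monomial, if_pos rfl]
    rw [e1, e1]
    ring
  · intro D n G hG hz k hk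
    refine h2 _ ⟨D, hG k⟩ (ppt_dense m0 n (fun k => aeval w (G k)) (fun m => ?_) k hk)
    rw [← hz m]
    exact Finset.sum_congr rfl fun k _ => by rw [hx]

end Pool.Agent.N626
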