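import Pool.Agent.N626.Kf

/-!
Dominant maps from tori: the static part.
-/

set_option autoImplicit false

namespace Pool.Agent.N626

open MvPolynomial Filter Pool.Agent.TH143 Pool.Agent.TH143.DE

variable {n N : ℕ}

/-- zeros of an ideal -/
def ZI (I : Ideal (MvPolynomial (Fin n × Fin n) ℂ)) (V : Matrix (Fin n) (Fin n) ℂ) : Prop :=
  ∀ P ∈ I, eval (mv V) P = 0

/-- A one-parameter family of symmetries, given by Laurent polynomials. -/
structure OPS (I : Ideal (MvPolynomial (Fin n × Fin n) ℂ))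
    (q : MvPolynomial (Fin n × Fin n) ℂ) (lam : ℂ → Matrix (Fin n) (Fin n) ℂ) (h : ℂ → ℂ)
    (δ : Matrix (Fin n) (Fin n) ℂ) : Prop where
  laur : ∀ i j, Pool.Agent.H159R3.Exp.Laur fun x => lam x i j
  one : lam 1 = 1
  der : ∀ i j, HasDerivAt (fun x => lam x i j) (δ i j) 1
  ev : ∀ x, x ≠ 0 → ∀ V, ZI I V → ZI I (V * lam x) ∧
    eval (mv (V * lam x)) q * h x = eval (mv V) q

theorem exists_ops {I : Ideal (MvPolynomial (Fin n × Fin n) ℂ)}
    {β : Matrix (Fin n) (Fin n) ℂ} (hβ : ∀ P ∈ I, Dc β P ∈ I)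
    {q : MvPolynomial (Fin n × Fin n) ℂ} (hq : ∃ γ : ℂ, Dc β q - C γ * q ∈ I)
    (φ : Matrix (Fin n) (Fin n) ℂ →ₗ[ℂ] ℂ) (hφ : φ β ≠ 0) :
    ∃ (lam : ℂ → Matrix (Fin n) (Fin n) ℂ) (h : ℂ → ℂ) (δ : Matrix (Fin n) (Fin n) ℂ),
      OPS I q lam h δ ∧ φ δ ≠ 0 := by
  classical
  obtain ⟨ex, he0, he1, hEP⟩ := exists_exp_flow β
  have he : ExpF β ex := ⟨he0, he1⟩
  have hflow : ∀ V, ZI I V → ∀ t, ZI I (V * ex t) := fun V hV t P hP =>
    flow_ideal he V I hβ hV P hP t
  obtain ⟨γ, hγ0⟩ := hq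
  have hγ : ∀ V, ZI I V → ∀ t, eval (mv (V * ex t)) q = eval (mv V) q * Complex.exp (γ * t) := by
    intro V hV t
    have h1 : ∀ t, HasDerivAt (fun t => eval (mv (V * ex t)) q * Complex.exp (-γ * t)) 0 t := by
      intro t
      have h2 := he.hasDerivAt V q t
      have h3 : HasDerivAt (fun t : ℂ => Complex.exp (-γ * t)) (Complex.exp (-γ * t) * (-γ)) t := by
        have := ((hasDerivAt_id t).const_mul (-γ)).cexp
        simpa using this
      refine (h2.mul h3).congr_deriv ?_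
      have h4 := hflow V hV t _ hγ0
      rw [map_sub, map_mul, eval_C, sub_eq_zero] at h4
      rw [h4]
      ring
    have h5 := is_const_of_deriv_eq_zero (fun t => (h1 t).differentiableAt)
      (fun t => (h1 t).deriv) t 0
    simp only [he.zero, mul_zero, Complex.exp_zero, mul_one] at h5
    rw [← h5, mul_assoc, ← Complex.exp_add]
    simp
  let G : Option (Fin n × Fin n) → ℂ → ℂ := fun o =>
    o.elim (fun t => Complex.exp (-γ * t)) (fun p t => ex t p.1 p.2)
  have hGEP : ∀ o, EP (G o) := by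
    intro o
    rcases o with _ | p
    · exact EP.exp _
    · exact hEP p.1 p.2
  obtain ⟨r, g, P', hg, hP'⟩ := EP.common G hGEP
  set v0 : Fin (r + 1) → ℂ := Pool.Agent.H159R3.Exp.vec g 0 with hv0
  set u : Fin (r + 1) → ℂ := Fin.cons 1 (fun i => Complex.exp (g i 0) * deriv (g i) 0) with hu
  have hvd : ∀ l, HasDerivAt (fun z => Pool.Agent.H159R3.Exp.vec g z l) (u l) 0 := by
    intro l
    refine Fin.cases ?_ (fun i => ?_) l
    · simpa [hu, Pool.Agent.H159R3.Exp.vec] using hasDerivAt_id' (0 : ℂ)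
    · simpa [hu, Pool.Agent.H159R3.Exp.vec] using ((hg i) 0).hasDerivAt.cexp
  let Dm : Fin (r + 1) → Matrix (Fin n) (Fin n) ℂ := fun l =>
    Matrix.of fun i j => eval v0 (pderiv l (P' (some (i, j))))
  have hβe : β = ∑ l, u l • Dm l := by
    ext i j
    have h1 := he1 0 i j
    rw [he0, Matrix.one_mul] at h1
    have h2 := Pool.Agent.H159R3.Exp.hasDerivAt_eval (Pool.Agent.H159R3.Exp.vec g) _ 0 hvd
      (P' (some (i, j)))
    have h3 : (fun s => ex s i j) = fun z => eval (Pool.Agent.H159R3.Exp.vec g z)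
        (P' (some (i, j))) := by
      funext t
      rw [← hP']
      rfl
    rw [h3] at h1
    rw [h1.unique h2, Matrix.sum_apply]
    refine Finset.sum_congr rfl fun l _ => ?_
    rw [Matrix.smul_apply, smul_eq_mul, mul_comm]
    rfl
  obtain ⟨ξ, ξ', ea, pp, hξp, hξ1, hξR, hξd, hξn⟩ := Pool.Agent.TH143.GT.exists_dir g hg
    (fun l => φ (Dm l)) (by
      have h1 : φ β = ∑ l, φ (Dm l) * u l := by
        rw [hβe, map_sum]
        refine Finset.sum_congr rfl fun l _ => ?_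
        rw [map_smul, smul_eq_mul, mul_comm]
      rw [← h1]
      exact hφ)
  have hLξ : ∀ l, Pool.Agent.H159R3.Exp.Laur fun x => ξ x l := fun l =>
    ⟨ea, pp l, fun x hx => by rw [mul_comm]; exact hξp x hx l⟩
  refine ⟨fun x => Matrix.of fun i j => eval (ξ x) (P' (some (i, j))),
    fun x => eval (ξ x) (P' none), ∑ l, ξ' l • Dm l, ⟨fun i j => ?_, ?_, fun i j => ?_, ?_⟩, ?_⟩
  · exact Pool.Agent.H159R3.Exp.Laur.eval ξ hLξ _
  · ext i j
    rw [Matrix.of_apply, hξ1, ← hP']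
    change ex 0 i j = _
    rw [he0]
  · have h1 := Pool.Agent.H159R3.Exp.hasDerivAt_eval ξ ξ' 1 hξd (P' (some (i, j)))
    refine h1.congr_deriv ?_
    rw [Matrix.sum_apply, hξ1]
    refine Finset.sum_congr rfl fun l _ => ?_
    rw [Matrix.smul_apply, smul_eq_mul, mul_comm]
    rfl
  · intro x hx V hV
    let T : Fin n × Fin n → MvPolynomial (Fin (r + 1)) ℂ := fun p =>
      ∑ k, C (V p.1 k) * P' (some (k, p.2))
    have hT : ∀ (y : Fin (r + 1) → ℂ) (R : MvPolynomial (Fin n × Fin n) ℂ),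
        eval y (bind₁ T R) = eval (mv (V * Matrix.of fun i j => eval y (P' (some (i, j))))) R := by
      intro y R
      have h3 : eval y (bind₁ T R) = eval (fun p => eval y (T p)) R := by
        rw [eval, eval₂Hom_bind₁]
        rfl
      rw [h3]
      congr 1
      congr 1
      funext p
      simp only [T, map_sum, map_mul, eval_C, mv, Matrix.mul_apply, Matrix.of_apply]
    have hex : ∀ t, (Matrix.of fun i j => eval (Pool.Agent.H159R3.Exp.vec g t)
        (P' (some (i, j)))) = ex t := by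
      intro t
      ext i j
      rw [Matrix.of_apply, ← hP']
      rfl
    refine ⟨fun P hP => ?_, ?_⟩
    · rw [← hT]
      apply hξR _ _ x hx
      intro t
      rw [hT, hex]
      exact hflow V hV t P hP
    · have h3 : eval (ξ x) (bind₁ T q * P' none - C (eval (mv V) q)) = 0 := by
        apply hξR _ _ x hx
        intro t
        rw [map_sub, map_mul, eval_C, hT, hex, hγ V hV t, ← hP']
        simp only [G, Option.elim_none]
        rw [mul_assoc, ← Complex.exp_add]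
        simp
      rw [map_sub, map_mul, eval_C, hT, sub_eq_zero] at h3
      exact h3
  · rw [map_sum]
    have h1 : ∀ l, φ (ξ' l • Dm l) = φ (Dm l) * ξ' l := fun l => by
      rw [map_smul, smul_eq_mul, mul_comm]
    simp only [h1]
    exact hξn

theorem pmat_zi {r : ℕ} {lam : Fin r → ℂ → Matrix (Fin n) (Fin n) ℂ} {h : Fin r → ℂ → ℂ}
    {I : Ideal (MvPolynomial (Fin n × Fin n) ℂ)} {q : MvPolynomial (Fin n × Fin n) ℂ}
    (hs : ∀ i x, x ≠ 0 → ∀ V, ZI I V → ZI I (V * lam i x) ∧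
      eval (mv (V * lam i x)) q * h i x = eval (mv V) q)
    {t : Fin r → ℂ} (ht : ∀ i, t i ≠ 0) (ks : List (Fin r)) :
    ∀ V, ZI I V → ZI I (V * pmat lam t ks) ∧
      eval (mv (V * pmat lam t ks)) q * pfac h t ks = eval (mv V) q := by
  induction ks with
  | nil =>
    intro V hV
    rw [pmat, pfac, Matrix.mul_one, mul_one]
    exact ⟨hV, rfl⟩
  | cons i ks ih =>
    intro V hV
    obtain ⟨h1, h2⟩ := hs i (t i) (ht i) V hV
    obtain ⟨h3, h4⟩ := ih _ h1
    rw [pmat, pfac, ← Matrix.mul_assoc]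
    refine ⟨h3, ?_⟩
    rw [← h2, ← h4]
    ring

/-- **Dominant maps from tori, the static part.** -/
theorem static_torus {d : ℕ} {I : Ideal (MvPolynomial (Fin n × Fin n) ℂ)}
    {V0 : Matrix (Fin n) (Fin n) ℂ} (hV0 : ZI I V0)
    (Φ : Fin (N + 1) → MvPolynomial (Fin n × Fin n) ℂ)
    {p : Ideal (MvPolynomial (Fin (N + 1)) ℂ)} {l : Fin (N + 1)} {a : Fin d → Fin (N + 1)}
    (hdom : ∀ (R : Type) [CommRing R] [IsDomain R] [Algebra ℂ R] (w : Fin (N + 1) → R),
        (∀ G ∈ p, (∃ e, G.IsHomogeneous e) → aeval w G = 0) → w l ≠ 0 →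
        (∀ (D : ℕ) (G : MvPolynomial (Fin (d + 1)) ℂ), G.IsHomogeneous D →
          aeval (fun j => w ((Fin.cons l a : Fin (d + 1) → Fin (N + 1)) j)) G = 0 → G = 0) →
        ∀ G : MvPolynomial (Fin (N + 1)) ℂ, (∃ e, G.IsHomogeneous e) → aeval w G = 0 → G ∈ p)
    (hon : ∀ G ∈ p, bind₁ Φ G ∈ I)
    {Q : MvPolynomial (Fin (N + 1)) ℂ} {q : ℕ} (hQe : Q.IsHomogeneous q)
    (hQ0 : eval (mv V0) (bind₁ Φ Q) ≠ 0) (β : Fin d → Matrix (Fin n) (Fin n) ℂ)
    (hβ : ∀ i, ∀ P ∈ I, Dc (β i) P ∈ I)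
    (hγ : ∀ i, ∃ γ : ℂ, Dc (β i) (bind₁ Φ Q) - C γ * bind₁ Φ Q ∈ I)
    (hl0 : eval (mv V0) (Φ l) ≠ 0) (c : Fin d → ℂ) (hc : ∀ i, c i ≠ 0)
    (hmat : ∀ i i', eval (mv V0) (Dc (β i) (Φ (a i'))) * eval (mv V0) (Φ l) -
      eval (mv V0) (Φ (a i')) * eval (mv V0) (Dc (β i) (Φ l)) = if i = i' then c i else 0) :
    ∃ (r : ℕ) (w : Fin (N + 1) → MvPolynomial (Fin r) ℂ),
      (∀ G ∈ p, (∃ e, G.IsHomogeneous e) → aeval w G = 0) ∧
      (∀ G : MvPolynomial (Fin (N + 1)) ℂ, (∃ e, G.IsHomogeneous e) → aeval w G = 0 → G ∈ p) ∧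
      ∀ t : Fin r → ℂ, (∀ k, t k ≠ 0) → eval t (aeval w Q) ≠ 0 := by
  classical
  let S : Set (Matrix (Fin n) (Fin n) ℂ) := {δ | ∃ lam h, OPS I (bind₁ Φ Q) lam h δ}
  have hLS : ∀ i, β i ∈ Submodule.span ℂ S := by
    intro i
    by_contra hcon
    obtain ⟨φ, hφ, hφS⟩ := Submodule.exists_dual_map_eq_bot_of_notMem hcon inferInstance
    obtain ⟨lam, h, δ, h1, h2⟩ := exists_ops (hβ i) (hγ i) φ hφ
    apply h2
    have h3 : φ δ ∈ (Submodule.span ℂ S).map φ :=
      Submodule.mem_map_of_mem (Submodule.subset_span ⟨lam, h, h1⟩)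
    rw [hφS] at h3
    exact (Submodule.mem_bot ℂ).1 h3
  obtain ⟨s, hsS, hspan⟩ := Submodule.fg_span_iff_fg_span_finset_subset S |>.1
    (IsNoetherian.noetherian (Submodule.span ℂ S))
  obtain ⟨r, lam, h, δ, hOP, hrange⟩ : ∃ (r : ℕ) (lam : Fin r → ℂ → Matrix (Fin n) (Fin n) ℂ)
      (h : Fin r → ℂ → ℂ) (δ : Fin r → Matrix (Fin n) (Fin n) ℂ),
      (∀ k, OPS I (bind₁ Φ Q) (lam k) (h k) (δ k)) ∧
      (s : Set (Matrix (Fin n) (Fin n) ℂ)) = Set.range δ := by
    choose lam h hOP using fun i : Fin s.card => hsS (s.equivFin.symm i).2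
    refine ⟨s.card, lam, h, fun i => (s.equivFin.symm i : Matrix (Fin n) (Fin n) ℂ), hOP, ?_⟩
    ext y
    constructor
    · intro hy
      exact ⟨s.equivFin ⟨y, hy⟩, by simp⟩
    · rintro ⟨k, rfl⟩
      exact (s.equivFin.symm k).2
  have hβδ : ∀ i, ∃ e : Fin r → ℂ, ∑ k, e k • δ k = β i := by
    intro i
    have h1 := hLS i
    rw [hspan, hrange] at h1
    exact (Submodule.mem_span_range_iff_exists_fun ℂ).1 h1
  choose e he using hβδ
  obtain ⟨M, w, hw1, hw2, hw3⟩ := exists_w (fun k' i j => (hOP k').laur i j)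
    (fun k' => (hOP k').one) (fun k' i j => (hOP k').der i j) V0 Φ
  have hwl : w l ≠ 0 := by
    intro h0
    apply hl0
    have h1 := hw2 l
    rw [h0, map_zero] at h1
    exact h1.symm
  have hZ : ∀ t : Fin r → ℂ, (∀ k', t k' ≠ 0) →
      ZI I (V0 * pmat lam t (List.finRange r)) ∧
      eval (mv (V0 * pmat lam t (List.finRange r))) (bind₁ Φ Q) *
        pfac h t (List.finRange r) = eval (mv V0) (bind₁ Φ Q) := fun t ht =>
    pmat_zi (fun i x hx V hV => (hOP i).ev x hx V hV) ht (List.finRange r) V0 hV0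
  have heval : ∀ (G : MvPolynomial (Fin (N + 1)) ℂ) (e : ℕ), G.IsHomogeneous e →
      ∀ t : Fin r → ℂ, (∀ k', t k' ≠ 0) → eval t (aeval w G) = ((∏ k', t k') ^ M) ^ e *
        eval (mv (V0 * pmat lam t (List.finRange r))) (bind₁ Φ G) := by
    intro G e hG t ht
    have h1 := MvPolynomial.comp_aeval_apply (f := w)
      (MvPolynomial.aeval t : MvPolynomial (Fin r) ℂ →ₐ[ℂ] ℂ) G
    have h2 : (fun j => (MvPolynomial.aeval t : MvPolynomial (Fin r) ℂ →ₐ[ℂ] ℂ) (w j)) =
        fun j => (∏ k', t k') ^ M *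
          eval (mv (V0 * pmat lam t (List.finRange r))) (Φ j) := by
      funext j
      rw [MvPolynomial.aeval_eq_eval]
      exact hw1 t ht j
    rw [h2, form_scale' hG] at h1
    rw [← MvPolynomial.aeval_eq_eval, h1, eval_bind]
    congr 1
  have honw : ∀ G ∈ p, (∃ e, G.IsHomogeneous e) → aeval w G = 0 := by
    intro G hG hGh
    obtain ⟨e, he⟩ := hGh
    apply zero_of_torus
    intro t ht
    rw [heval G e he t ht, (hZ t ht).1 _ (hon G hG), mul_zero]
  refine ⟨r, w, honw, ?_, fun t ht => ?_⟩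
  · refine hdom (MvPolynomial (Fin r) ℂ) w honw hwl ?_
    refine jac (fun j => w ((Fin.cons l a : Fin (d + 1) → Fin (N + 1)) j)) (fun _ => 1) hwl
        (fun i k' => e i k' / c i) ?_
    intro i i'
    have h2 : ∀ k', eval (fun _ => 1) (pderiv k' (w (a i')) * w l - w (a i') * pderiv k' (w l)) =
        eval (mv V0) (Dc (δ k') (Φ (a i'))) * eval (mv V0) (Φ l) -
          eval (mv V0) (Φ (a i')) * eval (mv V0) (Dc (δ k') (Φ l)) := by
      intro k'
      rw [map_sub, map_mul, map_mul, hw3, hw3, hw2, hw2]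
      ring
    have h3 : ∑ k', e i k' / c i * eval (fun _ => 1) (pderiv k' (w (a i')) * w l -
        w (a i') * pderiv k' (w l)) = (c i)⁻¹ * ∑ k', e i k' *
          (eval (mv V0) (Dc (δ k') (Φ (a i'))) * eval (mv V0) (Φ l) -
          eval (mv V0) (Φ (a i')) * eval (mv V0) (Dc (δ k') (Φ l))) := by
      rw [Finset.mul_sum]
      refine Finset.sum_congr rfl fun k' _ => ?_
      rw [h2 k', div_eq_mul_inv]
      ring
    have h4 : ∀ G : MvPolynomial (Fin n × Fin n) ℂ, ∑ k', e i k' * eval (mv V0) (Dc (δ k') G) =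
        eval (mv V0) (Dc (β i) G) := by
      intro G
      rw [← dL_apply, ← he i, map_sum]
      refine Finset.sum_congr rfl fun k' _ => ?_
      rw [map_smul, smul_eq_mul, dL_apply]
    have h5 : ∑ k', e i k' *
          (eval (mv V0) (Dc (δ k') (Φ (a i'))) * eval (mv V0) (Φ l) -
          eval (mv V0) (Φ (a i')) * eval (mv V0) (Dc (δ k') (Φ l))) =
        eval (mv V0) (Dc (β i) (Φ (a i'))) * eval (mv V0) (Φ l) -
          eval (mv V0) (Φ (a i')) * eval (mv V0) (Dc (β i) (Φ l)) := by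
      rw [← h4, ← h4, Finset.sum_mul, Finset.mul_sum, ← Finset.sum_sub_distrib]
      exact Finset.sum_congr rfl fun k' _ => by ring
    have h6 : ∑ k', e i k' / c i * eval (fun _ => 1) (pderiv k' (w (a i')) * w l -
        w (a i') * pderiv k' (w l)) = if i = i' then 1 else 0 := by
      rw [h3, h5, hmat]
      split_ifs
      · exact inv_mul_cancel₀ (hc i)
      · rw [mul_zero]
    exact h6
  · rw [heval Q q hQe t ht]
    refine mul_ne_zero (pow_ne_zero _ (pow_ne_zero _ (Finset.prod_ne_zero_iff.2 fun k' _ => ht k')))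
      ?_
    intro h0
    have h1 := (hZ t ht).2
    rw [h0, zero_mul] at h1
    exact hQ0 h1.symm

end Pool.Agent.N626
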