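import Pool.Agent.N626.Kk
import Pool.Agent.N626.Kg
import Pool.Agent.TH143.Local

/-!
Tangent vectors of the closure of a curve dual to a transcendence basis.
-/

set_option autoImplicit false

namespace Pool.Agent.N626

open MvPolynomial Metric Set Filter Topology Pool.Agent.TH143

/-- derivations over a subring dual to algebraically independent elements -/
theorem exists_Ds {B K : Type} [CommRing B] [IsDomain B] [CharZero B] [Field K] [Algebra B K]
    (hinj : Function.Injective (algebraMap B K)) {d : ℕ} {z : Fin d → K}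
    (hz : AlgebraicIndependent B z) (i : Fin d) :
    ∃ D : K → K, (∀ x y, D (x + y) = D x + D y) ∧ (∀ x y, D (x * y) = x * D y + y * D x) ∧
      (∀ b : B, D (algebraMap B K b) = 0) ∧ ∀ i', D (z i') = if i = i' then 1 else 0 := by
  have hfs : FaithfulSMul B K := (faithfulSMul_iff_algebraMap_injective _ _).2 hinj
  let L := FractionRing B
  let _ : Algebra L K := FractionRing.liftAlgebra B K
  have hst : IsScalarTower B L K := inferInstance
  have hcL : CharZero L := charZero_of_injective_algebraMap (IsFractionRing.injective B L)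
  have halgL : Algebra.IsAlgebraic B L := IsLocalization.isAlgebraic L (nonZeroDivisors B)
  have hzL : AlgebraicIndependent L z := hz.extendScalars L
  obtain ⟨D, hD⟩ := dual_der hzL i
  refine ⟨D, fun x y => map_add D x y, fun x y => D.leibniz x y, fun b => ?_, hD⟩
  rw [IsScalarTower.algebraMap_apply B L K, D.map_algebraMap]

theorem exists_tangents_aux {S : Set ℂ} (hdom : IsDomain (Hol S))
    {K : Type} [Field K] [Algebra (Hol S) K] [IsFractionRing (Hol S) K]
    {ι σ : Type} [Fintype σ] (B : Subalgebra ℂ (Hol S)) (v : ι ⊕ σ → Hol S)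
    (hvB : ∀ i, v (Sum.inl i) ∈ B) {d : ℕ} (G0 : MvPolynomial (ι ⊕ σ) ℂ)
    (G : Fin d → MvPolynomial (ι ⊕ σ) ℂ) (hG0 : aeval v G0 ≠ 0)
    (hind : ∀ (D : ℕ) (P : MvPolynomial (Fin (d + 1)) B), P.IsHomogeneous D →
      aeval (Fin.cons (aeval v G0) (fun i => aeval v (G i)) : Fin (d + 1) → Hol S) P = 0 → P = 0) :
    ∃ (a : S) (M : Fin d → σ → ℂ) (c : ℂ), c ≠ 0 ∧ evz a (aeval v G0) ≠ 0 ∧
      ∀ (i : Fin d) (W : ι ⊕ σ → MvPolynomial (ι ⊕ σ) ℂ),
      (∀ i, eval (fun l => evz a (v l)) (W (Sum.inl i)) = 0) →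
      (∀ l, eval (fun l => evz a (v l)) (W (Sum.inr l)) = M i l) →
      (∀ P, aeval v P = 0 → eval (fun l => evz a (v l)) (mkDerivation ℂ W P) = 0) ∧
      ∀ i', eval (fun l => evz a (v l)) (mkDerivation ℂ W (G i')) *
          eval (fun l => evz a (v l)) G0
        - eval (fun l => evz a (v l)) (G i') * eval (fun l => evz a (v l)) (mkDerivation ℂ W G0)
        = if i = i' then c else 0 := by
  classical
  have hdomB : IsDomain B := inferInstance
  have hcB : CharZero B := charZero_of_injective_algebraMap ((algebraMap ℂ B).injective)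
  have hKinj : Function.Injective (algebraMap (Hol S) K) := IsFractionRing.injective (Hol S) K
  have hBK : ∀ b : B, algebraMap B K b = algebraMap (Hol S) K b := fun b => rfl
  have hinj : Function.Injective (algebraMap B K) := by
    intro x y h
    rw [hBK, hBK] at h
    exact Subtype.val_injective (hKinj h)
  set g0 : K := algebraMap (Hol S) K (aeval v G0) with hg0
  set g : Fin d → K := fun i => algebraMap (Hol S) K (aeval v (G i)) with hg
  have hg0' : g0 ≠ 0 := by
    rw [hg0]
    intro h
    exact hG0 (hKinj (by rw [h, map_zero]))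
  have hz : AlgebraicIndependent B fun i => g i / g0 := by
    rw [algebraicIndependent_iff]
    intro P hP
    apply hgz_ne
    apply hind _ _ (hgz_hom P)
    apply hKinj
    rw [map_zero]
    have h1 := aeval_hgz P hg0' g
    rw [hP, mul_zero] at h1
    rw [← h1]
    have h2 := MvPolynomial.comp_aeval_apply
      (f := (Fin.cons (aeval v G0) (fun i => aeval v (G i)) : Fin (d + 1) → Hol S))
      (IsScalarTower.toAlgHom B (Hol S) K) (hgz P)
    refine h2.trans ?_
    congr 2
    funext j
    refine Fin.cases ?_ (fun j => ?_) j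
    · rfl
    · rfl
  choose D hDadd hDmul hDB' hD using fun i => exists_Ds hinj hz i
  obtain ⟨s, hs⟩ := IsLocalization.exist_integer_multiples_of_finite
    (nonZeroDivisors (Hol S)) (fun il : Fin d × σ => D il.1 (algebraMap (Hol S) K (v (Sum.inr il.2))))
  have hs' : ∀ (i : Fin d) (l : σ), ∃ h : Hol S, algebraMap (Hol S) K h
      = algebraMap (Hol S) K s * D i (algebraMap (Hol S) K (v (Sum.inr l))) := by
    intro i l
    obtain ⟨h, hh⟩ := hs (i, l)
    refine ⟨h, ?_⟩
    rw [hh, Algebra.smul_def]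
  choose h hh using hs'
  have hDB : ∀ i, ∀ x ∈ B, D i (algebraMap (Hol S) K x) = 0 := fun i x hx => hDB' i ⟨x, hx⟩
  -- the main induction
  have key : ∀ (i0 : Fin d) (P : MvPolynomial (ι ⊕ σ) ℂ), ∃ H : Hol S,
      algebraMap (Hol S) K H = algebraMap (Hol S) K s * D i0 (algebraMap (Hol S) K (aeval v P)) ∧
      ∀ (a : S) (W : ι ⊕ σ → MvPolynomial (ι ⊕ σ) ℂ),
        (∀ i, eval (fun l => evz a (v l)) (W (Sum.inl i)) = 0) →
        (∀ l, eval (fun l => evz a (v l)) (W (Sum.inr l)) = evz a (h i0 l)) →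
        evz a H = eval (fun l => evz a (v l)) (mkDerivation ℂ W P) := by
    intro i0 P
    induction P using MvPolynomial.induction_on with
    | C c =>
      refine ⟨0, ?_, ?_⟩
      · rw [map_zero, algHom_C]
        have h1 : D i0 (algebraMap (Hol S) K (algebraMap ℂ (Hol S) c)) = 0 :=
          hDB i0 _ (B.algebraMap_mem c)
        rw [h1, mul_zero]
      · intro a W _ _
        simp
    | add p q hp hq =>
      obtain ⟨H1, h1, h1'⟩ := hp
      obtain ⟨H2, h2, h2'⟩ := hq
      refine ⟨H1 + H2, ?_, ?_⟩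
      · rw [map_add, h1, h2, map_add, map_add, hDadd]
        ring
      · intro a W hW1 hW2
        rw [map_add, h1' a W hW1 hW2, h2' a W hW1 hW2, map_add, map_add]
    | mul_X p j hp =>
      obtain ⟨H1, h1, h1'⟩ := hp
      obtain ⟨H2, h2, h2'⟩ : ∃ H2 : Hol S,
          algebraMap (Hol S) K H2 = algebraMap (Hol S) K s * D i0 (algebraMap (Hol S) K (v j)) ∧
          ∀ (a : S) (W : ι ⊕ σ → MvPolynomial (ι ⊕ σ) ℂ),
            (∀ i, eval (fun l => evz a (v l)) (W (Sum.inl i)) = 0) →
            (∀ l, eval (fun l => evz a (v l)) (W (Sum.inr l)) = evz a (h i0 l)) →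
            evz a H2 = eval (fun l => evz a (v l)) (W j) := by
        rcases j with i | l
        · refine ⟨0, ?_, ?_⟩
          · rw [map_zero, hDB i0 _ (hvB i), mul_zero]
          · intro a W hW1 _
            rw [map_zero, hW1]
        · refine ⟨h i0 l, hh i0 l, ?_⟩
          intro a W _ hW2
          rw [hW2]
      refine ⟨H1 * v j + aeval v p * H2, ?_, ?_⟩
      · rw [map_add, map_mul, map_mul, h1, h2, map_mul, aeval_X, map_mul, hDmul]
        ring
      · intro a W hW1 hW2
        rw [map_add, map_mul, map_mul, h1' a W hW1 hW2, h2' a W hW1 hW2, Derivation.leibniz,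
          mkDerivation_X]
        simp only [smul_eq_mul, map_add, map_mul, eval_X]
        have h3 : evz a (aeval v p) = eval (fun l => evz a (v l)) p := by
          have h4 := MvPolynomial.comp_aeval_apply (f := v) (evz a) p
          rw [h4, ← MvPolynomial.aeval_eq_eval]
        rw [h3]
        ring
  have hev : ∀ (a : S) (P : MvPolynomial (ι ⊕ σ) ℂ),
      evz a (aeval v P) = eval (fun l => evz a (v l)) P := by
    intro a p
    have h4 := MvPolynomial.comp_aeval_apply (f := v) (evz a) p
    rw [h4, ← MvPolynomial.aeval_eq_eval]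
  have hs0 : (s : Hol S) * (aeval v G0) ^ 2 ≠ 0 :=
    mul_ne_zero (nonZeroDivisors.ne_zero s.2) (pow_ne_zero _ hG0)
  obtain ⟨a, ha⟩ : ∃ a : S, evz a ((s : Hol S) * (aeval v G0) ^ 2) ≠ 0 := by
    by_contra hcon
    push Not at hcon
    exact hs0 (hol_ext fun z => by rw [hcon z, map_zero])
  refine ⟨a, fun i l => evz a (h i l), evz a ((s : Hol S) * (aeval v G0) ^ 2), ha, ?_,
    fun i W hW1 hW2 => ⟨fun P hP => ?_, fun i' => ?_⟩⟩
  · intro h0
    apply ha
    rw [map_mul, map_pow, h0]
    ring
  · obtain ⟨H, hH, hH'⟩ := key i P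
    rw [← hH' a W hW1 hW2]
    have hD0 : D i 0 = 0 := by
      have := hDadd i 0 0
      rw [add_zero] at this
      linear_combination - this
    rw [hP, map_zero, hD0, mul_zero] at hH
    have : H = 0 := hKinj (by rw [hH, map_zero])
    rw [this, map_zero]
  · obtain ⟨H1, hH1, hH1'⟩ := key i (G i')
    obtain ⟨H0, hH0, hH0'⟩ := key i G0
    rw [← hH1' a W hW1 hW2, ← hH0' a W hW1 hW2, ← hev, ← hev, ← map_mul, ← map_mul, ← map_sub]
    have h1 : H1 * aeval v G0 - aeval v (G i') * H0 =
        (if i = i' then 1 else 0) * ((s : Hol S) * (aeval v G0) ^ 2) := by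
      apply hKinj
      rw [map_sub, map_mul, map_mul, map_mul, map_mul, map_pow, hH1, hH0, ← hg0]
      have hgi : algebraMap (Hol S) K (aeval v (G i')) = g i' := rfl
      rw [hgi]
      have h2 : g i' = (g i' / g0) * g0 := by field_simp
      have h3 : D i (g i') = (g i' / g0) * D i g0 + g0 * (if i = i' then 1 else 0) := by
        conv_lhs => rw [h2]
        rw [hDmul, hD]
      rw [h3]
      have h4 : algebraMap (Hol S) K (if i = i' then 1 else 0) = if i = i' then 1 else 0 := by
        split_ifs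
        · exact map_one _
        · exact map_zero _
      rw [h4]
      have h5 : g i' / g0 * g0 = g i' := div_mul_cancel₀ _ hg0'
      linear_combination (algebraMap (Hol S) K s * D i g0) * h5
    rw [h1]
    split_ifs
    · rw [one_mul]
    · rw [zero_mul, map_zero]

theorem exists_tangents {S : Set ℂ} (hSc : IsPreconnected S) (hne : S.Nonempty)
    {ι σ : Type} [Fintype σ] (B : Subalgebra ℂ (Hol S)) (v : ι ⊕ σ → Hol S)
    (hvB : ∀ i, v (Sum.inl i) ∈ B) {d : ℕ} (G0 : MvPolynomial (ι ⊕ σ) ℂ)
    (G : Fin d → MvPolynomial (ι ⊕ σ) ℂ) (hG0 : aeval v G0 ≠ 0)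
    (hind : ∀ (D : ℕ) (P : MvPolynomial (Fin (d + 1)) B), P.IsHomogeneous D →
      aeval (Fin.cons (aeval v G0) (fun i => aeval v (G i)) : Fin (d + 1) → Hol S) P = 0 → P = 0) :
    ∃ (a : S) (M : Fin d → σ → ℂ) (c : ℂ), c ≠ 0 ∧ evz a (aeval v G0) ≠ 0 ∧
      ∀ (i : Fin d) (W : ι ⊕ σ → MvPolynomial (ι ⊕ σ) ℂ),
      (∀ i, eval (fun l => evz a (v l)) (W (Sum.inl i)) = 0) →
      (∀ l, eval (fun l => evz a (v l)) (W (Sum.inr l)) = M i l) →
      (∀ P, aeval v P = 0 → eval (fun l => evz a (v l)) (mkDerivation ℂ W P) = 0) ∧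
      ∀ i', eval (fun l => evz a (v l)) (mkDerivation ℂ W (G i')) *
          eval (fun l => evz a (v l)) G0
        - eval (fun l => evz a (v l)) (G i') * eval (fun l => evz a (v l)) (mkDerivation ℂ W G0)
        = if i = i' then c else 0 := by
  have hdom : IsDomain (Hol S) := hol_domain hSc hne
  exact exists_tangents_aux hdom (K := FractionRing (Hol S)) B v hvB G0 G hG0 hind

end Pool.Agent.N626
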