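import Pool.Agent.N626.Kl

/-!
Dominant maps from tori to varieties with generic local curves given by linear differential
equations.
-/

set_option autoImplicit false

namespace Pool.Agent.N626

open MvPolynomial Metric Set Filter Topology Pool.Agent.TH143 Pool.Agent.TH143.DE

variable {N n : ℕ}

/-- the form `G` with holomorphic coefficients, with the coefficients evaluated at `z` -/
noncomputable def atz {S : Set ℂ} {B : Subalgebra ℂ (Hol S)} {σ : Type} (z : S) :
    MvPolynomial σ B →ₐ[ℂ] MvPolynomial σ ℂ :=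
  mapAlgHom ((evz z).comp B.val)

theorem coeff_atz {S : Set ℂ} {B : Subalgebra ℂ (Hol S)} {σ : Type} (z : S)
    (G : MvPolynomial σ B) (v : σ →₀ ℕ) :
    (atz z G).coeff v = evz z ((G.coeff v : B) : Hol S) := by
  unfold atz
  rw [mapAlgHom_apply]
  exact coeff_map _ _ _

theorem rename_atz {S : Set ℂ} {B : Subalgebra ℂ (Hol S)} {σ τ : Type} (z : S) (f : σ → τ)
    (G : MvPolynomial σ B) : atz z (rename f G) = rename f (atz z G) := by
  unfold atz
  rw [mapAlgHom_apply, mapAlgHom_apply]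
  exact map_rename _ _ _

theorem atz_hom {S : Set ℂ} {B : Subalgebra ℂ (Hol S)} {σ : Type} (z : S) {D : ℕ}
    {G : MvPolynomial σ B} (hG : G.IsHomogeneous D) : (atz z G).IsHomogeneous D := by
  intro v hv
  apply hG
  rw [coeff_atz] at hv
  intro h0
  apply hv
  rw [h0]
  exact map_zero _

theorem atz_X {S : Set ℂ} {B : Subalgebra ℂ (Hol S)} {σ : Type} (z : S) (i : σ) :
    atz z (X i : MvPolynomial σ B) = X i := by
  unfold atz
  rw [mapAlgHom_apply]
  exact map_X _ _

theorem evz_aeval {S : Set ℂ} {B : Subalgebra ℂ (Hol S)} {σ : Type} (z : S)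
    (P : MvPolynomial σ B) (W : σ → Hol S) :
    evz z (aeval W P) = eval (fun j => evz z (W j)) (atz z P) := by
  induction P using MvPolynomial.induction_on with
  | C b =>
    have h1 : aeval W (C b : MvPolynomial σ B) = (b : Hol S) := aeval_C _ _
    have h2 : atz z (C b : MvPolynomial σ B) = C (evz z (b : Hol S)) := by
      unfold atz
      rw [mapAlgHom_apply]
      exact map_C _ _
    rw [h1, h2, eval_C]
  | add p q hp hq => rw [map_add, map_add, map_add, map_add, hp, hq]
  | mul_X p j hp => rw [map_mul, map_mul, map_mul, map_mul, hp, atz_X, eval_X, aeval_X]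

theorem torus_local {S : Set ℂ} (hS : IsOpen S) (hSc : IsPreconnected S) (hne : S.Nonempty)
    {ι : Type} (b : ι → ℂ → ℂ) (hb : ∀ i, AnalyticOnNhd ℂ (b i) S) (d : ι → ι)
    (hd : ∀ i, ∀ z ∈ S, HasDerivAt (b i) (b (d i) z) z)
    (A : Fin n → Fin n → ι) (U : ℂ → Matrix (Fin n) (Fin n) ℂ)
    (hU : ∀ z ∈ S, ∀ i j, HasDerivAt (fun w => U w i j) (∑ k, b (A i k) z * U z k j) z)
    (hdet : ∀ z ∈ S, (U z).det ≠ 0)
    (B : Subalgebra ℂ (Hol S)) (hB : ∀ i, toHol (b i) (hb i) ∈ B)
    (Φ : Fin (N + 1) → MvPolynomial (Fin n × Fin n) ℂ)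
    {p : Ideal (MvPolynomial (Fin (N + 1)) ℂ)} (hp : p.IsPrime) {l : Fin (N + 1)}
    (hl : (X l : MvPolynomial (Fin (N + 1)) ℂ) ∉ p)
    (hon : ∀ G ∈ p, ∀ z ∈ S, eval (mv (U z)) (bind₁ Φ G) = 0)
    (hden : ∀ (D : ℕ) (G : MvPolynomial (Fin (N + 1)) B), G.IsHomogeneous D →
      (∀ z : S, eval (fun j => eval (mv (U z)) (Φ j)) (atz z G) = 0) → ∀ z : S, atz z G ∈ p)
    {Q : MvPolynomial (Fin (N + 1)) ℂ} {q : ℕ} (hQe : Q.IsHomogeneous q) (iq : ι)
    (hQ : ∀ z ∈ S, eval (mv (U z)) (bind₁ Φ Q) ≠ 0)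
    (hQ' : ∀ z ∈ S, HasDerivAt (fun w => eval (mv (U w)) (bind₁ Φ Q))
      (b iq z * eval (mv (U z)) (bind₁ Φ Q)) z) :
    ∃ (r : ℕ) (w : Fin (N + 1) → MvPolynomial (Fin r) ℂ),
      (∀ G ∈ p, (∃ e, G.IsHomogeneous e) → aeval w G = 0) ∧
      (∀ G : MvPolynomial (Fin (N + 1)) ℂ, (∃ e, G.IsHomogeneous e) → aeval w G = 0 → G ∈ p) ∧
      ∀ t : Fin r → ℂ, (∀ k, t k ≠ 0) → eval t (aeval w Q) ≠ 0 := by
  classical
  set v := vv b U with hv
  obtain ⟨dd, a, hind, hdom⟩ := exists_basis hp hl
  -- the system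
  have hsol : Sol (EE d A) v S := by
    intro z hz l
    rcases l with i | ⟨i, j⟩
    · have := hd i z hz
      simpa [EE, v, vv] using this
    · have := hU z hz i j
      simpa [EE, v, vv] using this
  have hvan : ∀ l, AnalyticOnNhd ℂ (fun z => v z l) S := by
    intro l
    have := hsol.analytic hS (X l)
    simpa using this
  let V : ι ⊕ (Fin n × Fin n) → Hol S := fun l => toHol (fun z => v z l) (hvan l)
  have hVe : ∀ (z : S), (fun l => evz z (V l)) = v z := fun z => rfl
  have hVP : ∀ (z : S) (P : MvPolynomial (ι ⊕ (Fin n × Fin n)) ℂ),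
      evz z (aeval V P) = eval (v z) P := by
    intro z P
    have h4 := MvPolynomial.comp_aeval_apply (f := V) (evz z) P
    rw [h4, ← MvPolynomial.aeval_eq_eval]
    rfl
  have hrel : ∀ P, Rel v S P ↔ aeval V P = 0 := by
    intro P
    constructor
    · intro h
      exact hol_ext fun z => by rw [hVP, map_zero]; exact h z z.2
    · intro h z hz
      rw [← hVP ⟨z, hz⟩, h, map_zero]
  have hvr : ∀ (z : ℂ) (P : MvPolynomial (Fin n × Fin n) ℂ),
      eval (v z) (rename Sum.inr P) = eval (mv (U z)) P := by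
    intro z P
    rw [eval_rename]
    rfl
  let Ψ : Fin (N + 1) → MvPolynomial (ι ⊕ (Fin n × Fin n)) ℂ := fun j => rename Sum.inr (Φ j)
  have hΨ : ∀ (z : S) j, evz z (aeval V (Ψ j)) = eval (mv (U z)) (Φ j) := by
    intro z j
    rw [hVP, hvr]
  have hwl : aeval V (Ψ l) ≠ 0 := by
    intro h0
    obtain ⟨z0, hz0⟩ := hne
    have h1 := hden 1 (X l) (isHomogeneous_X _ _) (fun z => by
      rw [atz_X, eval_X, ← hΨ, h0, map_zero]) ⟨z0, hz0⟩
    apply hl
    rwa [atz_X] at h1
  obtain ⟨s, M, c, hc, hsl, hM⟩ := exists_tangents hSc hne B V (fun i => hB i) (Ψ l)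
    (fun i => Ψ (a i)) hwl (by
      intro D P hP h0
      let κ : Fin (dd + 1) → Fin (N + 1) := Fin.cons l a
      have h1 : ∀ z : S, atz z (rename κ P) ∈ p := by
        apply hden D _ hP.rename_isHomogeneous
        intro z
        rw [rename_atz, eval_rename]
        have h2 := congrArg (evz z) h0
        rw [map_zero, evz_aeval] at h2
        rw [← h2]
        congr 1
        congr 1
        funext j
        refine Fin.cases ?_ (fun j => ?_) j
        · exact (hΨ z l).symm
        · exact (hΨ z (a j)).symm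
      refine MvPolynomial.ext _ _ fun v' => ?_
      apply Subtype.ext
      apply hol_ext
      intro z
      have h2 := h1 z
      rw [rename_atz] at h2
      have h3 := hind D _ (atz_hom z hP) h2
      rw [← coeff_atz, h3]
      simp)
  set β : Fin dd → Matrix (Fin n) (Fin n) ℂ := fun i =>
    (U s)⁻¹ * Matrix.of fun i' j => M i (i', j) with hβ
  have hUβ : ∀ i, ∀ p : Fin n × Fin n, (U s * β i) p.1 p.2 = M i p := by
    intro i p
    rw [hβ, ← Matrix.mul_assoc, Matrix.mul_nonsing_inv _ ((hdet s s.2).isUnit), Matrix.one_mul]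
    rfl
  have hMi := fun i => hM i (WW (β i)) (fun i => by simp [WW]) (fun p => by
    rw [← hUβ, Matrix.mul_apply]
    simp only [WW, Sum.elim_inr, map_sum, map_mul, eval_X, eval_C]
    rfl)
  rw [hVe] at hMi
  have hδ : ∀ i P, Rel v S P → Rel v S (mkDerivation ℂ (WW (β i)) P) := fun i =>
    rel_of_point hS hSc hsol (comm_EW d A (β i)) s.2 (fun P hP => (hMi i).1 P ((hrel P).mp hP))
  -- the boundary
  set qq := rename (Sum.inr : Fin n × Fin n → ι ⊕ (Fin n × Fin n)) (bind₁ Φ Q) with hqq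
  have hqe : ∀ z, eval (v z) qq = eval (mv (U z)) (bind₁ Φ Q) := fun z => hvr z _
  have hR1 : Rel v S (mkDerivation ℂ (EE d A) qq - X (Sum.inl iq) * qq) := by
    intro s hs
    have h1 := hasDerivAt_sol (EE d A) v s (hsol s hs) qq
    have h2 := hQ' s hs
    simp only [← hqe] at h2
    have h3 := h1.unique h2
    rw [map_sub, map_mul, h3, eval_X]
    exact sub_self _
  have hγ : ∀ i, ∃ γ : ℂ, Rel v S (mkDerivation ℂ (WW (β i)) qq - C γ * qq) := by
    intro i
    have hR2 : Rel v S (mkDerivation ℂ (EE d A) (mkDerivation ℂ (WW (β i)) qq)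
        - X (Sum.inl iq) * mkDerivation ℂ (WW (β i)) qq) := by
      have h1 := hδ i _ hR1
      rw [map_sub, Derivation.leibniz, mkDerivation_X, ← comm_of_X (comm_EW d A (β i))] at h1
      simpa [WW] using h1
    have hqn : ∀ s ∈ S, eval (v s) qq ≠ 0 := fun s hs => by rw [hqe]; exact hQ s hs
    have h1 : ∀ s ∈ S, HasDerivAt
        (fun s => eval (v s) (mkDerivation ℂ (WW (β i)) qq) / eval (v s) qq) 0 s := by
      intro s hs
      have h2 := hasDerivAt_sol (EE d A) v s (hsol s hs) (mkDerivation ℂ (WW (β i)) qq)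
      have h3 := hasDerivAt_sol (EE d A) v s (hsol s hs) qq
      refine (h2.div h3 (hqn s hs)).congr_deriv ?_
      have h4 := hR1 s hs
      have h5 := hR2 s hs
      rw [map_sub, map_mul, eval_X, sub_eq_zero] at h4 h5
      rw [h4, h5, div_eq_zero_iff]
      left
      ring
    refine ⟨eval (v s) (mkDerivation ℂ (WW (β i)) qq) / eval (v s) qq, ?_⟩
    intro z hz
    have h6 : eval (v z) (mkDerivation ℂ (WW (β i)) qq) / eval (v z) qq
        = eval (v s) (mkDerivation ℂ (WW (β i)) qq) / eval (v s) qq := by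
      have h7 : DifferentiableOn ℂ
          (fun s => eval (v s) (mkDerivation ℂ (WW (β i)) qq) / eval (v s) qq) S :=
        fun s hs => (h1 s hs).differentiableAt.differentiableWithinAt
      have h8 : EqOn (deriv
          (fun s => eval (v s) (mkDerivation ℂ (WW (β i)) qq) / eval (v s) qq)) 0 S :=
        fun s hs => (h1 s hs).deriv
      exact hS.is_const_of_deriv_eq_zero hSc h7 h8 hz s.2
    rw [map_sub, map_mul, eval_C, ← h6, div_mul_cancel₀ _ (hqn z hz), sub_self]
  -- specialisation at the point `s`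
  let sp : MvPolynomial (ι ⊕ (Fin n × Fin n)) ℂ →ₐ[ℂ] MvPolynomial (Fin n × Fin n) ℂ :=
    aeval (Sum.elim (fun i => C (b i s)) X)
  have hspr : ∀ P, sp (rename Sum.inr P) = P := by
    intro P
    change aeval _ (rename Sum.inr P) = P
    rw [aeval_rename]
    exact aeval_X_left_apply P
  have hsps : Function.Surjective sp := fun P => ⟨rename Sum.inr P, hspr P⟩
  have hspe : ∀ P, eval (mv (U s)) (sp P) = eval (v s) P := by
    intro P
    have h4 := MvPolynomial.comp_aeval_apply
      (f := (Sum.elim (fun i => C (b i s)) X : ι ⊕ (Fin n × Fin n) →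
        MvPolynomial (Fin n × Fin n) ℂ))
      (MvPolynomial.aeval (mv (U s)) : MvPolynomial (Fin n × Fin n) ℂ →ₐ[ℂ] ℂ) P
    rw [← MvPolynomial.aeval_eq_eval, ← MvPolynomial.aeval_eq_eval]
    refine h4.trans ?_
    congr 1
    congr 1
    funext j
    rcases j with i | j
    · simp [v, vv]
    · simp [v, vv, mv]
  have hspD : ∀ (γ : Matrix (Fin n) (Fin n) ℂ) (P : MvPolynomial (ι ⊕ (Fin n × Fin n)) ℂ),
      sp (mkDerivation ℂ (WW γ) P) = Dc γ (sp P) := by
    intro γ P
    induction P using MvPolynomial.induction_on with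
    | C c =>
      rw [derivation_C, map_zero]
      have h1 : sp (C c) = C c := algHom_C _ _
      rw [h1, derivation_C]
    | add p q hp hq => rw [map_add, map_add, map_add, map_add, hp, hq]
    | mul_X p j hp =>
      rw [Derivation.leibniz, mkDerivation_X, map_mul, Derivation.leibniz, map_add, smul_eq_mul,
        smul_eq_mul, smul_eq_mul, smul_eq_mul, map_mul, map_mul, hp]
      congr 2
      rcases j with i | j
      · have h1 : sp (X (Sum.inl i)) = C (b i s) := by
          change aeval _ (X (Sum.inl i)) = _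
          rw [aeval_X]
          rfl
        rw [h1, derivation_C]
        simp [WW]
      · have h1 : sp (X (Sum.inr j)) = X j := by
          change aeval _ (X (Sum.inr j)) = _
          rw [aeval_X]
          rfl
        rw [h1]
        unfold Dc
        rw [mkDerivation_X]
        simp only [WW, Wc, Sum.elim_inr, map_sum, map_mul]
        refine Finset.sum_congr rfl fun k _ => ?_
        have h2 : sp (X (Sum.inr (j.1, k))) = X (j.1, k) := by
          change aeval _ (X (Sum.inr (j.1, k))) = _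
          rw [aeval_X]
          rfl
        have h3 : sp (C (γ k j.2)) = C (γ k j.2) := algHom_C _ _
        rw [h2, h3]
  let J : Ideal (MvPolynomial (ι ⊕ (Fin n × Fin n)) ℂ) := RingHom.ker (aeval V).toRingHom
  have hJ : ∀ P, P ∈ J ↔ Rel v S P := fun P => by
    rw [hrel]
    exact RingHom.mem_ker
  let I : Ideal (MvPolynomial (Fin n × Fin n) ℂ) := J.map sp.toRingHom
  have hI : ∀ P, P ∈ I ↔ ∃ P', Rel v S P' ∧ sp P' = P := by
    intro P
    rw [Ideal.mem_map_iff_of_surjective sp.toRingHom hsps]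
    constructor
    · rintro ⟨P', h1, h2⟩
      exact ⟨P', (hJ P').1 h1, h2⟩
    · rintro ⟨P', h1, h2⟩
      exact ⟨P', (hJ P').2 h1, h2⟩
  refine static_torus (V0 := U s) (I := I) ?_ Φ hdom ?_ hQe (hQ s s.2) β ?_ ?_ ?_ (fun _ => c)
    (fun _ => hc) ?_
  · intro P hP
    obtain ⟨P', h1, h2⟩ := (hI P).1 hP
    rw [← h2, hspe]
    exact h1 s s.2
  · intro G hG
    rw [hI]
    refine ⟨rename Sum.inr (bind₁ Φ G), fun z hz => ?_, hspr _⟩
    rw [hvr]
    exact hon G hG z hz
  · intro i P hP
    obtain ⟨P', h1, h2⟩ := (hI P).1 hP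
    rw [hI]
    exact ⟨_, hδ i P' h1, by rw [hspD, h2]⟩
  · intro i
    obtain ⟨γ, h1⟩ := hγ i
    refine ⟨γ, (hI _).2 ⟨_, h1, ?_⟩⟩
    rw [map_sub, map_mul, hspD, hqq, hspr]
    have h3 : sp (C γ) = C γ := algHom_C _ _
    rw [h3]
  · have h1 := hsl
    rw [hΨ] at h1
    exact h1
  · intro i i'
    have h1 := (hMi i).2 i'
    rw [← hspe, ← hspe, ← hspe, ← hspe, hspD, hspD] at h1
    simp only [Ψ] at h1
    rw [hspr, hspr] at h1
    exact h1

end Pool.Agent.N626
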