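import Pool.Agent.N626.Km
import Pool.Agent.TH143.Gen

/-!
Dominant maps from tori to varieties with generic curves given by linear differential equations
over a differential ring.
-/

set_option autoImplicit false

namespace Pool.Agent.N626

open MvPolynomial Metric Set Filter Topology Pool.Agent.TH143 Pool.Agent.TH143.DE

variable {N : ℕ} {Ω : Set ℂ} {B : Subalgebra ℂ (ℂ → ℂ)}

/-- the polynomial `G` with coefficients in `B`, with the coefficients evaluated at `z` -/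
noncomputable def atB {σ : Type} (z : ℂ) : MvPolynomial σ B →ₐ[ℂ] MvPolynomial σ ℂ :=
  mapAlgHom ((Pi.evalAlgHom ℂ (fun _ : ℂ => ℂ) z).comp B.val)

theorem coeff_atB {σ : Type} (z : ℂ) (G : MvPolynomial σ B) (v : σ →₀ ℕ) :
    (atB z G).coeff v = ((G.coeff v : B) : ℂ → ℂ) z := by
  unfold atB
  rw [mapAlgHom_apply]
  exact coeff_map _ _ _

theorem atB_monomial {σ : Type} (z : ℂ) (v : σ →₀ ℕ) (b : B) :
    atB z (monomial v b) = monomial v ((b : ℂ → ℂ) z) := by
  unfold atB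
  rw [mapAlgHom_apply]
  exact map_monomial _ _ _

/-- No form with coefficients in `B` vanishes on the curve `f`, except for those with values in
the ideal `p`. -/
def GenOver (Ω : Set ℂ) (B : Subalgebra ℂ (ℂ → ℂ)) (p : Ideal (MvPolynomial (Fin (N + 1)) ℂ))
    (f : ℂ → Fin (N + 1) → ℂ) : Prop :=
  ∀ (D : ℕ) (G : MvPolynomial (Fin (N + 1)) B), G.IsHomogeneous D →
    (∀ z ∈ Ω, eval (f z) (atB z G) = 0) → ∀ z ∈ Ω, atB z G ∈ p

theorem common_nz (hΩc : IsPreconnected Ω) {F G : ℂ → ℂ} (hF : AnalyticOnNhd ℂ F Ω)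
    (hG : AnalyticOnNhd ℂ G Ω) (h1 : ∃ z ∈ Ω, F z ≠ 0) (h2 : ∃ z ∈ Ω, G z ≠ 0) :
    ∃ z ∈ Ω, F z * G z ≠ 0 := by
  by_contra hcon
  push Not at hcon
  rcases AnalyticOnNhd.eq_zero_or_eq_zero_of_mul_eq_zero hF hG hcon hΩc with h | h
  · obtain ⟨z, hz, hz'⟩ := h1
    exact hz' (h z hz)
  · obtain ⟨z, hz, hz'⟩ := h2
    exact hz' (h z hz)

theorem eval_form_an {f : ℂ → Fin (N + 1) → ℂ} (hf : ∀ j, AnalyticOnNhd ℂ (fun w => f w j) Ω)
    (Q : MvPolynomial (Fin (N + 1)) ℂ) : AnalyticOnNhd ℂ (fun w => eval (f w) Q) Ω := by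
  intro z hz
  have h1 : (fun w => eval (f w) Q) = fun w => ∑ α ∈ Q.support, Q.coeff α * ∏ j, f w j ^ α j := by
    funext w
    rw [eval_eq']
  rw [h1]
  apply Finset.analyticAt_fun_sum
  intro α _
  apply analyticAt_const.fun_mul
  apply Finset.analyticAt_fun_prod
  intro j _
  exact (hf j z hz).fun_pow _

theorem eval_atB_an (hB : ∀ b ∈ B, AnalyticOnNhd ℂ b Ω) {f : ℂ → Fin (N + 1) → ℂ}
    (hf : ∀ j, AnalyticOnNhd ℂ (fun w => f w j) Ω) (G : MvPolynomial (Fin (N + 1)) B) :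
    AnalyticOnNhd ℂ (fun w => eval (f w) (atB w G)) Ω := by
  induction G using MvPolynomial.induction_on with
  | C b =>
    have h1 : (fun w => eval (f w) (atB w (C b : MvPolynomial (Fin (N + 1)) B))) =
        (b : ℂ → ℂ) := by
      funext w
      have h2 : atB w (C b : MvPolynomial (Fin (N + 1)) B) = C ((b : ℂ → ℂ) w) := by
        unfold atB
        rw [mapAlgHom_apply]
        exact map_C _ _
      rw [h2, eval_C]
    rw [h1]
    exact hB b b.2
  | add p q hp hq =>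
    simp only [map_add]
    exact hp.add hq
  | mul_X p j hp =>
    have h2 : ∀ w, atB w (X j : MvPolynomial (Fin (N + 1)) B) = X j := by
      intro w
      unfold atB
      rw [mapAlgHom_apply]
      exact map_X _ _
    simp only [map_mul, h2, eval_X]
    exact hp.mul (hf j)

/-- **Density over the localised ring.** -/
theorem gen_loc (hΩc : IsPreconnected Ω) (hB : ∀ b ∈ B, AnalyticOnNhd ℂ b Ω)
    {f : ℂ → Fin (N + 1) → ℂ} (hf : ∀ j, AnalyticOnNhd ℂ (fun w => f w j) Ω)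
    {p : Ideal (MvPolynomial (Fin (N + 1)) ℂ)} (hgen : GenOver Ω B p f)
    (s : ℂ → ℂ) (hsB : s ∈ B) {S : Set ℂ} (hSo : IsOpen S) (hSΩ : S ⊆ Ω) {z0 : ℂ} (hz0 : z0 ∈ S)
    (hs : ∀ z ∈ S, s z ≠ 0) {D : ℕ} {G : MvPolynomial (Fin (N + 1)) (locAlg B s hsB S hs)}
    (hG : G.IsHomogeneous D) (h0 : ∀ z : S, eval (f z) (atz z G) = 0) (z : S) : atz z G ∈ p := by
  classical
  choose b hb k hk using fun v => (G.coeff v).2
  let K := ∑ v ∈ G.support, k v
  have hkK : ∀ v ∈ G.support, k v ≤ K := fun v hv =>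
    Finset.single_le_sum (f := k) (fun _ _ => Nat.zero_le _) hv
  let G' : MvPolynomial (Fin (N + 1)) B := ∑ v ∈ G.support,
    monomial v (⟨b v * s ^ (K - k v), B.mul_mem (hb v) (B.pow_mem hsB _)⟩ : B)
  have hG' : G'.IsHomogeneous D := by
    apply IsHomogeneous.sum
    intro v hv
    apply isHomogeneous_monomial
    have h1 := hG (mem_support_iff.1 hv)
    rw [Finsupp.degree_eq_weight_one]
    exact h1
  have hat : ∀ z : S, atB (z : ℂ) G' = C (s z ^ K) * atz z G := by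
    intro z
    have h1 : atz z G = ∑ v ∈ G.support, monomial v (evz z ((G.coeff v : locAlg B s hsB S hs) :
        Hol S)) := by
      conv_lhs => rw [G.as_sum]
      rw [map_sum]
      refine Finset.sum_congr rfl fun v _ => ?_
      unfold atz
      rw [mapAlgHom_apply]
      exact map_monomial _ _ _
    rw [h1, map_sum, Finset.mul_sum]
    refine Finset.sum_congr rfl fun v hv => ?_
    rw [atB_monomial, C_mul_monomial, hk v z]
    congr 1
    change b v z * s z ^ (K - k v) = _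
    have h2 : s z ^ K = s z ^ (K - k v) * s z ^ k v := by
      rw [← pow_add, Nat.sub_add_cancel (hkK v hv)]
    have h3 := hs z z.2
    rw [h2]
    field_simp
  have h1 : ∀ w ∈ Ω, eval (f w) (atB w G') = 0 := by
    have h2 := eval_atB_an hB hf G'
    have h3 := h2.eqOn_zero_of_preconnected_of_eventuallyEq_zero hΩc (hSΩ hz0) (by
      filter_upwards [hSo.mem_nhds hz0] with w hw
      have h4 := hat ⟨w, hw⟩
      change eval (f w) (atB w G') = 0
      rw [h4, map_mul, h0 ⟨w, hw⟩, mul_zero])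
    exact fun w hw => h3 hw
  have h2 := hgen D G' hG' h1 z (hSΩ z.2)
  rw [hat z] at h2
  have h3 := p.mul_mem_left (C ((s z ^ K)⁻¹)) h2
  rw [← mul_assoc, ← C_mul, inv_mul_cancel₀ (pow_ne_zero _ (hs z z.2)), C_1, one_mul] at h3
  exact h3

theorem torus_gen (hΩ : IsOpen Ω) (hΩc : IsPreconnected Ω) (hB : DiffRing Ω B)
    (f : ℂ → Fin (N + 1) → ℂ)
    (hf : ∀ j, AnalyticOnNhd ℂ (fun w => f w j) Ω) (hlin : ∀ j, LinOver Ω B (fun w => f w j))
    {p : Ideal (MvPolynomial (Fin (N + 1)) ℂ)} (hp : p.IsPrime) {i0 : Fin (N + 1)}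
    (hi0 : (X i0 : MvPolynomial (Fin (N + 1)) ℂ) ∉ p)
    (hon : ∀ G ∈ p, ∀ z ∈ Ω, eval (f z) G = 0) (hgen : GenOver Ω B p f)
    {Q : MvPolynomial (Fin (N + 1)) ℂ} {q : ℕ} (hQe : Q.IsHomogeneous q)
    (hQ0 : ∃ z ∈ Ω, eval (f z) Q ≠ 0) {bq cq : ℂ → ℂ} (hbq : bq ∈ B) (hcq : cq ∈ B)
    (hb0 : ∃ z ∈ Ω, bq z ≠ 0)
    (hlog : ∀ z ∈ Ω, bq z * deriv (fun w => eval (f w) Q) z = cq z * eval (f z) Q) :
    ∃ (r : ℕ) (w : Fin (N + 1) → MvPolynomial (Fin r) ℂ),
      (∀ G ∈ p, (∃ e, G.IsHomogeneous e) → aeval w G = 0) ∧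
      (∀ G : MvPolynomial (Fin (N + 1)) ℂ, (∃ e, G.IsHomogeneous e) → aeval w G = 0 → G ∈ p) ∧
      ∀ t : Fin r → ℂ, (∀ k, t k ≠ 0) → eval t (aeval w Q) ≠ 0 := by
  classical
  choose m l a hlB haB hl0 hnorm using fun j => (hlin j).normal
  have hQan := eval_form_an hf Q
  -- a nonzero product of analytic functions
  have hprod : ∀ T : Finset (Fin (N + 1)), ∃ z ∈ Ω, (∏ j ∈ T, l j z) ≠ 0 := by
    intro T
    induction T using Finset.induction_on with
    | empty =>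
      obtain ⟨z, hz, -⟩ := hQ0
      exact ⟨z, hz, by simp⟩
    | insert j T hj ih =>
      have hT : AnalyticOnNhd ℂ (fun z => ∏ j ∈ T, l j z) Ω := by
        intro z hz
        apply Finset.analyticAt_fun_prod
        intro i _
        exact hB.an _ (hlB i) z hz
      obtain ⟨z, hz, hz'⟩ := common_nz hΩc (hB.an _ (hlB j)) hT (hl0 j) ih
      exact ⟨z, hz, by rw [Finset.prod_insert hj]; exact hz'⟩
  let P0 : ℂ → ℂ := ∏ j, l j
  have hP0 : ∀ z, P0 z = ∏ j, l j z := fun z => Finset.prod_apply z _ _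
  have hP0B : P0 ∈ B := B.prod_mem fun j _ => hlB j
  let s : ℂ → ℂ := P0 * bq
  have hs : ∀ z, s z = P0 z * bq z := fun z => rfl
  have hsB : s ∈ B := B.mul_mem hP0B hbq
  have hsan := hB.an s hsB
  obtain ⟨z0, hz0, hz0'⟩ : ∃ z ∈ Ω, s z * eval (f z) Q ≠ 0 := by
    refine common_nz hΩc hsan hQan ?_ hQ0
    refine common_nz hΩc (hB.an _ hP0B) (hB.an _ hbq) ?_ hb0
    obtain ⟨z, hz, hz'⟩ := hprod Finset.univ
    exact ⟨z, hz, by rw [hP0]; exact hz'⟩
  have hsz0 : s z0 ≠ 0 := left_ne_zero_of_mul hz0'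
  have hQz0 : eval (f z0) Q ≠ 0 := right_ne_zero_of_mul hz0'
  -- the system
  let num : Fin (N + 1) → ℕ → ℂ → ℂ := fun j k =>
    a j k * ((∏ i ∈ Finset.univ.erase j, l i) * bq)
  have hnumB : ∀ j k, num j k ∈ B := fun j k =>
    B.mul_mem (haB j k) (B.mul_mem (B.prod_mem fun i _ => hlB i) hbq)
  have hnum : ∀ j k z, s z ≠ 0 → l j z ≠ 0 ∧ num j k z / s z = a j k z / l j z := by
    intro j k z hz
    have h2 : s z = l j z * (∏ i ∈ Finset.univ.erase j, l i z) * bq z := by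
      rw [hs, hP0, Finset.mul_prod_erase _ (fun i => l i z) (Finset.mem_univ j)]
    have h3 : l j z ≠ 0 := fun h => hz (by rw [h2, h, zero_mul, zero_mul])
    have h4 : (∏ i ∈ Finset.univ.erase j, l i z) ≠ 0 := fun h =>
      hz (by rw [h2, h, mul_zero, zero_mul])
    have h5 : bq z ≠ 0 := fun h => hz (by rw [h2, h, mul_zero])
    refine ⟨h3, ?_⟩
    simp only [num, Pi.mul_apply, Finset.prod_apply]
    rw [h2]
    field_simp
  obtain ⟨n, A, y, L, hA, hsys⟩ := exists_system (fun j w => f w j) m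
    (fun j k z => num j k z / s z)
  set Ω' := {z ∈ Ω | s z ≠ 0 ∧ eval (f z) Q ≠ 0} with hΩ'
  have hΩ'o : IsOpen Ω' := by
    rw [isOpen_iff_mem_nhds]
    intro z hz
    filter_upwards [hΩ.mem_nhds hz.1, (hsan z hz.1).continuousAt.eventually_ne hz.2.1,
      (hQan z hz.1).continuousAt.eventually_ne hz.2.2] with w h2 h3 h4
    exact ⟨h2, h3, h4⟩
  have hsys' : ∀ w ∈ Ω', (∀ i, HasDerivAt (fun w => y w i) (∑ k, A i k w * y w k) w) ∧
      ∀ j, f w j = ∑ k, L j k * y w k := by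
    intro w hw
    apply hsys w (fun j => hf j w hw.1)
    intro j
    rw [hnorm j w hw.1 (hnum j 0 w hw.2.1).1]
    refine Finset.sum_congr rfl fun k _ => ?_
    rw [(hnum j k w hw.2.1).2]
  have hAB : ∀ i k, ∃ b ∈ B, ∀ z ∈ Ω', A i k z = b z / s z ^ 1 := by
    intro i k
    obtain ⟨α, ε, j, p, hp⟩ := hA i k
    refine ⟨algebraMap ℂ (ℂ → ℂ) α * s + algebraMap ℂ (ℂ → ℂ) ε * num j p,
      B.add_mem (B.mul_mem (B.algebraMap_mem α) hsB) (B.mul_mem (B.algebraMap_mem ε) (hnumB j p)),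
      fun z hz => ?_⟩
    rw [hp, Pi.add_apply, Pi.mul_apply, Pi.mul_apply]
    have h2 := hz.2.1
    have h3 : ∀ c : ℂ, (algebraMap ℂ (ℂ → ℂ) c) z = c := fun c => rfl
    rw [h3, h3]
    field_simp
  choose bA hbA hbAe using hAB
  choose! der hderB hder using hB.der
  have hAan : ∀ i k, AnalyticOnNhd ℂ (fun z => bA i k z / s z ^ 1) Ω' := fun i k z hz =>
    (hB.an _ (hbA i k) z hz.1).fun_div ((hsan z hz.1).fun_pow 1) (pow_ne_zero _ hz.2.1)
  obtain ⟨r, hr, hrS, U, hU, hdet⟩ := exists_fund hΩ'o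
    (fun z => Matrix.of fun i k => bA i k z / s z ^ 1) (fun i k => by
      simpa only [Matrix.of_apply] using hAan i k)
    (show z0 ∈ Ω' from ⟨hz0, hsz0, hQz0⟩)
  set S := ball z0 r with hS
  have hz0S : z0 ∈ S := mem_ball_self hr
  have hSo : IsOpen S := isOpen_ball
  have hSc : IsPreconnected S := (convex_ball z0 r).isPreconnected
  have hSs : ∀ z ∈ S, s z ≠ 0 := fun z hz => (hrS hz).2.1
  have hSQ : ∀ z ∈ S, eval (f z) Q ≠ 0 := fun z hz => (hrS hz).2.2
  have hSΩ : S ⊆ Ω := fun z hz => (hrS hz).1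
  set c : Fin n → ℂ := Matrix.mulVec (U z0)⁻¹ (y z0) with hc
  have hyU : ∀ z ∈ S, ∀ i, y z i = ∑ l, U z i l * c l := by
    have h2 := sol_zero (a := z0) (r := r) (fun i k z => bA i k z / s z ^ 1)
      (fun i k => (hAan i k).mono hrS)
      (fun z i => y z i - ∑ l, U z i l * c l) (by
        intro z hz i
        have h3 := (hsys' z (hrS hz)).1 i
        have h4 : HasDerivAt (fun z => ∑ l, U z i l * c l)
            (∑ l, (∑ k, bA i k z / s z ^ 1 * U z k l) * c l) z := by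
          apply HasDerivAt.fun_sum
          intro l _
          have h5 := (hU z hz i l).mul_const (c l)
          rw [Matrix.mul_apply] at h5
          exact h5
        refine (h3.fun_sub h4).congr_deriv ?_
        simp only [hbAe _ _ z (hrS hz), mul_sub, Finset.sum_sub_distrib, Finset.sum_mul,
          Finset.mul_sum]
        congr 1
        rw [Finset.sum_comm]
        refine Finset.sum_congr rfl fun k _ => Finset.sum_congr rfl fun l _ => ?_
        ring) (by
        intro i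
        have h6 : ∑ l, U z0 i l * c l = y z0 i := by
          have h7 : Matrix.mulVec (U z0) c = y z0 := by
            rw [hc, Matrix.mulVec_mulVec, Matrix.mul_nonsing_inv _ ((hdet z0 hz0S).isUnit),
              Matrix.one_mulVec]
          rw [← h7]
          rfl
        rw [h6, sub_self])
    intro z hz i
    exact sub_eq_zero.mp (h2 z hz i)
  -- the coefficients
  let bb : B × ℕ → ℂ → ℂ := fun p z => p.1.1 z / s z ^ p.2
  have hbb : ∀ p, AnalyticOnNhd ℂ (bb p) S := fun p z hz =>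
    (hB.an _ p.1.2 z (hSΩ hz)).fun_div ((hsan z (hSΩ hz)).fun_pow _) (pow_ne_zero _ (hSs z hz))
  let dd : B × ℕ → B × ℕ := fun p =>
    (⟨der p.1.1 * s - algebraMap ℂ (ℂ → ℂ) (p.2 : ℂ) * p.1.1 * der s,
      B.sub_mem (B.mul_mem (hderB _ p.1.2) hsB)
        (B.mul_mem (B.mul_mem (B.algebraMap_mem _) p.1.2) (hderB _ hsB))⟩, p.2 + 1)
  have hdd : ∀ p, ∀ z ∈ S, HasDerivAt (bb p) (bb (dd p) z) z := by
    rintro ⟨b, k⟩ z hz
    have h2 := hder b.1 b.2 z (hSΩ hz)
    have h3 := hder s hsB z (hSΩ hz)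
    have h4 := hSs z hz
    refine (h2.fun_div (h3.fun_pow k) (pow_ne_zero k h4)).congr_deriv ?_
    have h5 : ∀ c : ℂ, (algebraMap ℂ (ℂ → ℂ) c) z = c := fun c => rfl
    simp only [bb, dd, Pi.sub_apply, Pi.mul_apply, h5]
    cases k with
    | zero => simp; field_simp
    | succ k =>
      rw [Nat.add_sub_cancel]
      field_simp
      ring
  let Φ : Fin (N + 1) → MvPolynomial (Fin n × Fin n) ℂ := fun j =>
    ∑ k, ∑ l, MvPolynomial.C (L j k * c l) * X (k, l)
  have hΦ : ∀ z ∈ S, ∀ j, eval (mv (U z)) (Φ j) = f z j := by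
    intro z hz j
    rw [(hsys' z (hrS hz)).2 j]
    simp only [Φ, map_sum, map_mul, eval_C, eval_X, mv]
    refine Finset.sum_congr rfl fun k _ => ?_
    rw [hyU z hz k, Finset.mul_sum]
    refine Finset.sum_congr rfl fun l _ => ?_
    ring
  have hFS : ∀ z ∈ S, (fun j => eval (mv (U z)) (Φ j)) = f z := fun z hz => funext (hΦ z hz)
  have hΦG : ∀ z ∈ S, ∀ G : MvPolynomial (Fin (N + 1)) ℂ,
      eval (mv (U z)) (bind₁ Φ G) = eval (f z) G := by
    intro z hz G
    rw [eval_bind, ← hFS z hz]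
  refine torus_local hSo hSc ⟨z0, hz0S⟩ bb hbb dd hdd
    (fun i k => (⟨bA i k, hbA i k⟩, 1)) U
    (fun z hz i j => by
      have := hU z hz i j
      rw [Matrix.mul_apply] at this
      exact this) hdet (locAlg B s hsB S hSs) (fun p => ⟨p.1.1, p.1.2, p.2, fun z => rfl⟩) Φ hp hi0
    (fun G hG z hz => by rw [hΦG z hz]; exact hon G hG z (hSΩ hz))
    (fun D G hG h0 => gen_loc hΩc hB.an hf hgen s hsB hSo hSΩ hz0S hSs hG fun z => by
      rw [← hFS z z.2]
      exact h0 z) hQe (⟨cq * P0, B.mul_mem hcq hP0B⟩, 1)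
    (fun z hz => by rw [hΦG z hz]; exact hSQ z hz) (fun z hz => ?_)
  have h1 := (hQan z (hSΩ hz)).differentiableAt.hasDerivAt
  rw [hΦG z hz]
  have h2 : (fun w => eval (mv (U w)) (bind₁ Φ Q)) =ᶠ[𝓝 z] fun w => eval (f w) Q := by
    filter_upwards [hSo.mem_nhds hz] with w hw
    exact hΦG w hw Q
  refine (h1.congr_of_eventuallyEq h2).congr_deriv ?_
  have h3 := hlog z (hSΩ hz)
  have h4 := hSs z hz
  have h5 : bq z ≠ 0 := fun h => h4 (by rw [hs, h, mul_zero])
  have h6 : P0 z ≠ 0 := fun h => h4 (by rw [hs, h, zero_mul])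
  simp only [bb, Pi.mul_apply, pow_one]
  rw [hs, eq_comm, div_mul_eq_mul_div, div_eq_iff (mul_ne_zero h6 h5)]
  linear_combination (-P0 z) * h3

end Pool.Agent.N626
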