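import Pool.Agent.N626.Kn
import Pool.Agent.TH143.Global
import Pool.Agent.TH143.Fin

/-!
Entire curves given by linear differential equations with polynomial or constant coefficients, which
omit a hypersurface.
-/

set_option autoImplicit false

namespace Pool.Agent.N626

open MvPolynomial Metric Set Filter Topology Pool.Agent.TH143 Pool.Agent.TH143.DE
  Pool.Agent.W603.BP

variable {N : ℕ}

/-- the curve satisfies linear differential equations with constant coefficients -/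
def ConstODE (g : ℂ → ℂ) : Prop :=
  ∃ (n : ℕ) (a : ℕ → ℂ), (∃ k ≤ n, a k ≠ 0) ∧
    ∀ z, ∑ k ∈ Finset.range (n + 1), a k * iteratedDeriv k g z = 0

theorem eval_form_diff {f : ℂ → Fin (N + 1) → ℂ} (hf : ∀ j, Differentiable ℂ (fun w => f w j))
    (Q : MvPolynomial (Fin (N + 1)) ℂ) : Differentiable ℂ (fun w => eval (f w) Q) := fun z =>
  (eval_form_an (Ω := univ) (fun j z _ => (hf j).analyticAt z) Q z (mem_univ z)).differentiableAt

theorem log_pol {f : ℂ → Fin (N + 1) → ℂ} (hd : ∀ j, Differentiable ℂ fun z => f z j)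
    (hode : ∀ j, PolODE fun z => f z j) {Q : MvPolynomial (Fin (N + 1)) ℂ}
    (hQ : ∀ z, eval (f z) Q ≠ 0) :
    ∃ P : Polynomial ℂ, ∀ z, deriv (fun w => eval (f w) Q) z = P.eval z * eval (f z) Q := by
  obtain ⟨n, A, y, L, hA, hy, hfL⟩ := linSys_of_polODE f hd hode
  obtain ⟨C, K, hC, hgr⟩ := growth_sol A hA y hy
  have hfgr : ∀ j, Grow (fun w => f w⁻¹ j) := by
    intro j
    have h2 : Grow (fun w => ∑ k, L j k * y w k) := Grow.sum _ fun k _ =>
      (Grow.const _).mul ⟨C, K, hC, by filter_upwards [hgr] with w hw using hw k⟩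
    exact h2.congr (by filter_upwards [hfL] with w hw using hw j)
  obtain ⟨C', K', hC', hgrQ⟩ := Grow.eval hfgr Q
  obtain ⟨δ, hδ, hall⟩ := ev_iff.mp hgrQ
  obtain ⟨h, hh, hGh, C2, hC2⟩ := log_growth (eval_form_diff hd Q) hQ (C := C') (R0 := δ⁻¹ + 1)
    (p := K') hC' (by
      intro z hz
      have hz' : z ∈ Ext δ⁻¹ := by
        change δ⁻¹ < ‖z‖
        linarith
      have h1 : ‖eval (f z⁻¹⁻¹) Q‖ ≤ Real.exp (C' * (‖z⁻¹‖ ^ K')⁻¹) :=
        hall z⁻¹ (inv_mem_PB hδ hz')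
      rw [inv_inv, norm_inv, inv_pow, inv_inv] at h1
      exact h1)
  obtain ⟨M, hM⟩ := (isCompact_closedBall (0 : ℂ) 1).exists_bound_of_continuousOn
    hh.continuous.continuousOn
  obtain ⟨H, hH⟩ := poly_of_growth h hh (|C2| + |M|) K' (by
    intro z
    have h0 : (0 : ℝ) ≤ ‖z‖ := norm_nonneg z
    have h3 : (1 : ℝ) ≤ (1 + ‖z‖) ^ K' := one_le_pow₀ (by linarith)
    rcases le_total 1 ‖z‖ with h1 | h1
    · have h2 : ‖z‖ ^ K' ≤ (1 + ‖z‖) ^ K' := pow_le_pow_left₀ h0 (by linarith) _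
      calc ‖h z‖ ≤ C2 * ‖z‖ ^ K' := hC2 z h1
        _ ≤ |C2| * (1 + ‖z‖) ^ K' :=
            mul_le_mul (le_abs_self _) h2 (by positivity) (abs_nonneg _)
        _ ≤ (|C2| + |M|) * (1 + ‖z‖) ^ K' := by
            have := abs_nonneg M
            nlinarith
    · have h2 := hM z (by simpa using h1)
      calc ‖h z‖ ≤ M := h2
        _ ≤ |M| * 1 := by rw [mul_one]; exact le_abs_self M
        _ ≤ (|C2| + |M|) * (1 + ‖z‖) ^ K' :=
            mul_le_mul (by linarith [abs_nonneg C2]) h3 zero_le_one (by positivity))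
  refine ⟨Polynomial.derivative H, fun z => ?_⟩
  have h1 : (fun w => eval (f w) Q) = fun w => Complex.exp (H.eval w) := by
    funext w
    rw [hGh w, hH w]
  rw [hGh z, hH z, h1]
  rw [((H.hasDerivAt z).cexp).deriv]
  ring

/-! ### constant coefficients -/

/-- growth of order one -/
def Gr1 (g : ℂ → ℂ) : Prop := ∃ C : ℝ, 0 ≤ C ∧ ∀ z, 1 ≤ ‖z‖ → ‖g z‖ ≤ Real.exp (C * ‖z‖)

theorem Gr1.const (c : ℂ) : Gr1 fun _ => c := by
  refine ⟨‖c‖, norm_nonneg _, fun z hz => ?_⟩
  calc ‖c‖ ≤ ‖c‖ * ‖z‖ := le_mul_of_one_le_right (norm_nonneg _) hz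
    _ ≤ Real.exp (‖c‖ * ‖z‖) := by linarith [Real.add_one_le_exp (‖c‖ * ‖z‖)]

theorem Gr1.mul {f g : ℂ → ℂ} (hf : Gr1 f) (hg : Gr1 g) : Gr1 fun z => f z * g z := by
  obtain ⟨C, hC, hf⟩ := hf
  obtain ⟨D, hD, hg⟩ := hg
  refine ⟨C + D, by positivity, fun z hz => ?_⟩
  rw [norm_mul, add_mul, Real.exp_add]
  exact mul_le_mul (hf z hz) (hg z hz) (norm_nonneg _) (Real.exp_pos _).le

theorem Gr1.add {f g : ℂ → ℂ} (hf : Gr1 f) (hg : Gr1 g) : Gr1 fun z => f z + g z := by
  obtain ⟨C, hC, hf⟩ := hf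
  obtain ⟨D, hD, hg⟩ := hg
  refine ⟨C + D + 1, by positivity, fun z hz => ?_⟩
  have h1 : Real.exp (C * ‖z‖) ≤ Real.exp ((C + D) * ‖z‖) :=
    Real.exp_le_exp.2 (mul_le_mul_of_nonneg_right (by linarith) (norm_nonneg _))
  have h2 : Real.exp (D * ‖z‖) ≤ Real.exp ((C + D) * ‖z‖) :=
    Real.exp_le_exp.2 (mul_le_mul_of_nonneg_right (by linarith) (norm_nonneg _))
  have h3 : (2 : ℝ) ≤ Real.exp ‖z‖ := by linarith [Real.add_one_le_exp ‖z‖]
  calc ‖f z + g z‖ ≤ ‖f z‖ + ‖g z‖ := norm_add_le _ _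
    _ ≤ Real.exp ((C + D) * ‖z‖) * 2 := by linarith [hf z hz, hg z hz]
    _ ≤ Real.exp ((C + D) * ‖z‖) * Real.exp ‖z‖ :=
        mul_le_mul_of_nonneg_left h3 (Real.exp_pos _).le
    _ = Real.exp ((C + D + 1) * ‖z‖) := by rw [← Real.exp_add]; ring_nf

theorem Gr1.sum {ι : Type*} (s : Finset ι) {f : ι → ℂ → ℂ} (hf : ∀ i ∈ s, Gr1 (f i)) :
    Gr1 (fun w => ∑ i ∈ s, f i w) := by
  classical
  induction s using Finset.induction_on with
  | empty => simpa using Gr1.const 0
  | insert i s hi ih =>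
    simp only [Finset.sum_insert hi]
    exact (hf i (Finset.mem_insert_self i s)).add
      (ih fun j hj => hf j (Finset.mem_insert_of_mem hj))

theorem Gr1.eval {κ : Type*} {f : ℂ → κ → ℂ} (hf : ∀ l, Gr1 (fun w => f w l))
    (P : MvPolynomial κ ℂ) : Gr1 (fun w => MvPolynomial.eval (f w) P) := by
  induction P using MvPolynomial.induction_on with
  | C a => simpa using Gr1.const a
  | add p q hp hq =>
    simp only [map_add]
    exact hp.add hq
  | mul_X p j hp =>
    simp only [map_mul, eval_X]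
    exact hp.mul (hf j)

theorem sys_gr1 {n : ℕ} (A : Fin n → Fin n → ℂ) (y : ℂ → Fin n → ℂ)
    (hy : ∀ w i, HasDerivAt (fun w => y w i) (∑ k, A i k * y w k) w) (i : Fin n) :
    Gr1 fun z => y z i := by
  set K : ℝ := ∑ i, ∑ k, ‖A i k‖ with hK
  have hK0 : 0 ≤ K := Finset.sum_nonneg fun _ _ => Finset.sum_nonneg fun _ _ => norm_nonneg _
  have hbd : ∀ z, ‖y z‖ ≤ ‖y 0‖ * Real.exp (K * ‖z‖) := by
    intro z
    have h1 : ∀ t : ℝ, HasDerivAt (fun t : ℝ => y (t * z))
        (fun i => (∑ k, A i k * y (t * z) k) * z) t := by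
      intro t
      rw [hasDerivAt_pi]
      intro i
      have h2 : HasDerivAt (fun s : ℂ => s * z) z (t : ℂ) := by
        simpa using (hasDerivAt_id (t : ℂ)).mul_const z
      have h3 : HasDerivAt (fun s : ℂ => y (s * z) i) ((∑ k, A i k * y (t * z) k) * z) (t : ℂ) :=
        HasDerivAt.comp (h₂ := fun w => y w i) (t : ℂ) (hy (t * z) i) h2
      exact h3.comp_ofReal
    have h4 := norm_le_gronwallBound_of_norm_deriv_right_le (f := fun t : ℝ => y (t * z))
      (f' := fun t i => (∑ k, A i k * y (t * z) k) * z) (δ := ‖y 0‖) (K := K * ‖z‖) (ε := 0)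
      (a := 0) (b := 1)
      (fun t _ => (h1 t).continuousAt.continuousWithinAt)
      (fun t _ => (h1 t).hasDerivWithinAt) (by simp) (by
        intro t _
        rw [add_zero, pi_norm_le_iff_of_nonneg (by positivity)]
        intro i
        rw [norm_mul]
        have h5 : ‖∑ k, A i k * y (t * z) k‖ ≤ K * ‖y (t * z)‖ := by
          calc ‖∑ k, A i k * y (t * z) k‖ ≤ ∑ k, ‖A i k * y (t * z) k‖ := norm_sum_le _ _
            _ ≤ ∑ k, ‖A i k‖ * ‖y (t * z)‖ := by
                refine Finset.sum_le_sum fun k _ => ?_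
                rw [norm_mul]
                exact mul_le_mul_of_nonneg_left (norm_le_pi_norm _ k) (norm_nonneg _)
            _ = (∑ k, ‖A i k‖) * ‖y (t * z)‖ := by rw [Finset.sum_mul]
            _ ≤ K * ‖y (t * z)‖ := by
                refine mul_le_mul_of_nonneg_right ?_ (norm_nonneg _)
                exact Finset.single_le_sum (f := fun i => ∑ k, ‖A i k‖)
                  (fun _ _ => Finset.sum_nonneg fun _ _ => norm_nonneg _) (Finset.mem_univ i)
        calc ‖∑ k, A i k * y (t * z) k‖ * ‖z‖ ≤ K * ‖y (t * z)‖ * ‖z‖ :=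
              mul_le_mul_of_nonneg_right h5 (norm_nonneg _)
          _ = K * ‖z‖ * ‖y (t * z)‖ := by ring) 1 ⟨zero_le_one, le_rfl⟩
    rw [gronwallBound_ε0] at h4
    simpa using h4
  refine ⟨‖y 0‖ + K, by positivity, fun z hz => ?_⟩
  calc ‖y z i‖ ≤ ‖y z‖ := norm_le_pi_norm _ i
    _ ≤ ‖y 0‖ * Real.exp (K * ‖z‖) := hbd z
    _ ≤ Real.exp (‖y 0‖ * ‖z‖) * Real.exp (K * ‖z‖) := by
        refine mul_le_mul_of_nonneg_right ?_ (Real.exp_pos _).le
        have h1 : ‖y 0‖ ≤ ‖y 0‖ * ‖z‖ := le_mul_of_one_le_right (norm_nonneg _) hz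
        linarith [Real.add_one_le_exp (‖y 0‖ * ‖z‖)]
    _ = Real.exp ((‖y 0‖ + K) * ‖z‖) := by rw [← Real.exp_add]; ring_nf

theorem ConstODE.normal {g : ℂ → ℂ} (h : ConstODE g) :
    ∃ (m : ℕ) (c : ℕ → ℂ), ∀ z, iteratedDeriv m g z
        = ∑ k ∈ Finset.range m, c k * iteratedDeriv k g z := by
  classical
  obtain ⟨m, a, ⟨k0, hk0, hn⟩, h⟩ := h
  let T := (Finset.range (m + 1)).filter fun k => a k ≠ 0
  have hT : T.Nonempty :=
    ⟨k0, Finset.mem_filter.mpr ⟨Finset.mem_range.mpr (Nat.lt_succ_of_le hk0), hn⟩⟩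
  set l := T.max' hT with hl
  have hlT : l ∈ T := T.max'_mem hT
  have hlm : l ≤ m := Nat.lt_succ_iff.mp (Finset.mem_range.mp (Finset.mem_filter.mp hlT).1)
  have hlN : a l ≠ 0 := (Finset.mem_filter.mp hlT).2
  have hbig : ∀ k ∈ Finset.range (m + 1), k ∉ Finset.range (l + 1) → a k = 0 := by
    intro k hk hkl
    by_contra hcon
    have : k ∈ T := Finset.mem_filter.mpr ⟨hk, hcon⟩
    have h2 := T.le_max' k this
    rw [Finset.mem_range] at hkl
    omega
  refine ⟨l, fun k => -(a k / a l), fun z => ?_⟩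
  have h1 := h z
  have hsub : Finset.range (l + 1) ⊆ Finset.range (m + 1) := by
    intro k hk
    rw [Finset.mem_range] at hk ⊢
    omega
  rw [← Finset.sum_subset hsub (by
    intro k hk hk'
    rw [hbig k hk hk', zero_mul]), Finset.sum_range_succ] at h1
  have h4 : ∑ k ∈ Finset.range l, -(a k / a l) * iteratedDeriv k g z
      = -(a l)⁻¹ * ∑ k ∈ Finset.range l, a k * iteratedDeriv k g z := by
    rw [Finset.mul_sum]
    refine Finset.sum_congr rfl fun k _ => ?_
    field_simp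
  rw [h4]
  have h5 : ∑ k ∈ Finset.range l, a k * iteratedDeriv k g z
      = -(a l * iteratedDeriv l g z) := by
    linear_combination h1
  rw [h5]
  field_simp

theorem affine_of_growth {h : ℂ → ℂ} (hh : Differentiable ℂ h) {C : ℝ}
    (hb : ∀ z, 1 ≤ ‖z‖ → ‖h z‖ ≤ C * ‖z‖) : ∃ c : ℂ, ∀ z, h z = h 0 + c * z := by
  have hg : Differentiable ℂ (dslope h 0) := by
    rw [← differentiableOn_univ, Complex.differentiableOn_dslope univ_mem]
    exact hh.differentiableOn
  obtain ⟨M, hM⟩ := (isCompact_closedBall (0 : ℂ) 1).exists_bound_of_continuousOn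
    hg.continuous.continuousOn
  have hbdd : Bornology.IsBounded (range (dslope h 0)) := by
    refine isBounded_iff_forall_norm_le.2 ⟨max M (C + ‖h 0‖), ?_⟩
    rintro _ ⟨z, rfl⟩
    rcases le_total ‖z‖ 1 with h1 | h1
    · exact (hM z (by simpa using h1)).trans (le_max_left _ _)
    · refine le_trans ?_ (le_max_right _ _)
      have hz : z ≠ 0 := by
        intro h0
        rw [h0, norm_zero] at h1
        linarith
      have hz' : 0 < ‖z‖ := norm_pos_iff.2 hz
      rw [dslope_of_ne _ hz, slope_def_field, norm_div, sub_zero, div_le_iff₀ hz']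
      calc ‖h z - h 0‖ ≤ ‖h z‖ + ‖h 0‖ := norm_sub_le _ _
        _ ≤ C * ‖z‖ + ‖h 0‖ * ‖z‖ :=
            add_le_add (hb z h1) (le_mul_of_one_le_right (norm_nonneg _) h1)
        _ = (C + ‖h 0‖) * ‖z‖ := by ring
  refine ⟨dslope h 0 0, fun z => ?_⟩
  have h1 := hg.apply_eq_apply_of_bounded hbdd 0 z
  rw [h1]
  have h2 := sub_smul_dslope h 0 z
  rw [sub_zero, smul_eq_mul] at h2
  linear_combination -h2

theorem log_const {f : ℂ → Fin (N + 1) → ℂ} (hd : ∀ j, Differentiable ℂ fun z => f z j)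
    (hode : ∀ j, ConstODE fun z => f z j) {Q : MvPolynomial (Fin (N + 1)) ℂ}
    (hQ : ∀ z, eval (f z) Q ≠ 0) :
    ∃ c : ℂ, ∀ z, deriv (fun w => eval (f w) Q) z = c * eval (f z) Q := by
  choose m c hc using fun j => (hode j).normal
  obtain ⟨n, A, y, L, hA, hsys⟩ := exists_system (fun j w => f w j) m (fun j k _ => c j k)
  have hA' : ∀ i k, ∃ α : ℂ, ∀ w, A i k w = α := by
    intro i k
    obtain ⟨α, ε, j, l, h⟩ := hA i k
    exact ⟨_, h⟩
  choose A0 hA0 using hA'
  have h1 := fun w => hsys w (fun j => (hd j).analyticAt w) (fun j => hc j w)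
  have hgr := sys_gr1 A0 y (fun w i => by
    have := (h1 w).1 i
    simp only [hA0] at this
    exact this)
  have hf : ∀ j, Gr1 fun z => f z j := by
    intro j
    have h2 : (fun z => f z j) = fun z => ∑ k, L j k * y z k := funext fun z => (h1 z).2 j
    rw [h2]
    exact Gr1.sum _ fun k _ => (Gr1.const _).mul (hgr k)
  obtain ⟨C, hC, hgrQ⟩ := Gr1.eval hf Q
  obtain ⟨h, hh, hGh, C2, hC2⟩ := log_growth (eval_form_diff hd Q) hQ (C := C) (R0 := 1)
    (p := 1) hC (by
      intro z hz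
      rw [pow_one]
      exact hgrQ z hz)
  obtain ⟨a, ha⟩ := affine_of_growth hh (C := C2) (fun z hz => by
    have := hC2 z hz
    rwa [pow_one] at this)
  refine ⟨a, fun z => ?_⟩
  have h3 : (fun w => eval (f w) Q) = fun w => Complex.exp (h 0 + a * w) := by
    funext w
    rw [hGh w, ha w]
  rw [hGh z, ha z, h3]
  have h4 : HasDerivAt (fun w => h 0 + a * w) a z := by
    simpa using ((hasDerivAt_id z).const_mul a).const_add (h 0)
  rw [h4.cexp.deriv]
  ring

end Pool.Agent.N626
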