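import Pool.Agent.N626.Ko
import Pool.Agent.N626.Kj

/-!
Torus domination and entire curves given by linear differential equations.
-/

set_option autoImplicit false

namespace Pool.Agent.N626

open MvPolynomial Metric Set Filter Topology Pool.Agent.TH143 Pool.Agent.TH143.DE

variable {N : ℕ}

/-- polynomial functions -/
def polB : Subalgebra ℂ (ℂ → ℂ) where
  carrier := {b | ∃ P : Polynomial ℂ, ∀ z, b z = P.eval z}
  mul_mem' := by
    rintro f g ⟨P, hP⟩ ⟨R, hR⟩
    exact ⟨P * R, fun z => by rw [Pi.mul_apply, hP, hR, Polynomial.eval_mul]⟩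
  add_mem' := by
    rintro f g ⟨P, hP⟩ ⟨R, hR⟩
    exact ⟨P + R, fun z => by rw [Pi.add_apply, hP, hR, Polynomial.eval_add]⟩
  algebraMap_mem' := fun c => ⟨Polynomial.C c, fun z => by rw [Polynomial.eval_C]; rfl⟩

theorem polB_diff : DiffRing univ polB where
  an := by
    rintro b ⟨P, hP⟩ z _
    have h1 : b = fun z => P.eval z := funext hP
    rw [h1]
    exact P.differentiable.analyticAt z
  der := by
    rintro b ⟨P, hP⟩
    refine ⟨fun z => (Polynomial.derivative P).eval z, ⟨_, fun z => rfl⟩, fun z _ => ?_⟩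
    have h1 : b = fun z => P.eval z := funext hP
    rw [h1]
    exact P.hasDerivAt z

theorem bot_mem {b : ℂ → ℂ} : b ∈ (⊥ : Subalgebra ℂ (ℂ → ℂ)) ↔ ∃ c : ℂ, ∀ z, b z = c := by
  rw [Algebra.mem_bot]
  constructor
  · rintro ⟨c, rfl⟩
    exact ⟨c, fun z => rfl⟩
  · rintro ⟨c, hc⟩
    exact ⟨c, funext fun z => (hc z).symm⟩

theorem bot_diff : DiffRing univ (⊥ : Subalgebra ℂ (ℂ → ℂ)) where
  an := by
    intro b hb z _
    obtain ⟨c, hc⟩ := bot_mem.1 hb
    have h1 : b = fun _ => c := funext hc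
    rw [h1]
    exact analyticAt_const
  der := by
    intro b hb
    obtain ⟨c, hc⟩ := bot_mem.1 hb
    refine ⟨fun _ => 0, bot_mem.2 ⟨0, fun _ => rfl⟩, fun z _ => ?_⟩
    have h1 : b = fun _ => c := funext hc
    rw [h1]
    exact hasDerivAt_const z c

/-- The points `(z, f z)` are Zariski-dense in the product of the affine line and the variety with
the ideal `p`. -/
def GraphDense (p : Ideal (MvPolynomial (Fin (N + 1)) ℂ)) (f : ℂ → Fin (N + 1) → ℂ) : Prop :=
  ∀ (D n : ℕ) (G : ℕ → MvPolynomial (Fin (N + 1)) ℂ), (∀ k, (G k).IsHomogeneous D) →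
    (∀ z : ℂ, ∑ k ∈ Finset.range n, z ^ k * eval (f z) (G k) = 0) → ∀ k < n, G k ∈ p

theorem atB_sum {B : Subalgebra ℂ (ℂ → ℂ)} {σ : Type} (G : MvPolynomial σ B) (z : ℂ) :
    atB z G = ∑ v ∈ G.support, monomial v (((G.coeff v : B) : ℂ → ℂ) z) := by
  conv_lhs => rw [G.as_sum]
  rw [map_sum]
  exact Finset.sum_congr rfl fun v _ => atB_monomial z v _

theorem gen_pol {p : Ideal (MvPolynomial (Fin (N + 1)) ℂ)} {f : ℂ → Fin (N + 1) → ℂ}
    (hd : GraphDense p f) : GenOver univ polB p f := by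
  classical
  intro D G hG h0 z _
  choose R hR using fun v => (G.coeff v).2
  let n := (∑ v ∈ G.support, (R v).natDegree) + 1
  have hn : ∀ v ∈ G.support, (R v).natDegree < n := fun v hv =>
    Nat.lt_succ_of_le (Finset.single_le_sum (f := fun v => (R v).natDegree)
      (fun _ _ => Nat.zero_le _) hv)
  let H : ℕ → MvPolynomial (Fin (N + 1)) ℂ := fun k =>
    ∑ v ∈ G.support, monomial v ((R v).coeff k)
  have hH : ∀ k, (H k).IsHomogeneous D := by
    intro k
    apply IsHomogeneous.sum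
    intro v hv
    apply isHomogeneous_monomial
    have h1 := hG (mem_support_iff.1 hv)
    rw [Finsupp.degree_eq_weight_one]
    exact h1
  have hat : ∀ z : ℂ, atB z G = ∑ k ∈ Finset.range n, C (z ^ k) * H k := by
    intro z
    rw [atB_sum]
    simp only [H, Finset.mul_sum]
    rw [Finset.sum_comm]
    refine Finset.sum_congr rfl fun v hv => ?_
    rw [hR v z, Polynomial.eval_eq_sum_range' (hn v hv), map_sum]
    refine Finset.sum_congr rfl fun k _ => ?_
    rw [C_mul_monomial, mul_comm]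
  have h1 := hd D n H hH (fun z => by
    rw [← h0 z (mem_univ z), hat z, map_sum]
    refine Finset.sum_congr rfl fun k _ => ?_
    rw [map_mul, eval_C])
  rw [hat z]
  exact p.sum_mem fun k hk => p.mul_mem_left _ (h1 k (Finset.mem_range.1 hk))

theorem gen_bot {p : Ideal (MvPolynomial (Fin (N + 1)) ℂ)} {f : ℂ → Fin (N + 1) → ℂ}
    (hd : ∀ G : MvPolynomial (Fin (N + 1)) ℂ, (∃ e, G.IsHomogeneous e) →
      (∀ z, eval (f z) G = 0) → G ∈ p) :
    GenOver univ (⊥ : Subalgebra ℂ (ℂ → ℂ)) p f := by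
  intro D G hG h0 z _
  choose c hc using fun v => bot_mem.1 (G.coeff v).2
  have hat : ∀ w, atB w G = atB z G := by
    intro w
    rw [atB_sum, atB_sum]
    refine Finset.sum_congr rfl fun v _ => ?_
    rw [hc, hc]
  refine hd _ ⟨D, ?_⟩ fun w => ?_
  · rw [atB_sum]
    apply IsHomogeneous.sum
    intro v hv
    apply isHomogeneous_monomial
    have h1 := hG (mem_support_iff.1 hv)
    rw [Finsupp.degree_eq_weight_one]
    exact h1
  · rw [← hat w]
    exact h0 w (mem_univ w)

theorem PolODE.linOver {g : ℂ → ℂ} (h : PolODE g) : LinOver univ polB g := by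
  obtain ⟨m, a, ⟨k, hk, hak⟩, h⟩ := h
  refine ⟨m, fun k z => (a k).eval z, fun k => ⟨a k, fun z => rfl⟩, ⟨k, hk, ?_⟩, fun z _ => h z⟩
  by_contra hcon
  push Not at hcon
  apply hak
  apply Polynomial.funext
  intro z
  rw [Polynomial.eval_zero]
  exact hcon z (mem_univ z)

theorem ConstODE.linOver {g : ℂ → ℂ} (h : ConstODE g) :
    LinOver univ (⊥ : Subalgebra ℂ (ℂ → ℂ)) g := by
  obtain ⟨m, a, ⟨k, hk, hak⟩, h⟩ := h
  exact ⟨m, fun k _ => a k, fun k => bot_mem.2 ⟨a k, fun z => rfl⟩,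
    ⟨k, hk, 0, mem_univ _, hak⟩, fun z _ => h z⟩

theorem ConstODE.polODE {g : ℂ → ℂ} (h : ConstODE g) : PolODE g := by
  obtain ⟨m, a, ⟨k, hk, hak⟩, h⟩ := h
  refine ⟨m, fun k => Polynomial.C (a k), ⟨k, hk, Polynomial.C_ne_zero.2 hak⟩, fun z => ?_⟩
  rw [← h z]
  exact Finset.sum_congr rfl fun k _ => by rw [Polynomial.eval_C]

/-! ### the exponential curve -/

/-- the curve `z ↦ (2^z, 3^z, 5^z, …)` -/
noncomputable def ec {r : ℕ} (z : ℂ) (k : Fin r) : ℂ :=
  Complex.exp (Complex.log ((Nat.nth Nat.Prime k : ℕ) : ℂ) * z)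

theorem ec_ne {r : ℕ} (z : ℂ) (k : Fin r) : ec z k ≠ 0 := Complex.exp_ne_zero _

theorem ec_nat {r : ℕ} (m : ℕ) : (ec (m : ℂ) : Fin r → ℂ) = ppt m := by
  funext k
  unfold ec ppt
  rw [mul_comm, Complex.exp_nat_mul, Complex.exp_log]
  exact_mod_cast (Nat.prime_nth_prime k).ne_zero

theorem eval_ec {r : ℕ} (F : MvPolynomial (Fin r) ℂ) (z : ℂ) :
    eval (ec z) F = ∑ v ∈ F.support, coeff v F *
      Complex.exp ((∑ k, (v k : ℂ) * Complex.log ((Nat.nth Nat.Prime k : ℕ) : ℂ)) * z) := by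
  rw [eval_eq']
  refine Finset.sum_congr rfl fun v _ => ?_
  rw [Finset.sum_mul, Complex.exp_sum]
  congr 1
  refine Finset.prod_congr rfl fun k _ => ?_
  unfold ec
  rw [← Complex.exp_nat_mul]
  congr 1
  ring

theorem expsum_ode {ι : Type} (s : Finset ι) (c lam : ι → ℂ) :
    ConstODE fun z => ∑ i ∈ s, c i * Complex.exp (lam i * z) := by
  have h1 : ∀ k, iteratedDeriv k (fun z => ∑ i ∈ s, c i * Complex.exp (lam i * z)) =
      fun z => ∑ i ∈ s, c i * lam i ^ k * Complex.exp (lam i * z) := by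
    intro k
    induction k with
    | zero =>
      rw [iteratedDeriv_zero]
      funext z
      exact Finset.sum_congr rfl fun i _ => by rw [pow_zero, mul_one]
    | succ k ih =>
      rw [iteratedDeriv_succ, ih]
      funext z
      have h2 : HasDerivAt (fun z => ∑ i ∈ s, c i * lam i ^ k * Complex.exp (lam i * z))
          (∑ i ∈ s, c i * lam i ^ (k + 1) * Complex.exp (lam i * z)) z := by
        apply HasDerivAt.fun_sum
        intro i _
        have h3 : HasDerivAt (fun z => lam i * z) (lam i) z := by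
          simpa using (hasDerivAt_id z).const_mul (lam i)
        refine (h3.cexp.const_mul (c i * lam i ^ k)).congr_deriv ?_
        rw [pow_succ]
        ring
      exact h2.deriv
  let P : Polynomial ℂ := ∏ i ∈ s, (Polynomial.X - Polynomial.C (lam i))
  have hP : P.Monic := Polynomial.monic_prod_of_monic _ _ fun i _ => Polynomial.monic_X_sub_C _
  refine ⟨P.natDegree, fun k => P.coeff k, ⟨P.natDegree, le_rfl, ?_⟩, fun z => ?_⟩
  · change P.coeff P.natDegree ≠ 0
    rw [hP.coeff_natDegree]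
    exact one_ne_zero
  · simp only [h1, Finset.mul_sum]
    rw [Finset.sum_comm]
    apply Finset.sum_eq_zero
    intro i hi
    have h2 : P.eval (lam i) = 0 := by
      rw [Polynomial.eval_prod]
      exact Finset.prod_eq_zero hi (by simp)
    rw [Polynomial.eval_eq_sum_range] at h2
    have h3 : ∑ k ∈ Finset.range (P.natDegree + 1),
        P.coeff k * (c i * lam i ^ k * Complex.exp (lam i * z)) =
        c i * Complex.exp (lam i * z) * ∑ k ∈ Finset.range (P.natDegree + 1),
          P.coeff k * lam i ^ k := by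
      rw [Finset.mul_sum]
      exact Finset.sum_congr rfl fun k _ => by ring
    rw [h3, h2, mul_zero]

/-- **Entire curves in varieties dominated by tori.** -/
theorem exists_ent {p : Ideal (MvPolynomial (Fin (N + 1)) ℂ)}
    {Q : MvPolynomial (Fin (N + 1)) ℂ} {r : ℕ} {w : Fin (N + 1) → MvPolynomial (Fin r) ℂ}
    (h1 : ∀ G ∈ p, aeval w G = 0)
    (h2 : ∀ G : MvPolynomial (Fin (N + 1)) ℂ, (∃ e, G.IsHomogeneous e) → aeval w G = 0 → G ∈ p)
    (h3 : ∀ t : Fin r → ℂ, (∀ k, t k ≠ 0) → eval t (aeval w Q) ≠ 0) :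
    ∃ f : ℂ → Fin (N + 1) → ℂ, (∀ j, Differentiable ℂ fun z => f z j) ∧
      (∀ G ∈ p, ∀ z, eval (f z) G = 0) ∧ (∀ z, eval (f z) Q ≠ 0) ∧
      (∀ j, ConstODE fun z => f z j) ∧ GraphDense p f := by
  let f : ℂ → Fin (N + 1) → ℂ := fun z j => eval (ec z) (w j)
  have hf : ∀ (G : MvPolynomial (Fin (N + 1)) ℂ) (z : ℂ),
      eval (f z) G = eval (ec z) (aeval w G) := by
    intro G z
    have e1 := MvPolynomial.comp_aeval_apply (f := w)
      (MvPolynomial.aeval (ec z) : MvPolynomial (Fin r) ℂ →ₐ[ℂ] ℂ) G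
    rw [MvPolynomial.aeval_eq_eval] at e1
    rw [e1, MvPolynomial.aeval_eq_eval]
  have hfe : ∀ j, (fun z => f z j) = fun z => ∑ v ∈ (w j).support, coeff v (w j) *
      Complex.exp ((∑ k, (v k : ℂ) * Complex.log ((Nat.nth Nat.Prime k : ℕ) : ℂ)) * z) := by
    intro j
    funext z
    exact eval_ec (w j) z
  refine ⟨f, fun j => ?_, fun G hG z => ?_, fun z => ?_, fun j => ?_, ?_⟩
  · rw [hfe]
    fun_prop
  · rw [hf, h1 G hG, map_zero]
  · rw [hf]
    exact h3 _ fun k => ec_ne z k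
  · rw [hfe]
    exact expsum_ode _ _ _
  · intro D n G hG hz k hk
    refine h2 _ ⟨D, hG k⟩ (ppt_dense 0 n (fun k => aeval w (G k)) (fun m => ?_) k hk)
    rw [← hz m]
    refine Finset.sum_congr rfl fun k _ => ?_
    rw [hf, ec_nat, add_zero]

end Pool.Agent.N626
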