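import Pool.Agent.N626.Kp

/-!
Specialisation of polynomial parametrisations to algebraic numbers.
-/

set_option autoImplicit false

namespace Pool.Agent.N626

open MvPolynomial

theorem exists_spec {K A : Type} [Field K] [IsAlgClosed K] [CommRing A] [IsDomain A] [Algebra K A]
    [Algebra.FiniteType K A] {a : A} (ha : a ≠ 0) : ∃ φ : A →ₐ[K] K, φ a ≠ 0 := by
  classical
  have hJ : IsJacobsonRing A := isJacobsonRing_of_finiteType (A := K)
  have h1 : (⊥ : Ideal A).jacobson = ⊥ := hJ.out Ideal.isPrime_bot.isRadical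
  have h2 : a ∉ (⊥ : Ideal A).jacobson := by
    rw [h1]
    exact ha
  obtain ⟨m, hm, ham⟩ : ∃ m : Ideal A, m.IsMaximal ∧ a ∉ m := by
    by_contra hcon
    push Not at hcon
    apply h2
    rw [Ideal.jacobson, Ideal.mem_sInf]
    rintro J ⟨-, hJ⟩
    exact hcon J hJ
  let _ : Field (A ⧸ m) := Ideal.Quotient.field m
  have hft : Algebra.FiniteType K (A ⧸ m) :=
    Algebra.FiniteType.of_surjective (Ideal.Quotient.mkₐ K m) (Ideal.Quotient.mkₐ_surjective K m)
  have hfin : Module.Finite K (A ⧸ m) := finite_of_finite_type_of_isJacobsonRing K (A ⧸ m)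
  have hbij : Function.Bijective (algebraMap K (A ⧸ m)) :=
    IsAlgClosed.algebraMap_bijective_of_isIntegral
  let e : K ≃ₐ[K] (A ⧸ m) := AlgEquiv.ofBijective (Algebra.ofId K (A ⧸ m)) hbij
  refine ⟨(e.symm : (A ⧸ m) →ₐ[K] K).comp (Ideal.Quotient.mkₐ K m), fun h0 => ham ?_⟩
  have h3 : e.symm (Ideal.Quotient.mk m a) = 0 := h0
  rw [map_eq_zero_iff _ e.symm.injective] at h3
  exact Ideal.Quotient.eq_zero_iff_mem.1 h3

theorem mkDer_expand {r : ℕ} {F : Type} [Field F] [Algebra (MvPolynomial (Fin r) ℂ) F]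
    [Algebra ℂ F] [IsScalarTower ℂ (MvPolynomial (Fin r) ℂ) F] (D : Derivation ℂ F F)
    (P : MvPolynomial (Fin r) ℂ) :
    D (algebraMap _ F P) = ∑ k, algebraMap _ F (pderiv k P) *
      D (algebraMap (MvPolynomial (Fin r) ℂ) F (X k)) := by
  classical
  induction P using MvPolynomial.induction_on with
  | C c =>
    have h1 : algebraMap (MvPolynomial (Fin r) ℂ) F (C c) = algebraMap ℂ F c := by
      rw [IsScalarTower.algebraMap_apply ℂ (MvPolynomial (Fin r) ℂ) F]
      rfl
    rw [h1, D.map_algebraMap]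
    simp
  | add p q hp hq =>
    simp only [map_add, hp, hq, add_mul, Finset.sum_add_distrib]
  | mul_X p j hp =>
    rw [map_mul, D.leibniz, hp]
    simp only [smul_eq_mul, Derivation.leibniz, pderiv_X, map_add, map_mul, add_mul,
      Finset.sum_add_distrib, Finset.mul_sum]
    congr 1
    · rw [Finset.sum_eq_single j]
      · simp
      · intro b _ hb
        rw [Pi.single_eq_of_ne' hb, map_zero, mul_zero, zero_mul]
      · intro h
        exact absurd (Finset.mem_univ j) h
    · exact Finset.sum_congr rfl fun x _ => by ring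

/-- **The Jacobian of a dominant map.** -/
theorem jac_conv {d r : ℕ} (u : Fin (d + 1) → MvPolynomial (Fin r) ℂ) (hu : u 0 ≠ 0)
    (hind : ∀ (D : ℕ) (G : MvPolynomial (Fin (d + 1)) ℂ), G.IsHomogeneous D → aeval u G = 0 →
      G = 0) :
    ∃ (s : MvPolynomial (Fin r) ℂ) (h : Fin d → Fin r → MvPolynomial (Fin r) ℂ), s ≠ 0 ∧
      ∀ i i', ∑ k, h i k * (pderiv k (u (Fin.succ i')) * u 0 -
        u (Fin.succ i') * pderiv k (u 0)) = if i = i' then s * u 0 ^ 2 else 0 := by
  classical
  let R := MvPolynomial (Fin r) ℂ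
  let F := FractionRing R
  have hinj : Function.Injective (algebraMap R F) := IsFractionRing.injective R F
  let z : Fin (d + 1) → F := fun j => algebraMap R F (u j)
  have hz0 : z 0 ≠ 0 := by
    intro h0
    exact hu (hinj (by rw [map_zero]; exact h0))
  have halg : AlgebraicIndependent ℂ fun i : Fin d => z i.succ / z 0 := by
    rw [algebraicIndependent_iff]
    intro P hP
    apply hgz_ne
    apply hind _ _ (hgz_hom P)
    apply hinj
    rw [map_zero]
    have h1 := aeval_hgz P hz0 (fun i => z i.succ)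
    rw [hP, mul_zero] at h1
    rw [← h1]
    have h2 := MvPolynomial.comp_aeval_apply (f := u) (IsScalarTower.toAlgHom ℂ R F) (hgz P)
    refine h2.trans ?_
    congr 2
    funext j
    refine Fin.cases ?_ (fun j => ?_) j
    · rfl
    · rfl
  choose D hD using fun i => dual_der halg i
  obtain ⟨s, hs⟩ := IsLocalization.exist_integer_multiples_of_finite
    (nonZeroDivisors R) (fun ik : Fin d × Fin r => D ik.1 (algebraMap R F (X ik.2)))
  have hs' : ∀ (i : Fin d) (k : Fin r), ∃ h : R, algebraMap R F h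
      = algebraMap R F s * D i (algebraMap R F (X k)) := by
    intro i k
    obtain ⟨h, hh⟩ := hs (i, k)
    refine ⟨h, ?_⟩
    rw [hh, Algebra.smul_def]
  choose h hh using hs'
  refine ⟨s, h, nonZeroDivisors.ne_zero s.2, fun i i' => ?_⟩
  apply hinj
  have hE : ∀ P : R, algebraMap R F s * D i (algebraMap R F P) =
      ∑ k, algebraMap R F (h i k) * algebraMap R F (pderiv k P) := by
    intro P
    rw [mkDer_expand, Finset.mul_sum]
    refine Finset.sum_congr rfl fun k _ => ?_
    rw [hh]
    ring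
  have h1 : algebraMap R F (∑ k, h i k * (pderiv k (u (Fin.succ i')) * u 0 -
      u (Fin.succ i') * pderiv k (u 0))) =
      (algebraMap R F s * D i (z i'.succ)) * z 0 - z i'.succ * (algebraMap R F s * D i (z 0)) := by
    rw [hE, hE, map_sum, Finset.sum_mul, Finset.mul_sum, ← Finset.sum_sub_distrib]
    refine Finset.sum_congr rfl fun k _ => ?_
    rw [map_mul, map_sub, map_mul, map_mul]
    ring
  rw [h1]
  have h2 : z i'.succ = (z i'.succ / z 0) * z 0 := (div_mul_cancel₀ _ hz0).symm
  have h3 : D i (z i'.succ) = (z i'.succ / z 0) * D i (z 0) + z 0 * (if i = i' then 1 else 0) := by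
    conv_lhs => rw [h2]
    rw [(D i).leibniz, hD]
    rfl
  rw [h3]
  have h5 : z i'.succ / z 0 * z 0 = z i'.succ := div_mul_cancel₀ _ hz0
  split_ifs with hii
  · rw [map_mul, map_pow]
    have h6 : algebraMap R F (u 0) = z 0 := rfl
    rw [h6]
    linear_combination (algebraMap R F s * D i (z 0)) * h5
  · rw [map_zero]
    linear_combination (algebraMap R F s * D i (z 0)) * h5

end Pool.Agent.N626
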