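import Pool.Agent.N626.La

/-!
Descent of dominant maps from tori to algebraically closed fields of definition.
-/

set_option autoImplicit false

namespace Pool.Agent.N626

open MvPolynomial

variable {N : ℕ}

theorem lift_poly {K : Type} [Field K] [Algebra K ℂ] (A : Subalgebra K ℂ) {r : ℕ}
    (P : MvPolynomial (Fin r) ℂ) (h : ∀ v, P.coeff v ∈ A) :
    ∃ P' : MvPolynomial (Fin r) A, mapAlgHom A.val P' = P := by
  refine ⟨∑ v ∈ P.support, monomial v ⟨P.coeff v, h v⟩, ?_⟩
  rw [map_sum]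
  conv_rhs => rw [P.as_sum]
  refine Finset.sum_congr rfl fun v _ => ?_
  rw [mapAlgHom_apply]
  exact map_monomial _ _ _

/-- **Descent.** -/
theorem descend {K : Type} [Field K] [IsAlgClosed K] [Algebra K ℂ]
    {p : Ideal (MvPolynomial (Fin (N + 1)) ℂ)} (hp : p.IsPrime) {l : Fin (N + 1)}
    (hl : (X l : MvPolynomial (Fin (N + 1)) ℂ) ∉ p)
    (hdef : ∀ G ∈ p, G ∈ Ideal.span {H | H ∈ p ∧
      ∃ H0 : MvPolynomial (Fin (N + 1)) K, map (algebraMap K ℂ) H0 = H})
    (Q0 : MvPolynomial (Fin (N + 1)) K) {r : ℕ} {w : Fin (N + 1) → MvPolynomial (Fin r) ℂ}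
    (h1 : ∀ G ∈ p, aeval w G = 0)
    (h2 : ∀ G : MvPolynomial (Fin (N + 1)) ℂ, (∃ e, G.IsHomogeneous e) → aeval w G = 0 → G ∈ p)
    (h3 : ∀ t : Fin r → ℂ, (∀ k, t k ≠ 0) →
      eval t (aeval w (map (algebraMap K ℂ) Q0)) ≠ 0) :
    ∃ w' : Fin (N + 1) → MvPolynomial (Fin r) K,
      (∀ G ∈ p, aeval (fun j => map (algebraMap K ℂ) (w' j)) G = 0) ∧
      (∀ G : MvPolynomial (Fin (N + 1)) ℂ, (∃ e, G.IsHomogeneous e) →
        aeval (fun j => map (algebraMap K ℂ) (w' j)) G = 0 → G ∈ p) ∧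
      ∃ (v : Fin r →₀ ℕ) (c : K), c ≠ 0 ∧ aeval w' Q0 = monomial v c := by
  classical
  obtain ⟨d, a, hind, hdom⟩ := exists_basis hp hl
  have hwl : w l ≠ 0 := fun h0 => hl (h2 (X l) ⟨1, isHomogeneous_X _ _⟩ (by rw [aeval_X, h0]))
  let κ : Fin (d + 1) → Fin (N + 1) := Fin.cons l a
  obtain ⟨s, h, hs, hE⟩ := jac_conv (fun j => w (κ j)) hwl (by
    intro D G hG h0
    apply hind D G hG
    apply h2 _ ⟨D, hG.rename_isHomogeneous⟩
    rw [aeval_rename]
    exact h0)
  obtain ⟨v, c, hc, hv⟩ := monomial_of_torus h3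
  -- the ring generated by the coefficients
  let S : Set ℂ := (⋃ j, ((w j).support.image fun v => (w j).coeff v : Set ℂ)) ∪
    (⋃ i, ⋃ k, ((h i k).support.image fun v => (h i k).coeff v : Set ℂ)) ∪
    (s.support.image fun v => s.coeff v : Set ℂ)
  have hSfin : S.Finite := by
    refine ((Set.finite_iUnion fun j => Finset.finite_toSet _).union
      (Set.finite_iUnion fun i => Set.finite_iUnion fun k => Finset.finite_toSet _)).union
      (Finset.finite_toSet _)
  let A : Subalgebra K ℂ := Algebra.adjoin K S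
  have hSA : S ⊆ A := Algebra.subset_adjoin
  have hmem : ∀ P : MvPolynomial (Fin r) ℂ,
      ((P.support.image fun v => P.coeff v : Finset ℂ) : Set ℂ) ⊆ S → ∀ v, P.coeff v ∈ A := by
    intro P hP v
    by_cases hv : v ∈ P.support
    · exact hSA (hP (Finset.mem_coe.2 (Finset.mem_image.2 ⟨v, hv, rfl⟩)))
    · rw [notMem_support_iff.1 hv]
      exact A.zero_mem
  choose wA hwA using fun j => lift_poly A (w j) (hmem _ fun x hx =>
    Or.inl (Or.inl (Set.mem_iUnion.2 ⟨j, hx⟩)))
  choose hA hhA using fun i k => lift_poly A (h i k) (hmem _ fun x hx =>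
    Or.inl (Or.inr (Set.mem_iUnion.2 ⟨i, Set.mem_iUnion.2 ⟨k, hx⟩⟩)))
  obtain ⟨sA, hsA⟩ := lift_poly A s (hmem _ fun x hx => Or.inr hx)
  let ι : MvPolynomial (Fin r) A →ₐ[K] MvPolynomial (Fin r) ℂ := mapAlgHom A.val
  have hιinj : Function.Injective ι := by
    intro x y hxy
    exact map_injective _ Subtype.val_injective (by
      have h0 : mapAlgHom A.val x = mapAlgHom A.val y := hxy
      rw [mapAlgHom_apply, mapAlgHom_apply] at h0
      exact h0)
  have hιw : ∀ G0 : MvPolynomial (Fin (N + 1)) K,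
      ι (aeval wA G0) = aeval w (map (algebraMap K ℂ) G0) := by
    intro G0
    have e1 := MvPolynomial.comp_aeval_apply (f := wA) ι G0
    rw [e1]
    have e2 : (fun j => ι (wA j)) = w := funext hwA
    rw [e2, aeval_map_algebraMap]
  have hιp : ∀ (k : Fin r) (P : MvPolynomial (Fin r) A), ι (pderiv k P) = pderiv k (ι P) := by
    intro k P
    change mapAlgHom A.val (pderiv k P) = pderiv k (mapAlgHom A.val P)
    rw [mapAlgHom_apply, mapAlgHom_apply]
    exact (pderiv_map).symm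
  have hdomA : IsDomain A := inferInstance
  have hQA : aeval wA Q0 ≠ 0 := by
    intro h0
    have e1 := hιw Q0
    rw [h0, map_zero, hv] at e1
    exact hc ((monomial_eq_zero).1 e1.symm)
  have hsA0 : sA ≠ 0 := by
    intro h0
    apply hs
    rw [← hsA, h0, map_zero]
  have hwA0 : wA l ≠ 0 := by
    intro h0
    apply hwl
    rw [← hwA, h0, map_zero]
  have hb : aeval wA Q0 * (sA * wA l ^ 2) ≠ 0 :=
    mul_ne_zero hQA (mul_ne_zero hsA0 (pow_ne_zero _ hwA0))
  obtain ⟨m, hm⟩ := ne_zero_iff.1 hb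
  have hAfg : Algebra.FiniteType K A :=
    (Subalgebra.fg_iff_finiteType A).1 ⟨hSfin.toFinset, by rw [hSfin.coe_toFinset]⟩
  obtain ⟨φ, hφ⟩ := exists_spec (K := K) (A := A) hm
  let Φ : MvPolynomial (Fin r) A →ₐ[K] MvPolynomial (Fin r) K := mapAlgHom φ
  have hΦw : ∀ G0 : MvPolynomial (Fin (N + 1)) K,
      Φ (aeval wA G0) = aeval (fun j => Φ (wA j)) G0 := by
    intro G0
    exact MvPolynomial.comp_aeval_apply (f := wA) Φ G0
  have hΦp : ∀ (k : Fin r) (P : MvPolynomial (Fin r) A), Φ (pderiv k P) = pderiv k (Φ P) := by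
    intro k P
    change mapAlgHom φ (pderiv k P) = pderiv k (mapAlgHom φ P)
    rw [mapAlgHom_apply, mapAlgHom_apply]
    exact (pderiv_map).symm
  have hΦb : Φ (aeval wA Q0 * (sA * wA l ^ 2)) ≠ 0 := by
    intro h0
    apply hφ
    have e1 := congrArg (fun P => coeff m P) h0
    change coeff m (mapAlgHom φ _) = coeff m 0 at e1
    rw [mapAlgHom_apply, coeff_zero] at e1
    rw [← e1]
    exact (coeff_map _ _ _).symm
  rw [map_mul] at hΦb
  have hΦQ := left_ne_zero_of_mul hΦb
  have hΦs := right_ne_zero_of_mul hΦb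
  rw [map_mul, map_pow] at hΦs
  have hΦs0 := left_ne_zero_of_mul hΦs
  have hΦw0 : Φ (wA l) ≠ 0 := fun h0 => right_ne_zero_of_mul hΦs (by rw [h0]; ring)
  let w' : Fin (N + 1) → MvPolynomial (Fin r) K := fun j => Φ (wA j)
  let C' : MvPolynomial (Fin r) K →+* MvPolynomial (Fin r) ℂ := map (algebraMap K ℂ)
  have hCinj : Function.Injective C' := map_injective _ (algebraMap K ℂ).injective
  have hCw : ∀ G0 : MvPolynomial (Fin (N + 1)) K,
      aeval (fun j => C' (w' j)) (map (algebraMap K ℂ) G0) = C' (aeval w' G0) := by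
    intro G0
    rw [aeval_map_algebraMap]
    have e1 := MvPolynomial.comp_aeval_apply (f := w')
      (mapAlgHom (Algebra.ofId K ℂ) : MvPolynomial (Fin r) K →ₐ[K] MvPolynomial (Fin r) ℂ) G0
    exact e1.symm
  -- the relations
  have hon : ∀ G ∈ p, aeval (fun j => C' (w' j)) G = 0 := by
    intro G hG
    have e1 : (Ideal.span {H | H ∈ p ∧
        ∃ H0 : MvPolynomial (Fin (N + 1)) K, map (algebraMap K ℂ) H0 = H}) ≤
        RingHom.ker (aeval (fun j => C' (w' j)) : MvPolynomial (Fin (N + 1)) ℂ →ₐ[ℂ]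
          MvPolynomial (Fin r) ℂ) := by
      rw [Ideal.span_le]
      rintro H ⟨hH, H0, rfl⟩
      change aeval (fun j => C' (w' j)) (map (algebraMap K ℂ) H0) = 0
      rw [hCw, ← hΦw]
      have e2 : aeval wA H0 = 0 := hιinj (by rw [hιw, map_zero]; exact h1 _ hH)
      rw [e2, map_zero, map_zero]
    exact e1 (hdef G hG)
  refine ⟨w', hon, ?_, ?_⟩
  · -- dominance
    refine hdom (MvPolynomial (Fin r) ℂ) (fun j => C' (w' j)) (fun G hG _ => hon G hG)
      (fun h0 => hΦw0 (hCinj (by rw [map_zero]; exact h0))) ?_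
    obtain ⟨t0, ht0⟩ : ∃ t0 : Fin r → ℂ, eval t0 (C' (Φ sA) * C' (w' l) ^ 2) ≠ 0 := by
      by_contra hcon
      push Not at hcon
      have e1 : C' (Φ sA) * C' (w' l) ^ 2 = 0 := MvPolynomial.funext fun t => by
        rw [hcon t, map_zero]
      rw [← map_pow, ← map_mul] at e1
      exact hΦs (hCinj (by rw [map_zero]; exact e1))
    refine jac (fun j => C' (w' (κ j))) t0 (fun h0 => hΦw0 (hCinj (by rw [map_zero]; exact h0)))
      (fun i k => eval t0 (C' (Φ (hA i k))) / eval t0 (C' (Φ sA) * C' (w' l) ^ 2)) ?_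
    intro i i'
    have e1 : ∑ k, hA i k * (pderiv k (wA (κ (Fin.succ i'))) * wA (κ 0) -
        wA (κ (Fin.succ i')) * pderiv k (wA (κ 0))) =
        if i = i' then sA * wA (κ 0) ^ 2 else 0 := by
      apply hιinj
      have e2 := hE i i'
      rw [map_sum]
      have e3 : ι (if i = i' then sA * wA (κ 0) ^ 2 else 0) =
          if i = i' then s * w (κ 0) ^ 2 else 0 := by
        split_ifs
        · rw [map_mul, map_pow]
          have e4 : ι sA = s := hsA
          have e5 : ι (wA (κ 0)) = w (κ 0) := hwA _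
          rw [e4, e5]
        · exact map_zero _
      rw [e3, ← e2]
      refine Finset.sum_congr rfl fun k _ => ?_
      rw [map_mul, map_sub, map_mul, map_mul, hιp, hιp]
      have e4 : ι (hA i k) = h i k := hhA _ _
      have e5 : ∀ j, ι (wA j) = w j := hwA
      rw [e4, e5, e5]
    have e2 : eval t0 (C' (Φ (∑ k, hA i k * (pderiv k (wA (κ (Fin.succ i'))) * wA (κ 0) -
        wA (κ (Fin.succ i')) * pderiv k (wA (κ 0)))))) =
        eval t0 (C' (Φ (if i = i' then sA * wA (κ 0) ^ 2 else 0))) := by rw [e1]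
    have e3 : eval t0 (C' (Φ (if i = i' then sA * wA (κ 0) ^ 2 else 0))) =
        if i = i' then eval t0 (C' (Φ sA) * C' (w' l) ^ 2) else 0 := by
      split_ifs
      · change eval t0 (C' (Φ (sA * wA l ^ 2))) = _
        rw [map_mul, map_mul, map_pow, map_pow]
      · simp
    rw [e3, map_sum, map_sum, map_sum] at e2
    have e4 : ∀ k, eval t0 (C' (Φ (hA i k * (pderiv k (wA (κ (Fin.succ i'))) * wA (κ 0) -
        wA (κ (Fin.succ i')) * pderiv k (wA (κ 0)))))) =
        eval t0 (C' (Φ (hA i k))) * eval t0 (pderiv k (C' (w' (κ (Fin.succ i')))) *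
          C' (w' (κ 0)) - C' (w' (κ (Fin.succ i'))) * pderiv k (C' (w' (κ 0)))) := by
      intro k
      have e5 : ∀ P : MvPolynomial (Fin r) K, C' (pderiv k P) = pderiv k (C' P) := fun P =>
        (pderiv_map).symm
      rw [map_mul, map_mul, map_mul, map_sub, map_mul, map_mul, hΦp, hΦp, map_sub, map_mul,
        map_mul, e5, e5]
    rw [Finset.sum_congr rfl fun k _ => e4 k] at e2
    have e6 : ∀ k, eval t0 (C' (Φ (hA i k))) / eval t0 (C' (Φ sA) * C' (w' l) ^ 2) *
        eval t0 (pderiv k (C' (w' (κ (Fin.succ i')))) *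
          C' (w' (κ 0)) - C' (w' (κ (Fin.succ i'))) * pderiv k (C' (w' (κ 0)))) =
        (eval t0 (C' (Φ sA) * C' (w' l) ^ 2))⁻¹ * (eval t0 (C' (Φ (hA i k))) *
        eval t0 (pderiv k (C' (w' (κ (Fin.succ i')))) *
          C' (w' (κ 0)) - C' (w' (κ (Fin.succ i'))) * pderiv k (C' (w' (κ 0))))) := by
      intro k
      rw [div_eq_mul_inv]
      ring
    rw [Finset.sum_congr rfl fun k _ => e6 k, ← Finset.mul_sum, e2]
    split_ifs
    · exact inv_mul_cancel₀ ht0
    · rw [mul_zero]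
  · -- the boundary
    have e1 : ∀ u, u ≠ v → coeff u (aeval wA Q0) = 0 := by
      intro u hu
      have e2 := congrArg (coeff u) (hιw Q0)
      rw [hv, coeff_monomial, if_neg (Ne.symm hu)] at e2
      have e5 : coeff u (ι (aeval wA Q0)) = ((coeff u (aeval wA Q0) : A) : ℂ) := by
        change coeff u (mapAlgHom A.val (aeval wA Q0)) = _
        rw [mapAlgHom_apply]
        exact coeff_map _ _ _
      apply Subtype.ext
      rw [← e5, e2]
      rfl
    have e2 : aeval wA Q0 = monomial v (coeff v (aeval wA Q0)) := by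
      ext u
      rw [coeff_monomial]
      split_ifs with huv
      · rw [huv]
      · rw [e1 u (Ne.symm huv)]
    have e3 : aeval w' Q0 = monomial v (φ (coeff v (aeval wA Q0))) := by
      have e4 : aeval w' Q0 = Φ (aeval wA Q0) := (hΦw Q0).symm
      rw [e4]
      conv_lhs => rw [e2]
      change mapAlgHom φ _ = _
      rw [mapAlgHom_apply]
      exact map_monomial _ _ _
    refine ⟨v, _, fun h0 => ?_, e3⟩
    apply hΦQ
    rw [hΦw]
    change aeval w' Q0 = 0
    rw [e3, h0, monomial_zero]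

end Pool.Agent.N626
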