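import Pool.Agent.N626.Lb

/-!
Potential density of integral points of varieties dominated by tori.
-/

set_option autoImplicit false

namespace Pool.Agent.N626

open MvPolynomial

variable {N : ℕ}

/-- `z` belongs to the ring `Z̄[1/d]`: `d ^ n * z` is an algebraic integer for some `n`. -/
def SInt (d : ℕ) (z : ℂ) : Prop := ∃ n : ℕ, IsIntegral ℤ ((d : ℂ) ^ n * z)

theorem isIntegral_nat (n : ℕ) : IsIntegral ℤ (n : ℂ) := by
  have h1 : IsIntegral ℤ (algebraMap ℤ ℂ (n : ℤ)) := isIntegral_algebraMap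
  simpa using h1

theorem SInt.of_int {d : ℕ} {z : ℂ} (h : IsIntegral ℤ z) : SInt d z :=
  ⟨0, by rw [pow_zero, one_mul]; exact h⟩

theorem SInt.mul {d : ℕ} {a b : ℂ} (ha : SInt d a) (hb : SInt d b) : SInt d (a * b) := by
  obtain ⟨n, ha⟩ := ha
  obtain ⟨m, hb⟩ := hb
  refine ⟨n + m, ?_⟩
  have h1 : (d : ℂ) ^ (n + m) * (a * b) = ((d : ℂ) ^ n * a) * ((d : ℂ) ^ m * b) := by
    rw [pow_add]; ring
  rw [h1]
  exact ha.mul hb

theorem SInt.add {d : ℕ} {a b : ℂ} (ha : SInt d a) (hb : SInt d b) : SInt d (a + b) := by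
  obtain ⟨n, ha⟩ := ha
  obtain ⟨m, hb⟩ := hb
  refine ⟨n + m, ?_⟩
  have h1 : (d : ℂ) ^ (n + m) * (a + b) =
      (d : ℂ) ^ m * ((d : ℂ) ^ n * a) + (d : ℂ) ^ n * ((d : ℂ) ^ m * b) := by
    rw [pow_add]; ring
  rw [h1]
  exact (((isIntegral_nat d).pow m).mul ha).add (((isIntegral_nat d).pow n).mul hb)

theorem SInt.pow {d : ℕ} {a : ℂ} (ha : SInt d a) (n : ℕ) : SInt d (a ^ n) := by
  induction n with
  | zero =>
    rw [pow_zero]
    exact SInt.of_int isIntegral_one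
  | succ n ih =>
    rw [pow_succ]
    exact ih.mul ha

theorem SInt.prod {ι : Type} {d : ℕ} (s : Finset ι) {f : ι → ℂ} (h : ∀ i ∈ s, SInt d (f i)) :
    SInt d (∏ i ∈ s, f i) := by
  classical
  induction s using Finset.induction_on with
  | empty =>
    rw [Finset.prod_empty]
    exact SInt.of_int isIntegral_one
  | insert i s hi ih =>
    rw [Finset.prod_insert hi]
    exact (h i (Finset.mem_insert_self i s)).mul (ih fun j hj => h j (Finset.mem_insert_of_mem hj))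

theorem SInt.sum {ι : Type} {d : ℕ} (s : Finset ι) {f : ι → ℂ} (h : ∀ i ∈ s, SInt d (f i)) :
    SInt d (∑ i ∈ s, f i) := by
  classical
  induction s using Finset.induction_on with
  | empty =>
    rw [Finset.sum_empty]
    exact SInt.of_int isIntegral_zero
  | insert i s hi ih =>
    rw [Finset.sum_insert hi]
    exact (h i (Finset.mem_insert_self i s)).add (ih fun j hj => h j (Finset.mem_insert_of_mem hj))

theorem SInt.eval {r d : ℕ} {x : Fin r → ℂ} (hx : ∀ k, SInt d (x k)) {P : MvPolynomial (Fin r) ℂ}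
    (hP : ∀ v, SInt d (P.coeff v)) : SInt d (MvPolynomial.eval x P) := by
  rw [eval_eq']
  exact SInt.sum _ fun v _ => (hP v).mul (SInt.prod _ fun k _ => (hx k).pow _)

theorem mem_eval {r : ℕ} {L : IntermediateField ℚ ℂ} {x : Fin r → ℂ} (hx : ∀ k, x k ∈ L)
    {P : MvPolynomial (Fin r) ℂ} (hP : ∀ v, P.coeff v ∈ L) : MvPolynomial.eval x P ∈ L := by
  rw [eval_eq']
  exact sum_mem fun v _ => mul_mem (hP v) (prod_mem fun k _ => pow_mem (hx k) _)

/-- a common denominator -/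
theorem exists_den (s : Finset ℂ) (hs : ∀ z ∈ s, IsAlgebraic ℚ z) (e : ℕ) (he : e ≠ 0) :
    ∃ d : ℕ, d ≠ 0 ∧ e ∣ d ∧ ∀ z ∈ s, SInt d z := by
  classical
  have h1 : ∀ z : ℂ, ∃ y : ℤ, y ≠ 0 ∧ (z ∈ s → IsIntegral ℤ ((y : ℂ) * z)) := by
    intro z
    by_cases hz : z ∈ s
    · have h2 : IsAlgebraic ℤ z := (IsFractionRing.isAlgebraic_iff ℤ ℚ ℂ).2 (hs z hz)
      obtain ⟨y, hy, hy'⟩ := h2.exists_integral_multiple
      refine ⟨y, hy, fun _ => ?_⟩
      rwa [zsmul_eq_mul] at hy'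
    · exact ⟨1, one_ne_zero, fun h => absurd h hz⟩
  choose y hy0 hy using h1
  refine ⟨e * ∏ z ∈ s, (y z).natAbs, mul_ne_zero he (Finset.prod_ne_zero_iff.2 fun z _ =>
    Int.natAbs_ne_zero.2 (hy0 z)), dvd_mul_right _ _, fun z hz => ⟨1, ?_⟩⟩
  have h2 : y z ∣ ((e * ∏ z ∈ s, (y z).natAbs : ℕ) : ℤ) := by
    rw [← Int.natAbs_dvd, Int.natCast_dvd_natCast]
    exact (Finset.dvd_prod_of_mem (fun z => (y z).natAbs) hz).mul_left _
  obtain ⟨q, hq⟩ := h2
  have h3 : ((e * ∏ z ∈ s, (y z).natAbs : ℕ) : ℂ) = (q : ℂ) * (y z : ℂ) := by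
    have h4 : (((e * ∏ z ∈ s, (y z).natAbs : ℕ) : ℤ) : ℂ) = ((y z * q : ℤ) : ℂ) := by rw [hq]
    rw [Int.cast_natCast, Int.cast_mul] at h4
    rw [h4, mul_comm]
  rw [pow_one, h3, mul_assoc]
  have h5 : IsIntegral ℤ (q : ℂ) := by
    have h6 : IsIntegral ℤ (algebraMap ℤ ℂ q) := isIntegral_algebraMap
    simpa using h6
  exact h5.mul (hy z hz)

/-- The points of the complement of `Q = 0` in the variety with the ideal `p` which are integral over
`Z[1/d]` and have coordinates in the number field `L` are Zariski-dense, for some `L` and `d`. -/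
def PotDense (p : Ideal (MvPolynomial (Fin (N + 1)) ℂ)) (Q : MvPolynomial (Fin (N + 1)) ℂ) : Prop :=
  ∃ (L : IntermediateField ℚ ℂ) (d : ℕ), FiniteDimensional ℚ L ∧ d ≠ 0 ∧
    ∀ G : MvPolynomial (Fin (N + 1)) ℂ, (∃ e, G.IsHomogeneous e) →
      (∀ x : Fin (N + 1) → ℂ, x ≠ 0 → (∀ j, x j ∈ L ∧ SInt d (x j)) → (∀ H ∈ p, eval x H = 0) →
        eval x Q ≠ 0 → SInt d (eval x Q)⁻¹ → eval x G = 0) → G ∈ p

theorem pot_dense {p : Ideal (MvPolynomial (Fin (N + 1)) ℂ)} {l : Fin (N + 1)}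
    (hl : (X l : MvPolynomial (Fin (N + 1)) ℂ) ∉ p) {Q : MvPolynomial (Fin (N + 1)) ℂ} {r : ℕ}
    {w : Fin (N + 1) → MvPolynomial (Fin r) ℂ} (halg : ∀ j v, IsAlgebraic ℚ ((w j).coeff v))
    (h1 : ∀ G ∈ p, aeval w G = 0)
    (h2 : ∀ G : MvPolynomial (Fin (N + 1)) ℂ, (∃ e, G.IsHomogeneous e) → aeval w G = 0 → G ∈ p)
    {v : Fin r →₀ ℕ} {c : ℂ} (hc : c ≠ 0) (hca : IsAlgebraic ℚ c)
    (hQ : aeval w Q = monomial v c) : PotDense p Q := by
  classical
  have hwl : w l ≠ 0 := fun h0 => hl (h2 (X l) ⟨1, isHomogeneous_X _ _⟩ (by rw [aeval_X, h0]))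
  obtain ⟨m0, hm0⟩ := Filter.eventually_atTop.1 (ppt_ev hwl)
  let s : Finset ℂ := insert c⁻¹ (insert 0
    (Finset.univ.biUnion fun j => (w j).support.image fun v => (w j).coeff v))
  have hs : ∀ z ∈ s, IsAlgebraic ℚ z := by
    intro z hz
    rcases Finset.mem_insert.1 hz with rfl | hz
    · exact hca.inv
    rcases Finset.mem_insert.1 hz with rfl | hz
    · exact isAlgebraic_zero
    obtain ⟨j, -, hj⟩ := Finset.mem_biUnion.1 hz
    obtain ⟨v, -, rfl⟩ := Finset.mem_image.1 hj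
    exact halg j v
  have hcs : ∀ j v, (w j).coeff v ∈ s := by
    intro j v
    by_cases hv : v ∈ (w j).support
    · exact Finset.mem_insert_of_mem (Finset.mem_insert_of_mem (Finset.mem_biUnion.2
        ⟨j, Finset.mem_univ j, Finset.mem_image.2 ⟨v, hv, rfl⟩⟩))
    · rw [notMem_support_iff.1 hv]
      exact Finset.mem_insert_of_mem (Finset.mem_insert_self _ _)
  obtain ⟨d, hd0, hed, hd⟩ := exists_den s hs (∏ k : Fin r, Nat.nth Nat.Prime k)
    (Finset.prod_ne_zero_iff.2 fun k _ => (Nat.prime_nth_prime k).ne_zero)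
  have hfs : Finite (s : Set ℂ) := Finset.finite_toSet s
  refine ⟨IntermediateField.adjoin ℚ (s : Set ℂ), d, IntermediateField.finiteDimensional_adjoin
    fun x hx => (hs x hx).isIntegral, hd0, fun G hG hz => ?_⟩
  have hLs : ∀ j v, (w j).coeff v ∈ IntermediateField.adjoin ℚ (s : Set ℂ) := fun j v =>
    IntermediateField.subset_adjoin ℚ _ (hcs j v)
  refine h2 G hG ?_
  let x : ℕ → Fin (N + 1) → ℂ := fun m j => eval (ppt (m + m0)) (w j)
  have hx : ∀ (H : MvPolynomial (Fin (N + 1)) ℂ) (m : ℕ),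
      eval (x m) H = eval (ppt (m + m0)) (aeval w H) := by
    intro H m
    have e1 := MvPolynomial.comp_aeval_apply (f := w)
      (MvPolynomial.aeval (ppt (m + m0)) : MvPolynomial (Fin r) ℂ →ₐ[ℂ] ℂ) H
    rw [MvPolynomial.aeval_eq_eval] at e1
    rw [e1, MvPolynomial.aeval_eq_eval]
  have hpn : ∀ (m : ℕ) (k : Fin r), (ppt m k : ℂ) = (((Nat.nth Nat.Prime k) ^ m : ℕ) : ℂ) := by
    intro m k
    unfold ppt
    push_cast
    rfl
  have hp1 : ∀ (m : ℕ) (k : Fin r), SInt d (ppt m k) := fun m k => by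
    rw [hpn]
    exact SInt.of_int (isIntegral_nat _)
  have hp2 : ∀ (m : ℕ) (k : Fin r), SInt d (ppt m k)⁻¹ := by
    intro m k
    unfold ppt
    rw [← inv_pow]
    refine SInt.pow ⟨1, ?_⟩ m
    have h3 : Nat.nth Nat.Prime k ∣ d :=
      (Finset.dvd_prod_of_mem (fun k : Fin r => Nat.nth Nat.Prime k) (Finset.mem_univ k)).trans hed
    obtain ⟨q, hq⟩ := h3
    have h4 : ((Nat.nth Nat.Prime k : ℕ) : ℂ) ≠ 0 := by
      exact_mod_cast (Nat.prime_nth_prime k).ne_zero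
    have h5 : (d : ℂ) ^ 1 * ((Nat.nth Nat.Prime k : ℕ) : ℂ)⁻¹ = (q : ℂ) := by
      rw [pow_one, hq]
      push_cast
      field_simp
    rw [h5]
    exact isIntegral_nat q
  have h0 := ppt_dense m0 1 (fun _ => aeval w G) (fun m => by
    rw [Finset.sum_range_one, pow_zero, one_mul, ← hx]
    apply hz (x m)
    · intro h0
      exact hm0 (m + m0) (by omega) (congrFun h0 l)
    · intro j
      refine ⟨mem_eval (fun k => ?_) fun v => hLs j v, SInt.eval (fun k => hp1 _ k) fun v =>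
        hd _ (hcs j v)⟩
      rw [hpn]
      exact natCast_mem _ _
    · intro H hH
      rw [hx, h1 H hH, map_zero]
    · rw [hx, hQ, eval_monomial]
      exact mul_ne_zero hc (Finset.prod_ne_zero_iff.2 fun k _ => pow_ne_zero _ (ppt_ne _ k))
    · rw [hx, hQ, eval_monomial, mul_inv, Finsupp.prod, ← Finset.prod_inv_distrib]
      refine (hd _ (Finset.mem_insert_self _ _)).mul (SInt.prod _ fun k _ => ?_)
      rw [← inv_pow]
      exact (hp2 _ k).pow _) 0 one_pos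
  exact h0

end Pool.Agent.N626
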