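import Pool.Agent.N626.Lc

/-!
Descent of torus domination to the algebraic numbers.
-/

set_option autoImplicit false

namespace Pool.Agent.N626

open MvPolynomial

variable {N : ℕ}

theorem lift_alg {σ : Type} {P : MvPolynomial σ ℂ} (h : ∀ v, IsAlgebraic ℚ (P.coeff v)) :
    ∃ P' : MvPolynomial σ (algebraicClosure ℚ ℂ),
      map (algebraMap (algebraicClosure ℚ ℂ) ℂ) P' = P := by
  refine ⟨∑ v ∈ P.support, monomial v ⟨P.coeff v, mem_algebraicClosure_iff.2 (h v)⟩, ?_⟩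
  rw [map_sum]
  conv_rhs => rw [P.as_sum]
  refine Finset.sum_congr rfl fun v _ => ?_
  exact map_monomial _ _ _

theorem qbar_torus {p : Ideal (MvPolynomial (Fin (N + 1)) ℂ)} (hp : p.IsPrime)
    {l : Fin (N + 1)} (hl : (X l : MvPolynomial (Fin (N + 1)) ℂ) ∉ p)
    (hdef : ∀ G ∈ p, G ∈ Ideal.span {H | H ∈ p ∧ ∀ v, IsAlgebraic ℚ (H.coeff v)})
    {Q : MvPolynomial (Fin (N + 1)) ℂ} (hQ : ∀ v, IsAlgebraic ℚ (Q.coeff v)) {r : ℕ}
    {w : Fin (N + 1) → MvPolynomial (Fin r) ℂ}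
    (h1 : ∀ G ∈ p, aeval w G = 0)
    (h2 : ∀ G : MvPolynomial (Fin (N + 1)) ℂ, (∃ e, G.IsHomogeneous e) → aeval w G = 0 → G ∈ p)
    (h3 : ∀ t : Fin r → ℂ, (∀ k, t k ≠ 0) → eval t (aeval w Q) ≠ 0) :
    ∃ w : Fin (N + 1) → MvPolynomial (Fin r) ℂ, (∀ j v, IsAlgebraic ℚ ((w j).coeff v)) ∧
      (∀ G ∈ p, aeval w G = 0) ∧
      (∀ G : MvPolynomial (Fin (N + 1)) ℂ, (∃ e, G.IsHomogeneous e) → aeval w G = 0 → G ∈ p) ∧
      ∃ (v : Fin r →₀ ℕ) (c : ℂ), c ≠ 0 ∧ IsAlgebraic ℚ c ∧ aeval w Q = monomial v c := by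
  have hK : IsAlgClosed (algebraicClosure ℚ ℂ) :=
    (algebraicClosure.isAlgClosure ℚ ℂ).isAlgClosed
  have hKa : ∀ x : algebraicClosure ℚ ℂ, IsAlgebraic ℚ (x : ℂ) := fun x =>
    mem_algebraicClosure_iff.1 x.2
  obtain ⟨Q0, rfl⟩ := lift_alg hQ
  obtain ⟨w', e1, e2, v, c, hc, e3⟩ := descend (K := algebraicClosure ℚ ℂ) hp hl (fun G hG => by
    refine Ideal.span_mono ?_ (hdef G hG)
    rintro H ⟨hH, hH'⟩
    exact ⟨hH, lift_alg hH'⟩) Q0 h1 h2 h3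
  refine ⟨fun j => map (algebraMap (algebraicClosure ℚ ℂ) ℂ) (w' j), fun j v => ?_, e1, e2, v, c,
    fun h0 => hc (Subtype.ext h0), hKa c, ?_⟩
  · rw [coeff_map]
    exact hKa _
  · rw [aeval_map_algebraMap]
    have e4 := MvPolynomial.comp_aeval_apply (f := w')
      (mapAlgHom (Algebra.ofId (algebraicClosure ℚ ℂ) ℂ) :
        MvPolynomial (Fin r) (algebraicClosure ℚ ℂ) →ₐ[algebraicClosure ℚ ℂ]
          MvPolynomial (Fin r) ℂ) Q0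
    refine e4.symm.trans ?_
    rw [e3, mapAlgHom_apply]
    exact map_monomial _ _ _

end Pool.Agent.N626
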