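import Pool.Agent.N626.Fun

/-!
Curves given by linear difference equations: families of rational curves.
-/

set_option autoImplicit false

namespace Pool.Agent.N626

open MvPolynomial Filter Cardinal Pool.Agent.W602.GT

variable {A : Subalgebra ℂ (ℂ → ℂ)} {N : ℕ}

theorem val_aeval {f : ℂ → Fin (N + 1) → ℂ} (hf : ∀ j, (fun z => f z j) ∈ A)
    (G : MvPolynomial (Fin (N + 1)) ℂ) (z : ℂ) :
    ((aeval (fun j => (⟨fun z => f z j, hf j⟩ : A)) G : A) : ℂ → ℂ) z = eval (f z) G := by
  have h1 := MvPolynomial.comp_aeval_apply (f := fun j => (⟨fun z => f z j, hf j⟩ : A))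
    ((Pi.evalAlgHom ℂ (fun _ : ℂ => ℂ) z).comp A.val) G
  have h2 : aeval (fun j => ((Pi.evalAlgHom ℂ (fun _ : ℂ => ℂ) z).comp A.val)
      (⟨fun z => f z j, hf j⟩ : A)) G = eval (f z) G := by
    rw [← MvPolynomial.aeval_eq_eval]
    rfl
  rw [← h2, ← h1]
  rfl

theorem form_mem {f : ℂ → Fin (N + 1) → ℂ} (hf : ∀ j, (fun z => f z j) ∈ A)
    (G : MvPolynomial (Fin (N + 1)) ℂ) : (fun z => eval (f z) G) ∈ A := by
  have h1 : (fun z => eval (f z) G) =
      ((aeval (fun j => (⟨fun z => f z j, hf j⟩ : A)) G : A) : ℂ → ℂ) := by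
    funext z
    rw [val_aeval]
  rw [h1]
  exact Subtype.prop _

/-- **Families of rational curves for curves given by linear difference equations.** -/
theorem curve_main (h : ShiftAlg A) {f : ℂ → Fin (N + 1) → ℂ} (hf : ∀ j, (fun z => f z j) ∈ A)
    {Q : MvPolynomial (Fin (N + 1)) ℂ} {q : ℕ} (hQ : Q.IsHomogeneous q)
    (heq : ∀ j, DiffEq A fun z => f z j) (hQ0 : ∃ z, eval (f z) Q ≠ 0)
    (hQ1 : DiffOne A fun z => eval (f z) Q) {i l : Fin (N + 1)} (hl : ∃ z, f z l ≠ 0)
    (hna : ¬ AlgPer A (fun z => f z i) fun z => f z l) :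
    ∃ (M : Type) (_ : Field M) (_ : Algebra ℂ M) (W : Fin (N + 1) → Polynomial M),
      (∀ G : MvPolynomial (Fin (N + 1)) ℂ, IsForm G →
        (aeval W G = 0 ↔ ∀ z, eval (f z) G = 0)) ∧
      (∃ (c : M) (k : ℕ), c ≠ 0 ∧ aeval W Q = Polynomial.C c * Polynomial.X ^ k) ∧
      ∃ j k, Polynomial.derivative (W j) * W k ≠ W j * Polynomial.derivative (W k) := by
  have hdom := h.isDomain
  let F := FractionRing A
  have hinj : Function.Injective (algebraMap A F) := IsFractionRing.injective A F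
  obtain ⟨θ⟩ := exists_embed F (by
    rw [Cardinal.mk_fractionRing]
    exact h.card)
  have hσ : ∀ c : ℂ, sh h F (algebraMap ℂ F c) = algebraMap ℂ F c := by
    intro c
    rw [IsScalarTower.algebraMap_apply ℂ A F, sh_map]
    rfl
  let x : Fin (N + 1) → F := fun j => algebraMap A F ⟨fun z => f z j, hf j⟩
  have hx : ∀ G : MvPolynomial (Fin (N + 1)) ℂ, aeval x G = algebraMap A F
      (aeval (fun j => (⟨fun z => f z j, hf j⟩ : A)) G) := by
    intro G
    have h1 := MvPolynomial.comp_aeval_apply (f := fun j => (⟨fun z => f z j, hf j⟩ : A))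
      (IsScalarTower.toAlgHom ℂ A F) G
    exact h1.symm
  have hx0 : ∀ G : MvPolynomial (Fin (N + 1)) ℂ, aeval x G = 0 ↔ ∀ z, eval (f z) G = 0 := by
    intro G
    rw [hx, map_eq_zero_iff _ hinj]
    constructor
    · intro h0 z
      rw [← val_aeval hf G z, h0]
      rfl
    · intro h0
      apply Subtype.ext
      funext z
      rw [val_aeval, h0]
      rfl
  have hxQ : aeval x Q = algebraMap A F ⟨fun z => eval (f z) Q, form_mem hf Q⟩ := by
    rw [hx]
    congr 1
    apply Subtype.ext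
    funext z
    rw [val_aeval]
  obtain ⟨M, i1, i2, W, h1, h2, h3⟩ := dif_main θ hσ (sh_zz h F) hQ (x := x)
    (fun j => lin_of_diffEq h F (hf j) (heq j)) (by
      rw [Ne, hx0]
      push Not
      exact hQ0) (by
      rw [hxQ]
      exact hyp_of_diffOne h F (form_mem hf Q) hQ1) (i := i) (l := l) (by
      intro h0
      obtain ⟨z, hz⟩ := hl
      have h4 := (hx0 (X l)).1 (by rw [aeval_X]; exact h0) z
      rw [eval_X] at h4
      exact hz h4) (by
      intro h0
      refine hna (algPer_of_algC h F (hf i) (hf l) ?_ h0)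
      obtain ⟨z, hz⟩ := hl
      exact fun h4 => hz (congrFun h4 z))
  exact ⟨M, i1, i2, W, fun G hG => (h1 G hG).trans (hx0 G), h2, h3⟩

/-- zero denominators -/
theorem algPer_zero {f g : ℂ → ℂ} (hg : g = 0) : AlgPer A f g := by
  refine ⟨1, 1, fun a b => if a = 0 ∧ b = 0 then 1 else 0, A.one_mem, one_ne_zero, fun a b => ?_,
    ⟨0, by omega, 0, by omega, ?_⟩, fun z => ?_⟩
  · by_cases hab : a = 0 ∧ b = 0
    · simp only [if_pos hab]
      exact ⟨A.one_mem, fun _ => rfl⟩
    · simp only [if_neg hab]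
      exact ⟨A.zero_mem, fun _ => rfl⟩
  · simp only [and_self, if_true]
    exact one_ne_zero
  · subst hg
    refine Finset.sum_eq_zero fun a _ => Finset.sum_eq_zero fun b hb => ?_
    by_cases hab : a = 0 ∧ b = 0
    · rw [hab.1, hab.2]
      simp
    · simp only [if_neg hab]
      simp

end Pool.Agent.N626
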