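import Pool.Agent.N626.Kk

/-!
Maps from tori with images of large dimension: the static part.
-/

set_option autoImplicit false

namespace Pool.Agent.N626

open MvPolynomial Filter Pool.Agent.TH143 Pool.Agent.TH143.DE

variable {n N : ℕ}

/-- **Maps from tori, the static part.** -/
theorem static_sweep {d : ℕ} {I : Ideal (MvPolynomial (Fin n × Fin n) ℂ)}
    {V0 : Matrix (Fin n) (Fin n) ℂ} (hV0 : ZI I V0)
    (Φ : Fin (N + 1) → MvPolynomial (Fin n × Fin n) ℂ)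
    (κ : Fin (d + 1) → Fin (N + 1))
    {Q : MvPolynomial (Fin (N + 1)) ℂ} {q : ℕ} (hQe : Q.IsHomogeneous q)
    (hQ0 : eval (mv V0) (bind₁ Φ Q) ≠ 0) (β : Fin d → Matrix (Fin n) (Fin n) ℂ)
    (hβ : ∀ i, ∀ P ∈ I, Dc (β i) P ∈ I)
    (hγ : ∀ i, ∃ γ : ℂ, Dc (β i) (bind₁ Φ Q) - C γ * bind₁ Φ Q ∈ I)
    (hl0 : eval (mv V0) (Φ (κ 0)) ≠ 0) (c : Fin d → ℂ) (hc : ∀ i, c i ≠ 0)
    (hmat : ∀ i i', eval (mv V0) (Dc (β i) (Φ (κ (Fin.succ i')))) * eval (mv V0) (Φ (κ 0)) -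
      eval (mv V0) (Φ (κ (Fin.succ i'))) * eval (mv V0) (Dc (β i) (Φ (κ 0))) =
        if i = i' then c i else 0) :
    ∃ (r : ℕ) (w : Fin (N + 1) → MvPolynomial (Fin r) ℂ),
      (∀ j, eval (fun _ => 1) (w j) = eval (mv V0) (Φ j)) ∧
      (∀ G : MvPolynomial (Fin (N + 1)) ℂ, (∃ e, G.IsHomogeneous e) → bind₁ Φ G ∈ I →
        aeval w G = 0) ∧
      (∀ (D : ℕ) (G : MvPolynomial (Fin (d + 1)) ℂ), G.IsHomogeneous D →
        aeval (fun j => w (κ j)) G = 0 → G = 0) ∧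
      ∀ t : Fin r → ℂ, (∀ k, t k ≠ 0) → eval t (aeval w Q) ≠ 0 := by
  classical
  let S : Set (Matrix (Fin n) (Fin n) ℂ) := {δ | ∃ lam h, OPS I (bind₁ Φ Q) lam h δ}
  have hLS : ∀ i, β i ∈ Submodule.span ℂ S := by
    intro i
    by_contra hcon
    obtain ⟨φ, hφ, hφS⟩ := Submodule.exists_dual_map_eq_bot_of_notMem hcon inferInstance
    obtain ⟨lam, h, δ, h1, h2⟩ := exists_ops (hβ i) (hγ i) φ hφ
    apply h2
    have h3 : φ δ ∈ (Submodule.span ℂ S).map φ :=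
      Submodule.mem_map_of_mem (Submodule.subset_span ⟨lam, h, h1⟩)
    rw [hφS] at h3
    exact (Submodule.mem_bot ℂ).1 h3
  obtain ⟨s, hsS, hspan⟩ := Submodule.fg_span_iff_fg_span_finset_subset S |>.1
    (IsNoetherian.noetherian (Submodule.span ℂ S))
  obtain ⟨r, lam, h, δ, hOP, hrange⟩ : ∃ (r : ℕ) (lam : Fin r → ℂ → Matrix (Fin n) (Fin n) ℂ)
      (h : Fin r → ℂ → ℂ) (δ : Fin r → Matrix (Fin n) (Fin n) ℂ),
      (∀ k, OPS I (bind₁ Φ Q) (lam k) (h k) (δ k)) ∧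
      (s : Set (Matrix (Fin n) (Fin n) ℂ)) = Set.range δ := by
    choose lam h hOP using fun i : Fin s.card => hsS (s.equivFin.symm i).2
    refine ⟨s.card, lam, h, fun i => (s.equivFin.symm i : Matrix (Fin n) (Fin n) ℂ), hOP, ?_⟩
    ext y
    constructor
    · intro hy
      exact ⟨s.equivFin ⟨y, hy⟩, by simp⟩
    · rintro ⟨k, rfl⟩
      exact (s.equivFin.symm k).2
  have hβδ : ∀ i, ∃ e : Fin r → ℂ, ∑ k, e k • δ k = β i := by
    intro i
    have h1 := hLS i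
    rw [hspan, hrange] at h1
    exact (Submodule.mem_span_range_iff_exists_fun ℂ).1 h1
  choose e he using hβδ
  obtain ⟨M, w, hw1, hw2, hw3⟩ := exists_w (fun k' i j => (hOP k').laur i j)
    (fun k' => (hOP k').one) (fun k' i j => (hOP k').der i j) V0 Φ
  have hwl : w (κ 0) ≠ 0 := by
    intro h0
    apply hl0
    have h1 := hw2 (κ 0)
    rw [h0, map_zero] at h1
    exact h1.symm
  have hZ : ∀ t : Fin r → ℂ, (∀ k', t k' ≠ 0) →
      ZI I (V0 * pmat lam t (List.finRange r)) ∧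
      eval (mv (V0 * pmat lam t (List.finRange r))) (bind₁ Φ Q) *
        pfac h t (List.finRange r) = eval (mv V0) (bind₁ Φ Q) := fun t ht =>
    pmat_zi (fun i x hx V hV => (hOP i).ev x hx V hV) ht (List.finRange r) V0 hV0
  have heval : ∀ (G : MvPolynomial (Fin (N + 1)) ℂ) (e : ℕ), G.IsHomogeneous e →
      ∀ t : Fin r → ℂ, (∀ k', t k' ≠ 0) → eval t (aeval w G) = ((∏ k', t k') ^ M) ^ e *
        eval (mv (V0 * pmat lam t (List.finRange r))) (bind₁ Φ G) := by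
    intro G e hG t ht
    have h1 := MvPolynomial.comp_aeval_apply (f := w)
      (MvPolynomial.aeval t : MvPolynomial (Fin r) ℂ →ₐ[ℂ] ℂ) G
    have h2 : (fun j => (MvPolynomial.aeval t : MvPolynomial (Fin r) ℂ →ₐ[ℂ] ℂ) (w j)) =
        fun j => (∏ k', t k') ^ M *
          eval (mv (V0 * pmat lam t (List.finRange r))) (Φ j) := by
      funext j
      rw [MvPolynomial.aeval_eq_eval]
      exact hw1 t ht j
    rw [h2, form_scale' hG] at h1
    rw [← MvPolynomial.aeval_eq_eval, h1, eval_bind]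
    congr 1
  refine ⟨r, w, hw2, fun G hGh hG => ?_, ?_, fun t ht => ?_⟩
  · obtain ⟨e, he⟩ := hGh
    apply zero_of_torus
    intro t ht
    rw [heval G e he t ht, (hZ t ht).1 _ hG, mul_zero]
  · refine jac (fun j => w (κ j)) (fun _ => 1) hwl (fun i k' => e i k' / c i) ?_
    intro i i'
    have h2 : ∀ k', eval (fun _ => 1) (pderiv k' (w (κ (Fin.succ i'))) * w (κ 0) - w (κ (Fin.succ i')) * pderiv k' (w (κ 0))) =
        eval (mv V0) (Dc (δ k') (Φ (κ (Fin.succ i')))) * eval (mv V0) (Φ (κ 0)) -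
          eval (mv V0) (Φ (κ (Fin.succ i'))) * eval (mv V0) (Dc (δ k') (Φ (κ 0))) := by
      intro k'
      rw [map_sub, map_mul, map_mul, hw3, hw3, hw2, hw2]
      ring
    have h3 : ∑ k', e i k' / c i * eval (fun _ => 1) (pderiv k' (w (κ (Fin.succ i'))) * w (κ 0) -
        w (κ (Fin.succ i')) * pderiv k' (w (κ 0))) = (c i)⁻¹ * ∑ k', e i k' *
          (eval (mv V0) (Dc (δ k') (Φ (κ (Fin.succ i')))) * eval (mv V0) (Φ (κ 0)) -
          eval (mv V0) (Φ (κ (Fin.succ i'))) * eval (mv V0) (Dc (δ k') (Φ (κ 0)))) := by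
      rw [Finset.mul_sum]
      refine Finset.sum_congr rfl fun k' _ => ?_
      rw [h2 k', div_eq_mul_inv]
      ring
    have h4 : ∀ G : MvPolynomial (Fin n × Fin n) ℂ, ∑ k', e i k' * eval (mv V0) (Dc (δ k') G) =
        eval (mv V0) (Dc (β i) G) := by
      intro G
      rw [← dL_apply, ← he i, map_sum]
      refine Finset.sum_congr rfl fun k' _ => ?_
      rw [map_smul, smul_eq_mul, dL_apply]
    have h5 : ∑ k', e i k' *
          (eval (mv V0) (Dc (δ k') (Φ (κ (Fin.succ i')))) * eval (mv V0) (Φ (κ 0)) -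
          eval (mv V0) (Φ (κ (Fin.succ i'))) * eval (mv V0) (Dc (δ k') (Φ (κ 0)))) =
        eval (mv V0) (Dc (β i) (Φ (κ (Fin.succ i')))) * eval (mv V0) (Φ (κ 0)) -
          eval (mv V0) (Φ (κ (Fin.succ i'))) * eval (mv V0) (Dc (β i) (Φ (κ 0))) := by
      rw [← h4, ← h4, Finset.sum_mul, Finset.mul_sum, ← Finset.sum_sub_distrib]
      exact Finset.sum_congr rfl fun k' _ => by ring
    have h6 : ∑ k', e i k' / c i * eval (fun _ => 1) (pderiv k' (w (κ (Fin.succ i'))) * w (κ 0) -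
        w (κ (Fin.succ i')) * pderiv k' (w (κ 0))) = if i = i' then 1 else 0 := by
      rw [h3, h5, hmat]
      split_ifs
      · exact inv_mul_cancel₀ (hc i)
      · rw [mul_zero]
    exact h6
  · rw [heval Q q hQe t ht]
    refine mul_ne_zero (pow_ne_zero _ (pow_ne_zero _ (Finset.prod_ne_zero_iff.2 fun k' _ => ht k')))
      ?_
    intro h0
    have h1 := (hZ t ht).2
    rw [h0, zero_mul] at h1
    exact hQ0 h1.symm

end Pool.Agent.N626
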