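import Pool.Agent.N626.Sc
import Pool.Agent.N626.Kn

/-!
Maps from tori with images of large dimension through the points of curves given by linear
differential equations.
-/

set_option autoImplicit false

namespace Pool.Agent.N626

open MvPolynomial Metric Set Filter Topology Pool.Agent.TH143 Pool.Agent.TH143.DE

variable {N : ℕ} {Ω : Set ℂ} {B : Subalgebra ℂ (ℂ → ℂ)}

theorem sweep_gen (hΩ : IsOpen Ω) (hΩc : IsPreconnected Ω) (hB : DiffRing Ω B)
    (f : ℂ → Fin (N + 1) → ℂ)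
    (hf : ∀ j, AnalyticOnNhd ℂ (fun w => f w j) Ω) (hlin : ∀ j, LinOver Ω B (fun w => f w j))
    {e : ℕ} (κ : Fin (e + 1) → Fin (N + 1)) (hgen : GenOver Ω B ⊥ fun z i => f z (κ i))
    {Q : MvPolynomial (Fin (N + 1)) ℂ} {q : ℕ} (hQe : Q.IsHomogeneous q)
    (hQ0 : ∃ z ∈ Ω, eval (f z) Q ≠ 0) {bq cq : ℂ → ℂ} (hbq : bq ∈ B) (hcq : cq ∈ B)
    (hb0 : ∃ z ∈ Ω, bq z ≠ 0)
    (hlog : ∀ z ∈ Ω, bq z * deriv (fun w => eval (f w) Q) z = cq z * eval (f z) Q)
    {V : Set ℂ} (hVΩ : V ⊆ Ω) (hVo : IsOpen V) (hVn : V.Nonempty) :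
    ∃ z ∈ V, ∃ (r : ℕ) (w : Fin (N + 1) → MvPolynomial (Fin r) ℂ),
      (∀ j, eval (fun _ => 1) (w j) = f z j) ∧
      (∀ G : MvPolynomial (Fin (N + 1)) ℂ, (∃ e, G.IsHomogeneous e) →
        (∀ z ∈ Ω, eval (f z) G = 0) → aeval w G = 0) ∧
      (∀ (D : ℕ) (G : MvPolynomial (Fin (e + 1)) ℂ), G.IsHomogeneous D →
        aeval (fun j => w (κ j)) G = 0 → G = 0) ∧
      ∀ t : Fin r → ℂ, (∀ k, t k ≠ 0) → eval t (aeval w Q) ≠ 0 := by
  classical
  choose m l a hlB haB hl0 hnorm using fun j => (hlin j).normal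
  have hQan := eval_form_an hf Q
  -- a nonzero product of analytic functions
  have hprod : ∀ T : Finset (Fin (N + 1)), ∃ z ∈ Ω, (∏ j ∈ T, l j z) ≠ 0 := by
    intro T
    induction T using Finset.induction_on with
    | empty =>
      obtain ⟨z, hz, -⟩ := hQ0
      exact ⟨z, hz, by simp⟩
    | insert j T hj ih =>
      have hT : AnalyticOnNhd ℂ (fun z => ∏ j ∈ T, l j z) Ω := by
        intro z hz
        apply Finset.analyticAt_fun_prod
        intro i _
        exact hB.an _ (hlB i) z hz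
      obtain ⟨z, hz, hz'⟩ := common_nz hΩc (hB.an _ (hlB j)) hT (hl0 j) ih
      exact ⟨z, hz, by rw [Finset.prod_insert hj]; exact hz'⟩
  let P0 : ℂ → ℂ := ∏ j, l j
  have hP0 : ∀ z, P0 z = ∏ j, l j z := fun z => Finset.prod_apply z _ _
  have hP0B : P0 ∈ B := B.prod_mem fun j _ => hlB j
  let s : ℂ → ℂ := P0 * bq
  have hs : ∀ z, s z = P0 z * bq z := fun z => rfl
  have hsB : s ∈ B := B.mul_mem hP0B hbq
  have hsan := hB.an s hsB
  obtain ⟨z0, hz0V, hz0'⟩ : ∃ z ∈ V, s z * eval (f z) Q ≠ 0 := by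
    by_contra hcon
    push Not at hcon
    obtain ⟨v0, hv0⟩ := hVn
    have h1 : EqOn (fun z => s z * eval (f z) Q) 0 Ω :=
      (hsan.mul hQan).eqOn_zero_of_preconnected_of_eventuallyEq_zero hΩc (hVΩ hv0) (by
        filter_upwards [hVo.mem_nhds hv0] with z hz
        exact hcon z hz)
    obtain ⟨z, hz, hz'⟩ : ∃ z ∈ Ω, s z * eval (f z) Q ≠ 0 := by
      refine common_nz hΩc hsan hQan ?_ hQ0
      refine common_nz hΩc (hB.an _ hP0B) (hB.an _ hbq) ?_ hb0
      obtain ⟨z, hz, hz'⟩ := hprod Finset.univ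
      exact ⟨z, hz, by rw [hP0]; exact hz'⟩
    exact hz' (h1 hz)
  have hz0 : z0 ∈ Ω := hVΩ hz0V
  have hsz0 : s z0 ≠ 0 := left_ne_zero_of_mul hz0'
  have hQz0 : eval (f z0) Q ≠ 0 := right_ne_zero_of_mul hz0'
  -- the system
  let num : Fin (N + 1) → ℕ → ℂ → ℂ := fun j k =>
    a j k * ((∏ i ∈ Finset.univ.erase j, l i) * bq)
  have hnumB : ∀ j k, num j k ∈ B := fun j k =>
    B.mul_mem (haB j k) (B.mul_mem (B.prod_mem fun i _ => hlB i) hbq)
  have hnum : ∀ j k z, s z ≠ 0 → l j z ≠ 0 ∧ num j k z / s z = a j k z / l j z := by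
    intro j k z hz
    have h2 : s z = l j z * (∏ i ∈ Finset.univ.erase j, l i z) * bq z := by
      rw [hs, hP0, Finset.mul_prod_erase _ (fun i => l i z) (Finset.mem_univ j)]
    have h3 : l j z ≠ 0 := fun h => hz (by rw [h2, h, zero_mul, zero_mul])
    have h4 : (∏ i ∈ Finset.univ.erase j, l i z) ≠ 0 := fun h =>
      hz (by rw [h2, h, mul_zero, zero_mul])
    have h5 : bq z ≠ 0 := fun h => hz (by rw [h2, h, mul_zero])
    refine ⟨h3, ?_⟩
    simp only [num, Pi.mul_apply, Finset.prod_apply]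
    rw [h2]
    field_simp
  obtain ⟨n, A, y, L, hA, hsys⟩ := exists_system (fun j w => f w j) m
    (fun j k z => num j k z / s z)
  set Ω' := {z ∈ V | s z ≠ 0 ∧ eval (f z) Q ≠ 0} with hΩ'
  have hΩ'o : IsOpen Ω' := by
    rw [isOpen_iff_mem_nhds]
    intro z hz
    filter_upwards [hVo.mem_nhds hz.1, (hsan z (hVΩ hz.1)).continuousAt.eventually_ne hz.2.1,
      (hQan z (hVΩ hz.1)).continuousAt.eventually_ne hz.2.2] with w h2 h3 h4
    exact ⟨h2, h3, h4⟩
  have hsys' : ∀ w ∈ Ω', (∀ i, HasDerivAt (fun w => y w i) (∑ k, A i k w * y w k) w) ∧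
      ∀ j, f w j = ∑ k, L j k * y w k := by
    intro w hw
    apply hsys w (fun j => hf j w (hVΩ hw.1))
    intro j
    rw [hnorm j w (hVΩ hw.1) (hnum j 0 w hw.2.1).1]
    refine Finset.sum_congr rfl fun k _ => ?_
    rw [(hnum j k w hw.2.1).2]
  have hAB : ∀ i k, ∃ b ∈ B, ∀ z ∈ Ω', A i k z = b z / s z ^ 1 := by
    intro i k
    obtain ⟨α, ε, j, p, hp⟩ := hA i k
    refine ⟨algebraMap ℂ (ℂ → ℂ) α * s + algebraMap ℂ (ℂ → ℂ) ε * num j p,
      B.add_mem (B.mul_mem (B.algebraMap_mem α) hsB) (B.mul_mem (B.algebraMap_mem ε) (hnumB j p)),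
      fun z hz => ?_⟩
    rw [hp, Pi.add_apply, Pi.mul_apply, Pi.mul_apply]
    have h2 := hz.2.1
    have h3 : ∀ c : ℂ, (algebraMap ℂ (ℂ → ℂ) c) z = c := fun c => rfl
    rw [h3, h3]
    field_simp
  choose bA hbA hbAe using hAB
  choose! der hderB hder using hB.der
  have hAan : ∀ i k, AnalyticOnNhd ℂ (fun z => bA i k z / s z ^ 1) Ω' := fun i k z hz =>
    (hB.an _ (hbA i k) z (hVΩ hz.1)).fun_div ((hsan z (hVΩ hz.1)).fun_pow 1)
      (pow_ne_zero _ hz.2.1)
  obtain ⟨r, hr, hrS, U, hU, hdet⟩ := exists_fund hΩ'o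
    (fun z => Matrix.of fun i k => bA i k z / s z ^ 1) (fun i k => by
      simpa only [Matrix.of_apply] using hAan i k)
    (show z0 ∈ Ω' from ⟨hz0V, hsz0, hQz0⟩)
  set S := ball z0 r with hS
  have hz0S : z0 ∈ S := mem_ball_self hr
  have hSo : IsOpen S := isOpen_ball
  have hSc : IsPreconnected S := (convex_ball z0 r).isPreconnected
  have hSs : ∀ z ∈ S, s z ≠ 0 := fun z hz => (hrS hz).2.1
  have hSQ : ∀ z ∈ S, eval (f z) Q ≠ 0 := fun z hz => (hrS hz).2.2
  have hSV : S ⊆ V := fun z hz => (hrS hz).1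
  have hSΩ : S ⊆ Ω := fun z hz => hVΩ (hSV hz)
  set c : Fin n → ℂ := Matrix.mulVec (U z0)⁻¹ (y z0) with hc
  have hyU : ∀ z ∈ S, ∀ i, y z i = ∑ l, U z i l * c l := by
    have h2 := sol_zero (a := z0) (r := r) (fun i k z => bA i k z / s z ^ 1)
      (fun i k => (hAan i k).mono hrS)
      (fun z i => y z i - ∑ l, U z i l * c l) (by
        intro z hz i
        have h3 := (hsys' z (hrS hz)).1 i
        have h4 : HasDerivAt (fun z => ∑ l, U z i l * c l)
            (∑ l, (∑ k, bA i k z / s z ^ 1 * U z k l) * c l) z := by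
          apply HasDerivAt.fun_sum
          intro l _
          have h5 := (hU z hz i l).mul_const (c l)
          rw [Matrix.mul_apply] at h5
          exact h5
        refine (h3.fun_sub h4).congr_deriv ?_
        simp only [hbAe _ _ z (hrS hz), mul_sub, Finset.sum_sub_distrib, Finset.sum_mul,
          Finset.mul_sum]
        congr 1
        rw [Finset.sum_comm]
        refine Finset.sum_congr rfl fun k _ => Finset.sum_congr rfl fun l _ => ?_
        ring) (by
        intro i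
        have h6 : ∑ l, U z0 i l * c l = y z0 i := by
          have h7 : Matrix.mulVec (U z0) c = y z0 := by
            rw [hc, Matrix.mulVec_mulVec, Matrix.mul_nonsing_inv _ ((hdet z0 hz0S).isUnit),
              Matrix.one_mulVec]
          rw [← h7]
          rfl
        rw [h6, sub_self])
    intro z hz i
    exact sub_eq_zero.mp (h2 z hz i)
  -- the coefficients
  let bb : B × ℕ → ℂ → ℂ := fun p z => p.1.1 z / s z ^ p.2
  have hbb : ∀ p, AnalyticOnNhd ℂ (bb p) S := fun p z hz =>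
    (hB.an _ p.1.2 z (hSΩ hz)).fun_div ((hsan z (hSΩ hz)).fun_pow _) (pow_ne_zero _ (hSs z hz))
  let dd : B × ℕ → B × ℕ := fun p =>
    (⟨der p.1.1 * s - algebraMap ℂ (ℂ → ℂ) (p.2 : ℂ) * p.1.1 * der s,
      B.sub_mem (B.mul_mem (hderB _ p.1.2) hsB)
        (B.mul_mem (B.mul_mem (B.algebraMap_mem _) p.1.2) (hderB _ hsB))⟩, p.2 + 1)
  have hdd : ∀ p, ∀ z ∈ S, HasDerivAt (bb p) (bb (dd p) z) z := by
    rintro ⟨b, k⟩ z hz
    have h2 := hder b.1 b.2 z (hSΩ hz)
    have h3 := hder s hsB z (hSΩ hz)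
    have h4 := hSs z hz
    refine (h2.fun_div (h3.fun_pow k) (pow_ne_zero k h4)).congr_deriv ?_
    have h5 : ∀ c : ℂ, (algebraMap ℂ (ℂ → ℂ) c) z = c := fun c => rfl
    simp only [bb, dd, Pi.sub_apply, Pi.mul_apply, h5]
    cases k with
    | zero => simp; field_simp
    | succ k =>
      rw [Nat.add_sub_cancel]
      field_simp
      ring
  let Φ : Fin (N + 1) → MvPolynomial (Fin n × Fin n) ℂ := fun j =>
    ∑ k, ∑ l, MvPolynomial.C (L j k * c l) * X (k, l)
  have hΦ : ∀ z ∈ S, ∀ j, eval (mv (U z)) (Φ j) = f z j := by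
    intro z hz j
    rw [(hsys' z (hrS hz)).2 j]
    simp only [Φ, map_sum, map_mul, eval_C, eval_X, mv]
    refine Finset.sum_congr rfl fun k _ => ?_
    rw [hyU z hz k, Finset.mul_sum]
    refine Finset.sum_congr rfl fun l _ => ?_
    ring
  have hFS : ∀ z ∈ S, (fun j => eval (mv (U z)) (Φ j)) = f z := fun z hz => funext (hΦ z hz)
  have hΦG : ∀ z ∈ S, ∀ G : MvPolynomial (Fin (N + 1)) ℂ,
      eval (mv (U z)) (bind₁ Φ G) = eval (f z) G := by
    intro z hz G
    rw [eval_bind, ← hFS z hz]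
  obtain ⟨T, hT, hTs⟩ := sweep_local hSo hSc ⟨z0, hz0S⟩ bb hbb dd hdd
    (fun i k => (⟨bA i k, hbA i k⟩, 1)) U
    (fun z hz i j => by
      have := hU z hz i j
      rw [Matrix.mul_apply] at this
      exact this) hdet (locAlg B s hsB S hSs) (fun p => ⟨p.1.1, p.1.2, p.2, fun z => rfl⟩) Φ κ
    (fun D P hP h0 => by
      have h2 := gen_loc hΩc hB.an (f := fun z i => f z (κ i)) (fun i => hf (κ i)) hgen s hsB hSo
        hSΩ hz0S hSs hP (fun z => by
          rw [← h0 z]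
          congr 1
          congr 1
          funext i
          exact (hΦ z z.2 (κ i)).symm)
      refine MvPolynomial.ext _ _ fun v' => ?_
      apply Subtype.ext
      apply hol_ext
      intro z
      have h3 : atz z P = 0 := (Submodule.mem_bot _).1 (h2 z)
      rw [← coeff_atz, h3]
      simp) hQe (⟨cq * P0, B.mul_mem hcq hP0B⟩, 1)
    (fun z hz => by rw [hΦG z hz]; exact hSQ z hz) (fun z hz => by
      have h1 := (hQan z (hSΩ hz)).differentiableAt.hasDerivAt
      rw [hΦG z hz]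
      have h2 : (fun w => eval (mv (U w)) (bind₁ Φ Q)) =ᶠ[𝓝 z] fun w => eval (f w) Q := by
        filter_upwards [hSo.mem_nhds hz] with w hw
        exact hΦG w hw Q
      refine (h1.congr_of_eventuallyEq h2).congr_deriv ?_
      have h3 := hlog z (hSΩ hz)
      have h4 := hSs z hz
      have h5 : bq z ≠ 0 := fun h => h4 (by rw [hs, h, mul_zero])
      have h6 : P0 z ≠ 0 := fun h => h4 (by rw [hs, h, zero_mul])
      simp only [bb, Pi.mul_apply, pow_one]
      rw [hs, eq_comm, div_mul_eq_mul_div, div_eq_iff (mul_ne_zero h6 h5)]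
      linear_combination (-P0 z) * h3)
  obtain ⟨a0, ha0⟩ : ∃ a : S, evz a T ≠ 0 := by
    by_contra hcon
    push Not at hcon
    exact hT (hol_ext fun z => by rw [hcon z, map_zero])
  obtain ⟨r', w, e1, e2, e3, e4⟩ := hTs a0 ha0
  refine ⟨a0, hSV a0.2, r', w, fun j => ?_, fun G hG hGz => e2 G hG fun z hz => ?_, e3, e4⟩
  · rw [e1, hΦ a0 a0.2]
  · rw [hΦG z hz]
    exact hGz z (hSΩ hz)

end Pool.Agent.N626
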