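import Pool.Agent.N626.Sd
import Mathlib.Combinatorics.Matroid.Rank.ENat

/-!
Transcendence degrees over a ring of coefficients.
-/

set_option autoImplicit false

namespace Pool.Agent.N626

open MvPolynomial Set AlgebraicIndependent

theorem exists_indep_over {K : Type} [Field K] [Algebra ℂ K] (A : Subalgebra ℂ K) {b d : ℕ}
    (hA : ∀ g : Fin (b + 1) → K, (∀ i, g i ∈ A) → ¬ AlgebraicIndependent ℂ g)
    {y : Fin d → K} (hy : AlgebraicIndependent ℂ y) :
    ∃ (e : ℕ) (σ : Fin e → Fin d), Function.Injective σ ∧ d ≤ e + b ∧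
      AlgebraicIndependent A fun i => y (σ i) := by
  classical
  let M := matroid ℂ K
  obtain ⟨T0, hT0⟩ := M.exists_isBasis (A : Set K) (subset_univ _)
  have hT0' := matroid_isBasis_iff.1 hT0
  have hcard : T0.encard ≤ b := by
    by_contra hcon
    push Not at hcon
    have h1 : ((b + 1 : ℕ) : ℕ∞) ≤ T0.encard := by
      rw [Nat.cast_add, Nat.cast_one]
      exact Order.add_one_le_of_lt hcon
    obtain ⟨t, htT, ht⟩ := exists_subset_encard_eq h1
    have htf : t.Finite := finite_of_encard_eq_coe ht
    have htn : t.ncard = b + 1 := by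
      rw [Set.ncard, ht]
      rfl
    have : Fintype t := htf.fintype
    have hcf : Fintype.card t = b + 1 := by
      rw [← Nat.card_eq_fintype_card, Nat.card_coe_set_eq, htn]
    let φ : Fin (b + 1) ≃ t := (Fintype.equivFinOfCardEq hcf).symm
    refine hA (fun i => (φ i : K)) (fun i => hT0'.2.1 (htT (φ i).2)) ?_
    have h2 : AlgebraicIndependent ℂ (fun x : T0 => (x : K)) := hT0'.1
    exact h2.comp (fun i => (⟨φ i, htT (φ i).2⟩ : T0)) (fun i j hij => by
      apply φ.injective
      apply Subtype.ext
      exact congrArg (fun x : T0 => (x : K)) hij)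
  obtain ⟨T1, hT1, hT01⟩ := hT0.indep.subset_isBasis_of_subset
    (show T0 ⊆ (A : Set K) ∪ range y from hT0'.2.1.trans subset_union_left)
  have hT1' := matroid_isBasis_iff.1 hT1
  have hry : (range y).encard = d := by
    rw [← image_univ, hy.injective.encard_image, encard_univ, ENat.card_eq_coe_fintype_card,
      Fintype.card_fin]
  have hyM : M.Indep (range y) := matroid_indep_iff.2 hy.to_subtype_range
  have hd1 : (d : ℕ∞) ≤ T1.encard := by
    rw [← hry, hT1.encard_eq_eRk]
    exact hyM.encard_le_eRk_of_subset subset_union_right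
  let I := T1 \ T0
  have hIy : I ⊆ range y := by
    rintro x ⟨hx1, hx0⟩
    rcases hT1'.2.1 hx1 with h | h
    · exact absurd (hT0.mem_of_insert_indep h (hT1.indep.subset (insert_subset hx1 hT01))) hx0
    · exact h
  have hIf : I.Finite := (finite_range y).subset hIy
  have hd2 : (d : ℕ∞) ≤ I.encard + b := by
    refine hd1.trans ?_
    rw [← encard_sdiff_add_encard_of_subset hT01]
    exact add_le_add_right hcard _
  have : Fintype I := hIf.fintype
  let e := Fintype.card I
  let φ : Fin e ≃ I := (Fintype.equivFin I).symm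
  choose σ hσ using fun i : Fin e => hIy (φ i).2
  refine ⟨e, σ, fun i j hij => ?_, ?_, ?_⟩
  · apply φ.injective
    apply Subtype.ext
    rw [← hσ i, ← hσ j, hij]
  · have h1 : I.encard = (e : ℕ∞) := by
      rw [← Set.coe_fintypeCard]
    rw [h1] at hd2
    exact_mod_cast hd2
  · let x : T1 → K := fun t => (t : K)
    have hx : AlgebraicIndependent ℂ x := hT1'.1
    let s : Set T1 := {t | (t : K) ∈ T0}
    let tt : Set T1 := {t | (t : K) ∉ T0}
    have hdis : Disjoint s tt := by
      rw [Set.disjoint_left]
      intro t h1 h2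
      exact h2 h1
    have h1 := hx.adjoin_of_disjoint hdis
    have hxs : x '' s = T0 := by
      ext z
      constructor
      · rintro ⟨t, ht, rfl⟩
        exact ht
      · intro hz
        exact ⟨⟨z, hT01 hz⟩, hz, rfl⟩
    rw [hxs] at h1
    have hle : Algebra.adjoin ℂ T0 ≤ A := Algebra.adjoin_le hT0'.2.1
    let _ : Algebra (Algebra.adjoin ℂ T0) A := (Subalgebra.inclusion hle).toRingHom.toAlgebra
    have hst : IsScalarTower (Algebra.adjoin ℂ T0) A K := IsScalarTower.of_algebraMap_eq fun _ => rfl
    have halg : Algebra.IsAlgebraic (Algebra.adjoin ℂ T0) A := by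
      refine ⟨fun a => ?_⟩
      have h2 : IsAlgebraic (Algebra.adjoin ℂ T0) (algebraMap A K a) := hT0'.2.2 a a.2
      exact (isAlgebraic_algebraMap_iff Subtype.val_injective).1 h2
    have h2 : AlgebraicIndependent A fun i : tt => x i := h1.extendScalars A
    have h3 := h2.comp (fun i : Fin e => (⟨⟨φ i, (φ i).2.1⟩, (φ i).2.2⟩ : tt)) (fun i j hij => by
      apply φ.injective
      apply Subtype.ext
      exact congrArg (fun t : tt => ((t : T1) : K)) hij)
    have h4 : (fun i => y (σ i)) = (fun i : tt => x i) ∘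
        (fun i : Fin e => (⟨⟨φ i, (φ i).2.1⟩, (φ i).2.2⟩ : tt)) := by
      funext i
      exact hσ i
    rw [h4]
    exact h3

end Pool.Agent.N626
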