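import Pool.Agent.N626.Se

/-!
Curves which are generic over a ring of coefficients of bounded transcendence degree.
-/

set_option autoImplicit false

namespace Pool.Agent.N626

open MvPolynomial Metric Set Filter Topology Pool.Agent.TH143 Pool.Agent.TH143.DE

variable {N : ℕ} {Ω : Set ℂ} {B : Subalgebra ℂ (ℂ → ℂ)}

/-- Any `b + 1` elements of `B` satisfy a nontrivial polynomial relation with complex coefficients
on `Ω`: the transcendence degree of `B` is at most `b`. -/
def TrdegLe (Ω : Set ℂ) (B : Subalgebra ℂ (ℂ → ℂ)) (b : ℕ) : Prop :=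
  ∀ g : Fin (b + 1) → ℂ → ℂ, (∀ i, g i ∈ B) →
    ∃ P : MvPolynomial (Fin (b + 1)) ℂ, P ≠ 0 ∧ ∀ z ∈ Ω, eval (fun i => g i z) P = 0

/-- the restriction to `Ω` -/
def resB (hB : ∀ b ∈ B, AnalyticOnNhd ℂ b Ω) : B →ₐ[ℂ] Hol Ω where
  toFun b := toHol b (hB b b.2)
  map_one' := rfl
  map_mul' := fun _ _ => rfl
  map_zero' := rfl
  map_add' := fun _ _ => rfl
  commutes' := fun _ => rfl

theorem form_scale'' {M : ℕ} {R A : Type} [CommRing R] [CommRing A] [Algebra R A]
    {G : MvPolynomial (Fin (M + 1)) R} {d : ℕ}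
    (hG : G.IsHomogeneous d) (c : A) (x : Fin (M + 1) → A) :
    aeval (fun j => c * x j) G = c ^ d * aeval x G := by
  rw [aeval_def, aeval_def, eval₂_eq, eval₂_eq, Finset.mul_sum]
  refine Finset.sum_congr rfl fun m hm => ?_
  have h1 : m.degree = d := by
    have h2 := hG (mem_support_iff.1 hm)
    rw [Finsupp.degree_eq_weight_one]
    exact h2
  rw [← h1, Finsupp.degree_eq_sum]
  simp only [mul_pow, Finset.prod_mul_distrib]
  rw [Finset.prod_subset (Finset.subset_univ m.support) (f := fun i => c ^ m i) (fun i _ hi => by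
    rw [Finsupp.notMem_support_iff.1 hi, pow_zero]), Finset.prod_pow_eq_pow_sum]
  ring

theorem atB_hom {σ : Type} (z : ℂ) {D : ℕ} {G : MvPolynomial σ B} (hG : G.IsHomogeneous D) :
    (atB z G).IsHomogeneous D := by
  intro v hv
  apply hG
  rw [coeff_atB] at hv
  intro h0
  apply hv
  rw [h0]
  rfl

theorem evz_resB (hB : ∀ b ∈ B, AnalyticOnNhd ℂ b Ω) {σ : Type} (z : Ω)
    (P : MvPolynomial σ B) (W : σ → Hol Ω) :
    evz z (eval₂ (resB hB : B →+* Hol Ω) W P) =
      eval (fun j => evz z (W j)) (atB (z : ℂ) P) := by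
  induction P using MvPolynomial.induction_on with
  | C b =>
    have h2 : atB (z : ℂ) (C b : MvPolynomial σ B) = C ((b : ℂ → ℂ) z) := by
      unfold atB
      rw [mapAlgHom_apply]
      exact map_C _ _
    rw [eval₂_C, h2, eval_C]
    rfl
  | add p q hp hq => rw [eval₂_add, map_add, map_add, map_add, hp, hq]
  | mul_X p j hp =>
    have h2 : atB (z : ℂ) (X j : MvPolynomial σ B) = X j := by
      unfold atB
      rw [mapAlgHom_apply]
      exact map_X _ _
    rw [eval₂_mul, eval₂_X, map_mul, map_mul, map_mul, hp, h2, eval_X]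

theorem gen_indep (hΩc : IsPreconnected Ω) (hB : ∀ b ∈ B, AnalyticOnNhd ℂ b Ω)
    {f : ℂ → Fin (N + 1) → ℂ} (hf : ∀ j, AnalyticOnNhd ℂ (fun w => f w j) Ω) {b : ℕ}
    (htr : TrdegLe Ω B b) {d : ℕ} {l : Fin (N + 1)} (a : Fin d → Fin (N + 1))
    (hl : ∃ z ∈ Ω, f z l ≠ 0)
    (hind : ∀ (D : ℕ) (G : MvPolynomial (Fin (d + 1)) ℂ), G.IsHomogeneous D →
      (∀ z ∈ Ω, eval (f z) (rename (Fin.cons l a : Fin (d + 1) → Fin (N + 1)) G) = 0) → G = 0) :
    ∃ (e : ℕ) (σ : Fin e → Fin d), d ≤ e + b ∧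
      GenOver Ω B ⊥ fun z i =>
        f z ((Fin.cons l (fun i => a (σ i)) : Fin (e + 1) → Fin (N + 1)) i) := by
  classical
  obtain ⟨z0, hz0, hl0⟩ := hl
  have hdom : IsDomain (Hol Ω) := hol_domain hΩc ⟨z0, hz0⟩
  let K := FractionRing (Hol Ω)
  have hinj : Function.Injective (algebraMap (Hol Ω) K) := IsFractionRing.injective _ _
  let ι : Hol Ω →ₐ[ℂ] K := IsScalarTower.toAlgHom ℂ (Hol Ω) K
  let ρ : B →ₐ[ℂ] K := ι.comp (resB hB)
  let u : Fin (N + 1) → Hol Ω := fun j => toHol (fun w => f w j) (hf j)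
  let y : Fin (N + 1) → K := fun j => ι (u j)
  have hyl : y l ≠ 0 := by
    intro h0
    have h1 : u l = 0 := (map_eq_zero_iff _ hinj).1 h0
    apply hl0
    exact congrArg (evz (⟨z0, hz0⟩ : Ω)) h1
  have hev : ∀ (z : Ω) {τ : Type} (κ : τ → Hol Ω) (G : MvPolynomial τ ℂ),
      evz z (aeval κ G) = eval (fun i => evz z (κ i)) G := by
    intro z τ κ G
    have h4 := MvPolynomial.comp_aeval_apply (f := κ) (evz z) G
    rw [h4, ← MvPolynomial.aeval_eq_eval]
  have hy : AlgebraicIndependent ℂ fun i => y (a i) / y l := by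
    rw [algebraicIndependent_iff]
    intro H hH
    apply hgz_ne
    apply hind _ _ (hgz_hom H)
    intro z hz
    rw [eval_rename]
    have h1 := aeval_hgz H hyl fun i => y (a i)
    rw [hH, mul_zero] at h1
    have h2 : (Fin.cons (y l) fun i => y (a i) : Fin (d + 1) → K) =
        fun i => ι (u ((Fin.cons l a : Fin (d + 1) → Fin (N + 1)) i)) := by
      funext i
      refine Fin.cases ?_ (fun i => ?_) i
      · rfl
      · rfl
    rw [h2] at h1
    have h3 := MvPolynomial.comp_aeval_apply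
      (f := fun i => u ((Fin.cons l a : Fin (d + 1) → Fin (N + 1)) i)) ι (hgz H)
    rw [h1] at h3
    have h4 := (map_eq_zero_iff _ hinj).1 h3
    have h5 := hev ⟨z, hz⟩ (fun i => u ((Fin.cons l a : Fin (d + 1) → Fin (N + 1)) i)) (hgz H)
    rw [h4, map_zero] at h5
    exact h5.symm
  obtain ⟨e, σ, hσ, hde, hA⟩ := exists_indep_over ρ.range (b := b) (by
    intro g hg hgi
    choose g' hg' using hg
    obtain ⟨P, hP0, hP⟩ := htr (fun i => g' i) (fun i => (g' i).2)
    apply hP0
    apply (algebraicIndependent_iff.1 hgi)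
    have h3 := MvPolynomial.comp_aeval_apply (f := fun i => resB hB (g' i)) ι P
    have h2 : aeval (fun i => resB hB (g' i)) P = 0 := hol_ext fun z => by
      rw [map_zero, hev]
      exact hP z z.2
    rw [h2, map_zero] at h3
    rw [h3]
    congr 2
    funext i
    exact (hg' i).symm) hy
  refine ⟨e, σ, hde, fun D G hG h0 z hz => ?_⟩
  rw [Ideal.mem_bot]
  set κ := (Fin.cons l (fun i => a (σ i)) : Fin (e + 1) → Fin (N + 1)) with hκ
  let _ : Algebra B K := ρ.toRingHom.toAlgebra
  have h1 : aeval (fun i => y (κ i)) G = 0 := by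
    have h2 : eval₂ (resB hB : B →+* Hol Ω) (fun i => u (κ i)) G = 0 := hol_ext fun w => by
      rw [map_zero, evz_resB]
      exact h0 w w.2
    have h3 := MvPolynomial.hom_eval₂ G (resB hB : B →+* Hol Ω) (ι : Hol Ω →+* K)
      (fun i => u (κ i))
    rw [h2, map_zero] at h3
    rw [aeval_def]
    exact h3.symm
  have h2 : aeval (fun i => y (κ i) / y l) G = 0 := by
    have h3 : (fun i => y (κ i) / y l) = fun i => (y l)⁻¹ * y (κ i) := by
      funext i
      rw [div_eq_inv_mul]
    rw [h3, form_scale'' hG, h1, mul_zero]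
  let H : MvPolynomial (Fin e) B := aeval (Fin.cons 1 X : Fin (e + 1) → MvPolynomial (Fin e) B) G
  have h3 : aeval (fun i => y (a (σ i)) / y l) H = 0 := by
    have h4 := MvPolynomial.comp_aeval_apply
      (f := (Fin.cons 1 X : Fin (e + 1) → MvPolynomial (Fin e) B))
      (MvPolynomial.aeval fun i => y (a (σ i)) / y l : MvPolynomial (Fin e) B →ₐ[B] K) G
    rw [h4, ← h2]
    congr 2
    funext i
    refine Fin.cases ?_ (fun i => ?_) i
    · rw [Fin.cons_zero, map_one, hκ, Fin.cons_zero, div_self hyl]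
    · rw [Fin.cons_succ, aeval_X, hκ, Fin.cons_succ]
  have h4 : MvPolynomial.map (ρ.rangeRestrict : B →+* ρ.range) H = 0 := by
    apply (algebraicIndependent_iff.1 hA)
    rw [aeval_def, eval₂_map, ← h3, aeval_def]
    rfl
  have h5 : atB z H = 0 := by
    refine MvPolynomial.ext _ _ fun v => ?_
    rw [coeff_atB, coeff_zero]
    have h6 := congrArg (MvPolynomial.coeff v) h4
    rw [coeff_map, coeff_zero] at h6
    have h7 : ι (resB hB (H.coeff v)) = 0 := congrArg Subtype.val h6
    have h8 := (map_eq_zero_iff _ hinj).1 h7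
    exact congrArg (evz (⟨z, hz⟩ : Ω)) h8
  have h6 : aeval (Fin.cons 1 X : Fin (e + 1) → MvPolynomial (Fin e) ℂ) (atB z G) = 0 := by
    rw [← h5]
    unfold H
    clear_value H
    clear h1 h2 h3 h4 h5 H h0 hG
    induction G using MvPolynomial.induction_on with
    | C c =>
      have e1 : ∀ τ : Type, atB z (C c : MvPolynomial τ B) = C ((c : ℂ → ℂ) z) := by
        intro τ
        unfold atB
        rw [mapAlgHom_apply]
        exact map_C _ _
      rw [e1, aeval_C, aeval_C]
      exact (e1 (Fin e)).symm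
    | add p q hp hq => rw [map_add, map_add, map_add, map_add, hp, hq]
    | mul_X p j hp =>
      have e1 : ∀ (τ : Type) (j : τ), atB z (X j : MvPolynomial τ B) = X j := by
        intro τ j
        unfold atB
        rw [mapAlgHom_apply]
        exact map_X _ _
      rw [map_mul, map_mul, map_mul, map_mul, hp, e1, aeval_X, aeval_X]
      congr 1
      refine Fin.cases ?_ (fun i => ?_) j
      · rw [Fin.cons_zero, Fin.cons_zero, map_one]
      · rw [Fin.cons_succ, Fin.cons_succ, e1]
  exact dehom (atB_hom z hG) h6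

end Pool.Agent.N626
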