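import Pool.Agent.N626.Sf
import Pool.Agent.N626.Kp

/-!
Varieties with curves given by linear differential equations are swept out by images of tori.
-/

set_option autoImplicit false

namespace Pool.Agent.N626

open MvPolynomial Metric Set Filter Topology Pool.Agent.TH143 Pool.Agent.TH143.DE

variable {N : ℕ} {Ω : Set ℂ} {B : Subalgebra ℂ (ℂ → ℂ)}

theorem trdeg_bot (Ω : Set ℂ) : TrdegLe Ω (⊥ : Subalgebra ℂ (ℂ → ℂ)) 0 := by
  intro g hg
  obtain ⟨c, hc⟩ := bot_mem.1 (hg 0)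
  refine ⟨X 0 - C c, fun h0 => ?_, fun z _ => ?_⟩
  · have h1 := congrArg (eval fun _ => c + 1) h0
    simp at h1
  · rw [map_sub, eval_X, eval_C, hc, sub_self]

theorem trdeg_pol (Ω : Set ℂ) : TrdegLe Ω polB 1 := by
  intro g hg
  choose P hP using hg
  have h1 : ¬ AlgebraicIndependent ℂ P := by
    intro h
    have h2 := h.cardinalMk_le_trdeg
    rw [Polynomial.trdeg_of_isDomain, Cardinal.mk_fin] at h2
    have h3 : (1 + 1 : ℕ) ≤ 1 := by exact_mod_cast h2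
    omega
  rw [algebraicIndependent_iff] at h1
  push Not at h1
  obtain ⟨R, hR, hR0⟩ := h1
  refine ⟨R, hR0, fun z _ => ?_⟩
  have h2 := MvPolynomial.comp_aeval_apply (f := P) (Polynomial.aeval z) R
  rw [hR, map_zero] at h2
  rw [← MvPolynomial.aeval_eq_eval]
  have h3 : (fun i => g i z) = fun i => (Polynomial.aeval z) (P i) := by
    funext i
    rw [hP, Polynomial.coe_aeval_eq_eval]
  rw [h3]
  exact h2.symm

theorem sweep_var (hΩ : IsOpen Ω) (hΩc : IsPreconnected Ω) (hB : DiffRing Ω B)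
    {b : ℕ} (htr : TrdegLe Ω B b)
    (f : ℂ → Fin (N + 1) → ℂ)
    (hf : ∀ j, AnalyticOnNhd ℂ (fun w => f w j) Ω) (hlin : ∀ j, LinOver Ω B (fun w => f w j))
    {p : Ideal (MvPolynomial (Fin (N + 1)) ℂ)}
    (hon : ∀ G ∈ p, ∀ z ∈ Ω, eval (f z) G = 0)
    (hdense : ∀ G : MvPolynomial (Fin (N + 1)) ℂ, (∃ e, G.IsHomogeneous e) →
      (∀ z ∈ Ω, eval (f z) G = 0) → G ∈ p)
    {d : ℕ} {a : Fin (d + 1) → Fin (N + 1)}
    (ha : ∀ (D : ℕ) (G : MvPolynomial (Fin (d + 1)) ℂ), G.IsHomogeneous D →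
      rename a G ∈ p → G = 0)
    {Q : MvPolynomial (Fin (N + 1)) ℂ} {q : ℕ} (hQe : Q.IsHomogeneous q)
    (hQ0 : ∃ z ∈ Ω, eval (f z) Q ≠ 0) {bq cq : ℂ → ℂ} (hbq : bq ∈ B) (hcq : cq ∈ B)
    (hb0 : ∃ z ∈ Ω, bq z ≠ 0)
    (hlog : ∀ z ∈ Ω, bq z * deriv (fun w => eval (f w) Q) z = cq z * eval (f z) Q)
    {V : Set ℂ} (hVΩ : V ⊆ Ω) (hVo : IsOpen V) (hVn : V.Nonempty) :
    ∃ z ∈ V, f z ≠ 0 ∧ ∃ (r : ℕ) (w : Fin (N + 1) → MvPolynomial (Fin r) ℂ),
      (∀ j, eval (fun _ => 1) (w j) = f z j) ∧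
      (∀ G ∈ p, (∃ e, G.IsHomogeneous e) → aeval w G = 0) ∧
      (∀ t : Fin r → ℂ, (∀ k, t k ≠ 0) → eval t (aeval w Q) ≠ 0) ∧
      ∃ (e : ℕ) (κ : Fin (e + 1) → Fin (N + 1)), d ≤ e + b ∧
        ∀ (D : ℕ) (G : MvPolynomial (Fin (e + 1)) ℂ), G.IsHomogeneous D →
          aeval (fun j => w (κ j)) G = 0 → G = 0 := by
  classical
  have hl : ∃ z ∈ Ω, f z (a 0) ≠ 0 := by
    by_contra hcon
    push Not at hcon
    have h1 := ha 1 (X 0) (isHomogeneous_X _ _) (by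
      rw [rename_X]
      exact hdense _ ⟨1, isHomogeneous_X _ _⟩ fun z hz => by rw [eval_X]; exact hcon z hz)
    exact X_ne_zero _ h1
  have hcons : (Fin.cons (a 0) (fun i : Fin d => a i.succ) : Fin (d + 1) → Fin (N + 1)) = a := by
    funext i
    refine Fin.cases ?_ (fun i => ?_) i
    · rfl
    · rfl
  obtain ⟨e, σ, hde, hgen⟩ := gen_indep hΩc hB.an hf htr (l := a 0) (fun i : Fin d => a i.succ) hl
    (fun D G hG h0 => by
      rw [hcons] at h0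
      exact ha D G hG (hdense _ ⟨D, hG.rename_isHomogeneous⟩ h0))
  let V' := {z ∈ V | f z (a 0) ≠ 0}
  have hV'o : IsOpen V' := by
    rw [isOpen_iff_mem_nhds]
    intro z hz
    filter_upwards [hVo.mem_nhds hz.1,
      (hf (a 0) z (hVΩ hz.1)).continuousAt.eventually_ne hz.2] with w h2 h3
    exact ⟨h2, h3⟩
  have hV'n : V'.Nonempty := by
    by_contra hcon
    rw [Set.not_nonempty_iff_eq_empty] at hcon
    obtain ⟨v0, hv0⟩ := hVn
    have h1 : EqOn (fun z => f z (a 0)) 0 Ω :=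
      (hf (a 0)).eqOn_zero_of_preconnected_of_eventuallyEq_zero hΩc (hVΩ hv0) (by
        filter_upwards [hVo.mem_nhds hv0] with z hz
        by_contra hne
        have : z ∈ V' := ⟨hz, hne⟩
        rw [hcon] at this
        exact this)
    obtain ⟨z, hz, hz'⟩ := hl
    exact hz' (h1 hz)
  obtain ⟨z, hz, r, w, e1, e2, e3, e4⟩ := sweep_gen hΩ hΩc hB f hf hlin
    (Fin.cons (a 0) (fun i : Fin e => a (σ i).succ) : Fin (e + 1) → Fin (N + 1)) hgen hQe hQ0 hbq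
    hcq hb0 hlog (fun z hz => hVΩ hz.1 : V' ⊆ Ω) hV'o hV'n
  refine ⟨z, hz.1, fun h0 => hz.2 (congrFun h0 _), r, w, e1, fun G hG hGh => ?_, e4, e,
    _, hde, e3⟩
  exact e2 G hGh (hon G hG)

end Pool.Agent.N626
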