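import Pool.Agent.N626.Sg

/-!
Maps from affine spaces: the static part.
-/

set_option autoImplicit false

namespace Pool.Agent.N626

open MvPolynomial Filter Pool.Agent.TH143 Pool.Agent.TH143.DE

variable {n N r : ℕ}

/-- polynomial functions of several variables -/
def IsPol (F : (Fin r → ℂ) → ℂ) : Prop := ∃ P : MvPolynomial (Fin r) ℂ, ∀ t, F t = eval t P

theorem IsPol.const (c : ℂ) : IsPol fun _ : Fin r → ℂ => c := ⟨C c, fun t => by simp⟩

theorem IsPol.add {F G : (Fin r → ℂ) → ℂ} (hF : IsPol F) (hG : IsPol G) :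
    IsPol fun t => F t + G t := by
  obtain ⟨P, hP⟩ := hF
  obtain ⟨R, hR⟩ := hG
  exact ⟨P + R, fun t => by beta_reduce; rw [map_add, hP, hR]⟩

theorem IsPol.mul {F G : (Fin r → ℂ) → ℂ} (hF : IsPol F) (hG : IsPol G) :
    IsPol fun t => F t * G t := by
  obtain ⟨P, hP⟩ := hF
  obtain ⟨R, hR⟩ := hG
  exact ⟨P * R, fun t => by beta_reduce; rw [map_mul, hP, hR]⟩

theorem IsPol.sum {ι : Type} (s : Finset ι) {F : ι → (Fin r → ℂ) → ℂ}
    (hF : ∀ i ∈ s, IsPol (F i)) : IsPol fun t => ∑ i ∈ s, F i t := by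
  classical
  induction s using Finset.induction_on with
  | empty => simpa using IsPol.const 0
  | insert i s hi ih =>
    simp only [Finset.sum_insert hi]
    exact (hF i (Finset.mem_insert_self i s)).add
      (ih fun j hj => hF j (Finset.mem_insert_of_mem hj))

theorem IsPol.eval {κ : Type} {h : (Fin r → ℂ) → κ → ℂ} (hh : ∀ l, IsPol fun t => h t l)
    (P : MvPolynomial κ ℂ) : IsPol fun t => MvPolynomial.eval (h t) P := by
  induction P using MvPolynomial.induction_on with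
  | C a => simpa using IsPol.const a
  | add p q hp hq =>
    simp only [map_add]
    exact hp.add hq
  | mul_X p j hp =>
    simp only [map_mul, eval_X]
    exact hp.mul (hh j)

theorem pmat_pol {lam : Fin r → ℂ → Matrix (Fin n) (Fin n) ℂ}
    (hl : ∀ k i j, ∃ P : Polynomial ℂ, ∀ x, lam k x i j = P.eval x) (ks : List (Fin r)) :
    ∀ i j, IsPol fun t => pmat lam t ks i j := by
  induction ks with
  | nil =>
    intro i j
    exact IsPol.const _
  | cons k ks ih =>
    intro i j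
    have h1 : (fun t => pmat lam t (k :: ks) i j) = fun t =>
        ∑ c, lam k (t k) i c * pmat lam t ks c j := by
      funext t
      rw [pmat, Matrix.mul_apply]
    rw [h1]
    refine IsPol.sum _ fun c _ => IsPol.mul ?_ (ih c j)
    obtain ⟨P, hP⟩ := hl k i c
    refine ⟨Polynomial.aeval (X k) P, fun t => ?_⟩
    beta_reduce
    rw [hP, ← MvPolynomial.aeval_eq_eval, ← Polynomial.aeval_algHom_apply, aeval_X,
      Polynomial.coe_aeval_eq_eval]

theorem exists_wp {lam : Fin r → ℂ → Matrix (Fin n) (Fin n) ℂ}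
    {δ : Fin r → Matrix (Fin n) (Fin n) ℂ}
    (hl : ∀ k i j, ∃ P : Polynomial ℂ, ∀ x, lam k x i j = P.eval x) (h1 : ∀ k, lam k 1 = 1)
    (hd : ∀ k i j, HasDerivAt (fun x => lam k x i j) (δ k i j) 1) (V : Matrix (Fin n) (Fin n) ℂ)
    (Φ : Fin (N + 1) → MvPolynomial (Fin n × Fin n) ℂ) :
    ∃ w : Fin (N + 1) → MvPolynomial (Fin r) ℂ,
      (∀ (t : Fin r → ℂ) j, eval t (w j) =
        eval (mv (V * pmat lam t (List.finRange r))) (Φ j)) ∧
      (∀ j, eval (fun _ => 1) (w j) = eval (mv V) (Φ j)) ∧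
      ∀ k j, eval (fun _ => 1) (pderiv k (w j)) = eval (mv V) (Dc (δ k) (Φ j)) := by
  classical
  have hML : ∀ j : Fin (N + 1), IsPol fun t : Fin r → ℂ =>
      eval (mv (V * pmat lam t (List.finRange r))) (Φ j) := by
    intro j
    refine IsPol.eval (h := fun t => mv (V * pmat lam t (List.finRange r))) (fun p => ?_) (Φ j)
    have h2 : (fun t : Fin r → ℂ => mv (V * pmat lam t (List.finRange r)) p) = fun t =>
        ∑ c, V p.1 c * pmat lam t (List.finRange r) c p.2 := by
      funext t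
      exact Matrix.mul_apply
    rw [h2]
    exact IsPol.sum _ fun c _ => (IsPol.const _).mul (pmat_pol hl _ c p.2)
  choose w hw0 using hML
  have hw : ∀ (j : Fin (N + 1)) (t : Fin r → ℂ),
      eval (mv (V * pmat lam t (List.finRange r))) (Φ j) = eval t (w j) := fun j t => hw0 j t
  have hone : ∀ j, eval (fun _ => 1) (w j) = eval (mv V) (Φ j) := by
    intro j
    rw [← hw j (fun _ => 1), pmat_one h1, Matrix.mul_one]
  refine ⟨w, fun t j => (hw j t).symm, hone, fun k j => ?_⟩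
  have hu : ∀ l, HasDerivAt (fun y : ℂ => (Function.update (fun _ => (1 : ℂ)) k y : Fin r → ℂ) l)
      ((Pi.single k 1 : Fin r → ℂ) l) 1 := by
    intro l
    by_cases hlk : l = k
    · subst hlk
      simp only [Function.update_self, Pi.single_eq_same]
      exact hasDerivAt_id' 1
    · simp only [Function.update_of_ne hlk, Pi.single_eq_of_ne hlk]
      exact hasDerivAt_const _ _
  have h2 := Pool.Agent.H159R3.Exp.hasDerivAt_eval
    (fun y : ℂ => (Function.update (fun _ => (1 : ℂ)) k y : Fin r → ℂ)) _ 1 hu (w j)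
  have h3 : (Function.update (fun _ => (1 : ℂ)) k 1 : Fin r → ℂ) = fun _ => 1 := by
    funext l
    by_cases hlk : l = k
    · subst hlk
      rw [Function.update_self]
    · rw [Function.update_of_ne hlk]
  rw [h3] at h2
  have h4 : ∑ l, eval (fun _ => 1) (pderiv l (w j)) * (Pi.single k 1 : Fin r → ℂ) l =
      eval (fun _ => 1) (pderiv k (w j)) := by
    rw [Finset.sum_eq_single k]
    · rw [Pi.single_eq_same, mul_one]
    · intro l _ hlk
      rw [Pi.single_eq_of_ne hlk, mul_zero]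
    · intro h
      exact absurd (Finset.mem_univ k) h
  rw [h4] at h2
  have h5 : ∀ p : Fin n × Fin n, HasDerivAt (fun y => mv (V * lam k y) p) ((V * δ k) p.1 p.2) 1 := by
    intro p
    have h6 : (fun y => mv (V * lam k y) p) = fun y => ∑ c, V p.1 c * lam k y c p.2 := by
      funext y
      exact Matrix.mul_apply
    rw [h6, Matrix.mul_apply]
    apply HasDerivAt.fun_sum
    intro c _
    exact (hd k c p.2).const_mul _
  have h6 := Pool.Agent.H159R3.Exp.hasDerivAt_eval (fun y => mv (V * lam k y)) _ 1 h5 (Φ j)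
  rw [h1 k, Matrix.mul_one] at h6
  have h7 : ∑ l, eval (mv V) (pderiv l (Φ j)) * (V * δ k) l.1 l.2 =
      eval (mv V) (Dc (δ k) (Φ j)) := by
    rw [← dL_apply]
    rfl
  rw [h7] at h6
  have h9 : (fun y : ℂ => eval (Function.update (fun _ => (1 : ℂ)) k y : Fin r → ℂ) (w j))
      = fun y => eval (mv (V * lam k y)) (Φ j) := by
    funext y
    rw [← hw j, pmat_update h1 (List.mem_finRange k) (List.nodup_finRange r)]
  rw [h9] at h2
  exact h2.unique h6

/-- the exponential function of a nilpotent matrix -/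
theorem exists_nilexp {β : Matrix (Fin n) (Fin n) ℂ} {K : ℕ} (hK : β ^ K = 0) :
    ∃ ex : ℂ → Matrix (Fin n) (Fin n) ℂ, ExpF β ex ∧
      ∀ i j, ∃ P : Polynomial ℂ, ∀ x, ex x i j = P.eval x := by
  let ex : ℂ → Matrix (Fin n) (Fin n) ℂ := fun t =>
    ∑ k ∈ Finset.range (K + 1), (t ^ k / (k.factorial : ℂ)) • β ^ k
  have hex : ∀ t i j, ex t i j = ∑ k ∈ Finset.range (K + 1),
      (t ^ k / (k.factorial : ℂ)) * (β ^ k) i j := by
    intro t i j
    simp only [ex, Matrix.sum_apply, Matrix.smul_apply, smul_eq_mul]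
  refine ⟨ex, ⟨?_, fun t i j => ?_⟩, fun i j => ?_⟩
  · ext i j
    rw [hex, Finset.sum_range_succ', Finset.sum_eq_zero]
    · simp
    · intro k _
      rw [zero_pow (Nat.succ_ne_zero k), zero_div, zero_mul]
  · have h1 : (fun s => ex s i j) = fun s => ∑ k ∈ Finset.range (K + 1),
        (s ^ k / (k.factorial : ℂ)) * (β ^ k) i j := funext fun s => hex s i j
    rw [h1]
    have h2 : (ex t * β) i j = ∑ k ∈ Finset.range (K + 1),
        ((k : ℂ) * t ^ (k - 1) / (k.factorial : ℂ)) * (β ^ k) i j := by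
      have h3 : ex t * β = ∑ k ∈ Finset.range (K + 1),
          (t ^ k / (k.factorial : ℂ)) • β ^ (k + 1) := by
        simp only [ex, Finset.sum_mul, smul_mul_assoc, pow_succ]
      rw [h3, Finset.sum_range_succ, pow_succ, hK, Matrix.zero_mul, smul_zero, add_zero]
      conv_rhs => rw [Finset.sum_range_succ']
      rw [Matrix.sum_apply]
      simp only [Nat.cast_zero, zero_mul, zero_div, add_zero]
      refine Finset.sum_congr rfl fun k _ => ?_
      rw [Matrix.smul_apply, smul_eq_mul, Nat.factorial_succ, Nat.add_sub_cancel]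
      have h4 : ((k + 1 : ℕ) : ℂ) ≠ 0 := Nat.cast_ne_zero.2 (Nat.succ_ne_zero k)
      have h5 : ((k.factorial : ℕ) : ℂ) ≠ 0 := Nat.cast_ne_zero.2 (Nat.factorial_ne_zero k)
      rw [Nat.cast_mul]
      field_simp
    rw [h2]
    apply HasDerivAt.fun_sum
    intro k _
    exact ((hasDerivAt_pow k t).div_const _).mul_const _
  · refine ⟨∑ k ∈ Finset.range (K + 1), Polynomial.C ((β ^ k) i j / (k.factorial : ℂ)) *
      Polynomial.X ^ k, fun x => ?_⟩
    rw [hex, Polynomial.eval_finsetSum]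
    refine Finset.sum_congr rfl fun k _ => ?_
    rw [Polynomial.eval_mul, Polynomial.eval_C, Polynomial.eval_pow, Polynomial.eval_X]
    ring

theorem pmat_off {r : ℕ} {lam : Fin r → ℂ → Matrix (Fin n) (Fin n) ℂ}
    {I : Ideal (MvPolynomial (Fin n × Fin n) ℂ)} {q : MvPolynomial (Fin n × Fin n) ℂ}
    (hs : ∀ i x V, ZI I V → ZI I (V * lam i x) ∧
      (eval (mv V) q ≠ 0 → eval (mv (V * lam i x)) q ≠ 0))
    (t : Fin r → ℂ) (ks : List (Fin r)) :
    ∀ V, ZI I V → ZI I (V * pmat lam t ks) ∧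
      (eval (mv V) q ≠ 0 → eval (mv (V * pmat lam t ks)) q ≠ 0) := by
  induction ks with
  | nil =>
    intro V hV
    rw [pmat, Matrix.mul_one]
    exact ⟨hV, fun h => h⟩
  | cons i ks ih =>
    intro V hV
    obtain ⟨h1, h2⟩ := hs i (t i) V hV
    obtain ⟨h3, h4⟩ := ih _ h1
    rw [pmat, ← Matrix.mul_assoc]
    exact ⟨h3, fun h => h4 (h2 h)⟩

/-- **Maps from affine spaces, the static part.** -/
theorem static_aff {d : ℕ} {I : Ideal (MvPolynomial (Fin n × Fin n) ℂ)}
    {V0 : Matrix (Fin n) (Fin n) ℂ} (hV0 : ZI I V0)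
    (Φ : Fin (N + 1) → MvPolynomial (Fin n × Fin n) ℂ)
    (κ : Fin (d + 1) → Fin (N + 1))
    {Q : MvPolynomial (Fin (N + 1)) ℂ}
    (hQ0 : eval (mv V0) (bind₁ Φ Q) ≠ 0) (β : Fin d → Matrix (Fin n) (Fin n) ℂ)
    {K : ℕ} (hK : ∀ i, β i ^ K = 0)
    (hβ : ∀ i, ∀ P ∈ I, Dc (β i) P ∈ I)
    (hγ : ∀ i, ∃ γ : ℂ, Dc (β i) (bind₁ Φ Q) - C γ * bind₁ Φ Q ∈ I)
    (hl0 : eval (mv V0) (Φ (κ 0)) ≠ 0) (c : Fin d → ℂ) (hc : ∀ i, c i ≠ 0)
    (hmat : ∀ i i', eval (mv V0) (Dc (β i) (Φ (κ (Fin.succ i')))) * eval (mv V0) (Φ (κ 0)) -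
      eval (mv V0) (Φ (κ (Fin.succ i'))) * eval (mv V0) (Dc (β i) (Φ (κ 0))) =
        if i = i' then c i else 0) :
    ∃ w : Fin (N + 1) → MvPolynomial (Fin d) ℂ,
      (∀ j, eval (fun _ => 1) (w j) = eval (mv V0) (Φ j)) ∧
      (∀ G : MvPolynomial (Fin (N + 1)) ℂ, bind₁ Φ G ∈ I → aeval w G = 0) ∧
      (∀ (D : ℕ) (G : MvPolynomial (Fin (d + 1)) ℂ), G.IsHomogeneous D →
        aeval (fun j => w (κ j)) G = 0 → G = 0) ∧
      ∀ t : Fin d → ℂ, eval t (aeval w Q) ≠ 0 := by
  classical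
  choose ex hex hexp using fun i => exists_nilexp (hK i)
  let lam : Fin d → ℂ → Matrix (Fin n) (Fin n) ℂ := fun i x => ex i (x - 1)
  have hlam : ∀ k i j, ∃ P : Polynomial ℂ, ∀ x, lam k x i j = P.eval x := by
    intro k i j
    obtain ⟨P, hP⟩ := hexp k i j
    refine ⟨P.comp (Polynomial.X - Polynomial.C 1), fun x => ?_⟩
    rw [Polynomial.eval_comp, Polynomial.eval_sub, Polynomial.eval_X, Polynomial.eval_C]
    exact hP _
  have hlam1 : ∀ k, lam k 1 = 1 := by
    intro k
    simp only [lam, sub_self]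
    exact (hex k).zero
  have hlamd : ∀ k i j, HasDerivAt (fun x => lam k x i j) (β k i j) 1 := by
    intro k i j
    have h1 := (hex k).der (1 - 1) i j
    rw [sub_self, (hex k).zero, Matrix.one_mul] at h1
    have h2 : HasDerivAt (fun x : ℂ => x - 1) 1 1 := (hasDerivAt_id' 1).sub_const 1
    have h3 : HasDerivAt (fun s => ex k s i j) (β k i j) ((fun x : ℂ => x - 1) 1) := by
      simpa using h1
    have h4 := HasDerivAt.comp (h := fun x : ℂ => x - 1) (h₂ := fun s => ex k s i j) (1 : ℂ) h3 h2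
    rw [mul_one] at h4
    exact h4
  have hflow : ∀ k V, ZI I V → ∀ t, ZI I (V * ex k t) := fun k V hV t P hP =>
    flow_ideal (hex k) V I (hβ k) hV P hP t
  have hoff : ∀ k V, ZI I V → ∀ t, ∃ γ : ℂ,
      eval (mv (V * ex k t)) (bind₁ Φ Q) = eval (mv V) (bind₁ Φ Q) * Complex.exp (γ * t) := by
    intro k V hV t
    obtain ⟨γ, hγ0⟩ := hγ k
    refine ⟨γ, ?_⟩
    have h1 : ∀ t, HasDerivAt
        (fun t => eval (mv (V * ex k t)) (bind₁ Φ Q) * Complex.exp (-γ * t)) 0 t := by
      intro t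
      have h2 := (hex k).hasDerivAt V (bind₁ Φ Q) t
      have h3 : HasDerivAt (fun t : ℂ => Complex.exp (-γ * t)) (Complex.exp (-γ * t) * (-γ)) t := by
        have := ((hasDerivAt_id t).const_mul (-γ)).cexp
        simpa using this
      refine (h2.mul h3).congr_deriv ?_
      have h4 := hflow k V hV t _ hγ0
      rw [map_sub, map_mul, eval_C, sub_eq_zero] at h4
      rw [h4]
      ring
    have h5 := is_const_of_deriv_eq_zero (fun t => (h1 t).differentiableAt)
      (fun t => (h1 t).deriv) t 0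
    simp only [(hex k).zero, mul_zero, Complex.exp_zero, mul_one] at h5
    rw [← h5, mul_assoc, ← Complex.exp_add]
    simp
  have hs : ∀ k x V, ZI I V → ZI I (V * lam k x) ∧
      (eval (mv V) (bind₁ Φ Q) ≠ 0 → eval (mv (V * lam k x)) (bind₁ Φ Q) ≠ 0) := by
    intro k x V hV
    refine ⟨hflow k V hV _, fun h => ?_⟩
    obtain ⟨γ, h1⟩ := hoff k V hV (x - 1)
    rw [h1]
    exact mul_ne_zero h (Complex.exp_ne_zero _)
  obtain ⟨w, hw1, hw2, hw3⟩ := exists_wp hlam hlam1 hlamd V0 Φ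
  have hZ := fun t : Fin d → ℂ => pmat_off hs t (List.finRange d) V0 hV0
  have heval : ∀ (G : MvPolynomial (Fin (N + 1)) ℂ) (t : Fin d → ℂ), eval t (aeval w G) =
      eval (mv (V0 * pmat lam t (List.finRange d))) (bind₁ Φ G) := by
    intro G t
    have h1 := MvPolynomial.comp_aeval_apply (f := w)
      (MvPolynomial.aeval t : MvPolynomial (Fin d) ℂ →ₐ[ℂ] ℂ) G
    have h2 : (fun j => (MvPolynomial.aeval t : MvPolynomial (Fin d) ℂ →ₐ[ℂ] ℂ) (w j)) =
        fun j => eval (mv (V0 * pmat lam t (List.finRange d))) (Φ j) := by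
      funext j
      rw [MvPolynomial.aeval_eq_eval]
      exact hw1 t j
    rw [h2] at h1
    rw [← MvPolynomial.aeval_eq_eval, h1, eval_bind, MvPolynomial.aeval_eq_eval]
  have hwl : w (κ 0) ≠ 0 := by
    intro h0
    apply hl0
    have h1 := hw2 (κ 0)
    rw [h0, map_zero] at h1
    exact h1.symm
  refine ⟨w, hw2, fun G hG => ?_, ?_, fun t => ?_⟩
  · apply MvPolynomial.funext
    intro t
    rw [heval, (hZ t).1 _ hG, map_zero]
  · refine jac (fun j => w (κ j)) (fun _ => 1) hwl (fun i k' => if i = k' then (c i)⁻¹ else 0) ?_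
    intro i i'
    rw [Finset.sum_eq_single i]
    · rw [if_pos rfl, map_sub, map_mul, map_mul, hw3, hw3, hw2, hw2, mul_comm (eval (mv V0) _)
        (eval (mv V0) (Dc (β i) (Φ (κ 0))))]
      have h1 := hmat i i'
      rw [mul_comm (eval (mv V0) (Φ (κ (Fin.succ i'))))] at h1
      rw [h1]
      split_ifs
      · exact inv_mul_cancel₀ (hc i)
      · rw [mul_zero]
    · intro k' _ hk
      rw [if_neg (Ne.symm hk), zero_mul]
    · intro h
      exact absurd (Finset.mem_univ i) h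
  · rw [heval]
    exact (hZ t).2 hQ0

end Pool.Agent.N626
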