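import Pool.Agent.N626.Ta

/-!
Maps from affine spaces with images of large dimension through the points of local curves given by
nilpotent linear differential equations.
-/

set_option autoImplicit false

namespace Pool.Agent.N626

open MvPolynomial Metric Set Filter Topology Pool.Agent.TH143 Pool.Agent.TH143.DE

variable {N n : ℕ}

theorem tri_of_mul {ρ : Fin n → ℕ} {U β : Matrix (Fin n) (Fin n) ℂ}
    (hU : ∀ i k, ρ i ≤ ρ k → U i k = if i = k then 1 else 0)
    (h : ∀ i k, ρ i ≤ ρ k → (U * β) i k = 0) (i k : Fin n) (hik : ρ i ≤ ρ k) : β i k = 0 := by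
  classical
  have key : ∀ m, ∀ i, ρ i = m → ∀ k, ρ i ≤ ρ k → β i k = 0 := by
    intro m
    induction m using Nat.strong_induction_on with
    | _ m ih =>
      intro i hi k hik
      have h1 := h i k hik
      rw [Matrix.mul_apply, Finset.sum_eq_single i] at h1
      · rw [hU i i le_rfl, if_pos rfl, one_mul] at h1
        exact h1
      · intro l _ hl
        rcases le_or_gt (ρ i) (ρ l) with h2 | h2
        · rw [hU i l h2, if_neg (Ne.symm hl), zero_mul]
        · rw [ih (ρ l) (hi ▸ h2) l rfl k (h2.le.trans hik), mul_zero]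
      · intro h2
        exact absurd (Finset.mem_univ i) h2
  exact key _ i rfl k hik

theorem pow_of_tri {ρ : Fin n → ℕ} {β : Matrix (Fin n) (Fin n) ℂ}
    (h : ∀ i k, ρ i ≤ ρ k → β i k = 0) {K : ℕ} (hK : ∀ i, ρ i < K) : β ^ K = 0 := by
  have key : ∀ m i k, (β ^ m) i k ≠ 0 → ρ k + m ≤ ρ i := by
    intro m
    induction m with
    | zero =>
      intro i k hik
      rw [pow_zero] at hik
      have h1 : i = k := by
        by_contra hne
        exact hik (Matrix.one_apply_ne hne)
      rw [h1, add_zero]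
    | succ m ih =>
      intro i k hik
      rw [pow_succ, Matrix.mul_apply] at hik
      obtain ⟨l, -, hl⟩ := Finset.exists_ne_zero_of_sum_ne_zero hik
      have h1 := ih i l (left_ne_zero_of_mul hl)
      have h2 : ρ k < ρ l := by
        by_contra hcon
        exact right_ne_zero_of_mul hl (h l k (not_lt.1 hcon))
      omega
  ext i k
  by_contra hcon
  have h1 := key K i k hcon
  have h2 := hK i
  omega

theorem sweep_local_aff {S : Set ℂ} (hS : IsOpen S) (hSc : IsPreconnected S) (hne : S.Nonempty)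
    {ι : Type} (b : ι → ℂ → ℂ) (hb : ∀ i, AnalyticOnNhd ℂ (b i) S) (d : ι → ι)
    (hd : ∀ i, ∀ z ∈ S, HasDerivAt (b i) (b (d i) z) z)
    (A : Fin n → Fin n → ι) (U : ℂ → Matrix (Fin n) (Fin n) ℂ)
    (hU : ∀ z ∈ S, ∀ i j, HasDerivAt (fun w => U w i j) (∑ k, b (A i k) z * U z k j) z)
    (hdet : ∀ z ∈ S, (U z).det ≠ 0) (ρ : Fin n → ℕ)
    (hnil : ∀ z ∈ S, ∀ i k, ρ i ≤ ρ k → U z i k = if i = k then 1 else 0)
    (B : Subalgebra ℂ (Hol S)) (hB : ∀ i, toHol (b i) (hb i) ∈ B)
    (Φ : Fin (N + 1) → MvPolynomial (Fin n × Fin n) ℂ)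
    {dd : ℕ} (κ : Fin (dd + 1) → Fin (N + 1))
    (hind : ∀ (D : ℕ) (P : MvPolynomial (Fin (dd + 1)) B), P.IsHomogeneous D →
      (∀ z : S, eval (fun i => eval (mv (U z)) (Φ (κ i))) (atz z P) = 0) → P = 0)
    {Q : MvPolynomial (Fin (N + 1)) ℂ} (iq : ι)
    (hQ : ∀ z ∈ S, eval (mv (U z)) (bind₁ Φ Q) ≠ 0)
    (hQ' : ∀ z ∈ S, HasDerivAt (fun w => eval (mv (U w)) (bind₁ Φ Q))
      (b iq z * eval (mv (U z)) (bind₁ Φ Q)) z) :
    ∃ T : Hol S, T ≠ 0 ∧ ∀ s : S, evz s T ≠ 0 →
      ∃ w : Fin (N + 1) → MvPolynomial (Fin dd) ℂ,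
      (∀ j, eval (fun _ => 1) (w j) = eval (mv (U s)) (Φ j)) ∧
      (∀ G : MvPolynomial (Fin (N + 1)) ℂ,
        (∀ z ∈ S, eval (mv (U z)) (bind₁ Φ G) = 0) → aeval w G = 0) ∧
      (∀ (D : ℕ) (G : MvPolynomial (Fin (dd + 1)) ℂ), G.IsHomogeneous D →
        aeval (fun j => w (κ j)) G = 0 → G = 0) ∧
      ∀ t : Fin dd → ℂ, eval t (aeval w Q) ≠ 0 := by
  classical
  set v := vv b U with hv
  -- the system
  have hsol : Sol (EE d A) v S := by
    intro z hz l
    rcases l with i | ⟨i, j⟩
    · have := hd i z hz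
      simpa [EE, v, vv] using this
    · have := hU z hz i j
      simpa [EE, v, vv] using this
  have hvan : ∀ l, AnalyticOnNhd ℂ (fun z => v z l) S := by
    intro l
    have := hsol.analytic hS (X l)
    simpa using this
  let V : ι ⊕ (Fin n × Fin n) → Hol S := fun l => toHol (fun z => v z l) (hvan l)
  have hVe : ∀ (z : S), (fun l => evz z (V l)) = v z := fun z => rfl
  have hVP : ∀ (z : S) (P : MvPolynomial (ι ⊕ (Fin n × Fin n)) ℂ),
      evz z (aeval V P) = eval (v z) P := by
    intro z P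
    have h4 := MvPolynomial.comp_aeval_apply (f := V) (evz z) P
    rw [h4, ← MvPolynomial.aeval_eq_eval]
    rfl
  have hrel : ∀ P, Rel v S P ↔ aeval V P = 0 := by
    intro P
    constructor
    · intro h
      exact hol_ext fun z => by rw [hVP, map_zero]; exact h z z.2
    · intro h z hz
      rw [← hVP ⟨z, hz⟩, h, map_zero]
  have hvr : ∀ (z : ℂ) (P : MvPolynomial (Fin n × Fin n) ℂ),
      eval (v z) (rename Sum.inr P) = eval (mv (U z)) P := by
    intro z P
    rw [eval_rename]
    rfl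
  let Ψ : Fin (N + 1) → MvPolynomial (ι ⊕ (Fin n × Fin n)) ℂ := fun j => rename Sum.inr (Φ j)
  have hΨ : ∀ (z : S) j, evz z (aeval V (Ψ j)) = eval (mv (U z)) (Φ j) := by
    intro z j
    rw [hVP, hvr]
  have hdomS : IsDomain (Hol S) := hol_domain hSc hne
  have hntB : Nontrivial B := inferInstance
  have hP0 : ∀ (D : ℕ) (P : MvPolynomial (Fin (dd + 1)) B), P.IsHomogeneous D →
      aeval (fun i => aeval V (Ψ (κ i))) P = 0 → P = 0 := by
    intro D P hP h0
    apply hind D P hP
    intro z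
    have h2 := congrArg (evz z) h0
    rw [map_zero, evz_aeval] at h2
    rw [← h2]
    congr 1
    congr 1
    funext j
    exact (hΨ z (κ j)).symm
  have hwl : aeval V (Ψ (κ 0)) ≠ 0 := by
    intro h0
    have h1 := hP0 1 (X 0) (isHomogeneous_X _ _) (by rw [aeval_X]; exact h0)
    exact X_ne_zero 0 h1
  obtain ⟨T, hT, hTs⟩ := all_tangents hSc hne B V (fun i => hB i) (Ψ (κ 0))
    (fun i => Ψ (κ (Fin.succ i))) hwl (by
      intro D P hP h0
      apply hP0 D P hP
      rw [← h0]
      congr 2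
      funext j
      refine Fin.cases ?_ (fun j => ?_) j
      · rfl
      · rfl)
  refine ⟨T, hT, fun s hs => ?_⟩
  obtain ⟨M, c, hc, hsl, hM⟩ := hTs s hs
  set β : Fin dd → Matrix (Fin n) (Fin n) ℂ := fun i =>
    (U s)⁻¹ * Matrix.of fun i' j => M i (i', j) with hβ
  have hUβ : ∀ i, ∀ p : Fin n × Fin n, (U s * β i) p.1 p.2 = M i p := by
    intro i p
    rw [hβ, ← Matrix.mul_assoc, Matrix.mul_nonsing_inv _ ((hdet s s.2).isUnit), Matrix.one_mul]
    rfl
  have hMi := fun i => hM i (WW (β i)) (fun i => by simp [WW]) (fun p => by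
    rw [← hUβ, Matrix.mul_apply]
    simp only [WW, Sum.elim_inr, map_sum, map_mul, eval_X, eval_C]
    rfl)
  rw [hVe] at hMi
  -- nilpotency
  obtain ⟨K, hK⟩ : ∃ K, ∀ i, ρ i < K := ⟨(∑ i, ρ i) + 1, fun i =>
    Nat.lt_succ_of_le (Finset.single_le_sum (fun _ _ => Nat.zero_le _) (Finset.mem_univ i))⟩
  have hβK : ∀ i, β i ^ K = 0 := by
    intro i
    refine pow_of_tri (fun i' k' hik => ?_) hK
    refine tri_of_mul (hnil s s.2) (fun i' k' hik => ?_) i' k' hik
    have h1 : Rel v S (X (Sum.inr (i', k')) - C (if i' = k' then 1 else 0)) := by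
      intro z hz
      rw [map_sub, eval_X, eval_C]
      have h2 := hnil z hz i' k' hik
      have h3 : v z (Sum.inr (i', k')) = U z i' k' := rfl
      rw [h3, h2, sub_self]
    have h2 := (hMi i).1 _ ((hrel _).mp h1)
    rw [map_sub, derivation_C, sub_zero, mkDerivation_X] at h2
    rw [Matrix.mul_apply]
    rw [← h2]
    simp only [WW, Sum.elim_inr, map_sum, map_mul, eval_X, eval_C]
    rfl
  have hδ : ∀ i P, Rel v S P → Rel v S (mkDerivation ℂ (WW (β i)) P) := fun i =>
    rel_of_point hS hSc hsol (comm_EW d A (β i)) s.2 (fun P hP => (hMi i).1 P ((hrel P).mp hP))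
  -- the boundary
  set qq := rename (Sum.inr : Fin n × Fin n → ι ⊕ (Fin n × Fin n)) (bind₁ Φ Q) with hqq
  have hqe : ∀ z, eval (v z) qq = eval (mv (U z)) (bind₁ Φ Q) := fun z => hvr z _
  have hR1 : Rel v S (mkDerivation ℂ (EE d A) qq - X (Sum.inl iq) * qq) := by
    intro s hs
    have h1 := hasDerivAt_sol (EE d A) v s (hsol s hs) qq
    have h2 := hQ' s hs
    simp only [← hqe] at h2
    have h3 := h1.unique h2
    rw [map_sub, map_mul, h3, eval_X]
    exact sub_self _
  have hγ : ∀ i, ∃ γ : ℂ, Rel v S (mkDerivation ℂ (WW (β i)) qq - C γ * qq) := by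
    intro i
    have hR2 : Rel v S (mkDerivation ℂ (EE d A) (mkDerivation ℂ (WW (β i)) qq)
        - X (Sum.inl iq) * mkDerivation ℂ (WW (β i)) qq) := by
      have h1 := hδ i _ hR1
      rw [map_sub, Derivation.leibniz, mkDerivation_X, ← comm_of_X (comm_EW d A (β i))] at h1
      simpa [WW] using h1
    have hqn : ∀ s ∈ S, eval (v s) qq ≠ 0 := fun s hs => by rw [hqe]; exact hQ s hs
    have h1 : ∀ s ∈ S, HasDerivAt
        (fun s => eval (v s) (mkDerivation ℂ (WW (β i)) qq) / eval (v s) qq) 0 s := by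
      intro s hs
      have h2 := hasDerivAt_sol (EE d A) v s (hsol s hs) (mkDerivation ℂ (WW (β i)) qq)
      have h3 := hasDerivAt_sol (EE d A) v s (hsol s hs) qq
      refine (h2.div h3 (hqn s hs)).congr_deriv ?_
      have h4 := hR1 s hs
      have h5 := hR2 s hs
      rw [map_sub, map_mul, eval_X, sub_eq_zero] at h4 h5
      rw [h4, h5, div_eq_zero_iff]
      left
      ring
    refine ⟨eval (v s) (mkDerivation ℂ (WW (β i)) qq) / eval (v s) qq, ?_⟩
    intro z hz
    have h6 : eval (v z) (mkDerivation ℂ (WW (β i)) qq) / eval (v z) qq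
        = eval (v s) (mkDerivation ℂ (WW (β i)) qq) / eval (v s) qq := by
      have h7 : DifferentiableOn ℂ
          (fun s => eval (v s) (mkDerivation ℂ (WW (β i)) qq) / eval (v s) qq) S :=
        fun s hs => (h1 s hs).differentiableAt.differentiableWithinAt
      have h8 : EqOn (deriv
          (fun s => eval (v s) (mkDerivation ℂ (WW (β i)) qq) / eval (v s) qq)) 0 S :=
        fun s hs => (h1 s hs).deriv
      exact hS.is_const_of_deriv_eq_zero hSc h7 h8 hz s.2
    rw [map_sub, map_mul, eval_C, ← h6, div_mul_cancel₀ _ (hqn z hz), sub_self]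
  -- specialisation at the point `s`
  let sp : MvPolynomial (ι ⊕ (Fin n × Fin n)) ℂ →ₐ[ℂ] MvPolynomial (Fin n × Fin n) ℂ :=
    aeval (Sum.elim (fun i => C (b i s)) X)
  have hspr : ∀ P, sp (rename Sum.inr P) = P := by
    intro P
    change aeval _ (rename Sum.inr P) = P
    rw [aeval_rename]
    exact aeval_X_left_apply P
  have hsps : Function.Surjective sp := fun P => ⟨rename Sum.inr P, hspr P⟩
  have hspe : ∀ P, eval (mv (U s)) (sp P) = eval (v s) P := by
    intro P
    have h4 := MvPolynomial.comp_aeval_apply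
      (f := (Sum.elim (fun i => C (b i s)) X : ι ⊕ (Fin n × Fin n) →
        MvPolynomial (Fin n × Fin n) ℂ))
      (MvPolynomial.aeval (mv (U s)) : MvPolynomial (Fin n × Fin n) ℂ →ₐ[ℂ] ℂ) P
    rw [← MvPolynomial.aeval_eq_eval, ← MvPolynomial.aeval_eq_eval]
    refine h4.trans ?_
    congr 1
    congr 1
    funext j
    rcases j with i | j
    · simp [v, vv]
    · simp [v, vv, mv]
  have hspD : ∀ (γ : Matrix (Fin n) (Fin n) ℂ) (P : MvPolynomial (ι ⊕ (Fin n × Fin n)) ℂ),
      sp (mkDerivation ℂ (WW γ) P) = Dc γ (sp P) := by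
    intro γ P
    induction P using MvPolynomial.induction_on with
    | C c =>
      rw [derivation_C, map_zero]
      have h1 : sp (C c) = C c := algHom_C _ _
      rw [h1, derivation_C]
    | add p q hp hq => rw [map_add, map_add, map_add, map_add, hp, hq]
    | mul_X p j hp =>
      rw [Derivation.leibniz, mkDerivation_X, map_mul, Derivation.leibniz, map_add, smul_eq_mul,
        smul_eq_mul, smul_eq_mul, smul_eq_mul, map_mul, map_mul, hp]
      congr 2
      rcases j with i | j
      · have h1 : sp (X (Sum.inl i)) = C (b i s) := by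
          change aeval _ (X (Sum.inl i)) = _
          rw [aeval_X]
          rfl
        rw [h1, derivation_C]
        simp [WW]
      · have h1 : sp (X (Sum.inr j)) = X j := by
          change aeval _ (X (Sum.inr j)) = _
          rw [aeval_X]
          rfl
        rw [h1]
        unfold Dc
        rw [mkDerivation_X]
        simp only [WW, Wc, Sum.elim_inr, map_sum, map_mul]
        refine Finset.sum_congr rfl fun k _ => ?_
        have h2 : sp (X (Sum.inr (j.1, k))) = X (j.1, k) := by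
          change aeval _ (X (Sum.inr (j.1, k))) = _
          rw [aeval_X]
          rfl
        have h3 : sp (C (γ k j.2)) = C (γ k j.2) := algHom_C _ _
        rw [h2, h3]
  let J : Ideal (MvPolynomial (ι ⊕ (Fin n × Fin n)) ℂ) := RingHom.ker (aeval V).toRingHom
  have hJ : ∀ P, P ∈ J ↔ Rel v S P := fun P => by
    rw [hrel]
    exact RingHom.mem_ker
  let I : Ideal (MvPolynomial (Fin n × Fin n) ℂ) := J.map sp.toRingHom
  have hI : ∀ P, P ∈ I ↔ ∃ P', Rel v S P' ∧ sp P' = P := by
    intro P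
    rw [Ideal.mem_map_iff_of_surjective sp.toRingHom hsps]
    constructor
    · rintro ⟨P', h1, h2⟩
      exact ⟨P', (hJ P').1 h1, h2⟩
    · rintro ⟨P', h1, h2⟩
      exact ⟨P', (hJ P').2 h1, h2⟩
  obtain ⟨w, e1, e2, e3, e4⟩ := static_aff (V0 := U s) (I := I) (fun P hP => by
      obtain ⟨P', h1, h2⟩ := (hI P).1 hP
      rw [← h2, hspe]
      exact h1 s s.2) Φ κ (hQ s s.2) β hβK (fun i P hP => by
      obtain ⟨P', h1, h2⟩ := (hI P).1 hP
      rw [hI]
      exact ⟨_, hδ i P' h1, by rw [hspD, h2]⟩) (fun i => by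
      obtain ⟨γ, h1⟩ := hγ i
      refine ⟨γ, (hI _).2 ⟨_, h1, ?_⟩⟩
      rw [map_sub, map_mul, hspD, hqq, hspr]
      have h3 : sp (C γ) = C γ := algHom_C _ _
      rw [h3]) (by
      have h1 := hsl
      rw [hΨ] at h1
      exact h1) (fun _ => c) (fun _ => hc) (fun i i' => by
      have h1 := (hMi i).2 i'
      rw [← hspe, ← hspe, ← hspe, ← hspe, hspD, hspD] at h1
      simp only [Ψ] at h1
      rw [hspr, hspr] at h1
      exact h1)
  refine ⟨w, e1, fun G hGz => e2 G ?_, e3, e4⟩
  rw [hI]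
  refine ⟨rename Sum.inr (bind₁ Φ G), fun z hz => ?_, hspr _⟩
  rw [hvr]
  exact hGz z hz

end Pool.Agent.N626
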