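import Pool.Agent.N626.Tb

/-!
Maps from affine spaces with images of large dimension through the points of curves given by
nilpotent linear differential equations.
-/

set_option autoImplicit false

namespace Pool.Agent.N626

open MvPolynomial Metric Set Filter Topology Pool.Agent.TH143 Pool.Agent.TH143.DE

variable {N n : ℕ} {Ω : Set ℂ} {B : Subalgebra ℂ (ℂ → ℂ)}

theorem sweep_gen_aff (hΩc : IsPreconnected Ω) (hB : DiffRing Ω B)
    (f : ℂ → Fin (N + 1) → ℂ)
    (hf : ∀ j, AnalyticOnNhd ℂ (fun w => f w j) Ω)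
    (A : Fin n → Fin n → ℂ → ℂ) (hA : ∀ i k, A i k ∈ B) (ρ : Fin n → ℕ)
    (hAρ : ∀ i k, ρ i ≤ ρ k → A i k = 0) (y : ℂ → Fin n → ℂ)
    (hy : ∀ z ∈ Ω, ∀ i, HasDerivAt (fun w => y w i) (∑ k, A i k z * y z k) z)
    (L : Fin (N + 1) → Fin n → ℂ) (hfL : ∀ z ∈ Ω, ∀ j, f z j = ∑ k, L j k * y z k)
    {e : ℕ} (κ : Fin (e + 1) → Fin (N + 1)) (hgen : GenOver Ω B ⊥ fun z i => f z (κ i))
    {Q : MvPolynomial (Fin (N + 1)) ℂ}
    (hQ0 : ∃ z ∈ Ω, eval (f z) Q ≠ 0) {bq cq : ℂ → ℂ} (hbq : bq ∈ B) (hcq : cq ∈ B)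
    (hb0 : ∃ z ∈ Ω, bq z ≠ 0)
    (hlog : ∀ z ∈ Ω, bq z * deriv (fun w => eval (f w) Q) z = cq z * eval (f z) Q)
    {V : Set ℂ} (hVΩ : V ⊆ Ω) (hVo : IsOpen V) (hVn : V.Nonempty) :
    ∃ z ∈ V, ∃ w : Fin (N + 1) → MvPolynomial (Fin e) ℂ,
      (∀ j, eval (fun _ => 1) (w j) = f z j) ∧
      (∀ G : MvPolynomial (Fin (N + 1)) ℂ, (∀ z ∈ Ω, eval (f z) G = 0) → aeval w G = 0) ∧
      (∀ (D : ℕ) (G : MvPolynomial (Fin (e + 1)) ℂ), G.IsHomogeneous D →
        aeval (fun j => w (κ j)) G = 0 → G = 0) ∧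
      ∀ t : Fin e → ℂ, eval t (aeval w Q) ≠ 0 := by
  classical
  have hQan := eval_form_an hf Q
  let s : ℂ → ℂ := bq
  have hsB : s ∈ B := hbq
  have hsan := hB.an s hsB
  obtain ⟨z0, hz0V, hz0'⟩ : ∃ z ∈ V, s z * eval (f z) Q ≠ 0 := by
    by_contra hcon
    push Not at hcon
    obtain ⟨v0, hv0⟩ := hVn
    have h1 : EqOn (fun z => s z * eval (f z) Q) 0 Ω :=
      (hsan.mul hQan).eqOn_zero_of_preconnected_of_eventuallyEq_zero hΩc (hVΩ hv0) (by
        filter_upwards [hVo.mem_nhds hv0] with z hz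
        exact hcon z hz)
    obtain ⟨z, hz, hz'⟩ : ∃ z ∈ Ω, s z * eval (f z) Q ≠ 0 := common_nz hΩc hsan hQan hb0 hQ0
    exact hz' (h1 hz)
  have hz0 : z0 ∈ Ω := hVΩ hz0V
  have hsz0 : s z0 ≠ 0 := left_ne_zero_of_mul hz0'
  have hQz0 : eval (f z0) Q ≠ 0 := right_ne_zero_of_mul hz0'
  set Ω' := {z ∈ V | s z ≠ 0 ∧ eval (f z) Q ≠ 0} with hΩ'
  have hΩ'o : IsOpen Ω' := by
    rw [isOpen_iff_mem_nhds]
    intro z hz
    filter_upwards [hVo.mem_nhds hz.1, (hsan z (hVΩ hz.1)).continuousAt.eventually_ne hz.2.1,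
      (hQan z (hVΩ hz.1)).continuousAt.eventually_ne hz.2.2] with w h2 h3 h4
    exact ⟨h2, h3, h4⟩
  choose! der hderB hder using hB.der
  have hAan : ∀ i k, AnalyticOnNhd ℂ (fun z => A i k z) Ω' := fun i k z hz =>
    hB.an _ (hA i k) z (hVΩ hz.1)
  obtain ⟨r, hr, hrS, U0, hU0, hdet0⟩ := exists_fund hΩ'o
    (fun z => Matrix.of fun i k => A i k z) (fun i k => by
      simpa only [Matrix.of_apply] using hAan i k)
    (show z0 ∈ Ω' from ⟨hz0V, hsz0, hQz0⟩)
  set S := ball z0 r with hS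
  have hz0S : z0 ∈ S := mem_ball_self hr
  have hSo : IsOpen S := isOpen_ball
  have hSc : IsPreconnected S := (convex_ball z0 r).isPreconnected
  have hSs : ∀ z ∈ S, s z ≠ 0 := fun z hz => (hrS hz).2.1
  have hSQ : ∀ z ∈ S, eval (f z) Q ≠ 0 := fun z hz => (hrS hz).2.2
  have hSV : S ⊆ V := fun z hz => (hrS hz).1
  have hSΩ : S ⊆ Ω := fun z hz => hVΩ (hSV hz)
  -- normalisation
  let U : ℂ → Matrix (Fin n) (Fin n) ℂ := fun z => U0 z * (U0 z0)⁻¹
  have hU1 : U z0 = 1 := Matrix.mul_nonsing_inv _ ((hdet0 z0 hz0S).isUnit)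
  have hdet : ∀ z ∈ S, (U z).det ≠ 0 := by
    intro z hz
    simp only [U, Matrix.det_mul]
    refine mul_ne_zero (hdet0 z hz) ?_
    rw [Matrix.det_nonsing_inv, Ring.inverse_eq_inv']
    exact inv_ne_zero (hdet0 z0 hz0S)
  have hU : ∀ z ∈ S, ∀ i j, HasDerivAt (fun w => U w i j) (∑ k, A i k z * U z k j) z := by
    intro z hz i j
    have h1 : (fun w => U w i j) = fun w => ∑ l, U0 w i l * (U0 z0)⁻¹ l j := by
      funext w
      exact Matrix.mul_apply
    rw [h1]
    have h2 : HasDerivAt (fun w => ∑ l, U0 w i l * (U0 z0)⁻¹ l j)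
        (∑ l, (∑ k, A i k z * U0 z k l) * (U0 z0)⁻¹ l j) z := by
      apply HasDerivAt.fun_sum
      intro l _
      have h3 := hU0 z hz i l
      rw [Matrix.mul_apply] at h3
      exact h3.mul_const _
    refine h2.congr_deriv ?_
    simp only [U, Matrix.mul_apply, Finset.sum_mul, Finset.mul_sum]
    rw [Finset.sum_comm]
    refine Finset.sum_congr rfl fun k _ => Finset.sum_congr rfl fun l _ => ?_
    ring
  have hnil : ∀ z ∈ S, ∀ i k, ρ i ≤ ρ k → U z i k = if i = k then 1 else 0 := by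
    have key : ∀ m, ∀ i, ρ i = m → ∀ k, ρ i ≤ ρ k → ∀ z ∈ S,
        U z i k = if i = k then 1 else 0 := by
      intro m
      induction m using Nat.strong_induction_on with
      | _ m ih =>
        intro i hi k hik z hz
        have h1 : ∀ z ∈ S, HasDerivAt (fun w => U w i k) 0 z := by
          intro z hz
          refine (hU z hz i k).congr_deriv ?_
          apply Finset.sum_eq_zero
          intro l _
          rcases le_or_gt (ρ i) (ρ l) with h2 | h2
          · rw [hAρ i l h2, Pi.zero_apply, zero_mul]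
          · have h3 : l ≠ k := by
              rintro rfl
              omega
            rw [ih (ρ l) (hi ▸ h2) l rfl k (h2.le.trans hik) z hz, if_neg h3, mul_zero]
        have h7 : DifferentiableOn ℂ (fun w => U w i k) S :=
          fun z hz => (h1 z hz).differentiableAt.differentiableWithinAt
        have h8 : EqOn (deriv (fun w => U w i k)) 0 S := fun z hz => (h1 z hz).deriv
        have h9 := hSo.is_const_of_deriv_eq_zero hSc h7 h8 hz hz0S
        have h10 : U z i k = U z0 i k := h9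
        rw [h10, hU1, Matrix.one_apply]
    exact fun z hz i k hik => key _ i rfl k hik z hz
  set c : Fin n → ℂ := y z0 with hc
  have hyU : ∀ z ∈ S, ∀ i, y z i = ∑ l, U z i l * c l := by
    have h2 := sol_zero (a := z0) (r := r) (fun i k z => A i k z)
      (fun i k => (hAan i k).mono hrS)
      (fun z i => y z i - ∑ l, U z i l * c l) (by
        intro z hz i
        have h3 := hy z (hSΩ hz) i
        have h4 : HasDerivAt (fun z => ∑ l, U z i l * c l)
            (∑ l, (∑ k, A i k z * U z k l) * c l) z := by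
          apply HasDerivAt.fun_sum
          intro l _
          exact (hU z hz i l).mul_const (c l)
        refine (h3.fun_sub h4).congr_deriv ?_
        simp only [mul_sub, Finset.sum_sub_distrib, Finset.sum_mul, Finset.mul_sum]
        congr 1
        rw [Finset.sum_comm]
        refine Finset.sum_congr rfl fun k _ => Finset.sum_congr rfl fun l _ => ?_
        ring) (by
        intro i
        have h6 : ∑ l, U z0 i l * c l = y z0 i := by
          rw [hU1]
          simp [Matrix.one_apply, hc]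
        rw [h6, sub_self])
    intro z hz i
    exact sub_eq_zero.mp (h2 z hz i)
  -- the coefficients
  let bb : B × ℕ → ℂ → ℂ := fun p z => p.1.1 z / s z ^ p.2
  have hbb : ∀ p, AnalyticOnNhd ℂ (bb p) S := fun p z hz =>
    (hB.an _ p.1.2 z (hSΩ hz)).fun_div ((hsan z (hSΩ hz)).fun_pow _) (pow_ne_zero _ (hSs z hz))
  let dd : B × ℕ → B × ℕ := fun p =>
    (⟨der p.1.1 * s - algebraMap ℂ (ℂ → ℂ) (p.2 : ℂ) * p.1.1 * der s,
      B.sub_mem (B.mul_mem (hderB _ p.1.2) hsB)
        (B.mul_mem (B.mul_mem (B.algebraMap_mem _) p.1.2) (hderB _ hsB))⟩, p.2 + 1)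
  have hdd : ∀ p, ∀ z ∈ S, HasDerivAt (bb p) (bb (dd p) z) z := by
    rintro ⟨b, k⟩ z hz
    have h2 := hder b.1 b.2 z (hSΩ hz)
    have h3 := hder s hsB z (hSΩ hz)
    have h4 := hSs z hz
    refine (h2.fun_div (h3.fun_pow k) (pow_ne_zero k h4)).congr_deriv ?_
    have h5 : ∀ c : ℂ, (algebraMap ℂ (ℂ → ℂ) c) z = c := fun c => rfl
    simp only [bb, dd, Pi.sub_apply, Pi.mul_apply, h5]
    cases k with
    | zero => simp; field_simp
    | succ k =>
      rw [Nat.add_sub_cancel]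
      field_simp
      ring
  let Φ : Fin (N + 1) → MvPolynomial (Fin n × Fin n) ℂ := fun j =>
    ∑ k, ∑ l, MvPolynomial.C (L j k * c l) * X (k, l)
  have hΦ : ∀ z ∈ S, ∀ j, eval (mv (U z)) (Φ j) = f z j := by
    intro z hz j
    rw [hfL z (hSΩ hz) j]
    simp only [Φ, map_sum, map_mul, eval_C, eval_X, mv]
    refine Finset.sum_congr rfl fun k _ => ?_
    rw [hyU z hz k, Finset.mul_sum]
    refine Finset.sum_congr rfl fun l _ => ?_
    ring
  have hFS : ∀ z ∈ S, (fun j => eval (mv (U z)) (Φ j)) = f z := fun z hz => funext (hΦ z hz)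
  have hΦG : ∀ z ∈ S, ∀ G : MvPolynomial (Fin (N + 1)) ℂ,
      eval (mv (U z)) (bind₁ Φ G) = eval (f z) G := by
    intro z hz G
    rw [eval_bind, ← hFS z hz]
  obtain ⟨T, hT, hTs⟩ := sweep_local_aff hSo hSc ⟨z0, hz0S⟩ bb hbb dd hdd
    (fun i k => (⟨A i k, hA i k⟩, 0)) U
    (fun z hz i j => by
      have := hU z hz i j
      simpa [bb] using this) hdet ρ hnil (locAlg B s hsB S hSs)
    (fun p => ⟨p.1.1, p.1.2, p.2, fun z => rfl⟩) Φ κ
    (fun D P hP h0 => by
      have h2 := gen_loc hΩc hB.an (f := fun z i => f z (κ i)) (fun i => hf (κ i)) hgen s hsB hSo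
        hSΩ hz0S hSs hP (fun z => by
          rw [← h0 z]
          congr 1
          congr 1
          funext i
          exact (hΦ z z.2 (κ i)).symm)
      refine MvPolynomial.ext _ _ fun v' => ?_
      apply Subtype.ext
      apply hol_ext
      intro z
      have h3 : atz z P = 0 := (Submodule.mem_bot _).1 (h2 z)
      rw [← coeff_atz, h3]
      simp) (⟨cq, hcq⟩, 1)
    (fun z hz => by rw [hΦG z hz]; exact hSQ z hz) (fun z hz => by
      have h1 := (hQan z (hSΩ hz)).differentiableAt.hasDerivAt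
      rw [hΦG z hz]
      have h2 : (fun w => eval (mv (U w)) (bind₁ Φ Q)) =ᶠ[𝓝 z] fun w => eval (f w) Q := by
        filter_upwards [hSo.mem_nhds hz] with w hw
        exact hΦG w hw Q
      refine (h1.congr_of_eventuallyEq h2).congr_deriv ?_
      have h3 := hlog z (hSΩ hz)
      have h4 : bq z ≠ 0 := hSs z hz
      simp only [bb, pow_one]
      change _ = cq z / bq z * _
      rw [eq_comm, div_mul_eq_mul_div, div_eq_iff h4]
      linear_combination (-1 : ℂ) * h3)
  obtain ⟨a0, ha0⟩ : ∃ a : S, evz a T ≠ 0 := by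
    by_contra hcon
    push Not at hcon
    exact hT (hol_ext fun z => by rw [hcon z, map_zero])
  obtain ⟨w, e1, e2, e3, e4⟩ := hTs a0 ha0
  refine ⟨a0, hSV a0.2, w, fun j => ?_, fun G hGz => e2 G fun z hz => ?_, e3, e4⟩
  · rw [e1, hΦ a0 a0.2]
  · rw [hΦG z hz]
    exact hGz z (hSΩ hz)

end Pool.Agent.N626
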