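import Pool.Agent.N626.Ua

/-!
Families of maps from affine spaces: the static part, with an explicit formula.
-/

set_option autoImplicit false

namespace Pool.Agent.N626

open MvPolynomial Filter Pool.Agent.TH143 Pool.Agent.TH143.DE

variable {n N r : ℕ}

/-- the truncated exponential series -/
noncomputable def nexp {A : Type} [CommRing A] [Algebra ℂ A] (K : ℕ)
    (β : Matrix (Fin n) (Fin n) A) (t : A) : Matrix (Fin n) (Fin n) A :=
  ∑ k ∈ Finset.range (K + 1), (algebraMap ℂ A ((k.factorial : ℂ)⁻¹) * t ^ k) • β ^ k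

theorem nexp_map {A A' : Type} [CommRing A] [Algebra ℂ A] [CommRing A'] [Algebra ℂ A']
    (θ : A →ₐ[ℂ] A') (K : ℕ) (β : Matrix (Fin n) (Fin n) A) (t : A) :
    (nexp K β t).map θ = nexp K (β.map θ) (θ t) := by
  have h1 : ∀ M : Matrix (Fin n) (Fin n) A, M.map θ = (θ : A →+* A').mapMatrix M := fun M => rfl
  have h2 : ∀ k, (β ^ k).map θ = (β.map θ) ^ k := fun k => by rw [h1, h1, map_pow]
  unfold nexp
  rw [h1, map_sum]
  refine Finset.sum_congr rfl fun k _ => ?_
  ext i j
  rw [← h2 k]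
  simp only [RingHom.mapMatrix_apply, Matrix.map_apply, Matrix.smul_apply, smul_eq_mul,
    AlgHom.coe_toRingHom, map_mul, map_pow, AlgHom.commutes]

theorem nexp_ex {β : Matrix (Fin n) (Fin n) ℂ} {K : ℕ} (hK : β ^ K = 0) :
    ExpF β (nexp K β) ∧ ∀ i j, ∃ P : Polynomial ℂ, ∀ x, nexp K β x i j = P.eval x := by
  have hex : ∀ t i j, nexp K β t i j = ∑ k ∈ Finset.range (K + 1),
      ((k.factorial : ℂ)⁻¹ * t ^ k) * (β ^ k) i j := by
    intro t i j
    unfold nexp
    simp only [Matrix.sum_apply, Matrix.smul_apply, smul_eq_mul, Algebra.algebraMap_self,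
      RingHom.id_apply]
  refine ⟨⟨?_, fun t i j => ?_⟩, fun i j => ?_⟩
  · ext i j
    rw [hex, Finset.sum_range_succ', Finset.sum_eq_zero]
    · simp
    · intro k _
      rw [zero_pow (Nat.succ_ne_zero k), mul_zero, zero_mul]
  · have h1 : (fun s => nexp K β s i j) = fun s => ∑ k ∈ Finset.range (K + 1),
        ((k.factorial : ℂ)⁻¹ * s ^ k) * (β ^ k) i j := funext fun s => hex s i j
    rw [h1]
    have h2 : (nexp K β t * β) i j = ∑ k ∈ Finset.range (K + 1),
        ((k.factorial : ℂ)⁻¹ * ((k : ℂ) * t ^ (k - 1))) * (β ^ k) i j := by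
      have h3 : nexp K β t * β = ∑ k ∈ Finset.range (K + 1),
          ((k.factorial : ℂ)⁻¹ * t ^ k) • β ^ (k + 1) := by
        unfold nexp
        simp only [Finset.sum_mul, smul_mul_assoc, pow_succ, Algebra.algebraMap_self,
          RingHom.id_apply]
      rw [h3, Finset.sum_range_succ, pow_succ, hK, Matrix.zero_mul, smul_zero, add_zero]
      conv_rhs => rw [Finset.sum_range_succ']
      rw [Matrix.sum_apply]
      simp only [Nat.cast_zero, zero_mul, mul_zero, add_zero]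
      refine Finset.sum_congr rfl fun k _ => ?_
      rw [Matrix.smul_apply, smul_eq_mul, Nat.factorial_succ, Nat.add_sub_cancel]
      have h4 : ((k + 1 : ℕ) : ℂ) ≠ 0 := Nat.cast_ne_zero.2 (Nat.succ_ne_zero k)
      have h5 : ((k.factorial : ℕ) : ℂ) ≠ 0 := Nat.cast_ne_zero.2 (Nat.factorial_ne_zero k)
      rw [Nat.cast_mul]
      field_simp
    rw [h2]
    apply HasDerivAt.fun_sum
    intro k _
    exact ((hasDerivAt_pow k t).const_mul _).mul_const _
  · refine ⟨∑ k ∈ Finset.range (K + 1), Polynomial.C ((β ^ k) i j * (k.factorial : ℂ)⁻¹) *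
      Polynomial.X ^ k, fun x => ?_⟩
    rw [hex, Polynomial.eval_finsetSum]
    refine Finset.sum_congr rfl fun k _ => ?_
    rw [Polynomial.eval_mul, Polynomial.eval_C, Polynomial.eval_pow, Polynomial.eval_X]
    ring

/-- the one-parameter groups, with the unit element at `1` -/
noncomputable def lamN (K : ℕ) {d : ℕ} (β : Fin d → Matrix (Fin n) (Fin n) ℂ) :
    Fin d → ℂ → Matrix (Fin n) (Fin n) ℂ := fun i x => nexp K (β i) (x - 1)

/-- **Maps from affine spaces, the static part.** -/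
theorem static_aff' {d : ℕ} {I : Ideal (MvPolynomial (Fin n × Fin n) ℂ)}
    {V0 : Matrix (Fin n) (Fin n) ℂ} (hV0 : ZI I V0)
    (Φ : Fin (N + 1) → MvPolynomial (Fin n × Fin n) ℂ)
    (κ : Fin (d + 1) → Fin (N + 1))
    {Q : MvPolynomial (Fin (N + 1)) ℂ}
    (hQ0 : eval (mv V0) (bind₁ Φ Q) ≠ 0) (β : Fin d → Matrix (Fin n) (Fin n) ℂ)
    {K : ℕ} (hK : ∀ i, β i ^ K = 0)
    (hβ : ∀ i, ∀ P ∈ I, Dc (β i) P ∈ I)
    (hγ : ∀ i, ∃ γ : ℂ, Dc (β i) (bind₁ Φ Q) - C γ * bind₁ Φ Q ∈ I)
    (hl0 : eval (mv V0) (Φ (κ 0)) ≠ 0) (c : Fin d → ℂ) (hc : ∀ i, c i ≠ 0)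
    (hmat : ∀ i i', eval (mv V0) (Dc (β i) (Φ (κ (Fin.succ i')))) * eval (mv V0) (Φ (κ 0)) -
      eval (mv V0) (Φ (κ (Fin.succ i'))) * eval (mv V0) (Dc (β i) (Φ (κ 0))) =
        if i = i' then c i else 0)
    (w' : Fin (N + 1) → MvPolynomial (Fin d) ℂ)
    (hw' : ∀ (t : Fin d → ℂ) j, eval t (w' j) =
      eval (mv (V0 * pmat (lamN K β) t (List.finRange d))) (Φ j)) :
      (∀ j, eval (fun _ => 1) (w' j) = eval (mv V0) (Φ j)) ∧
      (∀ G : MvPolynomial (Fin (N + 1)) ℂ, bind₁ Φ G ∈ I → aeval w' G = 0) ∧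
      (∀ (D : ℕ) (G : MvPolynomial (Fin (d + 1)) ℂ), G.IsHomogeneous D →
        aeval (fun j => w' (κ j)) G = 0 → G = 0) ∧
      ∀ t : Fin d → ℂ, eval t (aeval w' Q) ≠ 0 := by
  classical
  have hex := fun i => (nexp_ex (hK i)).1
  have hexp := fun i => (nexp_ex (hK i)).2
  have hlam : ∀ k i j, ∃ P : Polynomial ℂ, ∀ x, lamN K β k x i j = P.eval x := by
    intro k i j
    obtain ⟨P, hP⟩ := hexp k i j
    refine ⟨P.comp (Polynomial.X - Polynomial.C 1), fun x => ?_⟩
    rw [Polynomial.eval_comp, Polynomial.eval_sub, Polynomial.eval_X, Polynomial.eval_C]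
    exact hP _
  have hlam1 : ∀ k, lamN K β k 1 = 1 := by
    intro k
    unfold lamN
    rw [sub_self]
    exact (hex k).zero
  have hlamd : ∀ k i j, HasDerivAt (fun x => lamN K β k x i j) (β k i j) 1 := by
    intro k i j
    have h1 := (hex k).der (1 - 1) i j
    rw [sub_self, (hex k).zero, Matrix.one_mul] at h1
    have h2 : HasDerivAt (fun x : ℂ => x - 1) 1 1 := (hasDerivAt_id' 1).sub_const 1
    have h3 : HasDerivAt (fun s => nexp K (β k) s i j) (β k i j) ((fun x : ℂ => x - 1) 1) := by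
      simpa using h1
    have h4 := HasDerivAt.comp (h := fun x : ℂ => x - 1) (h₂ := fun s => nexp K (β k) s i j)
      (1 : ℂ) h3 h2
    rw [mul_one] at h4
    exact h4
  have hflow : ∀ k V, ZI I V → ∀ t, ZI I (V * nexp K (β k) t) := fun k V hV t P hP =>
    flow_ideal (hex k) V I (hβ k) hV P hP t
  have hoff : ∀ k V, ZI I V → ∀ t, ∃ γ : ℂ,
      eval (mv (V * nexp K (β k) t)) (bind₁ Φ Q) =
        eval (mv V) (bind₁ Φ Q) * Complex.exp (γ * t) := by
    intro k V hV t
    obtain ⟨γ, hγ0⟩ := hγ k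
    refine ⟨γ, ?_⟩
    have h1 : ∀ t, HasDerivAt
        (fun t => eval (mv (V * nexp K (β k) t)) (bind₁ Φ Q) * Complex.exp (-γ * t)) 0 t := by
      intro t
      have h2 := (hex k).hasDerivAt V (bind₁ Φ Q) t
      have h3 : HasDerivAt (fun t : ℂ => Complex.exp (-γ * t)) (Complex.exp (-γ * t) * (-γ)) t := by
        have := ((hasDerivAt_id t).const_mul (-γ)).cexp
        simpa using this
      refine (h2.mul h3).congr_deriv ?_
      have h4 := hflow k V hV t _ hγ0
      rw [map_sub, map_mul, eval_C, sub_eq_zero] at h4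
      rw [h4]
      ring
    have h5 := is_const_of_deriv_eq_zero (fun t => (h1 t).differentiableAt)
      (fun t => (h1 t).deriv) t 0
    simp only [(hex k).zero, mul_zero, Complex.exp_zero, mul_one] at h5
    rw [← h5, mul_assoc, ← Complex.exp_add]
    simp
  have hs : ∀ k x V, ZI I V → ZI I (V * lamN K β k x) ∧
      (eval (mv V) (bind₁ Φ Q) ≠ 0 → eval (mv (V * lamN K β k x)) (bind₁ Φ Q) ≠ 0) := by
    intro k x V hV
    refine ⟨hflow k V hV _, fun h => ?_⟩
    obtain ⟨γ, h1⟩ := hoff k V hV (x - 1)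
    unfold lamN
    rw [h1]
    exact mul_ne_zero h (Complex.exp_ne_zero _)
  obtain ⟨w, hw1, hw2, hw3⟩ := exists_wp hlam hlam1 hlamd V0 Φ
  have hww : w' = w := by
    funext j
    apply MvPolynomial.funext
    intro t
    rw [hw1, hw']
  rw [hww]
  have hZ := fun t : Fin d → ℂ => pmat_off hs t (List.finRange d) V0 hV0
  have heval : ∀ (G : MvPolynomial (Fin (N + 1)) ℂ) (t : Fin d → ℂ), eval t (aeval w G) =
      eval (mv (V0 * pmat (lamN K β) t (List.finRange d))) (bind₁ Φ G) := by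
    intro G t
    have h1 := MvPolynomial.comp_aeval_apply (f := w)
      (MvPolynomial.aeval t : MvPolynomial (Fin d) ℂ →ₐ[ℂ] ℂ) G
    have h2 : (fun j => (MvPolynomial.aeval t : MvPolynomial (Fin d) ℂ →ₐ[ℂ] ℂ) (w j)) =
        fun j => eval (mv (V0 * pmat (lamN K β) t (List.finRange d))) (Φ j) := by
      funext j
      rw [MvPolynomial.aeval_eq_eval]
      exact hw1 t j
    rw [h2] at h1
    rw [← MvPolynomial.aeval_eq_eval, h1, eval_bind, MvPolynomial.aeval_eq_eval]
  have hwl : w (κ 0) ≠ 0 := by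
    intro h0
    apply hl0
    have h1 := hw2 (κ 0)
    rw [h0, map_zero] at h1
    exact h1.symm
  refine ⟨hw2, fun G hG => ?_, ?_, fun t => ?_⟩
  · apply MvPolynomial.funext
    intro t
    rw [heval, (hZ t).1 _ hG, map_zero]
  · refine jac (fun j => w (κ j)) (fun _ => 1) hwl (fun i k' => if i = k' then (c i)⁻¹ else 0) ?_
    intro i i'
    rw [Finset.sum_eq_single i]
    · rw [if_pos rfl, map_sub, map_mul, map_mul, hw3, hw3, hw2, hw2, mul_comm (eval (mv V0) _)
        (eval (mv V0) (Dc (β i) (Φ (κ 0))))]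
      have h1 := hmat i i'
      rw [mul_comm (eval (mv V0) (Φ (κ (Fin.succ i'))))] at h1
      rw [h1]
      split_ifs
      · exact inv_mul_cancel₀ (hc i)
      · rw [mul_zero]
    · intro k' _ hk
      rw [if_neg (Ne.symm hk), zero_mul]
    · intro h
      exact absurd (Finset.mem_univ i) h
  · rw [heval]
    exact (hZ t).2 hQ0

end Pool.Agent.N626
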