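import Pool.Agent.N626.Ub

/-!
Families of maps from affine spaces with images of large dimension, through the points of local
curves given by nilpotent linear differential equations.
-/

set_option autoImplicit false

namespace Pool.Agent.N626

open MvPolynomial Metric Set Filter Topology Pool.Agent.TH143 Pool.Agent.TH143.DE

variable {N n : ℕ}

/-- nowhere vanishing holomorphic functions are units -/
theorem hol_unit {S : Set ℂ} {f : Hol S} (h : ∀ z, evz z f ≠ 0) : IsUnit f := by
  obtain ⟨F, hF, hf⟩ := hol_an f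
  have h1 : AnalyticOnNhd ℂ (fun z => (F z)⁻¹) S := fun z hz =>
    (hF z hz).fun_inv (by rw [← hf ⟨z, hz⟩]; exact h _)
  refine IsUnit.of_mul_eq_one (toHol _ h1) (hol_ext fun z => ?_)
  rw [map_mul, map_one, evz_toHol, hf z]
  exact mul_inv_cancel₀ (by rw [← hf z]; exact h z)

/-- the products of exponentials over the ring of holomorphic functions -/
noncomputable def PP {S : Set ℂ} {d : ℕ} (K : ℕ) (β : Fin d → Matrix (Fin n) (Fin n) (Hol S)) :
    List (Fin d) → Matrix (Fin n) (Fin n) (MvPolynomial (Fin d) (Hol S))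
  | [] => 1
  | k :: ks => nexp K ((β k).map C) (X k - 1) * PP K β ks

/-- evaluation of the coefficients and of the variables -/
noncomputable def thz {S : Set ℂ} {d : ℕ} (s : S) (t : Fin d → ℂ) :
    MvPolynomial (Fin d) (Hol S) →ₐ[ℂ] ℂ :=
  (MvPolynomial.aeval t : MvPolynomial (Fin d) ℂ →ₐ[ℂ] ℂ).comp (mapAlgHom (evz s))

theorem thz_apply {S : Set ℂ} {d : ℕ} (s : S) (t : Fin d → ℂ) (F : MvPolynomial (Fin d) (Hol S)) :
    thz s t F = eval t (MvPolynomial.map (evz s : Hol S →+* ℂ) F) := by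
  unfold thz
  rw [AlgHom.comp_apply, mapAlgHom_apply, MvPolynomial.aeval_eq_eval]

theorem PP_map {S : Set ℂ} {d : ℕ} (K : ℕ) (β : Fin d → Matrix (Fin n) (Fin n) (Hol S)) (s : S)
    (t : Fin d → ℂ) (ks : List (Fin d)) :
    (PP K β ks).map (thz s t) = pmat (lamN K fun k => (β k).map (evz s)) t ks := by
  induction ks with
  | nil => exact Matrix.map_one _ (map_zero _) (map_one _)
  | cons k ks ih =>
    rw [PP, pmat, Matrix.map_mul, ih, nexp_map, Matrix.map_map]
    unfold lamN
    have h1 : (⇑(thz s t) ∘ ⇑(C : Hol S →+* MvPolynomial (Fin d) (Hol S))) = ⇑(evz s) := by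
      funext x
      rw [Function.comp_apply, thz_apply, map_C, eval_C]
      rfl
    have h2 : thz s t (X k - 1) = t k - 1 := by
      rw [map_sub, map_one, thz_apply, map_X, eval_X]
    rw [h1, h2]

theorem exists_fam {S : Set ℂ} (U : Matrix (Fin n) (Fin n) (Hol S)) {d : ℕ} (K : ℕ)
    (β : Fin d → Matrix (Fin n) (Fin n) (Hol S))
    (Φ : Fin (N + 1) → MvPolynomial (Fin n × Fin n) ℂ) :
    ∃ W : Fin (N + 1) → MvPolynomial (Fin d) (Hol S), ∀ (s : S) (t : Fin d → ℂ) (j : Fin (N + 1)),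
      eval t (MvPolynomial.map (evz s : Hol S →+* ℂ) (W j)) =
        eval (mv (U.map (evz s) * pmat (lamN K fun k => (β k).map (evz s)) t (List.finRange d)))
          (Φ j) := by
  refine ⟨fun j => aeval (fun p : Fin n × Fin n =>
    ((U.map C : Matrix (Fin n) (Fin n) (MvPolynomial (Fin d) (Hol S))) *
      PP K β (List.finRange d)) p.1 p.2) (Φ j), fun s t j => ?_⟩
  rw [← thz_apply, MvPolynomial.comp_aeval_apply, ← MvPolynomial.aeval_eq_eval]
  congr 2
  funext p
  have h1 : (thz s t) (((U.map C : Matrix (Fin n) (Fin n) (MvPolynomial (Fin d) (Hol S))) *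
      PP K β (List.finRange d)) p.1 p.2) =
      (((U.map C : Matrix (Fin n) (Fin n) (MvPolynomial (Fin d) (Hol S))) *
        PP K β (List.finRange d)).map (thz s t)) p.1 p.2 := rfl
  have h2 : (⇑(thz s t) ∘ ⇑(C : Hol S →+* MvPolynomial (Fin d) (Hol S))) = ⇑(evz s) := by
    funext x
    rw [Function.comp_apply, thz_apply, map_C, eval_C]
    rfl
  rw [h1, Matrix.map_mul, PP_map, Matrix.map_map, h2]
  rfl

theorem sweep_local_fam {S : Set ℂ} (hS : IsOpen S) (hSc : IsPreconnected S) (hne : S.Nonempty)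
    {ι : Type} (b : ι → ℂ → ℂ) (hb : ∀ i, AnalyticOnNhd ℂ (b i) S) (d : ι → ι)
    (hd : ∀ i, ∀ z ∈ S, HasDerivAt (b i) (b (d i) z) z)
    (A : Fin n → Fin n → ι) (U : ℂ → Matrix (Fin n) (Fin n) ℂ)
    (hU : ∀ z ∈ S, ∀ i j, HasDerivAt (fun w => U w i j) (∑ k, b (A i k) z * U z k j) z)
    (hdet : ∀ z ∈ S, (U z).det ≠ 0) (ρ : Fin n → ℕ)
    (hnil : ∀ z ∈ S, ∀ i k, ρ i ≤ ρ k → U z i k = if i = k then 1 else 0)
    (B : Subalgebra ℂ (Hol S)) (hB : ∀ i, toHol (b i) (hb i) ∈ B)
    (Φ : Fin (N + 1) → MvPolynomial (Fin n × Fin n) ℂ)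
    {dd : ℕ} (κ : Fin (dd + 1) → Fin (N + 1))
    (hind : ∀ (D : ℕ) (P : MvPolynomial (Fin (dd + 1)) B), P.IsHomogeneous D →
      (∀ z : S, eval (fun i => eval (mv (U z)) (Φ (κ i))) (atz z P) = 0) → P = 0)
    {Q : MvPolynomial (Fin (N + 1)) ℂ} (iq : ι)
    (hQ : ∀ z ∈ S, eval (mv (U z)) (bind₁ Φ Q) ≠ 0)
    (hQ' : ∀ z ∈ S, HasDerivAt (fun w => eval (mv (U w)) (bind₁ Φ Q))
      (b iq z * eval (mv (U z)) (bind₁ Φ Q)) z) :
    ∃ (T : Hol S) (W : Fin (N + 1) → MvPolynomial (Fin dd) (Hol S)), T ≠ 0 ∧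
      ∀ s : S, evz s T ≠ 0 →
      (∀ j, eval (fun _ => 1) (MvPolynomial.map (evz s : Hol S →+* ℂ) (W j)) =
        eval (mv (U s)) (Φ j)) ∧
      (∀ G : MvPolynomial (Fin (N + 1)) ℂ, (∀ z ∈ S, eval (mv (U z)) (bind₁ Φ G) = 0) →
        aeval (fun j => MvPolynomial.map (evz s : Hol S →+* ℂ) (W j)) G = 0) ∧
      (∀ (D : ℕ) (G : MvPolynomial (Fin (dd + 1)) ℂ), G.IsHomogeneous D →
        aeval (fun j => MvPolynomial.map (evz s : Hol S →+* ℂ) (W (κ j))) G = 0 → G = 0) ∧
      ∀ t : Fin dd → ℂ,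
        eval t (aeval (fun j => MvPolynomial.map (evz s : Hol S →+* ℂ) (W j)) Q) ≠ 0 := by
  classical
  set v := vv b U with hv
  -- the system
  have hsol : Sol (EE d A) v S := by
    intro z hz l
    rcases l with i | ⟨i, j⟩
    · have := hd i z hz
      simpa [EE, v, vv] using this
    · have := hU z hz i j
      simpa [EE, v, vv] using this
  have hvan : ∀ l, AnalyticOnNhd ℂ (fun z => v z l) S := by
    intro l
    have := hsol.analytic hS (X l)
    simpa using this
  let V : ι ⊕ (Fin n × Fin n) → Hol S := fun l => toHol (fun z => v z l) (hvan l)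
  have hVe : ∀ (z : S), (fun l => evz z (V l)) = v z := fun z => rfl
  have hVP : ∀ (z : S) (P : MvPolynomial (ι ⊕ (Fin n × Fin n)) ℂ),
      evz z (aeval V P) = eval (v z) P := by
    intro z P
    have h4 := MvPolynomial.comp_aeval_apply (f := V) (evz z) P
    rw [h4, ← MvPolynomial.aeval_eq_eval]
    rfl
  have hrel : ∀ P, Rel v S P ↔ aeval V P = 0 := by
    intro P
    constructor
    · intro h
      exact hol_ext fun z => by rw [hVP, map_zero]; exact h z z.2
    · intro h z hz
      rw [← hVP ⟨z, hz⟩, h, map_zero]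
  have hvr : ∀ (z : ℂ) (P : MvPolynomial (Fin n × Fin n) ℂ),
      eval (v z) (rename Sum.inr P) = eval (mv (U z)) P := by
    intro z P
    rw [eval_rename]
    rfl
  let Ψ : Fin (N + 1) → MvPolynomial (ι ⊕ (Fin n × Fin n)) ℂ := fun j => rename Sum.inr (Φ j)
  have hΨ : ∀ (z : S) j, evz z (aeval V (Ψ j)) = eval (mv (U z)) (Φ j) := by
    intro z j
    rw [hVP, hvr]
  have hdomS : IsDomain (Hol S) := hol_domain hSc hne
  have hntB : Nontrivial B := inferInstance
  have hP0 : ∀ (D : ℕ) (P : MvPolynomial (Fin (dd + 1)) B), P.IsHomogeneous D →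
      aeval (fun i => aeval V (Ψ (κ i))) P = 0 → P = 0 := by
    intro D P hP h0
    apply hind D P hP
    intro z
    have h2 := congrArg (evz z) h0
    rw [map_zero, evz_aeval] at h2
    rw [← h2]
    congr 1
    congr 1
    funext j
    exact (hΨ z (κ j)).symm
  have hwl : aeval V (Ψ (κ 0)) ≠ 0 := by
    intro h0
    have h1 := hP0 1 (X 0) (isHomogeneous_X _ _) (by rw [aeval_X]; exact h0)
    exact X_ne_zero 0 h1
  obtain ⟨T, h, hT, hTs⟩ := hol_tangents hSc hne B V (fun i => hB i) (Ψ (κ 0))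
    (fun i => Ψ (κ (Fin.succ i))) hwl (by
      intro D P hP h0
      apply hP0 D P hP
      rw [← h0]
      congr 2
      funext j
      refine Fin.cases ?_ (fun j => ?_) j
      · rfl
      · rfl)
  -- the matrices over the ring of holomorphic functions
  let UU : Matrix (Fin n) (Fin n) (Hol S) := Matrix.of fun i j => V (Sum.inr (i, j))
  have hUU : ∀ s : S, UU.map (evz s) = U s := by
    intro s
    ext i j
    rfl
  have hUdet : IsUnit UU.det := by
    apply hol_unit
    intro z
    have h1 : evz z UU.det = (UU.map (evz z)).det := (evz z : Hol S →+* ℂ).map_det UU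
    rw [h1, hUU]
    exact hdet z z.2
  let ββ : Fin dd → Matrix (Fin n) (Fin n) (Hol S) := fun i =>
    UU⁻¹ * Matrix.of fun i' j => h i (i', j)
  have hββ : ∀ i, UU * ββ i = Matrix.of fun i' j => h i (i', j) := by
    intro i
    simp only [ββ]
    rw [← Matrix.mul_assoc, Matrix.mul_nonsing_inv _ hUdet, Matrix.one_mul]
  obtain ⟨K, hK⟩ : ∃ K, ∀ i, ρ i < K := ⟨(∑ i, ρ i) + 1, fun i =>
    Nat.lt_succ_of_le (Finset.single_le_sum (fun _ _ => Nat.zero_le _) (Finset.mem_univ i))⟩
  obtain ⟨W, hW⟩ := exists_fam UU K ββ Φ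
  refine ⟨T, W, hT, fun s hs => ?_⟩
  obtain ⟨hsl, hM⟩ := hTs s hs
  set β : Fin dd → Matrix (Fin n) (Fin n) ℂ := fun i => (ββ i).map (evz s) with hβ
  have hUβ : ∀ i, ∀ p : Fin n × Fin n, (U s * β i) p.1 p.2 = evz s (h i p) := by
    intro i p
    have h1 : (UU * ββ i).map (evz s) = U s * β i := by
      rw [Matrix.map_mul, hUU]
    rw [← h1, hββ]
    rfl
  have hMi := fun i => hM i (WW (β i)) (fun i => by simp [WW]) (fun p => by
    rw [← hUβ, Matrix.mul_apply]
    simp only [WW, Sum.elim_inr, map_sum, map_mul, eval_X, eval_C]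
    rfl)
  rw [hVe] at hMi
  -- nilpotency
  have hβK : ∀ i, β i ^ K = 0 := by
    intro i
    refine pow_of_tri (fun i' k' hik => ?_) hK
    refine tri_of_mul (hnil s s.2) (fun i' k' hik => ?_) i' k' hik
    have h1 : Rel v S (X (Sum.inr (i', k')) - C (if i' = k' then 1 else 0)) := by
      intro z hz
      rw [map_sub, eval_X, eval_C]
      have h2 := hnil z hz i' k' hik
      have h3 : v z (Sum.inr (i', k')) = U z i' k' := rfl
      rw [h3, h2, sub_self]
    have h2 := (hMi i).1 _ ((hrel _).mp h1)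
    rw [map_sub, derivation_C, sub_zero, mkDerivation_X] at h2
    rw [Matrix.mul_apply]
    rw [← h2]
    simp only [WW, Sum.elim_inr, map_sum, map_mul, eval_X, eval_C]
    rfl
  have hδ : ∀ i P, Rel v S P → Rel v S (mkDerivation ℂ (WW (β i)) P) := fun i =>
    rel_of_point hS hSc hsol (comm_EW d A (β i)) s.2 (fun P hP => (hMi i).1 P ((hrel P).mp hP))
  -- the boundary
  set qq := rename (Sum.inr : Fin n × Fin n → ι ⊕ (Fin n × Fin n)) (bind₁ Φ Q) with hqq
  have hqe : ∀ z, eval (v z) qq = eval (mv (U z)) (bind₁ Φ Q) := fun z => hvr z _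
  have hR1 : Rel v S (mkDerivation ℂ (EE d A) qq - X (Sum.inl iq) * qq) := by
    intro s hs
    have h1 := hasDerivAt_sol (EE d A) v s (hsol s hs) qq
    have h2 := hQ' s hs
    simp only [← hqe] at h2
    have h3 := h1.unique h2
    rw [map_sub, map_mul, h3, eval_X]
    exact sub_self _
  have hγ : ∀ i, ∃ γ : ℂ, Rel v S (mkDerivation ℂ (WW (β i)) qq - C γ * qq) := by
    intro i
    have hR2 : Rel v S (mkDerivation ℂ (EE d A) (mkDerivation ℂ (WW (β i)) qq)
        - X (Sum.inl iq) * mkDerivation ℂ (WW (β i)) qq) := by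
      have h1 := hδ i _ hR1
      rw [map_sub, Derivation.leibniz, mkDerivation_X, ← comm_of_X (comm_EW d A (β i))] at h1
      simpa [WW] using h1
    have hqn : ∀ s ∈ S, eval (v s) qq ≠ 0 := fun s hs => by rw [hqe]; exact hQ s hs
    have h1 : ∀ s ∈ S, HasDerivAt
        (fun s => eval (v s) (mkDerivation ℂ (WW (β i)) qq) / eval (v s) qq) 0 s := by
      intro s hs
      have h2 := hasDerivAt_sol (EE d A) v s (hsol s hs) (mkDerivation ℂ (WW (β i)) qq)
      have h3 := hasDerivAt_sol (EE d A) v s (hsol s hs) qq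
      refine (h2.div h3 (hqn s hs)).congr_deriv ?_
      have h4 := hR1 s hs
      have h5 := hR2 s hs
      rw [map_sub, map_mul, eval_X, sub_eq_zero] at h4 h5
      rw [h4, h5, div_eq_zero_iff]
      left
      ring
    refine ⟨eval (v s) (mkDerivation ℂ (WW (β i)) qq) / eval (v s) qq, ?_⟩
    intro z hz
    have h6 : eval (v z) (mkDerivation ℂ (WW (β i)) qq) / eval (v z) qq
        = eval (v s) (mkDerivation ℂ (WW (β i)) qq) / eval (v s) qq := by
      have h7 : DifferentiableOn ℂ
          (fun s => eval (v s) (mkDerivation ℂ (WW (β i)) qq) / eval (v s) qq) S :=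
        fun s hs => (h1 s hs).differentiableAt.differentiableWithinAt
      have h8 : EqOn (deriv
          (fun s => eval (v s) (mkDerivation ℂ (WW (β i)) qq) / eval (v s) qq)) 0 S :=
        fun s hs => (h1 s hs).deriv
      exact hS.is_const_of_deriv_eq_zero hSc h7 h8 hz s.2
    rw [map_sub, map_mul, eval_C, ← h6, div_mul_cancel₀ _ (hqn z hz), sub_self]
  -- specialisation at the point `s`
  let sp : MvPolynomial (ι ⊕ (Fin n × Fin n)) ℂ →ₐ[ℂ] MvPolynomial (Fin n × Fin n) ℂ :=
    aeval (Sum.elim (fun i => C (b i s)) X)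
  have hspr : ∀ P, sp (rename Sum.inr P) = P := by
    intro P
    change aeval _ (rename Sum.inr P) = P
    rw [aeval_rename]
    exact aeval_X_left_apply P
  have hsps : Function.Surjective sp := fun P => ⟨rename Sum.inr P, hspr P⟩
  have hspe : ∀ P, eval (mv (U s)) (sp P) = eval (v s) P := by
    intro P
    have h4 := MvPolynomial.comp_aeval_apply
      (f := (Sum.elim (fun i => C (b i s)) X : ι ⊕ (Fin n × Fin n) →
        MvPolynomial (Fin n × Fin n) ℂ))
      (MvPolynomial.aeval (mv (U s)) : MvPolynomial (Fin n × Fin n) ℂ →ₐ[ℂ] ℂ) P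
    rw [← MvPolynomial.aeval_eq_eval, ← MvPolynomial.aeval_eq_eval]
    refine h4.trans ?_
    congr 1
    congr 1
    funext j
    rcases j with i | j
    · simp [v, vv]
    · simp [v, vv, mv]
  have hspD : ∀ (γ : Matrix (Fin n) (Fin n) ℂ) (P : MvPolynomial (ι ⊕ (Fin n × Fin n)) ℂ),
      sp (mkDerivation ℂ (WW γ) P) = Dc γ (sp P) := by
    intro γ P
    induction P using MvPolynomial.induction_on with
    | C c =>
      rw [derivation_C, map_zero]
      have h1 : sp (C c) = C c := algHom_C _ _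
      rw [h1, derivation_C]
    | add p q hp hq => rw [map_add, map_add, map_add, map_add, hp, hq]
    | mul_X p j hp =>
      rw [Derivation.leibniz, mkDerivation_X, map_mul, Derivation.leibniz, map_add, smul_eq_mul,
        smul_eq_mul, smul_eq_mul, smul_eq_mul, map_mul, map_mul, hp]
      congr 2
      rcases j with i | j
      · have h1 : sp (X (Sum.inl i)) = C (b i s) := by
          change aeval _ (X (Sum.inl i)) = _
          rw [aeval_X]
          rfl
        rw [h1, derivation_C]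
        simp [WW]
      · have h1 : sp (X (Sum.inr j)) = X j := by
          change aeval _ (X (Sum.inr j)) = _
          rw [aeval_X]
          rfl
        rw [h1]
        unfold Dc
        rw [mkDerivation_X]
        simp only [WW, Wc, Sum.elim_inr, map_sum, map_mul]
        refine Finset.sum_congr rfl fun k _ => ?_
        have h2 : sp (X (Sum.inr (j.1, k))) = X (j.1, k) := by
          change aeval _ (X (Sum.inr (j.1, k))) = _
          rw [aeval_X]
          rfl
        have h3 : sp (C (γ k j.2)) = C (γ k j.2) := algHom_C _ _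
        rw [h2, h3]
  let J : Ideal (MvPolynomial (ι ⊕ (Fin n × Fin n)) ℂ) := RingHom.ker (aeval V).toRingHom
  have hJ : ∀ P, P ∈ J ↔ Rel v S P := fun P => by
    rw [hrel]
    exact RingHom.mem_ker
  let I : Ideal (MvPolynomial (Fin n × Fin n) ℂ) := J.map sp.toRingHom
  have hI : ∀ P, P ∈ I ↔ ∃ P', Rel v S P' ∧ sp P' = P := by
    intro P
    rw [Ideal.mem_map_iff_of_surjective sp.toRingHom hsps]
    constructor
    · rintro ⟨P', h1, h2⟩
      exact ⟨P', (hJ P').1 h1, h2⟩
    · rintro ⟨P', h1, h2⟩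
      exact ⟨P', (hJ P').2 h1, h2⟩
  have hfin := static_aff' (V0 := U s) (I := I) (fun P hP => by
      obtain ⟨P', h1, h2⟩ := (hI P).1 hP
      rw [← h2, hspe]
      exact h1 s s.2) Φ κ (hQ s s.2) β hβK (fun i P hP => by
      obtain ⟨P', h1, h2⟩ := (hI P).1 hP
      rw [hI]
      exact ⟨_, hδ i P' h1, by rw [hspD, h2]⟩) (fun i => by
      obtain ⟨γ, h1⟩ := hγ i
      refine ⟨γ, (hI _).2 ⟨_, h1, ?_⟩⟩
      rw [map_sub, map_mul, hspD, hqq, hspr]
      have h3 : sp (C γ) = C γ := algHom_C _ _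
      rw [h3]) (by
      have h1 := hsl
      rw [hΨ] at h1
      exact h1) (fun _ => evz s T) (fun _ => hs) (fun i i' => by
      have h1 := (hMi i).2 i'
      rw [← hspe, ← hspe, ← hspe, ← hspe, hspD, hspD] at h1
      simp only [Ψ] at h1
      rw [hspr, hspr] at h1
      exact h1) (fun j => MvPolynomial.map (evz s : Hol S →+* ℂ) (W j)) (fun t j => by
      rw [hW, hUU])
  obtain ⟨e1, e2, e3, e4⟩ := hfin
  refine ⟨e1, fun G hGz => e2 G ?_, e3, e4⟩
  rw [hI]
  refine ⟨rename Sum.inr (bind₁ Φ G), fun z hz => ?_, hspr _⟩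
  rw [hvr]
  exact hGz z hz

end Pool.Agent.N626
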