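import Pool.Agent.N626.Uc

/-!
Families of maps from affine spaces over the field of meromorphic functions.
-/

set_option autoImplicit false

namespace Pool.Agent.N626

open MvPolynomial Metric Set Filter Topology Pool.Agent.TH143 Pool.Agent.TH143.DE

variable {N : ℕ}

/-- polynomials without zeros are constant -/
theorem const_of_ne {e : ℕ} {P : MvPolynomial (Fin e) ℂ} (h : ∀ t, eval t P ≠ 0) :
    P = C (eval (fun _ => 1) P) := by
  apply MvPolynomial.funext
  intro t
  rw [eval_C]
  let R : Polynomial ℂ :=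
    aeval (fun k => Polynomial.C 1 + Polynomial.X * Polynomial.C (t k - 1)) P
  have hR : ∀ x, R.eval x = eval (fun k => 1 + x * (t k - 1)) P := by
    intro x
    have h1 := MvPolynomial.comp_aeval_apply
      (f := fun k => Polynomial.C 1 + Polynomial.X * Polynomial.C (t k - 1))
      (Polynomial.aeval x) P
    rw [Polynomial.coe_aeval_eq_eval] at h1
    rw [h1, ← MvPolynomial.aeval_eq_eval]
    congr 2
    funext k
    simp
  have h2 : R.degree = 0 := by
    by_contra hcon
    obtain ⟨x, hx⟩ := IsAlgClosed.exists_root R hcon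
    have h3 : R.eval x = 0 := hx
    rw [hR] at h3
    exact h _ h3
  have h3 := Polynomial.eq_C_of_degree_eq_zero h2
  have h4 := hR 1
  have h5 := hR 0
  rw [h3, Polynomial.eval_C] at h4 h5
  have h6 : (fun k => 1 + 1 * (t k - 1)) = t := by
    funext k
    ring
  have h7 : (fun k => 1 + 0 * (t k - 1)) = fun _ : Fin e => (1 : ℂ) := by
    funext k
    ring
  rw [h6] at h4
  rw [h7] at h5
  rw [← h4, h5]

theorem zero_of_fam {S : Set ℂ} (hdom : IsDomain (Hol S)) {T : Hol S} (hT : T ≠ 0) {σ : Type}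
    {P : MvPolynomial σ (Hol S)}
    (h : ∀ s : S, evz s T ≠ 0 → MvPolynomial.map (evz s : Hol S →+* ℂ) P = 0) : P = 0 := by
  refine MvPolynomial.ext _ _ fun v => ?_
  rw [coeff_zero]
  have h1 : T * P.coeff v = 0 := hol_ext fun s => by
    rw [map_mul, map_zero]
    by_cases hs : evz s T = 0
    · rw [hs, zero_mul]
    · have h2 := congrArg (MvPolynomial.coeff v) (h s hs)
      rw [coeff_map, coeff_zero] at h2
      have h3 : evz s (P.coeff v) = 0 := h2
      rw [h3, mul_zero]
  exact (mul_eq_zero.1 h1).resolve_left hT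

theorem fam_field {S : Set ℂ} (hSc : IsPreconnected S) (hne : S.Nonempty)
    {T : Hol S} (hT : T ≠ 0) {e : ℕ} (W : Fin (N + 1) → MvPolynomial (Fin e) (Hol S))
    (f : ℂ → Fin (N + 1) → ℂ) (hf : ∀ j, AnalyticOnNhd ℂ (fun z => f z j) S)
    {p : Ideal (MvPolynomial (Fin (N + 1)) ℂ)} (κ : Fin (e + 1) → Fin (N + 1))
    {Q : MvPolynomial (Fin (N + 1)) ℂ}
    (h1 : ∀ s : S, evz s T ≠ 0 →
      ∀ j, eval (fun _ => 1) (MvPolynomial.map (evz s : Hol S →+* ℂ) (W j)) = f s j)
    (h2 : ∀ s : S, evz s T ≠ 0 → ∀ G ∈ p, (∃ D, G.IsHomogeneous D) →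
      aeval (fun j => MvPolynomial.map (evz s : Hol S →+* ℂ) (W j)) G = 0)
    (h3 : ∀ s : S, evz s T ≠ 0 → ∀ (D : ℕ) (G : MvPolynomial (Fin (e + 1)) ℂ),
      G.IsHomogeneous D →
        aeval (fun j => MvPolynomial.map (evz s : Hol S →+* ℂ) (W (κ j))) G = 0 → G = 0)
    (h4 : ∀ s : S, evz s T ≠ 0 → ∀ t : Fin e → ℂ,
      eval t (aeval (fun j => MvPolynomial.map (evz s : Hol S →+* ℂ) (W j)) Q) ≠ 0)
    (hdense : ∀ G : MvPolynomial (Fin (N + 1)) ℂ, (∃ e, G.IsHomogeneous e) →
      (∀ z ∈ S, eval (f z) G = 0) → G ∈ p) :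
    ∃ (M : Type) (_ : Field M) (_ : Algebra ℂ M) (W' : Fin (N + 1) → MvPolynomial (Fin e) M),
      (∀ G : MvPolynomial (Fin (N + 1)) ℂ, (∃ D, G.IsHomogeneous D) →
        (aeval W' G = 0 ↔ G ∈ p)) ∧
      (∀ G : MvPolynomial (Fin (N + 1)) ℂ, (∃ D, G.IsHomogeneous D) →
        eval (fun _ => 1) (aeval W' G) = 0 → G ∈ p) ∧
      (∃ c : M, c ≠ 0 ∧ aeval W' Q = C c) ∧
      ∀ (D : ℕ) (G : MvPolynomial (Fin (e + 1)) M), G.IsHomogeneous D →
        aeval (fun j => W' (κ j)) G = 0 → G = 0 := by
  classical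
  have hdom : IsDomain (Hol S) := hol_domain hSc hne
  let M := FractionRing (Hol S)
  have hinj : Function.Injective (algebraMap (Hol S) M) := IsFractionRing.injective _ _
  have hev : ∀ (s : S) (G : MvPolynomial (Fin (N + 1)) ℂ),
      MvPolynomial.map (evz s : Hol S →+* ℂ) (aeval W G) =
        aeval (fun j => MvPolynomial.map (evz s : Hol S →+* ℂ) (W j)) G := by
    intro s G
    have e1 := MvPolynomial.comp_aeval_apply (f := W)
      (mapAlgHom (evz s) : MvPolynomial (Fin e) (Hol S) →ₐ[ℂ] MvPolynomial (Fin e) ℂ) G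
    exact e1
  have hval : ∀ (s : S), evz s T ≠ 0 → ∀ G : MvPolynomial (Fin (N + 1)) ℂ,
      eval (fun _ => 1) (aeval (fun j => MvPolynomial.map (evz s : Hol S →+* ℂ) (W j)) G) =
        eval (f s) G := by
    intro s hs G
    have e1 := MvPolynomial.comp_aeval_apply
      (f := fun j => MvPolynomial.map (evz s : Hol S →+* ℂ) (W j))
      (MvPolynomial.aeval (fun _ => 1) : MvPolynomial (Fin e) ℂ →ₐ[ℂ] ℂ) G
    rw [MvPolynomial.aeval_eq_eval] at e1
    have e2 : (fun i => eval (fun _ => 1)
        (MvPolynomial.map (evz s : Hol S →+* ℂ) (W i))) = f s := funext (h1 s hs)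
    rw [e2, MvPolynomial.aeval_eq_eval] at e1
    exact e1
  let W' : Fin (N + 1) → MvPolynomial (Fin e) M := fun j =>
    MvPolynomial.map (algebraMap (Hol S) M) (W j)
  have hW' : ∀ G : MvPolynomial (Fin (N + 1)) ℂ,
      aeval W' G = MvPolynomial.map (algebraMap (Hol S) M) (aeval W G) := by
    intro G
    have e1 := MvPolynomial.comp_aeval_apply (f := W)
      (mapAlgHom (IsScalarTower.toAlgHom ℂ (Hol S) M) :
        MvPolynomial (Fin e) (Hol S) →ₐ[ℂ] MvPolynomial (Fin e) M) G
    exact e1.symm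
  have hmi : Function.Injective (MvPolynomial.map (σ := Fin e) (algebraMap (Hol S) M)) :=
    MvPolynomial.map_injective _ hinj
  obtain ⟨s0, hs0⟩ : ∃ s : S, evz s T ≠ 0 := by
    by_contra hcon
    push Not at hcon
    exact hT (hol_ext fun z => by rw [hcon z, map_zero])
  have hone : ∀ G : MvPolynomial (Fin (N + 1)) ℂ, (∃ D, G.IsHomogeneous D) →
      eval (fun _ => 1) (aeval W' G) = 0 → G ∈ p := by
    intro G hG h0
    rw [hW'] at h0
    have e0 : eval (fun _ => 1) (aeval W G) = (0 : Hol S) := by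
      apply hinj
      rw [map_zero, ← h0, eval_map, eval₂_comp]
      congr 1
      funext i
      exact map_one (algebraMap (Hol S) M)
    refine hdense G hG fun z hz => ?_
    let g : Hol S := toHol (fun z => eval (f z) G) (eval_form_an hf G)
    have hg : T * g = 0 := hol_ext fun s => by
      rw [map_mul, map_zero]
      by_cases hs : evz s T = 0
      · rw [hs, zero_mul]
      · have e1 := hval s hs G
        rw [← hev] at e1
        have e3 : eval (fun _ => 1) (MvPolynomial.map (evz s : Hol S →+* ℂ) (aeval W G)) =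
            evz s (eval (fun _ => 1) (aeval W G)) := by
          rw [eval_map]
          have e4 := eval₂_comp (evz s : Hol S →+* ℂ) (fun _ : Fin e => (1 : Hol S)) (aeval W G)
          have e5 : (⇑(evz s : Hol S →+* ℂ) ∘ fun _ : Fin e => (1 : Hol S)) = fun _ => 1 := by
            funext i
            exact map_one _
          rw [e5] at e4
          exact e4.symm
        rw [e3, e0, map_zero] at e1
        have e2 : evz s g = 0 := e1.symm
        rw [e2, mul_zero]
    have e1 := (mul_eq_zero.1 hg).resolve_left hT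
    exact congrArg (evz (⟨z, hz⟩ : S)) e1
  refine ⟨M, inferInstance, inferInstance, W', fun G hG => ⟨fun h0 => hone G hG (by
    rw [h0, map_zero]), fun hGp => ?_⟩, hone, ?_, fun D G hG h0 => ?_⟩
  · rw [hW', map_eq_zero_iff _ hmi]
    refine zero_of_fam hdom hT fun s hs => ?_
    rw [hev]
    exact h2 s hs G hGp hG
  · let q : Hol S := toHol (fun z => eval (f z) Q) (eval_form_an hf Q)
    have hq : aeval W Q = C q := by
      rw [← sub_eq_zero]
      refine zero_of_fam hdom hT fun s hs => ?_
      rw [map_sub, hev, map_C, const_of_ne (h4 s hs), hval s hs, sub_eq_zero]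
      rfl
    refine ⟨algebraMap (Hol S) M q, ?_, ?_⟩
    · rw [Ne, map_eq_zero_iff _ hinj]
      intro h0
      have e1 := hval s0 hs0 Q
      have e2 : eval (f s0) Q = 0 := congrArg (evz s0) h0
      rw [e2] at e1
      exact h4 s0 hs0 _ e1
    · rw [hW', hq, map_C]
  · obtain ⟨b, hb⟩ := IsLocalization.exist_integer_multiples_of_finset
      (nonZeroDivisors (Hol S)) (G.support.image fun v => G.coeff v)
    have hb' : ∀ v, ∃ h : Hol S, algebraMap (Hol S) M h =
        algebraMap (Hol S) M b * G.coeff v := by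
      intro v
      by_cases hv : v ∈ G.support
      · obtain ⟨h, hh⟩ := hb _ (Finset.mem_image_of_mem _ hv)
        exact ⟨h, by rw [hh, Algebra.smul_def]⟩
      · exact ⟨0, by rw [map_zero, notMem_support_iff.1 hv, mul_zero]⟩
    choose h hh using hb'
    let G' : MvPolynomial (Fin (e + 1)) (Hol S) := ∑ v ∈ G.support, monomial v (h v)
    have hG' : MvPolynomial.map (algebraMap (Hol S) M) G' =
        C (algebraMap (Hol S) M b) * G := by
      conv_rhs => rw [G.as_sum, Finset.mul_sum]
      rw [map_sum]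
      refine Finset.sum_congr rfl fun v _ => ?_
      rw [map_monomial, hh, C_mul_monomial]
    have hG'h : G'.IsHomogeneous D := by
      apply IsHomogeneous.sum
      intro v hv
      apply isHomogeneous_monomial
      have h1 := hG (mem_support_iff.1 hv)
      rw [Finsupp.degree_eq_weight_one]
      exact h1
    have hz : bind₁ (fun j => W (κ j)) G' = 0 := by
      apply hmi
      rw [map_zero, map_bind₁, hG', map_mul]
      have e1 : bind₁ (fun i => MvPolynomial.map (algebraMap (Hol S) M) (W (κ i))) G = 0 := h0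
      rw [e1, mul_zero]
    have hz' : G' = 0 := by
      refine zero_of_fam hdom hT fun s hs => ?_
      apply h3 s hs D
      · exact hG'h.map _
      · have e1 := congrArg (MvPolynomial.map (evz s : Hol S →+* ℂ)) hz
        rw [map_zero, map_bind₁] at e1
        exact e1
    rw [hz', map_zero] at hG'
    have hb0 : algebraMap (Hol S) M b ≠ 0 := by
      rw [Ne, map_eq_zero_iff _ hinj]
      exact nonZeroDivisors.ne_zero b.2
    exact (mul_eq_zero.1 hG'.symm).resolve_left (C_ne_zero.2 hb0)

end Pool.Agent.N626
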