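import Pool.Agent.N626.Ue

/-!
Iterated primitives and nilpotent linear systems.
-/

set_option autoImplicit false

namespace Pool.Agent.N626

open MvPolynomial Metric Set Filter Topology Pool.Agent.TH143 Pool.Agent.TH143.DE

variable {N : ℕ} {Ω : Set ℂ} {B : Subalgebra ℂ (ℂ → ℂ)}

/-- The function `g` belongs to every ring of functions which contains `B` and the primitives on `Ω`
of its elements: `g` is obtained from `B` by iterated primitives. -/
def IterPrim (Ω : Set ℂ) (B : Subalgebra ℂ (ℂ → ℂ)) (g : ℂ → ℂ) : Prop :=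
  ∀ R : Subalgebra ℂ (ℂ → ℂ), B ≤ R →
    (∀ g h : ℂ → ℂ, h ∈ R → (∀ z ∈ Ω, HasDerivAt g (h z) z) → g ∈ R) → g ∈ R

/-- nilpotent systems over `B` -/
structure NilSys (Ω : Set ℂ) (B : Subalgebra ℂ (ℂ → ℂ)) {ι : Type} [Fintype ι]
    (A : ι → ι → ℂ → ℂ) (ρ : ι → ℕ) (y : ℂ → ι → ℂ) : Prop where
  mem : ∀ i k, A i k ∈ B
  tri : ∀ i k, ρ i ≤ ρ k → A i k = 0
  der : ∀ z ∈ Ω, ∀ i, HasDerivAt (fun w => y w i) (∑ k, A i k z * y z k) z

/-- linear combinations of solutions of nilpotent systems -/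
def NilRep (Ω : Set ℂ) (B : Subalgebra ℂ (ℂ → ℂ)) (g : ℂ → ℂ) : Prop :=
  ∃ (ι : Type) (_ : Fintype ι) (A : ι → ι → ℂ → ℂ) (ρ : ι → ℕ) (y : ℂ → ι → ℂ) (L : ι → ℂ),
    NilSys Ω B A ρ y ∧ ∀ z ∈ Ω, g z = ∑ i, L i * y z i

/-- the coefficients of the direct sum of two systems -/
def sumA {ι ι' : Type} (A : ι → ι → ℂ → ℂ) (A' : ι' → ι' → ℂ → ℂ) : ι ⊕ ι' → ι ⊕ ι' → ℂ → ℂ
  | Sum.inl i, Sum.inl k => A i k
  | Sum.inr i, Sum.inr k => A' i k
  | Sum.inl _, Sum.inr _ => 0
  | Sum.inr _, Sum.inl _ => 0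

theorem NilSys.sum {ι ι' : Type} [Fintype ι] [Fintype ι'] {A : ι → ι → ℂ → ℂ} {ρ : ι → ℕ}
    {y : ℂ → ι → ℂ} {A' : ι' → ι' → ℂ → ℂ} {ρ' : ι' → ℕ} {y' : ℂ → ι' → ℂ}
    (h : NilSys Ω B A ρ y) (h' : NilSys Ω B A' ρ' y') :
    NilSys Ω B (sumA A A') (Sum.elim ρ ρ') (fun z => Sum.elim (y z) (y' z)) where
  mem := by
    rintro (i | i) (k | k)
    · exact h.mem i k
    · exact B.zero_mem
    · exact B.zero_mem
    · exact h'.mem i k
  tri := by
    rintro (i | i) (k | k) hik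
    · exact h.tri i k hik
    · rfl
    · rfl
    · exact h'.tri i k hik
  der := by
    rintro z hz (i | i)
    · refine (h.der z hz i).congr_deriv ?_
      rw [Fintype.sum_sum_type]
      simp [sumA]
    · refine (h'.der z hz i).congr_deriv ?_
      rw [Fintype.sum_sum_type]
      simp [sumA]

open Classical in
/-- the coefficients of the tensor product of two systems -/
noncomputable def prodA {ι ι' : Type} (A : ι → ι → ℂ → ℂ) (A' : ι' → ι' → ℂ → ℂ)
    (p q : ι × ι') : ℂ → ℂ :=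
  (if p.2 = q.2 then A p.1 q.1 else 0) + (if p.1 = q.1 then A' p.2 q.2 else 0)

theorem NilSys.prod {ι ι' : Type} [Fintype ι] [Fintype ι'] {A : ι → ι → ℂ → ℂ} {ρ : ι → ℕ}
    {y : ℂ → ι → ℂ} {A' : ι' → ι' → ℂ → ℂ} {ρ' : ι' → ℕ} {y' : ℂ → ι' → ℂ}
    (h : NilSys Ω B A ρ y) (h' : NilSys Ω B A' ρ' y') :
    NilSys Ω B (prodA A A') (fun p => ρ p.1 + ρ' p.2) (fun z p => y z p.1 * y' z p.2) where
  mem := by
    intro p q
    unfold prodA
    refine B.add_mem ?_ ?_
    · split_ifs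
      · exact h.mem _ _
      · exact B.zero_mem
    · split_ifs
      · exact h'.mem _ _
      · exact B.zero_mem
  tri := by
    classical
    intro p q hpq
    unfold prodA
    have h1 : (if p.2 = q.2 then A p.1 q.1 else 0) = 0 := by
      split_ifs with h2
      · apply h.tri
        rw [h2] at hpq
        omega
      · rfl
    have h2 : (if p.1 = q.1 then A' p.2 q.2 else 0) = 0 := by
      split_ifs with h2
      · apply h'.tri
        rw [h2] at hpq
        omega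
      · rfl
    rw [h1, h2, add_zero]
  der := by
    classical
    intro z hz p
    refine ((h.der z hz p.1).fun_mul (h'.der z hz p.2)).congr_deriv ?_
    rw [Fintype.sum_prod_type]
    have h1 : ∀ (k : ι) (l : ι'), prodA A A' p (k, l) z * (y z k * y' z l) =
        (if p.2 = l then A p.1 k z * y z k * y' z l else 0) +
          (if p.1 = k then y z k * (A' p.2 l z * y' z l) else 0) := by
      intro k l
      unfold prodA
      rw [Pi.add_apply, add_mul]
      congr 1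
      · split_ifs
        · ring
        · rw [Pi.zero_apply, zero_mul]
      · split_ifs
        · ring
        · rw [Pi.zero_apply, zero_mul]
    simp only [h1, Finset.sum_add_distrib, Finset.sum_ite_eq, Finset.mem_univ, if_true]
    rw [Finset.sum_mul]
    congr 1
    rw [Finset.sum_comm]
    simp only [Finset.sum_ite_eq, Finset.mem_univ, if_true]
    rw [Finset.mul_sum]

/-- the coefficients of the system of a primitive -/
def optA {ι : Type} (A : ι → ι → ℂ → ℂ) (L : ι → ℂ) : Option ι → Option ι → ℂ → ℂ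
  | some i, some k => A i k
  | none, some k => fun _ => L k
  | some _, none => 0
  | none, none => 0

theorem NilSys.opt {ι : Type} [Fintype ι] {A : ι → ι → ℂ → ℂ} {ρ : ι → ℕ}
    {y : ℂ → ι → ℂ} (h : NilSys Ω B A ρ y) (L : ι → ℂ) {g : ℂ → ℂ}
    (hg : ∀ z ∈ Ω, HasDerivAt g (∑ i, L i * y z i) z) :
    NilSys Ω B (optA A L) (fun o => o.elim ((∑ i, ρ i) + 1) ρ)
      (fun z o => o.elim (g z) (y z)) where
  mem := by
    rintro (_ | i) (_ | k)
    · exact B.zero_mem
    · exact B.algebraMap_mem (L k)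
    · exact B.zero_mem
    · exact h.mem i k
  tri := by
    rintro (_ | i) (_ | k) hik
    · rfl
    · exfalso
      have h1 : ρ k ≤ ∑ i, ρ i :=
        Finset.single_le_sum (fun _ _ => Nat.zero_le _) (Finset.mem_univ k)
      have h2 : (∑ i, ρ i) + 1 ≤ ρ k := hik
      omega
    · rfl
    · exact h.tri i k hik
  der := by
    rintro z hz (_ | i)
    · refine (hg z hz).congr_deriv ?_
      rw [Fintype.sum_option]
      simp [optA]
    · refine (h.der z hz i).congr_deriv ?_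
      rw [Fintype.sum_option]
      simp [optA]

theorem NilRep.add {g h : ℂ → ℂ} (hg : NilRep Ω B g) (hh : NilRep Ω B h) :
    NilRep Ω B (g + h) := by
  obtain ⟨ι, _, A, ρ, y, L, hs, hL⟩ := hg
  obtain ⟨ι', _, A', ρ', y', L', hs', hL'⟩ := hh
  refine ⟨ι ⊕ ι', inferInstance, sumA A A', Sum.elim ρ ρ', fun z => Sum.elim (y z) (y' z),
    Sum.elim L L', hs.sum hs', fun z hz => ?_⟩
  rw [Pi.add_apply, hL z hz, hL' z hz, Fintype.sum_sum_type]
  rfl

theorem NilRep.mul {g h : ℂ → ℂ} (hg : NilRep Ω B g) (hh : NilRep Ω B h) :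
    NilRep Ω B (g * h) := by
  obtain ⟨ι, _, A, ρ, y, L, hs, hL⟩ := hg
  obtain ⟨ι', _, A', ρ', y', L', hs', hL'⟩ := hh
  refine ⟨ι × ι', inferInstance, prodA A A', fun p => ρ p.1 + ρ' p.2,
    fun z p => y z p.1 * y' z p.2, fun p => L p.1 * L' p.2, hs.prod hs', fun z hz => ?_⟩
  rw [Pi.mul_apply, hL z hz, hL' z hz, Finset.sum_mul_sum, Fintype.sum_prod_type]
  refine Finset.sum_congr rfl fun i _ => Finset.sum_congr rfl fun k _ => ?_
  ring

theorem NilRep.base (hB : DiffRing Ω B) {b : ℂ → ℂ} (hb : b ∈ B) : NilRep Ω B b := by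
  obtain ⟨b', hb', hbb⟩ := hB.der b hb
  have h1 : NilSys Ω B (fun _ _ : Unit => (0 : ℂ → ℂ)) (fun _ => 0) (fun _ _ => 1) :=
    ⟨fun _ _ => B.zero_mem, fun _ _ _ => rfl, fun z _ _ => by
      simpa using hasDerivAt_const z (1 : ℂ)⟩
  refine ⟨Bool, inferInstance, fun i k => if i = true ∧ k = false then b' else 0,
    fun i => if i = true then 1 else 0, fun z i => if i = true then b z else 1,
    fun i => if i = true then 1 else 0, ⟨?_, ?_, ?_⟩, fun z _ => ?_⟩
  · rintro (_ | _) (_ | _)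
    all_goals simp [B.zero_mem, hb']
  · rintro (_ | _) (_ | _) hik
    all_goals simp_all
  · rintro z hz (_ | _)
    · simpa using hasDerivAt_const z (1 : ℂ)
    · simpa using hbb z hz
  · simp

theorem NilRep.prim {g h : ℂ → ℂ} (hh : NilRep Ω B h) (hg : ∀ z ∈ Ω, HasDerivAt g (h z) z) :
    NilRep Ω B g := by
  obtain ⟨ι, _, A, ρ, y, L, hs, hL⟩ := hh
  refine ⟨Option ι, inferInstance, optA A L, _, fun z o => o.elim (g z) (y z),
    fun o => o.elim 1 (fun _ => 0), hs.opt L (fun z hz => by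
      rw [← hL z hz]
      exact hg z hz), fun z _ => ?_⟩
  rw [Fintype.sum_option]
  simp

theorem IterPrim.nilRep (hB : DiffRing Ω B) {g : ℂ → ℂ} (hg : IterPrim Ω B g) :
    NilRep Ω B g := by
  let R : Subalgebra ℂ (ℂ → ℂ) :=
    { carrier := {g | NilRep Ω B g}
      mul_mem' := fun h1 h2 => h1.mul h2
      add_mem' := fun h1 h2 => h1.add h2
      algebraMap_mem' := fun c => NilRep.base hB (B.algebraMap_mem c) }
  exact hg R (fun b hb => NilRep.base hB hb) fun g h hh hgh => NilRep.prim hh hgh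

theorem nil_family {m : ℕ} {g : Fin m → ℂ → ℂ} (hg : ∀ j, NilRep Ω B (g j)) :
    ∃ (ι : Type) (_ : Fintype ι) (A : ι → ι → ℂ → ℂ) (ρ : ι → ℕ) (y : ℂ → ι → ℂ)
      (L : Fin m → ι → ℂ), NilSys Ω B A ρ y ∧ ∀ z ∈ Ω, ∀ j, g j z = ∑ i, L j i * y z i := by
  induction m with
  | zero =>
    exact ⟨Empty, inferInstance, fun _ _ => 0, fun _ => 0, fun _ _ => 0, fun _ _ => 0,
      ⟨fun i => i.elim, fun i => i.elim, fun _ _ i => i.elim⟩, fun _ _ j => j.elim0⟩
  | succ m ih =>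
    obtain ⟨ι', _, A', ρ', y', L', hs', hL'⟩ := ih (g := fun j => g j.succ) fun j => hg j.succ
    obtain ⟨ι, _, A, ρ, y, L, hs, hL⟩ := hg 0
    refine ⟨ι ⊕ ι', inferInstance, sumA A A', Sum.elim ρ ρ', fun z => Sum.elim (y z) (y' z),
      Fin.cons (Sum.elim L 0) (fun j => Sum.elim 0 (L' j)), hs.sum hs', fun z hz j => ?_⟩
    refine Fin.cases ?_ (fun j => ?_) j
    · rw [Fin.cons_zero, hL z hz, Fintype.sum_sum_type]
      simp
    · rw [Fin.cons_succ, hL' z hz j, Fintype.sum_sum_type]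
      simp

theorem nil_fin {m : ℕ} {g : Fin m → ℂ → ℂ} (hg : ∀ j, NilRep Ω B (g j)) :
    ∃ (n : ℕ) (A : Fin n → Fin n → ℂ → ℂ) (ρ : Fin n → ℕ) (y : ℂ → Fin n → ℂ)
      (L : Fin m → Fin n → ℂ), NilSys Ω B A ρ y ∧ ∀ z ∈ Ω, ∀ j, g j z = ∑ i, L j i * y z i := by
  obtain ⟨ι, _, A, ρ, y, L, hs, hL⟩ := nil_family hg
  let e := Fintype.equivFin ι
  refine ⟨Fintype.card ι, fun i k => A (e.symm i) (e.symm k), fun i => ρ (e.symm i),
    fun z i => y z (e.symm i), fun j i => L j (e.symm i), ⟨fun i k => hs.mem _ _,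
      fun i k hik => hs.tri _ _ hik, fun z hz i => ?_⟩, fun z hz j => ?_⟩
  · refine (hs.der z hz (e.symm i)).congr_deriv ?_
    exact (Equiv.sum_comp e.symm fun k => A (e.symm i) k z * y z k).symm
  · rw [hL z hz j]
    exact (Equiv.sum_comp e.symm fun i => L j i * y z i).symm

end Pool.Agent.N626
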