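import Pool.Agent.N626.Uf

/-!
Varieties with curves given by iterated primitives are covered by images of affine spaces.
-/

set_option autoImplicit false

namespace Pool.Agent.N626

open MvPolynomial Metric Set Filter Topology Pool.Agent.TH143 Pool.Agent.TH143.DE

variable {N : ℕ} {Ω : Set ℂ} {B : Subalgebra ℂ (ℂ → ℂ)}

theorem aff_family (hΩo : IsOpen Ω) (hΩc : IsPreconnected Ω) (hB : DiffRing Ω B)
    {b : ℕ} (htr : TrdegLe Ω B b) (f : ℂ → Fin (N + 1) → ℂ)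
    (hint : ∀ j, IterPrim Ω B (fun z => f z j))
    {p : Ideal (MvPolynomial (Fin (N + 1)) ℂ)}
    (hon : ∀ G ∈ p, ∀ z ∈ Ω, eval (f z) G = 0)
    (hdense : ∀ G : MvPolynomial (Fin (N + 1)) ℂ, (∃ e, G.IsHomogeneous e) →
      (∀ z ∈ Ω, eval (f z) G = 0) → G ∈ p)
    {d : ℕ} {a : Fin (d + 1) → Fin (N + 1)}
    (ha : ∀ (D : ℕ) (G : MvPolynomial (Fin (d + 1)) ℂ), G.IsHomogeneous D →
      rename a G ∈ p → G = 0)
    {Q : MvPolynomial (Fin (N + 1)) ℂ}
    (hQ0 : ∃ z ∈ Ω, eval (f z) Q ≠ 0) {bq cq : ℂ → ℂ} (hbq : bq ∈ B) (hcq : cq ∈ B)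
    (hb0 : ∃ z ∈ Ω, bq z ≠ 0)
    (hlog : ∀ z ∈ Ω, bq z * deriv (fun w => eval (f w) Q) z = cq z * eval (f z) Q) :
    ∃ (e : ℕ) (κ : Fin (e + 1) → Fin (N + 1)) (M : Type) (_ : Field M) (_ : Algebra ℂ M)
      (W : Fin (N + 1) → MvPolynomial (Fin e) M), d ≤ e + b ∧
      (∀ G : MvPolynomial (Fin (N + 1)) ℂ, (∃ D, G.IsHomogeneous D) →
        (aeval W G = 0 ↔ G ∈ p)) ∧
      (∀ G : MvPolynomial (Fin (N + 1)) ℂ, (∃ D, G.IsHomogeneous D) →
        eval (fun _ => 1) (aeval W G) = 0 → G ∈ p) ∧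
      (∃ c : M, c ≠ 0 ∧ aeval W Q = C c) ∧
      ∀ (D : ℕ) (G : MvPolynomial (Fin (e + 1)) M), G.IsHomogeneous D →
        aeval (fun j => W (κ j)) G = 0 → G = 0 := by
  classical
  obtain ⟨n, A, ρ, y, L, hs, hL⟩ := nil_fin fun j => (hint j).nilRep hB
  have hf : ∀ j, AnalyticOnNhd ℂ (fun w => f w j) Ω := by
    intro j
    apply DifferentiableOn.analyticOnNhd _ hΩo
    intro z hz
    have h1 : DifferentiableAt ℂ (fun w => ∑ i, L j i * y w i) z :=
      DifferentiableAt.fun_sum fun i _ => ((hs.der z hz i).differentiableAt).const_mul _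
    refine (h1.congr_of_eventuallyEq ?_).differentiableWithinAt
    filter_upwards [hΩo.mem_nhds hz] with w hw
    exact hL w hw j
  have hl : ∃ z ∈ Ω, f z (a 0) ≠ 0 := by
    by_contra hcon
    push Not at hcon
    have h1 := ha 1 (X 0) (isHomogeneous_X _ _) (by
      rw [rename_X]
      exact hdense _ ⟨1, isHomogeneous_X _ _⟩ fun z hz => by rw [eval_X]; exact hcon z hz)
    exact X_ne_zero _ h1
  have hcons : (Fin.cons (a 0) (fun i : Fin d => a i.succ) : Fin (d + 1) → Fin (N + 1)) = a := by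
    funext i
    refine Fin.cases ?_ (fun i => ?_) i
    · rfl
    · rfl
  obtain ⟨e, σ, hde, hgen⟩ := gen_indep hΩc hB.an hf htr (l := a 0) (fun i : Fin d => a i.succ) hl
    (fun D G hG h0 => by
      rw [hcons] at h0
      exact ha D G hG (hdense _ ⟨D, hG.rename_isHomogeneous⟩ h0))
  obtain ⟨M, i1, i2, W, e1, e2, e3, e4⟩ := sweep_gen_fam hΩo hΩc hB f hf A hs.mem ρ hs.tri y hs.der
    L hL (Fin.cons (a 0) (fun i : Fin e => a (σ i).succ) : Fin (e + 1) → Fin (N + 1)) hgen hQ0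
    hbq hcq hb0 hlog hon hdense
  exact ⟨e, _, M, i1, i2, W, hde, e1, e2, e3, e4⟩

theorem line_field {p : Ideal (MvPolynomial (Fin (N + 1)) ℂ)} {Q : MvPolynomial (Fin (N + 1)) ℂ}
    {e : ℕ} (he : 0 < e) (κ : Fin (e + 1) → Fin (N + 1)) {M : Type} [Field M] [Algebra ℂ M]
    {W : Fin (N + 1) → MvPolynomial (Fin e) M}
    (h1 : ∀ G : MvPolynomial (Fin (N + 1)) ℂ, (∃ D, G.IsHomogeneous D) →
        (aeval W G = 0 ↔ G ∈ p))
    (h2 : ∀ G : MvPolynomial (Fin (N + 1)) ℂ, (∃ D, G.IsHomogeneous D) →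
        eval (fun _ => 1) (aeval W G) = 0 → G ∈ p)
    (h3 : ∃ c : M, c ≠ 0 ∧ aeval W Q = C c)
    (h4 : ∀ (D : ℕ) (G : MvPolynomial (Fin (e + 1)) M), G.IsHomogeneous D →
        aeval (fun j => W (κ j)) G = 0 → G = 0) :
    ∃ P : Fin (N + 1) → Polynomial M,
      (∀ G : MvPolynomial (Fin (N + 1)) ℂ, (∃ D, G.IsHomogeneous D) →
        (aeval P G = 0 ↔ G ∈ p)) ∧
      (∃ c : M, c ≠ 0 ∧ aeval P Q = Polynomial.C c) ∧
      ∃ j k, (P j).eval 0 ≠ 0 ∧ (P j).eval 0 * (P k).eval 1 ≠ (P j).eval 1 * (P k).eval 0 := by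
  classical
  have hinf : Infinite M := by
    have : CharZero M := charZero_of_injective_algebraMap (algebraMap ℂ M).injective
    infer_instance
  set c0 := eval (fun _ => 1) (W (κ 0)) with hc0
  have hc0' : c0 ≠ 0 := by
    intro h0
    have e1 := h2 (X (κ 0)) ⟨1, isHomogeneous_X _ _⟩ (by rw [aeval_X]; exact h0)
    have e2 := (h1 (X (κ 0)) ⟨1, isHomogeneous_X _ _⟩).2 e1
    rw [aeval_X] at e2
    have e3 := h4 1 (X 0) (isHomogeneous_X _ _) (by rw [aeval_X]; exact e2)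
    exact X_ne_zero _ e3
  let i1 : Fin (e + 1) := Fin.succ ⟨0, he⟩
  set c1 := eval (fun _ => 1) (W (κ i1)) with hc1
  obtain ⟨t0, ht0⟩ : ∃ t : Fin e → M, c0 * eval t (W (κ i1)) ≠ eval t (W (κ 0)) * c1 := by
    by_contra hcon
    push Not at hcon
    have e1 : C c0 * W (κ i1) - W (κ 0) * C c1 = 0 := by
      apply MvPolynomial.funext
      intro t
      rw [map_sub, map_mul, map_mul, eval_C, eval_C, hcon t, map_zero, sub_self]
    have e2 := h4 1 (C c0 * X i1 - X 0 * C c1) (by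
      apply IsHomogeneous.sub
      · have := (isHomogeneous_C (Fin (e + 1)) c0).mul (isHomogeneous_X M i1)
        rwa [zero_add] at this
      · have := (isHomogeneous_X M (0 : Fin (e + 1))).mul (isHomogeneous_C (Fin (e + 1)) c1)
        rwa [add_zero] at this) (by
      rw [map_sub, map_mul, map_mul, aeval_X, aeval_X, aeval_C, aeval_C]
      exact e1)
    have e3 := congrArg (eval (Pi.single i1 1 : Fin (e + 1) → M)) e2
    have e4 : (Pi.single i1 1 : Fin (e + 1) → M) 0 = 0 :=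
      Pi.single_eq_of_ne (Fin.succ_ne_zero _).symm _
    rw [map_sub, map_mul, map_mul, eval_C, eval_C, eval_X, eval_X, Pi.single_eq_same, e4,
      map_zero, mul_one, zero_mul, sub_zero] at e3
    exact hc0' e3
  -- the line through the points `1` and `t0`
  let ℓ : Fin e → Polynomial M := fun i => Polynomial.C 1 + Polynomial.X * Polynomial.C (t0 i - 1)
  let Λ : MvPolynomial (Fin e) M →ₐ[M] Polynomial M := aeval ℓ
  have hΛ : ∀ (x : M) (F : MvPolynomial (Fin e) M), (Λ F).eval x =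
      eval (fun i => 1 + x * (t0 i - 1)) F := by
    intro x F
    have e1 := MvPolynomial.comp_aeval_apply (f := ℓ) (Polynomial.aeval x) F
    rw [Polynomial.coe_aeval_eq_eval] at e1
    refine e1.trans ?_
    rw [MvPolynomial.aeval_eq_eval]
    have e2 : (fun i => (Polynomial.aeval x) (ℓ i)) = fun i => 1 + x * (t0 i - 1) := by
      funext i
      simp [ℓ]
    rw [Polynomial.coe_aeval_eq_eval] at e2
    rw [e2]
  have hΛ0 : ∀ F : MvPolynomial (Fin e) M, (Λ F).eval 0 = eval (fun _ => 1) F := by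
    intro F
    rw [hΛ]
    congr 2
    funext i
    ring
  have hΛ1 : ∀ F : MvPolynomial (Fin e) M, (Λ F).eval 1 = eval t0 F := by
    intro F
    rw [hΛ]
    congr 2
    funext i
    ring
  let P : Fin (N + 1) → Polynomial M := fun j => Λ (W j)
  have hP : ∀ G : MvPolynomial (Fin (N + 1)) ℂ, aeval P G = Λ (aeval W G) := by
    intro G
    have e1 := MvPolynomial.comp_aeval_apply (f := W) (Λ.restrictScalars ℂ) G
    exact e1.symm
  refine ⟨P, fun G hG => ⟨fun h0 => h2 G hG ?_, fun hGp => ?_⟩, ?_, κ 0, κ i1, ?_, ?_⟩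
  · rw [← hΛ0, ← hP, h0, Polynomial.eval_zero]
  · rw [hP, (h1 G hG).2 hGp, map_zero]
  · obtain ⟨c, hc, hcQ⟩ := h3
    refine ⟨c, hc, ?_⟩
    rw [hP, hcQ]
    exact algHom_C _ _
  · change (Λ (W (κ 0))).eval 0 ≠ 0
    rw [hΛ0]
    exact hc0'
  · change (Λ (W (κ 0))).eval 0 * (Λ (W (κ i1))).eval 1 ≠
      (Λ (W (κ 0))).eval 1 * (Λ (W (κ i1))).eval 0
    rw [hΛ0, hΛ0, hΛ1, hΛ1]
    exact ht0

end Pool.Agent.N626
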