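import Pool.Agent.N626.Gm
import Pool.Agent.Y356.IL.Rcq

/-!
The special set of the affine line: specialisation of families of affine lines.
-/

set_option autoImplicit false

namespace Pool.Agent.N626

open MvPolynomial Pool.Agent.W602.GT
open Pool.Agent.Y377.IL (form_scale)

variable {N : ℕ}

/-- `p` gives a nonconstant morphism from the affine line to the complement of `Q = 0` in
the projective algebraic set of `I`. -/
structure LineC (I : Ideal (MvPolynomial (Fin (N + 1)) ℂ)) (Q : MvPolynomial (Fin (N + 1)) ℂ)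
    (p : Fin (N + 1) → Polynomial ℂ) : Prop where
  ne : ∀ t, (fun j => (p j).eval t) ≠ 0
  off : ∀ t, eval (fun j => (p j).eval t) Q ≠ 0
  on : ∀ G ∈ I, IsForm G → ∀ t, eval (fun j => (p j).eval t) G = 0
  nonconst : ∃ t u j k, (p j).eval t * (p k).eval u ≠ (p j).eval u * (p k).eval t

theorem reduce_line {I : Ideal (MvPolynomial (Fin (N + 1)) ℂ)} {Q : MvPolynomial (Fin (N + 1)) ℂ}
    {q : ℕ} (hQ : Q.IsHomogeneous q) {p : Fin (N + 1) → Polynomial ℂ}
    (h1 : ∀ G ∈ I, IsForm G → aeval p G = 0)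
    (h2 : ∃ c : ℂ, c ≠ 0 ∧ aeval p Q = Polynomial.C c)
    (h3 : ∃ j k, (p j).eval 0 * (p k).eval 1 ≠ (p j).eval 1 * (p k).eval 0) :
    ∃ (g : Polynomial ℂ) (p' : Fin (N + 1) → Polynomial ℂ), (∀ j, p j = g * p' j) ∧
      LineC I Q p' := by
  classical
  obtain ⟨p', hp', hgcd⟩ := Finset.extract_gcd p (s := Finset.univ) Finset.univ_nonempty
  set g := Finset.univ.gcd p with hg
  have hpg : ∀ j, p j = g * p' j := fun j => hp' j (Finset.mem_univ j)
  have hpg' : p = fun j => g * p' j := funext hpg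
  have hg0 : g ≠ 0 := by
    intro h0
    obtain ⟨j, k, hjk⟩ := h3
    apply hjk
    rw [hpg j, hpg k, h0]
    simp
  have hscale : ∀ {G : MvPolynomial (Fin (N + 1)) ℂ} {d : ℕ}, G.IsHomogeneous d →
      aeval p G = g ^ d * aeval p' G := by
    intro G d hG
    rw [hpg']
    exact form_scale (A := Polynomial ℂ) hG g p'
  refine ⟨g, p', hpg, ⟨fun t h0 => ?_, fun t h0 => ?_, fun G hG hGf t => ?_, ?_⟩⟩
  · have h4 : (Polynomial.X - Polynomial.C t) ∣ Finset.univ.gcd p' := by
      apply Finset.dvd_gcd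
      intro j _
      rw [Polynomial.dvd_iff_isRoot]
      exact congrFun h0 j
    rw [hgcd] at h4
    have h5 := Polynomial.natDegree_eq_zero_of_isUnit (isUnit_of_dvd_one h4)
    rw [Polynomial.natDegree_X_sub_C] at h5
    exact one_ne_zero h5
  · obtain ⟨c, hc, hck⟩ := h2
    have h4 := congrArg (Polynomial.eval t) (hscale hQ)
    rw [hck, Polynomial.eval_mul, eval_aeval, h0, mul_zero, Polynomial.eval_C] at h4
    exact hc h4
  · obtain ⟨d, hd⟩ := hGf
    have h4 := hscale hd
    rw [h1 G hG ⟨d, hd⟩] at h4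
    have h5 := (mul_eq_zero.1 h4.symm).resolve_left (pow_ne_zero _ hg0)
    rw [← eval_aeval, h5, Polynomial.eval_zero]
  · obtain ⟨j, k, hjk⟩ := h3
    refine ⟨0, 1, j, k, fun h0 => hjk ?_⟩
    rw [hpg j, hpg k, Polynomial.eval_mul, Polynomial.eval_mul, Polynomial.eval_mul,
      Polynomial.eval_mul]
    linear_combination g.eval 0 * g.eval 1 * h0

theorem rc0 {I : Ideal (MvPolynomial (Fin (N + 1)) ℂ)} {Q G' : MvPolynomial (Fin (N + 1)) ℂ}
    (hyp : ∀ p : Fin (N + 1) → Polynomial ℂ, (∀ G ∈ I, IsForm G → aeval p G = 0) →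
      (∃ c : ℂ, c ≠ 0 ∧ aeval p Q = Polynomial.C c) →
      (∃ j k, (p j).eval 0 * (p k).eval 1 ≠ (p j).eval 1 * (p k).eval 0) → aeval p G' = 0)
    (M : Type) [Field M] [Algebra ℂ M] (P : Fin (N + 1) → Polynomial M)
    (hP : ∀ G ∈ I, IsForm G → aeval P G = 0)
    (h2 : ∃ c : M, c ≠ 0 ∧ aeval P Q = Polynomial.C c)
    (h3 : ∃ j k, (P j).eval 0 * (P k).eval 1 ≠ (P j).eval 1 * (P k).eval 0) :
    aeval P G' = 0 := by
  classical
  obtain ⟨c, hc0, hQ⟩ := h2
  obtain ⟨j, k, hjk⟩ := h3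
  by_contra hG
  -- the algebra of the coefficients
  let s : Finset M := Finset.univ.biUnion fun l : Fin (N + 1) => (P l).coeffs
  let A : Subalgebra ℂ M := Algebra.adjoin ℂ (s : Set M)
  have hft : Algebra.FiniteType ℂ A := A.fg_iff_finiteType.1 (Subalgebra.fg_adjoin_finset s)
  have hcoef : ∀ l i, (P l).coeff i ∈ A := by
    intro l i
    by_cases h0 : (P l).coeff i = 0
    · rw [h0]
      exact A.zero_mem
    · refine Algebra.subset_adjoin ?_
      rw [Finset.mem_coe, Finset.mem_biUnion]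
      exact ⟨l, Finset.mem_univ _, Polynomial.coeff_mem_coeffs h0⟩
  have hl : ∀ l, ∃ q : Polynomial A, q.map (A.val : A →+* M) = P l := by
    intro l
    rw [← Polynomial.mem_lifts, Polynomial.lifts_iff_coeff_lifts]
    intro i
    exact ⟨⟨_, hcoef l i⟩, rfl⟩
  choose P0 hP0 using hl
  have hinj : Function.Injective (Polynomial.map (A.val : A →+* M)) :=
    Polynomial.map_injective _ Subtype.val_injective
  have hev : ∀ G : MvPolynomial (Fin (N + 1)) ℂ, (aeval P0 G).map (A.val : A →+* M) = aeval P G := by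
    intro G
    have h1 := comp_aeval_apply (f := P0) (Polynomial.mapAlgHom A.val) G
    have h2 : (fun i => Polynomial.mapAlgHom A.val (P0 i)) = P := funext hP0
    rw [h2] at h1
    exact h1
  -- the form `Q`
  obtain ⟨c1, hc1⟩ : ∃ c1 : A, (c1 : M) = c := by
    refine ⟨(aeval P0 Q : Polynomial A).coeff 0, ?_⟩
    have h1 := congrArg (fun q : Polynomial M => q.coeff 0) (hev Q)
    simp only [Polynomial.coeff_map] at h1
    rw [hQ, Polynomial.coeff_C_zero] at h1
    exact h1
  have hc10 : c1 ≠ 0 := by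
    rintro rfl
    exact hc0 hc1.symm
  have hQ0 : (aeval P0 Q : Polynomial A) = Polynomial.C c1 := by
    apply hinj
    rw [hev, hQ, Polynomial.map_C, ← hc1]
    rfl
  -- the nonzero coefficients
  have hg : ∃ n, (aeval P0 G' : Polynomial A).coeff n ≠ 0 := by
    by_contra hcon
    push Not at hcon
    apply hG
    have h1 : (aeval P0 G' : Polynomial A) = 0 :=
      Polynomial.ext fun n => by rw [hcon n, Polynomial.coeff_zero]
    rw [← hev, h1, Polynomial.map_zero]
  obtain ⟨n, hn⟩ := hg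
  have he0 : ∀ l, (((P0 l).eval 0 : A) : M) = (P l).eval 0 := by
    intro l
    rw [← hP0 l, Polynomial.eval_zero_map]
    rfl
  have he1 : ∀ l, (((P0 l).eval 1 : A) : M) = (P l).eval 1 := by
    intro l
    rw [← hP0 l, Polynomial.eval_one_map]
    rfl
  have hn' : (P0 j).eval 0 * (P0 k).eval 1 - (P0 j).eval 1 * (P0 k).eval 0 ≠ 0 := by
    intro h0
    apply hjk
    rw [← he0, ← he1, ← he0, ← he1, ← Subalgebra.coe_mul, ← Subalgebra.coe_mul,
      sub_eq_zero.1 h0]
  obtain ⟨h, hh⟩ := Pool.Agent.Y737.IL.exists_pt A _ (mul_ne_zero (mul_ne_zero hn hn') hc10)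
  rw [map_mul, map_mul] at hh
  have hh3 := right_ne_zero_of_mul hh
  have hh4 := left_ne_zero_of_mul hh
  have hh1 := left_ne_zero_of_mul hh4
  have hh2 := right_ne_zero_of_mul hh4
  -- the curve over the complex numbers
  have hevh : ∀ G : MvPolynomial (Fin (N + 1)) ℂ,
      aeval (fun l => (P0 l).map (h : A →+* ℂ)) G = (aeval P0 G).map (h : A →+* ℂ) := by
    intro G
    exact (comp_aeval_apply (f := P0) (Polynomial.mapAlgHom h) G).symm
  have hfin := hyp (fun l => (P0 l).map (h : A →+* ℂ)) (by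
    intro G hGI hGh
    have h1 : (aeval P0 G : Polynomial A) = 0 := by
      apply hinj
      rw [hev, hP G hGI hGh, Polynomial.map_zero]
    rw [hevh, h1, Polynomial.map_zero]) ⟨h c1, hh3, by
      rw [hevh, hQ0, Polynomial.map_C]
      rfl⟩ ⟨j, k, fun hc => hh2 (by
      rw [Polynomial.eval_zero_map, Polynomial.eval_zero_map, Polynomial.eval_one_map,
        Polynomial.eval_one_map] at hc
      rw [map_sub, map_mul, map_mul]
      exact sub_eq_zero.2 hc)⟩
  rw [hevh] at hfin
  have h5 := congrArg (fun q : Polynomial ℂ => q.coeff n) hfin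
  simp only [Polynomial.coeff_map, Polynomial.coeff_zero] at h5
  exact hh1 h5

/-- forms which vanish on the images of the affine line vanish on families -/
theorem vanish_of_line {I : Ideal (MvPolynomial (Fin (N + 1)) ℂ)}
    {Q : MvPolynomial (Fin (N + 1)) ℂ} {q : ℕ} (hQ : Q.IsHomogeneous q)
    {G' : MvPolynomial (Fin (N + 1)) ℂ} (hG' : IsForm G')
    (hgm : ∀ p, LineC I Q p → ∀ t, eval (fun j => (p j).eval t) G' = 0)
    (M : Type) [Field M] [Algebra ℂ M] (P : Fin (N + 1) → Polynomial M)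
    (h1 : ∀ G ∈ I, IsForm G → aeval P G = 0)
    (h2 : ∃ c : M, c ≠ 0 ∧ aeval P Q = Polynomial.C c)
    (h3 : ∃ j k, (P j).eval 0 * (P k).eval 1 ≠ (P j).eval 1 * (P k).eval 0) :
    aeval P G' = 0 := by
  refine rc0 (fun p e1 e2 e3 => ?_) M P h1 h2 h3
  obtain ⟨g, p', hpg, hp'⟩ := reduce_line hQ e1 e2 e3
  obtain ⟨d, hd⟩ := hG'
  have hpg' : p = fun j => g * p' j := funext hpg
  have h4 : aeval p' G' = 0 := by
    apply Polynomial.funext
    intro t
    rw [eval_aeval, Polynomial.eval_zero]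
    exact hgm p' hp' t
  rw [hpg', form_scale (A := Polynomial ℂ) hd g p', h4, mul_zero]

end Pool.Agent.N626
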