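import Pool.Agent.N626.Va
import Pool.Agent.N626.Ug

/-!
Curves given by iterated primitives and families of affine lines.
-/

set_option autoImplicit false

namespace Pool.Agent.N626

open MvPolynomial Metric Set Filter Topology Pool.Agent.TH143 Pool.Agent.TH143.DE
open Pool.Agent.W602.GT (IsForm)

variable {N : ℕ} {Ω : Set ℂ} {B : Subalgebra ℂ (ℂ → ℂ)}

/-- The functions `u` and `v` satisfy a nontrivial homogeneous relation with coefficients in `B`. -/
def HomRel (Ω : Set ℂ) (B : Subalgebra ℂ (ℂ → ℂ)) (u v : ℂ → ℂ) : Prop :=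
  ∃ (D : ℕ) (a : ℕ → ℂ → ℂ), (∀ k, a k ∈ B) ∧ (∃ k ≤ D, ∃ z ∈ Ω, a k z ≠ 0) ∧
    ∀ z ∈ Ω, ∑ k ∈ Finset.range (D + 1), a k z * u z ^ k * v z ^ (D - k) = 0

theorem gen_of_not_rel {f : ℂ → Fin (N + 1) → ℂ} {i l : Fin (N + 1)}
    (h : ¬ HomRel Ω B (fun z => f z i) (fun z => f z l)) :
    GenOver Ω B ⊥ fun z m => f z ((![l, i] : Fin (1 + 1) → Fin (N + 1)) m) := by
  classical
  intro D G hG h0
  by_contra hcon
  push Not at hcon
  obtain ⟨z0, hz0, hne⟩ := hcon
  rw [Ideal.mem_bot] at hne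
  let vk : ℕ → (Fin (1 + 1) →₀ ℕ) := fun k => Finsupp.single 0 (D - k) + Finsupp.single 1 k
  have hv0 : ∀ k, vk k 0 = D - k := fun k => by simp [vk]
  have hv1 : ∀ k, vk k 1 = k := fun k => by simp [vk]
  have hvk : ∀ v, G.coeff v ≠ 0 → v 1 ≤ D ∧ v = vk (v 1) := by
    intro v hv
    have e1 : v.degree = D := by
      by_contra hd
      exact hv (hG.coeff_eq_zero hd)
    rw [Finsupp.degree_eq_sum, Fin.sum_univ_two] at e1
    refine ⟨by omega, ?_⟩
    ext m
    fin_cases m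
    · change v 0 = vk (v 1) 0
      rw [hv0]
      omega
    · change v 1 = vk (v 1) 1
      rw [hv1]
  apply h
  refine ⟨D, fun k => ((G.coeff (vk k) : B) : ℂ → ℂ), fun k => (G.coeff (vk k)).2, ?_, ?_⟩
  · by_contra hcon
    push Not at hcon
    apply hne
    ext v
    rw [coeff_atB, coeff_zero]
    by_cases hv : G.coeff v = 0
    · rw [hv]
      rfl
    · obtain ⟨e1, e2⟩ := hvk v hv
      rw [e2]
      exact hcon (v 1) e1 z0 hz0
  · intro z hz
    have e1 := h0 z hz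
    rw [eval_eq'] at e1
    have hinj : ∀ k ∈ Finset.range (D + 1), ∀ k' ∈ Finset.range (D + 1), vk k = vk k' → k = k' := by
      intro k _ k' _ hk
      have := congrArg (fun v : Fin (1 + 1) →₀ ℕ => v 1) hk
      simp only [hv1] at this
      exact this
    have e2 : (atB z G).support ⊆ (Finset.range (D + 1)).image vk := by
      intro v hv
      rw [mem_support_iff, coeff_atB] at hv
      have hv' : G.coeff v ≠ 0 := by
        intro hc
        apply hv
        rw [hc]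
        rfl
      obtain ⟨e3, e4⟩ := hvk v hv'
      rw [Finset.mem_image]
      exact ⟨v 1, Finset.mem_range.2 (by omega), e4.symm⟩
    rw [Finset.sum_subset e2 (fun v _ hv => by rw [notMem_support_iff.1 hv, zero_mul]),
      Finset.sum_image hinj] at e1
    rw [← e1]
    refine Finset.sum_congr rfl fun k _ => ?_
    rw [Fin.prod_univ_two, coeff_atB, hv0, hv1]
    simp only [Matrix.cons_val_zero, Matrix.cons_val_one]
    ring

theorem prim_family (hΩo : IsOpen Ω) (hΩc : IsPreconnected Ω) (hB : DiffRing Ω B)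
    (f : ℂ → Fin (N + 1) → ℂ) (hint : ∀ j, IterPrim Ω B (fun z => f z j))
    {Q : MvPolynomial (Fin (N + 1)) ℂ}
    (hQ0 : ∃ z ∈ Ω, eval (f z) Q ≠ 0) {bq cq : ℂ → ℂ} (hbq : bq ∈ B) (hcq : cq ∈ B)
    (hb0 : ∃ z ∈ Ω, bq z ≠ 0)
    (hlog : ∀ z ∈ Ω, bq z * deriv (fun w => eval (f w) Q) z = cq z * eval (f z) Q)
    {i l : Fin (N + 1)} (hil : ¬ HomRel Ω B (fun z => f z i) (fun z => f z l)) :
    ∃ (M : Type) (_ : Field M) (_ : Algebra ℂ M) (P : Fin (N + 1) → Polynomial M),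
      (∀ G : MvPolynomial (Fin (N + 1)) ℂ, (∃ D, G.IsHomogeneous D) →
        (aeval P G = 0 ↔ ∀ z ∈ Ω, eval (f z) G = 0)) ∧
      (∃ c : M, c ≠ 0 ∧ aeval P Q = Polynomial.C c) ∧
      ∃ j k, (P j).eval 0 ≠ 0 ∧ (P j).eval 0 * (P k).eval 1 ≠ (P j).eval 1 * (P k).eval 0 := by
  classical
  obtain ⟨n, A, ρ, y, L, hs, hL⟩ := nil_fin fun j => (hint j).nilRep hB
  have hf : ∀ j, AnalyticOnNhd ℂ (fun w => f w j) Ω := by
    intro j
    apply DifferentiableOn.analyticOnNhd _ hΩo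
    intro z hz
    have h1 : DifferentiableAt ℂ (fun w => ∑ i, L j i * y w i) z :=
      DifferentiableAt.fun_sum fun i _ => ((hs.der z hz i).differentiableAt).const_mul _
    refine (h1.congr_of_eventuallyEq ?_).differentiableWithinAt
    filter_upwards [hΩo.mem_nhds hz] with w hw
    exact hL w hw j
  let p : Ideal (MvPolynomial (Fin (N + 1)) ℂ) :=
    Ideal.span {G | (∃ D, G.IsHomogeneous D) ∧ ∀ z ∈ Ω, eval (f z) G = 0}
  have hon : ∀ G ∈ p, ∀ z ∈ Ω, eval (f z) G = 0 := by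
    intro G hG z hz
    have h1 : p ≤ RingHom.ker (eval (f z)) :=
      Ideal.span_le.2 fun G hG => hG.2 z hz
    exact h1 hG
  have hdense : ∀ G : MvPolynomial (Fin (N + 1)) ℂ, (∃ e, G.IsHomogeneous e) →
      (∀ z ∈ Ω, eval (f z) G = 0) → G ∈ p := fun G hG h0 => Ideal.subset_span ⟨hG, h0⟩
  obtain ⟨M, i1, i2, W, e1, e2, e3, e4⟩ := sweep_gen_fam hΩo hΩc hB f hf A hs.mem ρ hs.tri y hs.der
    L hL (e := 1) ![l, i] (gen_of_not_rel hil) hQ0 hbq hcq hb0 hlog hon hdense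
  obtain ⟨P, h1, h2, h3⟩ := line_field (p := p) (Q := Q) one_pos ![l, i] e1 e2 e3 e4
  exact ⟨M, i1, i2, P, fun G hG => (h1 G hG).trans ⟨fun hGp z hz => hon G hGp z hz,
    fun h0 => hdense G hG h0⟩, h2, h3⟩

end Pool.Agent.N626
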