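import Pool.Agent.N626.Vb

/-!
Affine lines are given by iterated primitives over the constants.
-/

set_option autoImplicit false

namespace Pool.Agent.N626

open MvPolynomial Metric Set Filter Topology Pool.Agent.TH143 Pool.Agent.TH143.DE
open Pool.Agent.W602.GT (IsForm)

variable {N : ℕ}

theorem diffRing_bot : DiffRing (Set.univ : Set ℂ) (⊥ : Subalgebra ℂ (ℂ → ℂ)) where
  an := by
    intro b hb z _
    obtain ⟨c, rfl⟩ := Algebra.mem_bot.1 hb
    exact analyticAt_const
  der := by
    intro b hb
    obtain ⟨c, rfl⟩ := Algebra.mem_bot.1 hb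
    exact ⟨0, Subalgebra.zero_mem _, fun z _ => hasDerivAt_const z _⟩

theorem iterPrim_poly (q : Polynomial ℂ) :
    IterPrim Set.univ (⊥ : Subalgebra ℂ (ℂ → ℂ)) fun z => q.eval z := by
  intro R _ hR
  have hid : (fun z : ℂ => z) ∈ R := by
    refine hR _ 1 R.one_mem fun z _ => ?_
    rw [Pi.one_apply]
    exact hasDerivAt_id' z
  have h1 : (fun z : ℂ => q.eval z) =
      ((Polynomial.aeval (⟨fun z => z, hid⟩ : R) q : R) : ℂ → ℂ) := by
    funext z
    have h2 := Polynomial.aeval_algHom_apply
      ((Pi.evalAlgHom ℂ (fun _ : ℂ => ℂ) z).comp R.val) (⟨fun z => z, hid⟩ : R) q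
    change Polynomial.aeval z q = _ at h2
    rw [Polynomial.coe_aeval_eq_eval] at h2
    exact h2
  rw [h1]
  exact Subtype.prop _

theorem const_of_no_root {P : Polynomial ℂ} (h : ∀ t, P.eval t ≠ 0) :
    ∃ c : ℂ, P = Polynomial.C c := by
  have h1 : P.degree = 0 := by
    by_contra hne
    obtain ⟨t, ht⟩ := IsAlgClosed.exists_root P hne
    exact h t ht
  obtain ⟨c, hc⟩ := Polynomial.natDegree_eq_zero.1 (Polynomial.natDegree_eq_of_degree_eq_some
    (n := 0) h1)
  exact ⟨c, hc.symm⟩

theorem line_bd {I : Ideal (MvPolynomial (Fin (N + 1)) ℂ)} {Q : MvPolynomial (Fin (N + 1)) ℂ}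
    {p : Fin (N + 1) → Polynomial ℂ} (hp : LineC I Q p) (z : ℂ) :
    deriv (fun w => eval (fun j => (p j).eval w) Q) z = 0 := by
  obtain ⟨c, hc⟩ := const_of_no_root (P := aeval p Q) fun t => by
    rw [eval_aeval]
    exact hp.off t
  have h1 : (fun w => eval (fun j => (p j).eval w) Q) = fun _ => c := by
    funext w
    rw [← eval_aeval, hc, Polynomial.eval_C]
  rw [h1, deriv_const]

theorem line_not_alg {I : Ideal (MvPolynomial (Fin (N + 1)) ℂ)} {Q : MvPolynomial (Fin (N + 1)) ℂ}
    {p : Fin (N + 1) → Polynomial ℂ} (hp : LineC I Q p) :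
    ∃ i l, ¬ HomRel Set.univ (⊥ : Subalgebra ℂ (ℂ → ℂ)) (fun z => (p i).eval z)
      (fun z => (p l).eval z) := by
  classical
  obtain ⟨t, u, i, l, hne⟩ := hp.nonconst
  refine ⟨i, l, ?_⟩
  rintro ⟨D, a, ha, ⟨k0, hk0, z0, -, hz0⟩, hrel⟩
  have hpl : p l ≠ 0 := by
    intro h0
    rw [h0, Polynomial.eval_zero, Polynomial.eval_zero, mul_zero, mul_zero] at hne
    exact hne rfl
  have hconst : ∀ k, ∃ c : ℂ, ∀ z, a k z = c := by
    intro k
    obtain ⟨c, hc⟩ := Algebra.mem_bot.1 (ha k)
    exact ⟨c, fun z => by rw [← hc]; rfl⟩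
  choose c hc using hconst
  let g : Polynomial ℂ := ∑ k ∈ Finset.range (D + 1), Polynomial.C (c k) * Polynomial.X ^ k
  have hg : g ≠ 0 := by
    intro h0
    have h1 := congrArg (fun P : Polynomial ℂ => P.coeff k0) h0
    simp only [g, Polynomial.finsetSum_coeff, Polynomial.coeff_C_mul_X_pow,
      Polynomial.coeff_zero] at h1
    rw [Finset.sum_ite_eq, if_pos (Finset.mem_range.2 (by omega))] at h1
    rw [hc k0] at hz0
    exact hz0 h1
  -- the values of the quotient are roots of `g`
  have hroot : ∀ z, (p l).eval z ≠ 0 → g.eval ((p i).eval z / (p l).eval z) = 0 := by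
    intro z hz
    have h1 := hrel z (Set.mem_univ z)
    simp only [hc] at h1
    have h2 : (p l).eval z ^ D * g.eval ((p i).eval z / (p l).eval z) = 0 := by
      rw [← h1]
      simp only [g, Polynomial.eval_finsetSum, Polynomial.eval_mul, Polynomial.eval_C,
        Polynomial.eval_pow, Polynomial.eval_X]
      rw [Finset.mul_sum]
      refine Finset.sum_congr rfl fun k hk => ?_
      have hk' : k ≤ D := by
        have := Finset.mem_range.1 hk
        omega
      rw [div_pow, show (p l).eval z ^ D = (p l).eval z ^ (D - k) * (p l).eval z ^ k by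
        rw [← pow_add, Nat.sub_add_cancel hk']]
      field_simp
    exact (mul_eq_zero.1 h2).resolve_left (pow_ne_zero _ hz)
  -- so the product of the polynomials `p i - r p l` over the roots `r` vanishes
  have hprod : p l * ∏ r ∈ g.roots.toFinset, (p i - Polynomial.C r * p l) = 0 := by
    apply Polynomial.funext
    intro z
    rw [Polynomial.eval_mul, Polynomial.eval_zero]
    by_cases hz : (p l).eval z = 0
    · rw [hz, zero_mul]
    · rw [Polynomial.eval_prod]
      refine mul_eq_zero_of_right _ (Finset.prod_eq_zero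
        (i := (p i).eval z / (p l).eval z) ?_ ?_)
      · rw [Multiset.mem_toFinset, Polynomial.mem_roots hg]
        exact hroot z hz
      · rw [Polynomial.eval_sub, Polynomial.eval_mul, Polynomial.eval_C, div_mul_cancel₀ _ hz,
          sub_self]
  rcases mul_eq_zero.1 hprod with h0 | h0
  · exact hpl h0
  · obtain ⟨r, -, hr⟩ := Finset.prod_eq_zero_iff.1 h0
    apply hne
    rw [sub_eq_zero.1 hr, Polynomial.eval_mul, Polynomial.eval_mul, Polynomial.eval_C,
      Polynomial.eval_C]
    ring

end Pool.Agent.N626
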